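import Mathlib
import Pool.Agent.Lib.MP_392c14_co.StepA5
import Pool.Agent.Lib.MP_392c14_co.OwnAvg3
import Pool.Agent.Lib.MP_392c14_co.LinkEx

/-!
# Accounting with six probability measures: normalised densities

`tt i j k` is the density of the edges between the measures `μ i, μ j, μ k`.  `mN` is the expected
number of missing blocks, `MN a` those at `a`, `BN a`, `BO a`, `GN a` the densities of the wrong
edges, `eN a` the deficiency of the inner density, `YN a` the deviation of the degree.
-/

set_option autoImplicit false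

namespace K4m

open Finset

section Acc

variable {V : Type} [Fintype V] (G : TG V) (μ : Fin 6 → V → ℝ)

/-- densities between the six measures -/
noncomputable def tt (i j k : Fin 6) : ℝ := tri G (μ i) (μ j) (μ k)

/-- missing density of a block -/
noncomputable def pB (i j k : Fin 6) : ℝ := blk i j k * (1 - tt G μ i j k)

/-- expected number of missing blocks -/
noncomputable def mN : ℝ := 1 / 6 * ∑ i, ∑ j, ∑ k, pB G μ i j k

/-- expected number of missing blocks at `a` -/
noncomputable def MN (a : Fin 6) : ℝ := 1 / 2 * ∑ j, ∑ k, pB G μ a j k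

/-- density of the edges in the nonblocks at `a` -/
noncomputable def GN (a : Fin 6) : ℝ := 1 / 2 * ∑ j, ∑ k, nbl a j k * tt G μ a j k

/-- density of the edges with two points in `a` -/
noncomputable def BN (a : Fin 6) : ℝ := ∑ j, nee a j * tt G μ a a j

/-- density of the edges with one point in `a` and two in another class -/
noncomputable def BO (a : Fin 6) : ℝ := ∑ j, nee a j * tt G μ j j a

/-- deficiency of the inner density -/
noncomputable def eN (a : Fin 6) : ℝ := rho - tt G μ a a a

/-- deviation of the degree of the class `a` -/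
noncomputable def YN (a : Fin 6) : ℝ := ∑ j, ∑ k, tt G μ a j k - (10 + rho)

/-- deficiency of the uniform mixture -/
noncomputable def dN : ℝ := 216 * rho - ∑ i, ∑ j, ∑ k, tt G μ i j k

theorem tt_swap12 (i j k : Fin 6) : tt G μ j i k = tt G μ i j k := tri_swap12 G _ _ _

theorem tt_swap23 (i j k : Fin 6) : tt G μ i k j = tt G μ i j k := (tri_swap23 G _ _ _).symm

theorem tt_rot (i j k : Fin 6) : tt G μ j k i = tt G μ i j k := by
  rw [tt_swap23, tt_swap12]

theorem pB_swap12 (i j k : Fin 6) : pB G μ j i k = pB G μ i j k := by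
  unfold pB; rw [blk_swap12, tt_swap12]

theorem pB_swap23 (i j k : Fin 6) : pB G μ i k j = pB G μ i j k := by
  unfold pB
  rw [tt_swap23]
  congr 1
  unfold blk
  rw [D6.symm₂]

theorem tri_le_mass (u v p : V → ℝ) (hu : ∀ x, 0 ≤ u x) (hv : ∀ x, 0 ≤ v x) (hp : ∀ x, 0 ≤ p x) :
    tri G u v p ≤ (∑ x, u x) * (∑ x, v x) * ∑ x, p x := by
  unfold tri
  have e : (∑ x, u x) * (∑ x, v x) * ∑ x, p x = ∑ x, ∑ y, ∑ z, u x * v y * p z := by
    rw [mul_assoc, sum_mul]
    refine sum_congr rfl fun x _ => ?_
    rw [sum_mul, mul_sum]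
    refine sum_congr rfl fun y _ => ?_
    rw [mul_sum, mul_sum]
    exact sum_congr rfl fun z _ => by ring
  rw [e]
  refine sum_le_sum fun x _ => sum_le_sum fun y _ => sum_le_sum fun z _ => ?_
  have h1 : 0 ≤ u x * v y * p z := mul_nonneg (mul_nonneg (hu x) (hv y)) (hp z)
  calc u x * v y * p z * ind (G.E x y z) ≤ u x * v y * p z * 1 :=
        mul_le_mul_of_nonneg_left (ind_le_one _) h1
    _ = u x * v y * p z := mul_one _

variable {G μ}

theorem tt_nonneg (hμ : ∀ a, IsW (μ a)) (i j k : Fin 6) : 0 ≤ tt G μ i j k := by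
  unfold tt tri
  refine sum_nonneg fun x _ => sum_nonneg fun y _ => sum_nonneg fun z _ => ?_
  exact mul_nonneg (mul_nonneg (mul_nonneg ((hμ i).nonneg x) ((hμ j).nonneg y)) ((hμ k).nonneg z))
    (ind_nonneg _)

theorem tt_le_one (hμ : ∀ a, IsW (μ a)) (i j k : Fin 6) : tt G μ i j k ≤ 1 := by
  have h := tri_le_mass G (μ i) (μ j) (μ k) (hμ i).nonneg (hμ j).nonneg (hμ k).nonneg
  rw [(hμ i).sum_eq, (hμ j).sum_eq, (hμ k).sum_eq] at h
  unfold tt
  linarith

theorem tt_own_le (hμ : ∀ a, IsW (μ a)) (a : Fin 6) : tt G μ a a a ≤ rho :=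
  val_le_rho G (μ a) (hμ a)

theorem eN_nonneg (hμ : ∀ a, IsW (μ a)) (a : Fin 6) : 0 ≤ eN G μ a := by
  have := tt_own_le (G := G) hμ a
  unfold eN; linarith

theorem pB_nonneg (hμ : ∀ a, IsW (μ a)) (i j k : Fin 6) : 0 ≤ pB G μ i j k := by
  have := tt_le_one (G := G) hμ i j k
  exact mul_nonneg (blk_nonneg _ _ _) (by linarith)

theorem card_ne_six : ∀ a : Fin 6, (univ.filter (fun x : Fin 6 => ¬ x = a)).card = 5 := by decide

/-- the kinds of triples of classes -/
theorem kinds (a j k : Fin 6) : (1 : ℝ) = blk a j k + nbl a j k + p1 a j k + p1 a k j + p1 j k a +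
    e3 a j k := by
  revert a j k
  intro a j k
  unfold blk nbl p1 e3 ind
  by_cases h1 : a = j
  · subst h1
    by_cases h2 : a = k
    · subst h2
      have : D6.E a a a = false := D6.irr a a
      simp [this]
    · have : D6.E a a k = false := D6.irr a k
      have h3 : k ≠ a := fun h => h2 h.symm
      simp [this, h2]
  · by_cases h2 : a = k
    · subst h2
      have : D6.E a j a = false := by rw [D6.symm₂]; exact D6.irr a j
      have h3 : j ≠ a := fun h => h1 h.symm
      simp [this, h1, h3]
    · by_cases h3 : j = k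
      · subst h3
        have h4 : D6.E a j j = false := D6_last a j
        have h5 : j ≠ a := fun h => h1 h.symm
        simp [h4, h1, h5]
      · rcases h : D6.E a j k <;> simp [h1, h2, h3]

theorem YN_eq (a : Fin 6) : YN G μ a = -2 * MN G μ a + 2 * GN G μ a + 2 * BN G μ a + BO G μ a -
    eN G μ a := by
  have h1 : ∑ j, ∑ k, tt G μ a j k = ∑ j, ∑ k, (blk a j k - pB G μ a j k +
      nbl a j k * tt G μ a j k + p1 a j k * tt G μ a j k + p1 a k j * tt G μ a j k +
      p1 j k a * tt G μ a j k + e3 a j k * tt G μ a j k) := by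
    refine sum_congr rfl fun j _ => sum_congr rfl fun k _ => ?_
    have h := kinds a j k
    unfold pB
    calc tt G μ a j k = 1 * tt G μ a j k := (one_mul _).symm
      _ = (blk a j k + nbl a j k + p1 a j k + p1 a k j + p1 j k a + e3 a j k) *
          tt G μ a j k := by rw [← h]
      _ = _ := by ring
  have h2 : ∑ j, ∑ k, p1 a j k * tt G μ a j k = BN G μ a := by
    unfold BN
    rw [sum_eq_single a]
    · refine sum_congr rfl fun k _ => ?_
      unfold p1 nee
      by_cases h : a = k <;> simp [h]
    · intro b _ hb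
      refine sum_eq_zero fun k _ => ?_
      unfold p1
      rw [if_neg (fun h => hb h.1.symm), zero_mul]
    · intro h; exact absurd (mem_univ _) h
  have h3 : ∑ j, ∑ k, p1 a k j * tt G μ a j k = BN G μ a := by
    rw [sum_comm, ← h2]
    refine sum_congr rfl fun j _ => sum_congr rfl fun k _ => ?_
    rw [tt_swap23]
  have h4 : ∑ j, ∑ k, p1 j k a * tt G μ a j k = BO G μ a := by
    unfold BO
    refine sum_congr rfl fun j _ => ?_
    rw [sum_eq_single j]
    · unfold p1 nee
      rw [tt_rot G μ a j j]
      by_cases h : a = j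
      · subst h; simp
      · have : j ≠ a := fun h' => h h'.symm
        simp [h, this]
    · intro k _ hk
      unfold p1
      rw [if_neg (fun h => hk h.1.symm), zero_mul]
    · intro h; exact absurd (mem_univ _) h
  have h5 : ∑ j, ∑ k, e3 a j k * tt G μ a j k = tt G μ a a a := by
    rw [sum_eq_single a]
    · rw [sum_eq_single a]
      · unfold e3; simp
      · intro k _ hk
        unfold e3
        rw [if_neg (fun h => hk h.2.symm), zero_mul]
      · intro h; exact absurd (mem_univ _) h
    · intro b _ hb
      refine sum_eq_zero fun k _ => ?_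
      unfold e3
      rw [if_neg (fun h => hb h.1.symm), zero_mul]
    · intro h; exact absurd (mem_univ _) h
  have h6 : ∑ j, ∑ k, blk a j k = 10 := by
    have : ∀ j, ∑ k, blk a j k = if j = a then 0 else 2 := by
      intro j
      by_cases h : j = a
      · subst h
        rw [if_pos rfl]
        exact sum_eq_zero fun k _ => blk_eq_zero j k
      · rw [if_neg h]
        exact blk_sum a j (fun h' => h h'.symm)
    rw [sum_congr rfl fun j _ => this j]
    rw [sum_ite, sum_const_zero, zero_add, sum_const, card_ne_six a]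
    norm_num
  unfold YN
  rw [h1]
  simp only [sum_add_distrib, sum_sub_distrib]
  rw [h2, h3, h4, h5, h6]
  unfold MN GN eN
  ring

end Acc

end K4m
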