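import Mathlib
import Pool.Agent.Lib.MP_392c14_co.Acc.Base

/-!
# Couplings between the wrong edges and the missing blocks; deviations of sets of classes
-/

set_option autoImplicit false

namespace K4m

open Finset

section Four

variable {V : Type} [Fintype V] (G : TG V)

/-- four random points span at most two edges through the first one -/
theorem four_le (p q r s : V → ℝ) (hp : IsW p) (hq : IsW q) (hr : IsW r) (hs : IsW s) :
    tri G p q r + tri G p q s + tri G p r s ≤ 2 := by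
  have e1 : tri G p q r = ∑ x, ∑ y, ∑ z, ∑ v, p x * q y * r z * s v * ind (G.E x y z) := by
    unfold tri
    refine sum_congr rfl fun x _ => sum_congr rfl fun y _ => sum_congr rfl fun z _ => ?_
    have : ∑ v, p x * q y * r z * s v * ind (G.E x y z) =
        p x * q y * r z * ind (G.E x y z) * ∑ v, s v := by
      rw [mul_sum]; exact sum_congr rfl fun v _ => by ring
    rw [this, hs.sum_eq, mul_one]
  have e2 : tri G p q s = ∑ x, ∑ y, ∑ z, ∑ v, p x * q y * r z * s v * ind (G.E x y v) := by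
    unfold tri
    refine sum_congr rfl fun x _ => sum_congr rfl fun y _ => ?_
    rw [sum_comm]
    refine sum_congr rfl fun v _ => ?_
    have : ∑ z, p x * q y * r z * s v * ind (G.E x y v) =
        p x * q y * s v * ind (G.E x y v) * ∑ z, r z := by
      rw [mul_sum]; exact sum_congr rfl fun v _ => by ring
    rw [this, hr.sum_eq, mul_one]
  have e3 : tri G p r s = ∑ x, ∑ y, ∑ z, ∑ v, p x * q y * r z * s v * ind (G.E x z v) := by
    unfold tri
    refine sum_congr rfl fun x _ => ?_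
    symm
    rw [sum_comm]
    refine sum_congr rfl fun z _ => ?_
    rw [sum_comm]
    refine sum_congr rfl fun v _ => ?_
    have : ∑ y, p x * q y * r z * s v * ind (G.E x z v) =
        p x * r z * s v * ind (G.E x z v) * ∑ y, q y := by
      rw [mul_sum]; exact sum_congr rfl fun v _ => by ring
    rw [this, hq.sum_eq, mul_one]
  have e4 : ∑ x, ∑ y, ∑ z, ∑ v, p x * q y * r z * s v * 2 = 2 := by
    have h1 : ∀ x y z, ∑ v, p x * q y * r z * s v * 2 = p x * q y * r z * 2 := by
      intro x y z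
      have : ∑ v, p x * q y * r z * s v * 2 = p x * q y * r z * 2 * ∑ v, s v := by
        rw [mul_sum]; exact sum_congr rfl fun v _ => by ring
      rw [this, hs.sum_eq, mul_one]
    simp only [h1]
    have h2 : ∀ x y, ∑ z, p x * q y * r z * 2 = p x * q y * 2 := by
      intro x y
      have : ∑ z, p x * q y * r z * 2 = p x * q y * 2 * ∑ z, r z := by
        rw [mul_sum]; exact sum_congr rfl fun v _ => by ring
      rw [this, hr.sum_eq, mul_one]
    simp only [h2]
    have h3 : ∀ x, ∑ y, p x * q y * 2 = p x * 2 := by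
      intro x
      have : ∑ y, p x * q y * 2 = p x * 2 * ∑ y, q y := by
        rw [mul_sum]; exact sum_congr rfl fun v _ => by ring
      rw [this, hq.sum_eq, mul_one]
    simp only [h3]
    rw [← sum_mul, hp.sum_eq, one_mul]
  rw [e1, e2, e3, ← e4]
  simp only [← sum_add_distrib]
  refine sum_le_sum fun x _ => sum_le_sum fun y _ => sum_le_sum fun z _ => sum_le_sum fun v _ => ?_
  have h0 : 0 ≤ p x * q y * r z * s v := mul_nonneg (mul_nonneg (mul_nonneg (hp.nonneg x)
    (hq.nonneg y)) (hr.nonneg z)) (hs.nonneg v)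
  rw [← mul_add, ← mul_add]
  refine mul_le_mul_of_nonneg_left ?_ h0
  have h1 := G.free x y z v
  rcases a : G.E x y z <;> rcases b : G.E x y v <;> rcases c : G.E x z v <;>
    simp [ind] <;> first | norm_num | skip
  exact h1 ⟨a, b, c⟩

end Four

section Cpl

variable {V : Type} [Fintype V] {G : TG V} {μ : Fin 6 → V → ℝ}

theorem nee_cases (i j : Fin 6) : (i = j ∧ nee i j = 0) ∨ (i ≠ j ∧ nee i j = 1) := by
  unfold nee
  by_cases h : i = j
  · left; exact ⟨h, by rw [if_pos h]⟩
  · right; exact ⟨h, by rw [if_neg h]⟩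

/-- two points in one class -/
theorem bb_le (hμ : ∀ a, IsW (μ a)) (k j : Fin 6) (h : k ≠ j) :
    tt G μ k k j ≤ ∑ a, pB G μ k j a := by
  have h1 : ∀ a, blk k j a * tt G μ k k j ≤ 2 * pB G μ k j a := by
    intro a
    have h2 := four_le G (μ j) (μ k) (μ k) (μ a) (hμ j) (hμ k) (hμ k) (hμ a)
    have e1 : tri G (μ j) (μ k) (μ k) = tt G μ k k j := (tt_rot G μ j k k).symm
    have e2 : tri G (μ j) (μ k) (μ a) = tt G μ k j a := tt_swap12 G μ k j a
    rw [e1, e2] at h2
    have h3 := blk_nonneg k j a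
    unfold pB
    nlinarith
  have h2 := sum_le_sum (s := univ) fun a _ => h1 a
  rw [← sum_mul, blk_sum k j h, ← mul_sum] at h2
  linarith

theorem nbl_aux1 : ∀ i j k a : Fin 6, (i ≠ j ∧ i ≠ k ∧ j ≠ k ∧ D6.E i j k = false) →
    (D6.E i j a = true → (D6.E i k a = true ∧ D6.E j k a = false) ∨
      (D6.E i k a = false ∧ D6.E j k a = true)) := by decide +kernel

theorem nbl_aux2 : ∀ i j k : Fin 6, (i ≠ j ∧ i ≠ k ∧ j ≠ k ∧ D6.E i j k = false) →
    (univ.filter (fun a : Fin 6 => (D6.E i j a && D6.E i k a || D6.E i j a && D6.E j k a ||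
      D6.E i k a && D6.E j k a) = true)).card = 3 := by decide +kernel

/-- three points in a nonblock -/
theorem gg_le (hμ : ∀ a, IsW (μ a)) (i j k : Fin 6)
    (h : i ≠ j ∧ i ≠ k ∧ j ≠ k ∧ D6.E i j k = false) :
    3 * tt G μ i j k ≤ ∑ a, (pB G μ i j a + pB G μ i k a + pB G μ j k a) := by
  have h1 : ∀ a, ind (D6.E i j a && D6.E i k a || D6.E i j a && D6.E j k a ||
      D6.E i k a && D6.E j k a) * tt G μ i j k ≤ pB G μ i j a + pB G μ i k a + pB G μ j k a := by
    intro a
    have p1 := pB_nonneg (G := G) hμ i j a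
    have p2 := pB_nonneg (G := G) hμ i k a
    have p3 := pB_nonneg (G := G) hμ j k a
    have f1 := four_le G (μ i) (μ j) (μ k) (μ a) (hμ i) (hμ j) (hμ k) (hμ a)
    have f2 := four_le G (μ j) (μ i) (μ k) (μ a) (hμ j) (hμ i) (hμ k) (hμ a)
    have f3 := four_le G (μ k) (μ i) (μ j) (μ a) (hμ k) (hμ i) (hμ j) (hμ a)
    have g1 : tri G (μ i) (μ j) (μ k) = tt G μ i j k := rfl
    have g2 : tri G (μ j) (μ i) (μ k) = tt G μ i j k := tt_swap12 G μ i j k
    have g3 : tri G (μ k) (μ i) (μ j) = tt G μ i j k := (tt_rot G μ k i j).symm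
    have g4 : tri G (μ i) (μ j) (μ a) = tt G μ i j a := rfl
    have g5 : tri G (μ i) (μ k) (μ a) = tt G μ i k a := rfl
    have g6 : tri G (μ j) (μ k) (μ a) = tt G μ j k a := rfl
    have g7 : tri G (μ j) (μ i) (μ a) = tt G μ i j a := tt_swap12 G μ i j a
    have g8 : tri G (μ k) (μ i) (μ a) = tt G μ i k a := tt_swap12 G μ i k a
    have g9 : tri G (μ k) (μ j) (μ a) = tt G μ j k a := tt_swap12 G μ j k a
    rw [g1, g4, g5] at f1
    rw [g2, g7, g6] at f2
    rw [g3, g8, g9] at f3
    unfold pB at p1 p2 p3 ⊢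
    unfold blk at p1 p2 p3 ⊢
    rcases a1 : D6.E i j a <;> rcases a2 : D6.E i k a <;> rcases a3 : D6.E j k a <;>
      simp only [a1, a2, a3, ind, Bool.and_self, Bool.and_true, Bool.and_false, Bool.or_self,
        Bool.or_true, Bool.or_false, Bool.false_and, Bool.true_and, if_true, if_false,
        Bool.false_eq_true, Bool.true_or, Bool.false_or] at p1 p2 p3 ⊢ <;> linarith
  have h2 := sum_le_sum (s := univ) fun a _ => h1 a
  rw [← sum_mul] at h2
  have h3 : ∑ a, ind (D6.E i j a && D6.E i k a || D6.E i j a && D6.E j k a ||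
      D6.E i k a && D6.E j k a) = 3 := by
    unfold ind
    rw [sum_ite, sum_const_zero, add_zero, sum_const, nbl_aux2 i j k h]
    norm_num
  rw [h3] at h2
  exact h2

theorem BN_le (hμ : ∀ a, IsW (μ a)) (a : Fin 6) : BN G μ a ≤ 2 * MN G μ a := by
  unfold BN MN
  have : 2 * (1 / 2 * ∑ j, ∑ k, pB G μ a j k) = ∑ j, ∑ k, pB G μ a j k := by ring
  rw [this]
  refine sum_le_sum fun j _ => ?_
  rcases nee_cases a j with ⟨h, e⟩ | ⟨h, e⟩
  · rw [e, zero_mul]; exact sum_nonneg fun k _ => pB_nonneg hμ _ _ _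
  · rw [e, one_mul]; exact bb_le hμ a j h

theorem MN_nonneg (hμ : ∀ a, IsW (μ a)) (a : Fin 6) : 0 ≤ MN G μ a :=
  mul_nonneg (by norm_num) (sum_nonneg fun j _ => sum_nonneg fun k _ => pB_nonneg hμ _ _ _)

theorem mN_nonneg (hμ : ∀ a, IsW (μ a)) : 0 ≤ mN G μ :=
  mul_nonneg (by norm_num) (sum_nonneg fun i _ => sum_nonneg fun j _ => sum_nonneg fun k _ =>
    pB_nonneg hμ _ _ _)

theorem BN_nonneg (hμ : ∀ a, IsW (μ a)) (a : Fin 6) : 0 ≤ BN G μ a :=
  sum_nonneg fun j _ => mul_nonneg (nee_nonneg _ _) (tt_nonneg hμ _ _ _)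

theorem BO_nonneg (hμ : ∀ a, IsW (μ a)) (a : Fin 6) : 0 ≤ BO G μ a :=
  sum_nonneg fun j _ => mul_nonneg (nee_nonneg _ _) (tt_nonneg hμ _ _ _)

theorem nbl_nn (i j k : Fin 6) : 0 ≤ nbl i j k := by
  unfold nbl; split_ifs <;> norm_num

theorem GN_nonneg (hμ : ∀ a, IsW (μ a)) (a : Fin 6) : 0 ≤ GN G μ a :=
  mul_nonneg (by norm_num) (sum_nonneg fun j _ => sum_nonneg fun k _ =>
    mul_nonneg (nbl_nn _ _ _) (tt_nonneg hμ _ _ _))

theorem sum_MN : ∑ a, MN G μ a = 3 * mN G μ := by
  unfold MN mN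
  rw [← mul_sum]; ring

theorem pB_irr (a k : Fin 6) : pB G μ a a k = 0 := by
  unfold pB; rw [blk_eq_zero, zero_mul]

/-- sums over ordered triples, symmetrised -/
theorem sum_sym12 (f : Fin 6 → ℝ) : ∑ i, ∑ j, ∑ k, pB G μ i j k * f j =
    ∑ i, ∑ j, ∑ k, pB G μ i j k * f i := by
  rw [sum_comm]
  refine sum_congr rfl fun i _ => sum_congr rfl fun j _ => sum_congr rfl fun k _ => ?_
  rw [pB_swap12]

theorem MN_le (hμ : ∀ a, IsW (μ a)) (a : Fin 6) : MN G μ a ≤ mN G μ := by
  have h1 : ∀ i j k, pB G μ i j k * ((if i = a then (1 : ℝ) else 0) +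
      (if j = a then (1 : ℝ) else 0) + (if k = a then (1 : ℝ) else 0)) ≤ pB G μ i j k := by
    intro i j k
    have h0 := pB_nonneg (G := G) hμ i j k
    by_cases h12 : i = j
    · subst h12
      rw [pB_irr]; simp
    · by_cases h13 : i = k
      · subst h13
        rw [← pB_swap23, pB_irr]; simp
      · by_cases h23 : j = k
        · subst h23
          have : pB G μ i j j = 0 := by
            rw [← pB_swap12, ← pB_swap23, pB_irr]
          rw [this]; simp
        · have : (if i = a then (1 : ℝ) else 0) + (if j = a then (1 : ℝ) else 0) +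
              (if k = a then (1 : ℝ) else 0) ≤ 1 := by
            by_cases e1 : i = a
            · have e2 : ¬ j = a := fun h => h12 (e1.trans h.symm)
              have e3 : ¬ k = a := fun h => h13 (e1.trans h.symm)
              rw [if_pos e1, if_neg e2, if_neg e3]; norm_num
            · by_cases e2 : j = a
              · have e3 : ¬ k = a := fun h => h23 (e2.trans h.symm)
                rw [if_neg e1, if_pos e2, if_neg e3]; norm_num
              · rw [if_neg e1, if_neg e2]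
                split_ifs <;> norm_num
          calc _ ≤ pB G μ i j k * 1 := mul_le_mul_of_nonneg_left this h0
            _ = _ := mul_one _
  have h2 : ∑ i, ∑ j, ∑ k, pB G μ i j k * ((if i = a then (1 : ℝ) else 0) +
      (if j = a then (1 : ℝ) else 0) + (if k = a then (1 : ℝ) else 0)) ≤
      ∑ i, ∑ j, ∑ k, pB G μ i j k :=
    sum_le_sum fun i _ => sum_le_sum fun j _ => sum_le_sum fun k _ => h1 i j k
  have h3 : ∑ i, ∑ j, ∑ k, pB G μ i j k * (if i = a then (1 : ℝ) else 0) =
      ∑ j, ∑ k, pB G μ a j k := by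
    rw [sum_eq_single a]
    · refine sum_congr rfl fun j _ => sum_congr rfl fun k _ => by rw [if_pos rfl, mul_one]
    · intro b _ hb
      refine sum_eq_zero fun j _ => sum_eq_zero fun k _ => by rw [if_neg hb, mul_zero]
    · intro h; exact absurd (mem_univ _) h
  have h4 := sum_sym12 (G := G) (μ := μ) (fun i => if i = a then (1 : ℝ) else 0)
  have h5 : ∑ i, ∑ j, ∑ k, pB G μ i j k * (if k = a then (1 : ℝ) else 0) =
      ∑ i, ∑ j, ∑ k, pB G μ i j k * (if j = a then (1 : ℝ) else 0) := by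
    refine sum_congr rfl fun i _ => ?_
    rw [sum_comm]
    refine sum_congr rfl fun j _ => sum_congr rfl fun k _ => ?_
    rw [pB_swap23]
  simp only [mul_add, sum_add_distrib] at h2
  rw [h5, h4, h3] at h2
  unfold MN mN
  linarith

/-- deviations of a set of classes -/
theorem Y_set (hμ : ∀ a, IsW (μ a)) (S : Finset (Fin 6)) (δ : ℝ)
    (h4 : ∑ a ∈ Sᶜ, (eN G μ a - 3 * BN G μ a) ≤ δ) :
    ∑ a ∈ S, YN G μ a ≤ 24 / 5 * mN G μ + 4 / 5 * ∑ a, YN G μ a + 4 / 5 * δ := by
  classical
  set s : Fin 6 → ℝ := fun a => if a ∈ S then 1 else 0 with hs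
  have s01 : ∀ a, s a = 0 ∨ s a = 1 := by
    intro a; simp only [hs]; split_ifs
    · right; rfl
    · left; rfl
  have s0 : ∀ a, 0 ≤ s a := fun a => by rcases s01 a with h | h <;> rw [h]; norm_num
  have s1 : ∀ a, s a ≤ 1 := fun a => by rcases s01 a with h | h <;> rw [h]; norm_num
  have e1 : ∑ a ∈ S, YN G μ a = ∑ a, s a * YN G μ a := by
    simp only [hs, ite_mul, one_mul, zero_mul]
    rw [sum_ite_mem, univ_inter]
  have e2 : ∑ a ∈ Sᶜ, (eN G μ a - 3 * BN G μ a) =
      ∑ a, (1 - s a) * (eN G μ a - 3 * BN G μ a) := by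
    rw [← sum_filter_add_sum_filter_not univ (fun a => a ∈ S)
      (fun a => (1 - s a) * (eN G μ a - 3 * BN G μ a))]
    have z1 : ∑ a ∈ univ.filter (fun a => a ∈ S), (1 - s a) * (eN G μ a - 3 * BN G μ a) = 0 := by
      refine sum_eq_zero fun a ha => ?_
      have : s a = 1 := by simp only [hs]; rw [if_pos (mem_filter.1 ha).2]
      rw [this]; ring
    rw [z1, zero_add]
    have z2 : Sᶜ = univ.filter (fun a => ¬ a ∈ S) := by
      ext a; simp
    rw [z2]
    refine sum_congr rfl fun a ha => ?_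
    have : s a = 0 := by simp only [hs]; rw [if_neg (mem_filter.1 ha).2]
    rw [this]; ring
  rw [e2] at h4
  rw [e1]
  -- the three groups
  have hB : ∑ a, ((4 / 5 - 2 / 5 * s a) * BN G μ a + (s a - 4 / 5) * BO G μ a) ≤
      ∑ a, ∑ j, ∑ k, pB G μ a j k * (s j - 2 / 5 * (s a * s j)) := by
    have q1 : ∑ a, ((4 / 5 - 2 / 5 * s a) * BN G μ a + (s a - 4 / 5) * BO G μ a) =
        ∑ a, ∑ j, (s j - 2 / 5 * s a) * (nee a j * tt G μ a a j) := by
      rw [sum_add_distrib]
      have q2 : ∑ a, (s a - 4 / 5) * BO G μ a =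
          ∑ a, ∑ j, (s j - 4 / 5) * (nee a j * tt G μ a a j) := by
        unfold BO
        rw [sum_comm]
        refine sum_congr rfl fun a _ => ?_
        rw [mul_sum]
        refine sum_congr rfl fun j _ => ?_
        have : nee a j = nee j a := by
          unfold nee
          by_cases h : a = j
          · rw [if_pos h, if_pos h.symm]
          · rw [if_neg h, if_neg (fun h' => h h'.symm)]
        rw [this]
      rw [q2, ← sum_add_distrib]
      refine sum_congr rfl fun a _ => ?_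
      unfold BN
      rw [mul_sum, ← sum_add_distrib]
      exact sum_congr rfl fun j _ => by ring
    rw [q1]
    refine sum_le_sum fun a _ => sum_le_sum fun j _ => ?_
    rcases nee_cases a j with ⟨h, e⟩ | ⟨h, e⟩
    · rw [e]
      have : ∑ k, pB G μ a j k * (s j - 2 / 5 * (s a * s j)) = 0 := by
        refine sum_eq_zero fun k _ => ?_
        subst h
        rw [pB_irr, zero_mul]
      rw [this]; ring_nf; rfl
    · rw [e, ← sum_mul, one_mul]
      have t0 := tt_nonneg (G := G) hμ a a j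
      have t1 := bb_le (G := G) hμ a j h
      have c0 : 0 ≤ s j - 2 / 5 * (s a * s j) := by
        have : s a * s j ≤ 1 * s j := mul_le_mul_of_nonneg_right (s1 a) (s0 j)
        have := s0 j
        linarith
      have c1 : s j - 2 / 5 * s a ≤ s j - 2 / 5 * (s a * s j) := by
        have : s a * s j ≤ s a * 1 := mul_le_mul_of_nonneg_left (s1 j) (s0 a)
        linarith
      calc (s j - 2 / 5 * s a) * tt G μ a a j ≤ (s j - 2 / 5 * (s a * s j)) * tt G μ a a j :=
            mul_le_mul_of_nonneg_right c1 t0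
        _ ≤ (s j - 2 / 5 * (s a * s j)) * ∑ k, pB G μ a j k :=
            mul_le_mul_of_nonneg_left t1 c0
        _ = _ := by ring
  have hG : ∑ a, (s a - 4 / 5) * (2 * GN G μ a) ≤
      ∑ a, ∑ j, ∑ k, pB G μ a j k * (2 / 5 * (s a * s j)) := by
    have q1 : ∑ a, (s a - 4 / 5) * (2 * GN G μ a) =
        ∑ a, ∑ j, ∑ k, nbl a j k * tt G μ a j k * (s a - 4 / 5) := by
      refine sum_congr rfl fun a _ => ?_
      unfold GN
      have : (s a - 4 / 5) * (2 * (1 / 2 * ∑ j, ∑ k, nbl a j k * tt G μ a j k)) =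
          (∑ j, ∑ k, nbl a j k * tt G μ a j k) * (s a - 4 / 5) := by ring
      rw [this, sum_mul]
      refine sum_congr rfl fun j _ => ?_
      rw [sum_mul]
    have q2 : ∑ a, ∑ j, ∑ k, nbl a j k * tt G μ a j k * (s a - 4 / 5) =
        ∑ a, ∑ j, ∑ k, nbl a j k * tt G μ a j k * (s j - 4 / 5) := by
      rw [sum_comm]
      refine sum_congr rfl fun a _ => sum_congr rfl fun j _ => sum_congr rfl fun k _ => ?_
      rw [nbl_swap12, tt_swap12]
    have q3 : ∑ a, ∑ j, ∑ k, nbl a j k * tt G μ a j k * (s j - 4 / 5) =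
        ∑ a, ∑ j, ∑ k, nbl a j k * tt G μ a j k * (s k - 4 / 5) := by
      refine sum_congr rfl fun a _ => ?_
      rw [sum_comm]
      refine sum_congr rfl fun j _ => sum_congr rfl fun k _ => ?_
      rw [nbl_swap23, tt_swap23]
    have q4 : ∑ a, (s a - 4 / 5) * (2 * GN G μ a) =
        ∑ a, ∑ j, ∑ k, nbl a j k * tt G μ a j k * ((s a + s j + s k - 12 / 5) / 3) := by
      have : ∑ a, ∑ j, ∑ k, nbl a j k * tt G μ a j k * ((s a + s j + s k - 12 / 5) / 3) =
          1 / 3 * (∑ a, ∑ j, ∑ k, nbl a j k * tt G μ a j k * (s a - 4 / 5) +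
          ∑ a, ∑ j, ∑ k, nbl a j k * tt G μ a j k * (s j - 4 / 5) +
          ∑ a, ∑ j, ∑ k, nbl a j k * tt G μ a j k * (s k - 4 / 5)) := by
        simp only [← sum_add_distrib, mul_sum]
        refine sum_congr rfl fun a _ => sum_congr rfl fun j _ => sum_congr rfl fun k _ => ?_
        ring
      rw [this, ← q3, ← q2, q1]; ring
    rw [q4]
    -- pass to the blocks
    have q5 : ∑ a, ∑ j, ∑ k, nbl a j k * tt G μ a j k * ((s a + s j + s k - 12 / 5) / 3) ≤
        ∑ a, ∑ j, ∑ k, nbl a j k * (1 / 15 * (s a * s j * s k)) *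
          ∑ l, (pB G μ a j l + pB G μ a k l + pB G μ j k l) := by
      refine sum_le_sum fun a _ => sum_le_sum fun j _ => sum_le_sum fun k _ => ?_
      have t0 := tt_nonneg (G := G) hμ a j k
      unfold nbl
      by_cases h : a ≠ j ∧ a ≠ k ∧ j ≠ k ∧ D6.E a j k = false
      · rw [if_pos h, one_mul, one_mul]
        have g := gg_le (G := G) hμ a j k h
        have c1 : (s a + s j + s k - 12 / 5) / 3 ≤ 1 / 5 * (s a * s j * s k) := by
          rcases s01 a with h1 | h1 <;> rcases s01 j with h2 | h2 <;>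
            rcases s01 k with h3 | h3 <;> rw [h1, h2, h3] <;> norm_num
        have c0 : 0 ≤ s a * s j * s k := mul_nonneg (mul_nonneg (s0 a) (s0 j)) (s0 k)
        calc tt G μ a j k * ((s a + s j + s k - 12 / 5) / 3) ≤
            tt G μ a j k * (1 / 5 * (s a * s j * s k)) := mul_le_mul_of_nonneg_left c1 t0
          _ = 1 / 15 * (s a * s j * s k) * (3 * tt G μ a j k) := by ring
          _ ≤ _ := mul_le_mul_of_nonneg_left g (by linarith)
      · rw [if_neg h]; simp
    refine q5.trans ?_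
    -- symmetrise
    have q6 : ∑ a, ∑ j, ∑ k, nbl a j k * (1 / 15 * (s a * s j * s k)) *
          ∑ l, (pB G μ a j l + pB G μ a k l + pB G μ j k l) =
        3 * ∑ a, ∑ j, ∑ k, nbl a j k * (1 / 15 * (s a * s j * s k)) * ∑ l, pB G μ a j l := by
      have r1 : ∑ a, ∑ j, ∑ k, nbl a j k * (1 / 15 * (s a * s j * s k)) * ∑ l, pB G μ a k l =
          ∑ a, ∑ j, ∑ k, nbl a j k * (1 / 15 * (s a * s j * s k)) * ∑ l, pB G μ a j l := by
        refine sum_congr rfl fun a _ => ?_
        rw [sum_comm]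
        refine sum_congr rfl fun j _ => sum_congr rfl fun k _ => ?_
        rw [nbl_swap23]; ring
      have r2 : ∑ a, ∑ j, ∑ k, nbl a j k * (1 / 15 * (s a * s j * s k)) * ∑ l, pB G μ j k l =
          ∑ a, ∑ j, ∑ k, nbl a j k * (1 / 15 * (s a * s j * s k)) * ∑ l, pB G μ a k l := by
        rw [sum_comm]
        refine sum_congr rfl fun a _ => sum_congr rfl fun j _ => sum_congr rfl fun k _ => ?_
        rw [nbl_swap12]; ring
      simp only [sum_add_distrib, mul_add]
      rw [r2, r1]; ring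
    rw [q6, mul_sum]
    refine sum_le_sum fun a _ => ?_
    rw [mul_sum]
    refine sum_le_sum fun j _ => ?_
    have p0 : 0 ≤ ∑ l, pB G μ a j l := sum_nonneg fun l _ => pB_nonneg hμ _ _ _
    have q7 : ∑ k, nbl a j k * (1 / 15 * (s a * s j * s k)) * ∑ l, pB G μ a j l =
        (1 / 15 * (s a * s j) * ∑ k, nbl a j k * s k) * ∑ l, pB G μ a j l := by
      rw [← sum_mul]
      congr 1
      rw [mul_sum]
      exact sum_congr rfl fun k _ => by ring
    rw [q7]
    have q8 : ∑ k, pB G μ a j k * (2 / 5 * (s a * s j)) =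
        2 / 5 * (s a * s j) * ∑ l, pB G μ a j l := by
      rw [mul_sum]
      exact sum_congr rfl fun k _ => by ring
    rw [q8]
    have q9 : ∑ k, nbl a j k * s k ≤ 2 := by
      by_cases h : a = j
      · subst h
        have : ∑ k, nbl a a k * s k = 0 := sum_eq_zero fun k _ => by
          rw [nbl_eq_zero, zero_mul]
        rw [this]; norm_num
      · rw [← nbl_sum a j h]
        refine sum_le_sum fun k _ => ?_
        calc nbl a j k * s k ≤ nbl a j k * 1 := mul_le_mul_of_nonneg_left (s1 k) (nbl_nn _ _ _)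
          _ = _ := mul_one _
    have c0 : 0 ≤ s a * s j := mul_nonneg (s0 a) (s0 j)
    have q10 : 3 * (1 / 15 * (s a * s j) * ∑ k, nbl a j k * s k) ≤ 2 / 5 * (s a * s j) := by
      have := mul_le_mul_of_nonneg_left q9 c0
      linarith
    calc 3 * ((1 / 15 * (s a * s j) * ∑ k, nbl a j k * s k) * ∑ l, pB G μ a j l) =
        (3 * (1 / 15 * (s a * s j) * ∑ k, nbl a j k * s k)) * ∑ l, pB G μ a j l := by ring
      _ ≤ _ := mul_le_mul_of_nonneg_right q10 p0
  have hM : ∑ a, (s a - 4 / 5) * (-2 * MN G μ a) =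
      ∑ a, ∑ j, ∑ k, pB G μ a j k * (4 / 5 - s a) := by
    refine sum_congr rfl fun a _ => ?_
    unfold MN
    have : (s a - 4 / 5) * (-2 * (1 / 2 * ∑ j, ∑ k, pB G μ a j k)) =
        (∑ j, ∑ k, pB G μ a j k) * (4 / 5 - s a) := by ring
    rw [this, sum_mul]
    refine sum_congr rfl fun j _ => ?_
    rw [sum_mul]
  have he : ∑ a, (s a - 4 / 5) * (-eN G μ a) ≤
      4 / 5 * ∑ a, (1 - s a) * (eN G μ a - 3 * BN G μ a) +
      ∑ a, 12 / 5 * (1 - s a) * BN G μ a := by
    rw [mul_sum, ← sum_add_distrib]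
    refine sum_le_sum fun a _ => ?_
    have e0 := eN_nonneg (G := G) hμ a
    rcases s01 a with h | h <;> rw [h] <;> linarith
  have hsym := sum_sym12 (G := G) (μ := μ) s
  have total : ∑ a, s a * YN G μ a - 4 / 5 * ∑ a, YN G μ a ≤
      ∑ a, ∑ j, ∑ k, pB G μ a j k * (4 / 5) + 4 / 5 * δ := by
    have t1 : ∑ a, s a * YN G μ a - 4 / 5 * ∑ a, YN G μ a =
        ∑ a, (s a - 4 / 5) * (-2 * MN G μ a) + ∑ a, (s a - 4 / 5) * (2 * GN G μ a) +
        ∑ a, ((4 / 5 - 2 / 5 * s a) * BN G μ a + (s a - 4 / 5) * BO G μ a) -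
        ∑ a, 12 / 5 * (1 - s a) * BN G μ a + ∑ a, (s a - 4 / 5) * (-eN G μ a) := by
      rw [mul_sum, ← sum_sub_distrib]
      simp only [← sum_add_distrib, ← sum_sub_distrib]
      refine sum_congr rfl fun a _ => ?_
      rw [YN_eq]; ring
    rw [t1, hM]
    have t2 : ∑ a, ∑ j, ∑ k, pB G μ a j k * (4 / 5 - s a) +
        ∑ a, ∑ j, ∑ k, pB G μ a j k * (2 / 5 * (s a * s j)) +
        ∑ a, ∑ j, ∑ k, pB G μ a j k * (s j - 2 / 5 * (s a * s j)) =
        ∑ a, ∑ j, ∑ k, pB G μ a j k * (4 / 5) := by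
      have : ∑ a, ∑ j, ∑ k, pB G μ a j k * (4 / 5 - s a) +
        ∑ a, ∑ j, ∑ k, pB G μ a j k * (2 / 5 * (s a * s j)) +
        ∑ a, ∑ j, ∑ k, pB G μ a j k * (s j - 2 / 5 * (s a * s j)) =
        ∑ a, ∑ j, ∑ k, pB G μ a j k * (4 / 5) + (∑ a, ∑ j, ∑ k, pB G μ a j k * s j -
        ∑ a, ∑ j, ∑ k, pB G μ a j k * s a) := by
        simp only [← sum_add_distrib, ← sum_sub_distrib]
        refine sum_congr rfl fun a _ => sum_congr rfl fun j _ => sum_congr rfl fun k _ => ?_
        ring
      rw [this, hsym]; ring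
    linarith
  have hm : ∑ a, ∑ j, ∑ k, pB G μ a j k * (4 / 5) = 24 / 5 * mN G μ := by
    unfold mN
    simp only [← sum_mul]
    ring
  linarith

end Cpl

end K4m
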