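import Mathlib
import Pool.Agent.Lib.MP_392c14_co.Acc.Class

/-!
# Decomposition of the weights into six probability measures and a garbage measure
-/

set_option autoImplicit false

namespace K4m

open Finset

/-- decomposition of the weights into six probability measures with masses `v` and garbage `X` -/
structure Dec {V : Type} [Fintype V] (G : TG V) (w : V → ℝ) (μ : Fin 6 → V → ℝ) (v : Fin 6 → ℝ)
    (X : V → ℝ) (t : ℝ) : Prop where
  hw : IsW w
  hμ : ∀ a, IsW (μ a)
  hv : ∀ a, 0 < v a
  hX : ∀ x, 0 ≤ X x
  dec : ∀ x, w x = ∑ a, v a * μ a x + X x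
  hdeg : ∀ x, deg G w x = t
  hcnd : ∀ f : V → ℝ, ∑ x, f x = 0 → tri G f f w ≤ 0

section Clone

open Function

variable {V : Type} [Fintype V] [DecidableEq V] (G : TG V) (w : V → ℝ)

/-- normalised class of the clones of `u a` -/
noncomputable def muU (u : Fin 6 → V) (a : Fin 6) (x : V) : ℝ :=
  w x * st G (update u a x) / vs G w u a

/-- garbage: the vertices which are not clones -/
noncomputable def XU (u : Fin 6 → V) (x : V) : ℝ := w x * (1 - ∑ a, st G (update u a x))

end Clone

end K4m
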