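import Mathlib
import Pool.Agent.Lib.MP_392c14_co.Acc.Dec

/-!
# Link forms and the exchange bound for the own densities of an arbitrary vertex
-/

set_option autoImplicit false

namespace K4m

open Finset

section Link

variable {V : Type} [Fintype V] (G : TG V)

/-- bilinear form of the link of `x` -/
noncomputable def kk (x : V) (f g : V → ℝ) : ℝ := ∑ y, ∑ z, f y * g z * ind (G.E x y z)

theorem kk_swap (x : V) (f g : V → ℝ) : kk G x g f = kk G x f g := by
  unfold kk
  rw [sum_comm]
  refine sum_congr rfl fun y _ => sum_congr rfl fun z _ => ?_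
  rw [G.symm₂ x z y]
  ring

theorem kk_add (x : V) (f f' g : V → ℝ) (t : ℝ) :
    kk G x (fun y => f y + t * f' y) g = kk G x f g + t * kk G x f' g := by
  unfold kk
  simp only [mul_sum, ← sum_add_distrib]
  refine sum_congr rfl fun y _ => sum_congr rfl fun z _ => ?_
  ring

theorem kk_add2 (x : V) (f g g' : V → ℝ) (t : ℝ) :
    kk G x f (fun y => g y + t * g' y) = kk G x f g + t * kk G x f g' := by
  rw [← kk_swap, kk_add, kk_swap G x f g, kk_swap G x f g']

theorem kk_smul (x : V) (f g : V → ℝ) (t : ℝ) :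
    kk G x (fun y => t * f y) g = t * kk G x f g := by
  unfold kk
  simp only [mul_sum]
  refine sum_congr rfl fun y _ => sum_congr rfl fun z _ => ?_
  ring

theorem kk_smul2 (x : V) (f g : V → ℝ) (t : ℝ) :
    kk G x f (fun y => t * g y) = t * kk G x f g := by
  rw [← kk_swap, kk_smul, kk_swap]

theorem kk_sum {ι : Type} (s : Finset ι) (x : V) (F : ι → V → ℝ) (g : V → ℝ) :
    kk G x (fun y => ∑ i ∈ s, F i y) g = ∑ i ∈ s, kk G x (F i) g := by
  unfold kk
  simp only [sum_mul]
  rw [sum_comm]
  conv_rhs => rw [sum_comm]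
  rw [sum_comm]
  refine sum_congr rfl fun y _ => ?_
  rw [sum_comm]

theorem kk_nonneg (x : V) (f g : V → ℝ) (hf : ∀ y, 0 ≤ f y) (hg : ∀ y, 0 ≤ g y) :
    0 ≤ kk G x f g := by
  unfold kk
  exact sum_nonneg fun y _ => sum_nonneg fun z _ => mul_nonneg (mul_nonneg (hf y) (hg z))
    (ind_nonneg _)

theorem kk_le_mass (x : V) (f g : V → ℝ) (hf : ∀ y, 0 ≤ f y) (hg : ∀ y, 0 ≤ g y) :
    kk G x f g ≤ (∑ y, f y) * ∑ y, g y := by
  unfold kk
  rw [sum_mul]
  refine sum_le_sum fun y _ => ?_
  rw [mul_sum]
  refine sum_le_sum fun z _ => ?_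
  calc f y * g z * ind (G.E x y z) ≤ f y * g z * 1 :=
        mul_le_mul_of_nonneg_left (ind_le_one _) (mul_nonneg (hf y) (hg z))
    _ = f y * g z := mul_one _

theorem tri_eq_kk (f g h : V → ℝ) : tri G f g h = ∑ x, f x * kk G x g h := by
  unfold tri kk
  refine sum_congr rfl fun x _ => ?_
  rw [mul_sum]
  refine sum_congr rfl fun y _ => ?_
  rw [mul_sum]
  refine sum_congr rfl fun z _ => ?_
  ring

theorem deg_eq_kk (w : V → ℝ) (x : V) : deg G w x = kk G x w w := rfl

end Link

section Exch

variable {V : Type} [Fintype V] {G : TG V} {w : V → ℝ} {μ : Fin 6 → V → ℝ} {v : Fin 6 → ℝ}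
  {X : V → ℝ} {t : ℝ}

/-- linear functionals of the weights -/
theorem Dec.lin (D : Dec G w μ v X t) (F : (V → ℝ) → ℝ)
    (hadd : ∀ f g : V → ℝ, F (fun x => f x + g x) = F f + F g)
    (hmul : ∀ (s : ℝ) (f : V → ℝ), F (fun x => s * f x) = s * F f) :
    F w = ∑ a, v a * F (μ a) + F X := by
  have e : w = fun x => (fun x => ∑ a, v a * μ a x) x + X x := by
    funext x; exact D.dec x
  have h0 : F (fun _ => 0) = 0 := by
    have := hmul 0 (fun _ => 0)
    simpa using this
  have h1 : ∀ s : Finset (Fin 6), F (fun x => ∑ a ∈ s, v a * μ a x) = ∑ a ∈ s, v a * F (μ a) := by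
    intro s
    classical
    refine Finset.induction_on s ?_ ?_
    · simp [h0]
    · intro a s ha ih
      have e2 : (fun x => ∑ b ∈ insert a s, v b * μ b x) =
          fun x => (fun x => v a * μ a x) x + (fun x => ∑ b ∈ s, v b * μ b x) x := by
        funext x
        rw [sum_insert ha]
      rw [e2, hadd, hmul, ih, sum_insert ha]
  rw [e, hadd, h1]

theorem Dec.tri_w (D : Dec G w μ v X t) (f g : V → ℝ) :
    tri G f g w = ∑ a, v a * tri G f g (μ a) + tri G f g X := by
  refine D.lin (fun h => tri G f g h) (fun p q => ?_) (fun s p => ?_)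
  · have := tri_lin3 G f g p q 1
    simpa using this
  · show tri G f g (fun x => s * p x) = s * tri G f g p
    have h1 := tri_lin3 G f g (fun _ => 0) p s
    have h2 : tri G f g (fun _ => 0) = 0 := by
      unfold tri; simp
    rw [h2] at h1
    simpa using h1

theorem Dec.kk_w (D : Dec G w μ v X t) (x : V) (f : V → ℝ) :
    kk G x f w = ∑ a, v a * kk G x f (μ a) + kk G x f X := by
  refine D.lin (fun h => kk G x f h) (fun p q => ?_) (fun s p => ?_)
  · have := kk_add2 G x f p q 1
    simpa using this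
  · exact kk_smul2 G x f p s

theorem Dec.sum_v (D : Dec G w μ v X t) : ∑ a, v a + ∑ x, X x = 1 := by
  have h := D.lin (fun f => ∑ x, f x) (fun f g => sum_add_distrib) (fun s f => by
    show ∑ x, s * f x = s * ∑ x, f x
    rw [mul_sum])
  rw [D.hw.sum_eq] at h
  rw [h]
  congr 1
  refine sum_congr rfl fun a _ => ?_
  rw [(D.hμ a).sum_eq, mul_one]

/-- EXCHANGE: own density of an arbitrary vertex in the class `a` -/
theorem Dec.nu_le (D : Dec G w μ v X t) (a : Fin 6) (S : V → Bool)
    (hS : ∀ x, v a * μ a x = w x * ind (S x)) (d : ℝ) (h0 : 0 < d) (h1 : d ≤ 1)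
    (hval : rho - d ^ 2 ≤ val G w) (hvt : val G w = t) (x : V) :
    v a ^ 2 * kk G x (μ a) (μ a) ≤ v a ^ 2 * tt G μ a a a +
      2 * v a * (∑ j, nee a j * (v j * tt G μ a a j) + tri G (μ a) (μ a) X) + (d + d ^ 2) := by
  have h := link_exchange_avg G w D.hw S x d h0 h1 hval (fun z => by rw [D.hdeg, hvt]) (μ a)
    (D.hμ a).nonneg
  rw [(D.hμ a).sum_eq, one_mul, one_mul] at h
  have e1 : ia G w (fun y => ind (S y)) x = v a ^ 2 * kk G x (μ a) (μ a) := by
    unfold ia kk
    rw [mul_sum]
    refine sum_congr rfl fun y _ => ?_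
    rw [mul_sum]
    refine sum_congr rfl fun z _ => ?_
    have hy := hS y
    have hz := hS z
    calc w y * w z * (ind (S y) * ind (S z) * ind (G.E x y z)) =
        (w y * ind (S y)) * (w z * ind (S z)) * ind (G.E x y z) := by ring
      _ = _ := by rw [← hy, ← hz]; ring
  have e2 : ∑ z, μ a z * (2 * ca G w (fun y => ind (S y)) z - ia G w (fun y => ind (S y)) z) =
      2 * v a * tri G (μ a) (μ a) w - v a ^ 2 * tt G μ a a a := by
    have e3 : ∀ z, ca G w (fun y => ind (S y)) z = v a * kk G z (μ a) w := by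
      intro z
      unfold ca kk
      rw [mul_sum]
      refine sum_congr rfl fun y _ => ?_
      rw [mul_sum]
      refine sum_congr rfl fun u _ => ?_
      have hy := hS y
      calc w y * w u * (ind (S y) * ind (G.E z y u)) =
          (w y * ind (S y)) * w u * ind (G.E z y u) := by ring
        _ = _ := by rw [← hy]; ring
    have e4 : ∀ z, ia G w (fun y => ind (S y)) z = v a ^ 2 * kk G z (μ a) (μ a) := by
      intro z
      unfold ia kk
      rw [mul_sum]
      refine sum_congr rfl fun y _ => ?_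
      rw [mul_sum]
      refine sum_congr rfl fun u _ => ?_
      have hy := hS y
      have hz := hS u
      calc w y * w u * (ind (S y) * ind (S u) * ind (G.E z y u)) =
          (w y * ind (S y)) * (w u * ind (S u)) * ind (G.E z y u) := by ring
        _ = _ := by rw [← hy, ← hz]; ring
    unfold tt
    rw [tri_eq_kk, tri_eq_kk, mul_sum, mul_sum, ← sum_sub_distrib]
    refine sum_congr rfl fun z _ => ?_
    rw [e3, e4]; ring
  have e5 : tri G (μ a) (μ a) w = v a * tt G μ a a a +
      (∑ j, nee a j * (v j * tt G μ a a j) + tri G (μ a) (μ a) X) := by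
    rw [D.tri_w]
    have : ∑ j, v j * tri G (μ a) (μ a) (μ j) = v a * tt G μ a a a +
        ∑ j, nee a j * (v j * tt G μ a a j) := by
      have h2 : ∀ j, v j * tri G (μ a) (μ a) (μ j) =
          (if j = a then v a * tt G μ a a a else 0) + nee a j * (v j * tt G μ a a j) := by
        intro j
        unfold nee
        by_cases hj : j = a
        · subst hj; simp [tt]
        · rw [if_neg hj, if_neg (fun h => hj h.symm)]
          unfold tt; ring
      rw [sum_congr rfl fun j _ => h2 j, sum_add_distrib, sum_ite_eq', if_pos (mem_univ _)]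
    rw [this]; ring
  rw [e1, e2, e5] at h
  linarith

end Exch

end K4m
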