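import Mathlib
import Pool.Agent.Lib.MP_392c14_co.Acc.Exch

/-!
# The decomposition given by a total partition, and the missing masses
-/

set_option autoImplicit false

namespace K4m

open Finset

section Total

variable {V : Type} [Fintype V] (G : TG V) (w : V → ℝ) (c : V → Fin 6)

/-- normalised class of a partition -/
noncomputable def muT (a : Fin 6) (x : V) : ℝ :=
  w x * (if c x = a then 1 else 0) / cl w c a

/-- missing pairs of the vertex `x` in the pentagon `k`, counted twice -/
noncomputable def hh (μ : Fin 6 → V → ℝ) (x : V) (k : Fin 6) : ℝ :=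
  ∑ a, ∑ b, blk k a b * (1 - kk G x (μ a) (μ b))

variable {w c}

theorem cl_mul_muT {a : Fin 6} (h : 0 < cl w c a) (x : V) :
    cl w c a * muT w c a x = w x * (if c x = a then 1 else 0) := by
  unfold muT
  exact mul_div_cancel₀ _ h.ne'

theorem isW_muT (hw : ∀ x, 0 ≤ w x) {a : Fin 6} (h : 0 < cl w c a) : IsW (muT w c a) where
  nonneg x := by
    unfold muT
    refine div_nonneg (mul_nonneg (hw x) ?_) h.le
    split_ifs <;> norm_num
  sum_eq := by
    have h1 : ∑ x, muT w c a x = (∑ x, w x * (if c x = a then 1 else 0)) / cl w c a := by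
      rw [sum_div]; rfl
    rw [h1]
    exact div_self h.ne'

/-- the decomposition given by a partition -/
theorem dec_total {t : ℝ} (hw : IsW w) (hc : ∀ a, 0 < cl w c a) (hdeg : ∀ x, deg G w x = t)
    (hcnd : ∀ f : V → ℝ, ∑ x, f x = 0 → tri G f f w ≤ 0) :
    Dec G w (muT w c) (cl w c) (fun _ => 0) t where
  hw := hw
  hμ a := isW_muT hw.nonneg (hc a)
  hv := hc
  hX _ := le_rfl
  dec x := by
    rw [sum_congr rfl fun a _ => cl_mul_muT (hc a) x, add_zero, ← mul_sum, sum_ite_eq,
      if_pos (mem_univ _), mul_one]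
  hdeg := hdeg
  hcnd := hcnd

/-- the class as an indicator -/
theorem muT_ind {a : Fin 6} (h : 0 < cl w c a) (x : V) :
    cl w c a * muT w c a x = w x * ind (decide (c x = a)) := by
  rw [cl_mul_muT h]
  unfold ind
  by_cases h1 : c x = a <;> simp [h1]

/-- a sum over the vertices, class by class -/
theorem sum_classes (hc : ∀ a, 0 < cl w c a) (F : Fin 6 → V → ℝ) :
    ∑ x, w x * F (c x) x = ∑ a, cl w c a * ∑ x, muT w c a x * F a x := by
  have h1 : ∀ a, cl w c a * ∑ x, muT w c a x * F a x =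
      ∑ x, w x * (if c x = a then F a x else 0) := by
    intro a
    rw [mul_sum]
    refine sum_congr rfl fun x _ => ?_
    rw [← mul_assoc, cl_mul_muT (hc a)]
    split_ifs <;> ring
  rw [sum_congr rfl fun a _ => h1 a, sum_comm]
  refine sum_congr rfl fun x _ => ?_
  rw [← mul_sum, sum_ite_eq, if_pos (mem_univ _)]

theorem one_sub_kk {μ : Fin 6 → V → ℝ} (hμ : ∀ a, IsW (μ a)) (x : V) (a b : Fin 6) :
    1 - kk G x (μ a) (μ b) = ∑ y, μ a y * ∑ z, μ b z * (1 - ind (G.E x y z)) := by
  have h1 : ∑ y, μ a y * ∑ z, μ b z * (1 - ind (G.E x y z)) =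
      ∑ y, μ a y * ∑ z, μ b z - kk G x (μ a) (μ b) := by
    unfold kk
    rw [← sum_sub_distrib]
    refine sum_congr rfl fun y _ => ?_
    rw [mul_sum, mul_sum, ← sum_sub_distrib]
    refine sum_congr rfl fun z _ => ?_
    ring
  rw [h1, (hμ b).sum_eq]
  simp only [mul_one]
  rw [(hμ a).sum_eq]

/-- the missing degree by the densities of the link between the classes -/
theorem mis_total (hw : ∀ x, 0 ≤ w x) (hc : ∀ a, 0 < cl w c a) (x : V) :
    mis G w c x = ∑ a, ∑ b, blk (c x) a b *
      (cl w c a * cl w c b * (1 - kk G x (muT w c a) (muT w c b))) := by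
  have hμ : ∀ a, IsW (muT w c a) := fun a => isW_muT hw (hc a)
  have h0 : mis G w c x = ∑ z, w z * ∑ u, w u * (blk (c x) (c z) (c u) *
      (1 - ind (G.E x z u))) := rfl
  rw [h0, sum_classes hc (fun b z => ∑ u, w u * (blk (c x) b (c u) * (1 - ind (G.E x z u))))]
  refine sum_congr rfl fun a _ => ?_
  have h1 : ∀ z, ∑ u, w u * (blk (c x) a (c u) * (1 - ind (G.E x z u))) =
      ∑ b, cl w c b * ∑ u, muT w c b u * (blk (c x) a b * (1 - ind (G.E x z u))) := by
    intro z
    exact sum_classes hc (fun b u => blk (c x) a b * (1 - ind (G.E x z u)))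
  simp only [h1]
  rw [mul_sum]
  have h2 : ∀ b, blk (c x) a b * (cl w c a * cl w c b * (1 - kk G x (muT w c a) (muT w c b))) =
      ∑ z, cl w c a * (muT w c a z * (cl w c b * ∑ u, muT w c b u * (blk (c x) a b *
        (1 - ind (G.E x z u))))) := by
    intro b
    rw [one_sub_kk G hμ, ← mul_sum]
    have e : ∀ z, muT w c a z * (cl w c b * ∑ u, muT w c b u * (blk (c x) a b *
        (1 - ind (G.E x z u)))) = blk (c x) a b * cl w c b * (muT w c a z *
        ∑ u, muT w c b u * (1 - ind (G.E x z u))) := by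
      intro z
      have e1 : ∑ u, muT w c b u * (blk (c x) a b * (1 - ind (G.E x z u))) =
          blk (c x) a b * ∑ u, muT w c b u * (1 - ind (G.E x z u)) := by
        rw [mul_sum]
        exact sum_congr rfl fun u _ => by ring
      rw [e1]; ring
    rw [sum_congr rfl fun z _ => e z, ← mul_sum]
    ring
  rw [sum_congr rfl fun b _ => h2 b, sum_comm]
  refine sum_congr rfl fun z _ => ?_
  rw [mul_sum, mul_sum]

theorem mis_le_hh (hw : ∀ x, 0 ≤ w x) (hc : ∀ a, 0 < cl w c a) {M : ℝ}
    (hM : ∀ a b, a ≠ b → cl w c a * cl w c b ≤ M) (x : V) :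
    mis G w c x ≤ M * hh G (muT w c) x (c x) := by
  have hμ : ∀ a, IsW (muT w c a) := fun a => isW_muT hw (hc a)
  rw [mis_total G hw hc]
  unfold hh
  rw [mul_sum]
  refine sum_le_sum fun a _ => ?_
  rw [mul_sum]
  refine sum_le_sum fun b _ => ?_
  have h1 : 0 ≤ 1 - kk G x (muT w c a) (muT w c b) := by
    have := kk_le_mass G x (muT w c a) (muT w c b) (hμ a).nonneg (hμ b).nonneg
    rw [(hμ a).sum_eq, (hμ b).sum_eq] at this
    linarith
  by_cases hab : a = b
  · subst hab
    have : blk (c x) a a = 0 := blk_irr3 _ _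
    rw [this]; simp
  · have h2 := mul_le_mul_of_nonneg_right (hM a b hab) h1
    have h3 := mul_le_mul_of_nonneg_left h2 (blk_nonneg (c x) a b)
    linarith

theorem MM_total (hw : ∀ x, 0 ≤ w x) (hc : ∀ a, 0 < cl w c a) :
    MM G w c = ∑ i, ∑ j, ∑ k, cl w c i * cl w c j * cl w c k * pB G (muT w c) i j k := by
  have hμ : ∀ a, IsW (muT w c a) := fun a => isW_muT hw (hc a)
  have h0 : MM G w c = ∑ z, w z * mis G w c z := by
    unfold MM mis miss
    rw [T3_eq]
  rw [h0]
  have h1 : ∑ z, w z * mis G w c z = ∑ z, w z * ∑ j, ∑ k, blk (c z) j k *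
      (cl w c j * cl w c k * (1 - kk G z (muT w c j) (muT w c k))) := by
    refine sum_congr rfl fun z _ => ?_
    rw [mis_total G hw hc]
  rw [h1, sum_classes hc (fun i z => ∑ j, ∑ k, blk i j k *
      (cl w c j * cl w c k * (1 - kk G z (muT w c j) (muT w c k))))]
  refine sum_congr rfl fun i _ => ?_
  have h2 : ∀ j k, cl w c i * cl w c j * cl w c k * pB G (muT w c) i j k =
      ∑ x, cl w c i * (muT w c i x * (blk i j k *
      (cl w c j * cl w c k * (1 - kk G x (muT w c j) (muT w c k))))) := by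
    intro j k
    have e : ∑ x, cl w c i * (muT w c i x * (blk i j k *
      (cl w c j * cl w c k * (1 - kk G x (muT w c j) (muT w c k))))) =
        cl w c i * (blk i j k * (cl w c j * cl w c k)) * (1 - tt G (muT w c) i j k) := by
      unfold tt
      rw [tri_eq_kk]
      have e2 : (1 : ℝ) = ∑ x, muT w c i x := (hμ i).sum_eq.symm
      have e3 : 1 - ∑ x, muT w c i x * kk G x (muT w c j) (muT w c k) =
          ∑ x, muT w c i x * (1 - kk G x (muT w c j) (muT w c k)) := by
        conv_lhs => rw [e2]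
        rw [← sum_sub_distrib]
        exact sum_congr rfl fun x _ => by ring
      rw [e3, mul_sum]
      refine sum_congr rfl fun x _ => ?_
      ring
    rw [e]
    unfold pB
    ring
  rw [sum_congr rfl fun j _ => sum_congr rfl fun k _ => h2 j k]
  rw [mul_sum]
  have h3 : ∀ j, ∑ k, ∑ x, cl w c i * (muT w c i x * (blk i j k *
      (cl w c j * cl w c k * (1 - kk G x (muT w c j) (muT w c k))))) =
      ∑ x, ∑ k, cl w c i * (muT w c i x * (blk i j k *
      (cl w c j * cl w c k * (1 - kk G x (muT w c j) (muT w c k))))) := fun j => sum_comm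
  rw [sum_congr rfl fun j _ => h3 j, sum_comm]
  refine sum_congr rfl fun x _ => ?_
  simp only [mul_sum]

theorem MM_le_mN (hw : ∀ x, 0 ≤ w x) (hc : ∀ a, 0 < cl w c a) {M : ℝ}
    (hM : ∀ a b d, a ≠ b → a ≠ d → b ≠ d → cl w c a * cl w c b * cl w c d ≤ M) :
    MM G w c ≤ M * (6 * mN G (muT w c)) := by
  have hμ : ∀ a, IsW (muT w c a) := fun a => isW_muT hw (hc a)
  rw [MM_total G hw hc]
  have : M * (6 * mN G (muT w c)) = ∑ i, ∑ j, ∑ k, M * pB G (muT w c) i j k := by
    unfold mN
    simp only [← mul_sum]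
    ring
  rw [this]
  refine sum_le_sum fun i _ => sum_le_sum fun j _ => sum_le_sum fun k _ => ?_
  have h0 := pB_nonneg (G := G) hμ i j k
  by_cases h1 : i = j
  · subst h1; rw [pB_irr]; simp
  by_cases h2 : i = k
  · subst h2
    have : pB G (muT w c) i j i = 0 := by rw [pB_swap23, pB_irr]
    rw [this]; simp
  by_cases h3 : j = k
  · subst h3
    have : pB G (muT w c) i j j = 0 := by
      rw [← pB_swap12, pB_swap23, pB_irr]
    rw [this]; simp
  exact mul_le_mul_of_nonneg_right (hM i j k h1 h2 h3) h0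

end Total

end K4m
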