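import Mathlib
import Pool.Agent.Lib.MP_392c14_co.Acc.Total

/-!
# Four points span at most two edges: consequences at a vertex; labelled pentagons
-/

set_option autoImplicit false

namespace K4m

open Finset

section FourX

variable {V : Type} [Fintype V] {G : TG V} {μ : Fin 6 → V → ℝ}

/-- the vertex `x` and three random points span at most two edges -/
theorem four_x (hμ : ∀ a, IsW (μ a)) (x : V) (i j l : Fin 6) :
    kk G x (μ i) (μ j) + kk G x (μ i) (μ l) + kk G x (μ j) (μ l) + tt G μ i j l ≤ 2 := by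
  have s : ∀ a, ∑ y, μ a y = 1 := fun a => (hμ a).sum_eq
  have e1 : kk G x (μ i) (μ j) = ∑ y, ∑ z, ∑ u, μ i y * μ j z * μ l u * ind (G.E x y z) := by
    unfold kk
    refine sum_congr rfl fun y _ => sum_congr rfl fun z _ => ?_
    have : ∑ u, μ i y * μ j z * μ l u * ind (G.E x y z) =
        μ i y * μ j z * ind (G.E x y z) * ∑ u, μ l u := by
      rw [mul_sum]; exact sum_congr rfl fun u _ => by ring
    rw [this, s, mul_one]
  have e2 : kk G x (μ i) (μ l) = ∑ y, ∑ z, ∑ u, μ i y * μ j z * μ l u * ind (G.E x y u) := by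
    unfold kk
    refine sum_congr rfl fun y _ => ?_
    rw [sum_comm]
    refine sum_congr rfl fun u _ => ?_
    have : ∑ z, μ i y * μ j z * μ l u * ind (G.E x y u) =
        μ i y * μ l u * ind (G.E x y u) * ∑ z, μ j z := by
      rw [mul_sum]; exact sum_congr rfl fun z _ => by ring
    rw [this, s, mul_one]
  have e3 : kk G x (μ j) (μ l) = ∑ y, ∑ z, ∑ u, μ i y * μ j z * μ l u * ind (G.E x z u) := by
    unfold kk
    symm
    rw [sum_comm]
    refine sum_congr rfl fun z _ => ?_
    rw [sum_comm]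
    refine sum_congr rfl fun u _ => ?_
    have : ∑ y, μ i y * μ j z * μ l u * ind (G.E x z u) =
        μ j z * μ l u * ind (G.E x z u) * ∑ y, μ i y := by
      rw [mul_sum]; exact sum_congr rfl fun y _ => by ring
    rw [this, s, mul_one]
  have e4 : tt G μ i j l = ∑ y, ∑ z, ∑ u, μ i y * μ j z * μ l u * ind (G.E y z u) := rfl
  have e5 : (2 : ℝ) = ∑ y, ∑ z, ∑ u, μ i y * μ j z * μ l u * 2 := by
    have h1 : ∀ y z, ∑ u, μ i y * μ j z * μ l u * 2 = μ i y * μ j z * 2 := by
      intro y z
      have : ∑ u, μ i y * μ j z * μ l u * 2 = μ i y * μ j z * 2 * ∑ u, μ l u := by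
        rw [mul_sum]; exact sum_congr rfl fun u _ => by ring
      rw [this, s, mul_one]
    simp only [h1]
    have h2 : ∀ y, ∑ z, μ i y * μ j z * 2 = μ i y * 2 := by
      intro y
      have : ∑ z, μ i y * μ j z * 2 = μ i y * 2 * ∑ z, μ j z := by
        rw [mul_sum]; exact sum_congr rfl fun z _ => by ring
      rw [this, s, mul_one]
    simp only [h2]
    rw [← sum_mul, s, one_mul]
  rw [e1, e2, e3, e4]
  conv_rhs => rw [e5]
  simp only [← sum_add_distrib]
  refine sum_le_sum fun y _ => sum_le_sum fun z _ => sum_le_sum fun u _ => ?_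
  have h0 : 0 ≤ μ i y * μ j z * μ l u := mul_nonneg (mul_nonneg ((hμ i).nonneg y)
    ((hμ j).nonneg z)) ((hμ l).nonneg u)
  rw [← mul_add, ← mul_add, ← mul_add]
  refine mul_le_mul_of_nonneg_left ?_ h0
  have f1 := G.free x y z u
  have f2 := G.free y x z u
  have f3 := G.free z x y u
  have f4 := G.free u x y z
  have c1 : G.E y x z = G.E x y z := G.symm₁ x y z
  have c2 : G.E y x u = G.E x y u := G.symm₁ x y u
  have c3 : G.E z x y = G.E x y z := by rw [G.symm₁ x z y, G.symm₂ x y z]
  have c4 : G.E z x u = G.E x z u := G.symm₁ x z u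
  have c5 : G.E z y u = G.E y z u := G.symm₁ y z u
  have c6 : G.E u x y = G.E x y u := by rw [G.symm₁ x u y, G.symm₂ x y u]
  have c7 : G.E u x z = G.E x z u := by rw [G.symm₁ x u z, G.symm₂ x z u]
  have c8 : G.E u y z = G.E y z u := by rw [G.symm₁ y u z, G.symm₂ y z u]
  rw [c1, c2] at f2
  rw [c3, c4, c5] at f3
  rw [c6, c7, c8] at f4
  rcases a : G.E x y z <;> rcases b : G.E x y u <;> rcases c : G.E x z u <;>
    rcases d : G.E y z u <;> simp [ind] <;> norm_num
  all_goals simp [a, b, c, d] at f1 f2 f3 f4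

end FourX

/-! ### labelled pentagons -/

/-- cyclic labelling of the pentagon of the class `k` -/
def lab : Fin 6 → Fin 5 → Fin 6 := ![![1, 2, 4, 5, 3], ![0, 2, 5, 4, 3], ![0, 1, 5, 3, 4],
  ![0, 1, 4, 2, 5], ![0, 2, 3, 1, 5], ![0, 3, 2, 1, 4]]

theorem lab_k : ∀ k i, D6.E k (lab k i) (lab k (i + 1)) = true := by decide +kernel

theorem lab_c : ∀ k i, D6.E (lab k i) (lab k (i + 1)) (lab k (i + 3)) = true := by decide +kernel

theorem lab_n2 : ∀ k i, D6.E k (lab k i) (lab k (i + 2)) = false := by decide +kernel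

theorem lab_n3 : ∀ k i, D6.E k (lab k i) (lab k (i + 3)) = false := by decide +kernel

theorem lab_ne : ∀ k i, lab k i ≠ k := by decide +kernel

theorem lab_inj : ∀ k i j, i ≠ j → lab k i ≠ lab k j := by decide +kernel

theorem lab_surj : ∀ k a, a ≠ k → ∃ i, lab k i = a := by decide +kernel

/-- a sum over the classes by the labelling -/
theorem sum_lab (f : Fin 6 → ℝ) (k : Fin 6) : ∑ c, f c = f k + ∑ i, f (lab k i) := by
  fin_cases k <;> simp [Fin.sum_univ_six, Fin.sum_univ_five, lab] <;> ring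

theorem sum_rot (f : Fin 5 → ℝ) (i : Fin 5) :
    ∑ j, f j = f i + f (i + 1) + f (i + 2) + f (i + 3) + f (i + 4) := by
  fin_cases i <;> simp [Fin.sum_univ_five] <;> ring_nf

end K4m
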