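import Mathlib
import Pool.Agent.Lib.MP_392c14_co.Acc.Lab

/-!
# The range of the deviations of the row sums at a vertex

`q a b` are the densities of the link of a vertex between the classes, `T a b c` the densities of
the edges between the classes.
-/

set_option autoImplicit false

namespace K4m

open Finset

/-- densities at a vertex and densities between the classes -/
structure PQ (q : Fin 6 → Fin 6 → ℝ) (T : Fin 6 → Fin 6 → Fin 6 → ℝ) : Prop where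
  q0 : ∀ a b, 0 ≤ q a b
  qs : ∀ a b, q b a = q a b
  T0 : ∀ a b c, 0 ≤ T a b c
  T1 : ∀ a b c, T a b c ≤ 1
  s12 : ∀ a b c, T b a c = T a b c
  s23 : ∀ a b c, T a c b = T a b c
  four : ∀ i j l, q i j + q i l + q j l + T i j l ≤ 2
  fourT : ∀ a i j l, T a i j + T a i l + T a j l + T i j l ≤ 2

/-- deviation of the row sum of the class `b` -/
def dvU (q : Fin 6 → Fin 6 → ℝ) (T : Fin 6 → Fin 6 → Fin 6 → ℝ) (k b : Fin 6) : ℝ :=
  ∑ c, (q b c - T k b c)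

section R

variable {q : Fin 6 → Fin 6 → ℝ} {T : Fin 6 → Fin 6 → Fin 6 → ℝ}

theorem dvU_k (k : Fin 6) : dvU q T k k = (q k k - T k k k) +
    ∑ i, (q k (lab k i) - T k k (lab k i)) := by
  unfold dvU
  rw [sum_lab _ k]

theorem dvU_lab (k : Fin 6) (i : Fin 5) : dvU q T k (lab k i) =
    (q (lab k i) k - T k (lab k i) k) + (q (lab k i) (lab k i) - T k (lab k i) (lab k i)) +
    (q (lab k i) (lab k (i + 1)) - T k (lab k i) (lab k (i + 1))) +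
    (q (lab k i) (lab k (i + 2)) - T k (lab k i) (lab k (i + 2))) +
    (q (lab k i) (lab k (i + 3)) - T k (lab k i) (lab k (i + 3))) +
    (q (lab k i) (lab k (i + 4)) - T k (lab k i) (lab k (i + 4))) := by
  unfold dvU
  rw [sum_lab _ k, sum_rot _ i]
  ring

/-- missing pairs of the pentagon `k` (each counted once) -/
def hp (q : Fin 6 → Fin 6 → ℝ) (k : Fin 6) : ℝ := ∑ i, (1 - q (lab k i) (lab k (i + 1)))

/-- missing blocks -/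
def mb (T : Fin 6 → Fin 6 → Fin 6 → ℝ) (k : Fin 6) : ℝ :=
  ∑ i, (1 - T k (lab k i) (lab k (i + 1))) +
    ∑ i, (1 - T (lab k i) (lab k (i + 1)) (lab k (i + 3)))

/-- the facts needed around one class of the pentagon -/
structure Loc (q : Fin 6 → Fin 6 → ℝ) (T : Fin 6 → Fin 6 → Fin 6 → ℝ) (k L0 L1 L2 L3 L4 : Fin 6)
    (h m : ℝ) : Prop where
  pq : PQ q T
  hh : h = (1 - q L0 L1) + (1 - q L1 L2) + (1 - q L2 L3) + (1 - q L3 L4) + (1 - q L4 L0)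
  mm : m = ((1 - T k L0 L1) + (1 - T k L1 L2) + (1 - T k L2 L3) + (1 - T k L3 L4) +
    (1 - T k L4 L0)) + ((1 - T L0 L1 L3) + (1 - T L1 L2 L4) + (1 - T L2 L3 L0) +
    (1 - T L3 L4 L1) + (1 - T L4 L0 L2))

theorem PQ.q1 (P : PQ q T) (a b : Fin 6) : q a b ≤ 1 := by
  have h1 := P.four a b a
  have h2 := P.four a b b
  have h3 := P.four a a b
  have := P.q0 a a
  have := P.q0 b b
  have := P.q0 a b
  have := P.T0 a b a
  have := P.qs a b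
  linarith

/-- rotation -/
theorem Loc.rot {k L0 L1 L2 L3 L4 : Fin 6} {h m : ℝ} (C : Loc q T k L0 L1 L2 L3 L4 h m) :
    Loc q T k L1 L2 L3 L4 L0 h m where
  pq := C.pq
  hh := by rw [C.hh]; ring
  mm := by rw [C.mm]; ring

/-- reflection -/
theorem Loc.refl {k L0 L1 L2 L3 L4 : Fin 6} {h m : ℝ} (C : Loc q T k L0 L1 L2 L3 L4 h m) :
    Loc q T k L0 L4 L3 L2 L1 h m where
  pq := C.pq
  hh := by
    rw [C.hh, C.pq.qs L0 L4, C.pq.qs L4 L3, C.pq.qs L3 L2, C.pq.qs L2 L1, C.pq.qs L1 L0]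
    rw [C.pq.qs L4 L0, C.pq.qs L3 L4, C.pq.qs L2 L3, C.pq.qs L1 L2, C.pq.qs L0 L1]
    ring
  mm := by
    have P := C.pq
    have e1 : T k L0 L4 = T k L4 L0 := P.s23 k L4 L0
    have e2 : T k L4 L3 = T k L3 L4 := P.s23 k L3 L4
    have e3 : T k L3 L2 = T k L2 L3 := P.s23 k L2 L3
    have e4 : T k L2 L1 = T k L1 L2 := P.s23 k L1 L2
    have e5 : T k L1 L0 = T k L0 L1 := P.s23 k L0 L1
    have f1 : T L0 L4 L2 = T L4 L0 L2 := P.s12 L4 L0 L2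
    have f2 : T L4 L3 L1 = T L3 L4 L1 := P.s12 L3 L4 L1
    have f3 : T L3 L2 L0 = T L2 L3 L0 := P.s12 L2 L3 L0
    have f4 : T L2 L1 L4 = T L1 L2 L4 := P.s12 L1 L2 L4
    have f5 : T L1 L0 L3 = T L0 L1 L3 := P.s12 L0 L1 L3
    rw [C.mm, e1, e2, e3, e4, e5, f1, f2, f3, f4, f5]
    ring

/-- row sum of the class `L0` -/
def uL (q : Fin 6 → Fin 6 → ℝ) (T : Fin 6 → Fin 6 → Fin 6 → ℝ) (k L0 L1 L2 L3 L4 : Fin 6) : ℝ :=
  (q L0 k - T k L0 k) + (q L0 L0 - T k L0 L0) + (q L0 L1 - T k L0 L1) + (q L0 L2 - T k L0 L2) +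
    (q L0 L3 - T k L0 L3) + (q L0 L4 - T k L0 L4)

/-- row sum of the class `k` -/
def uK (q : Fin 6 → Fin 6 → ℝ) (T : Fin 6 → Fin 6 → Fin 6 → ℝ) (k L0 L1 L2 L3 L4 : Fin 6) : ℝ :=
  (q k k - T k k k) + ((q k L0 - T k k L0) + (q k L1 - T k k L1) + (q k L2 - T k k L2) +
    (q k L3 - T k k L3) + (q k L4 - T k k L4))

variable {k L0 L1 L2 L3 L4 : Fin 6} {h m : ℝ}

theorem Loc.bt (C : Loc q T k L0 L1 L2 L3 L4 h m) :
    0 ≤ 1 - T k L0 L1 ∧ 0 ≤ 1 - T k L1 L2 ∧ 0 ≤ 1 - T k L2 L3 ∧ 0 ≤ 1 - T k L3 L4 ∧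
    0 ≤ 1 - T k L4 L0 ∧ 0 ≤ 1 - T L0 L1 L3 ∧ 0 ≤ 1 - T L1 L2 L4 ∧ 0 ≤ 1 - T L2 L3 L0 ∧
    0 ≤ 1 - T L3 L4 L1 ∧ 0 ≤ 1 - T L4 L0 L2 := by
  have t := C.pq.T1
  refine ⟨?_, ?_, ?_, ?_, ?_, ?_, ?_, ?_, ?_, ?_⟩
  · have := t k L0 L1; linarith
  · have := t k L1 L2; linarith
  · have := t k L2 L3; linarith
  · have := t k L3 L4; linarith
  · have := t k L4 L0; linarith
  · have := t L0 L1 L3; linarith
  · have := t L1 L2 L4; linarith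
  · have := t L2 L3 L0; linarith
  · have := t L3 L4 L1; linarith
  · have := t L4 L0 L2; linarith

theorem Loc.pp (C : Loc q T k L0 L1 L2 L3 L4 h m) :
    0 ≤ 1 - q L0 L1 ∧ 0 ≤ 1 - q L1 L2 ∧ 0 ≤ 1 - q L2 L3 ∧ 0 ≤ 1 - q L3 L4 ∧
    0 ≤ 1 - q L4 L0 := by
  have t := C.pq.q1
  refine ⟨?_, ?_, ?_, ?_, ?_⟩
  · have := t L0 L1; linarith
  · have := t L1 L2; linarith
  · have := t L2 L3; linarith
  · have := t L3 L4; linarith
  · have := t L4 L0; linarith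

/-- the wrong densities at the pair `k, L0` -/
theorem Loc.wr (C : Loc q T k L0 L1 L2 L3 L4 h m) :
    T k k L0 ≤ (1 - T k L0 L1) + (1 - T k L4 L0) ∧
    T k L0 L0 ≤ (1 - T k L0 L1) + (1 - T k L4 L0) ∧
    3 * T k L0 L2 ≤ m ∧ 3 * T k L0 L3 ≤ m := by
  have P := C.pq
  obtain ⟨b0, b1, b2, b3, b4, g0, g1, g2, g3, g4⟩ := C.bt
  have hm := C.mm
  have e1 : T k L0 L4 = T k L4 L0 := P.s23 k L4 L0
  refine ⟨?_, ?_, ?_, ?_⟩
  · have h1 := P.fourT k k L0 L1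
    have h2 := P.fourT k k L0 L4
    have t1 := P.T0 k k L1
    have t2 := P.T0 k k L4
    linarith
  · have h1 := P.fourT L0 L0 k L1
    have h2 := P.fourT L0 L0 k L4
    have a1 : T L0 L0 k = T k L0 L0 := by rw [P.s23 L0 k L0, P.s12 k L0 L0]
    have a2 : T L0 k L1 = T k L0 L1 := P.s12 k L0 L1
    have a3 : T L0 k L4 = T k L0 L4 := P.s12 k L0 L4
    have t1 := P.T0 L0 L0 L1
    have t2 := P.T0 L0 L0 L4
    rw [a1, a2] at h1
    rw [a1, a3] at h2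
    linarith
  · -- the points `L1, L3, L4`
    have h1 := P.fourT k L0 L2 L1
    have h3 := P.fourT k L0 L2 L3
    have h4 := P.fourT k L0 L2 L4
    have a1 : T k L2 L1 = T k L1 L2 := P.s23 k L1 L2
    have a3 : T L0 L2 L3 = T L2 L3 L0 := by rw [P.s12 L2 L0 L3, P.s23 L2 L3 L0]
    have a4 : T L0 L2 L4 = T L4 L0 L2 := by rw [P.s23 L0 L4 L2, P.s12 L4 L0 L2]
    have t1 := P.T0 L0 L2 L1
    have t3 := P.T0 k L0 L3
    have t4 := P.T0 k L2 L4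
    rw [a1] at h1
    rw [a3] at h3
    rw [a4, e1] at h4
    linarith
  · have h1 := P.fourT k L0 L3 L4
    have h3 := P.fourT k L0 L3 L1
    have h4 := P.fourT k L0 L3 L2
    have a3 : T L0 L3 L1 = T L0 L1 L3 := P.s23 L0 L1 L3
    have a4 : T L0 L3 L2 = T L2 L3 L0 := by rw [P.s23 L0 L2 L3, P.s12 L2 L0 L3, P.s23 L2 L3 L0]
    have a5 : T k L3 L2 = T k L2 L3 := P.s23 k L2 L3
    have t1 := P.T0 L0 L3 L4
    have t3 := P.T0 k L3 L1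
    have t4 := P.T0 k L0 L2
    rw [e1] at h1
    rw [a3] at h3
    rw [a4, a5] at h4
    linarith

/-- the pair `L0, L1` of the pentagon -/
theorem Loc.pr (C : Loc q T k L0 L1 L2 L3 L4 h m) :
    q k L0 + q k L1 ≤ (1 - q L0 L1) + (1 - T k L0 L1) ∧
    q L0 L3 + q L1 L3 ≤ (1 - q L0 L1) + (1 - T L0 L1 L3) ∧
    q L0 L0 ≤ 2 * (1 - q L0 L1) := by
  have P := C.pq
  refine ⟨?_, ?_, ?_⟩
  · have h1 := P.four k L0 L1
    linarith
  · have h1 := P.four L0 L1 L3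
    linarith
  · have h1 := P.four L0 L0 L1
    have t1 := P.T0 L0 L0 L1
    linarith

theorem Loc.rng_kb (C : Loc q T k L0 L1 L2 L3 L4 h m) (E1 : ℝ)
    (hE : q k k - T k k k - (T k k L0 + T k k L1 + T k k L2 + T k k L3 + T k k L4) ≤ E1) :
    uK q T k L0 L1 L2 L3 L4 - uL q T k L0 L1 L2 L3 L4 ≤ h + E1 + 5 / 3 * m := by
  have P := C.pq
  obtain ⟨b0, b1, b2, b3, b4, g0, g1, g2, g3, g4⟩ := C.bt
  obtain ⟨p0, p1, p2, p3, p4⟩ := C.pp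
  obtain ⟨w1, w2, w3, w4⟩ := C.wr
  obtain ⟨r1, -, -⟩ := C.rot.pr
  obtain ⟨r3, -, -⟩ := C.rot.rot.rot.pr
  have hm := C.mm
  have hh := C.hh
  have s1 : q L0 k = q k L0 := P.qs k L0
  have s2 : T k L0 k = T k k L0 := P.s23 k k L0
  have s3 : q L0 L4 = q L4 L0 := P.qs L4 L0
  have s4 : T k L0 L4 = T k L4 L0 := P.s23 k L4 L0
  have n0 := P.q0 L0 L0
  have n2 := P.q0 L0 L2
  have n3 := P.q0 L0 L3
  unfold uK uL
  rw [s1, s2, s3, s4]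
  linarith

theorem Loc.rng_bk (C : Loc q T k L0 L1 L2 L3 L4 h m) (E2 : ℝ)
    (hE : -(q k k - T k k k - (T k k L0 + T k k L1 + T k k L2 + T k k L3 + T k k L4)) ≤ E2) :
    uL q T k L0 L1 L2 L3 L4 - uK q T k L0 L1 L2 L3 L4 ≤ 1 / 2 * h + m + E2 := by
  have P := C.pq
  obtain ⟨b0, b1, b2, b3, b4, g0, g1, g2, g3, g4⟩ := C.bt
  obtain ⟨p0, p1, p2, p3, p4⟩ := C.pp
  obtain ⟨-, r0, v0⟩ := C.pr
  obtain ⟨-, -, v4⟩ := C.refl.pr
  obtain ⟨-, r2, -⟩ := C.rot.rot.pr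
  obtain ⟨-, r4, -⟩ := C.rot.rot.rot.rot.pr
  have hm := C.mm
  have hh := C.hh
  have s1 : q L0 k = q k L0 := P.qs k L0
  have s2 : T k L0 k = T k k L0 := P.s23 k k L0
  have s3 : q L0 L4 = q L4 L0 := P.qs L4 L0
  have s4 : T k L0 L4 = T k L4 L0 := P.s23 k L4 L0
  have s5 : q L2 L0 = q L0 L2 := P.qs L0 L2
  have s6 : q L3 L0 = q L0 L3 := P.qs L0 L3
  have n1 := P.q0 k L1
  have n2 := P.q0 k L2
  have n3 := P.q0 k L3
  have n4 := P.q0 k L4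
  have n5 := P.q0 L1 L3
  have n6 := P.q0 L4 L2
  have t0 := P.T0 k k L0
  have t1 := P.T0 k L0 L0
  have t2 := P.T0 k L0 L2
  have t3 := P.T0 k L0 L3
  unfold uK uL
  rw [s1, s2, s3, s4]
  rw [s5, s6] at r2
  rw [s3] at v4
  linarith

theorem Loc.rng_01 (C : Loc q T k L0 L1 L2 L3 L4 h m) :
    uL q T k L0 L1 L2 L3 L4 - uL q T k L1 L2 L3 L4 L0 ≤ h + 8 / 3 * m := by
  have P := C.pq
  obtain ⟨b0, b1, b2, b3, b4, g0, g1, g2, g3, g4⟩ := C.bt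
  obtain ⟨p0, p1, p2, p3, p4⟩ := C.pp
  obtain ⟨w1, w2, w3, w4⟩ := C.rot.wr
  obtain ⟨-, -, v0⟩ := C.pr
  obtain ⟨-, -, v4⟩ := C.refl.pr
  obtain ⟨-, r2, -⟩ := C.rot.rot.pr
  obtain ⟨r4, -, -⟩ := C.rot.rot.rot.rot.pr
  have hm := C.mm
  have hh := C.hh
  have s1 : q L0 k = q k L0 := P.qs k L0
  have s3 : q L0 L4 = q L4 L0 := P.qs L4 L0
  have s4 : T k L0 L4 = T k L4 L0 := P.s23 k L4 L0
  have s2 : T k L0 k = T k k L0 := P.s23 k k L0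
  have s5 : q L2 L0 = q L0 L2 := P.qs L0 L2
  have s6 : q L3 L0 = q L0 L3 := P.qs L0 L3
  have s7 : q L1 k = q k L1 := P.qs k L1
  have s8 : T k L1 k = T k k L1 := P.s23 k k L1
  have s9 : q L1 L0 = q L0 L1 := P.qs L0 L1
  have s10 : T k L1 L0 = T k L0 L1 := P.s23 k L0 L1
  have n1 := P.q0 k L1
  have n2 := P.q0 L1 L1
  have n3 := P.q0 L1 L3
  have n4 := P.q0 L1 L4
  have n5 := P.q0 k L4
  have t0 := P.T0 k k L0
  have t1 := P.T0 k L0 L0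
  have t2 := P.T0 k L0 L2
  have t3 := P.T0 k L0 L3
  unfold uL
  rw [s1, s2, s3, s4, s7, s8, s9, s10]
  rw [s5, s6] at r2
  rw [s3] at v4
  linarith

theorem Loc.rng_02 (C : Loc q T k L0 L1 L2 L3 L4 h m) :
    uL q T k L0 L1 L2 L3 L4 - uL q T k L2 L3 L4 L0 L1 ≤ h + 8 / 3 * m := by
  have P := C.pq
  obtain ⟨b0, b1, b2, b3, b4, g0, g1, g2, g3, g4⟩ := C.bt
  obtain ⟨p0, p1, p2, p3, p4⟩ := C.pp
  obtain ⟨w1, w2, w3, w4⟩ := C.rot.rot.wr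
  obtain ⟨-, r0, v0⟩ := C.pr
  obtain ⟨-, -, v4⟩ := C.refl.pr
  obtain ⟨r4, -, -⟩ := C.rot.rot.rot.rot.pr
  have hm := C.mm
  have hh := C.hh
  have s1 : q L0 k = q k L0 := P.qs k L0
  have s3 : q L0 L4 = q L4 L0 := P.qs L4 L0
  have s4 : T k L0 L4 = T k L4 L0 := P.s23 k L4 L0
  have s2 : T k L0 k = T k k L0 := P.s23 k k L0
  have s5 : q L2 L0 = q L0 L2 := P.qs L0 L2
  have s7 : q L2 k = q k L2 := P.qs k L2
  have s8 : T k L2 k = T k k L2 := P.s23 k k L2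
  have s9 : q L2 L1 = q L1 L2 := P.qs L1 L2
  have s10 : T k L2 L1 = T k L1 L2 := P.s23 k L1 L2
  have s11 : T k L2 L0 = T k L0 L2 := P.s23 k L0 L2
  have n1 := P.q0 k L2
  have n2 := P.q0 L2 L2
  have n3 := P.q0 L2 L4
  have n4 := P.q0 L1 L3
  have n5 := P.q0 k L4
  have t0 := P.T0 k k L0
  have t1 := P.T0 k L0 L0
  have t3 := P.T0 k L0 L3
  unfold uL
  rw [s1, s2, s3, s4, s5, s7, s8, s9, s10, s11]
  rw [s3] at v4
  linarith

end R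

end K4m
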