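import Mathlib
import Pool.Agent.Lib.MP_392c14_co.Acc.Total

/-!
# Reassigning the garbage and the vertices of the wrong type

`Ms G f g h` is the trilinear form of the missing triples.
-/

set_option autoImplicit false

namespace K4m

open Finset

section Form

variable {V : Type} [Fintype V] (G : TG V)

/-- trilinear form of the missing triples -/
noncomputable def Ms (f g h : V → ℝ) : ℝ :=
  ∑ x, ∑ y, ∑ z, f x * g y * h z * (1 - ind (G.E x y z))

theorem Ms_swap12 (f g h : V → ℝ) : Ms G g f h = Ms G f g h := by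
  unfold Ms
  rw [sum_comm]
  refine sum_congr rfl fun x _ => sum_congr rfl fun y _ => sum_congr rfl fun z _ => ?_
  rw [G.symm₁ x y z]; ring

theorem Ms_swap23 (f g h : V → ℝ) : Ms G f h g = Ms G f g h := by
  unfold Ms
  refine sum_congr rfl fun x _ => ?_
  rw [sum_comm]
  refine sum_congr rfl fun y _ => sum_congr rfl fun z _ => ?_
  rw [G.symm₂ x y z]; ring

theorem Ms_add1 (f f' g h : V → ℝ) : Ms G (fun x => f x + f' x) g h = Ms G f g h + Ms G f' g h := by
  unfold Ms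
  simp only [← sum_add_distrib]
  refine sum_congr rfl fun x _ => sum_congr rfl fun y _ => sum_congr rfl fun z _ => ?_
  ring

theorem Ms_add2 (f g g' h : V → ℝ) : Ms G f (fun x => g x + g' x) h = Ms G f g h + Ms G f g' h := by
  rw [Ms_swap12, Ms_add1, Ms_swap12, Ms_swap12 G f g']

theorem Ms_add3 (f g h h' : V → ℝ) : Ms G f g (fun x => h x + h' x) = Ms G f g h + Ms G f g h' := by
  rw [Ms_swap23, Ms_add2, Ms_swap23, Ms_swap23 G f h' g]

theorem Ms_smul (r s t : ℝ) (f g h : V → ℝ) :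
    Ms G (fun x => r * f x) (fun x => s * g x) (fun x => t * h x) = r * s * t * Ms G f g h := by
  unfold Ms
  simp only [mul_sum]
  refine sum_congr rfl fun x _ => sum_congr rfl fun y _ => sum_congr rfl fun z _ => ?_
  ring

theorem Ms_nonneg {f g h : V → ℝ} (hf : ∀ x, 0 ≤ f x) (hg : ∀ x, 0 ≤ g x) (hh : ∀ x, 0 ≤ h x) :
    0 ≤ Ms G f g h := by
  unfold Ms
  refine sum_nonneg fun x _ => sum_nonneg fun y _ => sum_nonneg fun z _ => ?_
  have := ind_le_one (G.E x y z)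
  exact mul_nonneg (mul_nonneg (mul_nonneg (hf x) (hg y)) (hh z)) (by linarith)

/-- bound by the total variations -/
theorem Ms_le_abs (f g h : V → ℝ) :
    Ms G f g h ≤ (∑ x, |f x|) * (∑ x, |g x|) * ∑ x, |h x| := by
  unfold Ms
  have e : (∑ x, |f x|) * (∑ x, |g x|) * ∑ x, |h x| =
      ∑ x, ∑ y, ∑ z, |f x| * |g y| * |h z| := by
    rw [mul_assoc, sum_mul]
    refine sum_congr rfl fun x _ => ?_
    rw [sum_mul, mul_sum]
    refine sum_congr rfl fun y _ => ?_
    rw [mul_sum, mul_sum]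
    exact sum_congr rfl fun z _ => by ring
  rw [e]
  refine sum_le_sum fun x _ => sum_le_sum fun y _ => sum_le_sum fun z _ => ?_
  have h0 := ind_nonneg (G.E x y z)
  have h1 := ind_le_one (G.E x y z)
  calc f x * g y * h z * (1 - ind (G.E x y z)) ≤
      |f x * g y * h z * (1 - ind (G.E x y z))| := le_abs_self _
    _ = |f x| * |g y| * |h z| * |1 - ind (G.E x y z)| := by rw [abs_mul, abs_mul, abs_mul]
    _ ≤ |f x| * |g y| * |h z| * 1 := by
      refine mul_le_mul_of_nonneg_left ?_ (by positivity)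
      rw [abs_of_nonneg (by linarith)]; linarith
    _ = _ := mul_one _

theorem Ms_eq_kk {μ : Fin 6 → V → ℝ} (hμ : ∀ a, IsW (μ a)) (f : V → ℝ) (b c : Fin 6) :
    Ms G f (μ b) (μ c) = ∑ x, f x * (1 - kk G x (μ b) (μ c)) := by
  unfold Ms
  refine sum_congr rfl fun x _ => ?_
  rw [one_sub_kk G hμ, mul_sum]
  refine sum_congr rfl fun y _ => ?_
  rw [mul_sum, mul_sum]
  refine sum_congr rfl fun z _ => ?_
  ring

theorem Ms_mu {μ : Fin 6 → V → ℝ} (hμ : ∀ a, IsW (μ a)) (a b c : Fin 6) :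
    Ms G (μ a) (μ b) (μ c) = 1 - tt G μ a b c := by
  rw [Ms_eq_kk G hμ]
  unfold tt
  rw [tri_eq_kk]
  have e2 : (1 : ℝ) = ∑ x, μ a x := (hμ a).sum_eq.symm
  conv_rhs => rw [e2]
  rw [← sum_sub_distrib]
  exact sum_congr rfl fun x _ => by ring

end Form

section Mix

variable {V : Type} [Fintype V] {G : TG V} {μ : Fin 6 → V → ℝ} {D : Fin 6 → V → ℝ}
  {d : Fin 6 → ℝ}

theorem blk_sum_le (a b : Fin 6) : ∑ c, blk a b c ≤ 2 := by
  by_cases h : a = b
  · subst h
    rw [sum_eq_zero fun k _ => blk_eq_zero a k]; norm_num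
  · rw [blk_sum a b h]

theorem quad_blk (d : Fin 6 → ℝ) (hd : ∀ a, 0 ≤ d a) :
    ∑ a, ∑ b, ∑ c, blk a b c * (d a * d b) ≤ 2 * (∑ a, d a) ^ 2 := by
  have h1 : ∑ a, ∑ b, ∑ c, blk a b c * (d a * d b) ≤ ∑ a, ∑ b, 2 * (d a * d b) := by
    refine sum_le_sum fun a _ => sum_le_sum fun b _ => ?_
    rw [← sum_mul]
    exact mul_le_mul_of_nonneg_right (blk_sum_le a b) (mul_nonneg (hd a) (hd b))
  have h2 : ∑ a, ∑ b, 2 * (d a * d b) = 2 * (∑ a, d a) ^ 2 := by
    rw [sq, sum_mul, mul_sum]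
    refine sum_congr rfl fun a _ => ?_
    rw [← mul_sum, mul_sum]
    simp only [mul_sum]
  linarith

/-- missing blocks of a perturbed family of measures -/
theorem miss_mix (hμ : ∀ a, IsW (μ a)) (hd : ∀ a, ∑ x, |D a x| ≤ d a)
    (_hA : ∀ a x, 0 ≤ μ a x + D a x) :
    ∑ a, ∑ b, ∑ c, blk a b c * Ms G (fun x => μ a x + D a x) (fun x => μ b x + D b x)
      (fun x => μ c x + D c x) ≤
      6 * mN G μ + 3 * ∑ a, ∑ x, D a x * hh G μ x a +
        2 * (∑ a, d a) ^ 2 * (3 + ∑ a, d a) := by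
  have d0 : ∀ a, 0 ≤ d a := fun a => (sum_nonneg fun x _ => abs_nonneg _).trans (hd a)
  have dle : ∀ a, d a ≤ ∑ a, d a := fun a => single_le_sum (fun b _ => d0 b) (mem_univ a)
  set S := ∑ a, d a with hS
  have S0 : 0 ≤ S := sum_nonneg fun a _ => d0 a
  have m1 : ∀ a, ∑ x, |μ a x| = 1 := by
    intro a
    rw [← (hμ a).sum_eq]
    exact sum_congr rfl fun x _ => abs_of_nonneg ((hμ a).nonneg x)
  have mA : ∀ a, ∑ x, |μ a x + D a x| ≤ 1 + S := by
    intro a
    have h1 : ∑ x, |μ a x + D a x| ≤ ∑ x, (|μ a x| + |D a x|) :=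
      sum_le_sum fun x _ => abs_add_le _ _
    rw [sum_add_distrib, m1] at h1
    have h2 := hd a
    have h3 := dle a
    linarith
  -- pointwise expansion
  have key : ∀ a b c, Ms G (fun x => μ a x + D a x) (fun x => μ b x + D b x)
      (fun x => μ c x + D c x) ≤ (1 - tt G μ a b c) + (Ms G (D a) (μ b) (μ c) +
        Ms G (D b) (μ a) (μ c) + Ms G (D c) (μ a) (μ b)) +
        (d a * d b * (1 + S) + d a * d c + d b * d c) := by
    intro a b c
    have e : Ms G (fun x => μ a x + D a x) (fun x => μ b x + D b x)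
      (fun x => μ c x + D c x) = Ms G (μ a) (μ b) (μ c) + (Ms G (D a) (μ b) (μ c) +
        Ms G (μ a) (D b) (μ c) + Ms G (μ a) (μ b) (D c)) +
        (Ms G (D a) (D b) (fun x => μ c x + D c x) + Ms G (D a) (μ b) (D c) +
          Ms G (μ a) (D b) (D c)) := by
      rw [Ms_add1, Ms_add2 G (μ a), Ms_add2 G (D a), Ms_add3 G (μ a) (μ b),
        Ms_add3 G (μ a) (D b), Ms_add3 G (D a) (μ b)]
      ring
    rw [e, Ms_mu G hμ, Ms_swap12 G (D b) (μ a) (μ c)]
    have e3 : Ms G (μ a) (μ b) (D c) = Ms G (D c) (μ a) (μ b) := by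
      rw [Ms_swap23, Ms_swap12]
    rw [e3]
    have q1 := Ms_le_abs G (D a) (D b) (fun x => μ c x + D c x)
    have q2 := Ms_le_abs G (D a) (μ b) (D c)
    have q3 := Ms_le_abs G (μ a) (D b) (D c)
    rw [m1] at q2 q3
    have n1 : ∀ a, 0 ≤ ∑ x, |D a x| := fun a => sum_nonneg fun x _ => abs_nonneg _
    have r1 : (∑ x, |D a x|) * (∑ x, |D b x|) * ∑ x, |μ c x + D c x| ≤ d a * d b * (1 + S) :=
      mul_le_mul (mul_le_mul (hd a) (hd b) (n1 b) (d0 a)) (mA c)
        (sum_nonneg fun x _ => abs_nonneg _) (mul_nonneg (d0 a) (d0 b))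
    have r2 : (∑ x, |D a x|) * 1 * (∑ x, |D c x|) ≤ d a * d c := by
      rw [mul_one]; exact mul_le_mul (hd a) (hd c) (n1 c) (d0 a)
    have r3 : 1 * (∑ x, |D b x|) * (∑ x, |D c x|) ≤ d b * d c := by
      rw [one_mul]; exact mul_le_mul (hd b) (hd c) (n1 c) (d0 b)
    linarith
  have h1 : ∑ a, ∑ b, ∑ c, blk a b c * Ms G (fun x => μ a x + D a x) (fun x => μ b x + D b x)
      (fun x => μ c x + D c x) ≤ ∑ a, ∑ b, ∑ c, (pB G μ a b c +
        (blk a b c * Ms G (D a) (μ b) (μ c) + blk a b c * Ms G (D b) (μ a) (μ c) +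
        blk a b c * Ms G (D c) (μ a) (μ b)) +
        ((1 + S) * (blk a b c * (d a * d b)) + blk a b c * (d a * d c) +
          blk a b c * (d b * d c))) := by
    refine sum_le_sum fun a _ => sum_le_sum fun b _ => sum_le_sum fun c _ => ?_
    have h := mul_le_mul_of_nonneg_left (key a b c) (blk_nonneg a b c)
    unfold pB
    linarith
  refine h1.trans ?_
  simp only [sum_add_distrib]
  have f1 : ∑ a, ∑ b, ∑ c, blk a b c * Ms G (D a) (μ b) (μ c) = ∑ a, ∑ x, D a x * hh G μ x a := by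
    refine sum_congr rfl fun a _ => ?_
    unfold hh
    simp only [Ms_eq_kk G hμ, mul_sum]
    have h3 : ∀ b, ∑ c, ∑ x, blk a b c * (D a x * (1 - kk G x (μ b) (μ c))) =
        ∑ x, ∑ c, blk a b c * (D a x * (1 - kk G x (μ b) (μ c))) := fun b => sum_comm
    rw [sum_congr rfl fun b _ => h3 b, sum_comm]
    refine sum_congr rfl fun x _ => sum_congr rfl fun b _ => sum_congr rfl fun c _ => ?_
    ring
  have f2 : ∑ a, ∑ b, ∑ c, blk a b c * Ms G (D b) (μ a) (μ c) =
      ∑ a, ∑ b, ∑ c, blk a b c * Ms G (D a) (μ b) (μ c) := by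
    rw [sum_comm]
    refine sum_congr rfl fun a _ => sum_congr rfl fun b _ => sum_congr rfl fun c _ => ?_
    rw [blk_swap12]
  have f3 : ∑ a, ∑ b, ∑ c, blk a b c * Ms G (D c) (μ a) (μ b) =
      ∑ a, ∑ b, ∑ c, blk a b c * Ms G (D b) (μ a) (μ c) := by
    refine sum_congr rfl fun a _ => ?_
    rw [sum_comm]
    refine sum_congr rfl fun b _ => sum_congr rfl fun c _ => ?_
    rw [blk_swap23]
  have g1 := quad_blk d d0
  have g2 : ∑ a, ∑ b, ∑ c, blk a b c * (d a * d c) = ∑ a, ∑ b, ∑ c, blk a b c * (d a * d b) := by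
    refine sum_congr rfl fun a _ => ?_
    rw [sum_comm]
    refine sum_congr rfl fun b _ => sum_congr rfl fun c _ => ?_
    rw [blk_swap23]
  have g3 : ∑ a, ∑ b, ∑ c, blk a b c * (d b * d c) = ∑ a, ∑ b, ∑ c, blk a b c * (d a * d c) := by
    rw [sum_comm]
    refine sum_congr rfl fun a _ => sum_congr rfl fun b _ => sum_congr rfl fun c _ => ?_
    rw [blk_swap12]
  have f0 : ∑ a, ∑ b, ∑ c, pB G μ a b c = 6 * mN G μ := by unfold mN; ring
  have g4 : ∑ a, ∑ b, ∑ c, (1 + S) * (blk a b c * (d a * d b)) =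
      (1 + S) * ∑ a, ∑ b, ∑ c, blk a b c * (d a * d b) := by
    simp only [mul_sum]
  rw [f0, f3, f2, f1, g3, g2, g4]
  nlinarith [mul_le_mul_of_nonneg_left g1 (by linarith : (0 : ℝ) ≤ 1 + S)]

/-- missing blocks of the normalised perturbed measures -/
theorem mN_mix (hμ : ∀ a, IsW (μ a)) (hd : ∀ a, ∑ x, |D a x| ≤ d a)
    (hA : ∀ a x, 0 ≤ μ a x + D a x) {s : ℝ} (s0 : 0 < s) (hs : ∀ a, s ≤ ∑ x, (μ a x + D a x))
    {μ' : Fin 6 → V → ℝ} (hμ' : ∀ a x, (∑ x, (μ a x + D a x)) * μ' a x = μ a x + D a x)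
    (hμi : ∀ a, IsW (μ' a)) :
    s ^ 3 * (6 * mN G μ') ≤ 6 * mN G μ + 3 * ∑ a, ∑ x, D a x * hh G μ x a +
        2 * (∑ a, d a) ^ 2 * (3 + ∑ a, d a) := by
  refine le_trans ?_ (miss_mix hμ hd hA)
  have f0 : 6 * mN G μ' = ∑ a, ∑ b, ∑ c, pB G μ' a b c := by unfold mN; ring
  rw [f0]
  simp only [mul_sum]
  refine sum_le_sum fun a _ => sum_le_sum fun b _ => sum_le_sum fun c _ => ?_
  have e : ∀ a, (fun x => μ a x + D a x) = fun x => (∑ x, (μ a x + D a x)) * μ' a x :=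
    fun a => funext fun x => (hμ' a x).symm
  rw [e a, e b, e c, Ms_smul, Ms_mu G hμi]
  have t1 := tt_le_one (G := G) hμi a b c
  unfold pB
  have h1 : s ^ 3 ≤ (∑ x, (μ a x + D a x)) * (∑ x, (μ b x + D b x)) *
      ∑ x, (μ c x + D c x) := by
    have h2 : s ^ 3 = s * s * s := by ring
    rw [h2]
    exact mul_le_mul (mul_le_mul (hs a) (hs b) s0.le (s0.le.trans (hs a))) (hs c) s0.le
      (mul_nonneg (s0.le.trans (hs a)) (s0.le.trans (hs b)))
  calc s ^ 3 * (blk a b c * (1 - tt G μ' a b c)) = blk a b c * (s ^ 3 * (1 - tt G μ' a b c)) := by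
        ring
    _ ≤ blk a b c * ((∑ x, (μ a x + D a x)) * (∑ x, (μ b x + D b x)) *
      (∑ x, (μ c x + D c x)) * (1 - tt G μ' a b c)) :=
        mul_le_mul_of_nonneg_left (mul_le_mul_of_nonneg_right h1 (by linarith))
          (blk_nonneg _ _ _)

end Mix

end K4m
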