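import Mathlib
import Pool.Agent.Lib.MP_392c14_co.Acc.Exch

/-!
# The test vector `F = x - Σ m_a μ_a`
-/

set_option autoImplicit false

namespace K4m

open Finset

section Bil

variable {V : Type} [Fintype V] (G : TG V)

theorem tri_smul1 (u f g : V → ℝ) (s : ℝ) :
    tri G (fun y => s * u y) f g = s * tri G u f g := by
  unfold tri
  simp only [mul_sum]
  refine sum_congr rfl fun x _ => sum_congr rfl fun y _ => sum_congr rfl fun z _ => ?_
  ring

theorem tri_smul2 (u f g : V → ℝ) (s : ℝ) :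
    tri G u (fun y => s * f y) g = s * tri G u f g := by
  rw [tri_swap12, tri_smul1, tri_swap12]

theorem tri_smul3 (u f g : V → ℝ) (s : ℝ) :
    tri G u f (fun y => s * g y) = s * tri G u f g := by
  rw [tri_swap23, tri_smul2, tri_swap23]

theorem tri_pl1 (u u' f g : V → ℝ) :
    tri G (fun y => u y + u' y) f g = tri G u f g + tri G u' f g := by
  have h := tri_lin G u u' f g 1
  simpa using h

theorem tri_pl2 (u f f' g : V → ℝ) :
    tri G u (fun y => f y + f' y) g = tri G u f g + tri G u f' g := by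
  have h := tri_lin2 G u f f' g 1
  simpa using h

theorem tri_pl3 (u f g g' : V → ℝ) :
    tri G u f (fun y => g y + g' y) = tri G u f g + tri G u f g' := by
  have h := tri_lin3 G u f g g' 1
  simpa using h

theorem tri_sum1 {ι : Type} (s : Finset ι) (c : ι → ℝ) (F : ι → V → ℝ) (f g : V → ℝ) :
    tri G (fun y => ∑ i ∈ s, c i * F i y) f g = ∑ i ∈ s, c i * tri G (F i) f g := by
  classical
  refine Finset.induction_on s ?_ ?_
  · simp [tri]
  · intro a s ha ih
    have e : (fun y => ∑ i ∈ insert a s, c i * F i y) =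
        fun y => (fun y => c a * F a y) y + (fun y => ∑ i ∈ s, c i * F i y) y := by
      funext y; rw [sum_insert ha]
    rw [e, tri_pl1, tri_smul1, ih, sum_insert ha]

theorem tri_sum2 {ι : Type} (s : Finset ι) (c : ι → ℝ) (u : V → ℝ) (F : ι → V → ℝ) (g : V → ℝ) :
    tri G u (fun y => ∑ i ∈ s, c i * F i y) g = ∑ i ∈ s, c i * tri G u (F i) g := by
  rw [tri_swap12, tri_sum1]
  exact sum_congr rfl fun i _ => by rw [tri_swap12]

theorem tri_sum3 {ι : Type} (s : Finset ι) (c : ι → ℝ) (u g : V → ℝ) (F : ι → V → ℝ) :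
    tri G u g (fun y => ∑ i ∈ s, c i * F i y) = ∑ i ∈ s, c i * tri G u g (F i) := by
  rw [tri_swap23, tri_sum2]
  exact sum_congr rfl fun i _ => by rw [tri_swap23]

/-- quadratic expansion of three summands -/
theorem quad3 (F a b c : V → ℝ) :
    tri G F (fun y => a y + b y + c y) (fun y => a y + b y + c y) =
      tri G F a a + tri G F b b + tri G F c c + 2 * tri G F a b + 2 * tri G F a c +
        2 * tri G F b c := by
  have e : (fun y => a y + b y + c y) = fun y => (fun y => a y + b y) y + c y := rfl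
  rw [e, tri_pl2 G F (fun y => a y + b y) c, tri_pl3 G F (fun y => a y + b y) _ c,
    tri_pl2 G F a b, tri_pl3 G F a a b, tri_pl3 G F b a b, tri_pl2 G F a b c,
    tri_pl3 G F c (fun y => a y + b y) c, tri_pl3 G F c a b]
  rw [tri_swap23 G F b a, tri_swap23 G F c a, tri_swap23 G F c b]
  ring

end Bil

section TestV

variable {V : Type} [Fintype V] {G : TG V} {w : V → ℝ} {μ : Fin 6 → V → ℝ} {v : Fin 6 → ℝ}
  {X : V → ℝ} {t : ℝ}

/-- uniform mixture -/
noncomputable def ws (μ : Fin 6 → V → ℝ) (y : V) : ℝ := ∑ a, 1 / 6 * μ a y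

/-- size part of the deviation -/
noncomputable def es (μ : Fin 6 → V → ℝ) (v : Fin 6 → ℝ) (y : V) : ℝ :=
  ∑ a, (v a - 1 / 6) * μ a y

/-- row sums of a functional -/
noncomputable def Dp (G : TG V) (μ : Fin 6 → V → ℝ) (F : V → ℝ) (b : Fin 6) : ℝ :=
  ∑ c, tri G F (μ b) (μ c)

/-- mass of the garbage -/
noncomputable def xX (X : V → ℝ) : ℝ := ∑ x, X x

theorem Dec.w_eq (D : Dec G w μ v X t) : w = fun y => ws μ y + es μ v y + X y := by
  funext y
  rw [D.dec y]
  congr 1
  unfold ws es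
  rw [← sum_add_distrib]
  refine sum_congr rfl fun a _ => ?_
  ring

theorem tri_ws (F f : V → ℝ) : tri G F f (ws μ) = 1 / 6 * ∑ a, tri G F f (μ a) := by
  have : ws μ = fun y => ∑ a, 1 / 6 * μ a y := rfl
  rw [this, tri_sum3, mul_sum]

theorem tri_es (F f : V → ℝ) : tri G F f (es μ v) = ∑ a, (v a - 1 / 6) * tri G F f (μ a) := by
  have : es μ v = fun y => ∑ a, (v a - 1 / 6) * μ a y := rfl
  rw [this, tri_sum3]

theorem tri_ws_b (F : V → ℝ) (b : Fin 6) : tri G F (μ b) (ws μ) = 1 / 6 * Dp G μ F b := by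
  rw [tri_ws]; rfl

theorem tri_ws_ws (F : V → ℝ) : tri G F (ws μ) (ws μ) = 1 / 36 * ∑ b, Dp G μ F b := by
  rw [tri_ws]
  have : ∀ a, tri G F (ws μ) (μ a) = 1 / 6 * Dp G μ F a := by
    intro a
    rw [tri_swap23, tri_ws_b]
  simp only [this]
  rw [← mul_sum]
  ring

theorem Dec.tri_deg (D : Dec G w μ v X t) (F : V → ℝ) (hF : ∑ x, F x = 0) :
    tri G F w w = 0 := by
  rw [tri_eq_sum_deg]
  have : ∀ x, F x * deg G w x = t * F x := fun x => by rw [D.hdeg]; ring
  rw [sum_congr rfl fun x _ => this x, ← mul_sum, hF, mul_zero]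

/-- L1: the uniform quadratic form of a vector of total mass zero -/
theorem Dec.L1 (D : Dec G w μ v X t) (F : V → ℝ) (hF : ∑ x, F x = 0) :
    ∑ b, Dp G μ F b = -12 * ∑ b, (v b - 1 / 6) * Dp G μ F b - 72 * tri G F X w -
      36 * tri G F (es μ v) (es μ v) + 36 * tri G F X X := by
  have h0 := D.tri_deg F hF
  have hw := D.w_eq
  have h1 : tri G F w w = tri G F (ws μ) (ws μ) + tri G F (es μ v) (es μ v) + tri G F X X +
      2 * tri G F (ws μ) (es μ v) + 2 * tri G F (ws μ) X + 2 * tri G F (es μ v) X := by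
    rw [hw, quad3]
  have h2 : tri G F X w = tri G F X (ws μ) + tri G F X (es μ v) + tri G F X X := by
    rw [hw]
    have e : (fun y => ws μ y + es μ v y + X y) =
      fun y => (fun y => ws μ y + es μ v y) y + X y := rfl
    rw [e, tri_pl3, tri_pl3]
  have h3 : tri G F (ws μ) (es μ v) = 1 / 6 * ∑ b, (v b - 1 / 6) * Dp G μ F b := by
    rw [tri_es, mul_sum]
    refine sum_congr rfl fun b _ => ?_
    rw [tri_swap23, tri_ws_b]; ring
  have h4 := tri_ws_ws (G := G) (μ := μ) F
  have h5 := tri_swap23 G F X (ws μ)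
  have h6 := tri_swap23 G F X (es μ v)
  rw [h1] at h0
  linarith

/-- L3: a vector of total mass zero against the garbage -/
theorem Dec.L3 (D : Dec G w μ v X t) (F : V → ℝ) (hF : ∑ x, F x = 0) (q : ℝ)
    (hq : -tri G F F w ≤ q) : tri G F X w ≤ 1 / 2 * xX X * (q + t) := by
  set ξ := xX X with hξ
  have ξ0 : 0 ≤ ξ := sum_nonneg fun x _ => D.hX x
  rcases eq_or_lt_of_le ξ0 with h | h
  · have hX0 : ∀ x, X x = 0 := by
      intro x
      have := (sum_eq_zero_iff_of_nonneg (fun x _ => D.hX x)).1 (h.symm)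
      exact this x (mem_univ x)
    have : tri G F X w = 0 := by
      unfold tri
      refine sum_eq_zero fun a _ => sum_eq_zero fun b _ => sum_eq_zero fun c _ => ?_
      rw [hX0 b]; ring
    rw [this, ← h]; simp
  · -- the vector `ξ F + (X - ξ w)`
    have hs : ∑ x, (ξ * F x + (X x + (-ξ) * w x)) = 0 := by
      rw [sum_add_distrib, sum_add_distrib, ← mul_sum, ← mul_sum, hF, D.hw.sum_eq]
      have : ∑ x, X x = ξ := rfl
      rw [this]; ring
    have hc := D.hcnd _ hs
    have hww : tri G w w w = t := by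
      rw [tri_eq_sum_deg]
      have : ∀ x, w x * deg G w x = t * w x := fun x => by rw [D.hdeg]; ring
      rw [sum_congr rfl fun x _ => this x, ← mul_sum, D.hw.sum_eq, mul_one]
    have hXw : tri G X w w = ξ * t := by
      rw [tri_eq_sum_deg]
      have : ∀ x, X x * deg G w x = t * X x := fun x => by rw [D.hdeg]; ring
      rw [sum_congr rfl fun x _ => this x, ← mul_sum]
      have : ∑ x, X x = ξ := rfl
      rw [this]; ring
    have hFw : tri G F w w = 0 := D.tri_deg F hF
    have hXX : 0 ≤ tri G X X w := by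
      unfold tri
      exact sum_nonneg fun a _ => sum_nonneg fun b _ => sum_nonneg fun c _ =>
        mul_nonneg (mul_nonneg (mul_nonneg (D.hX a) (D.hX b)) (D.hw.nonneg c)) (ind_nonneg _)
    have e1 : ∀ g, tri G (fun x => ξ * F x + (X x + (-ξ) * w x)) g w =
        ξ * tri G F g w + (tri G X g w + (-ξ) * tri G w g w) := by
      intro g
      have a1 := tri_pl1 G (fun x => ξ * F x) (fun x => X x + (-ξ) * w x) g w
      have a2 := tri_pl1 G X (fun x => (-ξ) * w x) g w
      rw [a1, a2, tri_smul1, tri_smul1]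
    have e2 : ∀ f, tri G f (fun x => ξ * F x + (X x + (-ξ) * w x)) w =
        ξ * tri G f F w + (tri G f X w + (-ξ) * tri G f w w) := by
      intro f
      rw [tri_swap12, e1, tri_swap12 G F f, tri_swap12 G X f, tri_swap12 G w f]
    rw [e1, e2, e2, e2] at hc
    rw [hFw, tri_swap12 G X F w, hXw, tri_swap12 G w F w, hFw, tri_swap12 G w X w, hXw, hww] at hc
    -- `ξ² T(F,F,w) + 2 ξ T(F,X,w) + T(X,X,w) - ξ² t ≤ 0`
    have h1 : 2 * ξ * tri G F X w ≤ ξ ^ 2 * q + ξ ^ 2 * t := by nlinarith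
    have h2 : ξ * tri G F X w ≤ ξ * (1 / 2 * ξ * (q + t)) := by nlinarith
    exact le_of_mul_le_mul_left h2 h

end TestV

end K4m
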