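import Mathlib
import Pool.Agent.Lib.MP_392c14_co.Acc.Reass
import Pool.Agent.Lib.MP_392c14_co.Acc.Test

/-!
# The total partition by the near types: sizes, missing blocks and link densities
-/

set_option autoImplicit false

namespace K4m

open Finset

section R2

variable {V : Type} [Fintype V] {G : TG V} {w : V → ℝ} {μ : Fin 6 → V → ℝ} {v : Fin 6 → ℝ}
  {X : V → ℝ} {t : ℝ} {c : V → Fin 6}

/-- the average of the missing degree over the classes -/
theorem sum_hh (hμ : ∀ a, IsW (μ a)) : ∑ a, ∑ x, μ a x * hh G μ x a = 6 * mN G μ := by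
  have f0 : 6 * mN G μ = ∑ a, ∑ b, ∑ c, pB G μ a b c := by unfold mN; ring
  rw [f0]
  refine sum_congr rfl fun a _ => ?_
  unfold hh pB
  simp only [← Ms_mu G hμ, Ms_eq_kk G hμ, mul_sum]
  have h3 : ∀ b, ∑ c, ∑ x, blk a b c * (μ a x * (1 - kk G x (μ b) (μ c))) =
      ∑ x, ∑ c, blk a b c * (μ a x * (1 - kk G x (μ b) (μ c))) := fun b => sum_comm
  rw [sum_congr rfl fun b _ => h3 b, sum_comm]
  refine sum_congr rfl fun x _ => sum_congr rfl fun b _ => sum_congr rfl fun c _ => ?_
  ring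

theorem kk_le_one (hμ : ∀ a, IsW (μ a)) (x : V) (a b : Fin 6) : kk G x (μ a) (μ b) ≤ 1 := by
  have := kk_le_mass G x (μ a) (μ b) (hμ a).nonneg (hμ b).nonneg
  rw [(hμ a).sum_eq, (hμ b).sum_eq] at this
  linarith

theorem hh_nonneg (hμ : ∀ a, IsW (μ a)) (x : V) (k : Fin 6) : 0 ≤ hh G μ x k :=
  sum_nonneg fun a _ => sum_nonneg fun b _ => mul_nonneg (blk_nonneg _ _ _) (by
    have := kk_le_one (G := G) hμ x a b
    linarith)

/-- fraction of the class `a` which has another near type -/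
noncomputable def phi (μ : Fin 6 → V → ℝ) (c : V → Fin 6) (a : Fin 6) : ℝ :=
  ∑ x, μ a x * (if c x = a then 0 else 1)

/-- change of the class `a`, normalised by the old mass -/
noncomputable def DD' (w : V → ℝ) (μ : Fin 6 → V → ℝ) (v : Fin 6 → ℝ) (c : V → Fin 6) (a : Fin 6)
    (x : V) : ℝ := w x * (if c x = a then 1 else 0) / v a - μ a x

/-- new mass in the class `a`, normalised -/
noncomputable def io (w : V → ℝ) (μ : Fin 6 → V → ℝ) (v : Fin 6 → ℝ) (c : V → Fin 6)
    (a : Fin 6) : ℝ := ∑ x, (w x / v a - μ a x) * (if c x = a then 1 else 0)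

theorem phi_nonneg (hμ : ∀ a, IsW (μ a)) (a : Fin 6) : 0 ≤ phi μ c a :=
  sum_nonneg fun x _ => mul_nonneg ((hμ a).nonneg x) (by split_ifs <;> norm_num)

theorem Dec.mu_le (D : Dec G w μ v X t) (a : Fin 6) (x : V) : 0 ≤ w x / v a - μ a x := by
  have h1 : v a * μ a x ≤ w x := by
    rw [D.dec x]
    have h2 := single_le_sum (f := fun a => v a * μ a x)
      (fun b _ => mul_nonneg (D.hv b).le ((D.hμ b).nonneg x)) (mem_univ a)
    have h3 := D.hX x
    linarith
  rw [sub_nonneg, le_div_iff₀ (D.hv a)]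
  linarith

theorem Dec.io_nonneg (D : Dec G w μ v X t) (a : Fin 6) : 0 ≤ io w μ v c a :=
  sum_nonneg fun x _ => mul_nonneg (D.mu_le a x) (by split_ifs <;> norm_num)

/-- total new mass -/
theorem Dec.sum_io (D : Dec G w μ v X t) :
    ∑ a, v a * io w μ v c a = xX X + ∑ a, v a * phi μ c a := by
  have h1 : ∀ a, v a * io w μ v c a = ∑ x, (if c x = a then w x else 0) - v a +
      v a * phi μ c a := by
    intro a
    unfold io phi
    have e1 : ∑ x, v a * μ a x = v a := by rw [← mul_sum, (D.hμ a).sum_eq, mul_one]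
    have e2 : ∀ x, v a * ((w x / v a - μ a x) * (if c x = a then 1 else 0)) =
        (if c x = a then w x else 0) - v a * μ a x + v a * (μ a x * (if c x = a then 0 else 1)) := by
      intro x
      have hne := (D.hv a).ne'
      split_ifs
      · field_simp; ring
      · ring
    rw [mul_sum, sum_congr rfl fun x _ => e2 x, sum_add_distrib, sum_sub_distrib, e1, ← mul_sum]
  rw [sum_congr rfl fun a _ => h1 a, sum_add_distrib, sum_sub_distrib]
  have h2 : ∑ a, ∑ x, (if c x = a then w x else 0) = 1 := by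
    rw [sum_comm]
    rw [sum_congr rfl fun x _ => by rw [sum_ite_eq, if_pos (mem_univ _)]]
    exact D.hw.sum_eq
  rw [h2]
  have h3 := D.sum_v
  unfold xX
  linarith

/-- total variation of the change -/
theorem Dec.abs_DD (D : Dec G w μ v X t) (a : Fin 6) :
    ∑ x, |DD' w μ v c a x| = io w μ v c a + phi μ c a := by
  unfold io phi
  rw [← sum_add_distrib]
  refine sum_congr rfl fun x _ => ?_
  unfold DD'
  have h1 := D.mu_le a x
  have h2 := (D.hμ a).nonneg x
  split_ifs
  · rw [mul_one, mul_one, mul_zero, add_zero, abs_of_nonneg h1]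
  · rw [mul_zero, mul_zero, mul_one, zero_div, zero_sub, abs_neg, abs_of_nonneg h2, zero_add]

omit [Fintype V] in
theorem mu_add_DD (a : Fin 6) (x : V) :
    μ a x + DD' w μ v c a x = w x * (if c x = a then 1 else 0) / v a := by
  unfold DD'; ring

theorem sum_mu_DD (a : Fin 6) : ∑ x, (μ a x + DD' w μ v c a x) = cl w c a / v a := by
  rw [sum_congr rfl fun x _ => mu_add_DD a x]
  unfold cl
  rw [sum_div]

theorem Dec.cl_eq (D : Dec G w μ v X t) (a : Fin 6) :
    cl w c a / v a = 1 + io w μ v c a - phi μ c a := by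
  rw [← sum_mu_DD (μ := μ) a, sum_add_distrib, (D.hμ a).sum_eq]
  have : ∑ x, DD' w μ v c a x = io w μ v c a - phi μ c a := by
    unfold io phi
    rw [← sum_sub_distrib]
    refine sum_congr rfl fun x _ => ?_
    unfold DD'
    split_ifs <;> ring
  rw [this]; ring

/-- contribution of the change to the missing blocks -/
theorem Dec.DD_hh (D : Dec G w μ v X t) {H F : ℝ} (hk : ∀ x, hh G μ x (c x) ≤ H)
    (hf : ∀ x a, a ≠ c x → F ≤ hh G μ x a) :
    ∑ a, ∑ x, DD' w μ v c a x * hh G μ x a ≤ H * ∑ a, io w μ v c a - F * ∑ a, phi μ c a := by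
  rw [mul_sum, mul_sum, ← sum_sub_distrib]
  refine sum_le_sum fun a _ => ?_
  unfold io phi
  rw [mul_sum, mul_sum, ← sum_sub_distrib]
  refine sum_le_sum fun x _ => ?_
  unfold DD'
  have h1 := D.mu_le a x
  have h2 := (D.hμ a).nonneg x
  by_cases h : c x = a
  · rw [if_pos h, if_pos h]
    have h3 := hk x
    rw [h] at h3
    have := mul_le_mul_of_nonneg_left h3 h1
    rw [mul_one, mul_one, mul_zero, mul_zero, sub_zero]
    linarith
  · rw [if_neg h, if_neg h]
    have h3 := hf x a (fun h' => h h'.symm)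
    have := mul_le_mul_of_nonneg_left h3 h2
    rw [mul_zero, mul_zero, zero_div]
    linarith

/-- few vertices have another near type -/
theorem sum_phi_le (hμ : ∀ a, IsW (μ a)) {F : ℝ} (hf : ∀ x a, a ≠ c x → F ≤ hh G μ x a) :
    F * ∑ a, phi μ c a ≤ 6 * mN G μ := by
  rw [← sum_hh hμ, mul_sum]
  refine sum_le_sum fun a _ => ?_
  unfold phi
  rw [mul_sum]
  refine sum_le_sum fun x _ => ?_
  have h2 := (hμ a).nonneg x
  by_cases h : c x = a
  · rw [if_pos h, mul_zero, mul_zero]
    exact mul_nonneg h2 (hh_nonneg hμ x a)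
  · rw [if_neg h, mul_one]
    have := mul_le_mul_of_nonneg_left (hf x a (fun h' => h h'.symm)) h2
    linarith

end R2

/-- the bounds for the total partition -/
structure Rea {V : Type} [Fintype V] (G : TG V) (w : V → ℝ) (μ : Fin 6 → V → ℝ) (v : Fin 6 → ℝ)
    (X : V → ℝ) (t : ℝ) (c : V → Fin 6) (H : ℝ) : Prop where
  dec : Dec G w μ v X t
  near : ∀ x, hh G μ x (c x) ≤ H
  far : ∀ x a, a ≠ c x → 18 / 5 ≤ hh G μ x a
  hm : mN G μ ≤ 1 / 100
  hX : xX X ≤ 4 / 1000
  lo : ∀ a, 4 / 25 ≤ v a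
  hi : ∀ a, v a ≤ 173 / 1000

section R3

variable {V : Type} [Fintype V] {G : TG V} {w : V → ℝ} {μ : Fin 6 → V → ℝ} {v : Fin 6 → ℝ}
  {X : V → ℝ} {t : ℝ} {c : V → Fin 6} {H : ℝ}

theorem Rea.phi_le (R : Rea G w μ v X t c H) : ∑ a, phi μ c a ≤ 1 / 60 := by
  have h := sum_phi_le R.dec.hμ R.far
  have := R.hm
  linarith

theorem Rea.phi0 (R : Rea G w μ v X t c H) : 0 ≤ ∑ a, phi μ c a :=
  sum_nonneg fun a _ => phi_nonneg R.dec.hμ a

theorem Rea.io_le (R : Rea G w μ v X t c H) :
    ∑ a, io w μ v c a ≤ 25 / 4 * xX X + 173 / 160 * ∑ a, phi μ c a := by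
  have h := R.dec.sum_io (c := c)
  have h1 : 4 / 25 * ∑ a, io w μ v c a ≤ ∑ a, v a * io w μ v c a := by
    rw [mul_sum]
    exact sum_le_sum fun a _ => mul_le_mul_of_nonneg_right (R.lo a) (R.dec.io_nonneg a)
  have h2 : ∑ a, v a * phi μ c a ≤ 173 / 1000 * ∑ a, phi μ c a := by
    rw [mul_sum]
    exact sum_le_sum fun a _ => mul_le_mul_of_nonneg_right (R.hi a) (phi_nonneg R.dec.hμ a)
  linarith

theorem Rea.io0 (R : Rea G w μ v X t c H) : 0 ≤ ∑ a, io w μ v c a :=
  sum_nonneg fun a _ => R.dec.io_nonneg a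

theorem Rea.ratio (R : Rea G w μ v X t c H) (a : Fin 6) : 59 / 60 ≤ cl w c a / v a := by
  rw [R.dec.cl_eq]
  have h1 := R.dec.io_nonneg (c := c) a
  have h2 := single_le_sum (f := phi μ c) (fun b _ => phi_nonneg R.dec.hμ b) (mem_univ a)
  have h3 := R.phi_le
  linarith

theorem Rea.cl_pos (R : Rea G w μ v X t c H) (a : Fin 6) : 0 < cl w c a := by
  have h1 := R.ratio a
  have h2 := R.dec.hv a
  rw [le_div_iff₀ h2] at h1
  nlinarith

theorem Rea.muT_eq (R : Rea G w μ v X t c H) (a : Fin 6) (x : V) :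
    (∑ x, (μ a x + DD' w μ v c a x)) * muT w c a x = μ a x + DD' w μ v c a x := by
  rw [sum_mu_DD, mu_add_DD]
  have h1 := cl_mul_muT (w := w) (c := c) (R.cl_pos a) x
  rw [div_mul_eq_mul_div, h1]

/-- **Missing blocks of the total partition.** -/
theorem Rea.mN_le (R : Rea G w μ v X t c H) (H0 : 0 ≤ H) (H1 : H ≤ 1) :
    mN G (muT w c) ≤ mN G μ + 25 / 8 * H * xX X + 50 * xX X ^ 2 := by
  have hμ := R.dec.hμ
  have h := mN_mix (G := G) (μ := μ) (D := DD' w μ v c) (d := fun a => io w μ v c a + phi μ c a) hμ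
    (fun a => (R.dec.abs_DD a).le) (fun a x => by
      rw [mu_add_DD]
      exact div_nonneg (mul_nonneg (R.dec.hw.nonneg x) (by split_ifs <;> norm_num)) (R.dec.hv a).le)
    (s := 1 - ∑ a, phi μ c a) (by have := R.phi_le; linarith) (fun a => by
      rw [sum_mu_DD, R.dec.cl_eq]
      have h1 := R.dec.io_nonneg (c := c) a
      have h2 := single_le_sum (f := phi μ c) (fun b _ => phi_nonneg hμ b) (mem_univ a)
      linarith)
    R.muT_eq (fun a => isW_muT R.dec.hw.nonneg (R.cl_pos a))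
  have h2 := R.dec.DD_hh R.near R.far
  rw [sum_add_distrib] at h
  have hphi := R.phi_le
  have hphi0 := R.phi0
  have hio := R.io_le
  have hio0 := R.io0
  have hm := R.hm
  have hm0 := mN_nonneg (G := G) hμ
  have hX := R.hX
  have hX0 : 0 ≤ xX X := sum_nonneg fun x _ => R.dec.hX x
  have hμT : ∀ a, IsW (muT w c a) := fun a => isW_muT R.dec.hw.nonneg (R.cl_pos a)
  have hn0 := mN_nonneg (G := G) hμT
  set P := ∑ a, phi μ c a with hP
  set I := ∑ a, io w μ v c a with hI
  set m := mN G μ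
  set m' := mN G (muT w c)
  set xi := xX X
  -- bound of the total variation
  have q1 : I + P ≤ 25 / 4 * xi + 333 / 160 * P := by linarith
  have q1' : I + P ≤ 6 / 100 := by linarith
  have q2 : (I + P) ^ 2 ≤ (25 / 4 * xi + 333 / 160 * P) ^ 2 :=
    pow_le_pow_left₀ (by linarith) q1 2
  have q3 : (25 / 4 * xi + 333 / 160 * P) ^ 2 ≤ 40 * xi ^ 2 + 18 / 100 * P := by
    have a1 : xi * P ≤ 4 / 1000 * P := mul_le_mul_of_nonneg_right hX hphi0
    have a2 : P ^ 2 ≤ 1 / 60 * P := by
      rw [sq]; exact mul_le_mul_of_nonneg_right hphi hphi0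
    nlinarith
  have q4 : 2 * (I + P) ^ 2 * (3 + (I + P)) ≤ 612 / 100 * (I + P) ^ 2 := by
    have := sq_nonneg (I + P)
    nlinarith
  have q5 : 612 / 100 * (I + P) ^ 2 ≤ 245 * xi ^ 2 + 111 / 100 * P := by
    have := sq_nonneg xi
    linarith
  have q6 : H * I ≤ H * (25 / 4 * xi) + 173 / 160 * P := by
    have a1 := mul_le_mul_of_nonneg_left hio H0
    have a2 : H * (173 / 160 * P) ≤ 1 * (173 / 160 * P) :=
      mul_le_mul_of_nonneg_right H1 (by linarith)
    linarith
  have q7 : (1 - P) ^ 3 * (6 * m') ≤ 6 * m + 75 / 4 * H * xi + 245 * xi ^ 2 - 6 * P := by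
    linarith
  -- remove the factor
  have q8 : 1 - 3 * P ≤ (1 - P) ^ 3 := by nlinarith [sq_nonneg P]
  have q9 : (1 - 3 * P) * (6 * m') ≤ 6 * m + 75 / 4 * H * xi + 245 * xi ^ 2 - 6 * P := by
    have := mul_le_mul_of_nonneg_right q8 (by linarith : 0 ≤ 6 * m')
    linarith
  have r1 : H * xi ≤ 4 / 1000 := by
    calc H * xi ≤ 1 * (4 / 1000) := mul_le_mul H1 hX hX0 (by norm_num)
      _ = _ := by norm_num
  have r2 : xi ^ 2 ≤ 16 / 10 ^ 6 := by
    have := pow_le_pow_left₀ hX0 hX 2
    norm_num at this ⊢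
    linarith
  have r3 : m' ≤ 1 / 20 := by
    have s1 : (19 / 20 : ℝ) ≤ 1 - 3 * P := by linarith
    have s2 := mul_le_mul_of_nonneg_right s1 (by linarith : 0 ≤ 6 * m')
    linarith
  have r4 : P * m' ≤ P * (1 / 20) := mul_le_mul_of_nonneg_left r3 hphi0
  have r5 := sq_nonneg xi
  linarith

/-- sizes of the total partition -/
theorem Rea.sizes (R : Rea G w μ v X t c H) :
    ∑ a, |cl w c a - v a| ≤ xX X + 6 / 1000 := by
  have h1 : ∀ a, |cl w c a - v a| ≤ v a * io w μ v c a + v a * phi μ c a := by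
    intro a
    have h2 := R.dec.cl_eq (c := c) a
    have h3 := R.dec.hv a
    have h4 : cl w c a = v a * (1 + io w μ v c a - phi μ c a) := by
      rw [← h2]; field_simp
    have h5 : cl w c a - v a = v a * io w μ v c a - v a * phi μ c a := by rw [h4]; ring
    rw [h5]
    have h6 := mul_nonneg h3.le (R.dec.io_nonneg (c := c) a)
    have h7 := mul_nonneg h3.le (phi_nonneg (c := c) R.dec.hμ a)
    rw [abs_le]
    constructor <;> linarith
  have h2 := sum_le_sum (s := univ) fun a _ => h1 a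
  rw [sum_add_distrib, R.dec.sum_io] at h2
  have h3 : ∑ a, v a * phi μ c a ≤ 173 / 1000 * ∑ a, phi μ c a := by
    rw [mul_sum]
    exact sum_le_sum fun a _ => mul_le_mul_of_nonneg_right (R.hi a) (phi_nonneg R.dec.hμ a)
  have h4 := R.phi_le
  linarith

/-- bilinear form of the missing pairs -/
theorem miss2_le {f g f' g' : V → ℝ} (x : V) (hf : ∀ y, 0 ≤ f y + f' y) :
    (∑ y, (f y + f' y)) * (∑ y, (g y + g' y)) - kk G x (fun y => f y + f' y)
      (fun y => g y + g' y) ≤ ((∑ y, f y) * (∑ y, g y) - kk G x f g) +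
      (∑ y, |f' y|) * (∑ y, |g y|) + (∑ y, (f y + f' y)) * ∑ y, |g' y| := by
  have e : ∀ p q : V → ℝ, (∑ y, p y) * (∑ y, q y) - kk G x p q =
      ∑ y, ∑ z, p y * q z * (1 - ind (G.E x y z)) := by
    intro p q
    unfold kk
    rw [sum_mul, ← sum_sub_distrib]
    refine sum_congr rfl fun y _ => ?_
    rw [mul_sum, ← sum_sub_distrib]
    exact sum_congr rfl fun z _ => by ring
  rw [e, e]
  have e2 : (∑ y, |f' y|) * (∑ y, |g y|) = ∑ y, ∑ z, |f' y| * |g z| := by
    rw [sum_mul]
    exact sum_congr rfl fun y _ => mul_sum _ _ _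
  have e3 : (∑ y, (f y + f' y)) * ∑ y, |g' y| = ∑ y, ∑ z, (f y + f' y) * |g' z| := by
    rw [sum_mul]
    exact sum_congr rfl fun y _ => mul_sum _ _ _
  rw [e2, e3]
  simp only [← sum_add_distrib]
  refine sum_le_sum fun y _ => sum_le_sum fun z _ => ?_
  have h0 := ind_nonneg (G.E x y z)
  have h1 := ind_le_one (G.E x y z)
  set i := 1 - ind (G.E x y z) with hi
  have i0 : 0 ≤ i := by linarith
  have i1 : i ≤ 1 := by linarith
  have a1 : f' y * g z * i ≤ |f' y| * |g z| := by
    calc f' y * g z * i ≤ |f' y * g z| * 1 :=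
          (mul_le_mul_of_nonneg_right (le_abs_self _) i0).trans
            (mul_le_mul_of_nonneg_left i1 (abs_nonneg _))
      _ = _ := by rw [abs_mul, mul_one]
  have a2 : (f y + f' y) * g' z * i ≤ (f y + f' y) * |g' z| := by
    calc (f y + f' y) * g' z * i ≤ (f y + f' y) * |g' z| * i :=
          mul_le_mul_of_nonneg_right (mul_le_mul_of_nonneg_left (le_abs_self _) (hf y)) i0
      _ ≤ (f y + f' y) * |g' z| * 1 :=
          mul_le_mul_of_nonneg_left i1 (mul_nonneg (hf y) (abs_nonneg _))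
      _ = _ := mul_one _
  calc (f y + f' y) * (g z + g' z) * i = f y * g z * i + f' y * g z * i +
        (f y + f' y) * g' z * i := by ring
    _ ≤ _ := by linarith

/-- missing pairs between the new classes -/
theorem Rea.pair (R : Rea G w μ v X t c H) (x : V) (a b : Fin 6) :
    1 - kk G x (muT w c a) (muT w c b) ≤
      (60 / 59) ^ 2 * (1 - kk G x (μ a) (μ b)) + 60 / 59 * (60 / 59 * (io w μ v c a + phi μ c a) +
        (io w μ v c b + phi μ c b)) := by
  have hμ := R.dec.hμ
  have hμT : ∀ a, IsW (muT w c a) := fun a => isW_muT R.dec.hw.nonneg (R.cl_pos a)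
  have m1 : ∀ a, ∑ x, |μ a x| = 1 := by
    intro a
    rw [← (hμ a).sum_eq]
    exact sum_congr rfl fun x _ => abs_of_nonneg ((hμ a).nonneg x)
  have hA : ∀ a x, 0 ≤ μ a x + DD' w μ v c a x := fun a x => by
    rw [mu_add_DD]
    exact div_nonneg (mul_nonneg (R.dec.hw.nonneg x) (by split_ifs <;> norm_num)) (R.dec.hv a).le
  have h := miss2_le (G := G) (f := μ a) (g := μ b) (f' := DD' w μ v c a) (g' := DD' w μ v c b) x
    (hA a)
  rw [R.dec.abs_DD, R.dec.abs_DD, m1, (hμ a).sum_eq, (hμ b).sum_eq, sum_mu_DD, sum_mu_DD] at h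
  have e : kk G x (fun y => μ a y + DD' w μ v c a y) (fun y => μ b y + DD' w μ v c b y) =
      cl w c a / v a * (cl w c b / v b) * kk G x (muT w c a) (muT w c b) := by
    have e1 : ∀ a, (fun y => μ a y + DD' w μ v c a y) = fun y => cl w c a / v a * muT w c a y := by
      intro a
      funext y
      rw [← R.muT_eq a y, sum_mu_DD]
    rw [e1 a, e1 b, kk_smul, kk_smul2]
    ring
  rw [e] at h
  have ra := R.ratio a
  have rb := R.ratio b
  have k1 := kk_le_one (G := G) hμT x a b
  have k2 := kk_le_one (G := G) hμ x a b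
  have i1 := R.dec.io_nonneg (c := c) a
  have i2 := R.dec.io_nonneg (c := c) b
  have p1 := phi_nonneg (c := c) hμ a
  have p2 := phi_nonneg (c := c) hμ b
  set A := cl w c a / v a
  set B := cl w c b / v b
  set K := 1 - kk G x (muT w c a) (muT w c b) with hK
  set M := 1 - kk G x (μ a) (μ b) with hM
  set da := io w μ v c a + phi μ c a
  set db := io w μ v c b + phi μ c b
  have K0 : 0 ≤ K := by linarith
  have M0 : 0 ≤ M := by linarith
  have h1 : A * B * K ≤ M + da + A * db := by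
    have : A * B * K = A * B - A * B * kk G x (muT w c a) (muT w c b) := by rw [hK]; ring
    rw [this]; linarith
  have A0 : 0 < A := by linarith
  have B0 : 0 < B := by linarith
  -- divide
  have h2 : K ≤ (M + da) / (A * B) + db / B := by
    have e5 : (M + da) / (A * B) + db / B = (M + da + A * db) / (A * B) := by
      field_simp
    rw [e5, le_div_iff₀ (mul_pos A0 B0)]
    linarith
  have h3 : (M + da) / (A * B) ≤ (M + da) * (60 / 59) ^ 2 := by
    rw [div_le_iff₀ (mul_pos A0 B0)]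
    have : (59 / 60 : ℝ) ^ 2 ≤ A * B := by
      rw [sq]; exact mul_le_mul ra rb (by norm_num) A0.le
    have h5 := mul_le_mul_of_nonneg_left this (by linarith : 0 ≤ (M + da))
    nlinarith
  have h4 : db / B ≤ db * (60 / 59) := by
    rw [div_le_iff₀ B0]
    have h5 := mul_le_mul_of_nonneg_left rb (by linarith : 0 ≤ db)
    nlinarith
  calc K ≤ (M + da) / (A * B) + db / B := h2
    _ ≤ (M + da) * (60 / 59) ^ 2 + db * (60 / 59) := add_le_add h3 h4
    _ = _ := by ring

theorem Rea.tv (R : Rea G w μ v X t c H) (a : Fin 6) :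
    io w μ v c a + phi μ c a ≤ 6 / 100 := by
  have h1 := single_le_sum (f := phi μ c) (fun b _ => phi_nonneg R.dec.hμ b) (mem_univ a)
  have h2 := single_le_sum (f := io w μ v c) (fun b _ => R.dec.io_nonneg b) (mem_univ a)
  have h3 := R.phi_le
  have h4 := R.io_le
  have h5 := R.hX
  linarith

theorem Rea.tv_sum (R : Rea G w μ v X t c H) :
    ∑ a, (io w μ v c a + phi μ c a) ≤ 6 / 100 := by
  rw [sum_add_distrib]
  have h3 := R.phi_le
  have h4 := R.io_le
  have h5 := R.hX
  linarith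

/-- missing pairs of a vertex, new classes -/
theorem Rea.hh_le (R : Rea G w μ v X t c H) (x : V) (k : Fin 6) :
    hh G (muT w c) x k ≤ 26 / 25 * hh G μ x k + 1 / 4 := by
  have hμ := R.dec.hμ
  have h1 : hh G (muT w c) x k ≤ ∑ a, ∑ b, (blk k a b * ((60 / 59) ^ 2 * (1 - kk G x (μ a) (μ b)))
      + blk k a b * ((60 / 59) ^ 2 * (io w μ v c a + phi μ c a)) +
      blk k a b * (60 / 59 * (io w μ v c b + phi μ c b))) := by
    unfold hh
    refine sum_le_sum fun a _ => sum_le_sum fun b _ => ?_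
    have := mul_le_mul_of_nonneg_left (R.pair x a b) (blk_nonneg k a b)
    linarith
  have d0 : ∀ a, 0 ≤ io w μ v c a + phi μ c a := fun a =>
    add_nonneg (R.dec.io_nonneg a) (phi_nonneg hμ a)
  have s1 : ∑ a, ∑ b, blk k a b * ((60 / 59) ^ 2 * (io w μ v c a + phi μ c a)) ≤
      2 * (60 / 59) ^ 2 * ∑ a, (io w μ v c a + phi μ c a) := by
    rw [mul_sum]
    refine sum_le_sum fun a _ => ?_
    rw [← sum_mul]
    have := blk_sum_le k a
    have h2 := mul_le_mul_of_nonneg_right this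
      (mul_nonneg (by positivity : (0 : ℝ) ≤ (60 / 59) ^ 2) (d0 a))
    linarith
  have s2 : ∑ a, ∑ b, blk k a b * (60 / 59 * (io w μ v c b + phi μ c b)) ≤
      2 * (60 / 59) * ∑ a, (io w μ v c a + phi μ c a) := by
    rw [sum_comm, mul_sum]
    refine sum_le_sum fun b _ => ?_
    rw [← sum_mul]
    have h3 : ∑ a, blk k a b ≤ 2 := by
      have := blk_sum_le k b
      have e : ∑ a, blk k a b = ∑ a, blk k b a := sum_congr rfl fun a _ => blk_swap23 k b a
      rw [e]; exact this
    have h2 := mul_le_mul_of_nonneg_right h3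
      (mul_nonneg (by positivity : (0 : ℝ) ≤ (60 / 59)) (d0 b))
    linarith
  have s3 : ∑ a, ∑ b, blk k a b * ((60 / 59) ^ 2 * (1 - kk G x (μ a) (μ b))) =
      (60 / 59) ^ 2 * hh G μ x k := by
    unfold hh
    simp only [mul_sum]
    refine sum_congr rfl fun a _ => sum_congr rfl fun b _ => ?_
    ring
  simp only [sum_add_distrib] at h1 s1 s2
  have h5 := R.tv_sum
  rw [sum_add_distrib] at h5
  have h6 := hh_nonneg (G := G) hμ x k
  rw [s3] at h1
  norm_num at h1 s1 s2 h5 ⊢
  linarith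

end R3

end K4m
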