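import Mathlib
import Pool.Agent.Lib.MP_392c14_co.Acc.Range
import Pool.Agent.Lib.MP_392c14_co.Acc.Reass2

/-!
# The range of the deviations for a decomposition; sums over the ten blocks
-/

set_option autoImplicit false

namespace K4m

open Finset

/-- a symmetric function summed over the blocks -/
theorem sum_blocks (g : Fin 6 → Fin 6 → Fin 6 → ℝ) (h12 : ∀ a b c, g b a c = g a b c)
    (h23 : ∀ a b c, g a c b = g a b c) :
    ∑ a, ∑ b, ∑ c, blk a b c * g a b c = 6 * (g 0 1 2 + g 0 1 3 + g 0 2 4 + g 0 3 5 + g 0 4 5 +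
      g 1 2 5 + g 1 3 4 + g 1 4 5 + g 2 3 4 + g 2 3 5) := by
  have hv : ∀ a b c : Fin 6, blk a b c = if D6.E a b c = true then 1 else 0 := fun a b c => rfl
  have p1 : ∀ a b c, g a c b = g a b c := h23
  have p2 : ∀ a b c, g b a c = g a b c := h12
  have p3 : ∀ a b c, g b c a = g a b c := fun a b c => (h23 b a c).trans (h12 a b c)
  have p4 : ∀ a b c, g c a b = g a b c := fun a b c => (h12 a c b).trans (h23 a b c)
  have p5 : ∀ a b c, g c b a = g a b c := fun a b c => (h12 b c a).trans (p3 a b c)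
  simp only [Fin.sum_univ_six, hv]
  simp (decide := true) only [if_true, if_false, zero_mul, one_mul, add_zero, zero_add]
  rw [p1 0 1 2, p2 0 1 2, p3 0 1 2, p4 0 1 2, p5 0 1 2, p1 0 1 3, p2 0 1 3, p3 0 1 3, p4 0 1 3, p5 0 1 3, p1 0 2 4, p2 0 2 4, p3 0 2 4, p4 0 2 4, p5 0 2 4, p1 0 3 5, p2 0 3 5, p3 0 3 5, p4 0 3 5, p5 0 3 5, p1 0 4 5, p2 0 4 5, p3 0 4 5, p4 0 4 5, p5 0 4 5, p1 1 2 5, p2 1 2 5, p3 1 2 5, p4 1 2 5, p5 1 2 5, p1 1 3 4, p2 1 3 4, p3 1 3 4, p4 1 3 4, p5 1 3 4, p1 1 4 5, p2 1 4 5, p3 1 4 5, p4 1 4 5, p5 1 4 5, p1 2 3 4, p2 2 3 4, p3 2 3 4, p4 2 3 4, p5 2 3 4, p1 2 3 5, p2 2 3 5, p3 2 3 5, p4 2 3 5, p5 2 3 5]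
  ring

theorem mb_eq {q : Fin 6 → Fin 6 → ℝ} {T : Fin 6 → Fin 6 → Fin 6 → ℝ} (P : PQ q T) (k : Fin 6) :
    mb T k = 10 - (T 0 1 2 + T 0 1 3 + T 0 2 4 + T 0 3 5 + T 0 4 5 +
      T 1 2 5 + T 1 3 4 + T 1 4 5 + T 2 3 4 + T 2 3 5) := by
  have p1 : ∀ a b c, T a c b = T a b c := P.s23
  have p2 : ∀ a b c, T b a c = T a b c := P.s12
  have p3 : ∀ a b c, T b c a = T a b c := fun a b c => (P.s23 b a c).trans (P.s12 a b c)
  have p4 : ∀ a b c, T c a b = T a b c := fun a b c => (P.s12 a c b).trans (P.s23 a b c)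
  have p5 : ∀ a b c, T c b a = T a b c := fun a b c => (P.s12 b c a).trans (p3 a b c)
  fin_cases k
  · have e : mb T 0 = ((1 - T 0 1 2) + (1 - T 0 2 4) + (1 - T 0 4 5) + (1 - T 0 5 3) + (1 - T 0 3 1)) +
        ((1 - T 1 2 5) + (1 - T 2 4 3) + (1 - T 4 5 1) + (1 - T 5 3 2) + (1 - T 3 1 4)) := by
      unfold mb; simp only [Fin.sum_univ_five]; rfl
    show mb T 0 = _
    rw [e, p1 0 3 5, p1 0 1 3, p1 2 3 4, p3 1 4 5, p5 2 3 5, p2 1 3 4]
    ring
  · have e : mb T 1 = ((1 - T 1 0 2) + (1 - T 1 2 5) + (1 - T 1 5 4) + (1 - T 1 4 3) + (1 - T 1 3 0)) +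
        ((1 - T 0 2 4) + (1 - T 2 5 3) + (1 - T 5 4 0) + (1 - T 4 3 2) + (1 - T 3 0 5)) := by
      unfold mb; simp only [Fin.sum_univ_five]; rfl
    show mb T 1 = _
    rw [e, p2 0 1 2, p1 1 4 5, p1 1 3 4, p3 0 1 3, p1 2 3 5, p5 0 4 5, p5 2 3 4, p2 0 3 5]
    ring
  · have e : mb T 2 = ((1 - T 2 0 1) + (1 - T 2 1 5) + (1 - T 2 5 3) + (1 - T 2 3 4) + (1 - T 2 4 0)) +
        ((1 - T 0 1 3) + (1 - T 1 5 4) + (1 - T 5 3 0) + (1 - T 3 4 1) + (1 - T 4 0 5)) := by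
      unfold mb; simp only [Fin.sum_univ_five]; rfl
    show mb T 2 = _
    rw [e, p4 0 1 2, p2 1 2 5, p1 2 3 5, p3 0 2 4, p1 1 4 5, p5 0 3 5, p3 1 3 4, p2 0 4 5]
    ring
  · have e : mb T 3 = ((1 - T 3 0 1) + (1 - T 3 1 4) + (1 - T 3 4 2) + (1 - T 3 2 5) + (1 - T 3 5 0)) +
        ((1 - T 0 1 2) + (1 - T 1 4 5) + (1 - T 4 2 0) + (1 - T 2 5 1) + (1 - T 5 0 4)) := by
      unfold mb; simp only [Fin.sum_univ_five]; rfl
    show mb T 3 = _
    rw [e, p4 0 1 3, p2 1 3 4, p3 2 3 4, p2 2 3 5, p3 0 3 5, p5 0 2 4, p3 1 2 5, p4 0 4 5]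
    ring
  · have e : mb T 4 = ((1 - T 4 0 2) + (1 - T 4 2 3) + (1 - T 4 3 1) + (1 - T 4 1 5) + (1 - T 4 5 0)) +
        ((1 - T 0 2 1) + (1 - T 2 3 5) + (1 - T 3 1 0) + (1 - T 1 5 2) + (1 - T 5 0 3)) := by
      unfold mb; simp only [Fin.sum_univ_five]; rfl
    show mb T 4 = _
    rw [e, p4 0 2 4, p4 2 3 4, p5 1 3 4, p2 1 4 5, p3 0 4 5, p1 0 1 2, p5 0 1 3, p1 1 2 5, p4 0 3 5]
    ring
  · have e : mb T 5 = ((1 - T 5 0 3) + (1 - T 5 3 2) + (1 - T 5 2 1) + (1 - T 5 1 4) + (1 - T 5 4 0)) +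
        ((1 - T 0 3 1) + (1 - T 3 2 4) + (1 - T 2 1 0) + (1 - T 1 4 3) + (1 - T 4 0 2)) := by
      unfold mb; simp only [Fin.sum_univ_five]; rfl
    show mb T 5 = _
    rw [e, p4 0 3 5, p5 2 3 5, p5 1 2 5, p4 1 4 5, p5 0 4 5, p1 0 1 3, p2 2 3 4, p5 0 1 2, p1 1 3 4, p4 0 2 4]
    ring


section Range

variable {q : Fin 6 → Fin 6 → ℝ} {T : Fin 6 → Fin 6 → Fin 6 → ℝ}

theorem loc_lab (P : PQ q T) (k : Fin 6) (i : Fin 5) :
    Loc q T k (lab k i) (lab k (i + 1)) (lab k (i + 2)) (lab k (i + 3)) (lab k (i + 4))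
      (hp q k) (mb T k) := by
  refine ⟨P, ?_, ?_⟩
  · unfold hp
    rw [sum_rot _ i]
    fin_cases i <;> rfl
  · unfold mb
    rw [sum_rot _ i, sum_rot _ i]
    fin_cases i <;> rfl

theorem uL_eq (k : Fin 6) (i : Fin 5) : uL q T k (lab k i) (lab k (i + 1)) (lab k (i + 2))
    (lab k (i + 3)) (lab k (i + 4)) = dvU q T k (lab k i) := by
  rw [dvU_lab]; rfl

theorem uK_eq (k : Fin 6) (i : Fin 5) : uK q T k (lab k i) (lab k (i + 1)) (lab k (i + 2))
    (lab k (i + 3)) (lab k (i + 4)) = dvU q T k k := by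
  rw [dvU_k, sum_rot _ i]; rfl

theorem fin5_cases (i j : Fin 5) : j = i ∨ j = i + 1 ∨ j = i + 2 ∨ j = i + 3 ∨ j = i + 4 := by
  revert i j; decide +kernel

/-- **The range of the deviations.** -/
theorem range_le (P : PQ q T) (k : Fin 6) (E1 E2 B : ℝ)
    (hE1 : q k k - T k k k - ∑ i, T k k (lab k i) ≤ E1)
    (hE2 : -(q k k - T k k k - ∑ i, T k k (lab k i)) ≤ E2)
    (hB1 : hp q k + E1 + 5 / 3 * mb T k ≤ B) (hB2 : hp q k + 8 / 3 * mb T k ≤ B)
    (hB3 : 1 / 2 * hp q k + mb T k + E2 ≤ B) (a b : Fin 6) :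
    dvU q T k a - dvU q T k b ≤ B := by
  have hB0 : 0 ≤ B := by
    have C := loc_lab P k 0
    obtain ⟨b0, b1, b2, b3, b4, g0, g1, g2, g3, g4⟩ := C.bt
    obtain ⟨p0, p1, p2, p3, p4⟩ := C.pp
    have hm := C.mm
    have hh := C.hh
    linarith
  by_cases ha : a = k
  · by_cases hb : b = k
    · rw [ha, hb, sub_self]; exact hB0
    · obtain ⟨i, hi⟩ := lab_surj k b hb
      rw [ha, ← hi, ← uL_eq k i, ← uK_eq k i]
      have C := loc_lab P k i
      refine (C.rng_kb E1 ?_).trans hB1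
      rw [sum_rot _ i] at hE1
      exact hE1
  · obtain ⟨i, hi⟩ := lab_surj k a ha
    by_cases hb : b = k
    · rw [hb, ← hi, ← uL_eq k i, ← uK_eq k i]
      have C := loc_lab P k i
      refine (C.rng_bk E2 ?_).trans hB3
      rw [sum_rot _ i] at hE2
      exact hE2
    · obtain ⟨j, hj⟩ := lab_surj k b hb
      rw [← hi, ← hj]
      have C := loc_lab P k i
      rcases fin5_cases i j with h | h | h | h | h
      · rw [h, sub_self]; exact hB0
      · rw [h, ← uL_eq k i, ← uL_eq k (i + 1)]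
        have e : ∀ i : Fin 5, i + 1 + 1 = i + 2 ∧ i + 1 + 2 = i + 3 ∧ i + 1 + 3 = i + 4 ∧
          i + 1 + 4 = i := by decide
        rw [(e i).1, (e i).2.1, (e i).2.2.1, (e i).2.2.2]
        exact C.rng_01.trans hB2
      · rw [h, ← uL_eq k i, ← uL_eq k (i + 2)]
        have e : ∀ i : Fin 5, i + 2 + 1 = i + 3 ∧ i + 2 + 2 = i + 4 ∧ i + 2 + 3 = i ∧
          i + 2 + 4 = i + 1 := by decide
        rw [(e i).1, (e i).2.1, (e i).2.2.1, (e i).2.2.2]
        exact C.rng_02.trans hB2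
      · -- reflection
        have h2 := C.refl.rng_02
        have e : ∀ i : Fin 5, i + 3 + 1 = i + 4 ∧ i + 3 + 2 = i ∧ i + 3 + 3 = i + 1 ∧
          i + 3 + 4 = i + 2 := by decide
        rw [h, ← uL_eq k i, ← uL_eq k (i + 3), (e i).1, (e i).2.1, (e i).2.2.1, (e i).2.2.2]
        have e1 : uL q T k (lab k i) (lab k (i + 4)) (lab k (i + 3)) (lab k (i + 2))
            (lab k (i + 1)) = uL q T k (lab k i) (lab k (i + 1)) (lab k (i + 2))
            (lab k (i + 3)) (lab k (i + 4)) := by unfold uL; ring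
        have e2 : uL q T k (lab k (i + 3)) (lab k (i + 2)) (lab k (i + 1)) (lab k i)
            (lab k (i + 4)) = uL q T k (lab k (i + 3)) (lab k (i + 4)) (lab k i)
            (lab k (i + 1)) (lab k (i + 2)) := by unfold uL; ring
        rw [e1, e2] at h2
        exact h2.trans hB2
      · have h2 := C.refl.rng_01
        have e : ∀ i : Fin 5, i + 4 + 1 = i ∧ i + 4 + 2 = i + 1 ∧ i + 4 + 3 = i + 2 ∧
          i + 4 + 4 = i + 3 := by decide
        rw [h, ← uL_eq k i, ← uL_eq k (i + 4), (e i).1, (e i).2.1, (e i).2.2.1, (e i).2.2.2]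
        have e1 : uL q T k (lab k i) (lab k (i + 4)) (lab k (i + 3)) (lab k (i + 2))
            (lab k (i + 1)) = uL q T k (lab k i) (lab k (i + 1)) (lab k (i + 2))
            (lab k (i + 3)) (lab k (i + 4)) := by unfold uL; ring
        have e2 : uL q T k (lab k (i + 4)) (lab k (i + 3)) (lab k (i + 2)) (lab k (i + 1))
            (lab k i) = uL q T k (lab k (i + 4)) (lab k i) (lab k (i + 1))
            (lab k (i + 2)) (lab k (i + 3)) := by unfold uL; ring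
        rw [e1, e2] at h2
        exact h2.trans hB2

end Range

section Inst

variable {V : Type} [Fintype V] {G : TG V} {μ : Fin 6 → V → ℝ}

/-- the densities of a vertex and of the classes -/
theorem pq_of (hμ : ∀ a, IsW (μ a)) (x : V) : PQ (fun a b => kk G x (μ a) (μ b)) (tt G μ) where
  q0 a b := kk_nonneg G x _ _ (hμ a).nonneg (hμ b).nonneg
  qs a b := kk_swap G x _ _
  T0 := tt_nonneg hμ
  T1 := tt_le_one hμ
  s12 := tt_swap12 G μ
  s23 := fun a b c => tt_swap23 G μ a b c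
  four := four_x hμ x
  fourT a i j l := by
    have h := fun x => four_x (G := G) hμ x i j l
    have e : ∀ b c, tt G μ a b c = ∑ x, μ a x * kk G x (μ b) (μ c) := fun b c => tri_eq_kk G _ _ _
    rw [e, e, e]
    have e2 : tt G μ i j l = ∑ x, μ a x * tt G μ i j l := by
      rw [← sum_mul, (hμ a).sum_eq, one_mul]
    have e3 : (2 : ℝ) = ∑ x, μ a x * 2 := by rw [← sum_mul, (hμ a).sum_eq, one_mul]
    rw [e2, e3]
    simp only [← sum_add_distrib, ← mul_add]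
    exact sum_le_sum fun x _ => mul_le_mul_of_nonneg_left (h x) ((hμ a).nonneg x)

theorem mb_tt (hμ : ∀ a, IsW (μ a)) (x : V) (k : Fin 6) : mb (tt G μ) k = mN G μ := by
  rw [mb_eq (pq_of (G := G) hμ x) k]
  have h := sum_blocks (fun a b c => 1 - tt G μ a b c)
    (fun a b c => by show 1 - tt G μ b a c = 1 - tt G μ a b c; rw [tt_swap12])
    (fun a b c => by show 1 - tt G μ a c b = 1 - tt G μ a b c; rw [tt_swap23])
  have h2 : ∑ a, ∑ b, ∑ c, blk a b c * (1 - tt G μ a b c) = 6 * mN G μ := by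
    unfold mN pB; ring
  rw [h2] at h
  linarith

theorem blk_lab (k : Fin 6) (i : Fin 5) : blk k (lab k i) k = 0 ∧ blk k (lab k i) (lab k i) = 0 ∧
    blk k (lab k i) (lab k (i + 1)) = 1 ∧ blk k (lab k i) (lab k (i + 2)) = 0 ∧
    blk k (lab k i) (lab k (i + 3)) = 0 ∧ blk k (lab k i) (lab k (i + 4)) = 1 := by
  have h4 : ∀ k i, D6.E k (lab k i) (lab k (i + 4)) = true := by decide +kernel
  refine ⟨?_, ?_, ?_, ?_, ?_, ?_⟩
  · exact blk_irr2 _ _
  · exact blk_irr3 _ _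
  · exact ind_true (lab_k k i)
  · exact ind_false (lab_n2 k i)
  · exact ind_false (lab_n3 k i)
  · exact ind_true (h4 k i)

theorem hh_eq (x : V) (k : Fin 6) :
    hh G μ x k = 2 * hp (fun a b => kk G x (μ a) (μ b)) k := by
  have h1 : ∀ i, ∑ b, blk k (lab k i) b * (1 - kk G x (μ (lab k i)) (μ b)) =
      (1 - kk G x (μ (lab k i)) (μ (lab k (i + 1)))) +
      (1 - kk G x (μ (lab k i)) (μ (lab k (i + 4)))) := by
    intro i
    rw [sum_lab _ k, sum_rot _ i]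
    obtain ⟨a0, a1, a2, a3, a4, a5⟩ := blk_lab k i
    rw [a0, a1, a2, a3, a4, a5]
    ring
  unfold hh hp
  rw [sum_lab _ k]
  have h0 : ∑ b, blk k k b * (1 - kk G x (μ k) (μ b)) = 0 :=
    sum_eq_zero fun b _ => by rw [blk_eq_zero, zero_mul]
  rw [h0, zero_add]
  simp only [h1]
  rw [sum_add_distrib]
  have h2 : ∑ i : Fin 5, (1 - kk G x (μ (lab k i)) (μ (lab k (i + 4)))) =
      ∑ i : Fin 5, (1 - kk G x (μ (lab k i)) (μ (lab k (i + 1)))) := by
    have h3 : ∀ i : Fin 5, (1 - kk G x (μ (lab k i)) (μ (lab k (i + 4)))) =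
        (1 - kk G x (μ (lab k (i + 4))) (μ (lab k i))) := by
      intro i; rw [kk_swap]
    rw [sum_congr rfl fun i _ => h3 i]
    simp only [Fin.sum_univ_five]
    have e0 : (0 : Fin 5) + 4 = 4 := rfl
    have e1 : (1 : Fin 5) + 4 = 0 := rfl
    have e2 : (2 : Fin 5) + 4 = 1 := rfl
    have e3 : (3 : Fin 5) + 4 = 2 := rfl
    have e4 : (4 : Fin 5) + 4 = 3 := rfl
    have f0 : (0 : Fin 5) + 1 = 1 := rfl
    have f1 : (1 : Fin 5) + 1 = 2 := rfl
    have f2 : (2 : Fin 5) + 1 = 3 := rfl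
    have f3 : (3 : Fin 5) + 1 = 4 := rfl
    have f4 : (4 : Fin 5) + 1 = 0 := rfl
    rw [e0, e1, e2, e3, e4, f0, f1, f2, f3, f4]
    ring
  rw [h2]; ring

theorem BN_lab (k : Fin 6) : BN G μ k = ∑ i, tt G μ k k (lab k i) := by
  unfold BN
  rw [sum_lab _ k]
  have h0 : nee k k = 0 := by unfold nee; rw [if_pos rfl]
  rw [h0, zero_mul, zero_add]
  refine sum_congr rfl fun i _ => ?_
  have h1 : nee k (lab k i) = 1 := by unfold nee; rw [if_neg (fun h => lab_ne k i h.symm)]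
  rw [h1, one_mul]

/-- **The range of the deviations at a vertex.** -/
theorem range_x (hμ : ∀ a, IsW (μ a)) (x : V) (k : Fin 6) (E1 E2 B : ℝ)
    (hE1 : kk G x (μ k) (μ k) - tt G μ k k k - BN G μ k ≤ E1)
    (hE2 : -(kk G x (μ k) (μ k) - tt G μ k k k - BN G μ k) ≤ E2)
    (hB1 : 1 / 2 * hh G μ x k + E1 + 5 / 3 * mN G μ ≤ B)
    (hB2 : 1 / 2 * hh G μ x k + 8 / 3 * mN G μ ≤ B)
    (hB3 : 1 / 4 * hh G μ x k + mN G μ + E2 ≤ B) (a b : Fin 6) :
    ∑ c, (kk G x (μ a) (μ c) - tt G μ k a c) - ∑ c, (kk G x (μ b) (μ c) - tt G μ k b c) ≤ B := by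
  have h := range_le (pq_of (G := G) hμ x) k E1 E2 B (by rw [← BN_lab]; exact hE1)
    (by rw [← BN_lab]; exact hE2) (by rw [mb_tt hμ x]; rw [hh_eq] at hB1; linarith)
    (by rw [mb_tt hμ x]; rw [hh_eq] at hB2; linarith)
    (by rw [mb_tt hμ x]; rw [hh_eq] at hB3; linarith) a b
  exact h

end Inst

end K4m
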