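import Mathlib
import Pool.Agent.Lib.MP_392c14_co.Z8f
import Pool.Agent.Lib.MP_392c14_co.Acc.Range2

/-!
# Own bound: a graph without triangles with a large independent set is sparse

Consequences for the codegrees into a class, the number of blocks with two pairs and the
probability of a pentagon.
-/

set_option autoImplicit false

namespace K4m

open Finset Function

section OwnB

variable {V : Type} [Fintype V]

/-- mass of a set of vertices -/
noncomputable def msS (m : V → ℝ) (S : V → Bool) : ℝ := ∑ y, m y * ind (S y)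

/-- independent set -/
def IndS (L : V → V → Bool) (S : V → Bool) : Prop :=
  ∀ y z, S y = true → S z = true → L y z = false

omit [Fintype V] in
theorem lk_eq_ind (L : V → V → Bool) (x y : V) : lk L x y = ind (L x y) := rfl

theorem msS_le_one {m : V → ℝ} (hm : IsW m) (S : V → Bool) : msS m S ≤ 1 := by
  rw [← hm.sum_eq]
  refine sum_le_sum fun y _ => ?_
  have := mul_le_mul_of_nonneg_left (ind_le_one (S y)) (hm.nonneg y)
  linarith

/-- density of a graph without triangles with an independent set of mass at least `1/2` -/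
theorem qd_le_indep {m : V → ℝ} (hm : IsW m) {L : V → V → Bool} (hs : ∀ x y, L x y = L y x)
    (hT : ∀ x y t, ¬ (L x y = true ∧ L x t = true ∧ L y t = true)) {S : V → Bool}
    (hS : IndS L S) (hf : 1 / 2 ≤ msS m S) : qd m L ≤ 2 * msS m S * (1 - msS m S) := by
  classical
  -- an independent set of maximal mass
  obtain ⟨A, hA, hmax⟩ := exists_max_image (univ.filter fun A : V → Bool => IndS L A) (msS m)
    ⟨S, mem_filter.2 ⟨mem_univ S, hS⟩⟩
  have hA' : IndS L A := (mem_filter.1 hA).2
  have hmax' : ∀ B, IndS L B → msS m B ≤ msS m A := fun B hB =>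
    hmax B (mem_filter.2 ⟨mem_univ B, hB⟩)
  set α := msS m A with hα
  have hfα : msS m S ≤ α := hmax' S hS
  have α1 : α ≤ 1 := msS_le_one hm A
  -- degrees
  have hdg : ∀ v, dg m L v ≤ α := by
    intro v
    have h1 : IndS L (L v) := by
      intro y z hy hz
      rcases h : L y z with _ | _
      · rfl
      · exact absurd ⟨hy, hz, h⟩ (hT v y z)
    exact hmax' _ h1
  -- edges have an end outside
  have h1 : qd m L ≤ 2 * ∑ v, m v * (1 - ind (A v)) * dg m L v := by
    have e1 : ∑ v, m v * (1 - ind (A v)) * dg m L v =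
        ∑ v, ∑ y, m v * m y * ((1 - ind (A v)) * lk L v y) := by
      refine sum_congr rfl fun v _ => ?_
      unfold dg
      rw [mul_sum]
      exact sum_congr rfl fun y _ => by ring
    have e2 : ∑ v, m v * (1 - ind (A v)) * dg m L v =
        ∑ v, ∑ y, m v * m y * ((1 - ind (A y)) * lk L v y) := by
      rw [e1, sum_comm]
      refine sum_congr rfl fun v _ => sum_congr rfl fun y _ => ?_
      rw [lk_eq_ind, lk_eq_ind, hs y v]; ring
    have e3 : qd m L = ∑ v, ∑ y, m v * m y * lk L v y := by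
      unfold qd dg
      refine sum_congr rfl fun v _ => ?_
      rw [mul_sum]
      exact sum_congr rfl fun y _ => by ring
    rw [two_mul]
    nth_rewrite 1 [e1]
    rw [e2, e3, ← sum_add_distrib]
    refine sum_le_sum fun v _ => ?_
    rw [← sum_add_distrib]
    refine sum_le_sum fun y _ => ?_
    rw [← mul_add]
    refine mul_le_mul_of_nonneg_left ?_ (mul_nonneg (hm.nonneg v) (hm.nonneg y))
    rw [lk_eq_ind]
    rcases ind_cases (L v y) with ⟨a, a'⟩ | ⟨a, a'⟩
    · rcases ind_cases (A v) with ⟨b, b'⟩ | ⟨b, b'⟩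
      · rcases ind_cases (A y) with ⟨c, c'⟩ | ⟨c, c'⟩
        · have := hA' v y b c
          rw [this] at a
          exact absurd a (by simp)
        · rw [a', b', c']; norm_num
      · rcases ind_cases (A y) with ⟨c, c'⟩ | ⟨c, c'⟩
        · rw [a', b', c']; norm_num
        · rw [a', b', c']; norm_num
    · rw [a']; simp
  have h2 : ∑ v, m v * (1 - ind (A v)) * dg m L v ≤ ∑ v, m v * (1 - ind (A v)) * α :=
    sum_le_sum fun v _ => mul_le_mul_of_nonneg_left (hdg v)
      (mul_nonneg (hm.nonneg v) (by have := ind_le_one (A v); linarith))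
  have h3 : ∑ v, m v * (1 - ind (A v)) * α = (1 - α) * α := by
    rw [← sum_mul]
    congr 1
    have : ∀ v, m v * (1 - ind (A v)) = m v - m v * ind (A v) := fun v => by ring
    rw [sum_congr rfl fun v _ => this v, sum_sub_distrib, hm.sum_eq]
    rfl
  have h4 : qd m L ≤ 2 * α * (1 - α) := by linarith
  refine h4.trans ?_
  nlinarith

/-- **Own bound.** If the link of `z` has large density inside the measure `m`, all codegrees
of `z` into `m` are at most `um`. -/
theorem cod_le_um (G : TG V) {m : V → ℝ} (hm : IsW m) (x z : V) {um : ℝ} (h1 : 1 / 2 ≤ um)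
    (h2 : 2 * um * (1 - um) ≤ kk G z m m) : ∑ y, m y * ind (G.E x z y) ≤ um := by
  by_contra hne
  push Not at hne
  have hS : IndS (G.E z) (G.E x z) := by
    intro y y' hy hy'
    rcases h : G.E z y y' with _ | _
    · rfl
    · refine absurd ⟨?_, ?_, h⟩ (G.free z x y y')
      · rw [G.symm₁ x z y]; exact hy
      · rw [G.symm₁ x z y']; exact hy'
  have hsym : ∀ a b, G.E z a b = G.E z b a := fun a b => (G.symm₂ z a b).symm
  have hT : ∀ a b c, ¬ (G.E z a b = true ∧ G.E z a c = true ∧ G.E z b c = true) :=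
    fun a b c => G.free z a b c
  have hf : um < msS m (G.E x z) := hne
  have h3 := qd_le_indep hm hsym hT hS (by linarith)
  have h4 : qd m (G.E z) = kk G z m m := by
    unfold qd dg kk
    refine sum_congr rfl fun v _ => ?_
    rw [mul_sum]
    refine sum_congr rfl fun y _ => ?_
    rw [lk_eq_ind]; ring
  rw [h4] at h3
  set f := msS m (G.E x z)
  have f1 : f ≤ 1 := msS_le_one hm _
  nlinarith

/-- the same bound in the link of `x` -/
theorem dg_le_um (G : TG V) {m : V → ℝ} (hm : IsW m) (x z : V) {um : ℝ} (h1 : 1 / 2 ≤ um)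
    (h2 : 2 * um * (1 - um) ≤ kk G z m m) : dg m (G.E x) z ≤ um :=
  cod_le_um G hm x z h1 h2

/-! ### blocks with two pairs -/

omit [Fintype V] in
theorem bt8_le (G : TG V) (x a b c : V) : bt (G.E x) a b c ≤ 1 - ind (G.E a b c) := by
  unfold bt
  split_ifs with h
  · rcases ind_cases (G.E a b c) with ⟨e, e'⟩ | ⟨_, e'⟩
    · exfalso
      rcases h1 : G.E x a b with _ | _ <;> rcases h2 : G.E x a c with _ | _ <;>
        rcases h3 : G.E x b c with _ | _ <;> simp only [h1, h2, h3] at h <;>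
        first | (norm_num at h; done) | skip
      · -- a c, b c
        refine G.free c x a b ⟨?_, ?_, ?_⟩
        · rw [G.symm₁ x c a, G.symm₂ x a c]; exact h2
        · rw [G.symm₁ x c b, G.symm₂ x b c]; exact h3
        · rw [G.symm₁ a c b, G.symm₂ a b c]; exact e
      · -- a b, b c
        refine G.free b x a c ⟨?_, ?_, ?_⟩
        · rw [G.symm₁ x b a, G.symm₂ x a b]; exact h1
        · rw [G.symm₁ x b c]; exact h3
        · rw [G.symm₁ a b c]; exact e
      · -- a b, a c
        refine G.free a x b c ⟨?_, ?_, ?_⟩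
        · rw [G.symm₁ x a b]; exact h1
        · rw [G.symm₁ x a c]; exact h2
        · exact e
      · refine G.free a x b c ⟨?_, ?_, ?_⟩
        · rw [G.symm₁ x a b]; exact h1
        · rw [G.symm₁ x a c]; exact h2
        · exact e
    · rw [e']; norm_num
  · have := ind_le_one (G.E a b c)
    linarith

/-- expectation of a function of three coordinates -/
theorem E6_three {μ : Fin 6 → V → ℝ} (hμ : ∀ a, IsW (μ a)) (a b c : Fin 6) (hab : a ≠ b)
    (hac : a ≠ c) (hbc : b ≠ c) (u : V → V → V → ℝ) :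
    E6 μ (fun z => u (z a) (z b) (z c)) = ∑ x, ∑ y, ∑ t, μ a x * μ b y * μ c t * u x y t := by
  have h1 : E6 μ (fun z => u (z a) (z b) (z c)) =
      E6 μ (fun z => ∑ x, μ a x * u x (z b) (z c)) := by
    rw [← E6_avg hμ a]
    refine E6_congr μ fun z => sum_congr rfl fun x _ => ?_
    rw [update_self, update_of_ne hab.symm, update_of_ne hac.symm]
  have h2 : E6 μ (fun z => ∑ x, μ a x * u x (z b) (z c)) =
      E6 μ (fun z => ∑ y, μ b y * ∑ x, μ a x * u x y (z c)) := by
    rw [← E6_avg hμ b]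
    refine E6_congr μ fun z => sum_congr rfl fun y _ => ?_
    rw [update_self, update_of_ne hbc.symm]
  have h3 : E6 μ (fun z => ∑ y, μ b y * ∑ x, μ a x * u x y (z c)) =
      E6 μ (fun _ => ∑ t, μ c t * ∑ y, μ b y * ∑ x, μ a x * u x y t) := by
    rw [← E6_avg hμ c]
    refine E6_congr μ fun z => sum_congr rfl fun t _ => ?_
    rw [update_self]
  rw [h1, h2, h3, E6_const hμ]
  have e1 : ∀ t, μ c t * ∑ y, μ b y * ∑ x, μ a x * u x y t =
      ∑ y, ∑ x, μ a x * μ b y * μ c t * u x y t := by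
    intro t
    rw [mul_sum]
    refine sum_congr rfl fun y _ => ?_
    rw [mul_sum, mul_sum]
    exact sum_congr rfl fun x _ => by ring
  rw [sum_congr rfl fun t _ => e1 t, sum_comm]
  have e2 : ∀ y, ∑ t, ∑ x, μ a x * μ b y * μ c t * u x y t =
      ∑ x, ∑ t, μ a x * μ b y * μ c t * u x y t := fun y => sum_comm
  rw [sum_congr rfl fun y _ => e2 y, sum_comm]

theorem E6_ind3 (G : TG V) {μ : Fin 6 → V → ℝ} (hμ : ∀ a, IsW (μ a)) (a b c : Fin 6)
    (hab : a ≠ b) (hac : a ≠ c) (hbc : b ≠ c) :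
    E6 μ (fun z => 1 - ind (G.E (z a) (z b) (z c))) = 1 - tt G μ a b c := by
  rw [E6_sub, E6_const hμ, E6_three hμ a b c hab hac hbc (fun x y t => ind (G.E x y t))]
  rfl

/-- **The expected number of blocks with two pairs in a link.** -/
theorem E6_BB_le (G : TG V) {μ : Fin 6 → V → ℝ} (hμ : ∀ a, IsW (μ a)) (x : V) :
    E6 μ (BB (G.E x)) ≤ mN G μ := by
  have h1 : E6 μ (BB (G.E x)) ≤ E6 μ (fun z =>
      (1 - ind (G.E (z 0) (z 1) (z 2))) + (1 - ind (G.E (z 0) (z 1) (z 3))) +
      (1 - ind (G.E (z 0) (z 2) (z 4))) + (1 - ind (G.E (z 0) (z 3) (z 5))) +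
      (1 - ind (G.E (z 0) (z 4) (z 5))) + (1 - ind (G.E (z 1) (z 2) (z 5))) +
      (1 - ind (G.E (z 1) (z 3) (z 4))) + (1 - ind (G.E (z 1) (z 4) (z 5))) +
      (1 - ind (G.E (z 2) (z 3) (z 4))) + (1 - ind (G.E (z 2) (z 3) (z 5)))) := by
    refine E6_mono hμ fun z => ?_
    unfold BB
    have b1 := bt8_le G x (z 0) (z 1) (z 2)
    have b2 := bt8_le G x (z 0) (z 1) (z 3)
    have b3 := bt8_le G x (z 0) (z 2) (z 4)
    have b4 := bt8_le G x (z 0) (z 3) (z 5)
    have b5 := bt8_le G x (z 0) (z 4) (z 5)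
    have b6 := bt8_le G x (z 1) (z 2) (z 5)
    have b7 := bt8_le G x (z 1) (z 3) (z 4)
    have b8 := bt8_le G x (z 1) (z 4) (z 5)
    have b9 := bt8_le G x (z 2) (z 3) (z 4)
    have b10 := bt8_le G x (z 2) (z 3) (z 5)
    linarith
  refine h1.trans (le_of_eq ?_)
  rw [E6_add, E6_add, E6_add, E6_add, E6_add, E6_add, E6_add, E6_add, E6_add,
    E6_ind3 G hμ 0 1 2 (by decide) (by decide) (by decide),
    E6_ind3 G hμ 0 1 3 (by decide) (by decide) (by decide),
    E6_ind3 G hμ 0 2 4 (by decide) (by decide) (by decide),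
    E6_ind3 G hμ 0 3 5 (by decide) (by decide) (by decide),
    E6_ind3 G hμ 0 4 5 (by decide) (by decide) (by decide),
    E6_ind3 G hμ 1 2 5 (by decide) (by decide) (by decide),
    E6_ind3 G hμ 1 3 4 (by decide) (by decide) (by decide),
    E6_ind3 G hμ 1 4 5 (by decide) (by decide) (by decide),
    E6_ind3 G hμ 2 3 4 (by decide) (by decide) (by decide),
    E6_ind3 G hμ 2 3 5 (by decide) (by decide) (by decide)]
  have h := sum_blocks (fun a b c => 1 - tt G μ a b c)
    (fun a b c => by show 1 - tt G μ b a c = 1 - tt G μ a b c; rw [tt_swap12])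
    (fun a b c => by show 1 - tt G μ a c b = 1 - tt G μ a b c; rw [tt_swap23])
  have h2 : ∑ a, ∑ b, ∑ c, blk a b c * (1 - tt G μ a b c) = 6 * mN G μ := by
    unfold mN pB; ring
  rw [h2] at h
  linarith

/-! ### the pentagon event -/

theorem E6_ind2 (G : TG V) {μ : Fin 6 → V → ℝ} (hμ : ∀ a, IsW (μ a)) (x : V) (i j : Fin 6)
    (hij : i ≠ j) : E6 μ (fun z => ind (G.E x (z i) (z j))) = kk G x (μ i) (μ j) := by
  have h := E6_indep2 hμ i j hij (fun y v => ind (G.E x y v)) (fun _ => (1 : ℝ))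
    (fun _ _ => rfl) (fun _ _ => rfl)
  rw [E6_const hμ, mul_one] at h
  unfold kk
  rw [← h]
  exact E6_congr μ fun z => (mul_one _).symm

theorem pProb_eq_E6 (μ : Fin 6 → V → ℝ) (L : V → V → Bool) (k : Fin 6) :
    pProb μ L k = E6 μ (pInd L k) := rfl

/-- the pairs of the pentagon -/
theorem pProb_le_kk (G : TG V) {μ : Fin 6 → V → ℝ} (hμ : ∀ a, IsW (μ a)) (x : V)
    (k i j : Fin 6) (hij : i ≠ j) (h : D6.E k i j = true) :
    pProb μ (G.E x) k ≤ kk G x (μ i) (μ j) := by
  rw [pProb_eq_E6, ← E6_ind2 G hμ x i j hij]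
  refine E6_mono hμ fun z => ?_
  rcases pInd_cases (G.E x) k z with ⟨h1, h2⟩ | ⟨_, h2⟩
  · rw [h2]
    have h3 := h1 i j
    rw [← pTab_eq, h] at h3
    rw [h3]
    simp [ind]
  · rw [h2]; exact ind_nonneg _

/-- the other pairs -/
theorem pProb_le_one_sub_kk (G : TG V) {μ : Fin 6 → V → ℝ} (hμ : ∀ a, IsW (μ a)) (x : V)
    (k i j : Fin 6) (hij : i ≠ j) (h : D6.E k i j = false) :
    pProb μ (G.E x) k ≤ 1 - kk G x (μ i) (μ j) := by
  have e : (1 : ℝ) - kk G x (μ i) (μ j) = E6 μ (fun z => 1 - ind (G.E x (z i) (z j))) := by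
    rw [E6_sub, E6_const hμ, E6_ind2 G hμ x i j hij]
  rw [pProb_eq_E6, e]
  refine E6_mono hμ fun z => ?_
  rcases pInd_cases (G.E x) k z with ⟨h1, h2⟩ | ⟨_, h2⟩
  · rw [h2]
    have h3 := h1 i j
    rw [← pTab_eq, h] at h3
    rw [h3]
    simp [ind]
  · rw [h2]
    have := ind_le_one (G.E x (z i) (z j))
    linarith

end OwnB

end K4m
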