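import Mathlib
import Pool.Agent.Lib.MP_392c14_co.Acc.OwnB
import Pool.Agent.Lib.MP_392c14_co.Purity2

/-!
# The decomposition restricted to the near types; total variation and the pentagon probabilities
-/

set_option autoImplicit false

namespace K4m

open Finset Function

section Match

variable {V : Type} [Fintype V] {G : TG V} {w : V → ℝ} {μ : Fin 6 → V → ℝ} {v : Fin 6 → ℝ}
  {X : V → ℝ} {t : ℝ} {c : V → Fin 6}

/-- the class `a` restricted to the vertices of near type `a`, normalised -/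
noncomputable def muM (μ : Fin 6 → V → ℝ) (c : V → Fin 6) (a : Fin 6) (x : V) : ℝ :=
  μ a x * (if c x = a then 1 else 0) / (1 - phi μ c a)

/-- masses of the restricted classes -/
noncomputable def vM (μ : Fin 6 → V → ℝ) (v : Fin 6 → ℝ) (c : V → Fin 6) (a : Fin 6) : ℝ :=
  v a * (1 - phi μ c a)

/-- garbage of the restricted classes -/
noncomputable def XM (μ : Fin 6 → V → ℝ) (v : Fin 6 → ℝ) (X : V → ℝ) (c : V → Fin 6)
    (x : V) : ℝ := X x + ∑ a, v a * μ a x * (if c x = a then 0 else 1)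

theorem sum_near (hμ : ∀ a, IsW (μ a)) (a : Fin 6) :
    ∑ x, μ a x * (if c x = a then 1 else 0) = 1 - phi μ c a := by
  unfold phi
  rw [eq_sub_iff_add_eq, ← sum_add_distrib]
  refine Eq.trans (sum_congr rfl fun x _ => ?_) (hμ a).sum_eq
  split_ifs <;> ring

theorem muM_mul {a : Fin 6} (h : phi μ c a < 1) (x : V) :
    (1 - phi μ c a) * muM μ c a x = μ a x * (if c x = a then 1 else 0) := by
  have : (1 - phi μ c a) ≠ 0 := by linarith
  unfold muM
  exact mul_div_cancel₀ _ this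

theorem isW_muM (hμ : ∀ a, IsW (μ a)) {a : Fin 6} (h : phi μ c a < 1) : IsW (muM μ c a) where
  nonneg x := by
    unfold muM
    refine div_nonneg (mul_nonneg ((hμ a).nonneg x) ?_) (by linarith)
    split_ifs <;> norm_num
  sum_eq := by
    have : (1 - phi μ c a) ≠ 0 := by linarith
    unfold muM
    rw [← sum_div, sum_near hμ]
    exact div_self this

/-- **The decomposition restricted to the near types.** -/
theorem Dec.dM (D : Dec G w μ v X t) (h : ∀ a, phi μ c a < 1) :
    Dec G w (muM μ c) (vM μ v c) (XM μ v X c) t where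
  hw := D.hw
  hμ a := isW_muM D.hμ (h a)
  hv a := mul_pos (D.hv a) (by have := h a; linarith)
  hX x := add_nonneg (D.hX x) (sum_nonneg fun a _ =>
    mul_nonneg (mul_nonneg (D.hv a).le ((D.hμ a).nonneg x)) (by split_ifs <;> norm_num))
  dec x := by
    have e : ∀ a, v a * μ a x = vM μ v c a * muM μ c a x +
        v a * μ a x * (if c x = a then 0 else 1) := by
      intro a
      have h1 : vM μ v c a * muM μ c a x = v a * (μ a x * (if c x = a then 1 else 0)) := by
        rw [← muM_mul (h a) x]; unfold vM; ring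
      rw [h1]
      split_ifs <;> ring
    rw [D.dec x, sum_congr rfl fun a _ => e a, sum_add_distrib]
    unfold XM
    ring
  hdeg := D.hdeg
  hcnd := D.hcnd

theorem xX_XM : xX (XM μ v X c) = xX X + ∑ a, v a * phi μ c a := by
  unfold xX XM
  rw [sum_add_distrib]
  congr 1
  rw [sum_comm]
  refine sum_congr rfl fun a _ => ?_
  unfold phi
  rw [mul_sum]
  exact sum_congr rfl fun x _ => by ring

theorem phi_sum_le_mN (hμ : ∀ a, IsW (μ a)) (hf : ∀ x a, a ≠ c x → 4 ≤ hh G μ x a) :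
    4 * ∑ a, phi μ c a ≤ 6 * mN G μ := sum_phi_le hμ hf

theorem phi_sum_nonneg (hμ : ∀ a, IsW (μ a)) : 0 ≤ ∑ a, phi μ c a :=
  sum_nonneg fun a _ => phi_nonneg hμ a

theorem phi_le_sum (hμ : ∀ a, IsW (μ a)) (a : Fin 6) : phi μ c a ≤ ∑ a, phi μ c a :=
  single_le_sum (f := phi μ c) (fun b _ => phi_nonneg hμ b) (mem_univ a)

theorem phi_sum_small (hμ : ∀ a, IsW (μ a)) (hf : ∀ x a, a ≠ c x → 4 ≤ hh G μ x a)
    (hm : mN G μ ≤ 1 / 100) : ∑ a, phi μ c a ≤ 3 / 200 := by
  have := phi_sum_le_mN (c := c) hμ hf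
  linarith

theorem phi_lt_one (hμ : ∀ a, IsW (μ a)) (hf : ∀ x a, a ≠ c x → 4 ≤ hh G μ x a)
    (hm : mN G μ ≤ 1 / 100) (a : Fin 6) : phi μ c a < 1 := by
  have h1 := phi_sum_small hμ hf hm
  have h2 := phi_le_sum (c := c) hμ a
  linarith

/-- **Missing blocks of the restricted decomposition.** -/
theorem mN_muM (hμ : ∀ a, IsW (μ a)) (hf : ∀ x a, a ≠ c x → 4 ≤ hh G μ x a)
    (hm : mN G μ ≤ 1 / 100) : mN G (muM μ c) ≤ mN G μ - 19 / 10 * ∑ a, phi μ c a := by
  have hφ := phi_lt_one hμ hf hm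
  have P1 := phi_sum_small hμ hf hm
  have P0 := phi_sum_nonneg (c := c) hμ
  have hμM : ∀ a, IsW (muM μ c a) := fun a => isW_muM hμ (hφ a)
  have e0 : ∀ a x, μ a x + -(μ a x * (if c x = a then 0 else 1)) =
      μ a x * (if c x = a then 1 else 0) := by
    intro a x
    split_ifs <;> ring
  have e1 : ∀ a, ∑ x, (μ a x + -(μ a x * (if c x = a then 0 else 1))) = 1 - phi μ c a := by
    intro a
    rw [← sum_near hμ a]
    exact sum_congr rfl fun x _ => e0 a x
  have h := mN_mix (G := G) (μ := μ) (D := fun a x => -(μ a x * (if c x = a then 0 else 1)))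
    (d := fun a => phi μ c a) hμ (fun a => by
      have : ∑ x, |-(μ a x * (if c x = a then 0 else 1))| = phi μ c a := by
        unfold phi
        refine sum_congr rfl fun x _ => ?_
        rw [abs_neg, abs_of_nonneg]
        exact mul_nonneg ((hμ a).nonneg x) (by split_ifs <;> norm_num)
      exact this.le) (fun a x => by
      show 0 ≤ μ a x + -(μ a x * (if c x = a then 0 else 1))
      rw [e0]
      exact mul_nonneg ((hμ a).nonneg x) (by split_ifs <;> norm_num))
    (s := 1 - ∑ a, phi μ c a) (by linarith) (fun a => by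
      show 1 - ∑ a, phi μ c a ≤ ∑ x, (μ a x + -(μ a x * (if c x = a then 0 else 1)))
      rw [e1]
      have := phi_le_sum (c := c) hμ a
      linarith) (μ' := muM μ c) (fun a x => by
      show (∑ x, (μ a x + -(μ a x * (if c x = a then 0 else 1)))) * muM μ c a x =
        μ a x + -(μ a x * (if c x = a then 0 else 1))
      rw [e1, e0, muM_mul (hφ a)]) hμM
  have h2 : ∑ a, ∑ x, -(μ a x * (if c x = a then 0 else 1)) * hh G μ x a ≤
      -4 * ∑ a, phi μ c a := by
    rw [mul_sum]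
    refine sum_le_sum fun a _ => ?_
    unfold phi
    rw [mul_sum]
    refine sum_le_sum fun x _ => ?_
    by_cases hx : c x = a
    · rw [if_pos hx]; simp
    · rw [if_neg hx]
      have h3 := mul_le_mul_of_nonneg_left (hf x a (fun h' => hx h'.symm)) ((hμ a).nonneg x)
      linarith
  have hn0 := mN_nonneg (G := G) hμM
  have hm0 := mN_nonneg (G := G) hμ
  beta_reduce at h
  set P := ∑ a, phi μ c a with hP
  set m := mN G μ
  set m' := mN G (muM μ c)
  have q1 : 2 * P ^ 2 * (3 + P) ≤ 1 / 10 * P := by nlinarith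
  have q2 : (1 - P) ^ 3 * (6 * m') ≤ 6 * m - 119 / 10 * P := by linarith
  have q8 : 1 - 3 * P ≤ (1 - P) ^ 3 := by nlinarith [sq_nonneg P]
  have q9 : (1 - 3 * P) * (6 * m') ≤ 6 * m - 119 / 10 * P := by
    have := mul_le_mul_of_nonneg_right q8 (by linarith : 0 ≤ 6 * m')
    linarith
  have r3 : m' ≤ 1 / 90 := by
    have s1 : (191 / 200 : ℝ) ≤ 1 - 3 * P := by linarith
    have s2 := mul_le_mul_of_nonneg_right s1 (by linarith : 0 ≤ 6 * m')
    linarith
  have r4 : P * m' ≤ P * (1 / 90) := mul_le_mul_of_nonneg_left r3 P0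
  linarith

theorem sum_v_phi_le (hμ : ∀ a, IsW (μ a)) (hv : ∀ a, v a ≤ 173 / 1000) :
    ∑ a, v a * phi μ c a ≤ 173 / 1000 * ∑ a, phi μ c a := by
  rw [mul_sum]
  exact sum_le_sum fun a _ => mul_le_mul_of_nonneg_right (hv a) (phi_nonneg hμ a)

theorem xX_XM_le (hμ : ∀ a, IsW (μ a)) (hv : ∀ a, v a ≤ 173 / 1000) :
    xX (XM μ v X c) ≤ xX X + 173 / 1000 * ∑ a, phi μ c a := by
  rw [xX_XM]
  have := sum_v_phi_le (c := c) hμ hv
  linarith

/-- **The potential does not grow.** -/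
theorem cost_muM (hμ : ∀ a, IsW (μ a)) (hf : ∀ x a, a ≠ c x → 4 ≤ hh G μ x a)
    (hm : mN G μ ≤ 1 / 100) (hv : ∀ a, v a ≤ 173 / 1000) :
    14 * xX (XM μ v X c) + 97 / 20 * mN G (muM μ c) ≤ 14 * xX X + 97 / 20 * mN G μ := by
  have h1 := mN_muM hμ hf hm
  have h2 := xX_XM_le (X := X) (c := c) hμ hv
  have h3 := phi_sum_nonneg (c := c) hμ
  linarith

theorem vM_le (hμ : ∀ a, IsW (μ a)) (hv : ∀ a, 0 < v a) (a : Fin 6) : vM μ v c a ≤ v a := by
  unfold vM
  have h1 := mul_nonneg (hv a).le (phi_nonneg (c := c) hμ a)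
  linarith

theorem vM_ge (hμ : ∀ a, IsW (μ a)) (hv : ∀ a, 0 < v a) (a : Fin 6) :
    v a * (1 - ∑ a, phi μ c a) ≤ vM μ v c a := by
  unfold vM
  have h1 := phi_le_sum (c := c) hμ a
  exact mul_le_mul_of_nonneg_left (by linarith) (hv a).le

/-- sizes of the restricted classes -/
theorem sizes_vM (hμ : ∀ a, IsW (μ a)) (hv0 : ∀ a, 0 < v a) (hv : ∀ a, v a ≤ 173 / 1000) :
    ∑ a, |vM μ v c a - 1 / 6| ≤ ∑ a, |v a - 1 / 6| + 173 / 1000 * ∑ a, phi μ c a := by
  have h1 := sum_v_phi_le (c := c) hμ hv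
  refine le_trans ?_ (add_le_add_right h1 _)
  rw [← sum_add_distrib]
  refine sum_le_sum fun a _ => ?_
  have e : vM μ v c a - 1 / 6 = (v a - 1 / 6) + -(v a * phi μ c a) := by
    unfold vM; ring
  rw [e]
  refine (abs_add_le _ _).trans ?_
  rw [abs_neg, abs_of_nonneg (mul_nonneg (hv0 a).le (phi_nonneg (c := c) hμ a))]

/-- support of the restricted classes -/
theorem muM_supp' {a : Fin 6} {x : V} (h : muM μ c a x ≠ 0) : c x = a := by
  by_contra hx
  apply h
  unfold muM
  rw [if_neg hx, mul_zero, zero_div]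

theorem muM_eq_zero {a : Fin 6} {x : V} (h : c x ≠ a) : muM μ c a x = 0 := by
  unfold muM
  rw [if_neg h, mul_zero, zero_div]

theorem muM_pos_of {a : Fin 6} {x : V} (hμ : ∀ a, IsW (μ a)) (hp : phi μ c a < 1)
    (h : 0 < muM μ c a x) : 0 < μ a x := by
  have h1 := muM_mul hp x
  have h2 := mul_pos (by linarith : 0 < 1 - phi μ c a) h
  rw [h1] at h2
  refine lt_of_le_of_ne ((hμ a).nonneg x) fun h3 => ?_
  rw [← h3, zero_mul] at h2
  exact lt_irrefl _ h2

/-- the restricted classes as indicators -/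
theorem muM_ind {S : Fin 6 → V → Bool} {a : Fin 6} (hp : phi μ c a < 1)
    (hS : ∀ x, v a * μ a x = w x * ind (S a x)) (x : V) :
    vM μ v c a * muM μ c a x = w x * ind (S a x && decide (c x = a)) := by
  have h1 : vM μ v c a * muM μ c a x = v a * μ a x * (if c x = a then 1 else 0) := by
    have := muM_mul hp x
    unfold vM
    calc v a * (1 - phi μ c a) * muM μ c a x = v a * ((1 - phi μ c a) * muM μ c a x) := by ring
      _ = _ := by rw [this]; ring
  rw [h1, hS x]
  unfold ind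
  by_cases h2 : c x = a
  · simp [h2]
  · simp [h2]

theorem muM_mul_le (D : Dec G w μ v X t) {a : Fin 6} (hp : phi μ c a < 1) (x : V) :
    vM μ v c a * muM μ c a x ≤ w x * (if c x = a then 1 else 0) := by
  have h1 : vM μ v c a * muM μ c a x = v a * μ a x * (if c x = a then 1 else 0) := by
    have := muM_mul hp x
    unfold vM
    calc v a * (1 - phi μ c a) * muM μ c a x = v a * ((1 - phi μ c a) * muM μ c a x) := by ring
      _ = _ := by rw [this]; ring
  rw [h1]
  refine mul_le_mul_of_nonneg_right ?_ (by split_ifs <;> norm_num)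
  rw [D.dec x]
  have h2 := single_le_sum (f := fun a => v a * μ a x)
    (fun b _ => mul_nonneg (D.hv b).le ((D.hμ b).nonneg x)) (mem_univ a)
  have h3 := D.hX x
  linarith

end Match

/-! ### total variation -/

section TV

variable {V : Type} [Fintype V]

open Classical in
/-- the expectation is linear in one of the six measures -/
theorem PE_update (μ : Fin 6 → V → ℝ) (h1 : ∀ i, ∑ v, μ i v = 1) (j : Fin 6) (m : V → ℝ)
    (f : (Fin 6 → V) → ℝ) :
    PE (update μ j m) f = ∑ x, m x * PE μ (fun z => f (update z j x)) := by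
  rw [PE_split (update μ j m) j f]
  refine sum_congr rfl fun x _ => ?_
  have e1 : ∀ z : Fin 6 → V, (∏ i ∈ univ.erase j, update μ j m i (z i)) =
      ∏ i ∈ univ.erase j, μ i (z i) := by
    intro z
    refine prod_congr rfl fun i hi => ?_
    rw [update_of_ne (ne_of_mem_erase hi)]
  have e2 : PE μ (fun z => f (update z j x)) = ∑ z : Fin 6 → V,
      if z j = x then (∏ i ∈ univ.erase j, μ i (z i)) * f (update z j x) else 0 := by
    rw [PE_split μ j]
    have e3 : ∀ y : V, ∑ z : Fin 6 → V,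
        (if z j = y then (∏ i ∈ univ.erase j, μ i (z i)) *
          (μ j y * f (update (update z j y) j x)) else 0) =
        μ j y * ∑ z : Fin 6 → V,
        (if z j = x then (∏ i ∈ univ.erase j, μ i (z i)) * f (update z j x) else 0) := by
      intro y
      rw [← sum_shift j y x (fun z => (∏ i ∈ univ.erase j, μ i (z i)) * f (update z j x))
        (fun z u => by
          show (∏ i ∈ univ.erase j, μ i (update z j u i)) * f (update (update z j u) j x) = _
          rw [prod_erase_update, update_idem]), mul_sum]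
      refine sum_congr rfl fun z _ => ?_
      split_ifs
      · rw [update_idem]; ring
      · ring
    rw [sum_congr rfl fun y _ => e3 y, ← sum_mul, h1 j, one_mul]
  rw [e2, mul_sum]
  refine sum_congr rfl fun z _ => ?_
  rw [e1, update_self]
  split_ifs <;> ring

/-- a bounded function against the difference of two probability measures -/
theorem sub_le_tv {m m' : V → ℝ} (hm : ∑ x, m x = 1) (hm' : ∑ x, m' x = 1) {g : V → ℝ}
    (g0 : ∀ x, 0 ≤ g x) (g1 : ∀ x, g x ≤ 1) :
    |∑ x, m' x * g x - ∑ x, m x * g x| ≤ (∑ x, |m' x - m x|) / 2 := by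
  have e : ∑ x, m' x * g x - ∑ x, m x * g x = ∑ x, (m' x - m x) * (g x - 1 / 2) := by
    have e1 : ∑ x, (m' x - m x) * (g x - 1 / 2) = ∑ x, m' x * g x - ∑ x, m x * g x -
        1 / 2 * (∑ x, m' x - ∑ x, m x) := by
      rw [← sum_sub_distrib, ← sum_sub_distrib, mul_sum, ← sum_sub_distrib]
      exact sum_congr rfl fun x _ => by ring
    rw [e1, hm, hm']; ring
  rw [e, sum_div]
  refine (abs_sum_le_sum_abs _ _).trans (sum_le_sum fun x _ => ?_)
  rw [abs_mul]
  have h1 : |g x - 1 / 2| ≤ 1 / 2 := by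
    rw [abs_le]
    constructor
    · have := g0 x; linarith
    · have := g1 x; linarith
  have := mul_le_mul_of_nonneg_left h1 (abs_nonneg (m' x - m x))
  linarith

/-- **Total variation of a product measure.** -/
theorem PE_tv {μ μ' : Fin 6 → V → ℝ} (hμ : ∀ a, IsW (μ a)) (hμ' : ∀ a, IsW (μ' a))
    {f : (Fin 6 → V) → ℝ} (f0 : ∀ z, 0 ≤ f z) (f1 : ∀ z, f z ≤ 1) :
    |PE μ' f - PE μ f| ≤ ∑ a, (∑ x, |μ' a x - μ a x|) / 2 := by
  have key : ∀ s : Finset (Fin 6), |PE (s.piecewise μ' μ) f - PE μ f| ≤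
      ∑ a ∈ s, (∑ x, |μ' a x - μ a x|) / 2 := by
    intro s
    induction s using Finset.induction_on with
    | empty => rw [piecewise_empty, sub_self, abs_zero, sum_empty]
    | insert j s hj ih =>
      have hν : ∀ a, IsW (s.piecewise μ' μ a) := by
        intro a
        by_cases ha : a ∈ s
        · rw [piecewise_eq_of_mem _ _ _ ha]; exact hμ' a
        · rw [piecewise_eq_of_notMem _ _ _ ha]; exact hμ a
      have e1 : PE ((insert j s).piecewise μ' μ) f =
          ∑ x, μ' j x * PE (s.piecewise μ' μ) (fun z => f (update z j x)) := by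
        rw [piecewise_insert, PE_update _ (fun i => (hν i).sum_eq)]
      have e2 : PE (s.piecewise μ' μ) f =
          ∑ x, μ j x * PE (s.piecewise μ' μ) (fun z => f (update z j x)) := by
        have h3 : s.piecewise μ' μ = update (s.piecewise μ' μ) j (μ j) := by
          conv_rhs => rw [← piecewise_eq_of_notMem s μ' μ hj]
          rw [update_eq_self]
        conv_lhs => rw [h3]
        rw [PE_update _ (fun i => (hν i).sum_eq)]
      have h4 := sub_le_tv (hμ j).sum_eq (hμ' j).sum_eq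
        (g := fun x => PE (s.piecewise μ' μ) (fun z => f (update z j x)))
        (fun x => PE_nonneg _ (fun i v => (hν i).nonneg v) fun z => f0 _)
        (fun x => by
          have h5 := PE_mono (s.piecewise μ' μ) (fun i v => (hν i).nonneg v)
            (f := fun z => f (update z j x)) (g := fun _ => 1) (fun z => f1 _)
          rw [PE_const _ (fun i => (hν i).sum_eq)] at h5
          exact h5)
      rw [sum_insert hj]
      rw [← e1, ← e2] at h4
      have h6 : PE ((insert j s).piecewise μ' μ) f - PE μ f =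
          (PE ((insert j s).piecewise μ' μ) f - PE (s.piecewise μ' μ) f) +
            (PE (s.piecewise μ' μ) f - PE μ f) := by ring
      rw [h6]
      exact (abs_add_le _ _).trans (add_le_add h4 ih)
  have h := key univ
  rwa [piecewise_univ] at h

/-- pentagon probabilities under a change of the measures -/
theorem pProb_tv {μ μ' : Fin 6 → V → ℝ} (hμ : ∀ a, IsW (μ a)) (hμ' : ∀ a, IsW (μ' a))
    (L : V → V → Bool) (k : Fin 6) :
    pProb μ L k - ∑ a, (∑ x, |μ' a x - μ a x|) / 2 ≤ pProb μ' L k := by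
  have h := PE_tv hμ hμ' (f := pInd L k) (pInd_nonneg L k) (pInd_le_one L k)
  rw [abs_le] at h
  unfold pProb
  linarith [h.1]

/-- pentagon probabilities under a change of the measures, with bounds for the variations -/
theorem pProb_tv_le {μ μ' : Fin 6 → V → ℝ} (hμ : ∀ a, IsW (μ a)) (hμ' : ∀ a, IsW (μ' a))
    (L : V → V → Bool) (k : Fin 6) {d : Fin 6 → ℝ}
    (hd : ∀ a, (∑ x, |μ' a x - μ a x|) / 2 ≤ d a) :
    pProb μ L k - ∑ a, d a ≤ pProb μ' L k := by
  have h := pProb_tv hμ hμ' L k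
  have h2 : ∑ a, (∑ x, |μ' a x - μ a x|) / 2 ≤ ∑ a, d a := sum_le_sum fun a _ => hd a
  linarith

/-- a probability measure which dominates a multiple of another one -/
theorem tv_le_of_ge {m m' : V → ℝ} (hm : IsW m) (hm' : IsW m') {r : ℝ} (r1 : r ≤ 1)
    (h : ∀ x, r * m x ≤ m' x) : (∑ x, |m' x - m x|) / 2 ≤ 1 - r := by
  have h1 : ∀ x, |m' x - m x| ≤ (m' x - r * m x) + (1 - r) * m x := by
    intro x
    have h2 := h x
    have h3 := mul_nonneg (by linarith : 0 ≤ 1 - r) (hm.nonneg x)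
    rw [abs_le]
    constructor <;> linarith
  have h4 := sum_le_sum (s := univ) fun x _ => h1 x
  rw [sum_add_distrib, sum_sub_distrib, ← mul_sum, ← mul_sum, hm.sum_eq, hm'.sum_eq] at h4
  linarith

variable {G : TG V} {w : V → ℝ} {μ : Fin 6 → V → ℝ} {v : Fin 6 → ℝ}
  {X : V → ℝ} {t : ℝ} {c : V → Fin 6}

/-- variation of the restriction to the near types -/
theorem tv_muM (hμ : ∀ a, IsW (μ a)) {a : Fin 6} (hp : phi μ c a < 1) :
    (∑ x, |muM μ c a x - μ a x|) / 2 ≤ phi μ c a := by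
  have h1 := tv_le_of_ge (m := muM μ c a) (m' := μ a) (isW_muM hμ hp) (hμ a)
    (r := 1 - phi μ c a) (by have := phi_nonneg (c := c) hμ a; linarith) (fun x => by
      rw [muM_mul hp]
      have := (hμ a).nonneg x
      split_ifs <;> linarith)
  have e : ∑ x, |muM μ c a x - μ a x| = ∑ x, |μ a x - muM μ c a x| :=
    sum_congr rfl fun x _ => abs_sub_comm _ _
  rw [e]
  linarith

/-- variation between a total partition and a decomposition inside it -/
theorem tv_muT (hw : ∀ x, 0 ≤ w x) {a : Fin 6} (hc : 0 < cl w c a) (hμ : IsW (μ a))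
    (h : ∀ x, v a * μ a x ≤ w x * (if c x = a then 1 else 0)) :
    (∑ x, |muT w c a x - μ a x|) / 2 ≤ (cl w c a - v a) / cl w c a := by
  have hle : v a ≤ cl w c a := by
    have h1 := sum_le_sum (s := univ) fun x _ => h x
    rw [← mul_sum, hμ.sum_eq, mul_one] at h1
    exact h1
  have h1 := tv_le_of_ge (m := μ a) (m' := muT w c a) hμ (isW_muT hw hc) (r := v a / cl w c a)
    (by rw [div_le_one hc]; exact hle) (fun x => by
      rw [div_mul_eq_mul_div, div_le_iff₀ hc, mul_comm (muT w c a x), cl_mul_muT hc]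
      exact h x)
  have e : (cl w c a - v a) / cl w c a = 1 - v a / cl w c a := by
    rw [sub_div, div_self hc.ne']
  rw [e]; exact h1

/-- pentagon probabilities of the restricted decomposition -/
theorem pProb_muM (hμ : ∀ a, IsW (μ a)) (hp : ∀ a, phi μ c a < 1) (L : V → V → Bool)
    (k : Fin 6) : pProb μ L k - ∑ a, phi μ c a ≤ pProb (muM μ c) L k :=
  pProb_tv_le hμ (fun a => isW_muM hμ (hp a)) L k fun a => tv_muM hμ (hp a)

/-- pentagon probabilities of the total partition -/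
theorem pProb_muT (hw : ∀ x, 0 ≤ w x) (hc : ∀ a, 0 < cl w c a) (hμ : ∀ a, IsW (μ a))
    (h : ∀ a x, v a * μ a x ≤ w x * (if c x = a then 1 else 0)) (L : V → V → Bool)
    (k : Fin 6) :
    pProb μ L k - ∑ a, (cl w c a - v a) / cl w c a ≤ pProb (muT w c) L k :=
  pProb_tv_le hμ (fun a => isW_muT hw (hc a)) L k fun a => tv_muT hw (hc a) (hμ a) (h a)

end TV

/-! ### the pentagon probabilities and the missing degrees -/

section Pent

variable {V : Type} [Fintype V] {G : TG V} {μ : Fin 6 → V → ℝ}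

/-- cyclic order of the pentagon -/
def pcyc : Fin 6 → Fin 5 → Fin 6
  | 0 => ![1, 2, 4, 5, 3]
  | 1 => ![0, 2, 5, 4, 3]
  | 2 => ![0, 1, 5, 3, 4]
  | 3 => ![0, 1, 4, 2, 5]
  | 4 => ![0, 2, 3, 1, 5]
  | 5 => ![0, 3, 2, 1, 4]

theorem pcyc_edge : ∀ (k : Fin 6) (i : Fin 5), D6.E k (pcyc k i) (pcyc k (i + 1)) = true := by
  decide +kernel

theorem pcyc_dis : ∀ (k : Fin 6) (i : Fin 5), pcyc k i ≠ pcyc k (i + 1) ∧
    pcyc k (i + 2) ≠ pcyc k (i + 2 + 1) ∧ pcyc k i ≠ pcyc k (i + 2) ∧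
    pcyc k i ≠ pcyc k (i + 2 + 1) ∧ pcyc k (i + 1) ≠ pcyc k (i + 2) ∧
    pcyc k (i + 1) ≠ pcyc k (i + 2 + 1) := by
  decide +kernel

/-- a symmetric function summed over the pentagon -/
theorem sum_pent (k : Fin 6) (T : Fin 6 → Fin 6 → ℝ) (hT : ∀ a b, T b a = T a b) :
    ∑ a, ∑ b, blk k a b * T a b = 2 * ∑ i, T (pcyc k i) (pcyc k (i + 1)) := by
  have hv : ∀ a b c : Fin 6, blk a b c = if D6.E a b c = true then 1 else 0 := fun a b c => rfl
  fin_cases k
  · have e : ∑ i, T (pcyc 0 i) (pcyc 0 (i + 1)) = T 1 2 + T 2 4 + T 4 5 + T 5 3 + T 3 1 := by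
      rw [Fin.sum_univ_five]; rfl
    show ∑ a, ∑ b, blk 0 a b * T a b = 2 * ∑ i, T (pcyc 0 i) (pcyc 0 (i + 1))
    rw [e]
    simp only [Fin.sum_univ_six, hv]
    simp (decide := true) only [if_true, if_false, zero_mul, one_mul, add_zero, zero_add]
    rw [hT 1 2, hT 2 4, hT 4 5, hT 3 5, hT 1 3]
    ring
  · have e : ∑ i, T (pcyc 1 i) (pcyc 1 (i + 1)) = T 0 2 + T 2 5 + T 5 4 + T 4 3 + T 3 0 := by
      rw [Fin.sum_univ_five]; rfl
    show ∑ a, ∑ b, blk 1 a b * T a b = 2 * ∑ i, T (pcyc 1 i) (pcyc 1 (i + 1))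
    rw [e]
    simp only [Fin.sum_univ_six, hv]
    simp (decide := true) only [if_true, if_false, zero_mul, one_mul, add_zero, zero_add]
    rw [hT 0 2, hT 2 5, hT 4 5, hT 3 4, hT 0 3]
    ring
  · have e : ∑ i, T (pcyc 2 i) (pcyc 2 (i + 1)) = T 0 1 + T 1 5 + T 5 3 + T 3 4 + T 4 0 := by
      rw [Fin.sum_univ_five]; rfl
    show ∑ a, ∑ b, blk 2 a b * T a b = 2 * ∑ i, T (pcyc 2 i) (pcyc 2 (i + 1))
    rw [e]
    simp only [Fin.sum_univ_six, hv]
    simp (decide := true) only [if_true, if_false, zero_mul, one_mul, add_zero, zero_add]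
    rw [hT 0 1, hT 1 5, hT 3 5, hT 3 4, hT 0 4]
    ring
  · have e : ∑ i, T (pcyc 3 i) (pcyc 3 (i + 1)) = T 0 1 + T 1 4 + T 4 2 + T 2 5 + T 5 0 := by
      rw [Fin.sum_univ_five]; rfl
    show ∑ a, ∑ b, blk 3 a b * T a b = 2 * ∑ i, T (pcyc 3 i) (pcyc 3 (i + 1))
    rw [e]
    simp only [Fin.sum_univ_six, hv]
    simp (decide := true) only [if_true, if_false, zero_mul, one_mul, add_zero, zero_add]
    rw [hT 0 1, hT 1 4, hT 2 4, hT 2 5, hT 0 5]
    ring
  · have e : ∑ i, T (pcyc 4 i) (pcyc 4 (i + 1)) = T 0 2 + T 2 3 + T 3 1 + T 1 5 + T 5 0 := by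
      rw [Fin.sum_univ_five]; rfl
    show ∑ a, ∑ b, blk 4 a b * T a b = 2 * ∑ i, T (pcyc 4 i) (pcyc 4 (i + 1))
    rw [e]
    simp only [Fin.sum_univ_six, hv]
    simp (decide := true) only [if_true, if_false, zero_mul, one_mul, add_zero, zero_add]
    rw [hT 0 2, hT 2 3, hT 1 3, hT 1 5, hT 0 5]
    ring
  · have e : ∑ i, T (pcyc 5 i) (pcyc 5 (i + 1)) = T 0 3 + T 3 2 + T 2 1 + T 1 4 + T 4 0 := by
      rw [Fin.sum_univ_five]; rfl
    show ∑ a, ∑ b, blk 5 a b * T a b = 2 * ∑ i, T (pcyc 5 i) (pcyc 5 (i + 1))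
    rw [e]
    simp only [Fin.sum_univ_six, hv]
    simp (decide := true) only [if_true, if_false, zero_mul, one_mul, add_zero, zero_add]
    rw [hT 0 3, hT 2 3, hT 1 2, hT 1 4, hT 0 4]
    ring

theorem hh_eq_pcyc (x : V) (k : Fin 6) : hh G μ x k =
    2 * ∑ i, (1 - kk G x (μ (pcyc k i)) (μ (pcyc k (i + 1)))) := by
  unfold hh
  exact sum_pent k (fun a b => 1 - kk G x (μ a) (μ b)) fun a b => by rw [kk_swap]

/-- two disjoint pairs of the pentagon are independent -/
theorem pProb_le_mul (hμ : ∀ a, IsW (μ a)) (x : V) (k a b d e : Fin 6)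
    (hab : a ≠ b) (hde : d ≠ e) (had : a ≠ d) (hae : a ≠ e) (hbd : b ≠ d) (hbe : b ≠ e)
    (h1 : D6.E k a b = true) (h2 : D6.E k d e = true) :
    pProb μ (G.E x) k ≤ kk G x (μ a) (μ b) * kk G x (μ d) (μ e) := by
  have e1 : ∀ a b : Fin 6, a ≠ b → PE μ (pPair (G.E x) a b true) = kk G x (μ a) (μ b) := by
    intro a b hab
    rw [← E6_ind2 G hμ x a b hab]
    refine E6_congr μ fun z => ?_
    unfold pPair
    cases G.E x (z a) (z b) <;> rfl
  have e2 : PE μ (fun z => pPair (G.E x) a b true z * pPair (G.E x) d e true z) =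
      PE μ (pPair (G.E x) a b true) * PE μ (pPair (G.E x) d e true) :=
    PE_indep (fun i => (hμ i).sum_eq) hde (pPair_update (G.E x) had.symm hbd.symm _)
      (pPair_update (G.E x) hae.symm hbe.symm _) (fun i hc hd => pPair_update (G.E x) hc hd _)
  rw [← e1 a b hab, ← e1 d e hde, ← e2]
  refine PE_mono μ (fun i y => (hμ i).nonneg y) fun z => ?_
  have h := pInd_le_pair (G.E x) k a b d e z
  rw [← pTab_eq, ← pTab_eq, h1, h2] at h
  exact h

/-- **The missing degree of the pentagon `k` from its probability.** -/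
theorem hh_le_sqrt (hμ : ∀ a, IsW (μ a)) (x : V) (k : Fin 6) :
    hh G μ x k ≤ 10 * (1 - Real.sqrt (pProb μ (G.E x) k)) := by
  rw [hh_eq_pcyc]
  set p := pProb μ (G.E x) k with hp
  set T : Fin 5 → ℝ := fun i => 1 - kk G x (μ (pcyc k i)) (μ (pcyc k (i + 1))) with hT
  have h1 : ∀ i, T i + T (i + 2) ≤ 2 * (1 - Real.sqrt p) := by
    intro i
    obtain ⟨d1, d2, d3, d4, d5, d6⟩ := pcyc_dis k i
    have h2 := pProb_le_mul (G := G) hμ x k (pcyc k i) (pcyc k (i + 1)) (pcyc k (i + 2))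
      (pcyc k (i + 2 + 1)) d1 d2 d3 d4 d5 d6 (pcyc_edge k i) (pcyc_edge k (i + 2))
    rw [← hp] at h2
    have k1 := kk_nonneg G x (μ (pcyc k i)) (μ (pcyc k (i + 1))) (hμ _).nonneg (hμ _).nonneg
    have k2 := kk_nonneg G x (μ (pcyc k (i + 2))) (μ (pcyc k (i + 2 + 1))) (hμ _).nonneg
      (hμ _).nonneg
    have e1 : T i = 1 - kk G x (μ (pcyc k i)) (μ (pcyc k (i + 1))) := rfl
    have e2 : T (i + 2) = 1 - kk G x (μ (pcyc k (i + 2))) (μ (pcyc k (i + 2 + 1))) := rfl
    rw [e1, e2]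
    set r := kk G x (μ (pcyc k i)) (μ (pcyc k (i + 1)))
    set r' := kk G x (μ (pcyc k (i + 2))) (μ (pcyc k (i + 2 + 1)))
    have s1 : Real.sqrt p ≤ (r + r') / 2 := by
      refine Real.sqrt_le_iff.2 ⟨by positivity, ?_⟩
      nlinarith [sq_nonneg (r - r')]
    linarith
  have h3 : ∑ i, (T i + T (i + 2)) ≤ ∑ _i : Fin 5, 2 * (1 - Real.sqrt p) :=
    sum_le_sum fun i _ => h1 i
  have h4 : ∑ i, T (i + 2) = ∑ i, T i :=
    Equiv.sum_comp (Equiv.addRight (2 : Fin 5)) T
  rw [sum_add_distrib, h4] at h3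
  simp only [sum_const, card_univ, Fintype.card_fin, nsmul_eq_mul] at h3
  push_cast at h3
  linarith

theorem hh_near_48 (hμ : ∀ a, IsW (μ a)) (x : V) (k : Fin 6)
    (hp : 12 / 25 ≤ pProb μ (G.E x) k) : hh G μ x k ≤ 31 / 10 := by
  have h := hh_le_sqrt (G := G) hμ x k
  have h2 : (69 / 100 : ℝ) ≤ Real.sqrt (pProb μ (G.E x) k) :=
    Real.le_sqrt_of_sq_le (le_trans (by norm_num) hp)
  linarith

theorem hh_near_50 (hμ : ∀ a, IsW (μ a)) (x : V) (k : Fin 6)
    (hp : 1 / 2 ≤ pProb μ (G.E x) k) : hh G μ x k ≤ 3 := by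
  have h := hh_le_sqrt (G := G) hμ x k
  have h2 : (7 / 10 : ℝ) ≤ Real.sqrt (pProb μ (G.E x) k) :=
    Real.le_sqrt_of_sq_le (le_trans (by norm_num) hp)
  linarith

/-- the pairs of the pentagon `k` -/
theorem one_sub_kk_near (hμ : ∀ a, IsW (μ a)) (x : V) (k a b : Fin 6) (h : D6.E k a b = true) :
    1 - kk G x (μ a) (μ b) ≤ 1 - pProb μ (G.E x) k := by
  have hab : a ≠ b := by
    rintro rfl
    rw [D6_irr3] at h
    exact absurd h (by decide)
  have := pProb_le_kk G hμ x k a b hab h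
  linarith

/-- four pairs of another pentagon are missing -/
theorem pcyc_four : ∀ k a : Fin 6, a ≠ k → ∃ j : Fin 5, ∀ i : Fin 5, i ≠ j →
    D6.E k (pcyc a i) (pcyc a (i + 1)) = false := by decide +kernel

theorem pcyc_ne : ∀ (k : Fin 6) (i : Fin 5), pcyc k i ≠ pcyc k (i + 1) := by decide +kernel

/-- **Far types from the pentagon probability.** -/
theorem hh_far (hμ : ∀ a, IsW (μ a)) (x : V) (k a : Fin 6) (hak : a ≠ k) :
    8 * pProb μ (G.E x) k ≤ hh G μ x a := by
  rw [hh_eq_pcyc]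
  obtain ⟨j, hj⟩ := pcyc_four k a hak
  have h1 : ∑ i ∈ univ.erase j, pProb μ (G.E x) k ≤
      ∑ i ∈ univ.erase j, (1 - kk G x (μ (pcyc a i)) (μ (pcyc a (i + 1)))) :=
    sum_le_sum fun i hi => pProb_le_one_sub_kk G hμ x k _ _ (pcyc_ne a i)
      (hj i (ne_of_mem_erase hi))
  have h2 : ∑ i ∈ univ.erase j, (1 - kk G x (μ (pcyc a i)) (μ (pcyc a (i + 1)))) ≤
      ∑ i, (1 - kk G x (μ (pcyc a i)) (μ (pcyc a (i + 1)))) :=
    sum_le_sum_of_subset_of_nonneg (subset_univ _) fun i _ _ => by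
      have := kk_le_one (G := G) hμ x (pcyc a i) (pcyc a (i + 1))
      linarith
  rw [sum_const, card_erase_of_mem (mem_univ j), card_univ, Fintype.card_fin] at h1
  rw [nsmul_eq_mul] at h1
  push_cast at h1
  linarith

/-- **Uniqueness of the near type.** -/
theorem pProb_unique (hμ : ∀ a, IsW (μ a)) (L : V → V → Bool) (k l : Fin 6)
    (hk : 12 / 25 < pProb μ L k) (hl : 12 / 25 < pProb μ L l) : k = l := by
  by_contra hkl
  have h := pProb_sqrt μ L (fun i y => (hμ i).nonneg y) (fun i => (hμ i).sum_eq) hkl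
  have h2 : (69 / 100 : ℝ) ≤ Real.sqrt (pProb μ L k) :=
    Real.le_sqrt_of_sq_le (le_trans (by norm_num) hk.le)
  have h3 : (69 / 100 : ℝ) ≤ Real.sqrt (pProb μ L l) :=
    Real.le_sqrt_of_sq_le (le_trans (by norm_num) hl.le)
  linarith

end Pent

end K4m
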