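import Mathlib
import Pool.Agent.Lib.MP_392c14_co.Acc.Test

/-!
# Lower bound for the uniform degree of a vertex
-/

set_option autoImplicit false

namespace K4m

open Finset

section RLs

variable {V : Type} [Fintype V] (G : TG V) (μ : Fin 6 → V → ℝ)

/-- uniform degree `36 T(p, w*, w*)` -/
noncomputable def RR (p : V → ℝ) : ℝ := ∑ b, Dp G μ p b

/-- coefficients of the test vector -/
noncomputable def mm (p : V → ℝ) (a : Fin 6) : ℝ := 1 / 6 + 7 / 12 * (RR G μ p / 6 - Dp G μ p a)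

/-- test vector -/
noncomputable def FF (p : V → ℝ) (y : V) : ℝ := p y + (-1) * ∑ a, mm G μ p a * μ a y

/-- deviations of the row sums of the densities -/
noncomputable def Rp (a b : Fin 6) : ℝ := ∑ c, tt G μ a b c - 2 + 12 / 7 * (if a = b then 1 else 0)

variable {G μ}

theorem Rp_swap (a b : Fin 6) : Rp G μ b a = Rp G μ a b := by
  unfold Rp
  have h : ∑ c, tt G μ b a c = ∑ c, tt G μ a b c := sum_congr rfl fun c _ => tt_swap12 G μ a b c
  rw [h]
  by_cases h1 : a = b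
  · subst h1; rfl
  · rw [if_neg h1, if_neg (fun h => h1 h.symm)]

theorem sum_ite_six (a : Fin 6) : ∑ b : Fin 6, (if a = b then (1 : ℝ) else 0) = 1 := by
  rw [sum_ite_eq, if_pos (mem_univ _)]

theorem sum_Rp (a : Fin 6) : ∑ b, Rp G μ a b = YN G μ a + rho - 2 / 7 := by
  unfold Rp YN
  rw [sum_add_distrib, sum_sub_distrib, ← mul_sum, sum_ite_six, sum_const, card_univ,
    Fintype.card_fin]
  simp only [nsmul_eq_mul]
  push_cast
  ring

theorem sum_mm (p : V → ℝ) : ∑ a, mm G μ p a = 1 := by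
  unfold mm
  rw [sum_add_distrib, ← mul_sum, sum_sub_distrib, sum_const, sum_const, card_univ,
    Fintype.card_fin]
  have : ∑ a, Dp G μ p a = RR G μ p := rfl
  rw [this]
  simp only [nsmul_eq_mul]
  push_cast
  ring

theorem sum_FF (hμ : ∀ a, IsW (μ a)) (p : V → ℝ) (hp : ∑ x, p x = 1) :
    ∑ y, FF G μ p y = 0 := by
  unfold FF
  rw [sum_add_distrib, ← mul_sum, sum_comm, hp]
  have : ∀ a, ∑ y, mm G μ p a * μ a y = mm G μ p a := by
    intro a; rw [← mul_sum, (hμ a).sum_eq, mul_one]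
  simp only [this]
  rw [sum_mm]; ring

theorem tri_FF (p f g : V → ℝ) : tri G (FF G μ p) f g =
    tri G p f g - ∑ a, mm G μ p a * tri G (μ a) f g := by
  have e : FF G μ p = fun y => p y + (fun y => (-1) * (fun y => ∑ a, mm G μ p a * μ a y) y) y := rfl
  rw [e, tri_pl1, tri_smul1, tri_sum1]
  ring

theorem Dp_mu (a b : Fin 6) : Dp G μ (μ a) b = 2 - 12 / 7 * (if a = b then 1 else 0) + Rp G μ a b := by
  unfold Rp Dp tt; ring

theorem Dp_FF (p : V → ℝ) (b : Fin 6) : Dp G μ (FF G μ p) b = (RR G μ p / 6 - 12 / 7) -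
    ∑ a, mm G μ p a * Rp G μ a b := by
  have h1 : Dp G μ (FF G μ p) b = Dp G μ p b - ∑ a, mm G μ p a * Dp G μ (μ a) b := by
    unfold Dp
    simp only [tri_FF]
    rw [sum_sub_distrib, sum_comm]
    congr 1
    refine sum_congr rfl fun a _ => ?_
    rw [mul_sum]
  rw [h1]
  simp only [Dp_mu]
  have h2 : ∑ a, mm G μ p a * (2 - 12 / 7 * (if a = b then (1 : ℝ) else 0) + Rp G μ a b) =
      2 * ∑ a, mm G μ p a - 12 / 7 * mm G μ p b + ∑ a, mm G μ p a * Rp G μ a b := by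
    have h3 : ∑ a, mm G μ p a * (if a = b then (1 : ℝ) else 0) = mm G μ p b := by
      simp only [mul_ite, mul_one, mul_zero]
      rw [sum_ite_eq', if_pos (mem_univ _)]
    rw [← h3, mul_sum, mul_sum, ← sum_sub_distrib, ← sum_add_distrib]
    exact sum_congr rfl fun a _ => by ring
  rw [h2, sum_mm]
  unfold mm
  ring

theorem sum_Dp_FF (p : V → ℝ) : ∑ b, Dp G μ (FF G μ p) b = RR G μ p - 72 / 7 -
    ∑ a, mm G μ p a * (YN G μ a + rho - 2 / 7) := by
  simp only [Dp_FF]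
  rw [sum_sub_distrib, sum_comm]
  have h : ∀ a, ∑ b, mm G μ p a * Rp G μ a b = mm G μ p a * (YN G μ a + rho - 2 / 7) := by
    intro a; rw [← mul_sum, sum_Rp]
  simp only [h]
  rw [sum_const, card_univ, Fintype.card_fin]
  simp only [nsmul_eq_mul]
  push_cast
  ring

end RLs

section Star

variable {V : Type} [Fintype V] {G : TG V} {w : V → ℝ} {μ : Fin 6 → V → ℝ} {v : Fin 6 → ℝ}
  {X : V → ℝ} {t : ℝ}

theorem Dec.sum_s (D : Dec G w μ v X t) : ∑ b, (v b - 1 / 6) = -xX X := by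
  have h := D.sum_v
  rw [sum_sub_distrib, sum_const, card_univ, Fintype.card_fin]
  simp only [nsmul_eq_mul]
  unfold xX
  push_cast
  linarith

/-- the exact identity -/
theorem Dec.star (D : Dec G w μ v X t) (p : V → ℝ) (hp : ∑ x, p x = 1) :
    (1 - 2 * xX X) * (RR G μ p - 72 / 7) = ∑ a, mm G μ p a * YN G μ a + (rho - 2 / 7) +
      12 * ∑ b, (v b - 1 / 6) * ∑ a, mm G μ p a * Rp G μ a b - 72 * tri G (FF G μ p) X w -
      36 * tri G (FF G μ p) (es μ v) (es μ v) + 36 * tri G (FF G μ p) X X := by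
  have h1 := D.L1 (FF G μ p) (sum_FF D.hμ p hp)
  rw [sum_Dp_FF] at h1
  have h2 : ∑ b, (v b - 1 / 6) * Dp G μ (FF G μ p) b = -xX X * (RR G μ p / 6 - 12 / 7) -
      ∑ b, (v b - 1 / 6) * ∑ a, mm G μ p a * Rp G μ a b := by
    simp only [Dp_FF]
    rw [← D.sum_s, sum_mul, ← sum_sub_distrib]
    exact sum_congr rfl fun b _ => by ring
  rw [h2] at h1
  have h3 : ∑ a, mm G μ p a * (YN G μ a + rho - 2 / 7) =
      ∑ a, mm G μ p a * YN G μ a + (rho - 2 / 7) := by
    have : ∀ a, mm G μ p a * (YN G μ a + rho - 2 / 7) = mm G μ p a * YN G μ a +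
        (rho - 2 / 7) * mm G μ p a := fun a => by ring
    simp only [this]
    rw [sum_add_distrib, ← mul_sum, sum_mm, mul_one]
  rw [h3] at h1
  linarith

/-- quadratic form of the sizes against a probability measure -/
theorem quad_s (s : Fin 6 → ℝ) (K : Fin 6 → Fin 6 → ℝ) (hK0 : ∀ a b, 0 ≤ K a b)
    (hK1 : ∀ a b, K a b ≤ 1) (ξ D1 : ℝ) (hs : ∑ b, s b = -ξ) (hD : ∑ b, |s b| = D1) :
    |∑ b, ∑ c, s b * s c * K b c| ≤ (D1 ^ 2 + ξ ^ 2) / 2 := by
  set P := ∑ b, max (s b) 0 with hP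
  set M := ∑ b, max (-s b) 0 with hM
  have e1 : P - M = -ξ := by
    rw [hP, hM, ← sum_sub_distrib, ← hs]
    refine sum_congr rfl fun b _ => ?_
    rcases le_total (s b) 0 with h | h
    · rw [max_eq_right h, max_eq_left (by linarith)]; ring
    · rw [max_eq_left h, max_eq_right (by linarith)]; ring
  have e2 : P + M = D1 := by
    rw [hP, hM, ← sum_add_distrib, ← hD]
    refine sum_congr rfl fun b _ => ?_
    rcases le_total (s b) 0 with h | h
    · rw [max_eq_right h, max_eq_left (by linarith), abs_of_nonpos h]; ring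
    · rw [max_eq_left h, max_eq_right (by linarith), abs_of_nonneg h]; ring
  have P0 : 0 ≤ P := sum_nonneg fun b _ => le_max_right _ _
  have M0 : 0 ≤ M := sum_nonneg fun b _ => le_max_right _ _
  have hp : ∀ b, s b = max (s b) 0 - max (-s b) 0 := by
    intro b
    rcases le_total (s b) 0 with h | h
    · rw [max_eq_right h, max_eq_left (by linarith)]; ring
    · rw [max_eq_left h, max_eq_right (by linarith)]; ring
  have up : ∑ b, ∑ c, s b * s c * K b c ≤ P ^ 2 + M ^ 2 := by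
    have : P ^ 2 + M ^ 2 = ∑ b, ∑ c, (max (s b) 0 * max (s c) 0 + max (-s b) 0 * max (-s c) 0) := by
      rw [sq, sq, hP, hM, sum_mul_sum, sum_mul_sum, ← sum_add_distrib]
      exact sum_congr rfl fun b _ => by rw [← sum_add_distrib]
    rw [this]
    refine sum_le_sum fun b _ => sum_le_sum fun c _ => ?_
    have a1 : 0 ≤ max (s b) 0 := le_max_right _ _
    have a2 : 0 ≤ max (s c) 0 := le_max_right _ _
    have a3 : 0 ≤ max (-s b) 0 := le_max_right _ _
    have a4 : 0 ≤ max (-s c) 0 := le_max_right _ _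
    have k0 := hK0 b c
    have k1 := hK1 b c
    have b1 : s b * s c ≤ max (s b) 0 * max (s c) 0 + max (-s b) 0 * max (-s c) 0 := by
      have h3 := hp b
      have h4 := hp c
      have := mul_nonneg a1 a4
      have := mul_nonneg a3 a2
      calc s b * s c = (max (s b) 0 - max (-s b) 0) * (max (s c) 0 - max (-s c) 0) := by
            rw [← h3, ← h4]
        _ ≤ _ := by nlinarith
    have b0 : 0 ≤ max (s b) 0 * max (s c) 0 + max (-s b) 0 * max (-s c) 0 :=
      add_nonneg (mul_nonneg a1 a2) (mul_nonneg a3 a4)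
    calc s b * s c * K b c ≤ (max (s b) 0 * max (s c) 0 + max (-s b) 0 * max (-s c) 0) * K b c :=
          mul_le_mul_of_nonneg_right b1 k0
      _ ≤ (max (s b) 0 * max (s c) 0 + max (-s b) 0 * max (-s c) 0) * 1 :=
          mul_le_mul_of_nonneg_left k1 b0
      _ = _ := mul_one _
  have dn : -(2 * P * M) ≤ ∑ b, ∑ c, s b * s c * K b c := by
    have : 2 * P * M = ∑ b, ∑ c, (max (s b) 0 * max (-s c) 0 + max (-s b) 0 * max (s c) 0) := by
      have : 2 * P * M = P * M + M * P := by ring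
      rw [this]
      conv_lhs => rw [hP, hM]
      rw [sum_mul_sum, sum_mul_sum, ← sum_add_distrib]
      exact sum_congr rfl fun b _ => by rw [← sum_add_distrib]
    rw [this, ← sum_neg_distrib]
    refine sum_le_sum fun b _ => ?_
    rw [← sum_neg_distrib]
    refine sum_le_sum fun c _ => ?_
    have a1 : 0 ≤ max (s b) 0 := le_max_right _ _
    have a2 : 0 ≤ max (s c) 0 := le_max_right _ _
    have a3 : 0 ≤ max (-s b) 0 := le_max_right _ _
    have a4 : 0 ≤ max (-s c) 0 := le_max_right _ _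
    have k0 := hK0 b c
    have k1 := hK1 b c
    have b1 : -(max (s b) 0 * max (-s c) 0 + max (-s b) 0 * max (s c) 0) ≤ s b * s c := by
      have h3 := hp b
      have h4 := hp c
      have := mul_nonneg a1 a2
      have := mul_nonneg a3 a4
      calc -(max (s b) 0 * max (-s c) 0 + max (-s b) 0 * max (s c) 0) ≤
          (max (s b) 0 - max (-s b) 0) * (max (s c) 0 - max (-s c) 0) := by nlinarith
        _ = s b * s c := by rw [← h3, ← h4]
    have b0 : 0 ≤ max (s b) 0 * max (-s c) 0 + max (-s b) 0 * max (s c) 0 :=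
      add_nonneg (mul_nonneg a1 a4) (mul_nonneg a3 a2)
    calc -(max (s b) 0 * max (-s c) 0 + max (-s b) 0 * max (s c) 0) =
          -(max (s b) 0 * max (-s c) 0 + max (-s b) 0 * max (s c) 0) * 1 := (mul_one _).symm
      _ ≤ -(max (s b) 0 * max (-s c) 0 + max (-s b) 0 * max (s c) 0) * K b c := by nlinarith
      _ ≤ s b * s c * K b c := mul_le_mul_of_nonneg_right b1 k0
  have hPM : P = (D1 - ξ) / 2 := by linarith
  have hMM : M = (D1 + ξ) / 2 := by linarith
  rw [abs_le]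
  constructor
  · rw [hPM, hMM] at dn
    nlinarith
  · rw [hPM, hMM] at up
    nlinarith

theorem tri_es_es (F : V → ℝ) : tri G F (es μ v) (es μ v) =
    ∑ b, ∑ c, (v b - 1 / 6) * (v c - 1 / 6) * tri G F (μ b) (μ c) := by
  rw [tri_es]
  have : ∀ a, tri G F (es μ v) (μ a) = ∑ b, (v b - 1 / 6) * tri G F (μ b) (μ a) := by
    intro a
    rw [tri_swap23, tri_es]
    exact sum_congr rfl fun b _ => by rw [tri_swap23]
  simp only [this, mul_sum]
  rw [sum_comm]
  refine sum_congr rfl fun b _ => sum_congr rfl fun c _ => ?_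
  ring

theorem tri_W_nonneg (p f g : V → ℝ) (hp : ∀ x, 0 ≤ p x) (hf : ∀ x, 0 ≤ f x) (hg : ∀ x, 0 ≤ g x) :
    0 ≤ tri G p f g := by
  unfold tri
  exact sum_nonneg fun a _ => sum_nonneg fun b _ => sum_nonneg fun c _ =>
    mul_nonneg (mul_nonneg (mul_nonneg (hp a) (hf b)) (hg c)) (ind_nonneg _)

theorem tri_W_le_one (p : V → ℝ) (hμ : ∀ a, IsW (μ a)) (hp : IsW p) (a b : Fin 6) :
    tri G p (μ a) (μ b) ≤ 1 := by
  have h := tri_le_mass G p (μ a) (μ b) hp.nonneg (hμ a).nonneg (hμ b).nonneg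
  rw [hp.sum_eq, (hμ a).sum_eq, (hμ b).sum_eq] at h
  linarith

/-- size part -/
theorem Dec.S2 (D : Dec G w μ v X t) (p : V → ℝ) (hp : IsW p) (D1 mh : ℝ)
    (hD : ∑ b, |v b - 1 / 6| = D1) (hmh : ∑ a, |mm G μ p a| ≤ mh) :
    |tri G (FF G μ p) (es μ v) (es μ v)| ≤ (1 + mh) * ((D1 ^ 2 + xX X ^ 2) / 2) := by
  have h1 : ∀ q : V → ℝ, IsW q → |tri G q (es μ v) (es μ v)| ≤ (D1 ^ 2 + xX X ^ 2) / 2 := by
    intro q hq
    rw [tri_es_es]
    exact quad_s _ (fun b c => tri G q (μ b) (μ c))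
      (fun b c => tri_W_nonneg q _ _ hq.nonneg (D.hμ b).nonneg (D.hμ c).nonneg)
      (fun b c => tri_W_le_one q D.hμ hq b c) (xX X) D1 D.sum_s hD
  rw [tri_FF]
  have hB : 0 ≤ (D1 ^ 2 + xX X ^ 2) / 2 := by positivity
  have h2 : |∑ a, mm G μ p a * tri G (μ a) (es μ v) (es μ v)| ≤
      mh * ((D1 ^ 2 + xX X ^ 2) / 2) := by
    calc |∑ a, mm G μ p a * tri G (μ a) (es μ v) (es μ v)| ≤
        ∑ a, |mm G μ p a * tri G (μ a) (es μ v) (es μ v)| := abs_sum_le_sum_abs _ _
      _ ≤ ∑ a, |mm G μ p a| * ((D1 ^ 2 + xX X ^ 2) / 2) := by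
          refine sum_le_sum fun a _ => ?_
          rw [abs_mul]
          exact mul_le_mul_of_nonneg_left (h1 _ (D.hμ a)) (abs_nonneg _)
      _ = (∑ a, |mm G μ p a|) * ((D1 ^ 2 + xX X ^ 2) / 2) := by rw [sum_mul]
      _ ≤ _ := mul_le_mul_of_nonneg_right hmh hB
  have h3 := h1 p hp
  calc |tri G p (es μ v) (es μ v) - ∑ a, mm G μ p a * tri G (μ a) (es μ v) (es μ v)| ≤
      |tri G p (es μ v) (es μ v)| + |∑ a, mm G μ p a * tri G (μ a) (es μ v) (es μ v)| :=
        abs_sub _ _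
    _ ≤ _ := by linarith

/-- garbage against garbage -/
theorem Dec.S3 (D : Dec G w μ v X t) (p : V → ℝ) (hp : IsW p) (mh : ℝ)
    (hmh : ∑ a, |mm G μ p a| ≤ mh) :
    -((1 + mh) / 2 * xX X ^ 2) ≤ tri G (FF G μ p) X X := by
  rw [tri_FF]
  have h0 : 0 ≤ tri G p X X := tri_W_nonneg p X X hp.nonneg D.hX D.hX
  have h1 : ∀ a, mm G μ p a * tri G (μ a) X X ≤ (mm G μ p a + |mm G μ p a|) / 2 * xX X ^ 2 := by
    intro a
    have k0 : 0 ≤ tri G (μ a) X X := tri_W_nonneg _ X X (D.hμ a).nonneg D.hX D.hX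
    have k1 : tri G (μ a) X X ≤ xX X ^ 2 := by
      have := tri_le_mass G (μ a) X X (D.hμ a).nonneg D.hX D.hX
      rw [(D.hμ a).sum_eq, one_mul] at this
      unfold xX
      rw [sq]; exact this
    rcases le_total 0 (mm G μ p a) with h | h
    · rw [abs_of_nonneg h]
      calc mm G μ p a * tri G (μ a) X X ≤ mm G μ p a * xX X ^ 2 :=
            mul_le_mul_of_nonneg_left k1 h
        _ = _ := by ring
    · rw [abs_of_nonpos h]
      have : mm G μ p a * tri G (μ a) X X ≤ 0 := mul_nonpos_of_nonpos_of_nonneg h k0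
      calc mm G μ p a * tri G (μ a) X X ≤ 0 := this
        _ = _ := by ring
  have h2 := sum_le_sum (s := univ) fun a _ => h1 a
  have h3 : ∑ a, (mm G μ p a + |mm G μ p a|) / 2 * xX X ^ 2 =
      (1 + ∑ a, |mm G μ p a|) / 2 * xX X ^ 2 := by
    rw [← sum_mul, ← sum_div, sum_add_distrib, sum_mm]
  rw [h3] at h2
  have h4 : (1 + ∑ a, |mm G μ p a|) / 2 * xX X ^ 2 ≤ (1 + mh) / 2 * xX X ^ 2 :=
    mul_le_mul_of_nonneg_right (by linarith) (sq_nonneg _)
  linarith

/-- RL: lower bound for the uniform degree of a probability measure `p` -/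
theorem Dec.RL (D : Dec G w μ v X t) (p : V → ℝ) (hp : IsW p) (D1 mh rh κ : ℝ)
    (hD : ∑ b, |v b - 1 / 6| = D1) (hmh : ∑ a, |mm G μ p a| ≤ mh)
    (hrh : ∀ b, |∑ a, mm G μ p a * Rp G μ a b| ≤ rh)
    (hq : -tri G (FF G μ p) (FF G μ p) w ≤ 2 / 7 + (RR G μ p - 72 / 7) / 18 + κ) :
    72 / 7 + ∑ a, mm G μ p a * YN G μ a - 36 * xX X * (t + 2 / 7) -
      (12 * D1 * rh + 18 * (1 + mh) * (D1 ^ 2 + 2 * xX X ^ 2) + 36 * xX X * κ) ≤ RR G μ p := by
  have h1 := D.star p hp.sum_eq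
  have h2 := D.L3 (FF G μ p) (sum_FF D.hμ p hp.sum_eq) _ hq
  have h3 := abs_le.1 (D.S2 p hp D1 mh hD hmh)
  have h4 := D.S3 p hp mh hmh
  have h5 : |∑ b, (v b - 1 / 6) * ∑ a, mm G μ p a * Rp G μ a b| ≤ D1 * rh := by
    calc |∑ b, (v b - 1 / 6) * ∑ a, mm G μ p a * Rp G μ a b| ≤
        ∑ b, |(v b - 1 / 6) * ∑ a, mm G μ p a * Rp G μ a b| := abs_sum_le_sum_abs _ _
      _ ≤ ∑ b, |v b - 1 / 6| * rh := by
          refine sum_le_sum fun b _ => ?_
          rw [abs_mul]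
          exact mul_le_mul_of_nonneg_left (hrh b) (abs_nonneg _)
      _ = D1 * rh := by rw [← sum_mul, hD]
  have h6 := abs_le.1 h5
  have h7 := two_sevenths_le_rho
  have h8 : 0 ≤ xX X := sum_nonneg fun x _ => D.hX x
  nlinarith [h1, h2, h3.1, h3.2, h4, h6.1, h6.2, h7]

end Star

end K4m
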