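import Mathlib
import Pool.Agent.Lib.MP_392c14_co.Acc.Range2
import Pool.Agent.Lib.MP_392c14_co.Acc.RL

/-!
# One vertex against the average vertex of a class
-/

set_option autoImplicit false

namespace K4m

open Finset

section Dl

variable {V : Type} [Fintype V] (G : TG V) (μ : Fin 6 → V → ℝ)

open Classical in
/-- point mass -/
noncomputable def dl (x y : V) : ℝ := if y = x then 1 else 0

theorem sum_dl_mul (x : V) (f : V → ℝ) : ∑ y, dl x y * f y = f x := by
  classical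
  unfold dl
  rw [Finset.sum_eq_single x]
  · rw [if_pos rfl, one_mul]
  · intro y _ hy; rw [if_neg hy, zero_mul]
  · intro h; exact absurd (mem_univ _) h

theorem sum_dl_one (x : V) : ∑ y, dl x y = 1 := by
  have h := sum_dl_mul x (fun _ => (1 : ℝ))
  simpa using h

omit [Fintype V] in
theorem dl_nonneg (x y : V) : 0 ≤ dl x y := by
  classical
  unfold dl; split_ifs <;> norm_num

theorem isW_dl (x : V) : IsW (dl x) := ⟨dl_nonneg x, sum_dl_one x⟩

theorem tri_dl (x : V) (f g : V → ℝ) : tri G (dl x) f g = kk G x f g := by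
  rw [tri_eq_kk]; exact sum_dl_mul x _

/-- the vertex `x` minus the class `k` -/
noncomputable def FK (k : Fin 6) (x y : V) : ℝ := dl x y + (-1) * μ k y

theorem sum_FK (hμ : ∀ a, IsW (μ a)) (k : Fin 6) (x : V) : ∑ y, FK μ k x y = 0 := by
  unfold FK
  rw [sum_add_distrib, ← mul_sum, sum_dl_one, (hμ k).sum_eq]; ring

theorem tri_FK (k : Fin 6) (x : V) (f g : V → ℝ) :
    tri G (FK μ k x) f g = kk G x f g - tri G (μ k) f g := by
  have h := tri_pl1 G (dl x) (fun y => (-1) * μ k y) f g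
  have h2 := tri_smul1 G (μ k) f g (-1)
  have h3 : FK μ k x = fun y => dl x y + (fun y => (-1) * μ k y) y := rfl
  rw [h3, h, h2, tri_dl]; ring

/-- deviation of the row sum -/
noncomputable def Ux (k : Fin 6) (x : V) (b : Fin 6) : ℝ :=
  ∑ c, (kk G x (μ b) (μ c) - tt G μ k b c)

theorem Dp_FK (k : Fin 6) (x : V) (b : Fin 6) : Dp G μ (FK μ k x) b = Ux G μ k x b := by
  unfold Dp Ux
  exact sum_congr rfl fun c _ => tri_FK G μ k x _ _

/-- uniform degree of a vertex -/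
noncomputable def Rx (x : V) : ℝ := ∑ b, ∑ c, kk G x (μ b) (μ c)

theorem sum_Ux (k : Fin 6) (x : V) : ∑ b, Ux G μ k x b = Rx G μ x - (10 + rho + YN G μ k) := by
  unfold Ux Rx YN
  simp only [sum_sub_distrib]
  ring

end Dl

/-- a functional of small range against a vector of total mass zero -/
theorem sig_le (σ U : Fin 6 → ℝ) (KS B : ℝ) (h0 : ∑ a, σ a = 0)
    (hS : ∀ S : Finset (Fin 6), 12 * ∑ a ∈ S, σ a ≤ KS) (hB : ∀ a b, U a - U b ≤ B) :
    12 * ∑ a, σ a * U a ≤ KS * B := by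
  have B0 : 0 ≤ B := by have := hB 0 0; linarith
  obtain ⟨b0, -, hb0⟩ := exists_min_image (univ : Finset (Fin 6)) U ⟨0, mem_univ _⟩
  have e1 : ∑ a, σ a * U a = ∑ a, σ a * (U a - U b0) := by
    simp only [mul_sub, sum_sub_distrib]
    rw [← sum_mul, h0]; ring
  have e2 : ∑ a, σ a * (U a - U b0) ≤ ∑ a ∈ univ.filter (fun a => 0 ≤ σ a), σ a * B := by
    rw [← sum_filter_add_sum_filter_not univ (fun a => 0 ≤ σ a)
      (fun a => σ a * (U a - U b0))]
    have e3 : ∑ a ∈ univ.filter (fun a => 0 ≤ σ a), σ a * (U a - U b0) ≤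
        ∑ a ∈ univ.filter (fun a => 0 ≤ σ a), σ a * B :=
      sum_le_sum fun a ha => mul_le_mul_of_nonneg_left (hB a b0) (mem_filter.1 ha).2
    have e4 : ∑ a ∈ univ.filter (fun a => ¬ 0 ≤ σ a), σ a * (U a - U b0) ≤ 0 := by
      refine sum_nonpos fun a ha => ?_
      have h1 := (mem_filter.1 ha).2
      have h2 := hb0 a (mem_univ a)
      push Not at h1
      exact mul_nonpos_of_nonpos_of_nonneg h1.le (by linarith)
    linarith
  rw [← sum_mul] at e2
  have h3 := hS (univ.filter (fun a => 0 ≤ σ a))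
  have h4 := mul_le_mul_of_nonneg_right h3 B0
  rw [e1]
  linarith

section Main

variable {V : Type} [Fintype V] {G : TG V} {w : V → ℝ} {μ : Fin 6 → V → ℝ} {v : Fin 6 → ℝ}
  {X : V → ℝ} {t : ℝ}

/-- the exact identity of a vertex against a class -/
theorem Dec.ident (D : Dec G w μ v X t) (k : Fin 6) (x : V) :
    (1 - 2 * xX X) * ∑ b, Ux G μ k x b =
      -(12 * ∑ b, (v b - 1 / 6 + xX X / 6) * Ux G μ k x b) - 72 * tri G (FK μ k x) X w -
      36 * tri G (FK μ k x) (es μ v) (es μ v) + 36 * tri G (FK μ k x) X X := by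
  have h1 := D.L1 (FK μ k x) (sum_FK μ D.hμ k x)
  simp only [Dp_FK] at h1
  have h2 : ∑ b, (v b - 1 / 6 + xX X / 6) * Ux G μ k x b =
      ∑ b, (v b - 1 / 6) * Ux G μ k x b + xX X / 6 * ∑ b, Ux G μ k x b := by
    rw [mul_sum, ← sum_add_distrib]
    exact sum_congr rfl fun b _ => by ring
  rw [h2]
  linarith

theorem Dec.xX_nonneg (D : Dec G w μ v X t) : 0 ≤ xX X := sum_nonneg fun x _ => D.hX x

/-- quadratic form of the sizes -/
theorem Dec.es_le (D : Dec G w μ v X t) (k : Fin 6) (x : V) (D1 : ℝ)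
    (hD : ∑ b, |v b - 1 / 6| ≤ D1) :
    |tri G (FK μ k x) (es μ v) (es μ v)| ≤ D1 ^ 2 := by
  rw [tri_es_es]
  have h1 : |∑ b, ∑ c, (v b - 1 / 6) * (v c - 1 / 6) * tri G (FK μ k x) (μ b) (μ c)| ≤
      ∑ b, ∑ c, |v b - 1 / 6| * |v c - 1 / 6| := by
    refine (abs_sum_le_sum_abs _ _).trans (sum_le_sum fun b _ => ?_)
    refine (abs_sum_le_sum_abs _ _).trans (sum_le_sum fun c _ => ?_)
    rw [abs_mul, abs_mul]
    have h2 : |tri G (FK μ k x) (μ b) (μ c)| ≤ 1 := by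
      rw [tri_FK]
      have a1 := kk_nonneg G x _ _ (D.hμ b).nonneg (D.hμ c).nonneg
      have a2 := kk_le_one (G := G) D.hμ x b c
      have a3 := tt_nonneg (G := G) D.hμ k b c
      have a4 := tt_le_one (G := G) D.hμ k b c
      unfold tt at a3 a4
      rw [abs_le]; constructor <;> linarith
    calc |v b - 1 / 6| * |v c - 1 / 6| * |tri G (FK μ k x) (μ b) (μ c)| ≤
        |v b - 1 / 6| * |v c - 1 / 6| * 1 := mul_le_mul_of_nonneg_left h2 (by positivity)
      _ = _ := mul_one _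
  refine h1.trans ?_
  have h3 : ∑ b, ∑ c, |v b - 1 / 6| * |v c - 1 / 6| = (∑ b, |v b - 1 / 6|) ^ 2 := by
    rw [sq, sum_mul_sum]
  rw [h3]
  exact pow_le_pow_left₀ (sum_nonneg fun b _ => abs_nonneg _) hD 2

/-- the negative of the total deviation -/
theorem Dec.dev_le (D : Dec G w μ v X t) (k : Fin 6) (x : V) {KS B q e2 : ℝ}
    (hS : ∀ S : Finset (Fin 6), 12 * ∑ a ∈ S, (v a - 1 / 6 + xX X / 6) ≤ KS)
    (hB : ∀ a b, Ux G μ k x a - Ux G μ k x b ≤ B)
    (hq : -tri G (FK μ k x) (FK μ k x) w ≤ q)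
    (he : |tri G (FK μ k x) (es μ v) (es μ v)| ≤ e2) :
    (1 - 2 * xX X) * (-∑ b, Ux G μ k x b) ≤
      KS * B + 36 * xX X * (q + t) + 36 * e2 + 36 * xX X ^ 2 := by
  have h1 := D.ident k x
  have h2 := D.L3 (FK μ k x) (sum_FK μ D.hμ k x) q hq
  have h3 : ∑ b, (v b - 1 / 6 + xX X / 6) = 0 := by
    rw [sum_add_distrib, D.sum_s, sum_const, card_univ, Fintype.card_fin]
    simp only [nsmul_eq_mul]; push_cast; ring
  have h4 := sig_le (fun b => v b - 1 / 6 + xX X / 6) (Ux G μ k x) KS B h3 hS hB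
  have h5 := abs_le.1 he
  have h6 : -(xX X ^ 2) ≤ tri G (FK μ k x) X X := by
    rw [tri_FK]
    have a1 := kk_nonneg G x _ _ D.hX D.hX
    have a2 := tri_le_mass G (μ k) X X (D.hμ k).nonneg D.hX D.hX
    rw [(D.hμ k).sum_eq, one_mul] at a2
    have a3 : (∑ x, X x) * ∑ x, X x = xX X ^ 2 := by unfold xX; ring
    rw [a3] at a2
    linarith
  linarith [h5.1, h5.2]

/-- **Stage 2 at a vertex.** -/
theorem Dec.stage (D : Dec G w μ v X t) (k : Fin 6) (x : V) {K c KS B E0 q e2 : ℝ}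
    (hS2 : c * hh G μ x k + (Rx G μ x - kk G x (μ k) (μ k)) ≤ 10 + K * mN G μ)
    (hE0 : kk G x (μ k) (μ k) - rho - YN G μ k ≤ E0)
    (hS : ∀ S : Finset (Fin 6), 12 * ∑ a ∈ S, (v a - 1 / 6 + xX X / 6) ≤ KS)
    (hB : ∀ a b, Ux G μ k x a - Ux G μ k x b ≤ B)
    (hq : -tri G (FK μ k x) (FK μ k x) w ≤ q)
    (he : |tri G (FK μ k x) (es μ v) (es μ v)| ≤ e2) (hX : 2 * xX X ≤ 1) :
    (1 - 2 * xX X) * (c * hh G μ x k - K * mN G μ - E0) ≤
      KS * B + 36 * xX X * (q + t) + 36 * e2 + 36 * xX X ^ 2 := by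
  have h1 := D.dev_le k x hS hB hq he
  have h2 := sum_Ux G μ k x
  have h3 : c * hh G μ x k - K * mN G μ - E0 ≤ -∑ b, Ux G μ k x b := by
    rw [h2]; linarith
  have h4 := mul_le_mul_of_nonneg_left h3 (by linarith : 0 ≤ 1 - 2 * xX X)
  linarith

/-- the quadratic form of the test vector -/
theorem Dec.form_FK (_D : Dec G w μ v X t) (k : Fin 6) (x : V) :
    -tri G (FK μ k x) (FK μ k x) w = 2 * kk G x (μ k) w - tri G (μ k) (μ k) w := by
  rw [tri_FK]
  have h1 : ∀ f, tri G f (FK μ k x) w = kk G x f w - tri G (μ k) f w := by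
    intro f
    rw [tri_swap12, tri_FK]
  have h2 : kk G x (FK μ k x) w = kk G x (dl x) w - kk G x (μ k) w := by
    have h3 := kk_add G x (dl x) (μ k) w (-1)
    have h4 : FK μ k x = fun y => dl x y + (-1) * μ k y := rfl
    rw [h4, h3]; ring
  have h5 : kk G x (dl x) w = 0 := by
    unfold kk
    have : ∀ y, ∑ z, dl x y * w z * ind (G.E x y z) = dl x y * ∑ z, w z * ind (G.E x y z) := by
      intro y; rw [mul_sum]; exact sum_congr rfl fun z _ => by ring
    simp only [this]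
    rw [sum_dl_mul]
    refine sum_eq_zero fun z _ => ?_
    rw [G.irr]; simp [ind]
  rw [h1, h2, h5, ← tri_dl G x (μ k) w, tri_swap12 G (dl x) (μ k) w]
  ring

/-- sum of the densities between the class `k` and the other classes -/
noncomputable def kap (G : TG V) (μ : Fin 6 → V → ℝ) (k : Fin 6) (x : V) : ℝ :=
  ∑ i, kk G x (μ k) (μ (lab k i))

theorem kap_le (hμ : ∀ a, IsW (μ a)) (k : Fin 6) (x : V) :
    2 * kap G μ k x ≤ 1 / 2 * hh G μ x k + mN G μ := by
  have P := pq_of (G := G) hμ x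
  have hm := mb_tt (G := G) hμ x k
  have hh' := hh_eq (G := G) (μ := μ) x k
  have C := loc_lab P k 0
  obtain ⟨b0, b1, b2, b3, b4, g0, g1, g2, g3, g4⟩ := C.bt
  have r0 := C.pr.1
  have r1 := C.rot.pr.1
  have r2 := C.rot.rot.pr.1
  have r3 := C.rot.rot.rot.pr.1
  have r4 := C.rot.rot.rot.rot.pr.1
  have c1 := C.mm
  have c2 := C.hh
  have e : kap G μ k x = kk G x (μ k) (μ (lab k 0)) + kk G x (μ k) (μ (lab k (0 + 1))) +
      kk G x (μ k) (μ (lab k (0 + 2))) + kk G x (μ k) (μ (lab k (0 + 3))) +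
      kk G x (μ k) (μ (lab k (0 + 4))) := by
    unfold kap
    exact sum_rot _ 0
  rw [← hm, hh', e]
  beta_reduce at r0 r1 r2 r3 r4 c1 c2
  linarith

/-- bound of the quadratic form -/
theorem Dec.q_le (D : Dec G w μ v X t) (k : Fin 6) (x : V) {vM : ℝ} (hM : ∀ a, v a ≤ vM) :
    -tri G (FK μ k x) (FK μ k x) w ≤ 2 * v k * kk G x (μ k) (μ k) +
      vM * (1 / 2 * hh G μ x k + mN G μ) + 2 * xX X - v k * tt G μ k k k := by
  rw [D.form_FK]
  have h1 := D.kk_w x (μ k)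
  have h2 := D.tri_w (μ k) (μ k)
  have h3 : kk G x (μ k) X ≤ xX X := by
    have := kk_le_mass G x (μ k) X (D.hμ k).nonneg D.hX
    rw [(D.hμ k).sum_eq, one_mul] at this
    exact this
  have h4 : ∑ a, v a * kk G x (μ k) (μ a) ≤ v k * kk G x (μ k) (μ k) + vM * kap G μ k x := by
    rw [sum_lab _ k]
    unfold kap
    rw [mul_sum]
    have : ∑ i, v (lab k i) * kk G x (μ k) (μ (lab k i)) ≤
        ∑ i, vM * kk G x (μ k) (μ (lab k i)) := sum_le_sum fun i _ =>
      mul_le_mul_of_nonneg_right (hM _) (kk_nonneg G x _ _ (D.hμ _).nonneg (D.hμ _).nonneg)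
    linarith
  have h5 : v k * tt G μ k k k ≤ ∑ a, v a * tri G (μ k) (μ k) (μ a) :=
    single_le_sum (f := fun a => v a * tri G (μ k) (μ k) (μ a))
      (fun a _ => mul_nonneg (D.hv a).le (tt_nonneg (G := G) D.hμ k k a)) (mem_univ k)
  have h6 : 0 ≤ tri G (μ k) (μ k) X := tri_W_nonneg _ _ _ (D.hμ k).nonneg (D.hμ k).nonneg D.hX
  have h7 := kap_le (G := G) D.hμ k x
  have h8 : 0 ≤ vM := (D.hv k).le.trans (hM k)
  have h9 := mul_le_mul_of_nonneg_left h7 h8
  linarith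

end Main

end K4m
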