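import Mathlib
import Pool.Agent.Lib.MP_392c14_co.Acc.Pass

/-!
# Stage 2 at a vertex: the exchange bound and the range bound put together
-/

set_option autoImplicit false

namespace K4m

open Finset

section P2

variable {V : Type} [Fintype V] {G : TG V} {w : V → ℝ} {μ : Fin 6 → V → ℝ} {v : Fin 6 → ℝ}
  {X : V → ℝ} {t : ℝ}

/-- own density of the class `k` at an arbitrary vertex -/
theorem Dec.nu_num [Nonempty V] (D : Dec G w μ v X t) (k : Fin 6) (S : V → Bool)
    (hS : ∀ x, v k * μ k x = w x * ind (S x)) (d : ℝ) (h0 : 0 < d) (h1 : d ≤ 1)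
    (hval : rho - d ^ 2 ≤ val G w) (hvt : val G w = t) {κ vm N : ℝ}
    (hκ : ∀ j, v j ≤ (1 + κ) * v k) (hvm : 0 < vm) (hv : vm ≤ v k)
    (hN : tt G μ k k k + 2 * (1 + κ) * BN G μ k + (d + d ^ 2) / vm ^ 2 ≤
      N * (1 - 2 * xX X / vm)) (hx : 0 < 1 - 2 * xX X / vm) (x : V) :
    kk G x (μ k) (μ k) ≤ tt G μ k k k + 2 * (1 + κ) * BN G μ k +
      (2 * xX X * N / vm + (d + d ^ 2) / vm ^ 2) := by
  have vk := D.hv k
  have X0 := D.xX_nonneg
  have s0 : 0 ≤ d + d ^ 2 := by positivity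
  -- the sum over the other classes
  have e1 : ∑ j, nee k j * (v j * tt G μ k k j) ≤ (1 + κ) * v k * BN G μ k := by
    unfold BN
    rw [mul_sum]
    refine sum_le_sum fun j _ => ?_
    have t0 := tt_nonneg (G := G) D.hμ k k j
    calc nee k j * (v j * tt G μ k k j) ≤ nee k j * ((1 + κ) * v k * tt G μ k k j) :=
          mul_le_mul_of_nonneg_left (mul_le_mul_of_nonneg_right (hκ j) t0) (nee_nonneg _ _)
      _ = _ := by ring
  -- a vertex with the largest own density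
  obtain ⟨z0, -, hz0⟩ := exists_max_image (univ : Finset V) (fun z => kk G z (μ k) (μ k))
    univ_nonempty
  have e2 : tri G (μ k) (μ k) X ≤ xX X * kk G z0 (μ k) (μ k) := by
    have a1 : tri G (μ k) (μ k) X = ∑ z, X z * kk G z (μ k) (μ k) := by
      rw [← tri_eq_kk, tri_swap12 G X (μ k) (μ k), tri_swap23 G (μ k) X (μ k)]
    rw [a1]
    unfold xX
    rw [sum_mul]
    exact sum_le_sum fun z _ => mul_le_mul_of_nonneg_left (hz0 z (mem_univ z)) (D.hX z)
  have key : ∀ y, kk G y (μ k) (μ k) ≤ tt G μ k k k + 2 * (1 + κ) * BN G μ k +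
      (2 * xX X / vm * kk G z0 (μ k) (μ k) + (d + d ^ 2) / vm ^ 2) := by
    intro y
    have h := D.nu_le k S hS d h0 h1 hval hvt y
    have n0 := kk_nonneg G z0 _ _ (D.hμ k).nonneg (D.hμ k).nonneg
    have h2 : v k ^ 2 * kk G y (μ k) (μ k) ≤ v k ^ 2 * tt G μ k k k +
        2 * v k * ((1 + κ) * v k * BN G μ k + xX X * kk G z0 (μ k) (μ k)) + (d + d ^ 2) := by
      have := mul_le_mul_of_nonneg_left (add_le_add e1 e2) (by linarith : 0 ≤ 2 * v k)
      linarith
    have h3 : kk G y (μ k) (μ k) ≤ tt G μ k k k + 2 * (1 + κ) * BN G μ k +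
        (2 * xX X / v k * kk G z0 (μ k) (μ k) + (d + d ^ 2) / v k ^ 2) := by
      have e4 : tt G μ k k k + 2 * (1 + κ) * BN G μ k +
        (2 * xX X / v k * kk G z0 (μ k) (μ k) + (d + d ^ 2) / v k ^ 2) =
        (v k ^ 2 * tt G μ k k k +
        2 * v k * ((1 + κ) * v k * BN G μ k + xX X * kk G z0 (μ k) (μ k)) + (d + d ^ 2)) /
          v k ^ 2 := by
        field_simp
        ring
      rw [e4, le_div_iff₀ (by positivity)]
      linarith
    have h4 : 2 * xX X / v k ≤ 2 * xX X / vm := div_le_div_of_nonneg_left (by linarith) hvm hv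
    have h5 : (d + d ^ 2) / v k ^ 2 ≤ (d + d ^ 2) / vm ^ 2 :=
      div_le_div_of_nonneg_left s0 (by positivity) (pow_le_pow_left₀ hvm.le hv 2)
    have h6 := mul_le_mul_of_nonneg_right h4 n0
    linarith
  have hz : kk G z0 (μ k) (μ k) ≤ N := by
    have h := key z0
    have h2 : (1 - 2 * xX X / vm) * kk G z0 (μ k) (μ k) ≤ (1 - 2 * xX X / vm) * N := by linarith
    exact le_of_mul_le_mul_left h2 hx
  refine (key x).trans ?_
  have h7 : 0 ≤ 2 * xX X / vm := by positivity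
  have h8 := mul_le_mul_of_nonneg_left hz h7
  have h9 : 2 * xX X / vm * N = 2 * xX X * N / vm := by ring
  linarith

/-- **Stage 2 at a vertex, all pieces.** -/
theorem Dec.pass (D : Dec G w μ v X t) (k : Fin 6) (x : V) {K c KS κ ε q e2 B1 : ℝ}
    (hS2 : c * hh G μ x k + (Rx G μ x - kk G x (μ k) (μ k)) ≤ 10 + K * mN G μ)
    (hν : kk G x (μ k) (μ k) ≤ tt G μ k k k + 2 * (1 + κ) * BN G μ k + ε)
    (κ0 : 0 ≤ κ) (ε0 : 0 ≤ ε)
    (hS : ∀ S : Finset (Fin 6), 12 * ∑ a ∈ S, (v a - 1 / 6 + xX X / 6) ≤ KS)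
    (hKS : KS < 1 - 2 * xX X)
    (hq : -tri G (FK μ k x) (FK μ k x) w ≤ q)
    (he : |tri G (FK μ k x) (es μ v) (es μ v)| ≤ e2) (hX : 2 * xX X ≤ 1)
    (hB1 : 1 / 2 * hh G μ x k + (11 / 3 + 4 * κ) * mN G μ + ε ≤ B1)
    (hB3 : (1 - 2 * xX X) * (1 / 4 * hh G μ x k + (K + 3) * mN G μ - c * hh G μ x k) +
      (36 * xX X * (q + t) + 36 * e2 + 36 * xX X ^ 2) ≤ (1 - 2 * xX X - KS) * B1) :
    (1 - 2 * xX X) * (c * hh G μ x k - K * mN G μ - ((2 + 4 * κ) * mN G μ + ε)) ≤
      KS * B1 + 36 * xX X * (q + t) + 36 * e2 + 36 * xX X ^ 2 := by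
  have hμ := D.hμ
  have m0 := mN_nonneg (G := G) hμ
  have hM := MN_le (G := G) hμ k
  have hM0 := MN_nonneg (G := G) hμ k
  have hBN := BN_le (G := G) hμ k
  have hBN0 := BN_nonneg (G := G) hμ k
  have hBO0 := BO_nonneg (G := G) hμ k
  have hGN0 := GN_nonneg (G := G) hμ k
  have hY := YN_eq (G := G) (μ := μ) k
  have he : |tri G (FK μ k x) (es μ v) (es μ v)| ≤ e2 := he
  have heN : eN G μ k = rho - tt G μ k k k := rfl
  have kB : κ * BN G μ k ≤ κ * (2 * mN G μ) :=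
    mul_le_mul_of_nonneg_left (by linarith) κ0
  -- E0
  have hE0 : kk G x (μ k) (μ k) - rho - YN G μ k ≤ (2 + 4 * κ) * mN G μ + ε := by
    rw [hY, heN]; linarith
  have hE1 : kk G x (μ k) (μ k) - tt G μ k k k - BN G μ k ≤ (2 + 4 * κ) * mN G μ + ε := by
    linarith
  -- the largest range
  obtain ⟨p, -, hp⟩ := exists_max_image (univ : Finset (Fin 6 × Fin 6))
    (fun p => Ux G μ k x p.1 - Ux G μ k x p.2) univ_nonempty
  set Bs := Ux G μ k x p.1 - Ux G μ k x p.2 with hBs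
  have hall : ∀ a b, Ux G μ k x a - Ux G μ k x b ≤ Bs := fun a b => hp (a, b) (mem_univ _)
  have hdev := D.dev_le k x hS hall hq he
  have hKS0 : 0 ≤ KS := by
    have := hS ∅
    simpa using this
  have hBs1 : Bs ≤ B1 := by
    by_contra hcon
    push Not at hcon
    -- bound E2
    have hsum := sum_Ux G μ k x
    set Z := (KS * Bs + 36 * xX X * (q + t) + 36 * e2 + 36 * xX X ^ 2) / (1 - 2 * xX X) with hZ
    have hpos : 0 < 1 - 2 * xX X := by linarith
    have hZ1 : -∑ b, Ux G μ k x b ≤ Z := by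
      rw [hZ, le_div_iff₀ hpos]; linarith
    have hE2 : -(kk G x (μ k) (μ k) - tt G μ k k k - BN G μ k) ≤
        (K + 2) * mN G μ + Z - c * hh G μ x k := by
      rw [hY, heN] at hsum
      linarith
    have hr := range_x (G := G) hμ x k ((2 + 4 * κ) * mN G μ + ε)
      ((K + 2) * mN G μ + Z - c * hh G μ x k)
      (max B1 (1 / 4 * hh G μ x k + mN G μ + ((K + 2) * mN G μ + Z - c * hh G μ x k)))
      hE1 hE2 ((by linarith : _ ≤ B1).trans (le_max_left _ _))
      ((by nlinarith [mul_nonneg κ0 m0] : _ ≤ B1).trans (le_max_left _ _)) (le_max_right _ _)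
      p.1 p.2
    have hr2 : Bs ≤ max B1 (1 / 4 * hh G μ x k + mN G μ +
        ((K + 2) * mN G μ + Z - c * hh G μ x k)) := hr
    rcases le_max_iff.1 hr2 with h | h
    · linarith
    · have h2 : (1 - 2 * xX X) * Bs ≤ (1 - 2 * xX X) * (1 / 4 * hh G μ x k + mN G μ +
        ((K + 2) * mN G μ - c * hh G μ x k)) + (KS * Bs + 36 * xX X * (q + t) + 36 * e2 +
          36 * xX X ^ 2) := by
        have h3 := mul_le_mul_of_nonneg_left h hpos.le
        have h4 : (1 - 2 * xX X) * Z = KS * Bs + 36 * xX X * (q + t) + 36 * e2 +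
          36 * xX X ^ 2 := by rw [hZ]; field_simp
        linarith
      have h5 : (1 - 2 * xX X - KS) * Bs ≤ (1 - 2 * xX X - KS) * B1 := by linarith
      have h6 : 0 < 1 - 2 * xX X - KS := by linarith
      have h7 := le_of_mul_le_mul_left h5 h6
      linarith
  have hfin := D.stage k x hS2 hE0 hS hall hq he hX
  have h8 := mul_le_mul_of_nonneg_left hBs1 hKS0
  linarith

end P2

end K4m
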