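import Mathlib
import Pool.Agent.Lib.MP_392c14_co.Acc.Pass2

/-!
# Stage 2 at a vertex with separate block multipliers, and the pass for a total partition
-/

set_option autoImplicit false

namespace K4m

open Finset

section P3

variable {V : Type} [Fintype V] {G : TG V} {w : V → ℝ} {μ : Fin 6 → V → ℝ} {v : Fin 6 → ℝ}
  {X : V → ℝ} {t : ℝ}

/-- the missing degree of a vertex against the loss of its degree -/
theorem point_le (hμ : ∀ a, IsW (μ a)) (k : Fin 6) (x : V) {Kin Kout c0 κ ε : ℝ}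
    (hS2 : c0 * hh G μ x k + (Rx G μ x - kk G x (μ k) (μ k)) ≤
      10 + Kin * MN G μ k + Kout * (mN G μ - MN G μ k))
    (hν : kk G x (μ k) (μ k) ≤ tt G μ k k k + 2 * (1 + κ) * BN G μ k + ε)
    (κ0 : 0 ≤ κ) (hK : Kout ≤ Kin + 2) :
    c0 * hh G μ x k ≤ -∑ b, Ux G μ k x b + (Kin + 2 + 4 * κ) * mN G μ + ε := by
  have s3 := sum_Ux G μ k x
  have s4 := YN_eq (G := G) (μ := μ) k
  have hM := MN_le (G := G) hμ k
  have hM0 := MN_nonneg (G := G) hμ k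
  have hBN := BN_le (G := G) hμ k
  have hBO0 := BO_nonneg (G := G) hμ k
  have hGN0 := GN_nonneg (G := G) hμ k
  have heN : eN G μ k = rho - tt G μ k k k := rfl
  have kB : κ * BN G μ k ≤ κ * (2 * mN G μ) := mul_le_mul_of_nonneg_left (by linarith) κ0
  have kM : Kout * (mN G μ - MN G μ k) ≤ (Kin + 2) * (mN G μ - MN G μ k) :=
    mul_le_mul_of_nonneg_right hK (by linarith)
  linarith

/-- the range of the row deviations of a vertex -/
theorem range_nu (hμ : ∀ a, IsW (μ a)) (k : Fin 6) (x : V) {κ ε ν0 B1 : ℝ}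
    (hν : kk G x (μ k) (μ k) ≤ tt G μ k k k + 2 * (1 + κ) * BN G μ k + ε)
    (hν0 : ν0 ≤ kk G x (μ k) (μ k)) (κ0 : 0 ≤ κ) (ε0 : 0 ≤ ε)
    (hB1 : 1 / 2 * hh G μ x k + (11 / 3 + 4 * κ) * mN G μ + ε ≤ B1)
    (hB2 : 1 / 4 * hh G μ x k + 3 * mN G μ + (rho - ν0) ≤ B1) (a b : Fin 6) :
    Ux G μ k x a - Ux G μ k x b ≤ B1 := by
  have m0 := mN_nonneg (G := G) hμ
  have hM := MN_le (G := G) hμ k
  have hBN := BN_le (G := G) hμ k
  have hT := tt_own_le (G := G) hμ k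
  have kB : κ * BN G μ k ≤ κ * (2 * mN G μ) := mul_le_mul_of_nonneg_left (by linarith) κ0
  have hE1 : kk G x (μ k) (μ k) - tt G μ k k k - BN G μ k ≤ (2 + 4 * κ) * mN G μ + ε := by
    linarith
  have hE2 : -(kk G x (μ k) (μ k) - tt G μ k k k - BN G μ k) ≤
      2 * mN G μ + (rho - ν0) := by linarith
  exact range_x (G := G) hμ x k ((2 + 4 * κ) * mN G μ + ε) (2 * mN G μ + (rho - ν0)) B1 hE1 hE2
    (by linarith) (by nlinarith [mul_nonneg κ0 m0]) (by linarith) a b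

/-- **The pass for a decomposition without garbage.** -/
theorem Dec.passT (D : Dec G w μ v (fun _ => 0) t) (k : Fin 6) (x : V)
    {Kin Kout c0 KS κ ε ν0 B1 D1 : ℝ}
    (hS2 : c0 * hh G μ x k + (Rx G μ x - kk G x (μ k) (μ k)) ≤
      10 + Kin * MN G μ k + Kout * (mN G μ - MN G μ k))
    (hν : kk G x (μ k) (μ k) ≤ tt G μ k k k + 2 * (1 + κ) * BN G μ k + ε)
    (hν0 : ν0 ≤ kk G x (μ k) (μ k)) (κ0 : 0 ≤ κ) (ε0 : 0 ≤ ε) (hK : Kout ≤ Kin + 2)
    (hS : ∀ S : Finset (Fin 6), 12 * ∑ a ∈ S, (v a - 1 / 6) ≤ KS)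
    (hD : ∑ b, |v b - 1 / 6| ≤ D1)
    (hB1 : 1 / 2 * hh G μ x k + (11 / 3 + 4 * κ) * mN G μ + ε ≤ B1)
    (hB2 : 1 / 4 * hh G μ x k + 3 * mN G μ + (rho - ν0) ≤ B1) :
    c0 * hh G μ x k ≤ (Kin + 2 + 4 * κ) * mN G μ + ε + KS * B1 + 36 * D1 ^ 2 := by
  have h1 := point_le (G := G) D.hμ k x hS2 hν κ0 hK
  have hX : xX (fun _ : V => (0 : ℝ)) = 0 := by unfold xX; simp
  have h2 := D.dev_le k x (KS := KS) (B := B1) (q := -tri G (FK μ k x) (FK μ k x) w)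
    (e2 := D1 ^ 2) (by rw [hX]; simpa using hS)
    (range_nu (G := G) D.hμ k x hν hν0 κ0 ε0 hB1 hB2) le_rfl (D.es_le k x D1 hD)
  rw [hX] at h2
  linarith

end P3

end K4m
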