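import Mathlib
import Pool.Agent.Lib.MP_392c14_co.S2Defs
import Pool.Agent.Lib.MP_392c14_co.Acc.Match
import Pool.Agent.Lib.MP_392c14_co.Acc.Pass3

/-!
# From the second stage of the local analysis to the accounting

The link of `x` is `L = G.E x`.  The quantities of the local analysis (`hk`, `E6 (DD L)`,
`E6 (BBin k L)`, `E6 (BBout k L)`, `qd (μ a) L`) are expressed by those of the accounting
(`hh`, `Rx`, `kk`, `MN`, `mN`).
-/

set_option autoImplicit false

namespace K4m

open Finset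

section Bridge

variable {V : Type} [Fintype V] {G : TG V} {μ : Fin 6 → V → ℝ}

theorem kk_eq_lk (x : V) (f g : V → ℝ) :
    kk G x f g = ∑ y, ∑ z, f y * g z * lk (G.E x) y z := rfl

theorem blk_eq_pTab (k a b : Fin 6) : blk k a b = if pTab k a b = true then 1 else 0 := by
  unfold blk ind
  rw [pTab_eq]

/-- (1) the missing pairs of the pentagon -/
theorem hh_eq_hk (x : V) (k : Fin 6) : hh G μ x k = 2 * hk μ (G.E x) k := by
  unfold hh hk
  rw [← mul_assoc]
  norm_num
  refine sum_congr rfl fun a _ => sum_congr rfl fun b _ => ?_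
  rw [blk_eq_pTab, kk_eq_lk]
  split_ifs <;> ring

/-- own density as a quadratic form -/
theorem kk_self_qd (x : V) (m : V → ℝ) : kk G x m m = qd m (G.E x) := by
  unfold qd dg kk
  refine sum_congr rfl fun v _ => ?_
  rw [mul_sum]
  refine sum_congr rfl fun y _ => ?_
  rw [lk_eq_ind]; ring

theorem E6_DD_kk (hμ : ∀ a, IsW (μ a)) (x : V) : E6 μ (DD (G.E x)) =
    kk G x (μ 0) (μ 1) + kk G x (μ 0) (μ 2) + kk G x (μ 0) (μ 3) + kk G x (μ 0) (μ 4) +
    kk G x (μ 0) (μ 5) + kk G x (μ 1) (μ 2) + kk G x (μ 1) (μ 3) + kk G x (μ 1) (μ 4) +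
    kk G x (μ 1) (μ 5) + kk G x (μ 2) (μ 3) + kk G x (μ 2) (μ 4) + kk G x (μ 2) (μ 5) +
    kk G x (μ 3) (μ 4) + kk G x (μ 3) (μ 5) + kk G x (μ 4) (μ 5) := by
  have e : ∀ i j : Fin 6, i ≠ j → E6 μ (fun z => lk (G.E x) (z i) (z j)) =
      kk G x (μ i) (μ j) := fun i j hij => E6_ind2 G hμ x i j hij
  have h : E6 μ (DD (G.E x)) = E6 μ (fun z => lk (G.E x) (z 0) (z 1) + lk (G.E x) (z 0) (z 2) +
      lk (G.E x) (z 0) (z 3) + lk (G.E x) (z 0) (z 4) + lk (G.E x) (z 0) (z 5) +
      lk (G.E x) (z 1) (z 2) + lk (G.E x) (z 1) (z 3) + lk (G.E x) (z 1) (z 4) +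
      lk (G.E x) (z 1) (z 5) + lk (G.E x) (z 2) (z 3) + lk (G.E x) (z 2) (z 4) +
      lk (G.E x) (z 2) (z 5) + lk (G.E x) (z 3) (z 4) + lk (G.E x) (z 3) (z 5) +
      lk (G.E x) (z 4) (z 5)) := rfl
  rw [h, E6_add, E6_add, E6_add, E6_add, E6_add, E6_add, E6_add, E6_add, E6_add, E6_add, E6_add,
    E6_add, E6_add, E6_add, e 0 1 (by decide), e 0 2 (by decide), e 0 3 (by decide),
    e 0 4 (by decide), e 0 5 (by decide), e 1 2 (by decide), e 1 3 (by decide),
    e 1 4 (by decide), e 1 5 (by decide), e 2 3 (by decide), e 2 4 (by decide),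
    e 2 5 (by decide), e 3 4 (by decide), e 3 5 (by decide), e 4 5 (by decide)]

/-- (2) the uniform degree of a vertex -/
theorem Rx_eq (hμ : ∀ a, IsW (μ a)) (x : V) :
    Rx G μ x = 2 * E6 μ (DD (G.E x)) + ∑ a, qd (μ a) (G.E x) := by
  rw [E6_DD_kk hμ]
  simp only [← kk_self_qd]
  unfold Rx
  simp only [Fin.sum_univ_six]
  rw [kk_swap G x (μ 0) (μ 1), kk_swap G x (μ 0) (μ 2), kk_swap G x (μ 0) (μ 3),
    kk_swap G x (μ 0) (μ 4), kk_swap G x (μ 0) (μ 5), kk_swap G x (μ 1) (μ 2),
    kk_swap G x (μ 1) (μ 3), kk_swap G x (μ 1) (μ 4), kk_swap G x (μ 1) (μ 5),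
    kk_swap G x (μ 2) (μ 3), kk_swap G x (μ 2) (μ 4), kk_swap G x (μ 2) (μ 5),
    kk_swap G x (μ 3) (μ 4), kk_swap G x (μ 3) (μ 5), kk_swap G x (μ 4) (μ 5)]
  ring

theorem Rx_sub (hμ : ∀ a, IsW (μ a)) (x : V) (k : Fin 6) :
    Rx G μ x - kk G x (μ k) (μ k) =
      2 * E6 μ (DD (G.E x)) + ∑ a ∈ univ.erase k, qd (μ a) (G.E x) := by
  rw [Rx_eq hμ, kk_self_qd, ← add_sum_erase univ (fun a => qd (μ a) (G.E x)) (mem_univ k)]
  ring

/-! ### blocks with two pairs -/

/-- a symmetric function which vanishes on the diagonals, split at the index `k` -/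
theorem sum3_split (k : Fin 6) (F : Fin 6 → Fin 6 → Fin 6 → ℝ) (h12 : ∀ a b c, F b a c = F a b c)
    (h23 : ∀ a b c, F a c b = F a b c) (h0 : ∀ a c, F a a c = 0) :
    ∑ i, ∑ j, ∑ l, F i j l = 3 * ∑ a, ∑ b, F k a b +
      ∑ i, ∑ j, ∑ l, (if i = k ∨ j = k ∨ l = k then 0 else F i j l) := by
  have h0' : ∀ a b, F a b a = 0 := fun a b => by rw [h23]; exact h0 a b
  have h0'' : ∀ a b, F a b b = 0 := fun a b => by rw [← h12, h0' b a]
  have key : ∀ i j l, F i j l = (if i = k then F i j l else 0) + (if j = k then F i j l else 0) +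
      (if l = k then F i j l else 0) + (if i = k ∨ j = k ∨ l = k then 0 else F i j l) := by
    intro i j l
    by_cases h1 : i = k
    · by_cases h2 : j = k
      · subst h1; subst h2
        rw [h0]; simp
      · by_cases h3 : l = k
        · subst h1; subst h3
          rw [h0']; simp
        · simp [h1, h2, h3]
    · by_cases h2 : j = k
      · by_cases h3 : l = k
        · subst h2; subst h3
          rw [h0'']; simp
        · simp [h1, h2, h3]
      · simp [h1, h2]
        by_cases h3 : l = k <;> simp [h3]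
  have e1 : ∑ i, ∑ j, ∑ l, (if i = k then F i j l else 0) = ∑ a, ∑ b, F k a b := by
    rw [sum_eq_single k]
    · simp
    · intro b _ hb
      simp [hb]
    · intro h; exact absurd (mem_univ _) h
  have e2 : ∑ i, ∑ j, ∑ l, (if j = k then F i j l else 0) = ∑ a, ∑ b, F k a b := by
    rw [sum_comm, sum_eq_single k]
    · refine sum_congr rfl fun a _ => sum_congr rfl fun b _ => ?_
      rw [if_pos rfl, h12]
    · intro b _ hb
      simp [hb]
    · intro h; exact absurd (mem_univ _) h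
  have e3 : ∑ i, ∑ j, ∑ l, (if l = k then F i j l else 0) = ∑ a, ∑ b, F k a b := by
    refine sum_congr rfl fun a _ => sum_congr rfl fun b _ => ?_
    rw [sum_ite_eq' univ k (fun l => F a b l), if_pos (mem_univ _), h23 a k b, h12 k a b]
  calc ∑ i, ∑ j, ∑ l, F i j l = ∑ i, ∑ j, ∑ l, ((if i = k then F i j l else 0) +
        (if j = k then F i j l else 0) + (if l = k then F i j l else 0) +
        (if i = k ∨ j = k ∨ l = k then 0 else F i j l)) :=
        sum_congr rfl fun i _ => sum_congr rfl fun j _ => sum_congr rfl fun l _ => key i j l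
    _ = _ := by
        simp only [sum_add_distrib]
        rw [e1, e2, e3]
        ring

theorem blk_aac (a c : Fin 6) : blk a a c = 0 := blk_eq_zero a c

theorem mN_split (k : Fin 6) : mN G μ - MN G μ k =
    1 / 6 * ∑ i, ∑ j, ∑ l, (if i = k ∨ j = k ∨ l = k then 0 else pB G μ i j l) := by
  have h := sum3_split k (pB G μ) (pB_swap12 G μ) (pB_swap23 G μ)
    (fun a c => by unfold pB; rw [blk_aac, zero_mul])
  unfold mN MN
  linarith

variable {L : V → V → Bool}

omit [Fintype V] in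
/-- `BB` as a sum over all triples -/
theorem BB_sum (hs : ∀ x y, L x y = L y x) (z : Fin 6 → V) :
    BB L z = 1 / 6 * ∑ i, ∑ j, ∑ l, blk i j l * bt L (z i) (z j) (z l) := by
  have h12 : ∀ x y t : V, bt L y x t = bt L x y t := by
    intro x y t
    unfold bt
    rw [hs y x]
    congr 1
    rw [eq_iff_iff]
    constructor <;> intro h <;> omega
  have h23 : ∀ x y t : V, bt L x t y = bt L x y t := by
    intro x y t
    unfold bt
    rw [hs t y]
    congr 1
    rw [eq_iff_iff]
    constructor <;> intro h <;> omega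
  rw [sum_blocks (fun i j l => bt L (z i) (z j) (z l)) (fun a b c => h12 _ _ _)
    (fun a b c => h23 _ _ _)]
  unfold BB
  ring

omit [Fintype V] in
theorem BBin_blk (k : Fin 6) (z : Fin 6 → V) :
    BBin k L z = 1 / 2 * ∑ a, ∑ b, blk k a b * bt L (z k) (z a) (z b) := by
  unfold BBin
  congr 1
  refine sum_congr rfl fun a _ => sum_congr rfl fun b _ => ?_
  rw [blk_eq_pTab]
  split_ifs <;> ring

omit [Fintype V] in
theorem BBout_sum (hs : ∀ x y, L x y = L y x) (k : Fin 6) (z : Fin 6 → V) :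
    BBout k L z = 1 / 6 * ∑ i, ∑ j, ∑ l,
      (if i = k ∨ j = k ∨ l = k then 0 else blk i j l * bt L (z i) (z j) (z l)) := by
  have h12 : ∀ x y t : V, bt L y x t = bt L x y t := by
    intro x y t
    unfold bt
    rw [hs y x]
    congr 1
    rw [eq_iff_iff]
    constructor <;> intro h <;> omega
  have h23 : ∀ x y t : V, bt L x t y = bt L x y t := by
    intro x y t
    unfold bt
    rw [hs t y]
    congr 1
    rw [eq_iff_iff]
    constructor <;> intro h <;> omega
  have h := sum3_split k (fun i j l => blk i j l * bt L (z i) (z j) (z l))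
    (fun a b c => by rw [blk_swap12, h12])
    (fun a b c => by
      rw [h23]
      congr 1
      unfold blk
      rw [D6.symm₂])
    (fun a c => by rw [blk_aac, zero_mul])
  unfold BBout
  rw [BB_sum hs, BBin_blk]
  linarith

theorem E6_triple_le (hμ : ∀ a, IsW (μ a)) (x : V) (i j l : Fin 6) :
    E6 μ (fun z => blk i j l * bt (G.E x) (z i) (z j) (z l)) ≤ pB G μ i j l := by
  rw [E6_smul]
  by_cases h : D6.E i j l = true
  · have hij : i ≠ j := by
      rintro rfl
      rw [D6.irr] at h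
      exact absurd h (by decide)
    have hjl : j ≠ l := by
      rintro rfl
      rw [D6_last] at h
      exact absurd h (by decide)
    have hil : i ≠ l := by
      rintro rfl
      rw [D6.symm₂, D6.irr] at h
      exact absurd h (by decide)
    unfold pB
    refine mul_le_mul_of_nonneg_left ?_ (blk_nonneg _ _ _)
    rw [← E6_ind3 G hμ i j l hij hil hjl]
    exact E6_mono hμ fun z => bt8_le G x (z i) (z j) (z l)
  · have h0 : blk i j l = 0 := by
      unfold blk ind
      rw [if_neg h]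
    unfold pB
    rw [h0, zero_mul, zero_mul]

/-- (3) blocks with two pairs through the class `k` -/
theorem E6_BBin_le (hμ : ∀ a, IsW (μ a)) (x : V) (k : Fin 6) :
    E6 μ (BBin k (G.E x)) ≤ MN G μ k := by
  have h1 : E6 μ (BBin k (G.E x)) = 1 / 2 * ∑ a, ∑ b,
      E6 μ (fun z => blk k a b * bt (G.E x) (z k) (z a) (z b)) := by
    rw [E6_congr μ (k := fun z => 1 / 2 * ∑ a, ∑ b,
      blk k a b * bt (G.E x) (z k) (z a) (z b)) fun z => BBin_blk k z, E6_smul]
    congr 1
    rw [E6_sum]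
    exact sum_congr rfl fun a _ => E6_sum _ _ _
  rw [h1]
  unfold MN
  refine mul_le_mul_of_nonneg_left ?_ (by norm_num)
  exact sum_le_sum fun a _ => sum_le_sum fun b _ => E6_triple_le hμ x k a b

/-- (3) the other blocks with two pairs -/
theorem E6_BBout_le (hμ : ∀ a, IsW (μ a)) (x : V) (k : Fin 6) :
    E6 μ (BBout k (G.E x)) ≤ mN G μ - MN G μ k := by
  have h1 : E6 μ (BBout k (G.E x)) = 1 / 6 * ∑ i, ∑ j, ∑ l,
      E6 μ (fun z => if i = k ∨ j = k ∨ l = k then 0 else
        blk i j l * bt (G.E x) (z i) (z j) (z l)) := by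
    rw [E6_congr μ (k := fun z => 1 / 6 * ∑ i, ∑ j, ∑ l, (if i = k ∨ j = k ∨ l = k then 0 else
        blk i j l * bt (G.E x) (z i) (z j) (z l)))
        fun z => BBout_sum (fun a b => (G.symm₂ x a b).symm) k z, E6_smul]
    congr 1
    rw [E6_sum]
    refine sum_congr rfl fun i _ => ?_
    rw [E6_sum]
    exact sum_congr rfl fun j _ => E6_sum _ _ _
  rw [h1, mN_split]
  refine mul_le_mul_of_nonneg_left ?_ (by norm_num)
  refine sum_le_sum fun i _ => sum_le_sum fun j _ => sum_le_sum fun l _ => ?_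
  by_cases h : i = k ∨ j = k ∨ l = k
  · simp only [if_pos h]
    rw [E6_const hμ]
  · simp only [if_neg h]
    exact E6_triple_le hμ x i j l

/-! ### the conclusion -/

/-- (4) **From the second stage to the accounting**, separate multipliers. -/
theorem stage2_acc (hμ : ∀ a, IsW (μ a)) (x : V) (k : Fin 6) {c Kin Kout : ℝ}
    (hin : 0 ≤ Kin) (hout : 0 ≤ Kout)
    (h : c * (2 * hk μ (G.E x) k) + ∑ a ∈ univ.erase k, qd (μ a) (G.E x) ≤
      10 - 2 * E6 μ (DD (G.E x)) + Kin * E6 μ (BBin k (G.E x)) +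
        Kout * E6 μ (BBout k (G.E x))) :
    c * hh G μ x k + (Rx G μ x - kk G x (μ k) (μ k)) ≤
      10 + Kin * MN G μ k + Kout * (mN G μ - MN G μ k) := by
  rw [hh_eq_hk, Rx_sub hμ]
  have h1 := mul_le_mul_of_nonneg_left (E6_BBin_le (G := G) hμ x k) hin
  have h2 := mul_le_mul_of_nonneg_left (E6_BBout_le (G := G) hμ x k) hout
  linarith

/-- (4) **From the second stage to the accounting**, one multiplier. -/
theorem stage2_acc' (hμ : ∀ a, IsW (μ a)) (x : V) (k : Fin 6) {c K : ℝ} (hK : 0 ≤ K)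
    (h : c * (2 * hk μ (G.E x) k) + ∑ a ∈ univ.erase k, qd (μ a) (G.E x) ≤
      10 - 2 * E6 μ (DD (G.E x)) + K * E6 μ (BB (G.E x))) :
    c * hh G μ x k + (Rx G μ x - kk G x (μ k) (μ k)) ≤ 10 + K * mN G μ := by
  rw [hh_eq_hk, Rx_sub hμ]
  have h1 := mul_le_mul_of_nonneg_left (E6_BB_le G hμ x) hK
  linarith

/-! ### own bounds from densities -/

/-- (5) degrees of the support into its own class in the link of `x` -/
theorem dg_own_le (hμ : ∀ a, IsW (μ a)) {c : V → Fin 6} {ν0 um : ℝ}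
    (hν : ∀ v, ν0 ≤ kk G v (μ (c v)) (μ (c v))) (h1 : 1 / 2 ≤ um)
    (h2 : 2 * um * (1 - um) ≤ ν0) (hsup : ∀ a v, μ a v ≠ 0 → c v = a) (x : V) (a : Fin 6)
    (v : V) (hv : 0 < μ a v) : dg (μ a) (G.E x) v ≤ um := by
  have hc := hsup a v hv.ne'
  have h3 := hν v
  rw [hc] at h3
  exact dg_le_um G (hμ a) x v h1 (h2.trans h3)

/-- (5) degrees into the class of `x` in the link of `x` -/
theorem dg_cls_le (hμ : ∀ a, IsW (μ a)) {um : ℝ} (h1 : 1 / 2 ≤ um) (x : V) (k : Fin 6)
    (h2 : 2 * um * (1 - um) ≤ kk G x (μ k) (μ k)) (v : V) : dg (μ k) (G.E x) v ≤ um := by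
  have h3 := cod_le_um G (hμ k) v x h1 h2
  refine le_trans (le_of_eq ?_) h3
  unfold dg
  refine sum_congr rfl fun y _ => ?_
  rw [lk_eq_ind, G.symm₁ x v y]

/-! ### the hypotheses of the second stage from the pentagon probability -/

/-- (6) every missing density of the pentagon -/
theorem miss_le (hμ : ∀ a, IsW (μ a)) (x : V) (k a b : Fin 6) (h : pTab k a b = true) :
    1 - ∑ y, ∑ z, μ a y * μ b z * lk (G.E x) y z ≤ 1 - pProb μ (G.E x) k := by
  rw [← kk_eq_lk]
  exact one_sub_kk_near hμ x k a b (by rw [pTab_eq]; exact h)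

/-- (6) the sum of the missing densities -/
theorem hk_le_sqrt (hμ : ∀ a, IsW (μ a)) (x : V) (k : Fin 6) :
    hk μ (G.E x) k ≤ 5 * (1 - Real.sqrt (pProb μ (G.E x) k)) := by
  have h := hh_le_sqrt (G := G) hμ x k
  rw [hh_eq_hk] at h
  linarith

/-- (6) the sum of the missing densities, with a rational lower bound of the square root -/
theorem hk_le_of_sq (hμ : ∀ a, IsW (μ a)) (x : V) (k : Fin 6) {r : ℝ}
    (h : r ^ 2 ≤ pProb μ (G.E x) k) : hk μ (G.E x) k ≤ 5 * (1 - r) := by
  have h1 := hk_le_sqrt (G := G) hμ x k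
  have h2 : r ≤ Real.sqrt (pProb μ (G.E x) k) := Real.le_sqrt_of_sq_le h
  linarith

theorem hk_nonneg (hμ : ∀ a, IsW (μ a)) (x : V) (k : Fin 6) : 0 ≤ hk μ (G.E x) k := by
  have h : 0 ≤ hh G μ x k := by
    unfold hh
    refine sum_nonneg fun a _ => sum_nonneg fun b _ => mul_nonneg (blk_nonneg _ _ _) ?_
    have h1 := kk_le_one (G := G) hμ x a b
    linarith
  rw [hh_eq_hk] at h
  linarith

omit [Fintype V] in
/-- the links of `G` are symmetric and have no triangles (hypotheses of the second stage) -/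
theorem lnk_symm (G : TG V) (x : V) : ∀ y z, G.E x y z = G.E x z y :=
  fun y z => (G.symm₂ x y z).symm

omit [Fintype V] in
theorem lnk_free (G : TG V) (x : V) :
    ∀ y z t, ¬ (G.E x y z = true ∧ G.E x y t = true ∧ G.E x z t = true) :=
  fun y z t => G.free x y z t

end Bridge

end K4m
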