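import Mathlib
import Pool.Agent.Lib.MP_392c14_co.Acc.Class

/-!
# Deviation of a set of classes together with the own excess of one class
-/

set_option autoImplicit false

namespace K4m

open Finset

section Cpl2

variable {V : Type} [Fintype V] {G : TG V} {μ : Fin 6 → V → ℝ}

/-- general form: a set `S` with indicator `s`, `λ = 6/7` -/
theorem Y_gen (hμ : ∀ a, IsW (μ a)) (s : Fin 6 → ℝ) (s01 : ∀ a, s a = 0 ∨ s a = 1) :
    ∑ a, (s a - 6 / 7) * YN G μ a + ∑ a, (s a - 6 / 7) * eN G μ a +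
      ∑ a, 18 / 7 * (1 - s a) * BN G μ a ≤
      ∑ a, ∑ j, ∑ k, pB G μ a j k * (6 / 7 - 2 / 7 * (s a * s j)) -
      ∑ a, ∑ j, 4 / 7 * (s a * (1 - s j)) * (nee a j * tt G μ a a j) := by
  classical
  have s0 : ∀ a, 0 ≤ s a := fun a => by rcases s01 a with h | h <;> rw [h]; norm_num
  have s1 : ∀ a, s a ≤ 1 := fun a => by rcases s01 a with h | h <;> rw [h]; norm_num
  -- the three groups
  have hB : ∑ a, ((2 * (s a - 6 / 7) + 18 / 7 * (1 - s a)) * BN G μ a +
      (s a - 6 / 7) * BO G μ a) ≤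
      ∑ a, ∑ j, ∑ k, pB G μ a j k * (s j - 4 / 7 * (s a * s j)) -
      ∑ a, ∑ j, 4 / 7 * (s a * (1 - s j)) * (nee a j * tt G μ a a j) := by
    have q1 : ∑ a, ((2 * (s a - 6 / 7) + 18 / 7 * (1 - s a)) * BN G μ a +
        (s a - 6 / 7) * BO G μ a) =
        ∑ a, ∑ j, (s j - 4 / 7 * s a) * (nee a j * tt G μ a a j) := by
      rw [sum_add_distrib]
      have q2 : ∑ a, (s a - 6 / 7) * BO G μ a =
          ∑ a, ∑ j, (s j - 6 / 7) * (nee a j * tt G μ a a j) := by
        unfold BO
        rw [sum_comm]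
        refine sum_congr rfl fun a _ => ?_
        rw [mul_sum]
        refine sum_congr rfl fun j _ => ?_
        have : nee a j = nee j a := by
          unfold nee
          by_cases h : a = j
          · rw [if_pos h, if_pos h.symm]
          · rw [if_neg h, if_neg (fun h' => h h'.symm)]
        rw [this]
      rw [q2, ← sum_add_distrib]
      refine sum_congr rfl fun a _ => ?_
      unfold BN
      rw [mul_sum, ← sum_add_distrib]
      exact sum_congr rfl fun j _ => by ring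
    rw [q1, ← sum_sub_distrib]
    refine sum_le_sum fun a _ => ?_
    rw [← sum_sub_distrib]
    refine sum_le_sum fun j _ => ?_
    rcases nee_cases a j with ⟨h, e⟩ | ⟨h, e⟩
    · rw [e]
      have : ∑ k, pB G μ a j k * (s j - 4 / 7 * (s a * s j)) = 0 := by
        refine sum_eq_zero fun k _ => ?_
        subst h
        rw [pB_irr, zero_mul]
      rw [this]; ring_nf; rfl
    · rw [e, ← sum_mul, one_mul]
      have t0 := tt_nonneg (G := G) hμ a a j
      have t1 := bb_le (G := G) hμ a j h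
      have c0 : 0 ≤ s j - 4 / 7 * (s a * s j) := by
        have : s a * s j ≤ 1 * s j := mul_le_mul_of_nonneg_right (s1 a) (s0 j)
        have := s0 j
        linarith
      have c2 : (s j - 4 / 7 * (s a * s j)) * tt G μ a a j ≤
          (s j - 4 / 7 * (s a * s j)) * ∑ k, pB G μ a j k :=
            mul_le_mul_of_nonneg_left t1 c0
      have e2 : (s j - 4 / 7 * s a) * tt G μ a a j =
          (s j - 4 / 7 * (s a * s j)) * tt G μ a a j -
          4 / 7 * (s a * (1 - s j)) * tt G μ a a j := by ring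
      rw [e2]
      linarith
  have hG : ∑ a, (s a - 6 / 7) * (2 * GN G μ a) ≤
      ∑ a, ∑ j, ∑ k, pB G μ a j k * (2 / 7 * (s a * s j)) := by
    have q1 : ∑ a, (s a - 6 / 7) * (2 * GN G μ a) =
        ∑ a, ∑ j, ∑ k, nbl a j k * tt G μ a j k * (s a - 6 / 7) := by
      refine sum_congr rfl fun a _ => ?_
      unfold GN
      have : (s a - 6 / 7) * (2 * (1 / 2 * ∑ j, ∑ k, nbl a j k * tt G μ a j k)) =
          (∑ j, ∑ k, nbl a j k * tt G μ a j k) * (s a - 6 / 7) := by ring
      rw [this, sum_mul]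
      refine sum_congr rfl fun j _ => ?_
      rw [sum_mul]
    have q2 : ∑ a, ∑ j, ∑ k, nbl a j k * tt G μ a j k * (s a - 6 / 7) =
        ∑ a, ∑ j, ∑ k, nbl a j k * tt G μ a j k * (s j - 6 / 7) := by
      rw [sum_comm]
      refine sum_congr rfl fun a _ => sum_congr rfl fun j _ => sum_congr rfl fun k _ => ?_
      rw [nbl_swap12, tt_swap12]
    have q3 : ∑ a, ∑ j, ∑ k, nbl a j k * tt G μ a j k * (s j - 6 / 7) =
        ∑ a, ∑ j, ∑ k, nbl a j k * tt G μ a j k * (s k - 6 / 7) := by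
      refine sum_congr rfl fun a _ => ?_
      rw [sum_comm]
      refine sum_congr rfl fun j _ => sum_congr rfl fun k _ => ?_
      rw [nbl_swap23, tt_swap23]
    have q4 : ∑ a, (s a - 6 / 7) * (2 * GN G μ a) =
        ∑ a, ∑ j, ∑ k, nbl a j k * tt G μ a j k * ((s a + s j + s k - 18 / 7) / 3) := by
      have : ∑ a, ∑ j, ∑ k, nbl a j k * tt G μ a j k * ((s a + s j + s k - 18 / 7) / 3) =
          1 / 3 * (∑ a, ∑ j, ∑ k, nbl a j k * tt G μ a j k * (s a - 6 / 7) +
          ∑ a, ∑ j, ∑ k, nbl a j k * tt G μ a j k * (s j - 6 / 7) +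
          ∑ a, ∑ j, ∑ k, nbl a j k * tt G μ a j k * (s k - 6 / 7)) := by
        simp only [← sum_add_distrib, mul_sum]
        refine sum_congr rfl fun a _ => sum_congr rfl fun j _ => sum_congr rfl fun k _ => ?_
        ring
      rw [this, ← q3, ← q2, q1]; ring
    rw [q4]
    have q5 : ∑ a, ∑ j, ∑ k, nbl a j k * tt G μ a j k * ((s a + s j + s k - 18 / 7) / 3) ≤
        ∑ a, ∑ j, ∑ k, nbl a j k * (1 / 21 * (s a * s j * s k)) *
          ∑ l, (pB G μ a j l + pB G μ a k l + pB G μ j k l) := by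
      refine sum_le_sum fun a _ => sum_le_sum fun j _ => sum_le_sum fun k _ => ?_
      have t0 := tt_nonneg (G := G) hμ a j k
      unfold nbl
      by_cases h : a ≠ j ∧ a ≠ k ∧ j ≠ k ∧ D6.E a j k = false
      · rw [if_pos h, one_mul, one_mul]
        have g := gg_le (G := G) hμ a j k h
        have c1 : (s a + s j + s k - 18 / 7) / 3 ≤ 1 / 7 * (s a * s j * s k) := by
          rcases s01 a with h1 | h1 <;> rcases s01 j with h2 | h2 <;>
            rcases s01 k with h3 | h3 <;> rw [h1, h2, h3] <;> norm_num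
        have c0 : 0 ≤ s a * s j * s k := mul_nonneg (mul_nonneg (s0 a) (s0 j)) (s0 k)
        calc tt G μ a j k * ((s a + s j + s k - 18 / 7) / 3) ≤
            tt G μ a j k * (1 / 7 * (s a * s j * s k)) := mul_le_mul_of_nonneg_left c1 t0
          _ = 1 / 21 * (s a * s j * s k) * (3 * tt G μ a j k) := by ring
          _ ≤ _ := mul_le_mul_of_nonneg_left g (by linarith)
      · rw [if_neg h]; simp
    refine q5.trans ?_
    have q6 : ∑ a, ∑ j, ∑ k, nbl a j k * (1 / 21 * (s a * s j * s k)) *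
          ∑ l, (pB G μ a j l + pB G μ a k l + pB G μ j k l) =
        3 * ∑ a, ∑ j, ∑ k, nbl a j k * (1 / 21 * (s a * s j * s k)) * ∑ l, pB G μ a j l := by
      have r1 : ∑ a, ∑ j, ∑ k, nbl a j k * (1 / 21 * (s a * s j * s k)) * ∑ l, pB G μ a k l =
          ∑ a, ∑ j, ∑ k, nbl a j k * (1 / 21 * (s a * s j * s k)) * ∑ l, pB G μ a j l := by
        refine sum_congr rfl fun a _ => ?_
        rw [sum_comm]
        refine sum_congr rfl fun j _ => sum_congr rfl fun k _ => ?_
        rw [nbl_swap23]; ring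
      have r2 : ∑ a, ∑ j, ∑ k, nbl a j k * (1 / 21 * (s a * s j * s k)) * ∑ l, pB G μ j k l =
          ∑ a, ∑ j, ∑ k, nbl a j k * (1 / 21 * (s a * s j * s k)) * ∑ l, pB G μ a k l := by
        rw [sum_comm]
        refine sum_congr rfl fun a _ => sum_congr rfl fun j _ => sum_congr rfl fun k _ => ?_
        rw [nbl_swap12]; ring
      simp only [sum_add_distrib, mul_add]
      rw [r2, r1]; ring
    rw [q6, mul_sum]
    refine sum_le_sum fun a _ => ?_
    rw [mul_sum]
    refine sum_le_sum fun j _ => ?_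
    have p0 : 0 ≤ ∑ l, pB G μ a j l := sum_nonneg fun l _ => pB_nonneg hμ _ _ _
    have q7 : ∑ k, nbl a j k * (1 / 21 * (s a * s j * s k)) * ∑ l, pB G μ a j l =
        (1 / 21 * (s a * s j) * ∑ k, nbl a j k * s k) * ∑ l, pB G μ a j l := by
      rw [← sum_mul]
      congr 1
      rw [mul_sum]
      exact sum_congr rfl fun k _ => by ring
    rw [q7]
    have q8 : ∑ k, pB G μ a j k * (2 / 7 * (s a * s j)) =
        2 / 7 * (s a * s j) * ∑ l, pB G μ a j l := by
      rw [mul_sum]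
      exact sum_congr rfl fun k _ => by ring
    rw [q8]
    have q9 : ∑ k, nbl a j k * s k ≤ 2 := by
      by_cases h : a = j
      · subst h
        have : ∑ k, nbl a a k * s k = 0 := sum_eq_zero fun k _ => by
          rw [nbl_eq_zero, zero_mul]
        rw [this]; norm_num
      · rw [← nbl_sum a j h]
        refine sum_le_sum fun k _ => ?_
        calc nbl a j k * s k ≤ nbl a j k * 1 := mul_le_mul_of_nonneg_left (s1 k) (nbl_nn _ _ _)
          _ = _ := mul_one _
    have c0 : 0 ≤ s a * s j := mul_nonneg (s0 a) (s0 j)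
    have q10 : 3 * (1 / 21 * (s a * s j) * ∑ k, nbl a j k * s k) ≤ 2 / 7 * (s a * s j) := by
      have := mul_le_mul_of_nonneg_left q9 c0
      linarith
    calc 3 * ((1 / 21 * (s a * s j) * ∑ k, nbl a j k * s k) * ∑ l, pB G μ a j l) =
        (3 * (1 / 21 * (s a * s j) * ∑ k, nbl a j k * s k)) * ∑ l, pB G μ a j l := by ring
      _ ≤ _ := mul_le_mul_of_nonneg_right q10 p0
  have hM : ∑ a, (s a - 6 / 7) * (-2 * MN G μ a) =
      ∑ a, ∑ j, ∑ k, pB G μ a j k * (6 / 7 - s a) := by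
    refine sum_congr rfl fun a _ => ?_
    unfold MN
    have : (s a - 6 / 7) * (-2 * (1 / 2 * ∑ j, ∑ k, pB G μ a j k)) =
        (∑ j, ∑ k, pB G μ a j k) * (6 / 7 - s a) := by ring
    rw [this, sum_mul]
    refine sum_congr rfl fun j _ => ?_
    rw [sum_mul]
  have hsym := sum_sym12 (G := G) (μ := μ) s
  have t1 : ∑ a, (s a - 6 / 7) * YN G μ a + ∑ a, (s a - 6 / 7) * eN G μ a +
      ∑ a, 18 / 7 * (1 - s a) * BN G μ a =
      ∑ a, (s a - 6 / 7) * (-2 * MN G μ a) + ∑ a, (s a - 6 / 7) * (2 * GN G μ a) +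
      ∑ a, ((2 * (s a - 6 / 7) + 18 / 7 * (1 - s a)) * BN G μ a + (s a - 6 / 7) * BO G μ a) := by
    simp only [← sum_add_distrib]
    refine sum_congr rfl fun a _ => ?_
    rw [YN_eq]; ring
  rw [t1, hM]
  have t2 : ∑ a, ∑ j, ∑ k, pB G μ a j k * (6 / 7 - s a) +
      ∑ a, ∑ j, ∑ k, pB G μ a j k * (2 / 7 * (s a * s j)) +
      ∑ a, ∑ j, ∑ k, pB G μ a j k * (s j - 4 / 7 * (s a * s j)) =
      ∑ a, ∑ j, ∑ k, pB G μ a j k * (6 / 7 - 2 / 7 * (s a * s j)) := by
    have : ∑ a, ∑ j, ∑ k, pB G μ a j k * (6 / 7 - s a) +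
      ∑ a, ∑ j, ∑ k, pB G μ a j k * (2 / 7 * (s a * s j)) +
      ∑ a, ∑ j, ∑ k, pB G μ a j k * (s j - 4 / 7 * (s a * s j)) =
      ∑ a, ∑ j, ∑ k, pB G μ a j k * (6 / 7 - 2 / 7 * (s a * s j)) +
      (∑ a, ∑ j, ∑ k, pB G μ a j k * s j - ∑ a, ∑ j, ∑ k, pB G μ a j k * s a) := by
      simp only [← sum_add_distrib, ← sum_sub_distrib]
      refine sum_congr rfl fun a _ => sum_congr rfl fun j _ => sum_congr rfl fun k _ => ?_
      ring
    rw [this, hsym]; ring
  linarith

theorem pB_sum_const (c : ℝ) : ∑ a, ∑ j, ∑ k, pB G μ a j k * c = 6 * c * mN G μ := by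
  unfold mN
  simp only [← sum_mul]
  ring

/-- JOINT BOUND.  `δ` bounds `Σ_J (e - 3 B)` for every set `J` of classes. -/
theorem Y_set_k (hμ : ∀ a, IsW (μ a)) (S : Finset (Fin 6)) (k : Fin 6) (δ α P : ℝ)
    (h4 : ∀ J : Finset (Fin 6), ∑ a ∈ J, (eN G μ a - 3 * BN G μ a) ≤ δ)
    (hP1 : 2 / 7 * α ≤ P) (hP2 : P ≤ 6 / 7 * α) (hα : 0 ≤ α) :
    α * ∑ a ∈ S, YN G μ a + P * (2 * BN G μ k - eN G μ k) ≤
      (4 * α + 4 * P) * mN G μ + 6 / 7 * α * ∑ a, YN G μ a + 6 / 7 * α * δ := by
  classical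
  obtain ⟨s, hs⟩ : ∃ s : Fin 6 → ℝ, s = fun a => if a ∈ S then 1 else 0 := ⟨_, rfl⟩
  have s01 : ∀ a, s a = 0 ∨ s a = 1 := by
    intro a; rw [hs]; dsimp only; split_ifs
    · right; rfl
    · left; rfl
  have s0 : ∀ a, 0 ≤ s a := fun a => by rcases s01 a with h | h <;> rw [h]; norm_num
  have s1 : ∀ a, s a ≤ 1 := fun a => by rcases s01 a with h | h <;> rw [h]; norm_num
  have e1 : ∑ a ∈ S, YN G μ a = ∑ a, s a * YN G μ a := by
    rw [hs]
    simp only [ite_mul, one_mul, zero_mul]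
    rw [sum_ite_mem, univ_inter]
  have gen := Y_gen (G := G) hμ s s01
  have hm0 := mN_nonneg (G := G) hμ
  have hMk := MN_le (G := G) hμ k
  have hMk0 := MN_nonneg (G := G) hμ k
  have hP0 : 0 ≤ P := le_trans (by positivity) hP1
  -- sets
  have hJ : ∀ (J : Finset (Fin 6)) (r : Fin 6 → ℝ), (∀ a, r a = if a ∈ J then 1 else 0) →
      ∑ a, r a * (eN G μ a - 3 * BN G μ a) ≤ δ := by
    intro J r hr
    refine le_trans (le_of_eq ?_) (h4 J)
    rw [sum_congr rfl fun a _ => by rw [hr a]]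
    simp only [ite_mul, one_mul, zero_mul]
    rw [sum_ite_mem, univ_inter]
  have hc := hJ Sᶜ (fun a => 1 - s a) (fun a => by
    rw [hs]; dsimp only
    by_cases h : a ∈ S
    · rw [if_pos h, if_neg (by simp [h])]; ring
    · rw [if_neg h, if_pos (by simp [h])]; ring)
  have eY : ∑ a, (s a - 6 / 7) * YN G μ a = ∑ a, s a * YN G μ a - 6 / 7 * ∑ a, YN G μ a := by
    rw [mul_sum, ← sum_sub_distrib]
    exact sum_congr rfl fun a _ => by ring
  have eE : ∑ a, (s a - 6 / 7) * eN G μ a + ∑ a, 18 / 7 * (1 - s a) * BN G μ a =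
      1 / 7 * ∑ a, s a * eN G μ a - 6 / 7 * ∑ a, (1 - s a) * (eN G μ a - 3 * BN G μ a) := by
    rw [mul_sum, mul_sum, ← sum_add_distrib, ← sum_sub_distrib]
    exact sum_congr rfl fun a _ => by ring
  have hse : 0 ≤ ∑ a, s a * eN G μ a :=
    sum_nonneg fun a _ => mul_nonneg (s0 a) (eN_nonneg hμ a)
  have hs4 : 0 ≤ ∑ a, ∑ j, 4 / 7 * (s a * (1 - s j)) * (nee a j * tt G μ a a j) :=
    sum_nonneg fun a _ => sum_nonneg fun j _ => mul_nonneg (mul_nonneg (by norm_num)
      (mul_nonneg (s0 a) (by linarith [s1 j]))) (mul_nonneg (nee_nonneg _ _) (tt_nonneg hμ _ _ _))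
  rcases s01 k with hk | hk
  · -- `k` is not in `S`
    have hkS : k ∉ S := by
      intro h
      rw [hs] at hk
      simp [h] at hk
    -- layering
    have hc2 := hJ (Sᶜ.erase k) (fun a => (1 - s a) - (if a = k then 1 else 0)) (fun a => by
      rw [hs]; dsimp only
      by_cases hak : a = k
      · subst hak
        rw [if_neg hkS, if_pos rfl, if_neg (by simp)]; ring
      · by_cases h : a ∈ S
        · rw [if_pos h, if_neg hak, if_neg (by simp [h])]; ring
        · rw [if_neg h, if_neg hak, if_pos (by simp [h, hak])]; ring)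
    have hc3 : ∑ a, ((1 - s a) - (if a = k then 1 else 0)) * (eN G μ a - 3 * BN G μ a) =
        ∑ a, (1 - s a) * (eN G μ a - 3 * BN G μ a) - (eN G μ k - 3 * BN G μ k) := by
      have : ∀ a, ((1 - s a) - (if a = k then (1 : ℝ) else 0)) * (eN G μ a - 3 * BN G μ a) =
          (1 - s a) * (eN G μ a - 3 * BN G μ a) -
          (if a = k then (eN G μ a - 3 * BN G μ a) else 0) := by
        intro a
        by_cases h : a = k
        · rw [if_pos h, if_pos h]; ring
        · rw [if_neg h, if_neg h]; ring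
      rw [sum_congr rfl fun a _ => this a, sum_sub_distrib, sum_ite_eq', if_pos (mem_univ _)]
    rw [hc3] at hc2
    have hBk := BN_nonneg (G := G) hμ k
    have hp : ∑ a, ∑ j, ∑ l, pB G μ a j l * (6 / 7 - 2 / 7 * (s a * s j)) ≤
        36 / 7 * mN G μ := by
      have : ∑ a, ∑ j, ∑ l, pB G μ a j l * (6 / 7 - 2 / 7 * (s a * s j)) ≤
          ∑ a, ∑ j, ∑ l, pB G μ a j l * (6 / 7) := by
        refine sum_le_sum fun a _ => sum_le_sum fun j _ => sum_le_sum fun l _ => ?_
        refine mul_le_mul_of_nonneg_left ?_ (pB_nonneg hμ _ _ _)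
        have := mul_nonneg (s0 a) (s0 j)
        linarith
      rw [pB_sum_const] at this
      linarith
    have hlin : α * ∑ a, s a * YN G μ a ≤ 36 / 7 * α * mN G μ + 6 / 7 * α * ∑ a, YN G μ a +
        6 / 7 * α * ∑ a, (1 - s a) * (eN G μ a - 3 * BN G μ a) := by
      have h1 : ∑ a, s a * YN G μ a ≤ 36 / 7 * mN G μ + 6 / 7 * ∑ a, YN G μ a +
        6 / 7 * ∑ a, (1 - s a) * (eN G μ a - 3 * BN G μ a) := by linarith
      have h2 := mul_le_mul_of_nonneg_left h1 hα
      linarith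
    have hw1 : (6 / 7 * α - P) * ∑ a, (1 - s a) * (eN G μ a - 3 * BN G μ a) ≤
        (6 / 7 * α - P) * δ := mul_le_mul_of_nonneg_left hc (by linarith)
    have hw2 : P * (∑ a, (1 - s a) * (eN G μ a - 3 * BN G μ a) - (eN G μ k - 3 * BN G μ k)) ≤
        P * δ := mul_le_mul_of_nonneg_left hc2 hP0
    have hw3 : 0 ≤ P * BN G μ k := mul_nonneg hP0 hBk
    have hw4 : 36 / 7 * α * mN G μ ≤ (4 * α + 4 * P) * mN G μ :=
      mul_le_mul_of_nonneg_right (by linarith) hm0
    rw [e1]
    linarith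
  · -- `k` is in `S`
    have hBB : ∑ j, 4 / 7 * (1 - s j) * (nee k j * tt G μ k k j) ≤
        ∑ a, ∑ j, 4 / 7 * (s a * (1 - s j)) * (nee a j * tt G μ a a j) := by
      have := single_le_sum (s := univ)
        (f := fun a => ∑ j, 4 / 7 * (s a * (1 - s j)) * (nee a j * tt G μ a a j))
        (fun a _ => sum_nonneg fun j _ => mul_nonneg (mul_nonneg (by norm_num)
          (mul_nonneg (s0 a) (by linarith [s1 j]))) (mul_nonneg (nee_nonneg _ _)
          (tt_nonneg hμ _ _ _))) (mem_univ k)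
      refine le_trans (le_of_eq ?_) this
      refine sum_congr rfl fun j _ => ?_
      rw [hk]; ring
    -- contribution of the blocks at `k`
    have hkk : ∑ j, ∑ l, pB G μ k j l * (4 / 7 * s j) ≤
        ∑ a, ∑ j, ∑ l, pB G μ a j l * (2 / 7 * (s a * s j)) := by
      have h1 : ∀ a j l, pB G μ a j l * (2 / 7 * (s a * s j) *
          ((if a = k then (1 : ℝ) else 0) + (if j = k then (1 : ℝ) else 0))) ≤
          pB G μ a j l * (2 / 7 * (s a * s j)) := by
        intro a j l
        have p0 := pB_nonneg (G := G) hμ a j l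
        have c0 : 0 ≤ 2 / 7 * (s a * s j) := mul_nonneg (by norm_num) (mul_nonneg (s0 a) (s0 j))
        by_cases hajk : a = k ∧ j = k
        · obtain ⟨h1, h2⟩ := hajk
          subst h1; subst h2
          rw [pB_irr]; simp
        · have : (if a = k then (1 : ℝ) else 0) + (if j = k then (1 : ℝ) else 0) ≤ 1 := by
            by_cases ha : a = k
            · have hj : ¬ j = k := fun h => hajk ⟨ha, h⟩
              rw [if_pos ha, if_neg hj]; norm_num
            · rw [if_neg ha]; split_ifs <;> norm_num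
          refine mul_le_mul_of_nonneg_left ?_ p0
          calc 2 / 7 * (s a * s j) * ((if a = k then (1 : ℝ) else 0) +
              (if j = k then (1 : ℝ) else 0)) ≤ 2 / 7 * (s a * s j) * 1 :=
                mul_le_mul_of_nonneg_left this c0
            _ = _ := mul_one _
      have h2 : ∑ a, ∑ j, ∑ l, pB G μ a j l * (2 / 7 * (s a * s j) *
          ((if a = k then (1 : ℝ) else 0) + (if j = k then (1 : ℝ) else 0))) ≤
          ∑ a, ∑ j, ∑ l, pB G μ a j l * (2 / 7 * (s a * s j)) :=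
        sum_le_sum fun a _ => sum_le_sum fun j _ => sum_le_sum fun l _ => h1 a j l
      refine le_trans (le_of_eq ?_) h2
      have h3 : ∑ a, ∑ j, ∑ l, pB G μ a j l * (2 / 7 * (s a * s j) *
          (if a = k then (1 : ℝ) else 0)) = ∑ j, ∑ l, pB G μ k j l * (2 / 7 * s j) := by
        rw [sum_eq_single k]
        · refine sum_congr rfl fun j _ => sum_congr rfl fun l _ => ?_
          rw [if_pos rfl, hk]; ring
        · intro b _ hb
          refine sum_eq_zero fun j _ => sum_eq_zero fun l _ => ?_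
          rw [if_neg hb]; ring
        · intro h; exact absurd (mem_univ _) h
      have h4 : ∑ a, ∑ j, ∑ l, pB G μ a j l * (2 / 7 * (s a * s j) *
          (if j = k then (1 : ℝ) else 0)) = ∑ j, ∑ l, pB G μ k j l * (2 / 7 * s j) := by
        rw [sum_comm, ← h3]
        refine sum_congr rfl fun a _ => sum_congr rfl fun j _ => sum_congr rfl fun l _ => ?_
        rw [pB_swap12]; ring
      have h5 : ∑ a, ∑ j, ∑ l, pB G μ a j l * (2 / 7 * (s a * s j) *
          ((if a = k then (1 : ℝ) else 0) + (if j = k then (1 : ℝ) else 0))) =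
          ∑ a, ∑ j, ∑ l, pB G μ a j l * (2 / 7 * (s a * s j) *
          (if a = k then (1 : ℝ) else 0)) + ∑ a, ∑ j, ∑ l, pB G μ a j l * (2 / 7 * (s a * s j) *
          (if j = k then (1 : ℝ) else 0)) := by
        simp only [← sum_add_distrib]
        refine sum_congr rfl fun a _ => sum_congr rfl fun j _ => sum_congr rfl fun l _ => ?_
        ring
      rw [h5, h3, h4]
      simp only [← sum_add_distrib]
      refine sum_congr rfl fun j _ => sum_congr rfl fun l _ => ?_
      ring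
    have hBk : ∑ j, (2 * P - 4 / 7 * α * (1 - s j)) * (nee k j * tt G μ k k j) ≤
        ∑ j, ∑ l, pB G μ k j l * (2 * P - 4 / 7 * α * (1 - s j)) := by
      refine sum_le_sum fun j _ => ?_
      rw [← sum_mul]
      have c0 : 0 ≤ 2 * P - 4 / 7 * α * (1 - s j) := by
        have : α * (1 - s j) ≤ α * 1 := mul_le_mul_of_nonneg_left (by linarith [s0 j]) hα
        linarith
      rcases nee_cases k j with ⟨h, e⟩ | ⟨h, e⟩
      · rw [e]
        have : 0 ≤ (∑ l, pB G μ k j l) * (2 * P - 4 / 7 * α * (1 - s j)) :=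
          mul_nonneg (sum_nonneg fun l _ => pB_nonneg hμ _ _ _) c0
        linarith
      · rw [e, one_mul, mul_comm]
        exact mul_le_mul_of_nonneg_right (bb_le hμ k j h) c0
    have hMk2 : ∑ j, ∑ l, pB G μ k j l = 2 * MN G μ k := by unfold MN; ring
    have hp : ∑ a, ∑ j, ∑ l, pB G μ a j l * (6 / 7 - 2 / 7 * (s a * s j)) =
        36 / 7 * mN G μ - ∑ a, ∑ j, ∑ l, pB G μ a j l * (2 / 7 * (s a * s j)) := by
      have e0 := pB_sum_const (G := G) (μ := μ) (6 / 7)
      have : ∑ a, ∑ j, ∑ l, pB G μ a j l * (6 / 7 - 2 / 7 * (s a * s j)) =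
          ∑ a, ∑ j, ∑ l, pB G μ a j l * (6 / 7) -
          ∑ a, ∑ j, ∑ l, pB G μ a j l * (2 / 7 * (s a * s j)) := by
        simp only [← sum_sub_distrib]
        refine sum_congr rfl fun a _ => sum_congr rfl fun j _ => sum_congr rfl fun l _ => ?_
        ring
      rw [this, e0]; ring
    have hlin : α * ∑ a, s a * YN G μ a ≤ 36 / 7 * α * mN G μ + 6 / 7 * α * ∑ a, YN G μ a +
        6 / 7 * α * δ - α * ∑ j, ∑ l, pB G μ k j l * (4 / 7 * s j) -
        α * ∑ j, 4 / 7 * (1 - s j) * (nee k j * tt G μ k k j) := by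
      have h1 : ∑ a, s a * YN G μ a ≤ 36 / 7 * mN G μ + 6 / 7 * ∑ a, YN G μ a +
        6 / 7 * δ - ∑ j, ∑ l, pB G μ k j l * (4 / 7 * s j) -
        ∑ j, 4 / 7 * (1 - s j) * (nee k j * tt G μ k k j) := by linarith
      have h2 := mul_le_mul_of_nonneg_left h1 hα
      linarith
    have hek : 0 ≤ P * eN G μ k := mul_nonneg hP0 (eN_nonneg hμ k)
    have hBe : P * (2 * BN G μ k) = ∑ j, 2 * P * (nee k j * tt G μ k k j) := by
      unfold BN
      rw [mul_sum, mul_sum]
      exact sum_congr rfl fun j _ => by ring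
    have hcomb : ∑ j, 2 * P * (nee k j * tt G μ k k j) -
        α * ∑ j, 4 / 7 * (1 - s j) * (nee k j * tt G μ k k j) =
        ∑ j, (2 * P - 4 / 7 * α * (1 - s j)) * (nee k j * tt G μ k k j) := by
      rw [mul_sum, ← sum_sub_distrib]
      exact sum_congr rfl fun j _ => by ring
    have hcomb2 : ∑ j, ∑ l, pB G μ k j l * (2 * P - 4 / 7 * α * (1 - s j)) -
        α * ∑ j, ∑ l, pB G μ k j l * (4 / 7 * s j) =
        (2 * P - 4 / 7 * α) * (2 * MN G μ k) := by
      rw [← hMk2]
      simp only [mul_sum, ← sum_sub_distrib]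
      refine sum_congr rfl fun j _ => sum_congr rfl fun l _ => ?_
      ring
    have hfin : (2 * P - 4 / 7 * α) * (2 * MN G μ k) ≤ (2 * P - 4 / 7 * α) * (2 * mN G μ) :=
      mul_le_mul_of_nonneg_left (by linarith) (by linarith)
    rw [e1]
    linarith

end Cpl2

end K4m
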