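import Mathlib
import Pool.Agent.Lib.MP_392c14_co.Replace
import Pool.Agent.Lib.MP_392c14_co.Acc.Class2
import Pool.Agent.Lib.MP_392c14_co.Acc.Test

/-!
# Deficiency of the inner densities

Replacing the inner structure of a set of classes by a nearly optimal one shows that the
deficiency of the inner density of a class is at most three times the density of the edges with
two points in the class, up to the size ratios and the garbage.
-/

set_option autoImplicit false

namespace K4m

open Finset

section Delta

variable {V : Type} [Fintype V] {G : TG V} {w : V → ℝ} {μ : Fin 6 → V → ℝ} {v : Fin 6 → ℝ}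
  {X : V → ℝ} {t : ℝ}

theorem val_tri (G : TG V) (f : V → ℝ) : val G f = tri G f f f := rfl

theorem Dec.tri_X_ww (D : Dec G w μ v X t) : tri G X w w = xX X * t := by
  rw [tri_eq_sum_deg]
  have : ∀ x, X x * deg G w x = t * X x := fun x => by rw [D.hdeg]; ring
  rw [sum_congr rfl fun x _ => this x, ← mul_sum]
  unfold xX; ring

theorem Dec.tri_www (D : Dec G w μ v X t) : tri G w w w = t := by
  rw [tri_eq_sum_deg]
  have : ∀ x, w x * deg G w x = t * w x := fun x => by rw [D.hdeg]; ring
  rw [sum_congr rfl fun x _ => this x, ← mul_sum, D.hw.sum_eq, mul_one]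

/-- the replacement inequality for a decomposition whose classes are parts of a colouring -/
theorem Dec.repl (D : Dec G w μ v X t) (c : V → Fin 6)
    (hc : ∀ a x, v a * μ a x = (w x - X x) * pin c a x) (ht : t ≤ rho) (J : Fin 6 → Bool) :
    ∑ a, ind (J a) * (v a ^ 3 * eN G μ a - 3 * v a ^ 2 * ∑ j, nee a j * (v j * tt G μ a a j)) ≤
      (rho - t) + 3 * rho * xX X ^ 2 := by
  set w' : V → ℝ := fun x => w x - X x with hw'
  have hw'2 : ∀ x, w' x = ∑ a, v a * μ a x := by
    intro x; simp only [hw']; rw [D.dec x]; ring
  have hw'0 : ∀ x, 0 ≤ w' x := by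
    intro x; rw [hw'2]
    exact sum_nonneg fun a _ => mul_nonneg (D.hv a).le ((D.hμ a).nonneg x)
  have hξ0 : 0 ≤ xX X := sum_nonneg fun x _ => D.hX x
  have hsum : ∑ x, w' x = 1 - xX X := by
    simp only [hw']
    rw [sum_sub_distrib, D.hw.sum_eq]
    rfl
  have e1 : ∀ a, cl w' c a = v a := by
    intro a
    have h1 : cl w' c a = ∑ x, v a * μ a x := by
      unfold cl
      refine sum_congr rfl fun x _ => ?_
      rw [hc a x]
      rfl
    rw [h1, ← mul_sum, (D.hμ a).sum_eq, mul_one]
  have e2 : ∀ a, VV G w' c a = v a ^ 3 * tt G μ a a a := by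
    intro a
    have h1 : (fun x => w' x * pin c a x) = fun x => v a * μ a x := by
      funext x; exact (hc a x).symm
    unfold VV
    rw [h1, val_tri, tri_smul1, tri_smul2, tri_smul3]
    unfold tt; ring
  have e3 : ∀ a, KKs G w' c a = v a ^ 2 * ∑ j, nee a j * (v j * tt G μ a a j) := by
    intro a
    have h1 : KKs G w' c a = tri G (fun x => w' x * pin c a x) (fun x => w' x * pin c a x)
        (fun x => w' x * (1 - pin c a x)) := by
      unfold KKs T3 tri
      refine sum_congr rfl fun x _ => sum_congr rfl fun y _ => sum_congr rfl fun z _ => ?_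
      ring
    have h2 : (fun x => w' x * pin c a x) = fun x => v a * μ a x := by
      funext x; exact (hc a x).symm
    have h3 : (fun x => w' x * (1 - pin c a x)) =
        fun x => ∑ j, (nee a j * v j) * μ j x := by
      funext x
      have h4 : w' x * (1 - pin c a x) = w' x - v a * μ a x := by rw [hc a x]; ring
      rw [h4, hw'2 x]
      have h5 : ∑ j, (nee a j * v j) * μ j x = ∑ j, v j * μ j x - v a * μ a x := by
        have h6 : ∀ j, (nee a j * v j) * μ j x = v j * μ j x -
            (if a = j then v j * μ j x else 0) := by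
          intro j
          unfold nee
          by_cases h : a = j
          · rw [if_pos h, if_pos h]; ring
          · rw [if_neg h, if_neg h]; ring
        simp only [h6]
        rw [sum_sub_distrib, sum_ite_eq, if_pos (mem_univ _)]
      rw [h5]
    rw [h1, h2, h3, tri_smul1, tri_smul2, tri_sum3]
    unfold tt
    have h7 : ∑ j, nee a j * (v j * tri G (μ a) (μ a) (μ j)) =
        ∑ j, nee a j * v j * tri G (μ a) (μ a) (μ j) :=
      sum_congr rfl fun j _ => by ring
    rw [h7]
    ring
  have hval : t - 3 * xX X * t ≤ val G w' := by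
    have hwX : w = fun y => w' y + X y := by funext y; simp only [hw']; ring
    have a1 := D.tri_www
    have a2 := D.tri_X_ww
    have b1 : tri G w w w = tri G w' w' w' + 3 * tri G w' w' X + 3 * tri G w' X X +
        tri G X X X := by
      rw [hwX]
      simp only [tri_pl1, tri_pl2, tri_pl3]
      have s1 : tri G w' X w' = tri G w' w' X := (tri_swap23 G w' w' X).symm
      have s2 : tri G X w' w' = tri G w' w' X := by rw [tri_swap12, tri_swap23]
      have s3 : tri G X w' X = tri G w' X X := (tri_swap12 G w' X X).symm
      have s4 : tri G X X w' = tri G w' X X := by rw [tri_swap23, tri_swap12]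
      rw [s1, s2, s3, s4]; ring
    have b2 : tri G X w w = tri G w' w' X + 2 * tri G w' X X + tri G X X X := by
      rw [hwX]
      simp only [tri_pl1, tri_pl2, tri_pl3]
      have s2 : tri G X w' w' = tri G w' w' X := by rw [tri_swap12, tri_swap23]
      have s3 : tri G X w' X = tri G w' X X := (tri_swap12 G w' X X).symm
      have s4 : tri G X X w' = tri G w' X X := by rw [tri_swap23, tri_swap12]
      rw [s2, s3, s4]; ring
    have n1 : 0 ≤ tri G w' X X := by
      unfold tri
      exact sum_nonneg fun a _ => sum_nonneg fun b _ => sum_nonneg fun d _ =>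
        mul_nonneg (mul_nonneg (mul_nonneg (hw'0 a) (D.hX b)) (D.hX d)) (ind_nonneg _)
    have n2 : 0 ≤ tri G X X X := by
      unfold tri
      exact sum_nonneg fun a _ => sum_nonneg fun b _ => sum_nonneg fun d _ =>
        mul_nonneg (mul_nonneg (mul_nonneg (D.hX a) (D.hX b)) (D.hX d)) (ind_nonneg _)
    rw [val_tri]
    rw [b1] at a1
    rw [b2] at a2
    linarith
  have main := repl_le G w' c hw'0 J
  have hs : sJ J (fun k => rho * cl w' c k ^ 3 - VV G w' c k - 3 * KKs G w' c k) =
      ∑ a, ind (J a) * (v a ^ 3 * eN G μ a -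
        3 * v a ^ 2 * ∑ j, nee a j * (v j * tt G μ a a j)) := by
    unfold sJ
    refine sum_congr rfl fun a _ => ?_
    dsimp only
    rw [e1, e2, e3]
    unfold eN
    ring
  rw [hs, hsum] at main
  have hr0 : 0 ≤ rho := by have := two_sevenths_le_rho; linarith
  have hξ1 : xX X ≤ 1 := by
    have h1 := D.sum_v
    have h2 : 0 ≤ ∑ a, v a := sum_nonneg fun a _ => (D.hv a).le
    unfold xX; linarith
  have h3 : 0 ≤ rho * xX X ^ 3 := by positivity
  have h4 : 0 ≤ 3 * xX X * (rho - t) := mul_nonneg (by linarith) (by linarith)
  nlinarith [main, hval, h3, h4]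

end Delta

end K4m
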