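import Mathlib
import Pool.Agent.Lib.MP_392c14_co.Acc.Delta

/-!
# Deficiency of the inner densities: size ratios
-/

set_option autoImplicit false

namespace K4m

open Finset

section Delta2

variable {V : Type} [Fintype V] {G : TG V} {w : V → ℝ} {μ : Fin 6 → V → ℝ} {v : Fin 6 → ℝ}
  {X : V → ℝ} {t : ℝ}

theorem cyc3 (x y z D : ℝ) (h1 : |x - y| ≤ D) (h2 : |y - z| ≤ D) (h3 : |x - z| ≤ D) :
    max (y - x) 0 + max (z - y) 0 + max (x - z) 0 ≤ D := by
  have a1 := abs_le.1 h1
  have a2 := abs_le.1 h2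
  have a3 := abs_le.1 h3
  have D0 : 0 ≤ D := (abs_nonneg _).trans h1
  rcases le_total (y - x) 0 with b1 | b1
  · rw [max_eq_right b1]
    rcases le_total (z - y) 0 with b2 | b2
    · rw [max_eq_right b2]
      rcases le_total (x - z) 0 with b3 | b3
      · rw [max_eq_right b3]; linarith
      · rw [max_eq_left b3]; linarith [a3.2]
    · rw [max_eq_left b2]
      rcases le_total (x - z) 0 with b3 | b3
      · rw [max_eq_right b3]; linarith [a2.1]
      · rw [max_eq_left b3]; linarith [a1.2]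
  · rw [max_eq_left b1]
    rcases le_total (z - y) 0 with b2 | b2
    · rw [max_eq_right b2]
      rcases le_total (x - z) 0 with b3 | b3
      · rw [max_eq_right b3]; linarith [a1.1]
      · rw [max_eq_left b3]; linarith [a2.2]
    · rw [max_eq_left b2]
      rcases le_total (x - z) 0 with b3 | b3
      · rw [max_eq_right b3]; linarith [a3.1]
      · rw [max_eq_left b3]; linarith

theorem two_abs_le (s : Fin 6 → ℝ) (D1 : ℝ) (hD : ∑ b, |s b| ≤ D1) (i j : Fin 6) :
    |s i - s j| ≤ D1 := by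
  have D0 : 0 ≤ D1 := (sum_nonneg fun b _ => abs_nonneg (s b)).trans hD
  by_cases h : i = j
  · subst h; rw [sub_self, abs_zero]; exact D0
  · have h1 : ∑ b ∈ ({i, j} : Finset (Fin 6)), |s b| ≤ ∑ b, |s b| :=
      sum_le_sum_of_subset_of_nonneg (subset_univ _) fun b _ _ => abs_nonneg _
    rw [sum_pair h] at h1
    exact (abs_sub _ _).trans (h1.trans hD)

theorem pB_rot (i j k : Fin 6) : pB G μ j k i = pB G μ i j k :=
  (pB_swap23 G μ j i k).trans (pB_swap12 G μ i j k)

theorem sum_cyc (f : Fin 6 → Fin 6 → ℝ) :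
    ∑ i, ∑ j, ∑ k, pB G μ i j k * (f i j + f j k + f k i) =
      3 * ∑ i, ∑ j, ∑ k, pB G μ i j k * f i j := by
  have h1 : ∑ i, ∑ j, ∑ k, pB G μ i j k * f j k = ∑ i, ∑ j, ∑ k, pB G μ i j k * f i j := by
    have e : ∑ i, ∑ j, ∑ k, pB G μ i j k * f j k = ∑ j, ∑ k, ∑ i, pB G μ i j k * f j k := by
      rw [sum_comm]
      exact sum_congr rfl fun j _ => sum_comm
    rw [e]
    refine sum_congr rfl fun i _ => sum_congr rfl fun j _ => sum_congr rfl fun k _ => ?_
    rw [← pB_rot k i j]
  have h2 : ∑ i, ∑ j, ∑ k, pB G μ i j k * f k i = ∑ i, ∑ j, ∑ k, pB G μ i j k * f i j := by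
    have e : ∑ i, ∑ j, ∑ k, pB G μ i j k * f k i = ∑ k, ∑ i, ∑ j, pB G μ i j k * f k i := by
      have e1 : ∀ i, ∑ j, ∑ k, pB G μ i j k * f k i = ∑ k, ∑ j, pB G μ i j k * f k i :=
        fun i => sum_comm
      simp only [e1]
      rw [sum_comm]
    rw [e]
    refine sum_congr rfl fun i _ => sum_congr rfl fun j _ => sum_congr rfl fun k _ => ?_
    rw [← pB_rot i j k]
  simp only [mul_add, sum_add_distrib]
  rw [h1, h2]; ring

/-- sums of the size differences over the missing blocks -/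
theorem sum_ratio (hμ : ∀ a, IsW (μ a)) (D1 : ℝ) (hD : ∑ b, |v b - 1 / 6| ≤ D1) :
    ∑ a, ∑ j, nee a j * (max (v j - v a) 0 * tt G μ a a j) ≤ 2 * D1 * mN G μ := by
  have h1 : ∀ a j, nee a j * (max (v j - v a) 0 * tt G μ a a j) ≤
      ∑ k, pB G μ a j k * max (v j - v a) 0 := by
    intro a j
    have hm : 0 ≤ max (v j - v a) 0 := le_max_right _ _
    rw [← sum_mul]
    rcases nee_cases a j with ⟨h, e⟩ | ⟨h, e⟩
    · rw [e, zero_mul]
      exact mul_nonneg (sum_nonneg fun k _ => pB_nonneg hμ _ _ _) hm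
    · rw [e, one_mul, mul_comm]
      exact mul_le_mul_of_nonneg_right (bb_le hμ a j h) hm
  have h2 : ∑ a, ∑ j, nee a j * (max (v j - v a) 0 * tt G μ a a j) ≤
      ∑ a, ∑ j, ∑ k, pB G μ a j k * max (v j - v a) 0 :=
    sum_le_sum fun a _ => sum_le_sum fun j _ => h1 a j
  have h3 := sum_cyc (G := G) (μ := μ) (fun a j => max (v j - v a) 0)
  have hd : ∀ i j, |v i - v j| ≤ D1 := by
    intro i j
    have := two_abs_le (fun b => v b - 1 / 6) D1 hD i j
    simpa using this
  have h4 : ∑ i, ∑ j, ∑ k, pB G μ i j k * (max (v j - v i) 0 + max (v k - v j) 0 +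
      max (v i - v k) 0) ≤ ∑ i, ∑ j, ∑ k, pB G μ i j k * D1 := by
    refine sum_le_sum fun i _ => sum_le_sum fun j _ => sum_le_sum fun k _ => ?_
    exact mul_le_mul_of_nonneg_left (cyc3 _ _ _ _ (hd i j) (hd j k) (hd i k))
      (pB_nonneg hμ _ _ _)
  rw [pB_sum_const] at h4
  rw [h3] at h4
  linarith

/-- DELTA: the deficiencies of the inner densities -/
theorem Dec.delta (D : Dec G w μ v X t) (c : V → Fin 6)
    (hc : ∀ a x, v a * μ a x = (w x - X x) * pin c a x) (ht : t ≤ rho) (vm D1 : ℝ)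
    (hvm : 0 < vm) (hv : ∀ a, vm ≤ v a) (hD : ∑ b, |v b - 1 / 6| ≤ D1)
    (J : Finset (Fin 6)) :
    ∑ a ∈ J, (eN G μ a - 3 * BN G μ a) ≤
      ((rho - t) + 3 * rho * xX X ^ 2) / vm ^ 3 + 6 * D1 * mN G μ / vm := by
  classical
  set z : Fin 6 → ℝ := fun a => eN G μ a - 3 * ∑ j, nee a j * (v j / v a * tt G μ a a j) with hz
  set J' := J.filter (fun a => 0 < z a) with hJ'
  have hε0 : 0 ≤ (rho - t) + 3 * rho * xX X ^ 2 := by
    have := two_sevenths_le_rho
    have h2 : 0 ≤ rho * xX X ^ 2 := mul_nonneg (by linarith) (sq_nonneg _)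
    linarith
  have h1 := D.repl c hc ht (fun a => decide (a ∈ J'))
  have h2 : ∑ a, ind (decide (a ∈ J')) * (v a ^ 3 * eN G μ a -
      3 * v a ^ 2 * ∑ j, nee a j * (v j * tt G μ a a j)) = ∑ a ∈ J', v a ^ 3 * z a := by
    rw [← sum_filter_add_sum_filter_not univ (fun a => a ∈ J')]
    have e1 : ∑ a ∈ univ.filter (fun a => ¬ a ∈ J'), ind (decide (a ∈ J')) *
        (v a ^ 3 * eN G μ a - 3 * v a ^ 2 * ∑ j, nee a j * (v j * tt G μ a a j)) = 0 := by
      refine sum_eq_zero fun a ha => ?_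
      have h := (mem_filter.1 ha).2
      unfold ind
      simp [h]
    have e2 : univ.filter (fun a => a ∈ J') = J' := by
      ext a; simp
    rw [e1, add_zero, e2]
    refine sum_congr rfl fun a ha => ?_
    have hva := D.hv a
    have e3 : ind (decide (a ∈ J')) = 1 := by
      unfold ind; simp [ha]
    rw [e3, one_mul]
    simp only [hz]
    have e4 : ∑ j, nee a j * (v j / v a * tt G μ a a j) =
        (∑ j, nee a j * (v j * tt G μ a a j)) / v a := by
      rw [sum_div]
      refine sum_congr rfl fun j _ => ?_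
      field_simp
    rw [e4]
    field_simp
  rw [h2] at h1
  have hvm3 : 0 < vm ^ 3 := pow_pos hvm 3
  have h3 : vm ^ 3 * ∑ a ∈ J', z a ≤ ∑ a ∈ J', v a ^ 3 * z a := by
    rw [mul_sum]
    refine sum_le_sum fun a ha => ?_
    have hza : 0 < z a := (mem_filter.1 ha).2
    exact mul_le_mul_of_nonneg_right (pow_le_pow_left₀ hvm.le (hv a) 3) hza.le
  have h4 : ∑ a ∈ J, z a ≤ ∑ a ∈ J', z a := by
    rw [← sum_filter_add_sum_filter_not J (fun a => 0 < z a)]
    have : ∑ a ∈ J.filter (fun a => ¬ 0 < z a), z a ≤ 0 :=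
      sum_nonpos fun a ha => not_lt.1 (mem_filter.1 ha).2
    linarith
  have h5 : ∑ a ∈ J, z a ≤ ((rho - t) + 3 * rho * xX X ^ 2) / vm ^ 3 := by
    rw [le_div_iff₀ hvm3]
    nlinarith
  have h6 : ∑ a ∈ J, (eN G μ a - 3 * BN G μ a) ≤ ∑ a ∈ J, z a +
      3 / vm * ∑ a, ∑ j, nee a j * (max (v j - v a) 0 * tt G μ a a j) := by
    have k1 : ∀ a, eN G μ a - 3 * BN G μ a ≤ z a +
        3 / vm * ∑ j, nee a j * (max (v j - v a) 0 * tt G μ a a j) := by
      intro a
      simp only [hz]
      unfold BN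
      have k2 : ∀ j, nee a j * (v j / v a * tt G μ a a j) - nee a j * tt G μ a a j ≤
          1 / vm * (nee a j * (max (v j - v a) 0 * tt G μ a a j)) := by
        intro j
        have hva := D.hv a
        have n0 := nee_nonneg a j
        have t0 := tt_nonneg (G := G) D.hμ a a j
        have k3 : v j / v a - 1 ≤ 1 / vm * max (v j - v a) 0 := by
          have e : v j / v a - 1 = (v j - v a) / v a := by field_simp
          rw [e]
          calc (v j - v a) / v a ≤ max (v j - v a) 0 / v a :=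
                div_le_div_of_nonneg_right (le_max_left _ _) hva.le
            _ ≤ max (v j - v a) 0 / vm :=
                div_le_div_of_nonneg_left (le_max_right _ _) hvm (hv a)
            _ = _ := by ring
        have k4 : 0 ≤ nee a j * tt G μ a a j := mul_nonneg n0 t0
        calc nee a j * (v j / v a * tt G μ a a j) - nee a j * tt G μ a a j =
            (v j / v a - 1) * (nee a j * tt G μ a a j) := by ring
          _ ≤ (1 / vm * max (v j - v a) 0) * (nee a j * tt G μ a a j) :=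
              mul_le_mul_of_nonneg_right k3 k4
          _ = _ := by ring
      have k5 := sum_le_sum (s := univ) fun j _ => k2 j
      rw [sum_sub_distrib, ← mul_sum] at k5
      have e : 3 / vm * ∑ j, nee a j * (max (v j - v a) 0 * tt G μ a a j) =
          3 * (1 / vm * ∑ j, nee a j * (max (v j - v a) 0 * tt G μ a a j)) := by ring
      rw [e]
      linarith
    have k6 := sum_le_sum (s := J) fun a _ => k1 a
    rw [sum_add_distrib, ← mul_sum] at k6
    have k7 : ∑ a ∈ J, ∑ j, nee a j * (max (v j - v a) 0 * tt G μ a a j) ≤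
        ∑ a, ∑ j, nee a j * (max (v j - v a) 0 * tt G μ a a j) :=
      sum_le_sum_of_subset_of_nonneg (subset_univ _) fun a _ _ =>
        sum_nonneg fun j _ => mul_nonneg (nee_nonneg _ _)
          (mul_nonneg (le_max_right _ _) (tt_nonneg D.hμ _ _ _))
    have k8 := mul_le_mul_of_nonneg_left k7 (div_nonneg (by norm_num : (0:ℝ) ≤ 3) hvm.le)
    linarith
  have h7 := sum_ratio (G := G) (v := v) D.hμ D1 hD
  have h8 := mul_le_mul_of_nonneg_left h7 (div_nonneg (by norm_num : (0:ℝ) ≤ 3) hvm.le)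
  have h9 : 3 / vm * (2 * D1 * mN G μ) = 6 * D1 * mN G μ / vm := by ring
  rw [h9] at h8
  linarith

end Delta2

end K4m
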