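import Mathlib
import Pool.Agent.Lib.MP_392c14_co.Acc.Pass2

/-!
# The garbage against the classes of its types

`FX` is the garbage minus the corresponding multiples of the classes; `nty` are the corrected sizes.
-/

set_option autoImplicit false

namespace K4m

open Finset

section Av

variable {V : Type} [Fintype V] {G : TG V} {w : V → ℝ} {μ : Fin 6 → V → ℝ} {v : Fin 6 → ℝ}
  {X : V → ℝ} {t : ℝ} {c : V → Fin 6}

/-- mass of the garbage of type `a` -/
noncomputable def xty (X : V → ℝ) (c : V → Fin 6) (a : Fin 6) : ℝ :=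
  ∑ y, X y * (if c y = a then 1 else 0)

/-- the garbage minus the classes of its types -/
noncomputable def FX (μ : Fin 6 → V → ℝ) (X : V → ℝ) (c : V → Fin 6) (y : V) : ℝ :=
  X y + (-1) * ∑ a, xty X c a * μ a y

/-- corrected sizes -/
noncomputable def nty (v : Fin 6 → ℝ) (X : V → ℝ) (c : V → Fin 6) (a : Fin 6) : ℝ :=
  xty X c a + v a - 1 / 6

/-- combination of the classes -/
noncomputable def NN (μ : Fin 6 → V → ℝ) (n : Fin 6 → ℝ) (y : V) : ℝ := ∑ a, n a * μ a y

theorem sum_xty_mul (f : Fin 6 → ℝ) : ∑ a, xty X c a * f a = ∑ y, X y * f (c y) := by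
  unfold xty
  simp only [sum_mul]
  rw [sum_comm]
  refine sum_congr rfl fun y _ => ?_
  rw [sum_eq_single (c y)]
  · rw [if_pos rfl, mul_one]
  · intro b _ hb
    rw [if_neg (fun h => hb h.symm)]; ring
  · intro h; exact absurd (mem_univ _) h

theorem sum_xty : ∑ a, xty X c a = xX X := by
  have h := sum_xty_mul (X := X) (c := c) (fun _ => 1)
  simp only [mul_one] at h
  exact h

theorem xty_nonneg (hX : ∀ x, 0 ≤ X x) (a : Fin 6) : 0 ≤ xty X c a :=
  sum_nonneg fun y _ => mul_nonneg (hX y) (by split_ifs <;> norm_num)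

theorem sum_FX (hμ : ∀ a, IsW (μ a)) : ∑ y, FX μ X c y = 0 := by
  unfold FX
  rw [sum_add_distrib, ← mul_sum, sum_comm]
  have : ∀ a, ∑ y, xty X c a * μ a y = xty X c a := by
    intro a; rw [← mul_sum, (hμ a).sum_eq, mul_one]
  rw [sum_congr rfl fun a _ => this a, sum_xty]
  unfold xX; ring

theorem sum_nty (D : Dec G w μ v X t) : ∑ a, nty v X c a = 0 := by
  unfold nty
  rw [sum_sub_distrib, sum_add_distrib, sum_xty, sum_const, card_univ, Fintype.card_fin]
  have h := D.sum_v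
  simp only [nsmul_eq_mul]
  unfold xX
  push_cast
  linarith

/-- the vector of the types applied to a form -/
theorem tri_FX (f g : V → ℝ) : tri G (FX μ X c) f g =
    ∑ y, X y * (kk G y f g - tri G (μ (c y)) f g) := by
  have h1 : FX μ X c = fun y => X y + (fun y => (-1) * (fun y => ∑ a, xty X c a * μ a y) y) y := rfl
  have h2 := tri_pl1 G X (fun y => (-1) * (fun y => ∑ a, xty X c a * μ a y) y) f g
  have h3 := tri_smul1 G (fun y => ∑ a, xty X c a * μ a y) f g (-1)
  have h4 := tri_sum1 G univ (xty X c) μ f g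
  have h5 := sum_xty_mul (X := X) (c := c) (fun a => tri G (μ a) f g)
  rw [h1, h2, h3, h4, h5, tri_eq_kk]
  simp only [mul_sub, sum_sub_distrib]
  ring

theorem Dp_FX (b : Fin 6) : Dp G μ (FX μ X c) b = ∑ y, X y * Ux G μ (c y) y b := by
  unfold Dp Ux
  have : ∀ a, tri G (FX μ X c) (μ b) (μ a) =
      ∑ y, X y * (kk G y (μ b) (μ a) - tt G μ (c y) b a) := fun a => tri_FX _ _
  rw [sum_congr rfl fun a _ => this a, sum_comm]
  exact sum_congr rfl fun y _ => by rw [mul_sum]

theorem Dec.w_FX (D : Dec G w μ v X t) : w = fun y => ws μ y + FX μ X c y +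
    NN μ (nty v X c) y := by
  funext y
  rw [D.dec y]
  unfold ws FX NN nty
  have : ∑ a, (xty X c a + v a - 1 / 6) * μ a y = ∑ a, xty X c a * μ a y + ∑ a, v a * μ a y -
      ∑ a, 1 / 6 * μ a y := by
    rw [← sum_add_distrib, ← sum_sub_distrib]
    exact sum_congr rfl fun a _ => by ring
  rw [this]; ring

theorem tri_NN (F f : V → ℝ) (n : Fin 6 → ℝ) :
    tri G F f (NN μ n) = ∑ a, n a * tri G F f (μ a) := by
  have : NN μ n = fun y => ∑ a, n a * μ a y := rfl
  rw [this, tri_sum3]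

/-- the quadratic form in the combination of the classes -/
theorem tri_NN_NN (F : V → ℝ) (n : Fin 6 → ℝ) :
    tri G F (NN μ n) (NN μ n) = ∑ a, ∑ b, n a * n b * tri G F (μ a) (μ b) := by
  rw [tri_NN]
  have : ∀ a, tri G F (NN μ n) (μ a) = ∑ b, n b * tri G F (μ a) (μ b) := by
    intro a; rw [tri_swap23, tri_NN]
  refine sum_congr rfl fun a _ => ?_
  rw [this a, mul_sum]
  exact sum_congr rfl fun b _ => by ring

/-- the exact identity of the garbage against the classes of its types -/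
theorem Dec.identX (D : Dec G w μ v X t) :
    -∑ b, Dp G μ (FX μ X c) b = 72 * tri G (FX μ X c) (FX μ X c) w +
      12 * ∑ a, nty v X c a * Dp G μ (FX μ X c) a +
      36 * ∑ a, ∑ b, nty v X c a * nty v X c b * tri G (FX μ X c) (μ a) (μ b) -
      36 * tri G (FX μ X c) (FX μ X c) (FX μ X c) := by
  set F := FX μ X c with hF
  set N := NN μ (nty v X c) with hN
  have h0 := D.tri_deg F (sum_FX D.hμ)
  have hw : w = fun y => ws μ y + F y + N y := D.w_FX
  have h1 : tri G F w w = tri G F (ws μ) (ws μ) + tri G F F F + tri G F N N +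
      2 * tri G F (ws μ) F + 2 * tri G F (ws μ) N + 2 * tri G F F N := by
    rw [hw, quad3]
  have h2 : tri G F F w = tri G F F (ws μ) + tri G F F F + tri G F F N := by
    rw [hw]
    have e : (fun y => ws μ y + F y + N y) = fun y => (fun y => ws μ y + F y) y + N y := rfl
    rw [e, tri_pl3, tri_pl3]
  have h3 := tri_ws_ws (G := G) (μ := μ) F
  have h4 : tri G F (ws μ) N = 1 / 6 * ∑ a, nty v X c a * Dp G μ F a := by
    rw [hN, tri_NN, mul_sum]
    refine sum_congr rfl fun b _ => ?_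
    rw [tri_swap23, tri_ws_b]; ring
  have h5 := tri_swap23 G F F (ws μ)
  have h6 := tri_NN_NN (G := G) (μ := μ) F (nty v X c)
  rw [← hN] at h6
  rw [h1] at h0
  rw [← h6]
  linarith

/-- quadratic terms at one vertex -/
theorem kk_FF (hμ : ∀ a, IsW (μ a)) (hX : ∀ x, 0 ≤ X x) (p : V → ℝ) (hp : IsW p) :
    |tri G p (FX μ X c) (FX μ X c)| ≤ 2 * xX X ^ 2 := by
  obtain ⟨M, hM⟩ : ∃ M : V → ℝ, M = fun y => ∑ a, xty X c a * μ a y := ⟨_, rfl⟩
  have hM0 : ∀ y, 0 ≤ M y := by
    intro y; rw [hM]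
    exact sum_nonneg fun a _ => mul_nonneg (xty_nonneg hX a) ((hμ a).nonneg y)
  have hMs : ∑ y, M y = xX X := by
    rw [hM, sum_comm]
    have : ∀ a, ∑ y, xty X c a * μ a y = xty X c a := by
      intro a; rw [← mul_sum, (hμ a).sum_eq, mul_one]
    rw [sum_congr rfl fun a _ => this a, sum_xty]
  have hF : FX μ X c = fun y => X y + (-1) * M y := by rw [hM]; rfl
  have e : tri G p (FX μ X c) (FX μ X c) = tri G p X X - 2 * tri G p X M + tri G p M M := by
    rw [hF, tri_pl2, tri_pl3 G p X X, tri_pl3 G p _ X, tri_smul3, tri_smul2, tri_smul2,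
      tri_smul3, tri_swap23 G p M X]
    ring
  have m1 := tri_le_mass G p X X hp.nonneg hX hX
  have m2 := tri_le_mass G p X M hp.nonneg hX hM0
  have m3 := tri_le_mass G p M M hp.nonneg hM0 hM0
  have z1 := tri_W_nonneg (G := G) p X X hp.nonneg hX hX
  have z2 := tri_W_nonneg (G := G) p X M hp.nonneg hX hM0
  have z3 := tri_W_nonneg (G := G) p M M hp.nonneg hM0 hM0
  have hX' : ∑ x, X x = xX X := rfl
  rw [hp.sum_eq, hX'] at m1
  rw [hp.sum_eq, hX', hMs] at m2
  rw [hp.sum_eq, hMs] at m3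
  rw [e, abs_le]
  constructor <;> nlinarith

theorem FXn (D : Dec G w μ v X t) (a b : Fin 6) : |tri G (FX μ X c) (μ a) (μ b)| ≤ xX X := by
  rw [tri_FX]
  refine (abs_sum_le_sum_abs _ _).trans ?_
  unfold xX
  refine sum_le_sum fun y _ => ?_
  rw [abs_mul, abs_of_nonneg (D.hX y)]
  have a1 := kk_nonneg G y _ _ (D.hμ a).nonneg (D.hμ b).nonneg
  have a2 := kk_le_one (G := G) D.hμ y a b
  have a3 := tt_nonneg (G := G) D.hμ (c y) a b
  have a4 := tt_le_one (G := G) D.hμ (c y) a b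
  unfold tt at a3 a4
  have : |kk G y (μ a) (μ b) - tri G (μ (c y)) (μ a) (μ b)| ≤ 1 := by
    rw [abs_le]; constructor <;> linarith
  calc X y * |kk G y (μ a) (μ b) - tri G (μ (c y)) (μ a) (μ b)| ≤ X y * 1 :=
        mul_le_mul_of_nonneg_left this (D.hX y)
    _ = X y := mul_one _

theorem FXc (D : Dec G w μ v X t) :
    -(4 * xX X ^ 3) ≤ tri G (FX μ X c) (FX μ X c) (FX μ X c) := by
  rw [tri_FX]
  have h : ∀ y, X y * (-(4 * xX X ^ 2)) ≤
      X y * (kk G y (FX μ X c) (FX μ X c) - tri G (μ (c y)) (FX μ X c) (FX μ X c)) := by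
    intro y
    refine mul_le_mul_of_nonneg_left ?_ (D.hX y)
    have h1 := kk_FF (G := G) (c := c) D.hμ D.hX (dl y) (isW_dl y)
    have h2 := kk_FF (G := G) (c := c) D.hμ D.hX (μ (c y)) (D.hμ _)
    rw [tri_dl] at h1
    have h1' := abs_le.1 h1
    have h2' := abs_le.1 h2
    linarith [h1'.1, h2'.2]
  have h2 := sum_le_sum (s := univ) fun y _ => h y
  rw [← sum_mul] at h2
  have h3 : (∑ y, X y) * (-(4 * xX X ^ 2)) = -(4 * xX X ^ 3) := by unfold xX; ring
  linarith

/-- **Averaged Stage 2 over the garbage.** -/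
theorem Dec.avg (D : Dec G w μ v X t) {Kin Kout c0 KN κ ε b0 A : ℝ}
    (hS2 : ∀ y, c0 * hh G μ y (c y) + (Rx G μ y - kk G y (μ (c y)) (μ (c y))) ≤
      10 + Kin * MN G μ (c y) + Kout * (mN G μ - MN G μ (c y)))
    (hν : ∀ y, kk G y (μ (c y)) (μ (c y)) ≤
      tt G μ (c y) (c y) (c y) + 2 * (1 + κ) * BN G μ (c y) + ε)
    (κ0 : 0 ≤ κ) (hK : Kout ≤ Kin + 2)
    (hN : ∀ S : Finset (Fin 6), 12 * ∑ a ∈ S, nty v X c a ≤ KN)
    (hA : ∑ a, |nty v X c a| ≤ A)
    (hB : ∀ y a b, Ux G μ (c y) y a - Ux G μ (c y) y b ≤ 1 / 2 * hh G μ y (c y) + b0) :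
    c0 * ∑ y, X y * hh G μ y (c y) ≤
      KN * (1 / 2 * ∑ y, X y * hh G μ y (c y) + b0 * xX X) + 36 * xX X * A ^ 2 +
      144 * xX X ^ 3 + xX X * ((Kin + 2 + 4 * κ) * mN G μ + ε) := by
  have hμ := D.hμ
  set Hx := ∑ y, X y * hh G μ y (c y) with hHx
  set F := FX μ X c with hF
  have h1 := D.identX (c := c)
  have h2 := D.hcnd F (sum_FX hμ)
  have h3 := FXc (c := c) D
  have x0 := D.xX_nonneg
  have h4 : ∑ a, ∑ b, nty v X c a * nty v X c b * tri G F (μ a) (μ b) ≤ xX X * A ^ 2 := by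
    have e1 : ∑ a, ∑ b, nty v X c a * nty v X c b * tri G F (μ a) (μ b) ≤
        ∑ a, ∑ b, |nty v X c a| * |nty v X c b| * xX X := by
      refine sum_le_sum fun a _ => sum_le_sum fun b _ => ?_
      refine (le_abs_self _).trans ?_
      rw [abs_mul, abs_mul]
      exact mul_le_mul_of_nonneg_left (FXn (c := c) D a b) (by positivity)
    have e2 : ∑ a, ∑ b, |nty v X c a| * |nty v X c b| * xX X =
        (∑ a, |nty v X c a|) ^ 2 * xX X := by
      rw [sq, sum_mul_sum, sum_mul]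
      exact sum_congr rfl fun a _ => by rw [sum_mul]
    have e3 : (∑ a, |nty v X c a|) ^ 2 ≤ A ^ 2 :=
      pow_le_pow_left₀ (sum_nonneg fun a _ => abs_nonneg _) hA 2
    have e4 := mul_le_mul_of_nonneg_right e3 x0
    linarith
  have h5 : 12 * ∑ a, nty v X c a * Dp G μ F a ≤
      KN * (1 / 2 * Hx + b0 * xX X) := by
    refine sig_le (nty v X c) (Dp G μ F) KN _ (sum_nty D) hN fun a b => ?_
    rw [hF, Dp_FX, Dp_FX, ← sum_sub_distrib, hHx, mul_sum]
    have e : b0 * xX X = ∑ y, X y * b0 := by unfold xX; rw [← sum_mul]; ring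
    rw [e, ← sum_add_distrib]
    refine sum_le_sum fun y _ => ?_
    have := mul_le_mul_of_nonneg_left (hB y a b) (D.hX y)
    linarith
  -- the stage inequality, integrated
  have h6 : ∀ y, X y * (c0 * hh G μ y (c y)) ≤ X y * (-∑ b, Ux G μ (c y) y b) +
      X y * ((Kin + 2 + 4 * κ) * mN G μ + ε) := by
    intro y
    rw [← mul_add]
    refine mul_le_mul_of_nonneg_left ?_ (D.hX y)
    have s1 := hS2 y
    have s2 := hν y
    have s3 := sum_Ux G μ (c y) y
    have s4 := YN_eq (G := G) (μ := μ) (c y)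
    have hM := MN_le (G := G) hμ (c y)
    have hM0 := MN_nonneg (G := G) hμ (c y)
    have hBN := BN_le (G := G) hμ (c y)
    have hBO0 := BO_nonneg (G := G) hμ (c y)
    have hGN0 := GN_nonneg (G := G) hμ (c y)
    have heN : eN G μ (c y) = rho - tt G μ (c y) (c y) (c y) := rfl
    have kB : κ * BN G μ (c y) ≤ κ * (2 * mN G μ) := mul_le_mul_of_nonneg_left (by linarith) κ0
    have kM : Kout * (mN G μ - MN G μ (c y)) ≤ (Kin + 2) * (mN G μ - MN G μ (c y)) :=
      mul_le_mul_of_nonneg_right hK (by linarith)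
    linarith
  have h7 := sum_le_sum (s := univ) fun y _ => h6 y
  have h8 : ∑ y, X y * (c0 * hh G μ y (c y)) = c0 * Hx := by
    rw [hHx, mul_sum]; exact sum_congr rfl fun y _ => by ring
  have h9 : ∑ y, X y * (-∑ b, Ux G μ (c y) y b) = -∑ b, Dp G μ F b := by
    have : ∑ b, Dp G μ F b = ∑ y, X y * ∑ b, Ux G μ (c y) y b := by
      rw [hF, sum_congr rfl fun b _ => Dp_FX (G := G) (μ := μ) (X := X) (c := c) b, sum_comm]
      exact sum_congr rfl fun y _ => by rw [mul_sum]
    rw [this, ← sum_neg_distrib]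
    exact sum_congr rfl fun y _ => by ring
  have h10 : ∑ y, X y * ((Kin + 2 + 4 * κ) * mN G μ + ε) =
      xX X * ((Kin + 2 + 4 * κ) * mN G μ + ε) := by unfold xX; rw [← sum_mul]
  rw [h8, sum_add_distrib, h9, h10] at h7
  linarith

end Av

end K4m
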