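import Mathlib
import Pool.Agent.Lib.MP_392c14_co.Acc.RL

/-!
# Upper bound for the quadratic form of the test vector
-/

set_option autoImplicit false

namespace K4m

open Finset

/-- linear form in the sizes -/
theorem lin_s (s k : Fin 6 → ℝ) (hk0 : ∀ b, 0 ≤ k b) (hk1 : ∀ b, k b ≤ 1) (ξ D1 x : ℝ)
    (hs : ∑ b, s b = -ξ) (hD : ∑ b, |s b| = D1) (hx0 : 0 ≤ x) (hx1 : x ≤ ξ) :
    |∑ b, s b * k b + x| ≤ (D1 + ξ) / 2 := by
  have h1 : ∑ b, s b * k b ≤ ∑ b, (|s b| + s b) / 2 := by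
    refine sum_le_sum fun b _ => ?_
    rcases le_total 0 (s b) with h | h
    · rw [abs_of_nonneg h]
      have := mul_le_mul_of_nonneg_left (hk1 b) h
      linarith
    · rw [abs_of_nonpos h]
      have := mul_nonpos_of_nonpos_of_nonneg h (hk0 b)
      linarith
  have h2 : ∑ b, (s b - |s b|) / 2 ≤ ∑ b, s b * k b := by
    refine sum_le_sum fun b _ => ?_
    rcases le_total 0 (s b) with h | h
    · rw [abs_of_nonneg h]
      have := mul_nonneg h (hk0 b)
      linarith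
    · rw [abs_of_nonpos h]
      have := mul_le_mul_of_nonpos_left (hk1 b) h
      linarith
  rw [← sum_div, sum_add_distrib, hD, hs] at h1
  rw [← sum_div, sum_sub_distrib, hD, hs] at h2
  rw [abs_le]
  constructor <;> linarith

/-- the finite dimensional inequality -/
theorem quad_n (n P g : Fin 6 → ℝ) (E : Fin 6 → Fin 6 → ℝ) (hE : ∀ a b, E a b = E b a)
    (R : ℝ) (hP : ∀ a, P a = R / 6 - 12 / 7 * n a) (hn0 : ∑ a, n a = 0) (e : ℝ)
    (he : ∀ a b, |E a b| ≤ e) (he6 : 42 * e ≤ 1) :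
    2 * ∑ a, (1 / 6 + n a) * (P a / 6 + g a) -
      ∑ a, ∑ b, (1 / 6 + n a) * (1 / 6 + n b) *
        (1 / 3 - 2 / 7 * (if a = b then 1 else 0) + E a b) ≤
      2 / 7 + (R - 72 / 7) / 18 + (1 / 3 * ∑ a, g a - 1 / 36 * ∑ a, ∑ b, E a b +
        7 * ∑ a, (g a - 1 / 6 * ∑ b, E a b) ^ 2) := by
  obtain ⟨N2, hN2⟩ : ∃ N2, N2 = ∑ a, n a ^ 2 := ⟨_, rfl⟩
  have N20 : 0 ≤ N2 := by rw [hN2]; exact sum_nonneg fun a _ => sq_nonneg _
  have hc : ∀ x : ℝ, ∑ _a : Fin 6, x = 6 * x := by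
    intro x
    rw [sum_const, card_univ, Fintype.card_fin]
    simp only [nsmul_eq_mul]; push_cast; ring
  have e1 : 2 * ∑ a, (1 / 6 + n a) * (P a / 6 + g a) = R / 18 - 4 / 7 * N2 + 1 / 3 * ∑ a, g a +
      2 * ∑ a, n a * g a := by
    have : ∀ a, (1 / 6 + n a) * (P a / 6 + g a) = R / 216 + (R / 36 - 1 / 21) * n a -
        2 / 7 * n a ^ 2 + 1 / 6 * g a + n a * g a := by
      intro a; rw [hP a]; ring
    rw [sum_congr rfl fun a _ => this a]
    rw [sum_add_distrib, sum_add_distrib, sum_sub_distrib, sum_add_distrib, ← mul_sum, ← mul_sum,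
      ← mul_sum, hn0, hc, ← hN2]
    ring
  have e2 : ∑ a, ∑ b, (1 / 6 + n a) * (1 / 6 + n b) *
      (1 / 3 - 2 / 7 * (if a = b then (1 : ℝ) else 0) + E a b) =
      2 / 7 - 2 / 7 * N2 + 1 / 36 * ∑ a, ∑ b, E a b + 1 / 3 * ∑ a, n a * ∑ b, E a b +
        ∑ a, ∑ b, n a * n b * E a b := by
    have h1 : ∀ a, ∑ b, (1 / 6 + n a) * (1 / 6 + n b) *
        (1 / 3 - 2 / 7 * (if a = b then (1 : ℝ) else 0) + E a b) =
        (1 / 3 * (1 / 6 + n a) - 2 / 7 * (1 / 6 + n a) ^ 2) + 1 / 36 * ∑ b, E a b +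
        1 / 6 * (n a * ∑ b, E a b) + 1 / 6 * ∑ b, n b * E a b + ∑ b, n a * n b * E a b := by
      intro a
      have h2 : ∀ b, (1 / 6 + n a) * (1 / 6 + n b) *
        (1 / 3 - 2 / 7 * (if a = b then (1 : ℝ) else 0) + E a b) =
        (1 / 18 * (1 / 6 + n a) + (1 / 3 * (1 / 6 + n a)) * n b) -
        (if a = b then 2 / 7 * (1 / 6 + n a) * (1 / 6 + n b) else 0) +
        1 / 36 * E a b + (1 / 6 * n a) * E a b + 1 / 6 * (n b * E a b) + n a * n b * E a b := by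
        intro b
        by_cases h : a = b
        · rw [if_pos h, if_pos h]; ring
        · rw [if_neg h, if_neg h]; ring
      rw [sum_congr rfl fun b _ => h2 b]
      rw [sum_add_distrib, sum_add_distrib, sum_add_distrib, sum_add_distrib, sum_sub_distrib,
        sum_add_distrib, ← mul_sum, ← mul_sum, ← mul_sum, ← mul_sum, ← mul_sum, sum_ite_eq,
        if_pos (mem_univ _), hn0, hc]
      ring
    rw [sum_congr rfl fun a _ => h1 a]
    have h3 : ∑ a, (1 / 3 * (1 / 6 + n a) - 2 / 7 * (1 / 6 + n a) ^ 2) =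
        2 / 7 - 2 / 7 * N2 := by
      have : ∀ a, 1 / 3 * (1 / 6 + n a) - 2 / 7 * (1 / 6 + n a) ^ 2 =
          1 / 21 + 5 / 21 * n a - 2 / 7 * n a ^ 2 := by intro a; ring
      rw [sum_congr rfl fun a _ => this a]
      rw [sum_sub_distrib, sum_add_distrib, ← mul_sum, ← mul_sum, hn0, hc, ← hN2]
      ring
    have h4 : ∑ a, ∑ b, n b * E a b = ∑ a, n a * ∑ b, E a b := by
      rw [sum_comm]
      refine sum_congr rfl fun b _ => ?_
      rw [mul_sum]
      exact sum_congr rfl fun a _ => by rw [hE]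
    rw [sum_add_distrib, sum_add_distrib, sum_add_distrib, sum_add_distrib, h3, ← mul_sum,
      ← mul_sum, ← mul_sum, h4]
    ring
  have e3 : -(∑ a, ∑ b, n a * n b * E a b) ≤ 1 / 7 * N2 := by
    have h1 : |∑ a, ∑ b, n a * n b * E a b| ≤ e * (6 * N2) := by
      have h2 : |∑ a, ∑ b, n a * n b * E a b| ≤ ∑ a, ∑ b, |n a| * |n b| * e := by
        refine (abs_sum_le_sum_abs _ _).trans (sum_le_sum fun a _ => ?_)
        refine (abs_sum_le_sum_abs _ _).trans (sum_le_sum fun b _ => ?_)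
        rw [abs_mul, abs_mul]
        exact mul_le_mul_of_nonneg_left (he a b) (mul_nonneg (abs_nonneg _) (abs_nonneg _))
      have h3 : ∑ a, ∑ b, |n a| * |n b| * e ≤
          ∑ a : Fin 6, ∑ b : Fin 6, (e / 2 * n a ^ 2 + e / 2 * n b ^ 2) := by
        have e0 : 0 ≤ e := (abs_nonneg _).trans (he 0 0)
        refine sum_le_sum fun a _ => sum_le_sum fun b _ => ?_
        have : |n a| * |n b| ≤ (n a ^ 2 + n b ^ 2) / 2 := by
          nlinarith [sq_abs (n a), sq_abs (n b), sq_nonneg (|n a| - |n b|)]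
        calc |n a| * |n b| * e ≤ (n a ^ 2 + n b ^ 2) / 2 * e := mul_le_mul_of_nonneg_right this e0
          _ = _ := by ring
      have h4 : ∑ a : Fin 6, ∑ b : Fin 6, (e / 2 * n a ^ 2 + e / 2 * n b ^ 2) = e * (6 * N2) := by
        have : ∀ a : Fin 6, ∑ b : Fin 6, (e / 2 * n a ^ 2 + e / 2 * n b ^ 2) = 3 * e * n a ^ 2 +
            e / 2 * N2 := by
          intro a
          rw [sum_add_distrib, ← mul_sum, ← mul_sum, hc, ← hN2]
          ring
        rw [sum_congr rfl fun a _ => this a]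
        rw [sum_add_distrib, ← mul_sum, hc, ← hN2]
        ring
      linarith
    have h5 := (abs_le.1 h1).1
    nlinarith
  have e4 : 2 * ∑ a, n a * (g a - 1 / 6 * ∑ b, E a b) ≤ 1 / 7 * N2 +
      7 * ∑ a, (g a - 1 / 6 * ∑ b, E a b) ^ 2 := by
    rw [hN2, mul_sum, mul_sum, mul_sum, ← sum_add_distrib]
    refine sum_le_sum fun a _ => ?_
    nlinarith [sq_nonneg (n a - 7 * (g a - 1 / 6 * ∑ b, E a b))]
  have e5 : 2 * ∑ a, n a * (g a - 1 / 6 * ∑ b, E a b) = 2 * ∑ a, n a * g a -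
      1 / 3 * ∑ a, n a * ∑ b, E a b := by
    have : ∀ a, n a * (g a - 1 / 6 * ∑ b, E a b) = n a * g a - 1 / 6 * (n a * ∑ b, E a b) := by
      intro a; ring
    rw [sum_congr rfl fun a _ => this a]
    rw [sum_sub_distrib, ← mul_sum]; ring
  rw [e1, e2]
  linarith

theorem quad_m (P g : Fin 6 → ℝ) (E : Fin 6 → Fin 6 → ℝ) (hE : ∀ a b, E a b = E b a)
    (R : ℝ) (hR : ∑ a, P a = R) (e : ℝ) (he : ∀ a b, |E a b| ≤ e) (he6 : 42 * e ≤ 1) :
    2 * ∑ a, (1 / 6 + 7 / 12 * (R / 6 - P a)) * (P a / 6 + g a) -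
      ∑ a, ∑ b, (1 / 6 + 7 / 12 * (R / 6 - P a)) * (1 / 6 + 7 / 12 * (R / 6 - P b)) *
        (1 / 3 - 2 / 7 * (if a = b then 1 else 0) + E a b) ≤
      2 / 7 + (R - 72 / 7) / 18 + (1 / 3 * ∑ a, g a - 1 / 36 * ∑ a, ∑ b, E a b +
        7 * ∑ a, (g a - 1 / 6 * ∑ b, E a b) ^ 2) := by
  refine quad_n (fun a => 7 / 12 * (R / 6 - P a)) P g E hE R (fun a => by ring) ?_ e he he6
  rw [← mul_sum, sum_sub_distrib, hR, sum_const, card_univ, Fintype.card_fin]
  simp only [nsmul_eq_mul]; push_cast; ring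

section L4s

variable {V : Type} [Fintype V] {G : TG V} {w : V → ℝ} {μ : Fin 6 → V → ℝ} {v : Fin 6 → ℝ}
  {X : V → ℝ} {t : ℝ}

theorem Dec.tri_w_eq (D : Dec G w μ v X t) (p : V → ℝ) (a : Fin 6) :
    tri G p (μ a) w = Dp G μ p a / 6 +
      (∑ b, (v b - 1 / 6) * tri G p (μ a) (μ b) + tri G p (μ a) X) := by
  have h := D.tri_w p (μ a)
  rw [h]
  unfold Dp
  have : ∑ b, v b * tri G p (μ a) (μ b) = (∑ c, tri G p (μ a) (μ c)) / 6 +
      ∑ b, (v b - 1 / 6) * tri G p (μ a) (μ b) := by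
    rw [sum_div, ← sum_add_distrib]
    exact sum_congr rfl fun b _ => by ring
  rw [this]; ring

theorem Dec.g_abs (D : Dec G w μ v X t) (p : V → ℝ) (hp : IsW p) (D1 : ℝ)
    (hD : ∑ b, |v b - 1 / 6| = D1) (a : Fin 6) :
    |∑ b, (v b - 1 / 6) * tri G p (μ a) (μ b) + tri G p (μ a) X| ≤ (D1 + xX X) / 2 := by
  refine lin_s _ _ (fun b => tri_W_nonneg p _ _ hp.nonneg (D.hμ a).nonneg (D.hμ b).nonneg)
    (fun b => tri_W_le_one p D.hμ hp a b) (xX X) D1 _ D.sum_s hD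
    (tri_W_nonneg p _ _ hp.nonneg (D.hμ a).nonneg D.hX) ?_
  have := tri_le_mass G p (μ a) X hp.nonneg (D.hμ a).nonneg D.hX
  rw [hp.sum_eq, (D.hμ a).sum_eq, one_mul, one_mul] at this
  exact this

/-- L4 -/
theorem Dec.L4 (D : Dec G w μ v X t) (p : V → ℝ) (hp : IsW p) (D1 H r y0 : ℝ)
    (hD : ∑ b, |v b - 1 / 6| = D1) (hH : (D1 + xX X) / 2 ≤ H) (hr : ∀ a b, |Rp G μ a b| ≤ r)
    (hy : ∀ a, |∑ b, Rp G μ a b| ≤ y0) (he : 42 * (H + r / 6) ≤ 1) :
    -tri G (FF G μ p) (FF G μ p) w ≤ 2 / 7 + (RR G μ p - 72 / 7) / 18 +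
      (3 * H + y0 / 36 + 42 * (2 * H + y0 / 36) ^ 2) := by
  set g : Fin 6 → ℝ := fun a => ∑ b, (v b - 1 / 6) * tri G p (μ a) (μ b) + tri G p (μ a) X with hg
  set g2 : Fin 6 → Fin 6 → ℝ := fun a b =>
    ∑ c, (v c - 1 / 6) * tri G (μ a) (μ b) (μ c) + tri G (μ a) (μ b) X with hg2
  set E : Fin 6 → Fin 6 → ℝ := fun a b => Rp G μ a b / 6 + g2 a b with hEd
  have gH : ∀ a, |g a| ≤ H := fun a => (D.g_abs p hp D1 hD a).trans hH
  have g2H : ∀ a b, |g2 a b| ≤ H := fun a b => (D.g_abs (μ a) (D.hμ a) D1 hD b).trans hH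
  have H0 : 0 ≤ H := (abs_nonneg _).trans (gH 0)
  have y00 : 0 ≤ y0 := (abs_nonneg _).trans (hy 0)
  have hEs : ∀ a b, E a b = E b a := by
    intro a b
    simp only [hEd, hg2]
    rw [Rp_swap b a, tri_swap12 G (μ a) (μ b) X]
    congr 2
    exact sum_congr rfl fun c _ => by rw [tri_swap12 G (μ a) (μ b) (μ c)]
  have hEe : ∀ a b, |E a b| ≤ H + r / 6 := by
    intro a b
    have h1 := abs_le.1 (hr a b)
    have h2 := abs_le.1 (g2H a b)
    simp only [hEd]
    rw [abs_le]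
    constructor <;> linarith
  have main := quad_m (Dp G μ p) g E hEs (RR G μ p) rfl (H + r / 6) hEe he
  -- expansion of the quadratic form
  have hF : tri G (FF G μ p) (FF G μ p) w = tri G p p w - 2 * ∑ a, mm G μ p a * tri G p (μ a) w +
      ∑ a, ∑ b, mm G μ p a * mm G μ p b * tri G (μ a) (μ b) w := by
    rw [tri_FF]
    have h1 : ∀ q : V → ℝ, tri G q (FF G μ p) w = tri G q p w -
        ∑ b, mm G μ p b * tri G q (μ b) w := by
      intro q
      rw [tri_swap12, tri_FF, tri_swap12 G p q]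
      congr 1
      exact sum_congr rfl fun b _ => by rw [tri_swap12 G (μ b) q]
    simp only [h1]
    have h2 : ∑ a, mm G μ p a * (tri G (μ a) p w - ∑ b, mm G μ p b * tri G (μ a) (μ b) w) =
        ∑ a, mm G μ p a * tri G p (μ a) w -
        ∑ a, ∑ b, mm G μ p a * mm G μ p b * tri G (μ a) (μ b) w := by
      rw [← sum_sub_distrib]
      refine sum_congr rfl fun a _ => ?_
      rw [mul_sub, mul_sum, tri_swap12 G (μ a) p]
      congr 1
      exact sum_congr rfl fun b _ => by ring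
    rw [h2]; ring
  have hpp : 0 ≤ tri G p p w := tri_W_nonneg p p w hp.nonneg hp.nonneg D.hw.nonneg
  have hA : ∀ a, tri G p (μ a) w = Dp G μ p a / 6 + g a := fun a => D.tri_w_eq p a
  have hB : ∀ a b, tri G (μ a) (μ b) w = 1 / 3 - 2 / 7 * (if a = b then 1 else 0) + E a b := by
    intro a b
    rw [D.tri_w_eq (μ a) b, Dp_mu]
    simp only [hEd, hg2]
    ring
  rw [hF]
  simp only [hA, hB]
  have e1 : ∑ a, mm G μ p a * (Dp G μ p a / 6 + g a) =
      ∑ a, (1 / 6 + 7 / 12 * (RR G μ p / 6 - Dp G μ p a)) * (Dp G μ p a / 6 + g a) := rfl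
  have e2 : ∑ a, ∑ b, mm G μ p a * mm G μ p b * (1 / 3 - 2 / 7 * (if a = b then 1 else 0) +
      E a b) = ∑ a, ∑ b, (1 / 6 + 7 / 12 * (RR G μ p / 6 - Dp G μ p a)) *
      (1 / 6 + 7 / 12 * (RR G μ p / 6 - Dp G μ p b)) *
        (1 / 3 - 2 / 7 * (if a = b then 1 else 0) + E a b) := rfl
  rw [e1, e2]
  -- numerical bounds
  have c1 : ∑ a, g a ≤ 6 * H := by
    have : ∑ a, g a ≤ ∑ a : Fin 6, H := sum_le_sum fun a _ => (abs_le.1 (gH a)).2
    rw [sum_const, card_univ, Fintype.card_fin] at this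
    simp only [nsmul_eq_mul] at this
    push_cast at this
    linarith
  have c2 : ∀ a, |∑ b, E a b| ≤ y0 / 6 + 6 * H := by
    intro a
    have h1 : ∑ b, E a b = (∑ b, Rp G μ a b) / 6 + ∑ b, g2 a b := by
      simp only [hEd]
      rw [sum_add_distrib, sum_div]
    have h2 : |∑ b, g2 a b| ≤ 6 * H := by
      refine (abs_sum_le_sum_abs _ _).trans ?_
      have : ∑ b, |g2 a b| ≤ ∑ b : Fin 6, H := sum_le_sum fun b _ => g2H a b
      rw [sum_const, card_univ, Fintype.card_fin] at this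
      simp only [nsmul_eq_mul] at this
      push_cast at this
      linarith
    have h3 := abs_le.1 (hy a)
    have h4 := abs_le.1 h2
    rw [h1, abs_le]
    constructor <;> linarith
  have c3 : -(∑ a, ∑ b, E a b) ≤ y0 + 36 * H := by
    have : ∑ a, -(∑ b, E a b) ≤ ∑ a : Fin 6, (y0 / 6 + 6 * H) :=
      sum_le_sum fun a _ => by have := (abs_le.1 (c2 a)).1; linarith
    rw [sum_const, card_univ, Fintype.card_fin, sum_neg_distrib] at this
    simp only [nsmul_eq_mul] at this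
    push_cast at this
    linarith
  have c4 : ∑ a, (g a - 1 / 6 * ∑ b, E a b) ^ 2 ≤ 6 * (2 * H + y0 / 36) ^ 2 := by
    have : ∑ a, (g a - 1 / 6 * ∑ b, E a b) ^ 2 ≤ ∑ a : Fin 6, (2 * H + y0 / 36) ^ 2 := by
      refine sum_le_sum fun a _ => ?_
      have h1 := abs_le.1 (gH a)
      have h2 := abs_le.1 (c2 a)
      have h3 : |g a - 1 / 6 * ∑ b, E a b| ≤ 2 * H + y0 / 36 := by
        rw [abs_le]; constructor <;> linarith
      rw [← sq_abs]
      exact pow_le_pow_left₀ (abs_nonneg _) h3 2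
    rw [sum_const, card_univ, Fintype.card_fin] at this
    simp only [nsmul_eq_mul] at this
    push_cast at this
    exact this
  linarith

end L4s

end K4m
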