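import Mathlib
import Pool.Agent.Lib.MP_392c14_co.Acc.L4

/-!
# The sizes of the classes

The size of a union of classes is determined, up to terms of the second order, by the uniform
degrees of the classes and by the garbage.
-/

set_option autoImplicit false

namespace K4m

open Finset

section Sizes

variable {V : Type} [Fintype V] {G : TG V} {w : V → ℝ} {μ : Fin 6 → V → ℝ} {v : Fin 6 → ℝ}
  {X : V → ℝ} {t : ℝ}

/-- combination of the classes -/
noncomputable def Fc (μ : Fin 6 → V → ℝ) (c : Fin 6 → ℝ) (y : V) : ℝ := ∑ a, c a * μ a y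

theorem tri_Fc (c : Fin 6 → ℝ) (f g : V → ℝ) :
    tri G (Fc μ c) f g = ∑ a, c a * tri G (μ a) f g := tri_sum1 G univ c μ f g

theorem sum_Fc (hμ : ∀ a, IsW (μ a)) (c : Fin 6 → ℝ) (hc : ∑ a, c a = 0) :
    ∑ y, Fc μ c y = 0 := by
  unfold Fc
  rw [sum_comm]
  have : ∀ a, ∑ y, c a * μ a y = c a := by
    intro a; rw [← mul_sum, (hμ a).sum_eq, mul_one]
  simp only [this]
  exact hc

theorem Dp_Fc (c : Fin 6 → ℝ) (hc : ∑ a, c a = 0) (b : Fin 6) :
    Dp G μ (Fc μ c) b = -(12 / 7) * c b + ∑ a, c a * Rp G μ a b := by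
  have h1 : Dp G μ (Fc μ c) b = ∑ a, c a * Dp G μ (μ a) b := by
    unfold Dp
    simp only [tri_Fc]
    rw [sum_comm]
    exact sum_congr rfl fun a _ => by rw [mul_sum]
  rw [h1]
  simp only [Dp_mu]
  have h2 : ∀ a, c a * (2 - 12 / 7 * (if a = b then (1 : ℝ) else 0) + Rp G μ a b) =
      2 * c a - 12 / 7 * (c a * (if a = b then (1 : ℝ) else 0)) + c a * Rp G μ a b := by
    intro a; ring
  simp only [h2]
  rw [sum_add_distrib, sum_sub_distrib, ← mul_sum, ← mul_sum, hc]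
  have h3 : ∑ a, c a * (if a = b then (1 : ℝ) else 0) = c b := by
    simp only [mul_ite, mul_one, mul_zero]
    rw [sum_ite_eq', if_pos (mem_univ _)]
  rw [h3]; ring

theorem sum_Dp_Fc (c : Fin 6 → ℝ) (hc : ∑ a, c a = 0) :
    ∑ b, Dp G μ (Fc μ c) b = ∑ a, c a * YN G μ a := by
  simp only [Dp_Fc c hc]
  rw [sum_add_distrib, ← mul_sum, hc, sum_comm]
  have h : ∀ a, ∑ b, c a * Rp G μ a b = c a * YN G μ a + (rho - 2 / 7) * c a := by
    intro a; rw [← mul_sum, sum_Rp]; ring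
  simp only [h]
  rw [sum_add_distrib, ← mul_sum, hc]; ring

/-- the exact identity for the sizes -/
theorem Dec.size_eq (D : Dec G w μ v X t) (c : Fin 6 → ℝ) (hc : ∑ a, c a = 0) :
    144 / 7 * ∑ b, (v b - 1 / 6) * c b = ∑ a, c a * YN G μ a +
      12 * ∑ b, (v b - 1 / 6) * ∑ a, c a * Rp G μ a b + 72 * tri G (Fc μ c) X w +
      36 * tri G (Fc μ c) (es μ v) (es μ v) - 36 * tri G (Fc μ c) X X := by
  have h1 := D.L1 (Fc μ c) (sum_Fc D.hμ c hc)
  rw [sum_Dp_Fc c hc] at h1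
  have h2 : ∑ b, (v b - 1 / 6) * Dp G μ (Fc μ c) b = -(12 / 7) * ∑ b, (v b - 1 / 6) * c b +
      ∑ b, (v b - 1 / 6) * ∑ a, c a * Rp G μ a b := by
    simp only [Dp_Fc c hc]
    rw [mul_sum, ← sum_add_distrib]
    exact sum_congr rfl fun b _ => by ring
  rw [h2] at h1
  linarith

/-- the quadratic form of a combination of the classes -/
theorem Dec.tri_FcFc (D : Dec G w μ v X t) (c : Fin 6 → ℝ) (hc : ∑ a, c a = 0)
    (hc3 : ∑ a, |c a| ≤ 3) (D1 r : ℝ) (hD : ∑ b, |v b - 1 / 6| = D1)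
    (hr : ∀ a b, |Rp G μ a b| ≤ r) :
    -tri G (Fc μ c) (Fc μ c) w ≤ 2 / 7 * ∑ a, c a ^ 2 + 9 * ((D1 + xX X) / 2 + r / 6) := by
  set e : Fin 6 → Fin 6 → ℝ := fun a b => Rp G μ a b / 6 +
    (∑ d, (v d - 1 / 6) * tri G (μ a) (μ b) (μ d) + tri G (μ a) (μ b) X) with he
  have he1 : ∀ a b, |e a b| ≤ (D1 + xX X) / 2 + r / 6 := by
    intro a b
    have h1 := abs_le.1 (hr a b)
    have h2 := abs_le.1 (D.g_abs (μ a) (D.hμ a) D1 hD b)
    simp only [he]
    rw [abs_le]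
    constructor <;> linarith
  have hw : ∀ a b, tri G (μ a) (μ b) w = 1 / 3 - 2 / 7 * (if a = b then (1 : ℝ) else 0) + e a b := by
    intro a b
    rw [D.tri_w_eq (μ a) b, Dp_mu]
    simp only [he]
    ring
  have h1 : tri G (Fc μ c) (Fc μ c) w = ∑ a, ∑ b, c a * c b * tri G (μ a) (μ b) w := by
    rw [tri_Fc]
    refine sum_congr rfl fun a _ => ?_
    rw [tri_swap12, tri_Fc, mul_sum]
    refine sum_congr rfl fun b _ => ?_
    rw [tri_swap12]; ring
  have h2 : ∑ a, ∑ b, c a * c b * tri G (μ a) (μ b) w = -(2 / 7) * ∑ a, c a ^ 2 +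
      ∑ a, ∑ b, c a * c b * e a b := by
    have h3 : ∀ a, ∑ b, c a * c b * tri G (μ a) (μ b) w = 1 / 3 * c a * ∑ b, c b -
        2 / 7 * c a ^ 2 + ∑ b, c a * c b * e a b := by
      intro a
      have h4 : ∑ b, c b * (if a = b then (1 : ℝ) else 0) = c a := by
        simp only [mul_ite, mul_one, mul_zero]
        rw [sum_ite_eq, if_pos (mem_univ _)]
      have h5 : 2 / 7 * c a ^ 2 = 2 / 7 * c a * ∑ b, c b * (if a = b then (1 : ℝ) else 0) := by
        rw [h4]; ring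
      rw [h5, mul_sum, mul_sum, ← sum_sub_distrib, ← sum_add_distrib]
      refine sum_congr rfl fun b _ => ?_
      rw [hw]; ring
    simp only [h3]
    rw [hc]
    simp only [mul_zero, zero_sub]
    rw [sum_add_distrib, sum_neg_distrib, mul_sum]
    simp only [neg_mul]
    rw [sum_neg_distrib]
  have h3 : |∑ a, ∑ b, c a * c b * e a b| ≤ 9 * ((D1 + xX X) / 2 + r / 6) := by
    have k0 : 0 ≤ (D1 + xX X) / 2 + r / 6 := (abs_nonneg _).trans (he1 0 0)
    have s0 : 0 ≤ ∑ a, |c a| := sum_nonneg fun a _ => abs_nonneg _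
    calc |∑ a, ∑ b, c a * c b * e a b| ≤ ∑ a, ∑ b, |c a * c b * e a b| :=
          (abs_sum_le_sum_abs _ _).trans (sum_le_sum fun a _ => abs_sum_le_sum_abs _ _)
      _ ≤ ∑ a, ∑ b, |c a| * |c b| * ((D1 + xX X) / 2 + r / 6) := by
          refine sum_le_sum fun a _ => sum_le_sum fun b _ => ?_
          rw [abs_mul, abs_mul]
          exact mul_le_mul_of_nonneg_left (he1 a b) (mul_nonneg (abs_nonneg _) (abs_nonneg _))
      _ = (∑ a, |c a|) * (∑ a, |c a|) * ((D1 + xX X) / 2 + r / 6) := by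
          rw [sum_mul, sum_mul]
          refine sum_congr rfl fun a _ => ?_
          rw [mul_assoc, mul_comm (∑ a, |c a|), mul_sum, mul_sum]
          exact sum_congr rfl fun b _ => by ring
      _ ≤ 9 * ((D1 + xX X) / 2 + r / 6) := by
          refine mul_le_mul_of_nonneg_right ?_ k0
          nlinarith
  have h4 := abs_le.1 h3
  rw [h1, h2]
  linarith [h4.1]

/-- sizes of the classes, linear combination -/
theorem Dec.size_c (D : Dec G w μ v X t) (c : Fin 6 → ℝ) (hc : ∑ a, c a = 0)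
    (hc3 : ∑ a, |c a| ≤ 3) (D1 rs r : ℝ) (hD : ∑ b, |v b - 1 / 6| = D1)
    (hr : ∀ a b, |Rp G μ a b| ≤ r) (hrs : ∀ b, |∑ a, c a * Rp G μ a b| ≤ rs) :
    ∑ b, (v b - 1 / 6) * c b ≤ 7 / 144 * ∑ a, c a * YN G μ a + 7 / 12 * (D1 * rs) +
      7 / 4 * xX X * (2 / 7 * ∑ a, c a ^ 2 + 9 * ((D1 + xX X) / 2 + r / 6) + t) +
      21 / 8 * (D1 ^ 2 + 2 * xX X ^ 2) := by
  have h1 := D.size_eq c hc
  have h2 := D.L3 (Fc μ c) (sum_Fc D.hμ c hc) _ (D.tri_FcFc c hc hc3 D1 r hD hr)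
  have hξ : 0 ≤ xX X := sum_nonneg fun x _ => D.hX x
  have h3 : |∑ b, (v b - 1 / 6) * ∑ a, c a * Rp G μ a b| ≤ D1 * rs := by
    calc |∑ b, (v b - 1 / 6) * ∑ a, c a * Rp G μ a b| ≤
        ∑ b, |(v b - 1 / 6) * ∑ a, c a * Rp G μ a b| := abs_sum_le_sum_abs _ _
      _ ≤ ∑ b, |v b - 1 / 6| * rs := by
          refine sum_le_sum fun b _ => ?_
          rw [abs_mul]
          exact mul_le_mul_of_nonneg_left (hrs b) (abs_nonneg _)
      _ = D1 * rs := by rw [← sum_mul, hD]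
  have h4 : |tri G (Fc μ c) (es μ v) (es μ v)| ≤ 3 * ((D1 ^ 2 + xX X ^ 2) / 2) := by
    have hB : 0 ≤ (D1 ^ 2 + xX X ^ 2) / 2 := by positivity
    rw [tri_Fc]
    calc |∑ a, c a * tri G (μ a) (es μ v) (es μ v)| ≤
        ∑ a, |c a * tri G (μ a) (es μ v) (es μ v)| := abs_sum_le_sum_abs _ _
      _ ≤ ∑ a, |c a| * ((D1 ^ 2 + xX X ^ 2) / 2) := by
          refine sum_le_sum fun a _ => ?_
          rw [abs_mul]
          refine mul_le_mul_of_nonneg_left ?_ (abs_nonneg _)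
          rw [tri_es_es]
          exact quad_s _ (fun b c => tri G (μ a) (μ b) (μ c))
            (fun b c => tri_W_nonneg _ _ _ (D.hμ a).nonneg (D.hμ b).nonneg (D.hμ c).nonneg)
            (fun b c => tri_W_le_one _ D.hμ (D.hμ a) b c) (xX X) D1 D.sum_s hD
      _ = (∑ a, |c a|) * ((D1 ^ 2 + xX X ^ 2) / 2) := by rw [sum_mul]
      _ ≤ _ := mul_le_mul_of_nonneg_right hc3 hB
  have h5 : -(3 / 2 * xX X ^ 2) ≤ tri G (Fc μ c) X X := by
    rw [tri_Fc]
    have k1 : ∀ a, (c a - |c a|) / 2 * xX X ^ 2 ≤ c a * tri G (μ a) X X := by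
      intro a
      have k0 : 0 ≤ tri G (μ a) X X := tri_W_nonneg _ X X (D.hμ a).nonneg D.hX D.hX
      have k1 : tri G (μ a) X X ≤ xX X ^ 2 := by
        have := tri_le_mass G (μ a) X X (D.hμ a).nonneg D.hX D.hX
        rw [(D.hμ a).sum_eq, one_mul] at this
        unfold xX
        rw [sq]; exact this
      rcases le_total 0 (c a) with h | h
      · rw [abs_of_nonneg h]
        have := mul_nonneg h k0
        linarith
      · rw [abs_of_nonpos h]
        nlinarith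
    have k2 := sum_le_sum (s := univ) fun a _ => k1 a
    have k3 : ∑ a, (c a - |c a|) / 2 * xX X ^ 2 = -(∑ a, |c a|) / 2 * xX X ^ 2 := by
      rw [← sum_mul, ← sum_div, sum_sub_distrib, hc, zero_sub]
    rw [k3] at k2
    nlinarith [sq_nonneg (xX X)]
  have h6 := abs_le.1 h3
  have h7 := abs_le.1 h4
  nlinarith [h1, h2, h5, h6.2, h7.2]

end Sizes

end K4m
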