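import Mathlib
import Pool.Agent.Lib.MP_392c14_co.Acc.Delta2
import Pool.Agent.Lib.MP_392c14_co.Acc.Size

/-!
# Bounds for the deviations of the densities

`δ` bounds the sums of `e - 3 B`; all deviations are at most a constant times the expected number
of missing blocks, up to `δ` and `rho - 2/7`.
-/

set_option autoImplicit false

namespace K4m

open Finset

section RBd

variable {V : Type} [Fintype V] {G : TG V} {μ : Fin 6 → V → ℝ}

theorem dN_nonneg (hμ : ∀ a, IsW (μ a)) : 0 ≤ dN G μ := by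
  have hws : IsW (ws μ) := by
    constructor
    · intro x
      exact sum_nonneg fun a _ => mul_nonneg (by norm_num) ((hμ a).nonneg x)
    · unfold ws
      rw [sum_comm]
      have : ∀ a, ∑ x, 1 / 6 * μ a x = 1 / 6 := by
        intro a; rw [← mul_sum, (hμ a).sum_eq, mul_one]
      simp only [this]
      rw [sum_const, card_univ, Fintype.card_fin]; norm_num
  have h1 := val_le_rho G (ws μ) hws
  have h2 : val G (ws μ) = 1 / 216 * ∑ i, ∑ j, ∑ k, tt G μ i j k := by
    have e1 : val G (ws μ) = tri G (ws μ) (ws μ) (ws μ) := rfl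
    rw [e1, tri_ws_ws]
    have e2 : ∀ b, Dp G μ (ws μ) b = 1 / 6 * ∑ i, ∑ k, tt G μ i b k := by
      intro b
      unfold Dp
      have e3 : ∀ k, tri G (ws μ) (μ b) (μ k) = 1 / 6 * ∑ i, tt G μ i b k := by
        intro k
        rw [tri_swap12, tri_swap23, tri_ws]
        congr 1
        refine sum_congr rfl fun i _ => ?_
        unfold tt
        rw [tri_swap23, tri_swap12]
      simp only [e3]
      rw [← mul_sum, sum_comm]
    simp only [e2]
    rw [← mul_sum, sum_comm]
    ring
  unfold dN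
  rw [h2] at h1
  linarith

theorem sum_YN : ∑ a, YN G μ a = 210 * (rho - 2 / 7) - dN G μ := by
  unfold YN dN
  rw [sum_sub_distrib, sum_const, card_univ, Fintype.card_fin]
  simp only [nsmul_eq_mul]
  push_cast
  ring

theorem sum_YN_le (hμ : ∀ a, IsW (μ a)) : ∑ a, YN G μ a ≤ 210 * (rho - 2 / 7) := by
  rw [sum_YN]
  have := dN_nonneg (G := G) hμ
  linarith

theorem sum_BO : ∑ a, BO G μ a = ∑ a, BN G μ a := by
  unfold BO BN
  rw [sum_comm]
  refine sum_congr rfl fun j _ => sum_congr rfl fun a _ => ?_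
  have : nee a j = nee j a := by
    unfold nee
    by_cases h : a = j
    · rw [if_pos h, if_pos h.symm]
    · rw [if_neg h, if_neg fun h' => h h'.symm]
  rw [this]

/-- sums over the triples at one class -/
theorem sym_max (p : Fin 6 → Fin 6 → Fin 6 → ℝ) (p0 : ∀ i j k, 0 ≤ p i j k)
    (p12 : ∀ i j k, p j i k = p i j k) (p23 : ∀ i j k, p i k j = p i j k)
    (pe : ∀ i k, p i i k = 0) (a : Fin 6) :
    ∑ j, ∑ k, p a j k ≤ 1 / 3 * ∑ i, ∑ j, ∑ k, p i j k := by
  have h1 : ∀ i j k, p i j k * ((if i = a then (1 : ℝ) else 0) +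
      (if j = a then (1 : ℝ) else 0) + (if k = a then (1 : ℝ) else 0)) ≤ p i j k := by
    intro i j k
    have h0 := p0 i j k
    by_cases h12 : i = j
    · subst h12
      rw [pe]; simp
    · by_cases h13 : i = k
      · subst h13
        rw [← p23, pe]; simp
      · by_cases h23 : j = k
        · subst h23
          have : p i j j = 0 := by
            rw [← p12, ← p23, pe]
          rw [this]; simp
        · have : (if i = a then (1 : ℝ) else 0) + (if j = a then (1 : ℝ) else 0) +
              (if k = a then (1 : ℝ) else 0) ≤ 1 := by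
            by_cases e1 : i = a
            · have e2 : ¬ j = a := fun h => h12 (e1.trans h.symm)
              have e3 : ¬ k = a := fun h => h13 (e1.trans h.symm)
              rw [if_pos e1, if_neg e2, if_neg e3]; norm_num
            · by_cases e2 : j = a
              · have e3 : ¬ k = a := fun h => h23 (e2.trans h.symm)
                rw [if_neg e1, if_pos e2, if_neg e3]; norm_num
              · rw [if_neg e1, if_neg e2]
                split_ifs <;> norm_num
          calc _ ≤ p i j k * 1 := mul_le_mul_of_nonneg_left this h0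
            _ = _ := mul_one _
  have h2 : ∑ i, ∑ j, ∑ k, p i j k * ((if i = a then (1 : ℝ) else 0) +
      (if j = a then (1 : ℝ) else 0) + (if k = a then (1 : ℝ) else 0)) ≤
      ∑ i, ∑ j, ∑ k, p i j k :=
    sum_le_sum fun i _ => sum_le_sum fun j _ => sum_le_sum fun k _ => h1 i j k
  have h3 : ∑ i, ∑ j, ∑ k, p i j k * (if i = a then (1 : ℝ) else 0) =
      ∑ j, ∑ k, p a j k := by
    rw [sum_eq_single a]
    · refine sum_congr rfl fun j _ => sum_congr rfl fun k _ => by rw [if_pos rfl, mul_one]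
    · intro b _ hb
      refine sum_eq_zero fun j _ => sum_eq_zero fun k _ => by rw [if_neg hb, mul_zero]
    · intro h; exact absurd (mem_univ _) h
  have h4 : ∑ i, ∑ j, ∑ k, p i j k * (if j = a then (1 : ℝ) else 0) =
      ∑ i, ∑ j, ∑ k, p i j k * (if i = a then (1 : ℝ) else 0) := by
    rw [sum_comm]
    refine sum_congr rfl fun i _ => sum_congr rfl fun j _ => sum_congr rfl fun k _ => ?_
    rw [p12]
  have h5 : ∑ i, ∑ j, ∑ k, p i j k * (if k = a then (1 : ℝ) else 0) =
      ∑ i, ∑ j, ∑ k, p i j k * (if j = a then (1 : ℝ) else 0) := by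
    refine sum_congr rfl fun i _ => ?_
    rw [sum_comm]
    refine sum_congr rfl fun j _ => sum_congr rfl fun k _ => ?_
    rw [p23]
  simp only [mul_add, sum_add_distrib] at h2
  rw [h5, h4, h3] at h2
  linarith

theorem GN_le_sum (hμ : ∀ a, IsW (μ a)) (a : Fin 6) :
    GN G μ a ≤ 1 / 3 * ∑ b, GN G μ b := by
  have h := sym_max (fun i j k => nbl i j k * tt G μ i j k)
    (fun i j k => mul_nonneg (nbl_nn _ _ _) (tt_nonneg hμ _ _ _))
    (fun i j k => by rw [nbl_swap12, tt_swap12]) (fun i j k => by rw [nbl_swap23, tt_swap23])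
    (fun i k => by rw [nbl_eq_zero, zero_mul]) a
  unfold GN
  rw [← mul_sum]
  linarith

theorem GN_le (hμ : ∀ a, IsW (μ a)) (δ : ℝ)
    (h4 : ∀ J : Finset (Fin 6), ∑ a ∈ J, (eN G μ a - 3 * BN G μ a) ≤ δ) (a : Fin 6) :
    GN G μ a ≤ mN G μ + (δ + 210 * (rho - 2 / 7)) / 6 := by
  have h1 := GN_le_sum (G := G) hμ a
  have h2 : ∑ a, YN G μ a = -2 * ∑ a, MN G μ a + 2 * ∑ a, GN G μ a + 2 * ∑ a, BN G μ a +
      ∑ a, BO G μ a - ∑ a, eN G μ a := by
    simp only [YN_eq]
    rw [sum_sub_distrib, sum_add_distrib, sum_add_distrib, sum_add_distrib, ← mul_sum,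
      ← mul_sum, ← mul_sum]
  rw [sum_MN, sum_BO] at h2
  have h3 := h4 univ
  rw [sum_sub_distrib, ← mul_sum] at h3
  have h5 := sum_YN_le (G := G) hμ
  linarith

theorem Rp_eq (a : Fin 6) : Rp G μ a a = BN G μ a - eN G μ a + (rho - 2 / 7) := by
  have h1 : ∑ c, tt G μ a a c = tt G μ a a a + BN G μ a := by
    have h2 : ∀ c, tt G μ a a c = (if a = c then tt G μ a a c else 0) +
        nee a c * tt G μ a a c := by
      intro c
      unfold nee
      by_cases h : a = c
      · rw [if_pos h, if_pos h]; ring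
      · rw [if_neg h, if_neg h]; ring
    unfold BN
    rw [sum_congr rfl fun c _ => h2 c, sum_add_distrib, sum_ite_eq, if_pos (mem_univ _)]
  unfold Rp eN
  rw [h1, if_pos rfl]
  ring

theorem Rp_ne (a b : Fin 6) (h : a ≠ b) : Rp G μ a b = -∑ c, pB G μ a b c +
    ∑ c, nbl a b c * tt G μ a b c + tt G μ a a b + tt G μ b b a := by
  have h1 : ∀ c, tt G μ a b c = (blk a b c - pB G μ a b c + nbl a b c * tt G μ a b c) +
      ((if a = c then tt G μ a b c else 0) + (if b = c then tt G μ a b c else 0)) := by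
    intro c
    unfold pB blk nbl ind
    by_cases h1 : a = c
    · subst h1
      have h2 : D6.E a b a = false := by rw [D6.symm₂]; exact D6.irr a b
      simp [h2, h, Ne.symm h]
    · by_cases h2 : b = c
      · subst h2
        have h3 : D6.E a b b = false := D6_last a b
        simp [h3, h]
      · rcases h3 : D6.E a b c <;> simp [h, h1, h2]
  have h2 : ∑ c, tt G μ a b c = (∑ c, blk a b c - ∑ c, pB G μ a b c +
      ∑ c, nbl a b c * tt G μ a b c) + (tt G μ a b a + tt G μ a b b) := by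
    rw [sum_congr rfl fun c _ => h1 c, sum_add_distrib, sum_add_distrib, sum_sub_distrib,
      sum_add_distrib, sum_ite_eq, if_pos (mem_univ _), sum_ite_eq, if_pos (mem_univ _)]
  unfold Rp
  rw [h2, blk_sum a b h, if_neg h]
  have e1 : tt G μ a b a = tt G μ a a b := tt_swap23 G μ a a b
  have e2 : tt G μ a b b = tt G μ b b a := (tt_rot G μ a b b).symm
  rw [e1, e2]
  ring

theorem Rp_ne_abs (hμ : ∀ a, IsW (μ a)) (a b : Fin 6) (h : a ≠ b) :
    |Rp G μ a b| ≤ ∑ c, pB G μ b a c + ∑ c, nbl b a c * tt G μ b a c := by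
  rw [Rp_ne a b h]
  have h1 := bb_le (G := G) hμ a b h
  have h2 := bb_le (G := G) hμ b a (Ne.symm h)
  have h3 := tt_nonneg (G := G) hμ a a b
  have h4 := tt_nonneg (G := G) hμ b b a
  have e1 : ∑ c, pB G μ b a c = ∑ c, pB G μ a b c :=
    sum_congr rfl fun c _ => by rw [pB_swap12]
  have e2 : ∑ c, nbl b a c * tt G μ b a c = ∑ c, nbl a b c * tt G μ a b c :=
    sum_congr rfl fun c _ => by rw [nbl_swap12, tt_swap12]
  have h5 : 0 ≤ ∑ c, nbl a b c * tt G μ a b c :=
    sum_nonneg fun c _ => mul_nonneg (nbl_nn _ _ _) (tt_nonneg hμ _ _ _)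
  rw [e1] at h2
  rw [e1, e2, abs_le]
  constructor <;> linarith

theorem Rp_eq_abs (hμ : ∀ a, IsW (μ a)) (δ : ℝ)
    (h4 : ∀ J : Finset (Fin 6), ∑ a ∈ J, (eN G μ a - 3 * BN G μ a) ≤ δ) (a : Fin 6) :
    |Rp G μ a a| ≤ 4 * MN G μ a + δ + (rho - 2 / 7) := by
  rw [Rp_eq a]
  have h1 := BN_le (G := G) hμ a
  have h2 := eN_nonneg (G := G) hμ a
  have h3 := h4 {a}
  rw [sum_singleton] at h3
  have h5 := two_sevenths_le_rho
  have h6 := BN_nonneg (G := G) hμ a
  have h7 := h4 ∅
  rw [sum_empty] at h7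
  have h8 := MN_nonneg (G := G) hμ a
  rw [abs_le]
  constructor <;> linarith

/-- rows of the deviations -/
theorem Rsum_le (hμ : ∀ a, IsW (μ a)) (δ : ℝ)
    (h4 : ∀ J : Finset (Fin 6), ∑ a ∈ J, (eN G μ a - 3 * BN G μ a) ≤ δ) (b : Fin 6) :
    ∑ a, |Rp G μ a b| ≤ 8 * mN G μ + 4 / 3 * δ + 71 * (rho - 2 / 7) := by
  have h1 : ∀ a, |Rp G μ a b| ≤ (∑ c, pB G μ b a c + ∑ c, nbl b a c * tt G μ b a c) +
      (if b = a then 4 * MN G μ b + δ + (rho - 2 / 7) else 0) := by
    intro a
    by_cases h : b = a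
    · subst h
      rw [if_pos rfl]
      have k1 := Rp_eq_abs hμ δ h4 b
      have k2 : 0 ≤ ∑ c, pB G μ b b c := sum_nonneg fun c _ => pB_nonneg hμ _ _ _
      have k3 : 0 ≤ ∑ c, nbl b b c * tt G μ b b c :=
        sum_nonneg fun c _ => mul_nonneg (nbl_nn _ _ _) (tt_nonneg hμ _ _ _)
      linarith
    · rw [if_neg h, add_zero]
      exact Rp_ne_abs hμ a b (Ne.symm h)
  have h2 := sum_le_sum (s := univ) fun a _ => h1 a
  rw [sum_add_distrib, sum_add_distrib, sum_ite_eq, if_pos (mem_univ _)] at h2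
  have h3 : ∑ a, ∑ c, pB G μ b a c = 2 * MN G μ b := by unfold MN; ring
  have h5 : ∑ a, ∑ c, nbl b a c * tt G μ b a c = 2 * GN G μ b := by unfold GN; ring
  rw [h3, h5] at h2
  have h6 := MN_le (G := G) hμ b
  have h7 := GN_le hμ δ h4 b
  linarith

/-- single deviations -/
theorem Rp_abs (hμ : ∀ a, IsW (μ a)) (δ : ℝ)
    (h4 : ∀ J : Finset (Fin 6), ∑ a ∈ J, (eN G μ a - 3 * BN G μ a) ≤ δ) (a b : Fin 6) :
    |Rp G μ a b| ≤ 4 * mN G μ + δ + 71 * (rho - 2 / 7) := by
  have hm := mN_nonneg (G := G) hμ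
  have hσ := two_sevenths_le_rho
  have hδ := h4 ∅
  rw [sum_empty] at hδ
  by_cases h : a = b
  · subst h
    have h1 := Rp_eq_abs hμ δ h4 a
    have h2 := MN_le (G := G) hμ a
    linarith
  · have h1 := Rp_ne_abs (G := G) hμ a b h
    have h2 : ∑ c, pB G μ b a c ≤ mN G μ := by
      have k1 : ∑ c, pB G μ b a c + ∑ c, pB G μ b c a ≤ ∑ j, ∑ k, pB G μ b j k := by
        have k2 : ∑ c, pB G μ b c a = ∑ j, ∑ k, pB G μ b j k * (if a = k then (1:ℝ) else 0) := by
          refine sum_congr rfl fun j _ => ?_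
          simp only [mul_ite, mul_one, mul_zero]
          rw [sum_ite_eq, if_pos (mem_univ _)]
        have k3 : ∑ c, pB G μ b a c = ∑ j, ∑ k, pB G μ b j k * (if a = j then (1:ℝ) else 0) := by
          have : ∀ j, ∑ k, pB G μ b j k * (if a = j then (1:ℝ) else 0) =
              if a = j then ∑ k, pB G μ b j k else 0 := by
            intro j
            by_cases h : a = j
            · simp [h]
            · simp [h]
          simp only [this]
          rw [sum_ite_eq, if_pos (mem_univ _)]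
        rw [k2, k3, ← sum_add_distrib]
        refine sum_le_sum fun j _ => ?_
        rw [← sum_add_distrib]
        refine sum_le_sum fun k _ => ?_
        have n0 := pB_nonneg (G := G) hμ b j k
        by_cases e1 : a = j
        · by_cases e2 : a = k
          · have : pB G μ b j k = 0 := by
              rw [← e1, ← e2, ← pB_swap12, ← pB_swap23, pB_irr]
            rw [this]; simp
          · rw [if_pos e1, if_neg e2]; linarith
        · rw [if_neg e1]
          split_ifs <;> linarith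
      have k2 : ∑ c, pB G μ b c a = ∑ c, pB G μ b a c :=
        sum_congr rfl fun c _ => by rw [pB_swap23]
      have k3 := MN_le (G := G) hμ b
      unfold MN at k3
      linarith
    have h3 : ∑ c, nbl b a c * tt G μ b a c ≤ 2 * GN G μ b := by
      have k1 : ∑ c, nbl b a c * tt G μ b a c ≤ ∑ j, ∑ k, nbl b j k * tt G μ b j k :=
        single_le_sum (f := fun j => ∑ k, nbl b j k * tt G μ b j k)
          (fun j _ => sum_nonneg fun k _ => mul_nonneg (nbl_nn _ _ _) (tt_nonneg hμ _ _ _))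
          (mem_univ a)
      unfold GN
      linarith
    have h5 := GN_le hμ δ h4 b
    linarith

/-- deviations of the degrees -/
theorem YN_le (hμ : ∀ a, IsW (μ a)) (δ : ℝ)
    (h4 : ∀ J : Finset (Fin 6), ∑ a ∈ J, (eN G μ a - 3 * BN G μ a) ≤ δ) (a : Fin 6) :
    YN G μ a ≤ 24 / 5 * mN G μ + 4 / 5 * δ + 168 * (rho - 2 / 7) := by
  have h1 := Y_set (G := G) hμ {a} δ (h4 _)
  rw [sum_singleton] at h1
  have h2 := sum_YN_le (G := G) hμ
  linarith

theorem YN_ge (hμ : ∀ a, IsW (μ a)) (δ : ℝ)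
    (h4 : ∀ J : Finset (Fin 6), ∑ a ∈ J, (eN G μ a - 3 * BN G μ a) ≤ δ) (a : Fin 6) :
    -(4 * mN G μ + δ) ≤ YN G μ a := by
  have h1 := YN_eq (G := G) (μ := μ) a
  have h2 := h4 {a}
  rw [sum_singleton] at h2
  have h3 := BN_le (G := G) hμ a
  have h5 := MN_le (G := G) hμ a
  have h6 := GN_nonneg (G := G) hμ a
  have h7 := BO_nonneg (G := G) hμ a
  linarith

theorem YN_abs (hμ : ∀ a, IsW (μ a)) (δ : ℝ)
    (h4 : ∀ J : Finset (Fin 6), ∑ a ∈ J, (eN G μ a - 3 * BN G μ a) ≤ δ) (a : Fin 6) :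
    |∑ b, Rp G μ a b| ≤ 24 / 5 * mN G μ + δ + 169 * (rho - 2 / 7) := by
  rw [sum_Rp]
  have h1 := YN_le hμ δ h4 a
  have h2 := YN_ge hμ δ h4 a
  have h3 := two_sevenths_le_rho
  have hδ := h4 ∅
  rw [sum_empty] at hδ
  have hm := mN_nonneg (G := G) hμ
  rw [abs_le]
  constructor <;> linarith

/-- centred deviations of a set of classes -/
theorem Yc_le (hμ : ∀ a, IsW (μ a)) (δ : ℝ)
    (h4 : ∀ J : Finset (Fin 6), ∑ a ∈ J, (eN G μ a - 3 * BN G μ a) ≤ δ) (S : Finset (Fin 6)) :
    ∑ a ∈ S, YN G μ a - (S.card : ℝ) / 6 * ∑ a, YN G μ a ≤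
      24 / 5 * mN G μ + δ + 168 * (rho - 2 / 7) := by
  have h3 := two_sevenths_le_rho
  have hδ := h4 ∅
  rw [sum_empty] at hδ
  have hm := mN_nonneg (G := G) hμ
  have hs := sum_YN_le (G := G) hμ
  have hcard : S.card ≤ 6 := by
    have := card_le_univ S
    simpa using this
  rcases Nat.lt_or_ge S.card 5 with h | h
  · have h1 := Y_set (G := G) hμ S δ (h4 _)
    have h5 : (S.card : ℝ) ≤ 4 := by exact_mod_cast (by omega : S.card ≤ 4)
    have h6 : (0 : ℝ) ≤ S.card := Nat.cast_nonneg _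
    have h7 : (4 / 5 - (S.card : ℝ) / 6) * ∑ a, YN G μ a ≤
        (4 / 5 - (S.card : ℝ) / 6) * (210 * (rho - 2 / 7)) :=
      mul_le_mul_of_nonneg_left hs (by linarith)
    have h8 : (4 / 5 - (S.card : ℝ) / 6) * (210 * (rho - 2 / 7)) ≤
        4 / 5 * (210 * (rho - 2 / 7)) := mul_le_mul_of_nonneg_right (by linarith) (by linarith)
    linarith
  · rcases Nat.lt_or_ge S.card 6 with h' | h'
    · have hc5 : S.card = 5 := by omega
      have hcc : Sᶜ.card = 1 := by
        rw [card_compl, Fintype.card_fin, hc5]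
      obtain ⟨a, ha⟩ := card_eq_one.1 hcc
      have h5 := sum_add_sum_compl S (fun a => YN G μ a)
      rw [ha, sum_singleton] at h5
      have h6 := YN_ge hμ δ h4 a
      rw [hc5]
      push_cast
      linarith
    · have hc6 : S.card = 6 := by omega
      have : S = univ := by
        rw [← card_eq_iff_eq_univ, Fintype.card_fin]; exact hc6
      rw [hc6, this]
      push_cast
      linarith

end RBd

end K4m
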