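import Mathlib
import Pool.Agent.Lib.MP_392c14_co.Acc.Avg
import Pool.Agent.Lib.MP_392c14_co.Acc.RBd

/-!
# Sizes of the classes corrected by the types of the garbage
-/

set_option autoImplicit false

namespace K4m

open Finset

section Sz

variable {V : Type} [Fintype V] {G : TG V} {w : V → ℝ} {μ : Fin 6 → V → ℝ} {v : Fin 6 → ℝ}
  {X : V → ℝ} {t : ℝ} {c : V → Fin 6}

theorem tri_NN1 (f g : V → ℝ) (n : Fin 6 → ℝ) :
    tri G (NN μ n) f g = ∑ a, n a * tri G (μ a) f g := by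
  have : NN μ n = fun y => ∑ a, n a * μ a y := rfl
  rw [this, tri_sum1]

/-- sum of the absolute values from the sums over sets -/
theorem abs_of_sets (n : Fin 6 → ℝ) (K : ℝ) (h0 : ∑ a, n a = 0)
    (hS : ∀ S : Finset (Fin 6), 12 * ∑ a ∈ S, n a ≤ K) : ∑ a, |n a| ≤ K / 6 := by
  have h1 := hS (univ.filter (fun a => 0 ≤ n a))
  have h2 : ∑ a, |n a| = 2 * ∑ a ∈ univ.filter (fun a => 0 ≤ n a), n a := by
    have e1 := sum_filter_add_sum_filter_not univ (fun a => 0 ≤ n a) (fun a => |n a|)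
    have e2 := sum_filter_add_sum_filter_not univ (fun a => 0 ≤ n a) n
    have e3 : ∑ a ∈ univ.filter (fun a => 0 ≤ n a), |n a| =
        ∑ a ∈ univ.filter (fun a => 0 ≤ n a), n a :=
      sum_congr rfl fun a ha => abs_of_nonneg (mem_filter.1 ha).2
    have e4 : ∑ a ∈ univ.filter (fun a => ¬ 0 ≤ n a), |n a| =
        -∑ a ∈ univ.filter (fun a => ¬ 0 ≤ n a), n a := by
      rw [← sum_neg_distrib]
      exact sum_congr rfl fun a ha => abs_of_neg (not_le.1 (mem_filter.1 ha).2)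
    linarith
  linarith

theorem sq_of_abs (n : Fin 6 → ℝ) (h0 : ∑ a, n a = 0) :
    ∑ a, n a ^ 2 ≤ (∑ a, |n a|) ^ 2 / 2 := by
  have h1 : ∀ a, |n a| ≤ (∑ a, |n a|) / 2 := by
    intro a
    have e1 : n a = -∑ b ∈ univ.erase a, n b := by
      have := add_sum_erase univ n (mem_univ a)
      linarith
    have e2 : |n a| ≤ ∑ b ∈ univ.erase a, |n b| := by
      conv_lhs => rw [e1]
      rw [abs_neg]
      exact abs_sum_le_sum_abs _ _
    have e3 := add_sum_erase univ (fun b => |n b|) (mem_univ a)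
    linarith
  have h2 : ∑ a, n a ^ 2 ≤ ∑ a, |n a| * ((∑ a, |n a|) / 2) := by
    refine sum_le_sum fun a _ => ?_
    have := mul_le_mul_of_nonneg_left (h1 a) (abs_nonneg (n a))
    calc n a ^ 2 = |n a| * |n a| := by rw [← sq, sq_abs]
      _ ≤ _ := this
  rw [← sum_mul] at h2
  linarith

/-- the vector of a set of classes -/
noncomputable def csv (S : Finset (Fin 6)) (a : Fin 6) : ℝ :=
  (if a ∈ S then 1 else 0) - (S.card : ℝ) / 6

theorem sum_csv_mul (S : Finset (Fin 6)) (f : Fin 6 → ℝ) :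
    ∑ a, csv S a * f a = ∑ a ∈ S, f a - (S.card : ℝ) / 6 * ∑ a, f a := by
  unfold csv
  simp only [sub_mul, sum_sub_distrib, ite_mul, one_mul, zero_mul]
  rw [sum_ite_mem, univ_inter, ← mul_sum]

theorem sum_csv (S : Finset (Fin 6)) : ∑ a, csv S a = 0 := by
  have h := sum_csv_mul S (fun _ => 1)
  simp only [mul_one, sum_const, card_univ, Fintype.card_fin, nsmul_eq_mul] at h
  rw [h]; push_cast; ring

theorem csv_sets (S T : Finset (Fin 6)) : 12 * ∑ a ∈ T, csv S a ≤ 18 := by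
  have h1 : ∑ a ∈ T, csv S a = ((T ∩ S).card : ℝ) - (T.card : ℝ) * ((S.card : ℝ) / 6) := by
    unfold csv
    rw [sum_sub_distrib, sum_const, sum_ite_mem, sum_const]
    simp only [nsmul_eq_mul, mul_one]
  have h2 : ((T ∩ S).card : ℝ) ≤ T.card := by exact_mod_cast card_le_card inter_subset_left
  have h3 : ((T ∩ S).card : ℝ) ≤ S.card := by exact_mod_cast card_le_card inter_subset_right
  have h4 : (0 : ℝ) ≤ (T ∩ S).card := Nat.cast_nonneg _
  rw [h1]
  nlinarith [sq_nonneg (((T ∩ S).card : ℝ) - 3), mul_le_mul h2 h3 h4 (h4.trans h2)]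

theorem abs_csv (S : Finset (Fin 6)) : ∑ a, |csv S a| ≤ 3 := by
  have := abs_of_sets (csv S) 18 (sum_csv S) (csv_sets S)
  linarith

/-- a vector of total mass zero against a functional of small range -/
theorem csv_le (S : Finset (Fin 6)) (U : Fin 6 → ℝ) {B : ℝ} (hB : ∀ a b, U a - U b ≤ B) :
    ∑ a, csv S a * U a ≤ 3 / 2 * B := by
  have h := sig_le (csv S) U 18 B (sum_csv S) (csv_sets S) hB
  linarith

/-- exact identity of the corrected sizes -/
theorem Dec.size_id (D : Dec G w μ v X t) (s : Fin 6 → ℝ) (hs : ∑ a, s a = 0) :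
    12 * ∑ a, s a * nty v X c a = 7 / 12 * ∑ a, s a * YN G μ a +
      7 * ∑ a, s a * Dp G μ (FX μ X c) a +
      7 * ∑ b, nty v X c b * (∑ a, s a * Rp G μ a b) +
      21 * (tri G (NN μ s) (FX μ X c) (FX μ X c) +
        2 * tri G (NN μ s) (FX μ X c) (NN μ (nty v X c)) +
        tri G (NN μ s) (NN μ (nty v X c)) (NN μ (nty v X c))) := by
  obtain ⟨F, hF⟩ : ∃ F, F = FX μ X c := ⟨_, rfl⟩
  obtain ⟨n, hn⟩ : ∃ n, n = nty v X c := ⟨_, rfl⟩
  obtain ⟨N, hN⟩ : ∃ N, N = NN μ n := ⟨_, rfl⟩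
  obtain ⟨S, hS⟩ : ∃ S, S = NN μ s := ⟨_, rfl⟩
  have hw : w = fun y => ws μ y + F y + N y := by rw [hF, hN, hn]; exact D.w_FX
  rw [← hF, ← hn, ← hN, ← hS]
  have hS0 : ∑ y, S y = 0 := by
    rw [hS]
    unfold NN
    rw [sum_comm]
    have : ∀ a, ∑ y, s a * μ a y = s a := by
      intro a; rw [← mul_sum, (D.hμ a).sum_eq, mul_one]
    rw [sum_congr rfl fun a _ => this a, hs]
  have h0 := D.tri_deg S hS0
  have h1 : tri G S w w = tri G S (ws μ) (ws μ) + tri G S F F + tri G S N N +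
      2 * tri G S (ws μ) F + 2 * tri G S (ws μ) N + 2 * tri G S F N := by
    rw [hw, quad3]
  have hn0 : ∑ a, n a = 0 := by rw [hn]; exact sum_nty D
  have e1 : tri G S (ws μ) (ws μ) = 1 / 36 * ∑ a, s a * YN G μ a := by
    rw [hS, tri_NN1, mul_sum]
    have : ∀ a, s a * tri G (μ a) (ws μ) (ws μ) = 1 / 36 * (s a * YN G μ a) +
        1 / 36 * (10 + rho) * s a := by
      intro a
      rw [tri_ws_ws]
      have : ∑ b, Dp G μ (μ a) b = YN G μ a + (10 + rho) := by
        unfold Dp YN tt; ring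
      rw [this]; ring
    rw [sum_congr rfl fun a _ => this a, sum_add_distrib, ← mul_sum _ _ (1 / 36 * (10 + rho)), hs]
    rw [← mul_sum]; ring
  have e2 : tri G S (ws μ) F = 1 / 6 * ∑ a, s a * Dp G μ F a := by
    rw [hS, tri_NN1, mul_sum]
    refine sum_congr rfl fun a _ => ?_
    have : tri G (μ a) (ws μ) F = 1 / 6 * Dp G μ F a := by
      have e : tri G (μ a) (ws μ) F = tri G F (μ a) (ws μ) := by
        rw [tri_swap23, tri_swap12]
      rw [e, tri_ws_b]
    rw [this]; ring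
  have e3 : tri G S (ws μ) N = 1 / 6 * (-(12 / 7) * ∑ a, s a * n a +
      ∑ b, n b * (∑ a, s a * Rp G μ a b)) := by
    rw [hN, tri_NN]
    have a1 : ∀ b, tri G S (ws μ) (μ b) = 1 / 6 * (-(12 / 7) * s b +
        ∑ a, s a * Rp G μ a b) := by
      intro b
      rw [tri_swap23, tri_ws_b]
      have : Dp G μ S b = ∑ a, s a * Dp G μ (μ a) b := by
        unfold Dp
        rw [hS]
        simp only [tri_NN1, mul_sum]
        rw [sum_comm]
      rw [this]
      have a2 : ∀ a, s a * Dp G μ (μ a) b = 2 * s a - 12 / 7 * (s a * (if a = b then 1 else 0)) +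
          s a * Rp G μ a b := by
        intro a; rw [Dp_mu]; ring
      rw [sum_congr rfl fun a _ => a2 a, sum_add_distrib, sum_sub_distrib, ← mul_sum, ← mul_sum,
        hs]
      have a3 : ∑ a, s a * (if a = b then (1 : ℝ) else 0) = s b := by
        rw [sum_eq_single b]
        · rw [if_pos rfl, mul_one]
        · intro a _ ha; rw [if_neg ha, mul_zero]
        · intro h; exact absurd (mem_univ _) h
      rw [a3]; ring
    rw [sum_congr rfl fun b _ => by rw [a1 b], mul_add, mul_sum, mul_sum, mul_sum,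
      ← sum_add_distrib]
    refine sum_congr rfl fun b _ => ?_
    ring
  rw [h1, e1, e2, e3] at h0
  linarith

/-- row sums against the vector of a set -/
theorem csv_Rp (hμ : ∀ a, IsW (μ a)) (δ : ℝ)
    (h4 : ∀ J : Finset (Fin 6), ∑ a ∈ J, (eN G μ a - 3 * BN G μ a) ≤ δ)
    (S : Finset (Fin 6)) (h1 : 1 ≤ S.card) (h5 : S.card ≤ 5) (b : Fin 6) :
    |∑ a, csv S a * Rp G μ a b| ≤ 28 / 5 * mN G μ + δ + 92 * (rho - 2 / 7) := by
  have a1 := Rsum_le (G := G) hμ δ h4 b
  have a2 := YN_abs (G := G) hμ δ h4 b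
  have a3 : ∑ a, Rp G μ b a = ∑ a, Rp G μ a b := sum_congr rfl fun a _ => Rp_swap a b
  rw [a3] at a2
  have hc1 : (1 : ℝ) ≤ S.card := by exact_mod_cast h1
  have hc5 : (S.card : ℝ) ≤ 5 := by exact_mod_cast h5
  have hr := two_sevenths_le_rho
  have hδ : 0 ≤ δ := by have := h4 ∅; simpa using this
  have e : ∑ a, csv S a * Rp G μ a b =
      ∑ a, ((if a ∈ S then 1 else 0) - 1 / 2) * Rp G μ a b +
      (1 / 2 - (S.card : ℝ) / 6) * ∑ a, Rp G μ a b := by
    rw [mul_sum, ← sum_add_distrib]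
    refine sum_congr rfl fun a _ => ?_
    unfold csv; ring
  have b1 : |∑ a, ((if a ∈ S then 1 else 0) - 1 / 2) * Rp G μ a b| ≤
      1 / 2 * ∑ a, |Rp G μ a b| := by
    refine (abs_sum_le_sum_abs _ _).trans ?_
    rw [mul_sum]
    refine sum_le_sum fun a _ => ?_
    rw [abs_mul]
    refine mul_le_mul_of_nonneg_right ?_ (abs_nonneg _)
    split_ifs <;> rw [abs_le] <;> constructor <;> norm_num
  have b2 : |(1 / 2 - (S.card : ℝ) / 6) * ∑ a, Rp G μ a b| ≤ 1 / 3 * |∑ a, Rp G μ a b| := by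
    rw [abs_mul]
    refine mul_le_mul_of_nonneg_right ?_ (abs_nonneg _)
    rw [abs_le]; constructor <;> linarith
  rw [e]
  refine (abs_add_le _ _).trans ?_
  linarith

/-- **Sizes corrected by the types.** -/
theorem Dec.size_le (D : Dec G w μ v X t) {A KN B δ : ℝ}
    (h4 : ∀ J : Finset (Fin 6), ∑ a ∈ J, (eN G μ a - 3 * BN G μ a) ≤ δ)
    (hA : ∑ a, |nty v X c a| ≤ A)
    (hN : ∀ S : Finset (Fin 6), 12 * ∑ a ∈ S, nty v X c a ≤ KN)
    (hB : ∀ a b, Dp G μ (FX μ X c) a - Dp G μ (FX μ X c) b ≤ B) (S : Finset (Fin 6)) :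
    12 * ∑ a ∈ S, nty v X c a ≤ 7 / 12 * (24 / 5 * mN G μ + δ + 168 * (rho - 2 / 7)) +
      21 / 2 * B + 7 / 12 * (KN * (2 * (28 / 5 * mN G μ + δ + 92 * (rho - 2 / 7)))) +
      (126 * xX X ^ 2 + 126 * xX X * A + 63 / 2 * A ^ 2) := by
  have x0 := D.xX_nonneg
  have A0 : 0 ≤ ∑ a, |nty v X c a| := sum_nonneg fun a _ => abs_nonneg _
  have A00 : 0 ≤ A := A0.trans hA
  have n0 := sum_nty (c := c) D
  have m0 := mN_nonneg (G := G) D.hμ
  have hrr := two_sevenths_le_rho
  have hδ : 0 ≤ δ := by have := h4 ∅; simpa using this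
  have B0 : 0 ≤ B := by have := hB 0 0; linarith
  have K0 : 0 ≤ KN := by have := hN ∅; simpa using this
  have hρU : 0 ≤ 28 / 5 * mN G μ + δ + 92 * (rho - 2 / 7) := by linarith
  have hpos : 0 ≤ 7 / 12 * (24 / 5 * mN G μ + δ + 168 * (rho - 2 / 7)) +
      21 / 2 * B + 7 / 12 * (KN * (2 * (28 / 5 * mN G μ + δ + 92 * (rho - 2 / 7)))) +
      (126 * xX X ^ 2 + 126 * xX X * A + 63 / 2 * A ^ 2) := by
    have k1 := mul_nonneg K0 (by linarith : 0 ≤ 2 * (28 / 5 * mN G μ + δ + 92 * (rho - 2 / 7)))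
    have k2 := mul_nonneg x0 A00
    have k3 := sq_nonneg (xX X)
    have k4 := sq_nonneg A
    linarith
  by_cases hS0 : S.card = 0
  · rw [card_eq_zero.1 hS0, sum_empty, mul_zero]; exact hpos
  by_cases hS6 : S.card = 6
  · have : S = univ := by apply eq_univ_of_card; rw [hS6, Fintype.card_fin]
    rw [this, n0, mul_zero]; exact hpos
  have h7 := card_le_univ S
  rw [Fintype.card_fin] at h7
  have hs1 : 1 ≤ S.card := by omega
  have hs5 : S.card ≤ 5 := by omega
  have hid := D.size_id (c := c) (csv S) (sum_csv S)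
  have e1 : ∑ a, csv S a * nty v X c a = ∑ a ∈ S, nty v X c a := by
    rw [sum_csv_mul, n0]; ring
  rw [e1] at hid
  -- the deviations
  have h1 : ∑ a, csv S a * YN G μ a ≤ 24 / 5 * mN G μ + δ + 168 * (rho - 2 / 7) := by
    rw [sum_csv_mul]
    exact Yc_le D.hμ δ h4 S
  have h2 := csv_le S (Dp G μ (FX μ X c)) hB
  have h3 : 12 * ∑ b, nty v X c b * (∑ a, csv S a * Rp G μ a b) ≤
      KN * (2 * (28 / 5 * mN G μ + δ + 92 * (rho - 2 / 7))) :=
    sig_le (nty v X c) (fun b => ∑ a, csv S a * Rp G μ a b) KN _ n0 hN (fun a b => by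
      have u1 := abs_le.1 (csv_Rp (G := G) D.hμ δ h4 S hs1 hs5 a)
      have u2 := abs_le.1 (csv_Rp (G := G) D.hμ δ h4 S hs1 hs5 b)
      linarith [u1.2, u2.1])
  -- the quadratic terms
  have h4' : tri G (NN μ (csv S)) (FX μ X c) (FX μ X c) ≤ 6 * xX X ^ 2 := by
    rw [tri_NN1]
    have e : ∀ a, csv S a * tri G (μ a) (FX μ X c) (FX μ X c) ≤ |csv S a| * (2 * xX X ^ 2) := by
      intro a
      refine (le_abs_self _).trans ?_
      rw [abs_mul]
      exact mul_le_mul_of_nonneg_left (kk_FF (G := G) (c := c) D.hμ D.hX (μ a) (D.hμ a))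
        (abs_nonneg _)
    have e2 := sum_le_sum (s := univ) fun a _ => e a
    rw [← sum_mul] at e2
    have e3 := mul_le_mul_of_nonneg_right (abs_csv S) (by positivity : 0 ≤ 2 * xX X ^ 2)
    linarith
  have h5 : tri G (NN μ (csv S)) (FX μ X c) (NN μ (nty v X c)) ≤ 3 * (xX X * A) := by
    rw [tri_NN1]
    have e : ∀ a, csv S a * tri G (μ a) (FX μ X c) (NN μ (nty v X c)) ≤
        |csv S a| * (xX X * A) := by
      intro a
      refine (le_abs_self _).trans ?_
      rw [abs_mul]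
      refine mul_le_mul_of_nonneg_left ?_ (abs_nonneg _)
      rw [tri_NN]
      refine (abs_sum_le_sum_abs _ _).trans ?_
      have e1 : ∀ b, |nty v X c b * tri G (μ a) (FX μ X c) (μ b)| ≤
          xX X * |nty v X c b| := by
        intro b
        rw [abs_mul, tri_swap12]
        have := mul_le_mul_of_nonneg_left (FXn (c := c) D a b) (abs_nonneg (nty v X c b))
        linarith
      refine (sum_le_sum fun b _ => e1 b).trans ?_
      rw [← mul_sum]
      exact mul_le_mul_of_nonneg_left hA x0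
    have e2 := sum_le_sum (s := univ) fun a _ => e a
    rw [← sum_mul] at e2
    have e3 := mul_le_mul_of_nonneg_right (abs_csv S) (mul_nonneg x0 A00)
    linarith
  have h6 : tri G (NN μ (csv S)) (NN μ (nty v X c)) (NN μ (nty v X c)) ≤ 3 / 2 * A ^ 2 := by
    rw [tri_NN1]
    have A2 : (∑ a, |nty v X c a|) ^ 2 ≤ A ^ 2 := pow_le_pow_left₀ A0 hA 2
    have e : ∀ a, csv S a * tri G (μ a) (NN μ (nty v X c)) (NN μ (nty v X c)) ≤
        |csv S a| * (A ^ 2 / 2) := by
      intro a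
      refine (le_abs_self _).trans ?_
      rw [abs_mul]
      refine mul_le_mul_of_nonneg_left ?_ (abs_nonneg _)
      rw [tri_NN_NN]
      have := quad_s (nty v X c) (fun b d => tri G (μ a) (μ b) (μ d))
        (fun b d => tt_nonneg (G := G) D.hμ a b d) (fun b d => tt_le_one (G := G) D.hμ a b d)
        0 _ (by rw [n0]; ring) rfl
      linarith
    have e2 := sum_le_sum (s := univ) fun a _ => e a
    rw [← sum_mul] at e2
    have e3 := mul_le_mul_of_nonneg_right (abs_csv S) (by positivity : 0 ≤ A ^ 2 / 2)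
    linarith
  linarith

end Sz

end K4m
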