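import Mathlib
import Pool.Agent.Lib.MP_392c14_co.Acc.Siz
import Pool.Agent.Lib.MP_392c14_co.Acc.Reass2

/-!
# From classes with garbage to the total partition given by the types
-/

set_option autoImplicit false

namespace K4m

open Finset

section T2

variable {V : Type} [Fintype V] {G : TG V} {w : V → ℝ} {μ : Fin 6 → V → ℝ} {v : Fin 6 → ℝ}
  {X : V → ℝ} {t : ℝ} {c : V → Fin 6}

/-- the weights of a class of the partition -/
theorem Dec.w_class (D : Dec G w μ v X t) (hc : ∀ a x, μ a x ≠ 0 → c x = a) (a : Fin 6) (x : V) :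
    w x * (if c x = a then 1 else 0) = v a * μ a x + X x * (if c x = a then 1 else 0) := by
  have h0 : ∀ b, b ≠ c x → μ b x = 0 := by
    intro b hb
    by_contra h
    exact hb (hc b x h).symm
  rw [D.dec x]
  have h1 : ∑ b, v b * μ b x = v (c x) * μ (c x) x :=
    sum_eq_single (c x) (fun b _ hb => by rw [h0 b hb, mul_zero])
      (fun h => absurd (mem_univ _) h)
  rw [h1]
  by_cases h : c x = a
  · rw [if_pos h, h]; ring
  · rw [if_neg h, h0 a (fun h' => h h'.symm)]; ring

theorem Dec.cl_eq2 (D : Dec G w μ v X t) (hc : ∀ a x, μ a x ≠ 0 → c x = a) (a : Fin 6) :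
    cl w c a = v a + xty X c a := by
  unfold cl xty
  rw [sum_congr rfl fun x _ => D.w_class hc a x, sum_add_distrib, ← mul_sum, (D.hμ a).sum_eq,
    mul_one]

theorem Dec.cl_nty (D : Dec G w μ v X t) (hc : ∀ a x, μ a x ≠ 0 → c x = a) (a : Fin 6) :
    cl w c a - 1 / 6 = nty v X c a := by
  rw [D.cl_eq2 hc]; unfold nty; ring

theorem Dec.cl_pos2 (D : Dec G w μ v X t) (hc : ∀ a x, μ a x ≠ 0 → c x = a) (a : Fin 6) :
    0 < cl w c a := by
  rw [D.cl_eq2 hc]
  have := D.hv a
  have := xty_nonneg (c := c) D.hX a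
  linarith

/-- missing density of the total partition -/
theorem Dec.mN_tot (D : Dec G w μ v X t) (hc : ∀ a x, μ a x ≠ 0 → c x = a) {vm : ℝ}
    (hvm : 0 < vm) (hv : ∀ a, vm ≤ v a) :
    mN G (muT w c) ≤ mN G μ + (∑ x, X x * hh G μ x (c x)) / (2 * vm) +
      1 / 3 * (xX X / vm) ^ 2 * (3 + xX X / vm) := by
  have hμ := D.hμ
  have x0 := D.xX_nonneg
  -- the added parts
  obtain ⟨E, hE⟩ : ∃ E : Fin 6 → V → ℝ, E = fun a x => X x * (if c x = a then 1 else 0) / v a :=
    ⟨_, rfl⟩
  have hE0 : ∀ a x, 0 ≤ E a x := by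
    intro a x
    rw [hE]
    refine div_nonneg (mul_nonneg (D.hX x) ?_) (D.hv a).le
    split_ifs <;> norm_num
  have hEs : ∀ a, ∑ x, E a x = xty X c a / v a := by
    intro a
    rw [hE]
    unfold xty
    rw [sum_div]
  have hd : ∀ a, ∑ x, |E a x| ≤ xty X c a / v a := by
    intro a
    rw [← hEs a]
    exact le_of_eq (sum_congr rfl fun x _ => abs_of_nonneg (hE0 a x))
  have hA : ∀ a x, 0 ≤ μ a x + E a x := fun a x => add_nonneg ((hμ a).nonneg x) (hE0 a x)
  have hsum : ∀ a, ∑ x, (μ a x + E a x) = 1 + xty X c a / v a := by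
    intro a
    rw [sum_add_distrib, (hμ a).sum_eq, hEs]
  have hx : ∀ a, 0 ≤ xty X c a / v a := fun a =>
    div_nonneg (xty_nonneg D.hX a) (D.hv a).le
  have hmu : ∀ a x, (∑ x, (μ a x + E a x)) * muT w c a x = μ a x + E a x := by
    intro a x
    have va := D.hv a
    have h1 : μ a x + E a x = w x * (if c x = a then 1 else 0) / v a := by
      rw [D.w_class hc a x, hE, add_div, mul_comm (v a), mul_div_assoc, div_self va.ne', mul_one]
    have h2 : ∑ x, (μ a x + E a x) = cl w c a / v a := by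
      rw [hsum, D.cl_eq2 hc, add_div, div_self va.ne']
    rw [h1, h2]
    unfold muT
    have := (D.cl_pos2 hc a).ne'
    field_simp
  have key := mN_mix (G := G) (μ := μ) (D := E) hμ hd hA (s := 1) one_pos
    (fun a => by rw [hsum]; linarith [hx a]) hmu
    (fun a => isW_muT D.hw.nonneg (D.cl_pos2 hc a))
  have hq : ∑ a, xty X c a / v a ≤ xX X / vm := by
    have h1 : ∀ a, xty X c a / v a ≤ xty X c a / vm := fun a =>
      div_le_div_of_nonneg_left (xty_nonneg D.hX a) hvm (hv a)
    refine (sum_le_sum fun a _ => h1 a).trans ?_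
    rw [← sum_div, sum_xty]
  have hq0 : 0 ≤ ∑ a, xty X c a / v a := sum_nonneg fun a _ => hx a
  have hlin : ∑ a, ∑ x, E a x * hh G μ x a ≤ (∑ x, X x * hh G μ x (c x)) / vm := by
    have h1 : ∑ a, ∑ x, E a x * hh G μ x a = ∑ x, X x * hh G μ x (c x) / v (c x) := by
      rw [sum_comm]
      refine sum_congr rfl fun x _ => ?_
      rw [sum_eq_single (c x)]
      · rw [hE]; dsimp only; rw [if_pos rfl]; ring
      · intro b _ hb
        rw [hE]; dsimp only; rw [if_neg (fun h => hb h.symm)]; ring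
      · intro h; exact absurd (mem_univ _) h
    rw [h1, sum_div]
    refine sum_le_sum fun x _ => ?_
    exact div_le_div_of_nonneg_left (mul_nonneg (D.hX x) (hh_nonneg hμ x _)) hvm (hv _)
  have hsq : (∑ a, xty X c a / v a) ^ 2 * (3 + ∑ a, xty X c a / v a) ≤
      (xX X / vm) ^ 2 * (3 + xX X / vm) :=
    mul_le_mul (pow_le_pow_left₀ hq0 hq 2) (by linarith) (by linarith) (by positivity)
  have e2 : (∑ x, X x * hh G μ x (c x)) / (2 * vm) = (∑ x, X x * hh G μ x (c x)) / vm / 2 := by
    rw [mul_comm, ← div_div]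
  rw [e2]
  linarith

/-- distance of the classes -/
theorem Dec.tv_tot (D : Dec G w μ v X t) (hc : ∀ a x, μ a x ≠ 0 → c x = a) (a : Fin 6) :
    ∑ x, |muT w c a x - μ a x| ≤ 2 * (xty X c a / v a) := by
  have va := D.hv a
  have x0 := xty_nonneg (c := c) D.hX a
  have hcl := D.cl_pos2 hc a
  have h1 : ∀ x, muT w c a x - μ a x = X x * (if c x = a then 1 else 0) / cl w c a -
      xty X c a / cl w c a * μ a x := by
    intro x
    unfold muT
    rw [D.w_class hc a x]
    have e : cl w c a = v a + xty X c a := D.cl_eq2 hc a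
    have : μ a x = (v a + xty X c a) / cl w c a * μ a x := by
      rw [← e, div_self hcl.ne', one_mul]
    field_simp
    rw [e]; ring
  have h2 : ∀ x, |muT w c a x - μ a x| ≤ X x * (if c x = a then 1 else 0) / cl w c a +
      xty X c a / cl w c a * μ a x := by
    intro x
    rw [h1 x]
    refine (abs_sub _ _).trans ?_
    have n1 : 0 ≤ X x * (if c x = a then 1 else 0) / cl w c a := by
      refine div_nonneg (mul_nonneg (D.hX x) ?_) hcl.le
      split_ifs <;> norm_num
    have n2 : 0 ≤ xty X c a / cl w c a * μ a x :=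
      mul_nonneg (div_nonneg x0 hcl.le) ((D.hμ a).nonneg x)
    rw [abs_of_nonneg n1, abs_of_nonneg n2]
  refine (sum_le_sum fun x _ => h2 x).trans ?_
  rw [sum_add_distrib, ← mul_sum, (D.hμ a).sum_eq, mul_one, ← sum_div]
  have h3 : xty X c a / cl w c a ≤ xty X c a / v a :=
    div_le_div_of_nonneg_left x0 va (by rw [D.cl_eq2 hc]; linarith)
  have h4 : (∑ x, X x * (if c x = a then 1 else 0)) / cl w c a = xty X c a / cl w c a := rfl
  rw [h4]
  linarith

end T2

end K4m
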