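import Mathlib
import Pool.Agent.Lib.MP_392c14_co.Acc.Siz
import Pool.Agent.Lib.MP_392c14_co.Acc.Tot2
import Pool.Agent.Lib.MP_392c14_co.Acc.Pass3
import Pool.Agent.Lib.MP_392c14_co.Acc.Delta2

/-!
# The averaged pass with numbers
-/

set_option autoImplicit false

namespace K4m

open Finset

/-- matched decomposition with the numerical information about it -/
structure Mat {V : Type} [Fintype V] (G : TG V) (w : V → ℝ) (μ : Fin 6 → V → ℝ) (v : Fin 6 → ℝ)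
    (X : V → ℝ) (t : ℝ) (c : V → Fin 6) : Prop where
  dec : Dec G w μ v X t
  hc : ∀ a x, μ a x ≠ 0 → c x = a
  J : 14 * xX X + (491 / 100 - 69 * xX X) * mN G μ ≤ 48 / 1000
  J0 : 14 * xX X + 469 / 100 * mN G μ ≤ 48 / 1000
  D1 : ∑ a, |v a - 1 / 6| ≤ 11 / 1000
  A0 : ∑ a, |nty v X c a| ≤ 15 / 1000
  lo : ∀ a, 159 / 1000 ≤ v a
  tr : t ≤ rho
  rt : rho - t ≤ 1 / 10 ^ 16
  r0 : 2 / 7 ≤ rho
  r1 : rho ≤ 28572 / 100000

section M

variable {V : Type} [Fintype V] {G : TG V} {w : V → ℝ} {μ : Fin 6 → V → ℝ} {v : Fin 6 → ℝ}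
  {X : V → ℝ} {t : ℝ} {c : V → Fin 6}

theorem Mat.m0 (M : Mat G w μ v X t c) : 0 ≤ mN G μ := mN_nonneg M.dec.hμ

theorem Mat.x0 (M : Mat G w μ v X t c) : 0 ≤ xX X := M.dec.xX_nonneg

theorem Mat.x_le (M : Mat G w μ v X t c) : xX X ≤ 48 / 14000 := by
  have := M.J0; have := M.m0; linarith

theorem Mat.m_le (M : Mat G w μ v X t c) : mN G μ ≤ 978 / 100000 - 271 / 100 * xX X := by
  have h := M.J; have h0 := M.J0; have hm := M.m0; have hx := M.x0
  have e1 : mN G μ ≤ 10236 / 1000000 := by linarith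
  have e2 : xX X * mN G μ ≤ xX X * (10236 / 1000000) := mul_le_mul_of_nonneg_left e1 hx
  have e3 : mN G μ ≤ 9777 / 1000000 := by nlinarith
  have e4 : xX X * mN G μ ≤ xX X * (9777 / 1000000) := mul_le_mul_of_nonneg_left e3 hx
  nlinarith

theorem Mat.pin (M : Mat G w μ v X t c) (a : Fin 6) (x : V) :
    v a * μ a x = (w x - X x) * pin c a x := by
  have h := M.dec.w_class M.hc a x
  unfold K4m.pin
  by_cases hx : c x = a
  · rw [if_pos hx] at h ⊢; linarith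
  · rw [if_neg hx] at h ⊢; linarith

theorem Mat.delta (M : Mat G w μ v X t c) (J : Finset (Fin 6)) :
    ∑ a ∈ J, (eN G μ a - 3 * BN G μ a) ≤
      75 / 100 * xX X + 42 / 100 * mN G μ + 1 / 10 ^ 6 := by
  have h := M.dec.delta c M.pin M.tr (159 / 1000) (11 / 1000) (by norm_num) M.lo M.D1 J
  refine h.trans ?_
  have hx := M.x0; have hm := M.m0; have hx1 := M.x_le
  have r0 := M.r0
  have e1 : rho * xX X ^ 2 ≤ 28572 / 100000 * xX X ^ 2 :=
    mul_le_mul_of_nonneg_right M.r1 (by positivity)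
  have e2 : xX X ^ 2 ≤ 48 / 14000 * xX X := by nlinarith
  have e3 : (rho - t + 3 * rho * xX X ^ 2) ≤ 1 / 10 ^ 10 + 3 * (28572 / 100000 *
      (48 / 14000 * xX X)) := by
    have h16 := M.rt
    have h17 : (1 / 10 ^ 16 : ℝ) ≤ 1 / 10 ^ 10 := by norm_num
    nlinarith
  have e4 : (rho - t + 3 * rho * xX X ^ 2) / (159 / 1000) ^ 3 ≤
      (1 / 10 ^ 10 + 3 * (28572 / 100000 * (48 / 14000 * xX X))) / (159 / 1000) ^ 3 :=
    div_le_div_of_nonneg_right e3 (by positivity)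
  refine (add_le_add_left e4 _).trans ?_
  have e5 : 6 * (11 / 1000) * mN G μ / (159 / 1000) = 66 / 159 * mN G μ := by ring
  rw [e5]
  have e6 : (1 / 10 ^ 10 + 3 * (28572 / 100000 * (48 / 14000 * xX X))) / (159 / 1000) ^ 3 =
      1 / 10 ^ 10 / (159 / 1000) ^ 3 + 3 * (28572 / 100000 * (48 / 14000)) / (159 / 1000) ^ 3 *
        xX X := by ring
  rw [e6]
  have e7 : (3 * (28572 / 100000 * (48 / 14000)) / (159 / 1000) ^ 3 : ℝ) ≤ 75 / 100 := by norm_num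
  have e8 : (1 / 10 ^ 10 / (159 / 1000) ^ 3 : ℝ) ≤ 1 / 10 ^ 6 := by norm_num
  have e9 := mul_le_mul_of_nonneg_right e7 hx
  have e10 : (66 / 159 : ℝ) * mN G μ ≤ 42 / 100 * mN G μ :=
    mul_le_mul_of_nonneg_right (by norm_num) hm
  linarith

/-- half of the absolute sum bounds every partial sum -/
theorem part_le (n : Fin 6 → ℝ) (h0 : ∑ a, n a = 0) (S : Finset (Fin 6)) :
    ∑ a ∈ S, n a ≤ 1 / 2 * ∑ a, |n a| := by
  have h1 : ∑ a ∈ S, n a + ∑ a ∈ Sᶜ, n a = 0 := by rw [sum_add_sum_compl, h0]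
  have h2 : ∑ a ∈ S, |n a| + ∑ a ∈ Sᶜ, |n a| = ∑ a, |n a| := sum_add_sum_compl _ _
  have h3 : ∑ a ∈ S, n a ≤ ∑ a ∈ S, |n a| := sum_le_sum fun a _ => le_abs_self _
  have h4 : -∑ a ∈ Sᶜ, n a ≤ ∑ a ∈ Sᶜ, |n a| := by
    rw [← sum_neg_distrib]; exact sum_le_sum fun a _ => neg_le_abs _
  linarith

/-- the average missing degree of the garbage -/
noncomputable def HX (G : TG V) (μ : Fin 6 → V → ℝ) (X : V → ℝ) (c : V → Fin 6) : ℝ :=
  ∑ y, X y * hh G μ y (c y)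

theorem Dec.HX_nonneg (D : Dec G w μ v X t) : 0 ≤ HX G μ X c :=
  sum_nonneg fun y _ => mul_nonneg (D.hX y) (hh_nonneg D.hμ y _)

theorem Dec.HX_le (D : Dec G w μ v X t) {h0 : ℝ} (h : ∀ y, hh G μ y (c y) ≤ h0) :
    HX G μ X c ≤ h0 * xX X := by
  unfold HX xX
  rw [mul_sum]
  refine sum_le_sum fun y _ => ?_
  rw [mul_comm h0]
  exact mul_le_mul_of_nonneg_left (h y) (D.hX y)

/-- range of the first derivatives of the garbage -/
theorem Dec.range_FX (D : Dec G w μ v X t) {b0 : ℝ}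
    (hB : ∀ y a b, Ux G μ (c y) y a - Ux G μ (c y) y b ≤ 1 / 2 * hh G μ y (c y) + b0)
    (a b : Fin 6) : Dp G μ (FX μ X c) a - Dp G μ (FX μ X c) b ≤
      1 / 2 * HX G μ X c + b0 * xX X := by
  rw [Dp_FX, Dp_FX, ← sum_sub_distrib]
  unfold HX xX
  rw [mul_sum, mul_sum, ← sum_add_distrib]
  refine sum_le_sum fun y _ => ?_
  have h := mul_le_mul_of_nonneg_left (hB y a b) (D.hX y)
  nlinarith

/-- one step of the size iteration -/
theorem Mat.step (M : Mat G w μ v X t c) {A KN B : ℝ} (hK : 0 ≤ KN)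
    (hA : ∑ a, |nty v X c a| ≤ A)
    (hN : ∀ S : Finset (Fin 6), 12 * ∑ a ∈ S, nty v X c a ≤ KN)
    (hB : ∀ a b, Dp G μ (FX μ X c) a - Dp G μ (FX μ X c) b ≤ B) (S : Finset (Fin 6)) :
    12 * ∑ a ∈ S, nty v X c a ≤ 7 / 12 * (522 / 100 * mN G μ + 75 / 100 * xX X + 97 / 100000) +
      21 / 2 * B + 7 / 6 * KN * (602 / 100 * mN G μ + 75 / 100 * xX X + 54 / 100000) +
      (126 * xX X ^ 2 + 126 * xX X * A + 63 / 2 * A ^ 2) := by
  have h := M.dec.size_le M.delta hA hN hB S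
  have r1 := M.r1
  refine h.trans ?_
  have e1 : 28 / 5 * mN G μ + (75 / 100 * xX X + 42 / 100 * mN G μ + 1 / 10 ^ 6) +
      92 * (rho - 2 / 7) ≤ 602 / 100 * mN G μ + 75 / 100 * xX X + 54 / 100000 := by linarith
  have e2 := mul_le_mul_of_nonneg_left e1 hK
  nlinarith

end M

end K4m
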