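import Mathlib
import Pool.Agent.Lib.MP_392c14_co.Acc.Mat

/-!
# The averaged pass with numbers, second part
-/

set_option autoImplicit false

namespace K4m

open Finset

section M

variable {V : Type} [Fintype V] {G : TG V} {w : V → ℝ} {μ : Fin 6 → V → ℝ} {v : Fin 6 → ℝ}
  {X : V → ℝ} {t : ℝ} {c : V → Fin 6}

/-- sizes of the total partition, linear form -/
theorem Mat.KN (M : Mat G w μ v X t c) {B : ℝ} (hBx : B ≤ 111 / 100 * xX X)
    (hB : ∀ a b, Dp G μ (FX μ X c) a - Dp G μ (FX μ X c) b ≤ B) (S : Finset (Fin 6)) :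
    12 * ∑ a ∈ S, nty v X c a ≤ 3402 / 1000 * mN G μ + 1982 / 1000 * xX X + 286 / 100000 +
      21 / 2 * B := by
  have hm := M.m0; have hx := M.x0; have hx1 := M.x_le; have hJ := M.J0
  have x2 : xX X ^ 2 ≤ 48 / 14000 * xX X := by nlinarith
  have s0 : ∑ a, nty v X c a = 0 := sum_nty M.dec
  have k0 : ∀ S : Finset (Fin 6), 12 * ∑ a ∈ S, nty v X c a ≤ 9 / 100 := by
    intro S
    have := part_le _ s0 S
    have := M.A0
    linarith
  have k1 : ∀ S : Finset (Fin 6), 12 * ∑ a ∈ S, nty v X c a ≤ 576 / 10000 := by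
    intro S
    have h := M.step (by norm_num) M.A0 k0 hB S
    nlinarith
  have a1 : ∑ a, |nty v X c a| ≤ 96 / 10000 := by
    have := abs_of_sets _ _ s0 k1
    linarith
  have k2 : ∀ S : Finset (Fin 6), 12 * ∑ a ∈ S, nty v X c a ≤ 508 / 10000 := by
    intro S
    have h := M.step (by norm_num) a1 k1 hB S
    nlinarith
  have a2 : ∑ a, |nty v X c a| ≤ 508 / 60000 := by
    have := abs_of_sets _ _ s0 k2
    linarith
  have h := M.step (by norm_num) a2 k2 hB S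
  nlinarith

/-- the polynomial inequality of the averaged pass -/
theorem poly_avg {m ξ H c0 : ℝ} (hm : 0 ≤ m) (hx : 0 ≤ ξ) (hJ : m ≤ 978 / 100000 - 271 / 100 * ξ)
    (hc : 58 / 1000 ≤ c0) (hH0 : 0 ≤ H) (hU : H ≤ 2 * ξ)
    (hP : c0 * H ≤ (3402 / 1000 * m + 1982 / 1000 * ξ + 286 / 100000 +
      21 / 2 * (1 / 2 * H + 112 / 1000 * ξ)) * (1 / 2 * H + 112 / 1000 * ξ) +
      ξ * (2480 / 1000000 + 378 / 100 * m + 4644 / 1000 * ξ)) :
    3145 / 1000 * H ≤ 102 / 10000 - m - 137 / 1000 * ξ := by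
  by_contra hcon
  push Not at hcon
  -- the polynomial
  have hP2 : H * (5657 / 100000 - 1701 / 1000 * m - 2167 / 1000 * ξ) - 2625 / 1000 * H ^ 2 -
      ξ * (4162 / 1000 * m + 4998 / 1000 * ξ + 2801 / 1000000) ≤ 0 := by
    have h1 : 58 / 1000 * H ≤ c0 * H := mul_le_mul_of_nonneg_right hc hH0
    nlinarith [mul_nonneg hm hx, mul_nonneg hx hx, mul_nonneg hH0 hx, mul_nonneg hH0 hm]
  -- the interval for H
  obtain ⟨L, hL⟩ : ∃ L, L = (102 / 10000 - m - 137 / 1000 * ξ) * (1000 / 3145) := ⟨_, rfl⟩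
  obtain ⟨U, hU'⟩ : ∃ U, U = 2 * ξ := ⟨_, rfl⟩
  have hLH : L < H := by rw [hL]; linarith
  have hHU : H ≤ U := by rw [hU']; exact hU
  have hPL : 0 < L * (5657 / 100000 - 1701 / 1000 * m - 2167 / 1000 * ξ) -
      2625 / 1000 * L ^ 2 - ξ * (4162 / 1000 * m + 4998 / 1000 * ξ + 2801 / 1000000) := by
    obtain ⟨s, hs⟩ : ∃ s, s = 978 / 100000 - 271 / 100 * ξ - m := ⟨_, rfl⟩
    have hs0 : 0 ≤ s := by rw [hs]; linarith
    have hm' : m = 978 / 100000 - 271 / 100 * ξ - s := by rw [hs]; ring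
    rw [hL, hm']
    nlinarith [mul_nonneg hs0 hx, mul_nonneg hs0 hs0, sq_nonneg (ξ - 85 / 100000)]
  have hL0 : 0 < L := by rw [hL]; nlinarith
  have hx1 : 0 < ξ := by linarith
  have hPU : 0 < U * (5657 / 100000 - 1701 / 1000 * m - 2167 / 1000 * ξ) -
      2625 / 1000 * U ^ 2 - ξ * (4162 / 1000 * m + 4998 / 1000 * ξ + 2801 / 1000000) := by
    rw [hU']
    have h2 : 0 < 2 * (5657 / 100000 - 1701 / 1000 * m - 2167 / 1000 * ξ) -
        2625 / 1000 * 4 * ξ - (4162 / 1000 * m + 4998 / 1000 * ξ + 2801 / 1000000) := by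
      linarith
    nlinarith [mul_pos hx1 h2]
  have hUL : 0 < U - L := by linarith
  have h3 : (U - L) * (H * (5657 / 100000 - 1701 / 1000 * m - 2167 / 1000 * ξ) -
      2625 / 1000 * H ^ 2 - ξ * (4162 / 1000 * m + 4998 / 1000 * ξ + 2801 / 1000000)) =
      (U - H) * (L * (5657 / 100000 - 1701 / 1000 * m - 2167 / 1000 * ξ) -
      2625 / 1000 * L ^ 2 - ξ * (4162 / 1000 * m + 4998 / 1000 * ξ + 2801 / 1000000)) +
      (H - L) * (U * (5657 / 100000 - 1701 / 1000 * m - 2167 / 1000 * ξ) -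
      2625 / 1000 * U ^ 2 - ξ * (4162 / 1000 * m + 4998 / 1000 * ξ + 2801 / 1000000)) +
      2625 / 1000 * ((U - L) * ((H - L) * (U - H))) := by ring
  have h4 : (U - L) * (H * (5657 / 100000 - 1701 / 1000 * m - 2167 / 1000 * ξ) -
      2625 / 1000 * H ^ 2 - ξ * (4162 / 1000 * m + 4998 / 1000 * ξ + 2801 / 1000000)) ≤ 0 :=
    mul_nonpos_of_nonneg_of_nonpos hUL.le hP2
  have k1 := mul_nonneg (sub_nonneg.2 hHU) hPL.le
  have k2 := mul_pos (sub_pos.2 hLH) hPU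
  have k3 := mul_nonneg hUL.le (mul_nonneg (sub_pos.2 hLH).le (sub_nonneg.2 hHU))
  linarith

/-- the averaged pass: missing density of the total partition -/
theorem Mat.mT (M : Mat G w μ v X t c) {Kout c0 κ ε : ℝ}
    (hS2 : ∀ y, c0 * hh G μ y (c y) + (Rx G μ y - kk G y (μ (c y)) (μ (c y))) ≤
      10 + 3 / 2 * MN G μ (c y) + Kout * (mN G μ - MN G μ (c y)))
    (hK : Kout ≤ 7 / 2) (hc : 58 / 1000 ≤ c0)
    (hν : ∀ y, kk G y (μ (c y)) (μ (c y)) ≤
      tt G μ (c y) (c y) (c y) + 2 * (1 + κ) * BN G μ (c y) + ε)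
    (κ0 : 0 ≤ κ) (κ1 : κ ≤ 7 / 100) (hε : ε ≤ 415 / 100 * xX X + 1 / 10 ^ 6)
    (hB : ∀ y a b, Ux G μ (c y) y a - Ux G μ (c y) y b ≤
      1 / 2 * hh G μ y (c y) + 112 / 1000)
    (hh0 : ∀ y, hh G μ y (c y) ≤ 199 / 100) : mN G (muT w c) ≤ 102 / 10000 := by
  have hm := M.m0; have hx := M.x0; have hx1 := M.x_le; have hJ := M.J0
  have H0 := M.dec.HX_nonneg (c := c)
  have H1 := M.dec.HX_le hh0
  have hBx : 1 / 2 * HX G μ X c + 112 / 1000 * xX X ≤ 111 / 100 * xX X := by linarith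
  have hR := M.dec.range_FX hB
  have hN := M.KN hBx hR
  have s0 : ∑ a, nty v X c a = 0 := sum_nty M.dec
  have k3 : ∀ S : Finset (Fin 6), 12 * ∑ a ∈ S, nty v X c a ≤ 497 / 10000 := by
    intro S
    have h := hN S
    nlinarith
  have a3 : ∑ a, |nty v X c a| ≤ 497 / 60000 := by
    have := abs_of_sets _ _ s0 k3
    linarith
  have h := M.dec.avg (Kin := 3 / 2) hS2 hν κ0 (by linarith) hN a3 hB
  have hP : c0 * HX G μ X c ≤ (3402 / 1000 * mN G μ + 1982 / 1000 * xX X + 286 / 100000 +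
      21 / 2 * (1 / 2 * HX G μ X c + 112 / 1000 * xX X)) *
        (1 / 2 * HX G μ X c + 112 / 1000 * xX X) +
      xX X * (2480 / 1000000 + 378 / 100 * mN G μ + 4644 / 1000 * xX X) := by
    refine h.trans ?_
    have e1 : xX X ^ 3 ≤ 48 / 14000 * (xX X * xX X) := by
      have := mul_le_mul_of_nonneg_left hx1 (mul_nonneg hx hx)
      nlinarith
    have e2 : κ * mN G μ ≤ 7 / 100 * mN G μ := mul_le_mul_of_nonneg_right κ1 hm
    have e3 : (3 / 2 + 2 + 4 * κ) * mN G μ + ε ≤ 378 / 100 * mN G μ +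
        (415 / 100 * xX X + 1 / 10 ^ 6) := by linarith
    have e4 := mul_le_mul_of_nonneg_left e3 hx
    unfold HX at *
    nlinarith
  have hp := poly_avg hm hx M.m_le hc H0 (by linarith) hP
  have hT := M.dec.mN_tot M.hc (vm := 159 / 1000) (by norm_num) M.lo
  refine hT.trans ?_
  have f1 : (∑ x, X x * hh G μ x (c x)) / (2 * (159 / 1000)) ≤ 3145 / 1000 * HX G μ X c := by
    change HX G μ X c / (2 * (159 / 1000)) ≤ _
    have : HX G μ X c / (2 * (159 / 1000)) = 1000 / 318 * HX G μ X c := by ring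
    rw [this]
    exact mul_le_mul_of_nonneg_right (by norm_num) H0
  have f2 : 1 / 3 * (xX X / (159 / 1000)) ^ 2 * (3 + xX X / (159 / 1000)) ≤
      137 / 1000 * xX X := by
    have g1 : 1 / 3 * (xX X / (159 / 1000)) ^ 2 * (3 + xX X / (159 / 1000)) =
        xX X * (xX X * (1000 / 159) ^ 2 * (1 + xX X * (1000 / 477))) := by ring
    rw [g1]
    have g2 : xX X * (1000 / 159) ^ 2 * (1 + xX X * (1000 / 477)) ≤ 137 / 1000 := by
      nlinarith
    nlinarith [mul_le_mul_of_nonneg_left g2 hx]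
  linarith

end M

end K4m
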