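import Mathlib
import Pool.Agent.Lib.MP_392c14_co.Acc.Pass3
import Pool.Agent.Lib.MP_392c14_co.Acc.Total
import Pool.Agent.Lib.MP_392c14_co.Reduce3

/-!
# Numerical form of the passes for a total partition
-/

set_option autoImplicit false

namespace K4m

open Finset

section TN

variable {V : Type} [Fintype V] {G : TG V} {w : V → ℝ} {μ : Fin 6 → V → ℝ} {v : Fin 6 → ℝ}
  {t : ℝ}

/-- one pass: the missing degree is at most `h1` -/
theorem Dec.passT_num (D : Dec G w μ v (fun _ => 0) t) (k : Fin 6) (x : V)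
    {Kin Kout c0 KS κ ε ν0 b D1 m1 h1 : ℝ}
    (hS2 : c0 * hh G μ x k + (Rx G μ x - kk G x (μ k) (μ k)) ≤
      10 + Kin * MN G μ k + Kout * (mN G μ - MN G μ k))
    (hν : kk G x (μ k) (μ k) ≤ tt G μ k k k + 2 * (1 + κ) * BN G μ k + ε)
    (hν0 : ν0 ≤ kk G x (μ k) (μ k)) (κ0 : 0 ≤ κ) (ε0 : 0 ≤ ε) (hK : Kout ≤ Kin + 2)
    (hK0 : 0 ≤ Kin)
    (hS : ∀ S : Finset (Fin 6), 12 * ∑ a ∈ S, (v a - 1 / 6) ≤ KS)
    (hD : ∑ b, |v b - 1 / 6| ≤ D1) (hm : mN G μ ≤ m1)
    (hb1 : (11 / 3 + 4 * κ) * m1 + ε ≤ b) (hb2 : 3 * m1 + (rho - ν0) ≤ b + h1 / 4)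
    (hc : KS / 2 < c0)
    (hnum : (Kin + 2 + 4 * κ) * m1 + ε + KS * b + 36 * D1 ^ 2 ≤ (c0 - KS / 2) * h1) :
    hh G μ x k ≤ h1 := by
  by_contra hcon
  push Not at hcon
  have m0 := mN_nonneg (G := G) D.hμ
  have k1 : (11 / 3 + 4 * κ) * mN G μ ≤ (11 / 3 + 4 * κ) * m1 :=
    mul_le_mul_of_nonneg_left hm (by linarith)
  have k2 : (Kin + 2 + 4 * κ) * mN G μ ≤ (Kin + 2 + 4 * κ) * m1 :=
    mul_le_mul_of_nonneg_left hm (by linarith)
  have h := D.passT k x (B1 := 1 / 2 * hh G μ x k + b) hS2 hν hν0 κ0 ε0 hK hS hD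
    (by linarith) (by linarith)
  have h2 : (c0 - KS / 2) * h1 < (c0 - KS / 2) * hh G μ x k :=
    mul_lt_mul_of_pos_left hcon (by linarith)
  linarith

theorem Dec.nu_tot [Nonempty V] (D : Dec G w μ v (fun _ => 0) t) (k : Fin 6) (S : V → Bool)
    (hS : ∀ x, v k * μ k x = w x * ind (S x)) (d : ℝ) (h0 : 0 < d) (h1 : d ≤ 1)
    (hval : rho - d ^ 2 ≤ val G w) (hvt : val G w = t) {κ vm : ℝ}
    (hκ : ∀ j, v j ≤ (1 + κ) * v k) (hvm : 0 < vm) (hv : vm ≤ v k) (x : V) :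
    kk G x (μ k) (μ k) ≤ tt G μ k k k + 2 * (1 + κ) * BN G μ k + (d + d ^ 2) / vm ^ 2 := by
  have hX : xX (fun _ : V => (0 : ℝ)) = 0 := by unfold xX; simp
  have h := D.nu_num k S hS d h0 h1 hval hvt hκ hvm hv
    (N := tt G μ k k k + 2 * (1 + κ) * BN G μ k + (d + d ^ 2) / vm ^ 2)
    (by rw [hX]; simp) (by rw [hX]; simp) x
  rw [hX, mul_zero, zero_mul, zero_div, zero_add] at h
  exact h

end TN

/-- the good partition -/
theorem goodPart_of {n : ℕ} {G : TG (Fin n)} {w : Fin n → ℝ} {c : Fin n → Fin 6}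
    (hw : ∀ x, 0 ≤ w x) (hcl : ∀ a, 0 < cl w c a) (hsum : ∑ a, (cl w c a - 1 / 6) = 0)
    (hS : ∀ S : Finset (Fin 6), 12 * ∑ a ∈ S, (cl w c a - 1 / 6) ≤ 34 / 1000)
    (hh1 : ∀ x, hh G (muT w c) x (c x) ≤ 449 / 1000)
    (hm : mN G (muT w c) ≤ 11 / 1000) : GoodPart G w c := by
  left
  have up : ∀ a, cl w c a - 1 / 6 ≤ 34 / 12000 := by
    intro a
    have := hS {a}
    rw [sum_singleton] at this
    linarith
  refine ⟨fun i => ?_, fun z => ?_, ?_⟩
  · rw [abs_le]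
    constructor
    · have h1 := hS (univ.erase i)
      have h2 := add_sum_erase univ (fun a => cl w c a - 1 / 6) (mem_univ i)
      linarith
    · have := up i
      linarith
  · have hM : ∀ a b, a ≠ b → cl w c a * cl w c b ≤ (1 / 6 + 34 / 24000) ^ 2 := by
      intro a b hab
      have h := hS {a, b}
      rw [sum_pair hab] at h
      have ha := hcl a
      have hb := hcl b
      have h3 : cl w c a + cl w c b ≤ 2 * (1 / 6 + 34 / 24000) := by linarith
      nlinarith [sq_nonneg (cl w c a - cl w c b)]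
    have h := mis_le_hh (G := G) (c := c) hw hcl hM z
    have h2 : (1 / 6 + 34 / 24000 : ℝ) ^ 2 * hh G (muT w c) z (c z) ≤
        (1 / 6 + 34 / 24000 : ℝ) ^ 2 * (449 / 1000) :=
      mul_le_mul_of_nonneg_left (hh1 z) (by positivity)
    refine h.trans (h2.trans ?_)
    norm_num
  · have hM : ∀ a b d, a ≠ b → a ≠ d → b ≠ d → cl w c a * cl w c b * cl w c d ≤
        (1 / 6 + 34 / 12000) ^ 3 := by
      intro a b d _ _ _
      have ha := up a
      have hb := up b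
      have hd := up d
      have pa := hcl a
      have pb := hcl b
      have pd := hcl d
      have h1 : cl w c a * cl w c b ≤ (1 / 6 + 34 / 12000) * (1 / 6 + 34 / 12000) :=
        mul_le_mul (by linarith) (by linarith) pb.le (by norm_num)
      have h2 : cl w c a * cl w c b * cl w c d ≤
          (1 / 6 + 34 / 12000) * (1 / 6 + 34 / 12000) * (1 / 6 + 34 / 12000) :=
        mul_le_mul h1 (by linarith) pd.le (by norm_num)
      linarith
    have h := MM_le_mN (G := G) (c := c) hw hcl hM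
    have h3 : (1 / 6 + 34 / 12000 : ℝ) ^ 3 * (6 * mN G (muT w c)) ≤
        (1 / 6 + 34 / 12000 : ℝ) ^ 3 * (6 * (11 / 1000)) :=
      mul_le_mul_of_nonneg_left (by linarith) (by positivity)
    refine h.trans (h3.trans ?_)
    norm_num

end K4m
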