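import Mathlib
import Pool.Agent.Lib.MP_392c14_co.Acc.Mat2
import Pool.Agent.Lib.MP_392c14_co.Acc.TotNum

/-!
# Upper bound of the own density for matched decompositions, and the passes of the partition
-/

set_option autoImplicit false

namespace K4m

open Finset

section M

variable {V : Type} [Fintype V] {G : TG V} {w : V → ℝ} {μ : Fin 6 → V → ℝ} {v : Fin 6 → ℝ}
  {X : V → ℝ} {t : ℝ} {c : V → Fin 6}

/-- quotients of the sizes -/
theorem ratio_le {v : Fin 6 → ℝ} {D1 vm κ : ℝ} (hD : ∑ b, |v b - 1 / 6| ≤ D1)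
    (hv : ∀ a, vm ≤ v a) (κ0 : 0 ≤ κ) (hκ : D1 ≤ κ * vm) (j k : Fin 6) :
    v j ≤ (1 + κ) * v k := by
  have h := two_abs_le (fun b => v b - 1 / 6) D1 hD j k
  have h1 : v j - v k ≤ D1 := by
    have := le_abs_self ((v j - 1 / 6) - (v k - 1 / 6))
    linarith
  have h2 := mul_le_mul_of_nonneg_left (hv k) κ0
  linarith

/-- upper bound of the own density -/
theorem Mat.nu_up [Nonempty V] (M : Mat G w μ v X t c) (S : Fin 6 → V → Bool)
    (hS : ∀ a x, v a * μ a x = w x * ind (S a x)) (hvt : val G w = t) (x : V) (k : Fin 6) :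
    kk G x (μ k) (μ k) ≤ tt G μ k k k + 2 * (1 + 7 / 100) * BN G μ k +
      (415 / 100 * xX X + 1 / 10 ^ 6) := by
  have hm := M.m0; have hx := M.x0; have hx1 := M.x_le; have hJ := M.m_le
  have r1 := M.r1
  have b1 := BN_le (G := G) M.dec.hμ k
  have b2 := MN_le (G := G) M.dec.hμ k
  have t1 := tt_own_le (G := G) M.dec.hμ k
  have e1 : ((1 / 10 ^ 8 + (1 / 10 ^ 8) ^ 2) / (159 / 1000) ^ 2 : ℝ) ≤ 1 / 10 ^ 6 := by norm_num
  have h := M.dec.nu_num k (S k) (hS k) (1 / 10 ^ 8) (by norm_num) (by norm_num)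
    (by rw [hvt]; have := M.rt; norm_num at this ⊢; linarith) hvt (κ := 7 / 100)
    (vm := 159 / 1000) (N := 3299 / 10000)
    (fun j => ratio_le M.D1 M.lo (by norm_num) (by norm_num) j k) (by norm_num) (M.lo k)
    (by
      have e2 : (3299 / 10000 : ℝ) * (1 - 2 * xX X / (159 / 1000)) =
        3299 / 10000 - 3299 / 10000 * 2 * (1000 / 159) * xX X := by ring
      rw [e2]
      nlinarith)
    (by
      have e2 : (1 - 2 * xX X / (159 / 1000) : ℝ) = 1 - 2000 / 159 * xX X := by ring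
      rw [e2]
      linarith) x
  refine h.trans ?_
  have e3 : 2 * xX X * (3299 / 10000) / (159 / 1000) ≤ 415 / 100 * xX X := by
    have : 2 * xX X * (3299 / 10000) / (159 / 1000) =
        2 * (3299 / 10000) * (1000 / 159) * xX X := by ring
    rw [this]
    exact mul_le_mul_of_nonneg_right (by norm_num) hx
  linarith

/-- range of the derivatives at a vertex -/
theorem Mat.rng [Nonempty V] (M : Mat G w μ v X t c) (S : Fin 6 → V → Bool)
    (hS : ∀ a x, v a * μ a x = w x * ind (S a x)) (hvt : val G w = t)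
    (hν0 : ∀ x, 20355 / 100000 ≤ kk G x (μ (c x)) (μ (c x))) (y : V) (a b : Fin 6) :
    Ux G μ (c y) y a - Ux G μ (c y) y b ≤ 1 / 2 * hh G μ y (c y) + 112 / 1000 := by
  have hm := M.m0; have hx := M.x0; have hx1 := M.x_le; have hJ := M.m_le
  have r1 := M.r1
  have hhn := hh_nonneg (G := G) M.dec.hμ y (c y)
  exact range_nu M.dec.hμ (c y) y (M.nu_up S hS hvt y (c y)) (hν0 y) (by norm_num)
    (by positivity) (by linarith) (by linarith) a b

end M

section T

variable {V : Type} [Fintype V] {G : TG V} {w : V → ℝ} {μ : Fin 6 → V → ℝ} {v : Fin 6 → ℝ}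
  {t : ℝ}

/-- a pass of the partition -/
theorem Dec.passP [Nonempty V] (D : Dec G w μ v (fun _ => 0) t) (S : Fin 6 → V → Bool)
    (hSi : ∀ a x, v a * μ a x = w x * ind (S a x)) (hvt : val G w = t)
    (hrt : rho - t ≤ 1 / 10 ^ 16) (r1 : rho ≤ 28572 / 100000)
    (hS : ∀ S : Finset (Fin 6), 12 * ∑ a ∈ S, (v a - 1 / 6) ≤ 3304 / 100000)
    (hD : ∑ b, |v b - 1 / 6| ≤ 551 / 100000) (hm : mN G μ ≤ 102 / 10000)
    (k : Fin 6) (x : V) (hν0 : 22175 / 100000 ≤ kk G x (μ k) (μ k)) {c0 h1 : ℝ}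
    (hS2 : c0 * hh G μ x k + (Rx G μ x - kk G x (μ k) (μ k)) ≤
      10 + 3 / 2 * MN G μ k + 7 / 2 * (mN G μ - MN G μ k))
    (hc : 2 / 100 ≤ c0) (hh1 : 1 / 4 ≤ h1)
    (hnum : 395 / 10000 ≤ (c0 - 3304 / 200000) * h1) : hh G μ x k ≤ h1 := by
  have lo : ∀ a, 163 / 1000 ≤ v a := by
    intro a
    have h := abs_le.1 ((single_le_sum (f := fun b => |v b - 1 / 6|)
      (fun b _ => abs_nonneg _) (mem_univ a)).trans hD)
    -- use the partial sums
    have h2 := hS (univ.erase a)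
    have h3 := add_sum_erase univ (fun b => v b - 1 / 6) (mem_univ a)
    have h4 : ∑ b, (v b - 1 / 6) = 0 := by
      have := D.sum_v
      rw [sum_const_zero, add_zero] at this
      rw [sum_sub_distrib, this]; norm_num
    have h5 : v a - 1 / 6 = -∑ b ∈ univ.erase a, (v b - 1 / 6) := by linarith
    linarith
  have hν := D.nu_tot k (S k) (hSi k) (1 / 10 ^ 8) (by norm_num) (by norm_num)
    (by rw [hvt]; norm_num at hrt ⊢; linarith) hvt (κ := 34 / 1000) (vm := 163 / 1000)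
    (fun j => ratio_le hD lo (by norm_num) (by norm_num) j k) (by norm_num) (lo k) x
  have e1 : ((1 / 10 ^ 8 + (1 / 10 ^ 8) ^ 2) / (163 / 1000) ^ 2 : ℝ) ≤ 1 / 10 ^ 6 := by norm_num
  refine D.passT_num k x (Kin := 3 / 2) (Kout := 7 / 2) (c0 := c0) (KS := 3304 / 100000)
    (κ := 34 / 1000) (ε := 1 / 10 ^ 6) (ν0 := 22175 / 100000) (b := 39 / 1000)
    (D1 := 551 / 100000) (m1 := 102 / 10000) (h1 := h1) hS2 (by linarith) hν0 (by norm_num)
    (by norm_num) (by norm_num) (by norm_num) hS hD hm (by norm_num) (by linarith) (by linarith)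
    ?_
  have e2 : (3 / 2 + 2 + 4 * (34 / 1000)) * (102 / 10000) + 1 / 10 ^ 6 +
      3304 / 100000 * (39 / 1000) + 36 * (551 / 100000) ^ 2 ≤ (395 / 10000 : ℝ) := by norm_num
  have e3 : (c0 - 3304 / 100000 / 2) * h1 = (c0 - 3304 / 200000) * h1 := by ring
  rw [e3]
  exact e2.trans hnum

end T

end K4m
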