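import Mathlib
import Pool.Agent.Lib.MP_392c14_co.Acc.Mat3
import Pool.Agent.Lib.MP_392c14_co.Acc.Bridge

/-!
# Assembly of the second stage: from the matched decomposition to the good partition
-/

set_option autoImplicit false

namespace K4m

open Finset

/-- a second stage inequality with its parameters -/
def Tbl (c lam H umA umB : ℝ) : Prop :=
  ∀ {V : Type} [Fintype V] {μ : Fin 6 → V → ℝ}, (∀ a, IsW (μ a)) → ∀ {L : V → V → Bool},
    (∀ x y, L x y = L y x) →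
    (∀ x y t, ¬ (L x y = true ∧ L x t = true ∧ L y t = true)) → ∀ k : Fin 6,
    (∀ a, a ≠ k → ∀ v, 0 < μ a v → dg (μ a) L v ≤ umA) →
    (∀ b, b ≠ k → ∀ v, 0 < μ b v → dg (μ k) L v ≤ umB) →
    (∀ a b, pTab k a b = true → 1 - ∑ x, ∑ y, μ a x * μ b y * lk L x y ≤ lam) →
    hk μ L k ≤ H →
    c * (2 * hk μ L k) + ∑ a ∈ univ.erase k, qd (μ a) L ≤
      10 - 2 * E6 μ (DD L) + 3 / 2 * E6 μ (BBin k L) + 7 / 2 * E6 μ (BBout k L)

section A

variable {V : Type} [Fintype V] {G : TG V} {w : V → ℝ} {μ : Fin 6 → V → ℝ} {v : Fin 6 → ℝ}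
  {X : V → ℝ} {t : ℝ} {c : V → Fin 6}

/-- a table used at a vertex -/
theorem Tbl.use {c0 lam H um : ℝ} (T : Tbl c0 lam H um um) (hμ : ∀ a, IsW (μ a))
    (hc : ∀ a x, μ a x ≠ 0 → c x = a) {ν0 : ℝ}
    (hν0 : ∀ x, ν0 ≤ kk G x (μ (c x)) (μ (c x))) (h1 : 1 / 2 ≤ um)
    (h2 : 2 * um * (1 - um) ≤ ν0) (x : V) {p : ℝ} (hp : p ≤ pProb μ (G.E x) (c x))
    (hl : 1 - p ≤ lam) (hH : hk μ (G.E x) (c x) ≤ H) :
    c0 * hh G μ x (c x) + (Rx G μ x - kk G x (μ (c x)) (μ (c x))) ≤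
      10 + 3 / 2 * MN G μ (c x) + 7 / 2 * (mN G μ - MN G μ (c x)) := by
  refine stage2_acc hμ x (c x) (by norm_num) (by norm_num) ?_
  refine T hμ (lnk_symm G x) (lnk_free G x) (c x) ?_ ?_ ?_ hH
  · intro a _ y hy
    exact dg_own_le hμ hν0 h1 h2 hc x a y hy
  · intro b _ y _
    exact dg_cls_le hμ h1 x (c x) (h2.trans (hν0 x)) y
  · intro a b hab
    exact (miss_le hμ x (c x) a b hab).trans (by linarith)

/-- the missing density of the total partition -/
theorem Mat.total [Nonempty V] (M : Mat G w μ v X t c) (S : Fin 6 → V → Bool)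
    (hS : ∀ a x, v a * μ a x = w x * ind (S a x)) (hvt : val G w = t)
    (hp : ∀ x, 6553 / 10000 ≤ pProb μ (G.E x) (c x))
    (hν0 : ∀ x, 20355 / 100000 ≤ kk G x (μ (c x)) (μ (c x))) {c1 : ℝ}
    (T : Tbl c1 (345 / 1000) (955 / 1000) (177 / 200) (177 / 200)) (hc1 : 58 / 1000 ≤ c1) :
    mN G (muT w c) ≤ 102 / 10000 := by
  have hk1 : ∀ x, hk μ (G.E x) (c x) ≤ 955 / 1000 := by
    intro x
    have h := hk_le_of_sq M.dec.hμ x (c x) (r := 8095 / 10000)
      (le_trans (by norm_num) (hp x))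
    linarith
  refine M.mT (c0 := c1) (Kout := 7 / 2) (κ := 7 / 100)
    (ε := 415 / 100 * xX X + 1 / 10 ^ 6) ?_ le_rfl hc1 (fun y => M.nu_up S hS hvt y (c y))
    (by norm_num) le_rfl le_rfl (fun y a b => M.rng S hS hvt hν0 y a b) ?_
  · intro x
    exact T.use M.dec.hμ M.hc hν0 (by norm_num) (by norm_num) x (hp x) (by norm_num) (hk1 x)
  · intro x
    rw [hh_eq_hk]
    have := hk1 x
    linarith

/-- the sum of the relative excesses -/
theorem Mat.excess (M : Mat G w μ v X t c) :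
    ∑ a, (cl w c a - v a) / cl w c a ≤ 22 / 1000 := by
  have h1 : ∀ a, (cl w c a - v a) / cl w c a ≤ xty X c a * (1000 / 159) := by
    intro a
    have e1 := M.dec.cl_eq2 M.hc a
    have e2 := xty_nonneg (c := c) M.dec.hX a
    have e3 := M.lo a
    have e4 : 0 < cl w c a := M.dec.cl_pos2 M.hc a
    rw [div_le_iff₀ e4]
    have e5 : cl w c a - v a = xty X c a := by linarith
    rw [e5]
    have e6 : 159 / 1000 ≤ cl w c a := by linarith
    nlinarith [mul_le_mul_of_nonneg_left e6 e2]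
  refine (sum_le_sum fun a _ => h1 a).trans ?_
  rw [← sum_mul, sum_xty]
  have := M.x_le
  linarith

/-- the types of the total partition are the same -/
theorem Mat.pT (M : Mat G w μ v X t c)
    (hp : ∀ x, 6553 / 10000 ≤ pProb μ (G.E x) (c x)) {p0 : ℝ} (hp0 : 12 / 25 ≤ p0)
    (hT : ∀ x, ∃ k, p0 < pProb (muT w c) (G.E x) k) (x : V) :
    p0 < pProb (muT w c) (G.E x) (c x) := by
  obtain ⟨k, hk⟩ := hT x
  have hcl : ∀ a, 0 < cl w c a := M.dec.cl_pos2 M.hc
  have h1 := pProb_muT (L := G.E x) (k := c x) M.dec.hw.nonneg hcl M.dec.hμ (fun a y => by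
    rw [M.dec.w_class M.hc a y]
    have : 0 ≤ X y * (if c y = a then 1 else 0) := by
      have := M.dec.hX y
      split_ifs <;> linarith
    linarith)
  have h2 := M.excess
  have h3 := hp x
  have hμT : ∀ a, IsW (muT w c a) := fun a => isW_muT M.dec.hw.nonneg (hcl a)
  have h4 : k = c x := pProb_unique hμT (G.E x) k (c x) (by linarith) (by linarith)
  rw [← h4]
  exact hk

end A

/-- the passes of the total partition -/
theorem good_total {n : ℕ} {G : TG (Fin n)} {w : Fin n → ℝ} {c : Fin n → Fin 6} [Nonempty (Fin n)]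
    (hw : IsW w) (hcl : ∀ a, 0 < cl w c a) (hdeg : ∀ x, deg G w x = val G w)
    (hcnd : ∀ f : Fin n → ℝ, ∑ x, f x = 0 → tri G f f w ≤ 0)
    (hrt : rho - val G w ≤ 1 / 10 ^ 16) (r1 : rho ≤ 28572 / 100000)
    (hm : mN G (muT w c) ≤ 102 / 10000)
    (hD : ∑ b, |cl w c b - 1 / 6| ≤ 53 / 100 * mN G (muT w c) + 1 / 10 ^ 4)
    (hK : ∀ S : Finset (Fin 6), 12 * ∑ a ∈ S, (cl w c a - 1 / 6) ≤
      159 / 50 * mN G (muT w c) + 3 / 5000)
    (hp : ∀ x, 68 / 100 < pProb (muT w c) (G.E x) (c x))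
    (hν0 : ∀ x, 22175 / 100000 ≤ kk G x (muT w c (c x)) (muT w c (c x)))
    {c1 c2 c3 : ℝ} (T1 : Tbl c1 (325 / 1000) (89 / 100) (873 / 1000) (873 / 1000))
    (T2 : Tbl c2 (325 / 1000) (53 / 100) (873 / 1000) (873 / 1000))
    (T3 : Tbl c3 (325 / 1000) (28 / 100) (873 / 1000) (873 / 1000))
    (h1 : 54 / 1000 ≤ c1) (h2 : 88 / 1000 ≤ c2) (h3 : 1046 / 10000 ≤ c3) : GoodPart G w c := by
  have D : Dec G w (muT w c) (cl w c) (fun _ => 0) (val G w) :=
    dec_total G hw hcl hdeg hcnd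
  have hμT : ∀ a, IsW (muT w c a) := D.hμ
  have hcT : ∀ a x, muT w c a x ≠ 0 → c x = a := by
    intro a x hx
    by_contra h
    apply hx
    unfold muT
    rw [if_neg h, mul_zero, zero_div]
  have hD' : ∑ b, |cl w c b - 1 / 6| ≤ 551 / 100000 := by linarith
  have hK' : ∀ S : Finset (Fin 6), 12 * ∑ a ∈ S, (cl w c a - 1 / 6) ≤ 3304 / 100000 := by
    intro S
    have := hK S
    linarith
  have hSi : ∀ a x, cl w c a * muT w c a x = w x * ind (decide (c x = a)) :=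
    fun a x => muT_ind (hcl a) x
  -- one pass
  have pass : ∀ {c0 H h' : ℝ}, Tbl c0 (325 / 1000) H (873 / 1000) (873 / 1000) → 2 / 100 ≤ c0 →
      1 / 4 ≤ h' → 395 / 10000 ≤ (c0 - 3304 / 200000) * h' → ∀ x,
      hk (muT w c) (G.E x) (c x) ≤ H → hh G (muT w c) x (c x) ≤ h' := by
    intro c0 H h' T hc0 hh' hnum x hH
    have hS2 := T.use (c := c) hμT hcT hν0 (by norm_num) (by norm_num) x (hp x).le
      (by norm_num) hH
    exact D.passP (fun a x => decide (c x = a)) hSi rfl hrt r1 hK' hD' hm (c x) x (hν0 x) hS2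
      hc0 hh' hnum
  have hk0 : ∀ x, hk (muT w c) (G.E x) (c x) ≤ 89 / 100 := by
    intro x
    have h := hk_le_of_sq hμT x (c x) (r := 8245 / 10000) (le_trans (by norm_num) (hp x).le)
    linarith
  have p1 : ∀ x, hh G (muT w c) x (c x) ≤ 106 / 100 := fun x =>
    pass T1 (by linarith) (by norm_num) (by nlinarith) x (hk0 x)
  have k1 : ∀ x, hk (muT w c) (G.E x) (c x) ≤ 53 / 100 := by
    intro x
    have := p1 x
    rw [hh_eq_hk] at this
    linarith
  have p2 : ∀ x, hh G (muT w c) x (c x) ≤ 56 / 100 := fun x =>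
    pass T2 (by linarith) (by norm_num) (by nlinarith) x (k1 x)
  have k2 : ∀ x, hk (muT w c) (G.E x) (c x) ≤ 28 / 100 := by
    intro x
    have := p2 x
    rw [hh_eq_hk] at this
    linarith
  have p3 : ∀ x, hh G (muT w c) x (c x) ≤ 449 / 1000 := fun x =>
    pass T3 (by linarith) (by norm_num) (by nlinarith) x (k2 x)
  refine goodPart_of hw.nonneg hcl ?_ (fun S => (hK' S).trans (by norm_num)) p3 (by linarith)
  have := D.sum_v
  rw [sum_const_zero, add_zero] at this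
  rw [sum_sub_distrib, this]; norm_num

end K4m
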