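import Mathlib
import Pool.Agent.Lib.MP_392c14_co.Acc.Dec

/-!
# The decomposition given by the clones of a standard copy
-/

set_option autoImplicit false

namespace K4m

open Finset Function

section Clone

variable {V : Type} [Fintype V] [DecidableEq V] (G : TG V) (w : V → ℝ)

theorem vs_mul_muU (hpos : ∀ x, 0 < w x) {u : Fin 6 → V} (hu : St G u) (a : Fin 6) (x : V) :
    vs G w u a * muU G w u a x = w x * st G (update u a x) := by
  unfold muU
  exact mul_div_cancel₀ _ (vs_pos G w hpos u hu a).ne'

/-- the normalised classes of the clones are probability measures -/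
theorem isW_muU (hpos : ∀ x, 0 < w x) {u : Fin 6 → V} (hu : St G u) (a : Fin 6) :
    IsW (muU G w u a) where
  nonneg x := div_nonneg (mul_nonneg (hpos x).le (st_nonneg G _)) (vs_pos G w hpos u hu a).le
  sum_eq := by
    have h : ∑ x, muU G w u a x = (∑ x, w x * st G (update u a x)) / vs G w u a := by
      rw [sum_div]; rfl
    rw [h]
    exact div_self (vs_pos G w hpos u hu a).ne'

theorem XU_nonneg (hw : ∀ x, 0 ≤ w x) {u : Fin 6 → V} (hu : St G u) (x : V) :
    0 ≤ XU G w u x := by
  unfold XU
  refine mul_nonneg (hw x) ?_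
  rw [← gu_eq G hu]
  rcases gu01 G u x with h | h <;> rw [h] <;> norm_num

/-- decomposition of the weights by a standard copy -/
theorem dec_clone {t : ℝ} (hw : IsW w) (hpos : ∀ x, 0 < w x) (hdeg : ∀ x, deg G w x = t)
    (hcnd : ∀ f : V → ℝ, ∑ x, f x = 0 → tri G f f w ≤ 0) {u : Fin 6 → V} (hu : St G u) :
    Dec G w (muU G w u) (vs G w u) (XU G w u) t where
  hw := hw
  hμ := isW_muU G w hpos hu
  hv := vs_pos G w hpos u hu
  hX := XU_nonneg G w hw.nonneg hu
  dec x := by
    rw [sum_congr rfl fun a _ => vs_mul_muU G w hpos hu a x]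
    unfold XU
    rw [← mul_sum]
    ring
  hdeg := hdeg
  hcnd := hcnd

omit [DecidableEq V] in
theorem sum_XU (u : Fin 6 → V) : ∑ x, XU G w u x = Xu G w u := rfl

/-- the support of a class consists of clones -/
theorem muU_supp {u : Fin 6 → V} {a : Fin 6} {x : V} (h : muU G w u a x ≠ 0) :
    St G (update u a x) := by
  rcases st_cases G (update u a x) with ⟨p, _⟩ | ⟨_, q⟩
  · exact p
  · exfalso
    apply h
    unfold muU
    rw [q, mul_zero, zero_div]

theorem muU_eq_zero {u : Fin 6 → V} {a : Fin 6} {x : V} (h : ¬ St G (update u a x)) :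
    muU G w u a x = 0 := by
  by_contra h'
  exact h (muU_supp G w h')

/-- the supports of the classes are disjoint -/
theorem muU_unique {u : Fin 6 → V} (hu : St G u) {a b : Fin 6} {x : V}
    (ha : muU G w u a x ≠ 0) (hb : muU G w u b x ≠ 0) : a = b :=
  clone_unique G hu (muU_supp G w ha) (muU_supp G w hb)

theorem muU_gp {u : Fin 6 → V} (hu : St G u) (a : Fin 6) (x : V) :
    muU G w u a x = w x * gp (cu G u) (gu G u) a x / ma w (gp (cu G u) (gu G u) a) := by
  unfold muU
  rw [gp_cu G hu, ma_cu G w hu]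

theorem XU_gu {u : Fin 6 → V} (hu : St G u) (x : V) : XU G w u x = w x * (1 - gu G u x) := by
  unfold XU
  rw [gu_eq G hu]

/-- the missing density between three classes -/
theorem one_sub_tt (hpos : ∀ x, 0 < w x) {u : Fin 6 → V} (hu : St G u) (i j k : Fin 6) :
    1 - tt G (muU G w u) i j k =
      Mm G w i j k u / (vs G w u i * vs G w u j * vs G w u k) := by
  have hi := vs_pos G w hpos u hu i
  have hj := vs_pos G w hpos u hu j
  have hk := vs_pos G w hpos u hu k
  have hne : vs G w u i * vs G w u j * vs G w u k ≠ 0 :=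
    (mul_pos (mul_pos hi hj) hk).ne'
  rw [eq_div_iff hne]
  have e1 : (1 - tt G (muU G w u) i j k) * (vs G w u i * vs G w u j * vs G w u k) =
      vs G w u i * vs G w u j * vs G w u k -
        ∑ x, ∑ y, ∑ z, (vs G w u i * muU G w u i x) * (vs G w u j * muU G w u j y) *
          (vs G w u k * muU G w u k z) * ind (G.E x y z) := by
    have : ∑ x, ∑ y, ∑ z, (vs G w u i * muU G w u i x) * (vs G w u j * muU G w u j y) *
          (vs G w u k * muU G w u k z) * ind (G.E x y z) =
        tt G (muU G w u) i j k * (vs G w u i * vs G w u j * vs G w u k) := by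
      unfold tt tri
      rw [sum_mul]
      refine sum_congr rfl fun x _ => ?_
      rw [sum_mul]
      refine sum_congr rfl fun y _ => ?_
      rw [sum_mul]
      refine sum_congr rfl fun z _ => ?_
      ring
    rw [this]; ring
  rw [e1]
  have e2 : vs G w u i * vs G w u j * vs G w u k = ∑ x, ∑ y, ∑ z,
      (w x * st G (update u i x)) * (w y * st G (update u j y)) *
        (w z * st G (update u k z)) := by
    unfold vs
    rw [mul_assoc, sum_mul]
    refine sum_congr rfl fun x _ => ?_
    rw [sum_mul, mul_sum]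
    refine sum_congr rfl fun y _ => ?_
    rw [mul_sum, mul_sum]
    exact sum_congr rfl fun z _ => by ring
  rw [e2, ← sum_sub_distrib]
  unfold Mm
  refine sum_congr rfl fun x _ => ?_
  rw [← sum_sub_distrib]
  refine sum_congr rfl fun y _ => ?_
  rw [← sum_sub_distrib]
  refine sum_congr rfl fun z _ => ?_
  rw [vs_mul_muU G w hpos hu, vs_mul_muU G w hpos hu, vs_mul_muU G w hpos hu]
  ring

/-- the missing density between three classes, by the resampling functionals -/
theorem one_sub_tt_le (hpos : ∀ x, 0 < w x) {u : Fin 6 → V} (hu : St G u) {vm : ℝ}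
    (hvm : 0 < vm) (hv : ∀ k, vm ≤ vs G w u k) (i j k : Fin 6) (hij : i ≠ j) :
    1 - tt G (muU G w u) i j k ≤ (PK G w i (xi G w i j) u +
      (1 + Xu G w u / vm) * PK G w i (PK G w j (xm G w i j k)) u) / vm := by
  have hw0 : ∀ x, 0 ≤ w x := fun x => (hpos x).le
  have hi := vs_pos G w hpos u hu i
  have hj := vs_pos G w hpos u hu j
  have hk := vs_pos G w hpos u hu k
  have hP := PK_nonneg G w hw0 i _ (xi_nonneg G w hw0 i j) u
  have hQ := PK_nonneg G w hw0 i _ (fun u => PK_nonneg G w hw0 j _
    (xm_nonneg G w hw0 i j k) u) u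
  have hX := Xu_nonneg G w hw0 hu
  have hxi := xi_le_Xu G w hw0 hu i j hij
  rw [one_sub_tt G w hpos hu]
  set P := PK G w i (xi G w i j) u
  set Q := PK G w i (PK G w j (xm G w i j k)) u
  set vi := vs G w u i
  set vj := vs G w u j
  set vk := vs G w u k
  have h1 : Mm G w i j k u ≤ vk * (vi * P) + (vj + Xu G w u) * (vi * Q) := by
    refine (Mm_le G w hpos u hu i j k hij).trans (add_le_add ?_ ?_)
    · exact mul_le_mul_of_nonneg_left (Fm_le G w hpos u hu i j) hk.le
    · exact mul_le_mul_of_nonneg_right (by linarith) (mul_nonneg hi.le hQ)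
  have hprod : 0 < vi * vj * vk := mul_pos (mul_pos hi hj) hk
  have h2 : Mm G w i j k u / (vi * vj * vk) ≤ P / vj + (1 + Xu G w u / vj) * Q / vk := by
    rw [div_le_iff₀ hprod]
    refine h1.trans (le_of_eq ?_)
    field_simp
  refine h2.trans ?_
  have h3 : P / vj ≤ P / vm := div_le_div_of_nonneg_left hP hvm (hv j)
  have h4 : Xu G w u / vj ≤ Xu G w u / vm := div_le_div_of_nonneg_left hX hvm (hv j)
  have h5 : (1 + Xu G w u / vj) * Q / vk ≤ (1 + Xu G w u / vm) * Q / vm := by
    have h6 : (1 + Xu G w u / vj) * Q ≤ (1 + Xu G w u / vm) * Q :=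
      mul_le_mul_of_nonneg_right (by linarith) hQ
    have h7 : 0 ≤ (1 + Xu G w u / vm) * Q :=
      mul_nonneg (by have := div_nonneg hX hvm.le; linarith) hQ
    calc (1 + Xu G w u / vj) * Q / vk ≤ (1 + Xu G w u / vm) * Q / vk :=
          div_le_div_of_nonneg_right h6 hk.le
      _ ≤ (1 + Xu G w u / vm) * Q / vm := div_le_div_of_nonneg_left h7 hvm (hv k)
  rw [add_div]
  linarith

/-- the expected number of missing blocks by the resampling functionals -/
theorem mN_clone (hpos : ∀ x, 0 < w x) {u : Fin 6 → V} (hu : St G u) {vm : ℝ}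
    (hvm : 0 < vm) (hv : ∀ k, vm ≤ vs G w u k) :
    6 * mN G (muU G w u) ≤ (2 * Pf G w u + (1 + Xu G w u / vm) * Qf G w u) / vm := by
  have h0 : 6 * mN G (muU G w u) = ∑ i, ∑ j, ∑ k, pB G (muU G w u) i j k := by
    unfold mN; ring
  rw [h0]
  have h1 : ∀ i j k, pB G (muU G w u) i j k ≤ (blk i j k * (nee i j * PK G w i (xi G w i j) u) +
      (1 + Xu G w u / vm) * (blk i j k * PK G w i (PK G w j (xm G w i j k)) u)) / vm := by
    intro i j k
    unfold pB
    by_cases hij : i = j
    · subst hij
      rw [blk_eq_zero]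
      simp
    · have hn : nee i j = 1 := by unfold nee; rw [if_neg hij]
      have h2 := mul_le_mul_of_nonneg_left (one_sub_tt_le G w hpos hu hvm hv i j k hij)
        (blk_nonneg i j k)
      refine h2.trans (le_of_eq ?_)
      rw [hn]; ring
  refine (sum_le_sum fun i _ => sum_le_sum fun j _ => sum_le_sum fun k _ => h1 i j k).trans
    (le_of_eq ?_)
  simp only [← sum_div, sum_add_distrib, ← mul_sum]
  have h5 : ∑ i, ∑ j, (∑ k, blk i j k) * (nee i j * PK G w i (xi G w i j) u) =
      2 * Pf G w u := by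
    unfold Pf
    simp only [mul_sum]
    refine sum_congr rfl fun i _ => sum_congr rfl fun j _ => ?_
    by_cases hij : i = j
    · have hn : nee i j = 0 := by unfold nee; rw [if_pos hij]
      rw [hn]; ring
    · rw [blk_sum i j hij]
  simp only [← sum_mul]
  rw [h5]
  unfold Qf
  rfl

end Clone

end K4m
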