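import Mathlib
import Pool.Agent.Lib.MP_392c14_co.Acc.OwnB

/-!
# Degrees in the link and the pentagon events
-/

set_option autoImplicit false

namespace K4m

open Finset Function

section Deg6

variable {V : Type} [Fintype V]

/-- degree of the class `a` in the link of `x`, other classes only -/
noncomputable def Dn (G : TG V) (μ : Fin 6 → V → ℝ) (x : V) (a : Fin 6) : ℝ :=
  ∑ b, nee a b * kk G x (μ a) (μ b)

theorem c5_nat : ∀ a : Fin 6, ∀ m : Fin 64,
    2 * (univ.filter fun b : Fin 6 => (!(a == b) && Nat.testBit m b) = true).card ≤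
      4 + (univ.filter fun p : Fin 6 × Fin 6 =>
        (D6.E a p.1 p.2 && (Nat.testBit m p.1 && Nat.testBit m p.2)) = true).card := by
  decide +kernel

theorem c5_real (a : Fin 6) (s : Fin 6 → Bool) :
    2 * ∑ b, nee a b * ind (s b) ≤ 4 + ∑ b, ∑ c, blk a b c * (ind (s b) * ind (s c)) := by
  obtain ⟨m, hm⟩ := pMask' s
  have e1 : ∑ b, nee a b * ind (s b) =
      ((univ.filter fun b : Fin 6 => (!(a == b) && Nat.testBit m b) = true).card : ℝ) := by
    rw [← sum_boole]
    refine sum_congr rfl fun b _ => ?_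
    rw [hm b]
    unfold nee ind
    by_cases h : a = b
    · simp [h]
    · rcases hs : s b <;> simp [h]
  have e2 : ∑ b, ∑ c, blk a b c * (ind (s b) * ind (s c)) =
      ((univ.filter fun p : Fin 6 × Fin 6 =>
        (D6.E a p.1 p.2 && (Nat.testBit m p.1 && Nat.testBit m p.2)) = true).card : ℝ) := by
    rw [← sum_boole, Fintype.sum_prod_type]
    refine sum_congr rfl fun b _ => sum_congr rfl fun c _ => ?_
    dsimp only
    rw [hm b, hm c]
    unfold blk ind
    rcases D6.E a b c <;> rcases s b <;> rcases s c <;> simp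
  rw [e1, e2]
  exact_mod_cast c5_nat a m

theorem degs_le (G : TG V) (x : V) (a : Fin 6) (z : Fin 6 → V) :
    ∑ b, nee a b * ind (G.E x (z a) (z b)) ≤ 2 * (1 - pInd (G.E x) a z) +
      1 / 2 * ∑ b, ∑ c, blk a b c * (1 - ind (G.E (z a) (z b) (z c))) := by
  have h0 : ∀ b c, 0 ≤ blk a b c * (1 - ind (G.E (z a) (z b) (z c))) := fun b c =>
    mul_nonneg (blk_nonneg _ _ _) (by have := ind_le_one (G.E (z a) (z b) (z c)); linarith)
  rcases pInd_cases (G.E x) a z with ⟨h1, h2⟩ | ⟨_, h2⟩
  · rw [h2]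
    have e : ∑ b, nee a b * ind (G.E x (z a) (z b)) = 0 := by
      refine sum_eq_zero fun b _ => ?_
      have h3 := h1 a b
      rw [← pTab_eq, D6.irr] at h3
      rw [h3]
      unfold ind; simp
    rw [e]
    have : 0 ≤ ∑ b, ∑ c, blk a b c * (1 - ind (G.E (z a) (z b) (z c))) :=
      sum_nonneg fun b _ => sum_nonneg fun c _ => h0 b c
    linarith
  · rw [h2]
    have h3 := c5_real a (fun b => G.E x (z a) (z b))
    have h4 : ∑ b, ∑ c, blk a b c * (ind (G.E x (z a) (z b)) * ind (G.E x (z a) (z c))) ≤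
        ∑ b, ∑ c, blk a b c * (1 - ind (G.E (z a) (z b) (z c))) := by
      refine sum_le_sum fun b _ => sum_le_sum fun c _ => ?_
      refine mul_le_mul_of_nonneg_left ?_ (blk_nonneg _ _ _)
      have hf := G.free (z a) x (z b) (z c)
      rw [G.symm₁ x (z a) (z b), G.symm₁ x (z a) (z c)] at hf
      unfold ind
      rcases h5 : G.E x (z a) (z b) <;> rcases h6 : G.E x (z a) (z c) <;>
        rcases h7 : G.E (z a) (z b) (z c) <;> simp [h5, h6, h7] at hf ⊢
    linarith

theorem pTab_row : ∀ k a : Fin 6,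
    (univ.filter fun b : Fin 6 => (!(a == b) && pTab k a b) = true).card =
      if a = k then 0 else 2 := by decide +kernel

theorem degs_ge (G : TG V) (x : V) (a : Fin 6) (z : Fin 6 → V) :
    2 * ∑ j, nee a j * pInd (G.E x) j z ≤ ∑ b, nee a b * ind (G.E x (z a) (z b)) := by
  by_cases h : ∃ k, ∀ a b : Fin 6, G.E x (z a) (z b) = pTab k a b
  · obtain ⟨k, hk⟩ := h
    have h1 : ∑ b, nee a b * ind (G.E x (z a) (z b)) = if a = k then 0 else 2 := by
      have e1 : ∑ b, nee a b * ind (G.E x (z a) (z b)) =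
          ((univ.filter fun b : Fin 6 => (!(a == b) && pTab k a b) = true).card : ℝ) := by
        rw [← sum_boole]
        refine sum_congr rfl fun b _ => ?_
        rw [hk a b]
        unfold nee ind
        by_cases h : a = b
        · simp [h]
        · rcases hs : pTab k a b <;> simp [h]
      rw [e1, pTab_row k a]
      split_ifs <;> norm_num
    have h2 : ∑ j, nee a j * pInd (G.E x) j z = nee a k := by
      rw [sum_eq_single_of_mem k (mem_univ k), pInd_one hk, mul_one]
      intro j _ hjk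
      have : pInd (G.E x) j z = 0 := by
        refine pInd_zero fun hj => hjk ?_
        refine pent_unique (L := G.E x) (i := 0) (z := z) (v := z 0) hk ?_
        rw [Function.update_eq_self]
        exact hj
      rw [this, mul_zero]
    rw [h1, h2]
    unfold nee
    split_ifs <;> norm_num
  · have h2 : ∑ j, nee a j * pInd (G.E x) j z = 0 := by
      refine sum_eq_zero fun j _ => ?_
      have : pInd (G.E x) j z = 0 := pInd_zero fun hj => h ⟨j, hj⟩
      rw [this, mul_zero]
    rw [h2, mul_zero]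
    exact sum_nonneg fun b _ => mul_nonneg (nee_nonneg _ _) (ind_nonneg _)

theorem E6_degs (G : TG V) {μ : Fin 6 → V → ℝ} (hμ : ∀ a, IsW (μ a)) (x : V) (a : Fin 6) :
    E6 μ (fun z => ∑ b, nee a b * ind (G.E x (z a) (z b))) = Dn G μ x a := by
  rw [E6_sum]
  unfold Dn
  refine sum_congr rfl fun b _ => ?_
  rcases nee_cases a b with ⟨_, e⟩ | ⟨h, e⟩
  · rw [e]
    simp only [zero_mul]
    exact E6_const hμ 0
  · rw [E6_smul, E6_ind2 G hμ x a b h]

theorem Dn_ge (G : TG V) {μ : Fin 6 → V → ℝ} (hμ : ∀ a, IsW (μ a)) (x : V) (a : Fin 6) :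
    2 * ∑ j, nee a j * pProb μ (G.E x) j ≤ Dn G μ x a := by
  rw [← E6_degs G hμ x a]
  have h1 : 2 * ∑ j, nee a j * pProb μ (G.E x) j =
      E6 μ (fun z => 2 * ∑ j, nee a j * pInd (G.E x) j z) := by
    rw [E6_smul, E6_sum]
    congr 1
    refine sum_congr rfl fun j _ => ?_
    rw [E6_smul]
    rfl
  rw [h1]
  exact E6_mono hμ fun z => degs_ge G x a z

theorem Dn_le (G : TG V) {μ : Fin 6 → V → ℝ} (hμ : ∀ a, IsW (μ a)) (x : V) (a : Fin 6) :
    Dn G μ x a ≤ 2 * (1 - pProb μ (G.E x) a) + MN G μ a := by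
  rw [← E6_degs G hμ x a]
  have h1 : 2 * (1 - pProb μ (G.E x) a) + MN G μ a =
      E6 μ (fun z => 2 * (1 - pInd (G.E x) a z) +
        1 / 2 * ∑ b, ∑ c, blk a b c * (1 - ind (G.E (z a) (z b) (z c)))) := by
    rw [E6_add, E6_smul, E6_sub, E6_const hμ, E6_smul, E6_sum]
    unfold MN
    congr 2
    refine sum_congr rfl fun b _ => ?_
    rw [E6_sum]
    refine sum_congr rfl fun c _ => ?_
    rw [E6_smul]
    unfold pB
    by_cases hab : a = b
    · subst hab; rw [blk_eq_zero]; ring
    · by_cases hac : a = c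
      · subst hac
        rw [blk_swap23, blk_eq_zero]; ring
      · by_cases hbc : b = c
        · subst hbc
          have : blk a b b = 0 := by
            rw [← blk_swap12, ← blk_swap23, blk_eq_zero]
          rw [this]; ring
        · rw [E6_ind3 G hμ a b c hab hac hbc]
  rw [h1]
  exact E6_mono hμ fun z => degs_le G x a z

end Deg6

end K4m
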