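import Mathlib
import Pool.Agent.Lib.MP_392c14_co.Acc.RL
import Pool.Agent.Lib.MP_392c14_co.Replace

/-!
# Linear sizes, part 1: replacement in the uniform mixture
-/

set_option autoImplicit false

namespace K4m

open Finset

section Ws

variable {V : Type} [Fintype V] {G : TG V} {μ : Fin 6 → V → ℝ} {c : V → Fin 6}

theorem ws_nonneg (hμ : ∀ a, IsW (μ a)) (x : V) : 0 ≤ ws μ x := by
  unfold ws
  exact sum_nonneg fun a _ => mul_nonneg (by norm_num) ((hμ a).nonneg x)

theorem sum_ws (hμ : ∀ a, IsW (μ a)) : ∑ x, ws μ x = 1 := by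
  unfold ws
  rw [sum_comm]
  have : ∀ a, ∑ x, 1 / 6 * μ a x = 1 / 6 := by
    intro a; rw [← mul_sum, (hμ a).sum_eq, mul_one]
  rw [sum_congr rfl fun a _ => this a, sum_const, card_univ, Fintype.card_fin]
  norm_num

theorem val_ws : val G (ws μ) = (∑ i, ∑ j, ∑ k, tt G μ i j k) / 216 := by
  rw [val_eq_tri]
  have e : tri G (ws μ) (ws μ) (ws μ) = ∑ a, 1 / 6 * tri G (μ a) (ws μ) (ws μ) := by
    have : ws μ = fun y => ∑ a, 1 / 6 * μ a y := rfl
    conv_lhs => rw [this, tri_sum1]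
    rfl
  rw [e, sum_div]
  refine sum_congr rfl fun a _ => ?_
  rw [tri_ws_ws]
  unfold Dp tt
  ring

omit [Fintype V] in
theorem pin_mul_ws (hc : ∀ a x, μ a x ≠ 0 → c x = a) (k : Fin 6) (x : V) :
    ws μ x * pin c k x = 1 / 6 * μ k x := by
  unfold ws pin
  by_cases h : c x = k
  · rw [if_pos h, mul_one]
    refine sum_eq_single k ?_ ?_
    · intro b _ hb
      by_contra h2
      have h3 : μ b x ≠ 0 := fun h4 => h2 (by rw [h4, mul_zero])
      exact hb ((hc b x h3).symm.trans h)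
    · intro h2; exact absurd (mem_univ _) h2
  · rw [if_neg h, mul_zero]
    by_contra h2
    have h3 : μ k x ≠ 0 := fun h4 => h2 (by rw [h4, mul_zero])
    exact h (hc k x h3)

theorem cl_ws (hμ : ∀ a, IsW (μ a)) (hc : ∀ a x, μ a x ≠ 0 → c x = a) (k : Fin 6) :
    cl (ws μ) c k = 1 / 6 := by
  rw [cl_eq_pin]
  rw [sum_congr rfl fun x _ => pin_mul_ws hc k x, ← mul_sum, (hμ k).sum_eq, mul_one]

theorem VV_ws (hc : ∀ a x, μ a x ≠ 0 → c x = a) (k : Fin 6) :
    VV G (ws μ) c k = tt G μ k k k / 216 := by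
  unfold VV
  have e : (fun x => ws μ x * pin c k x) = fun x => 1 / 6 * μ k x := by
    funext x; exact pin_mul_ws hc k x
  rw [e, val_eq_tri, tri_smul1, tri_smul2, tri_smul3]
  unfold tt
  ring

theorem KKs_ws (hc : ∀ a x, μ a x ≠ 0 → c x = a) (k : Fin 6) :
    KKs G (ws μ) c k = BN G μ k / 216 := by
  have e1 : KKs G (ws μ) c k = tri G (fun x => 1 / 6 * μ k x) (fun x => 1 / 6 * μ k x)
      (fun x => ws μ x + (-1 / 6) * μ k x) := by
    unfold KKs T3 tri
    refine sum_congr rfl fun x _ => sum_congr rfl fun y _ => sum_congr rfl fun z _ => ?_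
    have hx := pin_mul_ws (μ := μ) hc k x
    have hy := pin_mul_ws (μ := μ) hc k y
    have hz := pin_mul_ws (μ := μ) hc k z
    calc ws μ x * ws μ y * ws μ z * (pin c k x * pin c k y * ((1 - pin c k z) *
        ind (G.E x y z))) = (ws μ x * pin c k x) * (ws μ y * pin c k y) *
        (ws μ z - ws μ z * pin c k z) * ind (G.E x y z) := by ring
      _ = _ := by rw [hx, hy, hz]; ring
  rw [e1, tri_smul1, tri_smul2, tri_lin3 G (μ k) (μ k) (ws μ) (μ k) (-1 / 6), tri_ws]
  have e2 : ∑ a, tri G (μ k) (μ k) (μ a) = BN G μ k + tri G (μ k) (μ k) (μ k) := by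
    unfold BN
    have h : ∀ a, tri G (μ k) (μ k) (μ a) = nee k a * tt G μ k k a +
        (if k = a then tri G (μ k) (μ k) (μ k) else 0) := by
      intro a
      unfold nee tt
      by_cases h : k = a
      · subst h; simp
      · simp [h]
    rw [sum_congr rfl fun a _ => h a, sum_add_distrib, sum_ite_eq, if_pos (mem_univ _)]
  rw [e2]
  ring

/-- replacement in the uniform mixture -/
theorem repl_ws (hμ : ∀ a, IsW (μ a)) (hc : ∀ a x, μ a x ≠ 0 → c x = a)
    (J : Finset (Fin 6)) : ∑ a ∈ J, (eN G μ a - 3 * BN G μ a) ≤ dN G μ := by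
  classical
  have h := repl_le G (ws μ) c (ws_nonneg hμ) (fun a => decide (a ∈ J))
  rw [sum_ws hμ, val_ws] at h
  have e : sJ (fun a => decide (a ∈ J)) (fun k => rho * cl (ws μ) c k ^ 3 - VV G (ws μ) c k -
      3 * KKs G (ws μ) c k) = (∑ a ∈ J, (eN G μ a - 3 * BN G μ a)) / 216 := by
    unfold sJ
    have h1 : ∀ k, ind (decide (k ∈ J)) * (rho * cl (ws μ) c k ^ 3 - VV G (ws μ) c k -
        3 * KKs G (ws μ) c k) = if k ∈ J then (eN G μ k - 3 * BN G μ k) / 216 else 0 := by
      intro k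
      rw [cl_ws hμ hc, VV_ws hc, KKs_ws hc]
      unfold ind eN
      by_cases hk : k ∈ J
      · simp only [hk, decide_true, if_true]
        ring
      · simp [hk]
    rw [sum_congr rfl fun k _ => h1 k, sum_ite_mem, univ_inter, sum_div]
  rw [e] at h
  unfold dN
  linarith

/-- the uniform mixture is not better than the best value -/
theorem ls_dN_nonneg (hμ : ∀ a, IsW (μ a)) : 0 ≤ dN G μ := by
  have h := val_le_rho G (ws μ) ⟨ws_nonneg hμ, sum_ws hμ⟩
  rw [val_ws] at h
  unfold dN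
  linarith

theorem ls_sum_YN : ∑ a, YN G μ a = 210 * rho - 60 - dN G μ := by
  unfold YN dN
  rw [sum_sub_distrib, sum_const, card_univ, Fintype.card_fin]
  simp only [nsmul_eq_mul]
  push_cast
  ring

theorem eN_le (hμ : ∀ a, IsW (μ a)) (hc : ∀ a x, μ a x ≠ 0 → c x = a) (a : Fin 6) :
    eN G μ a ≤ 3 * BN G μ a + dN G μ := by
  have h := repl_ws (G := G) hμ hc {a}
  rw [sum_singleton] at h
  linarith

end Ws

end K4m
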