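import Mathlib
import Pool.Agent.Lib.MP_392c14_co.Acc.LinS1
import Pool.Agent.Lib.MP_392c14_co.Acc.Pass

/-!
# Linear sizes, part 2: the identity of a set of classes

The test vector is `FT = Σ cT a μ_a` with `cT a = [a ∈ S] - |S|/6`, the weights are written as
`w = (1 - ξ) ws + σ + X`.
-/

set_option autoImplicit false

namespace K4m

open Finset

section Coef

/-- coefficients of the test vector of a set of classes -/
noncomputable def cT (S : Finset (Fin 6)) (a : Fin 6) : ℝ :=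
  (if a ∈ S then 1 else 0) - (S.card : ℝ) / 6

/-- `|S| (1 - |S| / 6)` -/
noncomputable def mT (S : Finset (Fin 6)) : ℝ := (S.card : ℝ) * (1 - (S.card : ℝ) / 6)

theorem card_le_six (S : Finset (Fin 6)) : (S.card : ℝ) ≤ 6 := by
  have h := card_le_univ S
  rw [Fintype.card_fin] at h
  exact_mod_cast h

theorem sum_ind_S (S : Finset (Fin 6)) (x : ℝ) :
    ∑ a : Fin 6, (if a ∈ S then x else 0) = (S.card : ℝ) * x := by
  rw [sum_ite_mem, univ_inter, sum_const, nsmul_eq_mul]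

theorem sum_cT (S : Finset (Fin 6)) : ∑ a, cT S a = 0 := by
  unfold cT
  rw [sum_sub_distrib, sum_ind_S, sum_const, card_univ, Fintype.card_fin]
  simp only [nsmul_eq_mul]
  push_cast
  ring

theorem mT_nonneg (S : Finset (Fin 6)) : 0 ≤ mT S := by
  have := card_le_six S
  have h0 : (0 : ℝ) ≤ S.card := Nat.cast_nonneg _
  unfold mT
  exact mul_nonneg h0 (by linarith)

theorem mT_le (S : Finset (Fin 6)) : mT S ≤ 3 / 2 := by
  unfold mT
  nlinarith [sq_nonneg ((S.card : ℝ) - 3)]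

theorem cT_mul (S : Finset (Fin 6)) (f : Fin 6 → ℝ) :
    ∑ a, cT S a * f a = ∑ a ∈ S, f a - (S.card : ℝ) / 6 * ∑ a, f a := by
  unfold cT
  simp only [sub_mul, ite_mul, one_mul, zero_mul]
  rw [sum_sub_distrib, sum_ite_mem, univ_inter, mul_sum]

theorem cT_up (S : Finset (Fin 6)) (k : Fin 6 → ℝ) (K : ℝ) (h0 : ∀ a, 0 ≤ k a)
    (h1 : ∀ a, k a ≤ K) : ∑ a, cT S a * k a ≤ mT S * K := by
  have hc := card_le_six S
  have hc0 : (0 : ℝ) ≤ S.card := Nat.cast_nonneg _
  have h : ∀ a, cT S a * k a ≤ if a ∈ S then (1 - (S.card : ℝ) / 6) * K else 0 := by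
    intro a
    unfold cT
    split_ifs
    · exact mul_le_mul_of_nonneg_left (h1 a) (by linarith)
    · have := mul_nonneg hc0 (h0 a)
      nlinarith
  refine (sum_le_sum fun a _ => h a).trans (le_of_eq ?_)
  rw [sum_ind_S]
  unfold mT
  ring

theorem cT_dn (S : Finset (Fin 6)) (k : Fin 6 → ℝ) (K : ℝ) (h0 : ∀ a, 0 ≤ k a)
    (h1 : ∀ a, k a ≤ K) : -(mT S * K) ≤ ∑ a, cT S a * k a := by
  have hc := card_le_six S
  have hc0 : (0 : ℝ) ≤ S.card := Nat.cast_nonneg _
  have h : ∀ a, (if a ∈ S then (S.card : ℝ) / 6 * K else 0) - (S.card : ℝ) / 6 * K ≤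
      cT S a * k a := by
    intro a
    unfold cT
    split_ifs
    · have := mul_nonneg (by linarith : 0 ≤ 1 - (S.card : ℝ) / 6) (h0 a)
      linarith
    · have := mul_le_mul_of_nonneg_left (h1 a) (by linarith : 0 ≤ (S.card : ℝ) / 6)
      linarith
  refine le_trans (le_of_eq ?_) (sum_le_sum fun a _ => h a)
  rw [sum_sub_distrib, sum_ind_S, sum_const, card_univ, Fintype.card_fin]
  unfold mT
  simp only [nsmul_eq_mul]
  push_cast
  ring

theorem sum_abs_cT (S : Finset (Fin 6)) : ∑ a, |cT S a| = 2 * mT S := by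
  have hc := card_le_six S
  have hc0 : (0 : ℝ) ≤ S.card := Nat.cast_nonneg _
  have h : ∀ a, |cT S a| = (if a ∈ S then 1 - (S.card : ℝ) / 3 else 0) + (S.card : ℝ) / 6 := by
    intro a
    unfold cT
    split_ifs
    · rw [abs_of_nonneg (by linarith)]; ring
    · rw [abs_of_nonpos (by linarith)]; ring
  rw [sum_congr rfl fun a _ => h a, sum_add_distrib, sum_ind_S, sum_const, card_univ,
    Fintype.card_fin]
  unfold mT
  simp only [nsmul_eq_mul]
  push_cast
  ring

theorem sum_sq_cT (S : Finset (Fin 6)) : ∑ a, cT S a * cT S a = mT S := by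
  have h : ∀ a, cT S a * cT S a = (if a ∈ S then 1 - (S.card : ℝ) / 3 else 0) +
      ((S.card : ℝ) / 6) ^ 2 := by
    intro a
    unfold cT
    split_ifs
    · ring
    · ring
  rw [sum_congr rfl fun a _ => h a, sum_add_distrib, sum_ind_S, sum_const, card_univ,
    Fintype.card_fin]
  unfold mT
  simp only [nsmul_eq_mul]
  push_cast
  ring

theorem cT_abs (S : Finset (Fin 6)) (x : Fin 6 → ℝ) (K : ℝ) (h : ∀ a, |x a| ≤ K) :
    |∑ a, cT S a * x a| ≤ 2 * mT S * K := by
  calc |∑ a, cT S a * x a| ≤ ∑ a, |cT S a * x a| := abs_sum_le_sum_abs _ _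
    _ ≤ ∑ a, |cT S a| * K := by
        refine sum_le_sum fun a _ => ?_
        rw [abs_mul]
        exact mul_le_mul_of_nonneg_left (h a) (abs_nonneg _)
    _ = 2 * mT S * K := by rw [← sum_mul, sum_abs_cT]

end Coef

section FTv

variable {V : Type} [Fintype V] (G : TG V) (μ : Fin 6 → V → ℝ) (S : Finset (Fin 6))

/-- test vector of a set of classes -/
noncomputable def FT (y : V) : ℝ := ∑ a, cT S a * μ a y

/-- combination of the deviations of the row sums -/
noncomputable def RT (b : Fin 6) : ℝ := ∑ a, cT S a * Rp G μ a b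

theorem sum_FT (hμ : ∀ a, IsW (μ a)) : ∑ y, FT μ S y = 0 := by
  unfold FT
  rw [sum_comm]
  have : ∀ a, ∑ y, cT S a * μ a y = cT S a := by
    intro a; rw [← mul_sum, (hμ a).sum_eq, mul_one]
  rw [sum_congr rfl fun a _ => this a, sum_cT]

theorem tri_FT (f g : V → ℝ) : tri G (FT μ S) f g = ∑ a, cT S a * tri G (μ a) f g := by
  have e : FT μ S = fun y => ∑ a, cT S a * μ a y := rfl
  rw [e, tri_sum1]

theorem tri_FT2 (f g : V → ℝ) : tri G f (FT μ S) g = ∑ a, cT S a * tri G f (μ a) g := by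
  have e : FT μ S = fun y => ∑ a, cT S a * μ a y := rfl
  rw [e, tri_sum2]

theorem Dp_FT (b : Fin 6) : Dp G μ (FT μ S) b = -(12 / 7) * cT S b + RT G μ S b := by
  have h1 : Dp G μ (FT μ S) b = ∑ a, cT S a * Dp G μ (μ a) b := by
    unfold Dp
    simp only [tri_FT]
    rw [sum_comm]
    exact sum_congr rfl fun a _ => by rw [mul_sum]
  have h2 : ∑ a, cT S a * Dp G μ (μ a) b = 2 * ∑ a, cT S a - 12 / 7 * cT S b + RT G μ S b := by
    unfold RT
    have h3 : ∑ a, cT S a * (if a = b then (1 : ℝ) else 0) = cT S b := by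
      simp only [mul_ite, mul_one, mul_zero]
      rw [sum_ite_eq', if_pos (mem_univ _)]
    rw [← h3, mul_sum, mul_sum, ← sum_sub_distrib, ← sum_add_distrib]
    refine sum_congr rfl fun a _ => ?_
    rw [Dp_mu]; ring
  rw [h1, h2, sum_cT]; ring

theorem sum_Dp_FT : ∑ b, Dp G μ (FT μ S) b = ∑ a, cT S a * YN G μ a := by
  have h1 : ∑ b, Dp G μ (FT μ S) b = ∑ a, cT S a * ∑ b, Dp G μ (μ a) b := by
    unfold Dp
    simp only [tri_FT]
    have : ∀ b, ∑ c, ∑ a, cT S a * tri G (μ a) (μ b) (μ c) =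
        ∑ a, cT S a * ∑ c, tri G (μ a) (μ b) (μ c) := by
      intro b
      rw [sum_comm]
      exact sum_congr rfl fun a _ => by rw [mul_sum]
    simp only [this]
    rw [sum_comm]
    exact sum_congr rfl fun a _ => by rw [mul_sum]
  rw [h1]
  have h2 : ∀ a, ∑ b, Dp G μ (μ a) b = 10 + rho + YN G μ a := by
    intro a
    unfold YN Dp tt
    ring
  simp only [h2]
  have h3 : ∀ a, cT S a * (10 + rho + YN G μ a) = (10 + rho) * cT S a + cT S a * YN G μ a :=
    fun a => by ring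
  simp only [h3]
  rw [sum_add_distrib, ← mul_sum, sum_cT]; ring

end FTv

section Main

variable {V : Type} [Fintype V] {G : TG V} {w : V → ℝ} {μ : Fin 6 → V → ℝ} {v : Fin 6 → ℝ}
  {X : V → ℝ} {t : ℝ}

/-- centred sizes -/
noncomputable def sgm (v : Fin 6 → ℝ) (X : V → ℝ) (b : Fin 6) : ℝ := v b - 1 / 6 + xX X / 6

/-- centred size part of the deviation -/
noncomputable def sv (μ : Fin 6 → V → ℝ) (v : Fin 6 → ℝ) (X : V → ℝ) (y : V) : ℝ :=
  ∑ a, sgm v X a * μ a y

theorem Dec.sum_sgm (D : Dec G w μ v X t) : ∑ b, sgm v X b = 0 := by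
  unfold sgm
  rw [sum_add_distrib, D.sum_s, sum_const, card_univ, Fintype.card_fin]
  simp only [nsmul_eq_mul]; push_cast; ring

theorem Dec.w_eq2 (D : Dec G w μ v X t) :
    w = fun y => (fun y => (1 - xX X) * ws μ y) y + sv μ v X y + X y := by
  funext y
  rw [D.dec y]
  congr 1
  unfold ws sv sgm
  dsimp only
  rw [mul_sum, ← sum_add_distrib]
  refine sum_congr rfl fun a _ => ?_
  ring

theorem tri_sv (F f : V → ℝ) : tri G F f (sv μ v X) = ∑ a, sgm v X a * tri G F f (μ a) := by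
  have : sv μ v X = fun y => ∑ a, sgm v X a * μ a y := rfl
  rw [this, tri_sum3]

theorem tri_sv_sv (F : V → ℝ) : tri G F (sv μ v X) (sv μ v X) =
    ∑ b, ∑ c, sgm v X b * sgm v X c * tri G F (μ b) (μ c) := by
  rw [tri_sv]
  have : ∀ a, tri G F (sv μ v X) (μ a) = ∑ b, sgm v X b * tri G F (μ b) (μ a) := by
    intro a
    rw [tri_swap23, tri_sv]
    exact sum_congr rfl fun b _ => by rw [tri_swap23]
  simp only [this, mul_sum]
  rw [sum_comm]
  refine sum_congr rfl fun b _ => sum_congr rfl fun c _ => ?_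
  ring

/-- quadratic identity for a vector of total mass zero -/
theorem Dec.L1s (D : Dec G w μ v X t) (F : V → ℝ) (hF : ∑ x, F x = 0) :
    (1 - xX X) ^ 2 * ∑ b, Dp G μ F b + 12 * (1 - xX X) * ∑ b, sgm v X b * Dp G μ F b +
      36 * tri G F (sv μ v X) (sv μ v X) + 72 * tri G F X w - 36 * tri G F X X = 0 := by
  have h0 := D.tri_deg F hF
  have hw := D.w_eq2
  set W : V → ℝ := fun y => (1 - xX X) * ws μ y with hW
  have h1 : tri G F w w = tri G F W W + tri G F (sv μ v X) (sv μ v X) + tri G F X X +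
      2 * tri G F W (sv μ v X) + 2 * tri G F W X + 2 * tri G F (sv μ v X) X := by
    have := quad3 G F W (sv μ v X) X
    rw [← hw] at this
    exact this
  have h2 : tri G F X w = tri G F X W + tri G F X (sv μ v X) + tri G F X X := by
    have h := tri_pl3 G F X (fun y => W y + sv μ v X y) X
    rw [tri_pl3 G F X W (sv μ v X)] at h
    rw [← h]
    conv_lhs => rw [hw]
  have h3 : tri G F W (sv μ v X) = (1 - xX X) * (1 / 6 * ∑ b, sgm v X b * Dp G μ F b) := by
    have e : ∑ a, sgm v X a * tri G F (ws μ) (μ a) = 1 / 6 * ∑ b, sgm v X b * Dp G μ F b := by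
      rw [mul_sum]
      refine sum_congr rfl fun b _ => ?_
      rw [tri_swap23, tri_ws_b]; ring
    rw [hW, tri_smul2, tri_sv, e]
  have h4 : tri G F W W = (1 - xX X) ^ 2 * (1 / 36 * ∑ b, Dp G μ F b) := by
    rw [hW, tri_smul2, tri_smul3, tri_ws_ws]
    ring
  have h5 := tri_swap23 G F X W
  have h6 := tri_swap23 G F X (sv μ v X)
  rw [h1] at h0
  linarith

/-- the exact identity of a set of classes -/
theorem Dec.identS (D : Dec G w μ v X t) (S : Finset (Fin 6)) :
    144 / 7 * (1 - xX X) * ∑ b ∈ S, sgm v X b = (1 - xX X) ^ 2 * ∑ a, cT S a * YN G μ a +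
      12 * (1 - xX X) * ∑ b, sgm v X b * RT G μ S b +
      36 * tri G (FT μ S) (sv μ v X) (sv μ v X) + 72 * tri G (FT μ S) X w -
      36 * tri G (FT μ S) X X := by
  have h1 := D.L1s (FT μ S) (sum_FT μ S D.hμ)
  rw [sum_Dp_FT] at h1
  have h2 : ∑ b, sgm v X b * Dp G μ (FT μ S) b = -(12 / 7) * ∑ b ∈ S, sgm v X b +
      ∑ b, sgm v X b * RT G μ S b := by
    have h3 := cT_mul S (sgm v X)
    rw [D.sum_sgm, mul_zero, sub_zero] at h3
    rw [← h3, mul_sum, ← sum_add_distrib]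
    refine sum_congr rfl fun b _ => ?_
    rw [Dp_FT]; ring
  rw [h2] at h1
  linarith

/-- double sums of the centred sizes -/
theorem sum_sgm_sq (K : Fin 6 → Fin 6 → ℝ) (M : ℝ) (h : ∀ b c, |K b c| ≤ M) (σ : Fin 6 → ℝ) :
    |∑ b, ∑ c, σ b * σ c * K b c| ≤ M * (∑ b, |σ b|) ^ 2 := by
  calc |∑ b, ∑ c, σ b * σ c * K b c| ≤ ∑ b, |∑ c, σ b * σ c * K b c| := abs_sum_le_sum_abs _ _
    _ ≤ ∑ b, ∑ c, |σ b| * |σ c| * M := by
        refine sum_le_sum fun b _ => (abs_sum_le_sum_abs _ _).trans (sum_le_sum fun c _ => ?_)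
        rw [abs_mul, abs_mul]
        exact mul_le_mul_of_nonneg_left (h b c) (by positivity)
    _ = M * (∑ b, |σ b|) ^ 2 := by
        rw [sq, sum_mul_sum, mul_sum]
        refine sum_congr rfl fun b _ => ?_
        rw [mul_sum]
        exact sum_congr rfl fun c _ => by ring

theorem Dec.sv_le (D : Dec G w μ v X t) (S : Finset (Fin 6)) :
    tri G (FT μ S) (sv μ v X) (sv μ v X) ≤ mT S * (∑ b, |sgm v X b|) ^ 2 := by
  rw [tri_sv_sv]
  refine (le_abs_self _).trans (sum_sgm_sq _ _ (fun b c => ?_) _)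
  rw [tri_FT, abs_le]
  have h1 := cT_dn S (fun a => tri G (μ a) (μ b) (μ c)) 1 (fun a => tt_nonneg D.hμ a b c)
    (fun a => tt_le_one D.hμ a b c)
  have h2 := cT_up S (fun a => tri G (μ a) (μ b) (μ c)) 1 (fun a => tt_nonneg D.hμ a b c)
    (fun a => tt_le_one D.hμ a b c)
  constructor <;> linarith

theorem Dec.XX_le (D : Dec G w μ v X t) (S : Finset (Fin 6)) :
    -tri G (FT μ S) X X ≤ mT S * xX X ^ 2 := by
  rw [tri_FT]
  have h1 := cT_dn S (fun a => tri G (μ a) X X) (xX X ^ 2)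
    (fun a => tri_W_nonneg _ _ _ (D.hμ a).nonneg D.hX D.hX) (fun a => by
      have := tri_le_mass G (μ a) X X (D.hμ a).nonneg D.hX D.hX
      rw [(D.hμ a).sum_eq, one_mul] at this
      unfold xX
      rw [sq]; exact this)
  linarith

/-- the quadratic form of the test vector against a nonnegative function -/
theorem FT_FT_le (hμ : ∀ a, IsW (μ a)) (S : Finset (Fin 6)) (p : V → ℝ) (hp : ∀ x, 0 ≤ p x) :
    |tri G (FT μ S) (FT μ S) p| ≤ 2 * mT S ^ 2 * ∑ x, p x := by
  have h0 : 0 ≤ ∑ x, p x := sum_nonneg fun x _ => hp x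
  rw [tri_FT]
  have h : ∀ a, |tri G (μ a) (FT μ S) p| ≤ mT S * ∑ x, p x := by
    intro a
    rw [tri_FT2]
    have h2 : ∀ b, tri G (μ a) (μ b) p ≤ ∑ x, p x := by
      intro b
      have := tri_le_mass G (μ a) (μ b) p (hμ a).nonneg (hμ b).nonneg hp
      rw [(hμ a).sum_eq, (hμ b).sum_eq] at this
      linarith
    have h3 : ∀ b, 0 ≤ tri G (μ a) (μ b) p := fun b =>
      tri_W_nonneg _ _ _ (hμ a).nonneg (hμ b).nonneg hp
    rw [abs_le]
    exact ⟨cT_dn S _ _ h3 h2, cT_up S _ _ h3 h2⟩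
  refine (cT_abs S _ _ h).trans (le_of_eq ?_)
  ring

/-- `-T(F, F, w)` -/
theorem Dec.qS_le (D : Dec G w μ v X t) (S : Finset (Fin 6)) (B : ℝ) (hX : xX X ≤ 1)
    (hB : ∀ b c, RT G μ S b - RT G μ S c ≤ B) :
    -tri G (FT μ S) (FT μ S) w ≤ (1 - xX X) * (2 / 7 * mT S + mT S / 6 * B) +
      2 * mT S ^ 2 * (∑ b, |sgm v X b| + xX X) := by
  have hw := D.w_eq2
  have e1 : tri G (FT μ S) (FT μ S) w = (1 - xX X) * tri G (FT μ S) (FT μ S) (ws μ) +
      tri G (FT μ S) (FT μ S) (sv μ v X) + tri G (FT μ S) (FT μ S) X := by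
    have h := tri_pl3 G (FT μ S) (FT μ S) (fun y => (fun y => (1 - xX X) * ws μ y) y +
      sv μ v X y) X
    rw [tri_pl3 G (FT μ S) (FT μ S) (fun y => (1 - xX X) * ws μ y) (sv μ v X), tri_smul3] at h
    rw [← h]
    conv_lhs => rw [hw]
  have e2 : tri G (FT μ S) (FT μ S) (ws μ) = -(2 / 7) * mT S +
      1 / 6 * ∑ a, cT S a * RT G μ S a := by
    rw [tri_FT2]
    have : ∀ a, cT S a * tri G (FT μ S) (μ a) (ws μ) =
        -(2 / 7) * (cT S a * cT S a) + 1 / 6 * (cT S a * RT G μ S a) := by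
      intro a
      rw [tri_ws_b, Dp_FT]; ring
    simp only [this]
    rw [sum_add_distrib, ← mul_sum, ← mul_sum, sum_sq_cT]
  have e3 : 12 * ∑ a, (-cT S a) * RT G μ S a ≤ 12 * mT S * B := by
    refine sig_le (fun a => -cT S a) (RT G μ S) (12 * mT S) B ?_ ?_ hB
    · rw [sum_neg_distrib, sum_cT, neg_zero]
    · intro T
      have h := cT_dn S (fun a => if a ∈ T then 1 else 0) 1 (fun a => by split_ifs <;> norm_num)
        (fun a => by split_ifs <;> norm_num)
      have h2 : ∑ a, cT S a * (if a ∈ T then (1 : ℝ) else 0) = ∑ a ∈ T, cT S a := by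
        simp only [mul_ite, mul_one, mul_zero]
        rw [sum_ite_mem, univ_inter]
      rw [h2] at h
      rw [sum_neg_distrib]
      linarith
  have e4 : ∑ a, (-cT S a) * RT G μ S a = -∑ a, cT S a * RT G μ S a := by
    rw [← sum_neg_distrib]
    exact sum_congr rfl fun a _ => by ring
  have e5 : |tri G (FT μ S) (FT μ S) (sv μ v X)| ≤ 2 * mT S ^ 2 * ∑ b, |sgm v X b| := by
    rw [tri_sv]
    calc |∑ a, sgm v X a * tri G (FT μ S) (FT μ S) (μ a)| ≤
        ∑ a, |sgm v X a * tri G (FT μ S) (FT μ S) (μ a)| := abs_sum_le_sum_abs _ _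
      _ ≤ ∑ a, 2 * mT S ^ 2 * |sgm v X a| := by
          refine sum_le_sum fun a _ => ?_
          rw [abs_mul]
          have h := FT_FT_le (G := G) D.hμ S (μ a) (D.hμ a).nonneg
          rw [(D.hμ a).sum_eq, mul_one] at h
          have := mul_le_mul_of_nonneg_left h (abs_nonneg (sgm v X a))
          linarith
      _ = _ := by rw [← mul_sum]
  have e6 := FT_FT_le (G := G) D.hμ S X D.hX
  have e7 := (abs_le.1 e5).1
  have e8 := (abs_le.1 e6).1
  have e9 : xX X = ∑ x, X x := rfl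
  rw [← e9] at e8
  have e10 : (1 - xX X) * -tri G (FT μ S) (FT μ S) (ws μ) ≤
      (1 - xX X) * (2 / 7 * mT S + mT S / 6 * B) := by
    refine mul_le_mul_of_nonneg_left ?_ (by linarith)
    rw [e2]; linarith
  rw [e1]
  linarith

/-- **Sizes of a set of classes**, all quadratic terms bounded. `A = Σ |σ|`. -/
theorem Dec.lin_core (D : Dec G w μ v X t) (S : Finset (Fin 6)) (B : ℝ) (hX : xX X ≤ 1)
    (hB : ∀ b c, RT G μ S b - RT G μ S c ≤ B) (A : ℝ) (hA : ∑ b, |sgm v X b| = A) :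
    144 / 7 * (1 - xX X) * ∑ b ∈ S, sgm v X b ≤ (1 - xX X) ^ 2 * ∑ a, cT S a * YN G μ a +
      (1 - xX X) * (6 * A * B) + 36 * mT S * A ^ 2 +
      36 * xX X * ((1 - xX X) * (2 / 7 * mT S + mT S / 6 * B) + 2 * mT S ^ 2 * (A + xX X) + t) +
      36 * mT S * xX X ^ 2 := by
  have h1 := D.identS S
  have h2 := D.qS_le S B hX hB
  rw [hA] at h2
  have h3 := D.L3 (FT μ S) (sum_FT μ S D.hμ) _ h2
  have h4 := D.sv_le S
  rw [hA] at h4
  have h5 := D.XX_le S
  have h6 : 12 * ∑ b, sgm v X b * RT G μ S b ≤ 6 * A * B := by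
    refine sig_le (sgm v X) (RT G μ S) (6 * A) B D.sum_sgm ?_ hB
    intro T
    have s0 := D.sum_sgm
    have : 2 * ∑ a ∈ T, sgm v X a ≤ A := by
      rw [← hA]
      have e1 : ∑ a ∈ T, sgm v X a = ∑ a, (if a ∈ T then sgm v X a else 0) := by
        rw [sum_ite_mem, univ_inter]
      have e2 : 2 * ∑ a ∈ T, sgm v X a = ∑ a, (2 * (if a ∈ T then sgm v X a else 0) -
          sgm v X a) := by
        rw [sum_sub_distrib, s0, e1, mul_sum, sub_zero]
      rw [e2]
      refine sum_le_sum fun a _ => ?_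
      split_ifs
      · have := le_abs_self (sgm v X a); linarith
      · have := neg_abs_le (sgm v X a); linarith
    linarith
  have h7 := mul_le_mul_of_nonneg_left h6 (by linarith : 0 ≤ 1 - xX X)
  linarith

end Main

end K4m
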