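import Mathlib
import Pool.Agent.Lib.MP_392c14_co.Acc.LinS2

/-!
# Linear sizes, part 3: the combinations of the row sums
-/

set_option autoImplicit false

namespace K4m

open Finset

section Rows

variable {V : Type} [Fintype V] {G : TG V} {μ : Fin 6 → V → ℝ}

/-- missing blocks at a pair of classes -/
noncomputable def PPr (G : TG V) (μ : Fin 6 → V → ℝ) (a b : Fin 6) : ℝ := ∑ c, pB G μ a b c

/-- densities of the nonblocks at a pair of classes -/
noncomputable def NNr (G : TG V) (μ : Fin 6 → V → ℝ) (a b : Fin 6) : ℝ :=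
  ∑ c, nbl a b c * tt G μ a b c

theorem PPr_nonneg (hμ : ∀ a, IsW (μ a)) (a b : Fin 6) : 0 ≤ PPr G μ a b :=
  sum_nonneg fun c _ => pB_nonneg hμ a b c

theorem NNr_nonneg (hμ : ∀ a, IsW (μ a)) (a b : Fin 6) : 0 ≤ NNr G μ a b :=
  sum_nonneg fun c _ => mul_nonneg (nbl_nn _ _ _) (tt_nonneg hμ a b c)

theorem sum_PPr (b : Fin 6) : ∑ a, PPr G μ a b = 2 * MN G μ b := by
  unfold PPr MN
  have : ∀ a, ∑ c, pB G μ a b c = ∑ c, pB G μ b a c := fun a =>
    sum_congr rfl fun c _ => pB_swap12 G μ b a c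
  rw [sum_congr rfl fun a _ => this a]
  ring

theorem sum_NNr (b : Fin 6) : ∑ a, NNr G μ a b = 2 * GN G μ b := by
  unfold NNr GN
  have : ∀ a, ∑ c, nbl a b c * tt G μ a b c = ∑ c, nbl b a c * tt G μ b a c := fun a =>
    sum_congr rfl fun c _ => by rw [nbl_swap12 b a c, tt_swap12 G μ b a c]
  rw [sum_congr rfl fun a _ => this a]
  ring

/-- row sums of two different classes -/
theorem Rp_ne1 {a b : Fin 6} (h : a ≠ b) : Rp G μ a b = -PPr G μ a b + NNr G μ a b +
    tt G μ a a b + tt G μ b b a := by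
  have h1 : ∑ c, tt G μ a b c = ∑ c, (blk a b c - pB G μ a b c +
      nbl a b c * tt G μ a b c + p1 a b c * tt G μ a b c + p1 a c b * tt G μ a b c +
      p1 b c a * tt G μ a b c + e3 a b c * tt G μ a b c) := by
    refine sum_congr rfl fun c _ => ?_
    have hk := kinds a b c
    unfold pB
    calc tt G μ a b c = 1 * tt G μ a b c := (one_mul _).symm
      _ = (blk a b c + nbl a b c + p1 a b c + p1 a c b + p1 b c a + e3 a b c) *
          tt G μ a b c := by rw [← hk]
      _ = _ := by ring
  have h2 : ∑ c, p1 a b c * tt G μ a b c = 0 := sum_eq_zero fun c _ => by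
    unfold p1
    rw [if_neg (fun h' => h h'.1), zero_mul]
  have h3 : ∑ c, p1 a c b * tt G μ a b c = tt G μ a a b := by
    rw [sum_eq_single a]
    · unfold p1
      rw [if_pos ⟨rfl, h⟩, one_mul, tt_swap23]
    · intro c _ hc
      unfold p1
      rw [if_neg (fun h' => hc h'.1.symm), zero_mul]
    · intro h'; exact absurd (mem_univ _) h'
  have h4 : ∑ c, p1 b c a * tt G μ a b c = tt G μ b b a := by
    rw [sum_eq_single b]
    · unfold p1
      rw [if_pos ⟨rfl, h.symm⟩, one_mul, tt_rot G μ a b b]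
    · intro c _ hc
      unfold p1
      rw [if_neg (fun h' => hc h'.1.symm), zero_mul]
    · intro h'; exact absurd (mem_univ _) h'
  have h5 : ∑ c, e3 a b c * tt G μ a b c = 0 := sum_eq_zero fun c _ => by
    unfold e3
    rw [if_neg (fun h' => h h'.1), zero_mul]
  unfold Rp
  rw [h1, if_neg h]
  simp only [sum_add_distrib, sum_sub_distrib]
  rw [h2, h3, h4, h5, blk_sum a b h]
  unfold PPr NNr
  ring

/-- row sum of a class with itself -/
theorem Rp_eq1 (b : Fin 6) : Rp G μ b b = (rho - 2 / 7) - eN G μ b + BN G μ b := by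
  have h1 : ∑ c, tt G μ b b c = tt G μ b b b + BN G μ b := by
    unfold BN
    have h : ∀ c, tt G μ b b c = nee b c * tt G μ b b c +
        (if b = c then tt G μ b b b else 0) := by
      intro c
      unfold nee
      by_cases hc : b = c
      · subst hc; simp
      · simp [hc]
    rw [sum_congr rfl fun c _ => h c, sum_add_distrib, sum_ite_eq, if_pos (mem_univ _)]
    ring
  unfold Rp eN
  rw [h1, if_pos rfl]
  ring

theorem Rp_up (hμ : ∀ a, IsW (μ a)) {a b : Fin 6} (h : a ≠ b) :
    Rp G μ a b ≤ NNr G μ a b + PPr G μ a b := by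
  have h1 := bb_le (G := G) hμ a b h
  have h2 := bb_le (G := G) hμ b a h.symm
  have h3 : ∑ c, pB G μ b a c = PPr G μ a b := sum_congr rfl fun c _ => pB_swap12 G μ a b c
  have h4 : ∑ c, pB G μ a b c = PPr G μ a b := rfl
  rw [Rp_ne1 h]
  rw [h3] at h2
  rw [h4] at h1
  linarith

theorem Rp_dn (hμ : ∀ a, IsW (μ a)) {a b : Fin 6} (h : a ≠ b) :
    -PPr G μ a b ≤ Rp G μ a b := by
  have h1 := NNr_nonneg (G := G) hμ a b
  have h2 := tt_nonneg (G := G) hμ a a b
  have h3 := tt_nonneg (G := G) hμ b b a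
  rw [Rp_ne1 h]
  linarith

/-- densities of the nonblocks at a class -/
theorem GN_le1 (hμ : ∀ a, IsW (μ a)) (b : Fin 6) : GN G μ b ≤ mN G μ + MN G μ b / 3 := by
  have h1 : ∑ j, ∑ k, nbl b j k * (3 * tt G μ b j k) ≤
      ∑ j, ∑ k, nbl b j k * ∑ l, (pB G μ b j l + pB G μ b k l + pB G μ j k l) := by
    refine sum_le_sum fun j _ => sum_le_sum fun k _ => ?_
    by_cases h : b ≠ j ∧ b ≠ k ∧ j ≠ k ∧ D6.E b j k = false
    · exact mul_le_mul_of_nonneg_left (gg_le hμ b j k h) (nbl_nn _ _ _)
    · have : nbl b j k = 0 := by unfold nbl; rw [if_neg h]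
      rw [this, zero_mul, zero_mul]
  have h2 : ∑ j, ∑ k, nbl b j k * (3 * tt G μ b j k) = 6 * GN G μ b := by
    unfold GN
    have : 6 * (1 / 2 * ∑ j, ∑ k, nbl b j k * tt G μ b j k) =
        3 * ∑ j, ∑ k, nbl b j k * tt G μ b j k := by ring
    rw [this, mul_sum]
    refine sum_congr rfl fun j _ => ?_
    rw [mul_sum]
    exact sum_congr rfl fun k _ => by ring
  have h3 : ∑ j, ∑ k, nbl b j k * ∑ l, (pB G μ b j l + pB G μ b k l + pB G μ j k l) =
      2 * ∑ j, ∑ k, nbl b j k * ∑ l, pB G μ b j l +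
      ∑ j, ∑ k, nbl b j k * ∑ l, pB G μ j k l := by
    have r1 : ∑ j, ∑ k, nbl b j k * ∑ l, pB G μ b k l =
        ∑ j, ∑ k, nbl b j k * ∑ l, pB G μ b j l := by
      rw [sum_comm]
      refine sum_congr rfl fun j _ => sum_congr rfl fun k _ => ?_
      rw [nbl_swap23]
    simp only [sum_add_distrib, mul_add]
    rw [r1]; ring
  have h4 : ∑ j, ∑ k, nbl b j k * ∑ l, pB G μ b j l ≤ 4 * MN G μ b := by
    have : 4 * MN G μ b = ∑ j, 2 * ∑ l, pB G μ b j l := by
      unfold MN
      rw [← mul_sum]; ring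
    rw [this]
    refine sum_le_sum fun j _ => ?_
    rw [← sum_mul]
    by_cases hj : b = j
    · subst hj
      have : ∑ l, pB G μ b b l = 0 := sum_eq_zero fun l _ => pB_irr b l
      rw [this]; simp
    · rw [nbl_sum b j hj]
  have h5 : ∑ j, ∑ k, nbl b j k * ∑ l, pB G μ j k l ≤ 6 * mN G μ - 6 * MN G μ b := by
    have g1 : ∀ j k l, nbl b j k * pB G μ j k l ≤ pB G μ j k l * (1 -
        ((if j = b then (1 : ℝ) else 0) + (if k = b then (1 : ℝ) else 0) +
        (if l = b then (1 : ℝ) else 0))) := by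
      intro j k l
      have h0 := pB_nonneg (G := G) hμ j k l
      by_cases h12 : j = k
      · subst h12
        rw [pB_irr]; simp
      · by_cases h13 : j = l
        · subst h13
          rw [← pB_swap23, pB_irr]; simp
        · by_cases h23 : k = l
          · subst h23
            have : pB G μ j k k = 0 := by
              rw [← pB_swap12, ← pB_swap23, pB_irr]
            rw [this]; simp
          · by_cases h : b ≠ j ∧ b ≠ k ∧ j ≠ k ∧ D6.E b j k = false
            · have hn : nbl b j k = 1 := by unfold nbl; rw [if_pos h]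
              rw [hn, one_mul, if_neg (fun h' => h.1 h'.symm), if_neg (fun h' => h.2.1 h'.symm)]
              by_cases hl : l = b
              · subst hl
                have : pB G μ j k l = 0 := by
                  have e : blk j k l = 0 := by
                    unfold blk ind
                    have : D6.E j k l = false := by
                      rw [D6.symm₂, D6.symm₁]; exact h.2.2.2
                    rw [this]; simp
                  unfold pB; rw [e, zero_mul]
                rw [this]; simp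
              · rw [if_neg hl]; simp
            · have hn : nbl b j k = 0 := by unfold nbl; rw [if_neg h]
              rw [hn, zero_mul]
              refine mul_nonneg h0 ?_
              by_cases e1 : j = b
              · have e2 : ¬ k = b := fun h => h12 (e1.trans h.symm)
                have e3 : ¬ l = b := fun h => h13 (e1.trans h.symm)
                rw [if_pos e1, if_neg e2, if_neg e3]; norm_num
              · by_cases e2 : k = b
                · have e3 : ¬ l = b := fun h => h23 (e2.trans h.symm)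
                  rw [if_neg e1, if_pos e2, if_neg e3]; norm_num
                · rw [if_neg e1, if_neg e2]
                  split_ifs <;> norm_num
    have g2 : ∑ j, ∑ k, nbl b j k * ∑ l, pB G μ j k l =
        ∑ j, ∑ k, ∑ l, nbl b j k * pB G μ j k l :=
      sum_congr rfl fun j _ => sum_congr rfl fun k _ => by rw [mul_sum]
    have g3 : ∑ j, ∑ k, ∑ l, pB G μ j k l * (if j = b then (1 : ℝ) else 0) =
        ∑ k, ∑ l, pB G μ b k l := by
      rw [sum_eq_single b]
      · refine sum_congr rfl fun j _ => sum_congr rfl fun k _ => by rw [if_pos rfl, mul_one]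
      · intro c _ hc
        refine sum_eq_zero fun j _ => sum_eq_zero fun k _ => by rw [if_neg hc, mul_zero]
      · intro h; exact absurd (mem_univ _) h
    have g4 := sum_sym12 (G := G) (μ := μ) (fun i => if i = b then (1 : ℝ) else 0)
    have g5 : ∑ i, ∑ j, ∑ k, pB G μ i j k * (if k = b then (1 : ℝ) else 0) =
        ∑ i, ∑ j, ∑ k, pB G μ i j k * (if j = b then (1 : ℝ) else 0) := by
      refine sum_congr rfl fun i _ => ?_
      rw [sum_comm]
      refine sum_congr rfl fun j _ => sum_congr rfl fun k _ => ?_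
      rw [pB_swap23]
    have g6 : ∑ j, ∑ k, ∑ l, nbl b j k * pB G μ j k l ≤ ∑ j, ∑ k, ∑ l, (pB G μ j k l * (1 -
        ((if j = b then (1 : ℝ) else 0) + (if k = b then (1 : ℝ) else 0) +
        (if l = b then (1 : ℝ) else 0)))) :=
      sum_le_sum fun j _ => sum_le_sum fun k _ => sum_le_sum fun l _ => g1 j k l
    simp only [mul_sub, mul_add, mul_one, sum_sub_distrib, sum_add_distrib] at g6
    rw [g5, g4, g3] at g6
    rw [g2]
    refine g6.trans (le_of_eq ?_)
    unfold MN mN
    ring
  rw [h2, h3] at h1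
  linarith

/-- **Combination of the row sums, upper bound.** -/
theorem RT_up (hμ : ∀ a, IsW (μ a)) (S : Finset (Fin 6)) (b : Fin 6) {α β γ O δ : ℝ}
    (hα : α = 1 - (S.card : ℝ) / 6) (hβ : β = (S.card : ℝ) / 6) (h1 : α ≤ γ) (h2 : β ≤ γ)
    (hO1 : 2 * α ≤ O) (hO2 : 4 * β ≤ O) (hδ : eN G μ b ≤ 3 * BN G μ b + δ) (hδ0 : 0 ≤ δ) :
    RT G μ S b ≤ (8 / 3 * α + 2 * γ + O) * mN G μ + (rho - 2 / 7) + β * δ := by
  have hc := card_le_six S
  have hc0 : (0 : ℝ) ≤ S.card := Nat.cast_nonneg _
  have hα0 : 0 ≤ α := by rw [hα]; linarith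
  have hα1 : α ≤ 1 := by rw [hα]; linarith
  have hβ0 : 0 ≤ β := by rw [hβ]; linarith
  have hγ0 : 0 ≤ γ := hα0.trans h1
  have hm := mN_nonneg (G := G) hμ
  have hM := MN_le (G := G) hμ b
  have hM0 := MN_nonneg (G := G) hμ b
  have hB0 := BN_nonneg (G := G) hμ b
  have hB := BN_le (G := G) hμ b
  have hG := GN_le1 (G := G) hμ b
  have he := eN_nonneg (G := G) hμ b
  have hr := two_sevenths_le_rho
  -- the other classes
  have hne : ∀ a, cT S a * Rp G μ a b ≤ α * NNr G μ a b + γ * PPr G μ a b +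
      (if a = b then cT S b * Rp G μ b b else 0) := by
    intro a
    have n0 := NNr_nonneg (G := G) hμ a b
    have p0 := PPr_nonneg (G := G) hμ a b
    by_cases hab : a = b
    · subst hab
      rw [if_pos rfl]
      have := mul_nonneg hα0 n0
      have := mul_nonneg hγ0 p0
      linarith
    · rw [if_neg hab, add_zero]
      have u := Rp_up (G := G) hμ hab
      have d := Rp_dn (G := G) hμ hab
      unfold cT
      split_ifs
      · have e1 := mul_le_mul_of_nonneg_left u hα0
        have e2 := mul_le_mul_of_nonneg_right h1 p0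
        rw [← hβ]
        have : (1 : ℝ) - β = α := by rw [hα, hβ]
        rw [this]
        linarith
      · have e1 := mul_le_mul_of_nonneg_left d hβ0
        have e2 := mul_le_mul_of_nonneg_right h2 p0
        have e3 := mul_nonneg hα0 n0
        rw [← hβ]
        linarith
  have hs : RT G μ S b ≤ α * (2 * GN G μ b) + γ * (2 * MN G μ b) + cT S b * Rp G μ b b := by
    unfold RT
    refine (sum_le_sum fun a _ => hne a).trans (le_of_eq ?_)
    rw [sum_add_distrib, sum_add_distrib, ← mul_sum, ← mul_sum, sum_PPr, sum_NNr,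
      sum_ite_eq', if_pos (mem_univ _)]
  -- the own term
  have hown : cT S b * Rp G μ b b ≤ O * MN G μ b + (rho - 2 / 7) + β * δ := by
    rw [Rp_eq1]
    unfold cT
    split_ifs
    · rw [← hβ]
      have e0 : (1 : ℝ) - β = α := by rw [hα, hβ]
      rw [e0]
      have e1 : α * (rho - 2 / 7 - eN G μ b + BN G μ b) ≤ α * ((rho - 2 / 7) + 2 * MN G μ b) :=
        mul_le_mul_of_nonneg_left (by linarith) hα0
      have e2 : α * (rho - 2 / 7) ≤ 1 * (rho - 2 / 7) :=
        mul_le_mul_of_nonneg_right hα1 (by linarith)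
      have e3 := mul_le_mul_of_nonneg_right hO1 hM0
      have e4 := mul_nonneg hβ0 hδ0
      linarith
    · rw [← hβ]
      have e1 : β * (eN G μ b - BN G μ b - (rho - 2 / 7)) ≤ β * (4 * MN G μ b + δ) :=
        mul_le_mul_of_nonneg_left (by linarith) hβ0
      have e3 := mul_le_mul_of_nonneg_right hO2 hM0
      linarith
  have hO0 : 0 ≤ O := by linarith
  have f1 := mul_le_mul_of_nonneg_left hG hα0
  have f2 := mul_le_mul_of_nonneg_left hM hα0
  have f3 := mul_le_mul_of_nonneg_left hM hγ0
  have f4 := mul_le_mul_of_nonneg_left hM hO0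
  linarith

theorem cT_compl (S : Finset (Fin 6)) (a : Fin 6) : cT Sᶜ a = -cT S a := by
  unfold cT
  have h : ((Sᶜ).card : ℝ) = 6 - (S.card : ℝ) := by
    have h1 := card_compl S
    rw [Fintype.card_fin] at h1
    have h2 : S.card ≤ 6 := by
      have h := card_le_univ S
      rwa [Fintype.card_fin] at h
    rw [h1, Nat.cast_sub h2]; norm_num
  rw [h]
  by_cases ha : a ∈ S
  · rw [if_pos ha, if_neg (by simp [ha])]; ring
  · rw [if_neg ha, if_pos (by simp [ha])]; ring

theorem RT_compl (S : Finset (Fin 6)) (b : Fin 6) : RT G μ Sᶜ b = -RT G μ S b := by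
  unfold RT
  rw [← sum_neg_distrib]
  exact sum_congr rfl fun a _ => by rw [cT_compl]; ring

/-- **Range of the combinations of the row sums.** -/
theorem RT_range (hμ : ∀ a, IsW (μ a)) (S : Finset (Fin 6)) {α β γ O1 O2 δ : ℝ}
    (hα : α = 1 - (S.card : ℝ) / 6) (hβ : β = (S.card : ℝ) / 6) (h1 : α ≤ γ) (h2 : β ≤ γ)
    (hO1 : 2 * α ≤ O1) (hO2 : 4 * β ≤ O1) (hO3 : 2 * β ≤ O2) (hO4 : 4 * α ≤ O2)
    (hδ : ∀ b, eN G μ b ≤ 3 * BN G μ b + δ) (hδ0 : 0 ≤ δ) (b c : Fin 6) :
    RT G μ S b - RT G μ S c ≤ (8 / 3 + 4 * γ + O1 + O2) * mN G μ + 2 * (rho - 2 / 7) + δ := by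
  have u := RT_up (G := G) hμ S b hα hβ h1 h2 hO1 hO2 (hδ b) hδ0
  have hcard : ((Sᶜ).card : ℝ) = 6 - (S.card : ℝ) := by
    have h1 := card_compl S
    rw [Fintype.card_fin] at h1
    have h2 : S.card ≤ 6 := by
      have h := card_le_univ S
      rwa [Fintype.card_fin] at h
    rw [h1, Nat.cast_sub h2]; norm_num
  have d := RT_up (G := G) hμ Sᶜ c (α := β) (β := α) (γ := γ) (O := O2) (δ := δ)
    (by rw [hcard, hβ]; ring) (by rw [hcard, hα]; ring) h2 h1 hO3 hO4 (hδ c) hδ0
  rw [RT_compl] at d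
  have hab : α + β = 1 := by rw [hα, hβ]; ring
  have e1 : (8 / 3 * α + 2 * γ + O1) * mN G μ + (8 / 3 * β + 2 * γ + O2) * mN G μ =
      (8 / 3 * (α + β) + 4 * γ + O1 + O2) * mN G μ := by ring
  have e2 : β * δ + α * δ = (α + β) * δ := by ring
  rw [hab] at e1 e2
  linarith

end Rows

end K4m
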