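import Mathlib
import Pool.Agent.Lib.MP_392c14_co.Acc.LinS3

/-!
# Linear sizes, part 4: the inequality for every number of classes
-/

set_option autoImplicit false

namespace K4m

open Finset

section A

variable {V : Type} [Fintype V] {G : TG V} {μ : Fin 6 → V → ℝ}

theorem cT_YN_le (hμ : ∀ a, IsW (μ a)) (S : Finset (Fin 6)) (δ : ℝ)
    (h4 : ∀ J : Finset (Fin 6), ∑ a ∈ J, (eN G μ a - 3 * BN G μ a) ≤ δ)
    (hs : (S.card : ℝ) ≤ 24 / 5) :
    ∑ a, cT S a * YN G μ a ≤ 24 / 5 * mN G μ + 4 / 5 * δ +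
      (4 / 5 - (S.card : ℝ) / 6) * (210 * rho - 60) := by
  have h := Y_set (G := G) hμ S δ (h4 _)
  have h1 := ls_dN_nonneg (G := G) hμ
  have h2 := ls_sum_YN (G := G) (μ := μ)
  have h3 : (4 / 5 - (S.card : ℝ) / 6) * ∑ a, YN G μ a ≤
      (4 / 5 - (S.card : ℝ) / 6) * (210 * rho - 60) :=
    mul_le_mul_of_nonneg_left (by linarith) (by linarith)
  rw [cT_mul]
  linarith

theorem cT_YN_five (hμ : ∀ a, IsW (μ a)) (S : Finset (Fin 6)) (δ : ℝ)
    (h4 : ∀ J : Finset (Fin 6), ∑ a ∈ J, (eN G μ a - 3 * BN G μ a) ≤ δ)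
    (hs : S.card = 5) :
    ∑ a, cT S a * YN G μ a ≤ 4 * mN G μ + δ + (210 * rho - 60) / 6 := by
  have hcc : Sᶜ.card = 1 := by
    rw [card_compl, Fintype.card_fin, hs]
  obtain ⟨b, hb⟩ := card_eq_one.1 hcc
  have h1 := ls_dN_nonneg (G := G) hμ
  have h2 := ls_sum_YN (G := G) (μ := μ)
  have e1 : ∑ a, cT S a * YN G μ a = -∑ a, cT {b} a * YN G μ a := by
    rw [← sum_neg_distrib]
    refine sum_congr rfl fun a _ => ?_
    have : cT {b} a = -cT S a := by rw [← hb, cT_compl]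
    rw [this]; ring
  rw [e1, cT_mul, sum_singleton, card_singleton]
  have h3 := YN_eq (G := G) (μ := μ) b
  have h5 := BN_le (G := G) hμ b
  have h6 := MN_le (G := G) hμ b
  have h7 := GN_nonneg (G := G) hμ b
  have h8 := BO_nonneg (G := G) hμ b
  have h9 := BN_nonneg (G := G) hμ b
  have h10 := h4 {b}
  rw [sum_singleton] at h10
  push_cast
  linarith

end A

section B

variable {V : Type} [Fintype V] {G : TG V} {w : V → ℝ} {μ : Fin 6 → V → ℝ} {v : Fin 6 → ℝ}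
  {X : V → ℝ} {t : ℝ}

/-- the right hand side of the inequality for the sizes -/
noncomputable def lsR (M b Y x m A δ r t : ℝ) : ℝ :=
  Y + 6 * A * (b * m + 2 * r + δ) + 36 * M * A ^ 2 +
    36 * x * ((1 - x) * (2 / 7 * M) + M / 6 * (b * m + 2 * r + δ) + 2 * M ^ 2 * (A + x) + t) +
    36 * M * x ^ 2

theorem Dec.lin_gen (D : Dec G w μ v X t) (S : Finset (Fin 6)) {δ A M b Y : ℝ}
    (h4 : ∀ J : Finset (Fin 6), ∑ a ∈ J, (eN G μ a - 3 * BN G μ a) ≤ δ)
    (hA : ∑ b, |sgm v X b| = A) (hX : xX X ≤ 1) (hM : mT S = M)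
    (hY : ∑ a, cT S a * YN G μ a ≤ Y) (hY0 : 0 ≤ Y)
    (hb : ∀ p q, RT G μ S p - RT G μ S q ≤ b * mN G μ + 2 * (rho - 2 / 7) + δ) :
    144 / 7 * (1 - xX X) * ∑ b ∈ S, sgm v X b ≤
      lsR M b Y (xX X) (mN G μ) A δ (rho - 2 / 7) t := by
  have X0 := D.xX_nonneg
  have hM0 : 0 ≤ M := by rw [← hM]; exact mT_nonneg S
  have A0 : 0 ≤ A := by rw [← hA]; exact sum_nonneg fun b _ => abs_nonneg _
  have h := D.lin_core S _ hX hb A hA
  rw [hM] at h
  have hB0 : 0 ≤ b * mN G μ + 2 * (rho - 2 / 7) + δ := by have := hb 0 0; linarith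
  have h1 : (1 - xX X) ^ 2 * ∑ a, cT S a * YN G μ a ≤ Y := by
    have a1 : (1 - xX X) ^ 2 * ∑ a, cT S a * YN G μ a ≤ (1 - xX X) ^ 2 * Y :=
      mul_le_mul_of_nonneg_left hY (sq_nonneg _)
    have a2 : (1 - xX X) ^ 2 * Y ≤ 1 * Y :=
      mul_le_mul_of_nonneg_right (pow_le_one₀ (by linarith) (by linarith)) hY0
    linarith
  have h2 : (1 - xX X) * (6 * A * (b * mN G μ + 2 * (rho - 2 / 7) + δ)) ≤
      1 * (6 * A * (b * mN G μ + 2 * (rho - 2 / 7) + δ)) :=
    mul_le_mul_of_nonneg_right (by linarith) (by positivity)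
  have h3 : 36 * xX X * ((1 - xX X) * (2 / 7 * M + M / 6 * (b * mN G μ +
      2 * (rho - 2 / 7) + δ)) + 2 * M ^ 2 * (A + xX X) + t) ≤
      36 * xX X * ((1 - xX X) * (2 / 7 * M) + M / 6 * (b * mN G μ + 2 * (rho - 2 / 7) + δ) +
      2 * M ^ 2 * (A + xX X) + t) := by
    refine mul_le_mul_of_nonneg_left ?_ (by linarith)
    have : 0 ≤ xX X * (M / 6 * (b * mN G μ + 2 * (rho - 2 / 7) + δ)) :=
      mul_nonneg X0 (mul_nonneg (by linarith) hB0)
    linarith
  unfold lsR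
  linarith

/-- the inequality for the sizes of one class -/
theorem Dec.lin1 (D : Dec G w μ v X t) (S : Finset (Fin 6)) {δ A : ℝ}
    (h4 : ∀ J : Finset (Fin 6), ∑ a ∈ J, (eN G μ a - 3 * BN G μ a) ≤ δ)
    (hA : ∑ b, |sgm v X b| = A) (hX : xX X ≤ 1) (hs : S.card = 1) :
    144 / 7 * (1 - xX X) * ∑ b ∈ S, sgm v X b ≤
      lsR (5 / 6) 11 (24 / 5 * mN G μ + 4 / 5 * δ + 19 / 30 * (210 * rho - 60)) (xX X)
        (mN G μ) A δ (rho - 2 / 7) t := by
  have hδ0 : 0 ≤ δ := by have := h4 ∅; simpa using this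
  have hr := two_sevenths_le_rho
  have hm := mN_nonneg (G := G) D.hμ
  have hc : (S.card : ℝ) = 1 := by rw [hs]; norm_num
  refine D.lin_gen S h4 hA hX ?_ ?_ (by linarith) ?_
  · unfold mT; rw [hc]; norm_num
  · refine (cT_YN_le D.hμ S δ h4 (by rw [hc]; norm_num)).trans (le_of_eq ?_)
    rw [hc]; ring
  · intro p q
    refine (RT_range (G := G) D.hμ S (α := 5 / 6) (β := 1 / 6) (γ := 5 / 6) (O1 := 5 / 3)
      (O2 := 10 / 3) (δ := δ) (by rw [hc]; norm_num) (by rw [hc]) (by norm_num)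
      (by norm_num) (by norm_num) (by norm_num) (by norm_num) (by norm_num) ?_ hδ0 p q).trans
      (le_of_eq (by ring))
    intro b
    have := h4 {b}
    rw [sum_singleton] at this
    linarith

theorem Dec.lin2 (D : Dec G w μ v X t) (S : Finset (Fin 6)) {δ A : ℝ}
    (h4 : ∀ J : Finset (Fin 6), ∑ a ∈ J, (eN G μ a - 3 * BN G μ a) ≤ δ)
    (hA : ∑ b, |sgm v X b| = A) (hX : xX X ≤ 1) (hs : S.card = 2) :
    144 / 7 * (1 - xX X) * ∑ b ∈ S, sgm v X b ≤
      lsR (4 / 3) (28 / 3) (24 / 5 * mN G μ + 4 / 5 * δ + 7 / 15 * (210 * rho - 60)) (xX X)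
        (mN G μ) A δ (rho - 2 / 7) t := by
  have hδ0 : 0 ≤ δ := by have := h4 ∅; simpa using this
  have hr := two_sevenths_le_rho
  have hm := mN_nonneg (G := G) D.hμ
  have hc : (S.card : ℝ) = 2 := by rw [hs]; norm_num
  refine D.lin_gen S h4 hA hX ?_ ?_ (by linarith) ?_
  · unfold mT; rw [hc]; norm_num
  · refine (cT_YN_le D.hμ S δ h4 (by rw [hc]; norm_num)).trans (le_of_eq ?_)
    rw [hc]; ring
  · intro p q
    refine (RT_range (G := G) D.hμ S (α := 2 / 3) (β := 1 / 3) (γ := 2 / 3) (O1 := 4 / 3)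
      (O2 := 8 / 3) (δ := δ) (by rw [hc]; norm_num) (by rw [hc]; norm_num) (by norm_num)
      (by norm_num) (by norm_num) (by norm_num) (by norm_num) (by norm_num) ?_ hδ0 p q).trans
      (le_of_eq (by ring))
    intro b
    have := h4 {b}
    rw [sum_singleton] at this
    linarith

theorem Dec.lin3 (D : Dec G w μ v X t) (S : Finset (Fin 6)) {δ A : ℝ}
    (h4 : ∀ J : Finset (Fin 6), ∑ a ∈ J, (eN G μ a - 3 * BN G μ a) ≤ δ)
    (hA : ∑ b, |sgm v X b| = A) (hX : xX X ≤ 1) (hs : S.card = 3) :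
    144 / 7 * (1 - xX X) * ∑ b ∈ S, sgm v X b ≤
      lsR (3 / 2) (26 / 3) (24 / 5 * mN G μ + 4 / 5 * δ + 3 / 10 * (210 * rho - 60)) (xX X)
        (mN G μ) A δ (rho - 2 / 7) t := by
  have hδ0 : 0 ≤ δ := by have := h4 ∅; simpa using this
  have hr := two_sevenths_le_rho
  have hm := mN_nonneg (G := G) D.hμ
  have hc : (S.card : ℝ) = 3 := by rw [hs]; norm_num
  refine D.lin_gen S h4 hA hX ?_ ?_ (by linarith) ?_
  · unfold mT; rw [hc]; norm_num
  · refine (cT_YN_le D.hμ S δ h4 (by rw [hc]; norm_num)).trans (le_of_eq ?_)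
    rw [hc]; ring
  · intro p q
    refine (RT_range (G := G) D.hμ S (α := 1 / 2) (β := 1 / 2) (γ := 1 / 2) (O1 := 2)
      (O2 := 2) (δ := δ) (by rw [hc]; norm_num) (by rw [hc]; norm_num) (by norm_num)
      (by norm_num) (by norm_num) (by norm_num) (by norm_num) (by norm_num) ?_ hδ0 p q).trans
      (le_of_eq (by ring))
    intro b
    have := h4 {b}
    rw [sum_singleton] at this
    linarith

theorem Dec.lin4 (D : Dec G w μ v X t) (S : Finset (Fin 6)) {δ A : ℝ}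
    (h4 : ∀ J : Finset (Fin 6), ∑ a ∈ J, (eN G μ a - 3 * BN G μ a) ≤ δ)
    (hA : ∑ b, |sgm v X b| = A) (hX : xX X ≤ 1) (hs : S.card = 4) :
    144 / 7 * (1 - xX X) * ∑ b ∈ S, sgm v X b ≤
      lsR (4 / 3) (28 / 3) (24 / 5 * mN G μ + 4 / 5 * δ + 2 / 15 * (210 * rho - 60)) (xX X)
        (mN G μ) A δ (rho - 2 / 7) t := by
  have hδ0 : 0 ≤ δ := by have := h4 ∅; simpa using this
  have hr := two_sevenths_le_rho
  have hm := mN_nonneg (G := G) D.hμ
  have hc : (S.card : ℝ) = 4 := by rw [hs]; norm_num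
  refine D.lin_gen S h4 hA hX ?_ ?_ (by linarith) ?_
  · unfold mT; rw [hc]; norm_num
  · refine (cT_YN_le D.hμ S δ h4 (by rw [hc]; norm_num)).trans (le_of_eq ?_)
    rw [hc]; ring
  · intro p q
    refine (RT_range (G := G) D.hμ S (α := 1 / 3) (β := 2 / 3) (γ := 2 / 3) (O1 := 8 / 3)
      (O2 := 4 / 3) (δ := δ) (by rw [hc]; norm_num) (by rw [hc]; norm_num) (by norm_num)
      (by norm_num) (by norm_num) (by norm_num) (by norm_num) (by norm_num) ?_ hδ0 p q).trans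
      (le_of_eq (by ring))
    intro b
    have := h4 {b}
    rw [sum_singleton] at this
    linarith

theorem Dec.lin5 (D : Dec G w μ v X t) (S : Finset (Fin 6)) {δ A : ℝ}
    (h4 : ∀ J : Finset (Fin 6), ∑ a ∈ J, (eN G μ a - 3 * BN G μ a) ≤ δ)
    (hA : ∑ b, |sgm v X b| = A) (hX : xX X ≤ 1) (hs : S.card = 5) :
    144 / 7 * (1 - xX X) * ∑ b ∈ S, sgm v X b ≤
      lsR (5 / 6) 11 (4 * mN G μ + δ + (210 * rho - 60) / 6) (xX X)
        (mN G μ) A δ (rho - 2 / 7) t := by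
  have hδ0 : 0 ≤ δ := by have := h4 ∅; simpa using this
  have hr := two_sevenths_le_rho
  have hm := mN_nonneg (G := G) D.hμ
  have hc : (S.card : ℝ) = 5 := by rw [hs]; norm_num
  refine D.lin_gen S h4 hA hX ?_ (cT_YN_five D.hμ S δ h4 hs) (by linarith) ?_
  · unfold mT; rw [hc]; norm_num
  · intro p q
    refine (RT_range (G := G) D.hμ S (α := 1 / 6) (β := 5 / 6) (γ := 5 / 6) (O1 := 10 / 3)
      (O2 := 5 / 3) (δ := δ) (by rw [hc]; norm_num) (by rw [hc]) (by norm_num)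
      (by norm_num) (by norm_num) (by norm_num) (by norm_num) (by norm_num) ?_ hδ0 p q).trans
      (le_of_eq (by ring))
    intro b
    have := h4 {b}
    rw [sum_singleton] at this
    linarith

end B

end K4m
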