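import Mathlib
import Pool.Agent.Lib.MP_392c14_co.Acc.LinS4

/-!
# Linear sizes, part 5: the numerical inequalities

The certificates are expansions with nonnegative coefficients in `m`, `x` and the slack of the
linear constraint.
-/

set_option autoImplicit false

namespace K4m

/-- bound of the deficiency of the inner densities -/
noncomputable def lsD (e1 e2 e3 x m A : ℝ) : ℝ := e1 + e2 * x ^ 2 + e3 * (A + x) * m

/-- numerical bound of the right hand side -/
noncomputable def lsQ (M b y1 y2 y3 e1 e2 e3 x m A : ℝ) : ℝ :=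
  lsR M b (y1 * m + y2 * lsD e1 e2 e3 x m A + y3 * (3 / 2500)) x m A (lsD e1 e2 e3 x m A)
    (1 / 175000) (7143 / 25000)

theorem lsR_mono {M b Y x m A δ r t Y' A' δ' r' t' : ℝ} (hM : 0 ≤ M) (hb : 0 ≤ b) (hx : 0 ≤ x)
    (hm : 0 ≤ m) (hA : 0 ≤ A) (hδ : 0 ≤ δ) (hr : 0 ≤ r) (h1 : Y ≤ Y') (h2 : A ≤ A')
    (h3 : δ ≤ δ') (h4 : r ≤ r') (h5 : t ≤ t') :
    lsR M b Y x m A δ r t ≤ lsR M b Y' x m A' δ' r' t' := by
  have hA' : 0 ≤ A' := hA.trans h2
  have hδ' : 0 ≤ δ' := hδ.trans h3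
  have hr' : 0 ≤ r' := hr.trans h4
  unfold lsR
  gcongr

/-- concavity in `A` -/
theorem lsQ_conc {M b y1 y2 y3 e1 e2 e3 x m l a A : ℝ} (hM : 0 ≤ M) (he3 : 0 ≤ e3)
    (hm : 0 ≤ m)
    (hl : lsQ M b y1 y2 y3 e1 e2 e3 x m l ≤ 72 / 7 * (1 - x) * l)
    (ha : lsQ M b y1 y2 y3 e1 e2 e3 x m a + 1 / 1000 ≤ 72 / 7 * (1 - x) * a)
    (h1 : l < A) (h2 : A ≤ a) :
    lsQ M b y1 y2 y3 e1 e2 e3 x m A < 72 / 7 * (1 - x) * A := by
  have key : (a - l) * (72 / 7 * (1 - x) * A - lsQ M b y1 y2 y3 e1 e2 e3 x m A) =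
      (a - A) * (72 / 7 * (1 - x) * l - lsQ M b y1 y2 y3 e1 e2 e3 x m l) +
      (A - l) * (72 / 7 * (1 - x) * a - lsQ M b y1 y2 y3 e1 e2 e3 x m a) +
      (36 * M + 6 * e3 * m) * ((A - l) * (a - A) * (a - l)) := by
    unfold lsQ lsR lsD
    ring
  have k1 : 0 ≤ (a - A) * (72 / 7 * (1 - x) * l - lsQ M b y1 y2 y3 e1 e2 e3 x m l) :=
    mul_nonneg (by linarith) (by linarith)
  have k2 : 0 < (A - l) * (72 / 7 * (1 - x) * a - lsQ M b y1 y2 y3 e1 e2 e3 x m a) :=
    mul_pos (by linarith) (by linarith)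
  have k3 : 0 ≤ (36 * M + 6 * e3 * m) * ((A - l) * (a - A) * (a - l)) :=
    mul_nonneg (by positivity) (mul_nonneg (mul_nonneg (by linarith) (by linarith))
      (by linarith))
  have k4 : 0 < (a - l) * (72 / 7 * (1 - x) * A - lsQ M b y1 y2 y3 e1 e2 e3 x m A) := by
    rw [key]; linarith
  have k5 : 0 < a - l := by linarith
  have k6 := (pos_iff_pos_of_mul_pos k4).1 k5
  linarith

theorem lsP0_l1 {m x : ℝ} (hm : 0 ≤ m) (hx : 0 ≤ x)
    (hq : 14 * x + (7 / 2) * m ≤ 6 / 125) :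
    lsQ (5 / 6) 11 (24 / 5) (4 / 5) (19 / 30) (1 / 1000000) (4961 / 10) 50 x m (23 / 2000) ≤
      72 / 7 * (1 - x) * (23 / 2000) := by
  have q0 : 0 ≤ 6 / 125 - 14 * x - (7 / 2) * m := by linarith
  have key : 72 / 7 * (1 - x) * (23 / 2000) - lsQ (5 / 6) 11 (24 / 5) (4 / 5) (19 / 30) (1 / 1000000)
      (4961 / 10) 50 x m (23 / 2000) = (264965299 / 258048) * ((6 / 125 - 14 * x - (7 / 2) * m)
      ^ 3) + (4469432279 / 129024) * (x * (6 / 125 - 14 * x - (7 / 2) * m) ^ 2) + (114733699517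
      / 322560) * (x ^ 2 * (6 / 125 - 14 * x - (7 / 2) * m)) + (7720972429 / 7680) * (x ^ 3) +
      (601018297 / 73728) * (m * (6 / 125 - 14 * x - (7 / 2) * m) ^ 2) + (1024460093 / 6144) *
      (m * x * (6 / 125 - 14 * x - (7 / 2) * m)) + (64487031517 / 92160) * (m * x ^ 2) +
      (2849984879 / 147456) * (m ^ 2 * (6 / 125 - 14 * x - (7 / 2) * m)) + (11741297953 / 73728)
      * (m ^ 2 * x) + (3483297251 / 294912) * (m ^ 3) := by
    unfold lsQ lsR lsD
    ring
  have pos : 0 ≤ (264965299 / 258048) * ((6 / 125 - 14 * x - (7 / 2) * m) ^ 3) + (4469432279 / 129024) * (x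
      * (6 / 125 - 14 * x - (7 / 2) * m) ^ 2) + (114733699517 / 322560) * (x ^ 2 * (6 / 125 - 14
      * x - (7 / 2) * m)) + (7720972429 / 7680) * (x ^ 3) + (601018297 / 73728) * (m * (6 / 125
      - 14 * x - (7 / 2) * m) ^ 2) + (1024460093 / 6144) * (m * x * (6 / 125 - 14 * x - (7 / 2)
      * m)) + (64487031517 / 92160) * (m * x ^ 2) + (2849984879 / 147456) * (m ^ 2 * (6 / 125 -
      14 * x - (7 / 2) * m)) + (11741297953 / 73728) * (m ^ 2 * x) + (3483297251 / 294912) * (m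
      ^ 3) := by positivity
  linarith

theorem lsP0_a1 {m x : ℝ} (hm : 0 ≤ m) (hx : 0 ≤ x)
    (hq : 14 * x + (7 / 2) * m ≤ 6 / 125) :
    lsQ (5 / 6) 11 (24 / 5) (4 / 5) (19 / 30) (1 / 1000000) (4961 / 10) 50 x m (207 / 2000) + (1 / 1000) ≤
      72 / 7 * (1 - x) * (207 / 2000) := by
  have q0 : 0 ≤ 6 / 125 - 14 * x - (7 / 2) * m := by linarith
  have key : 72 / 7 * (1 - x) * (207 / 2000) - (lsQ (5 / 6) 11 (24 / 5) (4 / 5) (19 / 30) (1 / 1000000)
      (4961 / 10) 50 x m (207 / 2000) + (1 / 1000)) = (5190047873 / 774144) * ((6 / 125 - 14 * x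
      - (7 / 2) * m) ^ 3) + (34924904111 / 129024) * (x * (6 / 125 - 14 * x - (7 / 2) * m) ^ 2)
      + (1167964240453 / 322560) * (x ^ 2 * (6 / 125 - 14 * x - (7 / 2) * m)) + (1108168066429 /
      69120) * (x ^ 3) + (4582538273 / 73728) * (m * (6 / 125 - 14 * x - (7 / 2) * m) ^ 2) +
      (30613997711 / 18432) * (m * x * (6 / 125 - 14 * x - (7 / 2) * m)) + (1015017604453 /
      92160) * (m * x ^ 2) + (27825200711 / 147456) * (m ^ 2 * (6 / 125 - 14 * x - (7 / 2) * m))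
      + (184121639177 / 73728) * (m ^ 2 * x) + (165008434577 / 884736) * (m ^ 3) := by
    unfold lsQ lsR lsD
    ring
  have pos : 0 ≤ (5190047873 / 774144) * ((6 / 125 - 14 * x - (7 / 2) * m) ^ 3) + (34924904111 / 129024) *
      (x * (6 / 125 - 14 * x - (7 / 2) * m) ^ 2) + (1167964240453 / 322560) * (x ^ 2 * (6 / 125
      - 14 * x - (7 / 2) * m)) + (1108168066429 / 69120) * (x ^ 3) + (4582538273 / 73728) * (m *
      (6 / 125 - 14 * x - (7 / 2) * m) ^ 2) + (30613997711 / 18432) * (m * x * (6 / 125 - 14 * x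
      - (7 / 2) * m)) + (1015017604453 / 92160) * (m * x ^ 2) + (27825200711 / 147456) * (m ^ 2
      * (6 / 125 - 14 * x - (7 / 2) * m)) + (184121639177 / 73728) * (m ^ 2 * x) + (165008434577
      / 884736) * (m ^ 3) := by positivity
  linarith

theorem lsP0_l2 {m x : ℝ} (hm : 0 ≤ m) (hx : 0 ≤ x)
    (hq : 14 * x + (7 / 2) * m ≤ 6 / 125) :
    lsQ (4 / 3) (28 / 3) (24 / 5) (4 / 5) (7 / 15) (1 / 1000000) (4961 / 10) 50 x m (23 / 2000) ≤
      72 / 7 * (1 - x) * (23 / 2000) := by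
  have q0 : 0 ≤ 6 / 125 - 14 * x - (7 / 2) * m := by linarith
  have key : 72 / 7 * (1 - x) * (23 / 2000) - lsQ (4 / 3) (28 / 3) (24 / 5) (4 / 5) (7 / 15) (1 /
      1000000) (4961 / 10) 50 x m (23 / 2000) = (779632397 / 774144) * ((6 / 125 - 14 * x - (7 /
      2) * m) ^ 3) + (4024353691 / 129024) * (x * (6 / 125 - 14 * x - (7 / 2) * m) ^ 2) +
      (9634132873 / 35840) * (x ^ 2 * (6 / 125 - 14 * x - (7 / 2) * m)) + (5660012765 / 13824) *
      (x ^ 3) + (589434797 / 73728) * (m * (6 / 125 - 14 * x - (7 / 2) * m) ^ 2) + (881949097 /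
      6144) * (m * x * (6 / 125 - 14 * x - (7 / 2) * m)) + (36773295857 / 92160) * (m * x ^ 2) +
      (2794660379 / 147456) * (m ^ 2 * (6 / 125 - 14 * x - (7 / 2) * m)) + (8871386237 / 73728)
      * (m ^ 2 * x) + (10242940253 / 884736) * (m ^ 3) := by
    unfold lsQ lsR lsD
    ring
  have pos : 0 ≤ (779632397 / 774144) * ((6 / 125 - 14 * x - (7 / 2) * m) ^ 3) + (4024353691 / 129024) * (x
      * (6 / 125 - 14 * x - (7 / 2) * m) ^ 2) + (9634132873 / 35840) * (x ^ 2 * (6 / 125 - 14 *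
      x - (7 / 2) * m)) + (5660012765 / 13824) * (x ^ 3) + (589434797 / 73728) * (m * (6 / 125 -
      14 * x - (7 / 2) * m) ^ 2) + (881949097 / 6144) * (m * x * (6 / 125 - 14 * x - (7 / 2) *
      m)) + (36773295857 / 92160) * (m * x ^ 2) + (2794660379 / 147456) * (m ^ 2 * (6 / 125 - 14
      * x - (7 / 2) * m)) + (8871386237 / 73728) * (m ^ 2 * x) + (10242940253 / 884736) * (m ^
      3) := by positivity
  linarith

theorem lsP0_a2 {m x : ℝ} (hm : 0 ≤ m) (hx : 0 ≤ x)
    (hq : 14 * x + (7 / 2) * m ≤ 6 / 125) :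
    lsQ (4 / 3) (28 / 3) (24 / 5) (4 / 5) (7 / 15) (1 / 1000000) (4961 / 10) 50 x m (207 / 2000) + (1 / 1000) ≤
      72 / 7 * (1 - x) * (207 / 2000) := by
  have q0 : 0 ≤ 6 / 125 - 14 * x - (7 / 2) * m := by linarith
  have key : 72 / 7 * (1 - x) * (207 / 2000) - (lsQ (4 / 3) (28 / 3) (24 / 5) (4 / 5) (7 / 15) (1 /
      1000000) (4961 / 10) 50 x m (207 / 2000) + (1 / 1000)) = (3841704373 / 774144) * ((6 / 125
      - 14 * x - (7 / 2) * m) ^ 3) + (24746409523 / 129024) * (x * (6 / 125 - 14 * x - (7 / 2) *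
      m) ^ 2) + (785203216793 / 322560) * (x ^ 2 * (6 / 125 - 14 * x - (7 / 2) * m)) +
      (698179898393 / 69120) * (x ^ 3) + (3267314773 / 73728) * (m * (6 / 125 - 14 * x - (7 / 2)
      * m) ^ 2) + (2294869947 / 2048) * (m * x * (6 / 125 - 14 * x - (7 / 2) * m)) +
      (639411204793 / 92160) * (m * x ^ 2) + (18850476211 / 147456) * (m ^ 2 * (6 / 125 - 14 * x
      - (7 / 2) * m)) + (115928746661 / 73728) * (m ^ 2 * x) + (103808243077 / 884736) * (m ^ 3) := by
    unfold lsQ lsR lsD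
    ring
  have pos : 0 ≤ (3841704373 / 774144) * ((6 / 125 - 14 * x - (7 / 2) * m) ^ 3) + (24746409523 / 129024) *
      (x * (6 / 125 - 14 * x - (7 / 2) * m) ^ 2) + (785203216793 / 322560) * (x ^ 2 * (6 / 125 -
      14 * x - (7 / 2) * m)) + (698179898393 / 69120) * (x ^ 3) + (3267314773 / 73728) * (m * (6
      / 125 - 14 * x - (7 / 2) * m) ^ 2) + (2294869947 / 2048) * (m * x * (6 / 125 - 14 * x - (7
      / 2) * m)) + (639411204793 / 92160) * (m * x ^ 2) + (18850476211 / 147456) * (m ^ 2 * (6 /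
      125 - 14 * x - (7 / 2) * m)) + (115928746661 / 73728) * (m ^ 2 * x) + (103808243077 /
      884736) * (m ^ 3) := by positivity
  linarith

theorem lsP0_l3 {m x : ℝ} (hm : 0 ≤ m) (hx : 0 ≤ x)
    (hq : 14 * x + (7 / 2) * m ≤ 6 / 125) :
    lsQ (3 / 2) (26 / 3) (24 / 5) (4 / 5) (3 / 10) (1 / 1000000) (4961 / 10) 50 x m (23 / 2000) ≤
      72 / 7 * (1 - x) * (23 / 2000) := by
  have q0 : 0 ≤ 6 / 125 - 14 * x - (7 / 2) * m := by linarith
  have key : 72 / 7 * (1 - x) * (23 / 2000) - lsQ (3 / 2) (26 / 3) (24 / 5) (4 / 5) (3 / 10) (1 /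
      1000000) (4961 / 10) 50 x m (23 / 2000) = (775477897 / 774144) * ((6 / 125 - 14 * x - (7 /
      2) * m) ^ 3) + (553910785 / 18432) * (x * (6 / 125 - 14 * x - (7 / 2) * m) ^ 2) +
      (77179294637 / 322560) * (x ^ 2 * (6 / 125 - 14 * x - (7 / 2) * m)) + (14096927813 /
      69120) * (x ^ 3) + (195584099 / 24576) * (m * (6 / 125 - 14 * x - (7 / 2) * m) ^ 2) +
      (278630255 / 2048) * (m * x * (6 / 125 - 14 * x - (7 / 2) * m)) + (3055152293 / 10240) *
      (m * x ^ 2) + (2786186879 / 147456) * (m ^ 2 * (6 / 125 - 14 * x - (7 / 2) * m)) +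
      (7965783665 / 73728) * (m ^ 2 * x) + (10255753753 / 884736) * (m ^ 3) := by
    unfold lsQ lsR lsD
    ring
  have pos : 0 ≤ (775477897 / 774144) * ((6 / 125 - 14 * x - (7 / 2) * m) ^ 3) + (553910785 / 18432) * (x *
      (6 / 125 - 14 * x - (7 / 2) * m) ^ 2) + (77179294637 / 322560) * (x ^ 2 * (6 / 125 - 14 *
      x - (7 / 2) * m)) + (14096927813 / 69120) * (x ^ 3) + (195584099 / 24576) * (m * (6 / 125
      - 14 * x - (7 / 2) * m) ^ 2) + (278630255 / 2048) * (m * x * (6 / 125 - 14 * x - (7 / 2) *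
      m)) + (3055152293 / 10240) * (m * x ^ 2) + (2786186879 / 147456) * (m ^ 2 * (6 / 125 - 14
      * x - (7 / 2) * m)) + (7965783665 / 73728) * (m ^ 2 * x) + (10255753753 / 884736) * (m ^
      3) := by positivity
  linarith

theorem lsP0_a3 {m x : ℝ} (hm : 0 ≤ m) (hx : 0 ≤ x)
    (hq : 14 * x + (7 / 2) * m ≤ 6 / 125) :
    lsQ (3 / 2) (26 / 3) (24 / 5) (4 / 5) (3 / 10) (1 / 1000000) (4961 / 10) 50 x m (207 / 2000) + (1 / 1000) ≤
      72 / 7 * (1 - x) * (207 / 2000) := by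
  have q0 : 0 ≤ 6 / 125 - 14 * x - (7 / 2) * m := by linarith
  have key : 72 / 7 * (1 - x) * (207 / 2000) - (lsQ (3 / 2) (26 / 3) (24 / 5) (4 / 5) (3 / 10) (1 /
      1000000) (4961 / 10) 50 x m (207 / 2000) + (1 / 1000)) = (125673699 / 28672) * ((6 / 125 -
      14 * x - (7 / 2) * m) ^ 3) + (2368193703 / 14336) * (x * (6 / 125 - 14 * x - (7 / 2) * m)
      ^ 2) + (218181785191 / 107520) * (x ^ 2 * (6 / 125 - 14 * x - (7 / 2) * m)) + (61857324709
      / 7680) * (x ^ 3) + (944016091 / 24576) * (m * (6 / 125 - 14 * x - (7 / 2) * m) ^ 2) +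
      (5770210709 / 6144) * (m * x * (6 / 125 - 14 * x - (7 / 2) * m)) + (170588597191 / 30720)
      * (m * x ^ 2) + (5298782237 / 49152) * (m ^ 2 * (6 / 125 - 14 * x - (7 / 2) * m)) +
      (31050882163 / 24576) * (m ^ 2 * x) + (9308720953 / 98304) * (m ^ 3) := by
    unfold lsQ lsR lsD
    ring
  have pos : 0 ≤ (125673699 / 28672) * ((6 / 125 - 14 * x - (7 / 2) * m) ^ 3) + (2368193703 / 14336) * (x *
      (6 / 125 - 14 * x - (7 / 2) * m) ^ 2) + (218181785191 / 107520) * (x ^ 2 * (6 / 125 - 14 *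
      x - (7 / 2) * m)) + (61857324709 / 7680) * (x ^ 3) + (944016091 / 24576) * (m * (6 / 125 -
      14 * x - (7 / 2) * m) ^ 2) + (5770210709 / 6144) * (m * x * (6 / 125 - 14 * x - (7 / 2) *
      m)) + (170588597191 / 30720) * (m * x ^ 2) + (5298782237 / 49152) * (m ^ 2 * (6 / 125 - 14
      * x - (7 / 2) * m)) + (31050882163 / 24576) * (m ^ 2 * x) + (9308720953 / 98304) * (m ^ 3) := by positivity
  linarith

theorem lsP0_l4 {m x : ℝ} (hm : 0 ≤ m) (hx : 0 ≤ x)
    (hq : 14 * x + (7 / 2) * m ≤ 6 / 125) :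
    lsQ (4 / 3) (28 / 3) (24 / 5) (4 / 5) (2 / 15) (1 / 1000000) (4961 / 10) 50 x m (23 / 2000) ≤
      72 / 7 * (1 - x) * (23 / 2000) := by
  have q0 : 0 ≤ 6 / 125 - 14 * x - (7 / 2) * m := by linarith
  have key : 72 / 7 * (1 - x) * (23 / 2000) - lsQ (4 / 3) (28 / 3) (24 / 5) (4 / 5) (2 / 15) (1 /
      1000000) (4961 / 10) 50 x m (23 / 2000) = (86936933 / 86016) * ((6 / 125 - 14 * x - (7 /
      2) * m) ^ 3) + (4043953691 / 129024) * (x * (6 / 125 - 14 * x - (7 / 2) * m) ^ 2) +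
      (87393195857 / 322560) * (x ^ 2 * (6 / 125 - 14 * x - (7 / 2) * m)) + (1932404255 / 4608)
      * (x ^ 3) + (197411599 / 24576) * (m * (6 / 125 - 14 * x - (7 / 2) * m) ^ 2) + (2665447291
      / 18432) * (m * x * (6 / 125 - 14 * x - (7 / 2) * m)) + (37459295857 / 92160) * (m * x ^
      2) + (938086793 / 49152) * (m ^ 2 * (6 / 125 - 14 * x - (7 / 2) * m)) + (3002862079 /
      24576) * (m ^ 2 * x) + (384449639 / 32768) * (m ^ 3) := by
    unfold lsQ lsR lsD
    ring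
  have pos : 0 ≤ (86936933 / 86016) * ((6 / 125 - 14 * x - (7 / 2) * m) ^ 3) + (4043953691 / 129024) * (x *
      (6 / 125 - 14 * x - (7 / 2) * m) ^ 2) + (87393195857 / 322560) * (x ^ 2 * (6 / 125 - 14 *
      x - (7 / 2) * m)) + (1932404255 / 4608) * (x ^ 3) + (197411599 / 24576) * (m * (6 / 125 -
      14 * x - (7 / 2) * m) ^ 2) + (2665447291 / 18432) * (m * x * (6 / 125 - 14 * x - (7 / 2) *
      m)) + (37459295857 / 92160) * (m * x ^ 2) + (938086793 / 49152) * (m ^ 2 * (6 / 125 - 14 *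
      x - (7 / 2) * m)) + (3002862079 / 24576) * (m ^ 2 * x) + (384449639 / 32768) * (m ^ 3) := by positivity
  linarith

theorem lsP0_a4 {m x : ℝ} (hm : 0 ≤ m) (hx : 0 ≤ x)
    (hq : 14 * x + (7 / 2) * m ≤ 6 / 125) :
    lsQ (4 / 3) (28 / 3) (24 / 5) (4 / 5) (2 / 15) (1 / 1000000) (4961 / 10) 50 x m (207 / 2000) + (1 / 1000) ≤
      72 / 7 * (1 - x) * (207 / 2000) := by
  have q0 : 0 ≤ 6 / 125 - 14 * x - (7 / 2) * m := by linarith
  have key : 72 / 7 * (1 - x) * (207 / 2000) - (lsQ (4 / 3) (28 / 3) (24 / 5) (4 / 5) (2 / 15) (1 /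
      1000000) (4961 / 10) 50 x m (207 / 2000) + (1 / 1000)) = (3844504373 / 774144) * ((6 / 125
      - 14 * x - (7 / 2) * m) ^ 3) + (24766009523 / 129024) * (x * (6 / 125 - 14 * x - (7 / 2) *
      m) ^ 2) + (785889216793 / 322560) * (x ^ 2 * (6 / 125 - 14 * x - (7 / 2) * m)) +
      (698865898393 / 69120) * (x ^ 3) + (3270114773 / 73728) * (m * (6 / 125 - 14 * x - (7 / 2)
      * m) ^ 2) + (20673429523 / 18432) * (m * x * (6 / 125 - 14 * x - (7 / 2) * m)) +
      (213365734931 / 30720) * (m * x ^ 2) + (18870076211 / 147456) * (m ^ 2 * (6 / 125 - 14 * x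
      - (7 / 2) * m)) + (38688648887 / 24576) * (m ^ 2 * x) + (103945443077 / 884736) * (m ^ 3) := by
    unfold lsQ lsR lsD
    ring
  have pos : 0 ≤ (3844504373 / 774144) * ((6 / 125 - 14 * x - (7 / 2) * m) ^ 3) + (24766009523 / 129024) *
      (x * (6 / 125 - 14 * x - (7 / 2) * m) ^ 2) + (785889216793 / 322560) * (x ^ 2 * (6 / 125 -
      14 * x - (7 / 2) * m)) + (698865898393 / 69120) * (x ^ 3) + (3270114773 / 73728) * (m * (6
      / 125 - 14 * x - (7 / 2) * m) ^ 2) + (20673429523 / 18432) * (m * x * (6 / 125 - 14 * x -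
      (7 / 2) * m)) + (213365734931 / 30720) * (m * x ^ 2) + (18870076211 / 147456) * (m ^ 2 *
      (6 / 125 - 14 * x - (7 / 2) * m)) + (38688648887 / 24576) * (m ^ 2 * x) + (103945443077 /
      884736) * (m ^ 3) := by positivity
  linarith

theorem lsP0_l5 {m x : ℝ} (hm : 0 ≤ m) (hx : 0 ≤ x)
    (hq : 14 * x + (7 / 2) * m ≤ 6 / 125) :
    lsQ (5 / 6) 11 4 1 (1 / 6) (1 / 1000000) (4961 / 10) 50 x m (23 / 2000) ≤
      72 / 7 * (1 - x) * (23 / 2000) := by
  have q0 : 0 ≤ 6 / 125 - 14 * x - (7 / 2) * m := by linarith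
  have key : 72 / 7 * (1 - x) * (23 / 2000) - lsQ (5 / 6) 11 4 1 (1 / 6) (1 / 1000000) (4961 / 10) 50 x
      m (23 / 2000) = (266271499 / 258048) * ((6 / 125 - 14 * x - (7 / 2) * m) ^ 3) +
      (4496862479 / 129024) * (x * (6 / 125 - 14 * x - (7 / 2) * m) ^ 2) + (115026998117 /
      322560) * (x ^ 2 * (6 / 125 - 14 * x - (7 / 2) * m)) + (7605392629 / 7680) * (x ^ 3) +
      (208952299 / 24576) * (m * (6 / 125 - 14 * x - (7 / 2) * m) ^ 2) + (3250410479 / 18432) *
      (m * x * (6 / 125 - 14 * x - (7 / 2) * m)) + (69881930117 / 92160) * (m * x ^ 2) +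
      (1061431693 / 49152) * (m ^ 2 * (6 / 125 - 14 * x - (7 / 2) * m)) + (14027709353 / 73728)
      * (m ^ 2 * x) + (4621381051 / 294912) * (m ^ 3) := by
    unfold lsQ lsR lsD
    ring
  have pos : 0 ≤ (266271499 / 258048) * ((6 / 125 - 14 * x - (7 / 2) * m) ^ 3) + (4496862479 / 129024) * (x
      * (6 / 125 - 14 * x - (7 / 2) * m) ^ 2) + (115026998117 / 322560) * (x ^ 2 * (6 / 125 - 14
      * x - (7 / 2) * m)) + (7605392629 / 7680) * (x ^ 3) + (208952299 / 24576) * (m * (6 / 125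
      - 14 * x - (7 / 2) * m) ^ 2) + (3250410479 / 18432) * (m * x * (6 / 125 - 14 * x - (7 / 2)
      * m)) + (69881930117 / 92160) * (m * x ^ 2) + (1061431693 / 49152) * (m ^ 2 * (6 / 125 -
      14 * x - (7 / 2) * m)) + (14027709353 / 73728) * (m ^ 2 * x) + (4621381051 / 294912) * (m
      ^ 3) := by positivity
  linarith

theorem lsP0_a5 {m x : ℝ} (hm : 0 ≤ m) (hx : 0 ≤ x)
    (hq : 14 * x + (7 / 2) * m ≤ 6 / 125) :
    lsQ (5 / 6) 11 4 1 (1 / 6) (1 / 1000000) (4961 / 10) 50 x m (207 / 2000) + (1 / 1000) ≤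
      72 / 7 * (1 - x) * (207 / 2000) := by
  have q0 : 0 ≤ 6 / 125 - 14 * x - (7 / 2) * m := by linarith
  have key : 72 / 7 * (1 - x) * (207 / 2000) - (lsQ (5 / 6) 11 4 1 (1 / 6) (1 / 1000000) (4961 / 10) 50
      x m (207 / 2000) + (1 / 1000)) = (5193966473 / 774144) * ((6 / 125 - 14 * x - (7 / 2) * m)
      ^ 3) + (34952334311 / 129024) * (x * (6 / 125 - 14 * x - (7 / 2) * m) ^ 2) +
      (1168257539053 / 322560) * (x ^ 2 * (6 / 125 - 14 * x - (7 / 2) * m)) + (1107127848229 /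
      69120) * (x ^ 3) + (1526312291 / 24576) * (m * (6 / 125 - 14 * x - (7 / 2) * m) ^ 2) +
      (10194982637 / 6144) * (m * x * (6 / 125 - 14 * x - (7 / 2) * m)) + (337733234351 / 30720)
      * (m * x ^ 2) + (27747350911 / 147456) * (m ^ 2 * (6 / 125 - 14 * x - (7 / 2) * m)) +
      (183522930577 / 73728) * (m ^ 2 * x) + (164095005977 / 884736) * (m ^ 3) := by
    unfold lsQ lsR lsD
    ring
  have pos : 0 ≤ (5193966473 / 774144) * ((6 / 125 - 14 * x - (7 / 2) * m) ^ 3) + (34952334311 / 129024) *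
      (x * (6 / 125 - 14 * x - (7 / 2) * m) ^ 2) + (1168257539053 / 322560) * (x ^ 2 * (6 / 125
      - 14 * x - (7 / 2) * m)) + (1107127848229 / 69120) * (x ^ 3) + (1526312291 / 24576) * (m *
      (6 / 125 - 14 * x - (7 / 2) * m) ^ 2) + (10194982637 / 6144) * (m * x * (6 / 125 - 14 * x
      - (7 / 2) * m)) + (337733234351 / 30720) * (m * x ^ 2) + (27747350911 / 147456) * (m ^ 2 *
      (6 / 125 - 14 * x - (7 / 2) * m)) + (183522930577 / 73728) * (m ^ 2 * x) + (164095005977 /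
      884736) * (m ^ 3) := by positivity
  linarith

theorem lsP1_l1 {m x : ℝ} (hm : 0 ≤ m) (hx : 0 ≤ x)
    (hq : 14 * x + (469 / 100) * m ≤ 6 / 125) :
    lsQ (5 / 6) 11 (24 / 5) (4 / 5) (19 / 30) (1 / 4000000) (2093 / 10) (75 / 2) x m (21 / 40 * m + 591 / 200 * x + 1 / 10000) ≤
      72 / 7 * (1 - x) * (21 / 40 * m + 591 / 200 * x + 1 / 10000) := by
  have q0 : 0 ≤ 6 / 125 - 14 * x - (469 / 100) * m := by linarith
  have key : 72 / 7 * (1 - x) * (21 / 40 * m + 591 / 200 * x + 1 / 10000) - lsQ (5 / 6) 11 (24 / 5) (4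
      / 5) (19 / 30) (1 / 4000000) (2093 / 10) (75 / 2) x m (21 / 40 * m + 591 / 200 * x + 1 /
      10000) = (4169891 / 1720320) * ((6 / 125 - 14 * x - (469 / 100) * m) ^ 3) + (9397975589 /
      1843200) * (x * (6 / 125 - 14 * x - (469 / 100) * m) ^ 2) + (164107213463 / 1290240) * (x
      ^ 2 * (6 / 125 - 14 * x - (469 / 100) * m)) + (1804539642439 / 2304000) * (x ^ 3) +
      (2367243897 / 8192000) * (m * (6 / 125 - 14 * x - (469 / 100) * m) ^ 2) + (4117640317241 /
      92160000) * (m * x * (6 / 125 - 14 * x - (469 / 100) * m)) + (9188118822101 / 18432000) *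
      (m * x ^ 2) + (1087761090493 / 819200000) * (m ^ 2 * (6 / 125 - 14 * x - (469 / 100) * m))
      + (1462768896240029 / 18432000000) * (m ^ 2 * x) + (14588187254417 / 245760000000) * (m ^
      3) := by
    unfold lsQ lsR lsD
    ring
  have pos : 0 ≤ (4169891 / 1720320) * ((6 / 125 - 14 * x - (469 / 100) * m) ^ 3) + (9397975589 / 1843200)
      * (x * (6 / 125 - 14 * x - (469 / 100) * m) ^ 2) + (164107213463 / 1290240) * (x ^ 2 * (6
      / 125 - 14 * x - (469 / 100) * m)) + (1804539642439 / 2304000) * (x ^ 3) + (2367243897 /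
      8192000) * (m * (6 / 125 - 14 * x - (469 / 100) * m) ^ 2) + (4117640317241 / 92160000) *
      (m * x * (6 / 125 - 14 * x - (469 / 100) * m)) + (9188118822101 / 18432000) * (m * x ^ 2)
      + (1087761090493 / 819200000) * (m ^ 2 * (6 / 125 - 14 * x - (469 / 100) * m)) +
      (1462768896240029 / 18432000000) * (m ^ 2 * x) + (14588187254417 / 245760000000) * (m ^ 3) := by positivity
  linarith

theorem lsP1_a1 {m x : ℝ} (hm : 0 ≤ m) (hx : 0 ≤ x)
    (hq : 14 * x + (469 / 100) * m ≤ 6 / 125) :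
    lsQ (5 / 6) 11 (24 / 5) (4 / 5) (19 / 30) (1 / 4000000) (2093 / 10) (75 / 2) x m (23 / 2000) + (1 / 1000) ≤
      72 / 7 * (1 - x) * (23 / 2000) := by
  have q0 : 0 ≤ 6 / 125 - 14 * x - (469 / 100) * m := by linarith
  have key : 72 / 7 * (1 - x) * (23 / 2000) - (lsQ (5 / 6) 11 (24 / 5) (4 / 5) (19 / 30) (1 / 4000000)
      (2093 / 10) (75 / 2) x m (23 / 2000) + (1 / 1000)) = (3151601837 / 3096576) * ((6 / 125 -
      14 * x - (469 / 100) * m) ^ 3) + (17681857699 / 516096) * (x * (6 / 125 - 14 * x - (469 /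
      100) * m) ^ 2) + (152926202923 / 430080) * (x ^ 2 * (6 / 125 - 14 * x - (469 / 100) * m))
      + (291593881657 / 276480) * (x ^ 3) + (173181283079 / 14745600) * (m * (6 / 125 - 14 * x -
      (469 / 100) * m) ^ 2) + (911959865833 / 3686400) * (m * x * (6 / 125 - 14 * x - (469 /
      100) * m)) + (2327568731947 / 2048000) * (m * x ^ 2) + (63411259004051 / 1474560000) * (m
      ^ 2 * (6 / 125 - 14 * x - (469 / 100) * m)) + (299801339675677 / 737280000) * (m ^ 2 * x)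
      + (21386632738459919 / 442368000000) * (m ^ 3) := by
    unfold lsQ lsR lsD
    ring
  have pos : 0 ≤ (3151601837 / 3096576) * ((6 / 125 - 14 * x - (469 / 100) * m) ^ 3) + (17681857699 /
      516096) * (x * (6 / 125 - 14 * x - (469 / 100) * m) ^ 2) + (152926202923 / 430080) * (x ^
      2 * (6 / 125 - 14 * x - (469 / 100) * m)) + (291593881657 / 276480) * (x ^ 3) +
      (173181283079 / 14745600) * (m * (6 / 125 - 14 * x - (469 / 100) * m) ^ 2) + (911959865833
      / 3686400) * (m * x * (6 / 125 - 14 * x - (469 / 100) * m)) + (2327568731947 / 2048000) *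
      (m * x ^ 2) + (63411259004051 / 1474560000) * (m ^ 2 * (6 / 125 - 14 * x - (469 / 100) *
      m)) + (299801339675677 / 737280000) * (m ^ 2 * x) + (21386632738459919 / 442368000000) *
      (m ^ 3) := by positivity
  linarith

theorem lsP1_l2 {m x : ℝ} (hm : 0 ≤ m) (hx : 0 ≤ x)
    (hq : 14 * x + (469 / 100) * m ≤ 6 / 125) :
    lsQ (4 / 3) (28 / 3) (24 / 5) (4 / 5) (7 / 15) (1 / 4000000) (2093 / 10) (75 / 2) x m (21 / 40 * m + 591 / 200 * x + 1 / 10000) ≤
      72 / 7 * (1 - x) * (21 / 40 * m + 591 / 200 * x + 1 / 10000) := by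
  have q0 : 0 ≤ 6 / 125 - 14 * x - (469 / 100) * m := by linarith
  have key : 72 / 7 * (1 - x) * (21 / 40 * m + 591 / 200 * x + 1 / 10000) - lsQ (4 / 3) (28 / 3) (24 /
      5) (4 / 5) (7 / 15) (1 / 4000000) (2093 / 10) (75 / 2) x m (21 / 40 * m + 591 / 200 * x +
      1 / 10000) = (65503819 / 15482880) * ((6 / 125 - 14 * x - (469 / 100) * m) ^ 3) +
      (37861498123 / 12902400) * (x * (6 / 125 - 14 * x - (469 / 100) * m) ^ 2) + (3413600347 /
      61440) * (x ^ 2 * (6 / 125 - 14 * x - (469 / 100) * m)) + (1443982304317 / 6912000) * (x ^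
      3) + (2572336297 / 8192000) * (m * (6 / 125 - 14 * x - (469 / 100) * m) ^ 2) +
      (692937566747 / 30720000) * (m * x * (6 / 125 - 14 * x - (469 / 100) * m)) + (839650936103
      / 6144000) * (m * x ^ 2) + (10686539714837 / 7372800000) * (m ^ 2 * (6 / 125 - 14 * x -
      (469 / 100) * m)) + (428278524507029 / 18432000000) * (m ^ 2 * x) + (587178935297353 /
      2211840000000) * (m ^ 3) := by
    unfold lsQ lsR lsD
    ring
  have pos : 0 ≤ (65503819 / 15482880) * ((6 / 125 - 14 * x - (469 / 100) * m) ^ 3) + (37861498123 /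
      12902400) * (x * (6 / 125 - 14 * x - (469 / 100) * m) ^ 2) + (3413600347 / 61440) * (x ^ 2
      * (6 / 125 - 14 * x - (469 / 100) * m)) + (1443982304317 / 6912000) * (x ^ 3) +
      (2572336297 / 8192000) * (m * (6 / 125 - 14 * x - (469 / 100) * m) ^ 2) + (692937566747 /
      30720000) * (m * x * (6 / 125 - 14 * x - (469 / 100) * m)) + (839650936103 / 6144000) * (m
      * x ^ 2) + (10686539714837 / 7372800000) * (m ^ 2 * (6 / 125 - 14 * x - (469 / 100) * m))
      + (428278524507029 / 18432000000) * (m ^ 2 * x) + (587178935297353 / 2211840000000) * (m ^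
      3) := by positivity
  linarith

theorem lsP1_a2 {m x : ℝ} (hm : 0 ≤ m) (hx : 0 ≤ x)
    (hq : 14 * x + (469 / 100) * m ≤ 6 / 125) :
    lsQ (4 / 3) (28 / 3) (24 / 5) (4 / 5) (7 / 15) (1 / 4000000) (2093 / 10) (75 / 2) x m (23 / 2000) + (1 / 1000) ≤
      72 / 7 * (1 - x) * (23 / 2000) := by
  have q0 : 0 ≤ 6 / 125 - 14 * x - (469 / 100) * m := by linarith
  have key : 72 / 7 * (1 - x) * (23 / 2000) - (lsQ (4 / 3) (28 / 3) (24 / 5) (4 / 5) (7 / 15) (1 /
      4000000) (2093 / 10) (75 / 2) x m (23 / 2000) + (1 / 1000)) = (3090547837 / 3096576) * ((6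
      / 125 - 14 * x - (469 / 100) * m) ^ 3) + (5300514617 / 172032) * (x * (6 / 125 - 14 * x -
      (469 / 100) * m) ^ 2) + (346672629409 / 1290240) * (x ^ 2 * (6 / 125 - 14 * x - (469 /
      100) * m)) + (25415413165 / 55296) * (x ^ 3) + (169826665079 / 14745600) * (m * (6 / 125 -
      14 * x - (469 / 100) * m) ^ 2) + (796221078017 / 3686400) * (m * x * (6 / 125 - 14 * x -
      (469 / 100) * m)) + (13502581170403 / 18432000) * (m * x ^ 2) + (6909236351339 /
      163840000) * (m ^ 2 * (6 / 125 - 14 * x - (469 / 100) * m)) + (247181158749973 /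
      737280000) * (m ^ 2 * x) + (20972530200561919 / 442368000000) * (m ^ 3) := by
    unfold lsQ lsR lsD
    ring
  have pos : 0 ≤ (3090547837 / 3096576) * ((6 / 125 - 14 * x - (469 / 100) * m) ^ 3) + (5300514617 /
      172032) * (x * (6 / 125 - 14 * x - (469 / 100) * m) ^ 2) + (346672629409 / 1290240) * (x ^
      2 * (6 / 125 - 14 * x - (469 / 100) * m)) + (25415413165 / 55296) * (x ^ 3) +
      (169826665079 / 14745600) * (m * (6 / 125 - 14 * x - (469 / 100) * m) ^ 2) + (796221078017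
      / 3686400) * (m * x * (6 / 125 - 14 * x - (469 / 100) * m)) + (13502581170403 / 18432000)
      * (m * x ^ 2) + (6909236351339 / 163840000) * (m ^ 2 * (6 / 125 - 14 * x - (469 / 100) *
      m)) + (247181158749973 / 737280000) * (m ^ 2 * x) + (20972530200561919 / 442368000000) *
      (m ^ 3) := by positivity
  linarith

theorem lsP1_l3 {m x : ℝ} (hm : 0 ≤ m) (hx : 0 ≤ x)
    (hq : 14 * x + (469 / 100) * m ≤ 6 / 125) :
    lsQ (3 / 2) (26 / 3) (24 / 5) (4 / 5) (3 / 10) (1 / 4000000) (2093 / 10) (75 / 2) x m (21 / 40 * m + 591 / 200 * x + 1 / 10000) ≤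
      72 / 7 * (1 - x) * (21 / 40 * m + 591 / 200 * x + 1 / 10000) := by
  have q0 : 0 ≤ 6 / 125 - 14 * x - (469 / 100) * m := by linarith
  have key : 72 / 7 * (1 - x) * (21 / 40 * m + 591 / 200 * x + 1 / 10000) - lsQ (3 / 2) (26 / 3) (24 /
      5) (4 / 5) (3 / 10) (1 / 4000000) (2093 / 10) (75 / 2) x m (21 / 40 * m + 591 / 200 * x +
      1 / 10000) = (93495419 / 15482880) * ((6 / 125 - 14 * x - (469 / 100) * m) ^ 3) +
      (29202241123 / 12902400) * (x * (6 / 125 - 14 * x - (469 / 100) * m) ^ 2) + (8186008939 /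
      258048) * (x ^ 2 * (6 / 125 - 14 * x - (469 / 100) * m)) + (79380123317 / 6912000) * (x ^
      3) + (8339701291 / 24576000) * (m * (6 / 125 - 14 * x - (469 / 100) * m) ^ 2) +
      (481552133747 / 30720000) * (m * x * (6 / 125 - 14 * x - (469 / 100) * m)) + (20319735643
      / 1228800) * (m * x ^ 2) + (11627760081637 / 7372800000) * (m ^ 2 * (6 / 125 - 14 * x -
      (469 / 100) * m)) + (107575908756029 / 18432000000) * (m ^ 2 * x) + (1091286646366553 /
      2211840000000) * (m ^ 3) := by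
    unfold lsQ lsR lsD
    ring
  have pos : 0 ≤ (93495419 / 15482880) * ((6 / 125 - 14 * x - (469 / 100) * m) ^ 3) + (29202241123 /
      12902400) * (x * (6 / 125 - 14 * x - (469 / 100) * m) ^ 2) + (8186008939 / 258048) * (x ^
      2 * (6 / 125 - 14 * x - (469 / 100) * m)) + (79380123317 / 6912000) * (x ^ 3) +
      (8339701291 / 24576000) * (m * (6 / 125 - 14 * x - (469 / 100) * m) ^ 2) + (481552133747 /
      30720000) * (m * x * (6 / 125 - 14 * x - (469 / 100) * m)) + (20319735643 / 1228800) * (m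
      * x ^ 2) + (11627760081637 / 7372800000) * (m ^ 2 * (6 / 125 - 14 * x - (469 / 100) * m))
      + (107575908756029 / 18432000000) * (m ^ 2 * x) + (1091286646366553 / 2211840000000) * (m
      ^ 3) := by positivity
  linarith

theorem lsP1_a3 {m x : ℝ} (hm : 0 ≤ m) (hx : 0 ≤ x)
    (hq : 14 * x + (469 / 100) * m ≤ 6 / 125) :
    lsQ (3 / 2) (26 / 3) (24 / 5) (4 / 5) (3 / 10) (1 / 4000000) (2093 / 10) (75 / 2) x m (23 / 2000) + (1 / 1000) ≤
      72 / 7 * (1 - x) * (23 / 2000) := by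
  have q0 : 0 ≤ 6 / 125 - 14 * x - (469 / 100) * m := by linarith
  have key : 72 / 7 * (1 - x) * (23 / 2000) - (lsQ (3 / 2) (26 / 3) (24 / 5) (4 / 5) (3 / 10) (1 /
      4000000) (2093 / 10) (75 / 2) x m (23 / 2000) + (1 / 1000)) = (1024643279 / 1032192) * ((6
      / 125 - 14 * x - (469 / 100) * m) ^ 3) + (729220535 / 24576) * (x * (6 / 125 - 14 * x -
      (469 / 100) * m) ^ 2) + (102853678763 / 430080) * (x ^ 2 * (6 / 125 - 14 * x - (469 / 100)
      * m)) + (23447944627 / 92160) * (x ^ 3) + (169007659079 / 14745600) * (m * (6 / 125 - 14 *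
      x - (469 / 100) * m) ^ 2) + (151720522549 / 737280) * (m * x * (6 / 125 - 14 * x - (469 /
      100) * m)) + (11000302831363 / 18432000) * (m * x ^ 2) + (61937086948051 / 1474560000) *
      (m ^ 2 * (6 / 125 - 14 * x - (469 / 100) * m)) + (46073803291481 / 147456000) * (m ^ 2 *
      x) + (6973964619531973 / 147456000000) * (m ^ 3) := by
    unfold lsQ lsR lsD
    ring
  have pos : 0 ≤ (1024643279 / 1032192) * ((6 / 125 - 14 * x - (469 / 100) * m) ^ 3) + (729220535 / 24576)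
      * (x * (6 / 125 - 14 * x - (469 / 100) * m) ^ 2) + (102853678763 / 430080) * (x ^ 2 * (6 /
      125 - 14 * x - (469 / 100) * m)) + (23447944627 / 92160) * (x ^ 3) + (169007659079 /
      14745600) * (m * (6 / 125 - 14 * x - (469 / 100) * m) ^ 2) + (151720522549 / 737280) * (m
      * x * (6 / 125 - 14 * x - (469 / 100) * m)) + (11000302831363 / 18432000) * (m * x ^ 2) +
      (61937086948051 / 1474560000) * (m ^ 2 * (6 / 125 - 14 * x - (469 / 100) * m)) +
      (46073803291481 / 147456000) * (m ^ 2 * x) + (6973964619531973 / 147456000000) * (m ^ 3) := by positivity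
  linarith

theorem lsP1_l4 {m x : ℝ} (hm : 0 ≤ m) (hx : 0 ≤ x)
    (hq : 14 * x + (469 / 100) * m ≤ 6 / 125) :
    lsQ (4 / 3) (28 / 3) (24 / 5) (4 / 5) (2 / 15) (1 / 4000000) (2093 / 10) (75 / 2) x m (21 / 40 * m + 591 / 200 * x + 1 / 10000) ≤
      72 / 7 * (1 - x) * (21 / 40 * m + 591 / 200 * x + 1 / 10000) := by
  have q0 : 0 ≤ 6 / 125 - 14 * x - (469 / 100) * m := by linarith
  have key : 72 / 7 * (1 - x) * (21 / 40 * m + 591 / 200 * x + 1 / 10000) - lsQ (4 / 3) (28 / 3) (24 /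
      5) (4 / 5) (2 / 15) (1 / 4000000) (2093 / 10) (75 / 2) x m (21 / 40 * m + 591 / 200 * x +
      1 / 10000) = (40501273 / 5160960) * ((6 / 125 - 14 * x - (469 / 100) * m) ^ 3) +
      (39821498123 / 12902400) * (x * (6 / 125 - 14 * x - (469 / 100) * m) ^ 2) + (10632801041 /
      184320) * (x ^ 2 * (6 / 125 - 14 * x - (469 / 100) * m)) + (504194101439 / 2304000) * (x ^
      3) + (26903026673 / 73728000) * (m * (6 / 125 - 14 * x - (469 / 100) * m) ^ 2) +
      (2210132700241 / 92160000) * (m * x * (6 / 125 - 14 * x - (469 / 100) * m)) +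
      (2702800808309 / 18432000) * (m * x ^ 2) + (12446227714837 / 7372800000) * (m ^ 2 * (6 /
      125 - 14 * x - (469 / 100) * m)) + (163289201502343 / 6144000000) * (m ^ 2 * x) +
      (156941400810817 / 245760000000) * (m ^ 3) := by
    unfold lsQ lsR lsD
    ring
  have pos : 0 ≤ (40501273 / 5160960) * ((6 / 125 - 14 * x - (469 / 100) * m) ^ 3) + (39821498123 /
      12902400) * (x * (6 / 125 - 14 * x - (469 / 100) * m) ^ 2) + (10632801041 / 184320) * (x ^
      2 * (6 / 125 - 14 * x - (469 / 100) * m)) + (504194101439 / 2304000) * (x ^ 3) +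
      (26903026673 / 73728000) * (m * (6 / 125 - 14 * x - (469 / 100) * m) ^ 2) + (2210132700241
      / 92160000) * (m * x * (6 / 125 - 14 * x - (469 / 100) * m)) + (2702800808309 / 18432000)
      * (m * x ^ 2) + (12446227714837 / 7372800000) * (m ^ 2 * (6 / 125 - 14 * x - (469 / 100) *
      m)) + (163289201502343 / 6144000000) * (m ^ 2 * x) + (156941400810817 / 245760000000) * (m
      ^ 3) := by positivity
  linarith

theorem lsP1_a4 {m x : ℝ} (hm : 0 ≤ m) (hx : 0 ≤ x)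
    (hq : 14 * x + (469 / 100) * m ≤ 6 / 125) :
    lsQ (4 / 3) (28 / 3) (24 / 5) (4 / 5) (2 / 15) (1 / 4000000) (2093 / 10) (75 / 2) x m (23 / 2000) + (1 / 1000) ≤
      72 / 7 * (1 - x) * (23 / 2000) := by
  have q0 : 0 ≤ 6 / 125 - 14 * x - (469 / 100) * m := by linarith
  have key : 72 / 7 * (1 - x) * (23 / 2000) - (lsQ (4 / 3) (28 / 3) (24 / 5) (4 / 5) (2 / 15) (1 /
      4000000) (2093 / 10) (75 / 2) x m (23 / 2000) + (1 / 1000)) = (3101747837 / 3096576) * ((6
      / 125 - 14 * x - (469 / 100) * m) ^ 3) + (15979943851 / 516096) * (x * (6 / 125 - 14 * x -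
      (469 / 100) * m) ^ 2) + (116472209803 / 430080) * (x ^ 2 * (6 / 125 - 14 * x - (469 / 100)
      * m)) + (25964213165 / 55296) * (x ^ 3) + (18953007231 / 1638400) * (m * (6 / 125 - 14 * x
      - (469 / 100) * m) ^ 2) + (89052653113 / 409600) * (m * x * (6 / 125 - 14 * x - (469 /
      100) * m)) + (1520714352267 / 2048000) * (m * x ^ 2) + (62535064762051 / 1474560000) * (m
      ^ 2 * (6 / 125 - 14 * x - (469 / 100) * m)) + (249644721949973 / 737280000) * (m ^ 2 * x)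
      + (21137588934961919 / 442368000000) * (m ^ 3) := by
    unfold lsQ lsR lsD
    ring
  have pos : 0 ≤ (3101747837 / 3096576) * ((6 / 125 - 14 * x - (469 / 100) * m) ^ 3) + (15979943851 /
      516096) * (x * (6 / 125 - 14 * x - (469 / 100) * m) ^ 2) + (116472209803 / 430080) * (x ^
      2 * (6 / 125 - 14 * x - (469 / 100) * m)) + (25964213165 / 55296) * (x ^ 3) + (18953007231
      / 1638400) * (m * (6 / 125 - 14 * x - (469 / 100) * m) ^ 2) + (89052653113 / 409600) * (m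
      * x * (6 / 125 - 14 * x - (469 / 100) * m)) + (1520714352267 / 2048000) * (m * x ^ 2) +
      (62535064762051 / 1474560000) * (m ^ 2 * (6 / 125 - 14 * x - (469 / 100) * m)) +
      (249644721949973 / 737280000) * (m ^ 2 * x) + (21137588934961919 / 442368000000) * (m ^ 3) := by positivity
  linarith

theorem lsP1_l5 {m x : ℝ} (hm : 0 ≤ m) (hx : 0 ≤ x)
    (hq : 14 * x + (469 / 100) * m ≤ 6 / 125) :
    lsQ (5 / 6) 11 4 1 (1 / 6) (1 / 4000000) (2093 / 10) (75 / 2) x m (21 / 40 * m + 591 / 200 * x + 1 / 10000) ≤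
      72 / 7 * (1 - x) * (21 / 40 * m + 591 / 200 * x + 1 / 10000) := by
  have q0 : 0 ≤ 6 / 125 - 14 * x - (469 / 100) * m := by linarith
  have key : 72 / 7 * (1 - x) * (21 / 40 * m + 591 / 200 * x + 1 / 10000) - lsQ (5 / 6) 11 4 1 (1 / 6)
      (1 / 4000000) (2093 / 10) (75 / 2) x m (21 / 40 * m + 591 / 200 * x + 1 / 10000) =
      (38640673 / 5160960) * ((6 / 125 - 14 * x - (469 / 100) * m) ^ 3) + (9789940589 / 1843200)
      * (x * (6 / 125 - 14 * x - (469 / 100) * m) ^ 2) + (166823273663 / 1290240) * (x ^ 2 * (6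
      / 125 - 14 * x - (469 / 100) * m)) + (1808420197439 / 2304000) * (x ^ 3) + (52133526073 /
      73728000) * (m * (6 / 125 - 14 * x - (469 / 100) * m) ^ 2) + (5139679902241 / 92160000) *
      (m * x * (6 / 125 - 14 * x - (469 / 100) * m)) + (3487951085167 / 6144000) * (m * x ^ 2) +
      (35638681053437 / 7372800000) * (m ^ 2 * (6 / 125 - 14 * x - (469 / 100) * m)) +
      (771352337868343 / 6144000000) * (m ^ 2 * x) + (5770938557460251 / 737280000000) * (m ^ 3) := by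
    unfold lsQ lsR lsD
    ring
  have pos : 0 ≤ (38640673 / 5160960) * ((6 / 125 - 14 * x - (469 / 100) * m) ^ 3) + (9789940589 / 1843200)
      * (x * (6 / 125 - 14 * x - (469 / 100) * m) ^ 2) + (166823273663 / 1290240) * (x ^ 2 * (6
      / 125 - 14 * x - (469 / 100) * m)) + (1808420197439 / 2304000) * (x ^ 3) + (52133526073 /
      73728000) * (m * (6 / 125 - 14 * x - (469 / 100) * m) ^ 2) + (5139679902241 / 92160000) *
      (m * x * (6 / 125 - 14 * x - (469 / 100) * m)) + (3487951085167 / 6144000) * (m * x ^ 2) +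
      (35638681053437 / 7372800000) * (m ^ 2 * (6 / 125 - 14 * x - (469 / 100) * m)) +
      (771352337868343 / 6144000000) * (m ^ 2 * x) + (5770938557460251 / 737280000000) * (m ^ 3) := by positivity
  linarith

theorem lsP1_a5 {m x : ℝ} (hm : 0 ≤ m) (hx : 0 ≤ x)
    (hq : 14 * x + (469 / 100) * m ≤ 6 / 125) :
    lsQ (5 / 6) 11 4 1 (1 / 6) (1 / 4000000) (2093 / 10) (75 / 2) x m (23 / 2000) + (1 / 1000) ≤
      72 / 7 * (1 - x) * (23 / 2000) := by
  have q0 : 0 ≤ 6 / 125 - 14 * x - (469 / 100) * m := by linarith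
  have key : 72 / 7 * (1 - x) * (23 / 2000) - (lsQ (5 / 6) 11 4 1 (1 / 6) (1 / 4000000) (2093 / 10) (75
      / 2) x m (23 / 2000) + (1 / 1000)) = (3167280437 / 3096576) * ((6 / 125 - 14 * x - (469 /
      100) * m) ^ 3) + (17791607899 / 516096) * (x * (6 / 125 - 14 * x - (469 / 100) * m) ^ 2) +
      (51277185441 / 143360) * (x ^ 2 * (6 / 125 - 14 * x - (469 / 100) * m)) + (292059548257 /
      276480) * (x ^ 3) + (178799749279 / 14745600) * (m * (6 / 125 - 14 * x - (469 / 100) * m)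
      ^ 2) + (105634792137 / 409600) * (m * x * (6 / 125 - 14 * x - (469 / 100) * m)) +
      (22208934620923 / 18432000) * (m * x ^ 2) + (22729570550617 / 491520000) * (m ^ 2 * (6 /
      125 - 14 * x - (469 / 100) * m)) + (332703220210277 / 737280000) * (m ^ 2 * x) +
      (24632039878278119 / 442368000000) * (m ^ 3) := by
    unfold lsQ lsR lsD
    ring
  have pos : 0 ≤ (3167280437 / 3096576) * ((6 / 125 - 14 * x - (469 / 100) * m) ^ 3) + (17791607899 /
      516096) * (x * (6 / 125 - 14 * x - (469 / 100) * m) ^ 2) + (51277185441 / 143360) * (x ^ 2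
      * (6 / 125 - 14 * x - (469 / 100) * m)) + (292059548257 / 276480) * (x ^ 3) +
      (178799749279 / 14745600) * (m * (6 / 125 - 14 * x - (469 / 100) * m) ^ 2) + (105634792137
      / 409600) * (m * x * (6 / 125 - 14 * x - (469 / 100) * m)) + (22208934620923 / 18432000) *
      (m * x ^ 2) + (22729570550617 / 491520000) * (m ^ 2 * (6 / 125 - 14 * x - (469 / 100) *
      m)) + (332703220210277 / 737280000) * (m ^ 2 * x) + (24632039878278119 / 442368000000) *
      (m ^ 3) := by positivity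
  linarith

theorem lsD_1 {m x : ℝ} (hm : 0 ≤ m) (hx : 0 ≤ x)
    (hq : 14 * x + (469 / 100) * m ≤ 6 / 125) :
    lsQ (5 / 6) 11 (24 / 5) (4 / 5) (19 / 30) (1 / 4000000) (2093 / 10) (75 / 2) x m (21 / 40 * m + 591 / 200 * x + 1 / 10000) ≤
      72 / 7 * (1 - x) * (53 / 100 * m + (181 / 75) * x + 1 / 10000) := by
  have q0 : 0 ≤ 6 / 125 - 14 * x - (469 / 100) * m := by linarith
  have key : 72 / 7 * (1 - x) * (53 / 100 * m + (181 / 75) * x + 1 / 10000) - lsQ (5 / 6) 11 (24 / 5)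
      (4 / 5) (19 / 30) (1 / 4000000) (2093 / 10) (75 / 2) x m (21 / 40 * m + 591 / 200 * x + 1
      / 10000) = (4169891 / 1720320) * ((6 / 125 - 14 * x - (469 / 100) * m) ^ 3) + (34585829123
      / 12902400) * (x * (6 / 125 - 14 * x - (469 / 100) * m) ^ 2) + (76896973463 / 1290240) *
      (x ^ 2 * (6 / 125 - 14 * x - (469 / 100) * m)) + (716283642439 / 2304000) * (x ^ 3) +
      (17850707279 / 57344000) * (m * (6 / 125 - 14 * x - (469 / 100) * m) ^ 2) +
      (14593191020687 / 645120000) * (m * x * (6 / 125 - 14 * x - (469 / 100) * m)) +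
      (3425396262101 / 18432000) * (m * x ^ 2) + (1259281090493 / 819200000) * (m ^ 2 * (6 / 125
      - 14 * x - (469 / 100) * m)) + (536307475440029 / 18432000000) * (m ^ 2 * x) +
      (135252507254417 / 245760000000) * (m ^ 3) := by
    unfold lsQ lsR lsD
    ring
  have pos : 0 ≤ (4169891 / 1720320) * ((6 / 125 - 14 * x - (469 / 100) * m) ^ 3) + (34585829123 /
      12902400) * (x * (6 / 125 - 14 * x - (469 / 100) * m) ^ 2) + (76896973463 / 1290240) * (x
      ^ 2 * (6 / 125 - 14 * x - (469 / 100) * m)) + (716283642439 / 2304000) * (x ^ 3) +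
      (17850707279 / 57344000) * (m * (6 / 125 - 14 * x - (469 / 100) * m) ^ 2) +
      (14593191020687 / 645120000) * (m * x * (6 / 125 - 14 * x - (469 / 100) * m)) +
      (3425396262101 / 18432000) * (m * x ^ 2) + (1259281090493 / 819200000) * (m ^ 2 * (6 / 125
      - 14 * x - (469 / 100) * m)) + (536307475440029 / 18432000000) * (m ^ 2 * x) +
      (135252507254417 / 245760000000) * (m ^ 3) := by positivity
  linarith

theorem lsD_2 {m x : ℝ} (hm : 0 ≤ m) (hx : 0 ≤ x)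
    (hq : 14 * x + (469 / 100) * m ≤ 6 / 125) :
    lsQ (4 / 3) (28 / 3) (24 / 5) (4 / 5) (7 / 15) (1 / 4000000) (2093 / 10) (75 / 2) x m (21 / 40 * m + 591 / 200 * x + 1 / 10000) ≤
      72 / 7 * (1 - x) * (53 / 100 * m + (206 / 75) * x + 1 / 10000) := by
  have q0 : 0 ≤ 6 / 125 - 14 * x - (469 / 100) * m := by linarith
  have key : 72 / 7 * (1 - x) * (53 / 100 * m + (206 / 75) * x + 1 / 10000) - lsQ (4 / 3) (28 / 3) (24
      / 5) (4 / 5) (7 / 15) (1 / 4000000) (2093 / 10) (75 / 2) x m (21 / 40 * m + 591 / 200 * x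
      + 1 / 10000) = (65503819 / 15482880) * ((6 / 125 - 14 * x - (469 / 100) * m) ^ 3) +
      (25861498123 / 12902400) * (x * (6 / 125 - 14 * x - (469 / 100) * m) ^ 2) + (4238134143 /
      143360) * (x ^ 2 * (6 / 125 - 14 * x - (469 / 100) * m)) + (188302304317 / 6912000) * (x ^
      3) + (19286354079 / 57344000) * (m * (6 / 125 - 14 * x - (469 / 100) * m) ^ 2) +
      (3108732567229 / 215040000) * (m * x * (6 / 125 - 14 * x - (469 / 100) * m)) +
      (117325176103 / 6144000) * (m * x ^ 2) + (12230219714837 / 7372800000) * (m ^ 2 * (6 / 125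
      - 14 * x - (469 / 100) * m)) + (105138703707029 / 18432000000) * (m ^ 2 * x) +
      (1673157815297353 / 2211840000000) * (m ^ 3) := by
    unfold lsQ lsR lsD
    ring
  have pos : 0 ≤ (65503819 / 15482880) * ((6 / 125 - 14 * x - (469 / 100) * m) ^ 3) + (25861498123 /
      12902400) * (x * (6 / 125 - 14 * x - (469 / 100) * m) ^ 2) + (4238134143 / 143360) * (x ^
      2 * (6 / 125 - 14 * x - (469 / 100) * m)) + (188302304317 / 6912000) * (x ^ 3) +
      (19286354079 / 57344000) * (m * (6 / 125 - 14 * x - (469 / 100) * m) ^ 2) + (3108732567229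
      / 215040000) * (m * x * (6 / 125 - 14 * x - (469 / 100) * m)) + (117325176103 / 6144000) *
      (m * x ^ 2) + (12230219714837 / 7372800000) * (m ^ 2 * (6 / 125 - 14 * x - (469 / 100) *
      m)) + (105138703707029 / 18432000000) * (m ^ 2 * x) + (1673157815297353 / 2211840000000) *
      (m ^ 3) := by positivity
  linarith

theorem lsZ_l1 {m : ℝ} (hm : 0 ≤ m) (hq : m ≤ (99 / 10000)) :
    lsQ (5 / 6) 11 (24 / 5) (4 / 5) (19 / 30) (3 / 10000000) 0 40 0 m (21 / 40 * m + 1 / 10000) ≤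
      72 / 7 * (1 - 0) * (21 / 40 * m + 1 / 10000) := by
  have q0 : 0 ≤ (99 / 10000) - m := by linarith
  have key : 72 / 7 * (1 - 0) * (21 / 40 * m + 1 / 10000) - (lsQ (5 / 6) 11 (24 / 5) (4 / 5) (19 / 30)
      (3 / 10000000) 0 40 0 m (21 / 40 * m + 1 / 10000)) = (1876170740 / 6792093) * (((99 /
      10000) - m) ^ 3) + (30872233741 / 4528062) * (m * ((99 / 10000) - m) ^ 2) + (30666438151 /
      4528062) * (m ^ 2 * ((99 / 10000) - m)) + (22363608061 / 135841860) * (m ^ 3) := by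
    unfold lsQ lsR lsD
    ring
  have pos : 0 ≤ (1876170740 / 6792093) * (((99 / 10000) - m) ^ 3) + (30872233741 / 4528062) * (m * ((99 /
      10000) - m) ^ 2) + (30666438151 / 4528062) * (m ^ 2 * ((99 / 10000) - m)) + (22363608061 /
      135841860) * (m ^ 3) := by positivity
  linarith

theorem lsZ_a1 {m : ℝ} (hm : 0 ≤ m) (hq : m ≤ (99 / 10000)) :
    lsQ (5 / 6) 11 (24 / 5) (4 / 5) (19 / 30) (3 / 10000000) 0 40 0 m (3 / 100) + (1 / 1000) ≤
      72 / 7 * (1 - 0) * (3 / 100) := by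
  have q0 : 0 ≤ (99 / 10000) - m := by linarith
  have key : 72 / 7 * (1 - 0) * (3 / 100) - (lsQ (5 / 6) 11 (24 / 5) (4 / 5) (19 / 30) (3 / 10000000) 0
      40 0 m (3 / 100) + (1 / 1000)) = (89030161 / 3150000) * (((99 / 10000) - m)) + (63968761 /
      3150000) * (m) := by
    unfold lsQ lsR lsD
    ring
  have pos : 0 ≤ (89030161 / 3150000) * (((99 / 10000) - m)) + (63968761 / 3150000) * (m) := by positivity
  linarith

theorem lsZ_l2 {m : ℝ} (hm : 0 ≤ m) (hq : m ≤ (99 / 10000)) :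
    lsQ (4 / 3) (28 / 3) (24 / 5) (4 / 5) (7 / 15) (3 / 10000000) 0 40 0 m (21 / 40 * m + 1 / 10000) ≤
      72 / 7 * (1 - 0) * (21 / 40 * m + 1 / 10000) := by
  have q0 : 0 ≤ (99 / 10000) - m := by linarith
  have key : 72 / 7 * (1 - 0) * (21 / 40 * m + 1 / 10000) - (lsQ (4 / 3) (28 / 3) (24 / 5) (4 / 5) (7 /
      15) (3 / 10000000) 0 40 0 m (21 / 40 * m + 1 / 10000)) = (3274910740 / 6792093) * (((99 /
      10000) - m) ^ 3) + (33628595741 / 4528062) * (m * ((99 / 10000) - m) ^ 2) + (16756875313 /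
      2264031) * (m ^ 2 * ((99 / 10000) - m)) + (53066922311 / 135841860) * (m ^ 3) := by
    unfold lsQ lsR lsD
    ring
  have pos : 0 ≤ (3274910740 / 6792093) * (((99 / 10000) - m) ^ 3) + (33628595741 / 4528062) * (m * ((99 /
      10000) - m) ^ 2) + (16756875313 / 2264031) * (m ^ 2 * ((99 / 10000) - m)) + (53066922311 /
      135841860) * (m ^ 3) := by positivity
  linarith

theorem lsZ_a2 {m : ℝ} (hm : 0 ≤ m) (hq : m ≤ (99 / 10000)) :
    lsQ (4 / 3) (28 / 3) (24 / 5) (4 / 5) (7 / 15) (3 / 10000000) 0 40 0 m (3 / 100) + (1 / 1000) ≤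
      72 / 7 * (1 - 0) * (3 / 100) := by
  have q0 : 0 ≤ (99 / 10000) - m := by linarith
  have key : 72 / 7 * (1 - 0) * (3 / 100) - (lsQ (4 / 3) (28 / 3) (24 / 5) (4 / 5) (7 / 15) (3 /
      10000000) 0 40 0 m (3 / 100) + (1 / 1000)) = (102592419 / 3850000) * (((99 / 10000) - m))
      + (73116819 / 3850000) * (m) := by
    unfold lsQ lsR lsD
    ring
  have pos : 0 ≤ (102592419 / 3850000) * (((99 / 10000) - m)) + (73116819 / 3850000) * (m) := by positivity
  linarith

theorem lsZ_l3 {m : ℝ} (hm : 0 ≤ m) (hq : m ≤ (99 / 10000)) :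
    lsQ (3 / 2) (26 / 3) (24 / 5) (4 / 5) (3 / 10) (3 / 10000000) 0 40 0 m (21 / 40 * m + 1 / 10000) ≤
      72 / 7 * (1 - 0) * (21 / 40 * m + 1 / 10000) := by
  have q0 : 0 ≤ (99 / 10000) - m := by linarith
  have key : 72 / 7 * (1 - 0) * (21 / 40 * m + 1 / 10000) - (lsQ (3 / 2) (26 / 3) (24 / 5) (4 / 5) (3 /
      10) (3 / 10000000) 0 40 0 m (21 / 40 * m + 1 / 10000)) = (519387860 / 754677) * (((99 /
      10000) - m) ^ 3) + (1348782583 / 167706) * (m * ((99 / 10000) - m) ^ 2) + (4055084939 /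
      503118) * (m ^ 2 * ((99 / 10000) - m)) + (9651435229 / 15093540) * (m ^ 3) := by
    unfold lsQ lsR lsD
    ring
  have pos : 0 ≤ (519387860 / 754677) * (((99 / 10000) - m) ^ 3) + (1348782583 / 167706) * (m * ((99 /
      10000) - m) ^ 2) + (4055084939 / 503118) * (m ^ 2 * ((99 / 10000) - m)) + (9651435229 /
      15093540) * (m ^ 3) := by positivity
  linarith

theorem lsZ_a3 {m : ℝ} (hm : 0 ≤ m) (hq : m ≤ (99 / 10000)) :
    lsQ (3 / 2) (26 / 3) (24 / 5) (4 / 5) (3 / 10) (3 / 10000000) 0 40 0 m (3 / 100) + (1 / 1000) ≤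
      72 / 7 * (1 - 0) * (3 / 100) := by
  have q0 : 0 ≤ (99 / 10000) - m := by linarith
  have key : 72 / 7 * (1 - 0) * (3 / 100) - (lsQ (3 / 2) (26 / 3) (24 / 5) (4 / 5) (3 / 10) (3 /
      10000000) 0 40 0 m (3 / 100) + (1 / 1000)) = (905131771 / 34650000) * (((99 / 10000) - m))
      + (644009371 / 34650000) * (m) := by
    unfold lsQ lsR lsD
    ring
  have pos : 0 ≤ (905131771 / 34650000) * (((99 / 10000) - m)) + (644009371 / 34650000) * (m) := by positivity
  linarith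

theorem lsZ_l4 {m : ℝ} (hm : 0 ≤ m) (hq : m ≤ (99 / 10000)) :
    lsQ (4 / 3) (28 / 3) (24 / 5) (4 / 5) (2 / 15) (3 / 10000000) 0 40 0 m (21 / 40 * m + 1 / 10000) ≤
      72 / 7 * (1 - 0) * (21 / 40 * m + 1 / 10000) := by
  have q0 : 0 ≤ (99 / 10000) - m := by linarith
  have key : 72 / 7 * (1 - 0) * (21 / 40 * m + 1 / 10000) - (lsQ (4 / 3) (28 / 3) (24 / 5) (4 / 5) (2 /
      15) (3 / 10000000) 0 40 0 m (21 / 40 * m + 1 / 10000)) = (6074910740 / 6792093) * (((99 /
      10000) - m) ^ 3) + (39228595741 / 4528062) * (m * ((99 / 10000) - m) ^ 2) + (19556875313 /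
      2264031) * (m ^ 2 * ((99 / 10000) - m)) + (109066922311 / 135841860) * (m ^ 3) := by
    unfold lsQ lsR lsD
    ring
  have pos : 0 ≤ (6074910740 / 6792093) * (((99 / 10000) - m) ^ 3) + (39228595741 / 4528062) * (m * ((99 /
      10000) - m) ^ 2) + (19556875313 / 2264031) * (m ^ 2 * ((99 / 10000) - m)) + (109066922311
      / 135841860) * (m ^ 3) := by positivity
  linarith

theorem lsZ_a4 {m : ℝ} (hm : 0 ≤ m) (hq : m ≤ (99 / 10000)) :
    lsQ (4 / 3) (28 / 3) (24 / 5) (4 / 5) (2 / 15) (3 / 10000000) 0 40 0 m (3 / 100) + (1 / 1000) ≤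
      72 / 7 * (1 - 0) * (3 / 100) := by
  have q0 : 0 ≤ (99 / 10000) - m := by linarith
  have key : 72 / 7 * (1 - 0) * (3 / 100) - (lsQ (4 / 3) (28 / 3) (24 / 5) (4 / 5) (2 / 15) (3 /
      10000000) 0 40 0 m (3 / 100) + (1 / 1000)) = (924731771 / 34650000) * (((99 / 10000) - m))
      + (659451371 / 34650000) * (m) := by
    unfold lsQ lsR lsD
    ring
  have pos : 0 ≤ (924731771 / 34650000) * (((99 / 10000) - m)) + (659451371 / 34650000) * (m) := by positivity
  linarith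

theorem lsZ_l5 {m : ℝ} (hm : 0 ≤ m) (hq : m ≤ (99 / 10000)) :
    lsQ (5 / 6) 11 4 1 (1 / 6) (3 / 10000000) 0 40 0 m (21 / 40 * m + 1 / 10000) ≤
      72 / 7 * (1 - 0) * (21 / 40 * m + 1 / 10000) := by
  have q0 : 0 ≤ (99 / 10000) - m := by linarith
  have key : 72 / 7 * (1 - 0) * (21 / 40 * m + 1 / 10000) - (lsQ (5 / 6) 11 4 1 (1 / 6) (3 / 10000000)
      0 40 0 m (21 / 40 * m + 1 / 10000)) = (5795750740 / 6792093) * (((99 / 10000) - m) ^ 3) +
      (75634433741 / 4528062) * (m * ((99 / 10000) - m) ^ 2) + (110430682151 / 4528062) * (m ^ 2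
      * ((99 / 10000) - m)) + (1150816528061 / 135841860) * (m ^ 3) := by
    unfold lsQ lsR lsD
    ring
  have pos : 0 ≤ (5795750740 / 6792093) * (((99 / 10000) - m) ^ 3) + (75634433741 / 4528062) * (m * ((99 /
      10000) - m) ^ 2) + (110430682151 / 4528062) * (m ^ 2 * ((99 / 10000) - m)) +
      (1150816528061 / 135841860) * (m ^ 3) := by positivity
  linarith

theorem lsZ_a5 {m : ℝ} (hm : 0 ≤ m) (hq : m ≤ (99 / 10000)) :
    lsQ (5 / 6) 11 4 1 (1 / 6) (3 / 10000000) 0 40 0 m (3 / 100) + (1 / 1000) ≤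
      72 / 7 * (1 - 0) * (3 / 100) := by
  have q0 : 0 ≤ (99 / 10000) - m := by linarith
  have key : 72 / 7 * (1 - 0) * (3 / 100) - (lsQ (5 / 6) 11 4 1 (1 / 6) (3 / 10000000) 0 40 0 m (3 /
      100) + (1 / 1000)) = (327097187 / 11550000) * (((99 / 10000) - m)) + (241673387 /
      11550000) * (m) := by
    unfold lsQ lsR lsD
    ring
  have pos : 0 ≤ (327097187 / 11550000) * (((99 / 10000) - m)) + (241673387 / 11550000) * (m) := by positivity
  linarith

end K4m
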