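import Mathlib
import Pool.Agent.Lib.MP_392c14_co.Acc.LinS5
import Pool.Agent.Lib.MP_392c14_co.Acc.Delta
import Pool.Agent.Lib.MP_392c14_co.Acc.Delta2

/-!
# Linear sizes, part 6: the sizes of the classes

`A` is the sum of the absolute values of the centred sizes `v a - 1/6 + ξ/6`.
-/

set_option autoImplicit false

namespace K4m

open Finset

/-- numerical hypotheses of one pass -/
structure LsN (e1 e2 e3 x m l a : ℝ) : Prop where
  l1 : lsQ (5 / 6) 11 (24 / 5) (4 / 5) (19 / 30) e1 e2 e3 x m l ≤ 72 / 7 * (1 - x) * l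
  l2 : lsQ (4 / 3) (28 / 3) (24 / 5) (4 / 5) (7 / 15) e1 e2 e3 x m l ≤ 72 / 7 * (1 - x) * l
  l3 : lsQ (3 / 2) (26 / 3) (24 / 5) (4 / 5) (3 / 10) e1 e2 e3 x m l ≤ 72 / 7 * (1 - x) * l
  l4 : lsQ (4 / 3) (28 / 3) (24 / 5) (4 / 5) (2 / 15) e1 e2 e3 x m l ≤ 72 / 7 * (1 - x) * l
  l5 : lsQ (5 / 6) 11 4 1 (1 / 6) e1 e2 e3 x m l ≤ 72 / 7 * (1 - x) * l
  a1 : lsQ (5 / 6) 11 (24 / 5) (4 / 5) (19 / 30) e1 e2 e3 x m a + 1 / 1000 ≤
    72 / 7 * (1 - x) * a
  a2 : lsQ (4 / 3) (28 / 3) (24 / 5) (4 / 5) (7 / 15) e1 e2 e3 x m a + 1 / 1000 ≤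
    72 / 7 * (1 - x) * a
  a3 : lsQ (3 / 2) (26 / 3) (24 / 5) (4 / 5) (3 / 10) e1 e2 e3 x m a + 1 / 1000 ≤
    72 / 7 * (1 - x) * a
  a4 : lsQ (4 / 3) (28 / 3) (24 / 5) (4 / 5) (2 / 15) e1 e2 e3 x m a + 1 / 1000 ≤
    72 / 7 * (1 - x) * a
  a5 : lsQ (5 / 6) 11 4 1 (1 / 6) e1 e2 e3 x m a + 1 / 1000 ≤ 72 / 7 * (1 - x) * a

section B

variable {V : Type} [Fintype V] {G : TG V} {w : V → ℝ} {μ : Fin 6 → V → ℝ} {v : Fin 6 → ℝ}
  {X : V → ℝ} {t : ℝ}

theorem Dec.two_sum_le (D : Dec G w μ v X t) (T : Finset (Fin 6)) :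
    2 * ∑ a ∈ T, sgm v X a ≤ ∑ b, |sgm v X b| := by
  have s0 := D.sum_sgm
  have e1 : ∑ a ∈ T, sgm v X a = ∑ a, (if a ∈ T then sgm v X a else 0) := by
    rw [sum_ite_mem, univ_inter]
  have e2 : 2 * ∑ a ∈ T, sgm v X a = ∑ a, (2 * (if a ∈ T then sgm v X a else 0) -
      sgm v X a) := by
    rw [sum_sub_distrib, s0, e1, mul_sum, sub_zero]
  rw [e2]
  refine sum_le_sum fun a _ => ?_
  split_ifs
  · have := le_abs_self (sgm v X a); linarith
  · have := neg_abs_le (sgm v X a); linarith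

theorem Dec.half_sum (D : Dec G w μ v X t) :
    2 * ∑ b ∈ univ.filter (fun b => 0 ≤ sgm v X b), sgm v X b = ∑ b, |sgm v X b| := by
  have s0 := D.sum_sgm
  have e1 : ∑ a ∈ univ.filter (fun b => 0 ≤ sgm v X b), sgm v X a =
      ∑ a, (if 0 ≤ sgm v X a then sgm v X a else 0) := by
    rw [sum_filter]
  have e2 : 2 * ∑ a ∈ univ.filter (fun b => 0 ≤ sgm v X b), sgm v X a =
      ∑ a, (2 * (if 0 ≤ sgm v X a then sgm v X a else 0) - sgm v X a) := by
    rw [sum_sub_distrib, s0, e1, mul_sum, sub_zero]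
  rw [e2]
  refine sum_congr rfl fun a _ => ?_
  split_ifs with h
  · rw [abs_of_nonneg h]; ring
  · push Not at h
    rw [abs_of_neg h]; ring

/-- upper bound of the right hand side -/
theorem lsR_le {M b y1 y2 y3 e1 e2 e3 x m A δ t : ℝ} (hM : 0 ≤ M) (hb : 0 ≤ b) (hx : 0 ≤ x)
    (hm : 0 ≤ m) (hA : 0 ≤ A) (hδ : 0 ≤ δ) (hy2 : 0 ≤ y2) (hy3 : 0 ≤ y3)
    (hρ : rho ≤ 28572 / 100000) (ht : t ≤ rho) (hδ2 : δ ≤ lsD e1 e2 e3 x m A) :
    lsR M b (y1 * m + y2 * δ + y3 * (210 * rho - 60)) x m A δ (rho - 2 / 7) t ≤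
      lsQ M b y1 y2 y3 e1 e2 e3 x m A := by
  have hr := two_sevenths_le_rho
  unfold lsQ
  refine lsR_mono hM hb hx hm hA hδ (by linarith) ?_ le_rfl hδ2 (by linarith) (by linarith)
  have h1 := mul_le_mul_of_nonneg_left hδ2 hy2
  have h2 : y3 * (210 * rho - 60) ≤ y3 * (3 / 2500) :=
    mul_le_mul_of_nonneg_left (by linarith) hy3
  linarith

/-- one pass -/
theorem Dec.A_pass (D : Dec G w μ v X t) {δ A l a e1 e2 e3 : ℝ}
    (h4 : ∀ J : Finset (Fin 6), ∑ a ∈ J, (eN G μ a - 3 * BN G μ a) ≤ δ)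
    (hA : ∑ b, |sgm v X b| = A) (hX : xX X ≤ 1) (hρ : rho ≤ 28572 / 100000)
    (hδ : δ ≤ lsD e1 e2 e3 (xX X) (mN G μ) A) (he3 : 0 ≤ e3) (hl : 0 ≤ l)
    (N : LsN e1 e2 e3 (xX X) (mN G μ) l a) (hAa : A ≤ a) : A ≤ l := by
  by_contra hcon
  push Not at hcon
  have ht : t ≤ rho := by
    have h := val_le_rho G w D.hw
    rw [val_eq_tri, D.tri_www] at h
    exact h
  have hx := D.xX_nonneg
  have hm := mN_nonneg (G := G) D.hμ
  have A0 : 0 ≤ A := hl.trans hcon.le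
  have hδ0 : 0 ≤ δ := by have := h4 ∅; simpa using this
  obtain ⟨S, hS⟩ : ∃ S : Finset (Fin 6), S = univ.filter (fun b => 0 ≤ sgm v X b) := ⟨_, rfl⟩
  have hh := D.half_sum
  rw [← hS, hA] at hh
  have e : 144 / 7 * (1 - xX X) * ∑ b ∈ S, sgm v X b = 72 / 7 * (1 - xX X) * A := by
    rw [← hh]; ring
  have hAp : 0 < A := lt_of_le_of_lt hl hcon
  have hc6 : S.card ≤ 6 := by
    have h := card_le_univ S
    rwa [Fintype.card_fin] at h
  obtain ⟨n, hn⟩ : ∃ n, n = S.card := ⟨_, rfl⟩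
  rw [← hn] at hc6
  interval_cases n
  · have : S = ∅ := card_eq_zero.1 hn.symm
    rw [this, sum_empty] at hh
    linarith
  · have h := D.lin1 S h4 hA hX hn.symm
    rw [e] at h
    have h2 := lsR_le (M := 5 / 6) (b := 11) (y1 := 24 / 5) (y2 := 4 / 5) (y3 := 19 / 30)
      (by norm_num) (by norm_num) hx hm A0 hδ0 (by norm_num) (by norm_num) hρ ht hδ
    have h3 := lsQ_conc (by norm_num) he3 hm N.l1 N.a1 hcon hAa
    linarith
  · have h := D.lin2 S h4 hA hX hn.symm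
    rw [e] at h
    have h2 := lsR_le (M := 4 / 3) (b := 28 / 3) (y1 := 24 / 5) (y2 := 4 / 5) (y3 := 7 / 15)
      (by norm_num) (by norm_num) hx hm A0 hδ0 (by norm_num) (by norm_num) hρ ht hδ
    have h3 := lsQ_conc (by norm_num) he3 hm N.l2 N.a2 hcon hAa
    linarith
  · have h := D.lin3 S h4 hA hX hn.symm
    rw [e] at h
    have h2 := lsR_le (M := 3 / 2) (b := 26 / 3) (y1 := 24 / 5) (y2 := 4 / 5) (y3 := 3 / 10)
      (by norm_num) (by norm_num) hx hm A0 hδ0 (by norm_num) (by norm_num) hρ ht hδ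
    have h3 := lsQ_conc (by norm_num) he3 hm N.l3 N.a3 hcon hAa
    linarith
  · have h := D.lin4 S h4 hA hX hn.symm
    rw [e] at h
    have h2 := lsR_le (M := 4 / 3) (b := 28 / 3) (y1 := 24 / 5) (y2 := 4 / 5) (y3 := 2 / 15)
      (by norm_num) (by norm_num) hx hm A0 hδ0 (by norm_num) (by norm_num) hρ ht hδ
    have h3 := lsQ_conc (by norm_num) he3 hm N.l4 N.a4 hcon hAa
    linarith
  · have h := D.lin5 S h4 hA hX hn.symm
    rw [e] at h
    have h2 := lsR_le (M := 5 / 6) (b := 11) (y1 := 4) (y2 := 1) (y3 := 1 / 6)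
      (by norm_num) (by norm_num) hx hm A0 hδ0 (by norm_num) (by norm_num) hρ ht hδ
    have h3 := lsQ_conc (by norm_num) he3 hm N.l5 N.a5 hcon hAa
    have h5 : 4 * mN G μ + δ + (210 * rho - 60) / 6 =
        4 * mN G μ + 1 * δ + 1 / 6 * (210 * rho - 60) := by ring
    rw [h5] at h
    linarith
  · have : S = univ := by
      rw [← card_eq_iff_eq_univ, Fintype.card_fin]; exact hn.symm
    rw [this, D.sum_sgm] at hh
    linarith

theorem Dec.abs_sgm_le (D : Dec G w μ v X t) (a : Fin 6) :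
    2 * |sgm v X a| ≤ ∑ b, |sgm v X b| := by
  have h1 := D.two_sum_le {a}
  have h2 := D.two_sum_le (univ.erase a)
  rw [sum_singleton] at h1
  have h3 := add_sum_erase univ (sgm v X) (mem_univ a)
  rw [D.sum_sgm] at h3
  rcases le_total 0 (sgm v X a) with h | h
  · rw [abs_of_nonneg h]; exact h1
  · rw [abs_of_nonpos h]; linarith

theorem Dec.sum_s_le (D : Dec G w μ v X t) :
    ∑ b, |v b - 1 / 6| ≤ ∑ b, |sgm v X b| + xX X := by
  have hx := D.xX_nonneg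
  have h : ∀ b, |v b - 1 / 6| ≤ |sgm v X b| + xX X / 6 := by
    intro b
    have e : v b - 1 / 6 = sgm v X b - xX X / 6 := by unfold sgm; ring
    rw [e]
    refine (abs_sub _ _).trans ?_
    rw [abs_of_nonneg (by linarith : 0 ≤ xX X / 6)]
  refine (sum_le_sum fun b _ => h b).trans (le_of_eq ?_)
  rw [sum_add_distrib, sum_const, card_univ, Fintype.card_fin]
  simp only [nsmul_eq_mul]; push_cast; ring

theorem Dec.sum_sgm_le (D : Dec G w μ v X t) :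
    ∑ b, |sgm v X b| ≤ ∑ b, |v b - 1 / 6| + xX X := by
  have hx := D.xX_nonneg
  have h : ∀ b, |sgm v X b| ≤ |v b - 1 / 6| + xX X / 6 := by
    intro b
    unfold sgm
    refine (abs_add_le _ _).trans ?_
    rw [abs_of_nonneg (by linarith : 0 ≤ xX X / 6)]
  refine (sum_le_sum fun b _ => h b).trans (le_of_eq ?_)
  rw [sum_add_distrib, sum_const, card_univ, Fintype.card_fin]
  simp only [nsmul_eq_mul]; push_cast; ring

/-- all sets of classes at once -/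
theorem Dec.sizes_all (D : Dec G w μ v X t) (S : Finset (Fin 6)) :
    12 * ∑ a ∈ S, (v a - 1 / 6 + xX X / 6) ≤ 6 * ∑ b, |sgm v X b| := by
  have h := D.two_sum_le S
  have e : ∑ a ∈ S, (v a - 1 / 6 + xX X / 6) = ∑ a ∈ S, sgm v X a := rfl
  rw [e]; linarith

end B

end K4m
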