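import Mathlib
import Pool.Agent.Lib.MP_392c14_co.Acc.LinS6

/-!
# Linear sizes, part 7: the sizes for the clones and for a total partition
-/

set_option autoImplicit false

namespace K4m

open Finset

theorem lsQ_mono {M b y1 y2 y3 e1 e2 e3 x m A A' : ℝ} (hM : 0 ≤ M) (hb : 0 ≤ b) (hx : 0 ≤ x)
    (hm : 0 ≤ m) (hA : 0 ≤ A) (hy2 : 0 ≤ y2) (he1 : 0 ≤ e1) (he2 : 0 ≤ e2) (he3 : 0 ≤ e3)
    (h : A ≤ A') : lsQ M b y1 y2 y3 e1 e2 e3 x m A ≤ lsQ M b y1 y2 y3 e1 e2 e3 x m A' := by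
  have hD : lsD e1 e2 e3 x m A ≤ lsD e1 e2 e3 x m A' := by
    unfold lsD
    have : e3 * (A + x) * m ≤ e3 * (A' + x) * m :=
      mul_le_mul_of_nonneg_right (mul_le_mul_of_nonneg_left (by linarith) he3) hm
    linarith
  have hD0 : 0 ≤ lsD e1 e2 e3 x m A := by
    unfold lsD; positivity
  unfold lsQ
  refine lsR_mono hM hb hx hm hA hD0 (by norm_num) ?_ h hD le_rfl le_rfl
  have := mul_le_mul_of_nonneg_left hD hy2
  linarith

section B

variable {V : Type} [Fintype V] {G : TG V} {w : V → ℝ} {μ : Fin 6 → V → ℝ} {v : Fin 6 → ℝ}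
  {X : V → ℝ} {t : ℝ} {c : V → Fin 6}

theorem Dec.t_le_rho (D : Dec G w μ v X t) : t ≤ rho := by
  have h := val_le_rho G w D.hw
  rw [val_eq_tri, D.tri_www] at h
  exact h

/-- deficiency of the inner densities in the form needed here -/
theorem Dec.delta_ls (D : Dec G w μ v X t)
    (hc : ∀ a x, v a * μ a x = (w x - X x) * pin c a x)
    (hρ : rho ≤ 28572 / 100000) (ht : rho - t ≤ 1 / 10 ^ 9) {vm e1 e2 e3 A : ℝ} (hvm : 0 < vm)
    (hv : ∀ a, vm ≤ v a) (hA : ∑ b, |sgm v X b| = A)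
    (n1 : 1 / 10 ^ 9 / vm ^ 3 ≤ e1) (n2 : 21429 / 25000 / vm ^ 3 ≤ e2) (n3 : 6 / vm ≤ e3) :
    ∀ J : Finset (Fin 6), ∑ a ∈ J, (eN G μ a - 3 * BN G μ a) ≤
      lsD e1 e2 e3 (xX X) (mN G μ) A := by
  intro J
  have hx := D.xX_nonneg
  have hm := mN_nonneg (G := G) D.hμ
  have A0 : 0 ≤ A := by rw [← hA]; exact sum_nonneg fun b _ => abs_nonneg _
  have hs := D.sum_s_le
  rw [hA] at hs
  have h := D.delta c hc D.t_le_rho vm (A + xX X) hvm hv hs J
  refine h.trans ?_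
  unfold lsD
  have h3 : 0 < vm ^ 3 := pow_pos hvm 3
  have k1 : ((rho - t) + 3 * rho * xX X ^ 2) / vm ^ 3 ≤ e1 + e2 * xX X ^ 2 := by
    have a1 : ((rho - t) + 3 * rho * xX X ^ 2) / vm ^ 3 =
        (rho - t) / vm ^ 3 + 3 * rho / vm ^ 3 * xX X ^ 2 := by ring
    have a2 : (rho - t) / vm ^ 3 ≤ 1 / 10 ^ 9 / vm ^ 3 := div_le_div_of_nonneg_right ht h3.le
    have a3 : 3 * rho / vm ^ 3 ≤ 21429 / 25000 / vm ^ 3 :=
      div_le_div_of_nonneg_right (by linarith) h3.le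
    have a4 := mul_le_mul_of_nonneg_right (a3.trans n2) (sq_nonneg (xX X))
    rw [a1]; linarith
  have k2 : 6 * (A + xX X) * mN G μ / vm ≤ e3 * (A + xX X) * mN G μ := by
    have a1 : 6 * (A + xX X) * mN G μ / vm = 6 / vm * ((A + xX X) * mN G μ) := by ring
    have a2 := mul_le_mul_of_nonneg_right n3 (mul_nonneg (by linarith : 0 ≤ A + xX X) hm)
    rw [a1]; linarith
  linarith

/-- **Sizes of the classes of a total partition.** -/
theorem Dec.sizes_tot (D : Dec G w μ v X t)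
    (hc : ∀ a x, v a * μ a x = (w x - X x) * pin c a x)
    (hρ : rho ≤ 28572 / 100000) (ht : rho - t ≤ 1 / 10 ^ 9) (hX : xX X = 0)
    (hm : mN G μ ≤ 99 / 10000) (h0 : ∑ b, |v b - 1 / 6| ≤ 3 / 100) :
    ∑ b, |v b - 1 / 6| ≤ 21 / 40 * mN G μ + 1 / 10 ^ 4 := by
  have hm0 := mN_nonneg (G := G) D.hμ
  have e0 : ∀ b, sgm v X b = v b - 1 / 6 := by
    intro b; unfold sgm; rw [hX]; ring
  have e1 : ∑ b, |sgm v X b| = ∑ b, |v b - 1 / 6| := sum_congr rfl fun b _ => by rw [e0]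
  obtain ⟨A, hA⟩ : ∃ A, ∑ b, |sgm v X b| = A := ⟨_, rfl⟩
  have hA1 : A ≤ 3 / 100 := by rw [← hA, e1]; exact h0
  have hv : ∀ a, 3 / 20 ≤ v a := by
    intro a
    have h1 := D.abs_sgm_le a
    rw [hA] at h1
    have h2 := neg_abs_le (sgm v X a)
    rw [e0 a] at h1 h2
    linarith
  have h4 := D.delta_ls (c := c) hc hρ ht (vm := 3 / 20) (e1 := 3 / 10000000) (e2 := 254)
    (e3 := 40) (by norm_num) hv hA (by norm_num) (by norm_num) (by norm_num)
  have h5 : lsD (3 / 10000000) 254 40 (xX X) (mN G μ) A ≤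
      lsD (3 / 10000000) 0 40 (xX X) (mN G μ) A := by
    unfold lsD; rw [hX]; norm_num
  have N : LsN (3 / 10000000) 0 40 (xX X) (mN G μ) (21 / 40 * mN G μ + 1 / 10000)
      (3 / 100) := by
    rw [hX]
    exact ⟨lsZ_l1 hm0 hm, lsZ_l2 hm0 hm, lsZ_l3 hm0 hm, lsZ_l4 hm0 hm, lsZ_l5 hm0 hm,
      lsZ_a1 hm0 hm, lsZ_a2 hm0 hm, lsZ_a3 hm0 hm, lsZ_a4 hm0 hm, lsZ_a5 hm0 hm⟩
  have h := D.A_pass h4 hA (by rw [hX]; norm_num) hρ h5 (by norm_num) (by positivity) N hA1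
  rw [← e1, hA]
  linarith

/-- all sets of classes of a total partition -/
theorem Dec.sizes_tot_all (D : Dec G w μ v X t)
    (hc : ∀ a x, v a * μ a x = (w x - X x) * pin c a x)
    (hρ : rho ≤ 28572 / 100000) (ht : rho - t ≤ 1 / 10 ^ 9) (hX : xX X = 0)
    (hm : mN G μ ≤ 99 / 10000) (h0 : ∑ b, |v b - 1 / 6| ≤ 3 / 100) (S : Finset (Fin 6)) :
    12 * ∑ a ∈ S, (v a - 1 / 6 + xX X / 6) ≤ 63 / 20 * mN G μ + 3 / 5000 := by
  have h := D.sizes_tot (c := c) hc hρ ht hX hm h0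
  have h1 := D.sizes_all S
  have e1 : ∑ b, |sgm v X b| = ∑ b, |v b - 1 / 6| := sum_congr rfl fun b _ => by
    unfold sgm; rw [hX]; congr 1; ring
  rw [e1] at h1
  linarith

/-- **Sizes of the classes of the clones.** The hypothesis `hmv` is the relation between the
functionals of the certificate and the expected number of missing blocks. -/
theorem Dec.sizes_cl (D : Dec G w μ v X t)
    (hc : ∀ a x, v a * μ a x = (w x - X x) * pin c a x)
    (hρ : rho ≤ 28572 / 100000) (ht : rho - t ≤ 1 / 10 ^ 9) (hx14 : 14 * xX X ≤ 6 / 125)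
    (hv0 : ∀ a, 3 / 25 ≤ v a) (h0 : ∑ b, |v b - 1 / 6| ≤ 1 / 10)
    (hmv : ∀ vm : ℝ, 0 < vm → (∀ a, vm ≤ v a) →
      30 * vm * mN G μ ≤ (6 / 125 - 14 * xX X) * (1 + xX X / vm)) :
    ∑ b, |sgm v X b| ≤ 21 / 40 * mN G μ + 591 / 200 * xX X + 1 / 10 ^ 4 ∧
    14 * xX X + 469 / 100 * mN G μ ≤ 6 / 125 ∧ (∀ a, 4 / 25 ≤ v a) ∧
    ∑ b, |v b - 1 / 6| ≤ 53 / 100 * mN G μ + 77 / 25 * xX X + 1 / 10 ^ 4 := by
  have hx := D.xX_nonneg
  have hm := mN_nonneg (G := G) D.hμ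
  obtain ⟨A, hA⟩ : ∃ A, ∑ b, |sgm v X b| = A := ⟨_, rfl⟩
  have A0 : 0 ≤ A := by rw [← hA]; exact sum_nonneg fun b _ => abs_nonneg _
  have hA1 : A ≤ 207 / 2000 := by
    have := D.sum_sgm_le
    rw [hA] at this
    linarith
  have hX1 : xX X ≤ 1 := by linarith
  have hq : 0 ≤ 6 / 125 - 14 * xX X := by linarith
  -- first pass
  have r0 : 14 * xX X + 7 / 2 * mN G μ ≤ 6 / 125 := by
    have h := hmv (3 / 25) (by norm_num) hv0
    have e : 1 + xX X / (3 / 25) ≤ 36 / 35 := by linarith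
    have h2 := mul_le_mul_of_nonneg_left e hq
    linarith
  have h4 := D.delta_ls (c := c) hc hρ ht (vm := 3 / 25) (e1 := 1 / 1000000) (e2 := 4961 / 10)
    (e3 := 50) (by norm_num) hv0 hA (by norm_num) (by norm_num) (by norm_num)
  have N0 : LsN (1 / 1000000) (4961 / 10) 50 (xX X) (mN G μ) (23 / 2000) (207 / 2000) :=
    ⟨lsP0_l1 hm hx r0, lsP0_l2 hm hx r0, lsP0_l3 hm hx r0, lsP0_l4 hm hx r0, lsP0_l5 hm hx r0,
      lsP0_a1 hm hx r0, lsP0_a2 hm hx r0, lsP0_a3 hm hx r0, lsP0_a4 hm hx r0, lsP0_a5 hm hx r0⟩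
  have hA2 := D.A_pass h4 hA hX1 hρ le_rfl (by norm_num) (by norm_num) N0 hA1
  -- second pass
  have hv : ∀ a, 4 / 25 ≤ v a := by
    intro a
    have h1 := D.abs_sgm_le a
    rw [hA] at h1
    have h2 := neg_abs_le (sgm v X a)
    have h3 : v a = sgm v X a + 1 / 6 - xX X / 6 := by unfold sgm; ring
    rw [h3]
    linarith
  have r1 : 14 * xX X + 469 / 100 * mN G μ ≤ 6 / 125 := by
    have h := hmv (4 / 25) (by norm_num) hv
    have e : 1 + xX X / (4 / 25) ≤ 480 / 469 := by linarith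
    have h2 := mul_le_mul_of_nonneg_left e hq
    linarith
  have h5 := D.delta_ls (c := c) hc hρ ht (vm := 4 / 25) (e1 := 1 / 4000000) (e2 := 2093 / 10)
    (e3 := 75 / 2) (by norm_num) hv hA (by norm_num) (by norm_num) (by norm_num)
  have N1 : LsN (1 / 4000000) (2093 / 10) (75 / 2) (xX X) (mN G μ)
      (21 / 40 * mN G μ + 591 / 200 * xX X + 1 / 10000) (23 / 2000) :=
    ⟨lsP1_l1 hm hx r1, lsP1_l2 hm hx r1, lsP1_l3 hm hx r1, lsP1_l4 hm hx r1, lsP1_l5 hm hx r1,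
      lsP1_a1 hm hx r1, lsP1_a2 hm hx r1, lsP1_a3 hm hx r1, lsP1_a4 hm hx r1, lsP1_a5 hm hx r1⟩
  have hA3 := D.A_pass h5 hA hX1 hρ le_rfl (by norm_num) (by positivity) N1 hA2
  refine ⟨by rw [hA]; linarith, r1, hv, ?_⟩
  -- sizes, not centred
  obtain ⟨S, hS⟩ : ∃ S : Finset (Fin 6), S = univ.filter (fun b => 0 ≤ v b - 1 / 6) := ⟨_, rfl⟩
  have e1 : ∑ b, |v b - 1 / 6| = 2 * ∑ b ∈ S, sgm v X b + xX X * (1 - (S.card : ℝ) / 3) := by
    have f1 : ∑ a ∈ S, (v a - 1 / 6) = ∑ a, (if 0 ≤ v a - 1 / 6 then v a - 1 / 6 else 0) := by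
      rw [hS, sum_filter]
    have f2 : ∑ b, |v b - 1 / 6| = 2 * ∑ a ∈ S, (v a - 1 / 6) - ∑ b, (v b - 1 / 6) := by
      rw [f1, mul_sum, ← sum_sub_distrib]
      refine sum_congr rfl fun a _ => ?_
      split_ifs with h
      · rw [abs_of_nonneg h]; ring
      · push Not at h
        rw [abs_of_neg h]; ring
    have f3 : ∑ b ∈ S, sgm v X b = ∑ a ∈ S, (v a - 1 / 6) + (S.card : ℝ) * (xX X / 6) := by
      unfold sgm
      rw [sum_add_distrib, sum_const, nsmul_eq_mul]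
    rw [f2, D.sum_s, f3]
    ring
  have hδ0 : 0 ≤ lsD (1 / 4000000) (2093 / 10) (75 / 2) (xX X) (mN G μ) A := by
    have := h5 ∅; simpa using this
  have h2S := D.two_sum_le S
  rw [hA] at h2S
  have hc6 : S.card ≤ 6 := by
    have h := card_le_univ S
    rwa [Fintype.card_fin] at h
  have e10 : (1 : ℝ) / 10 ^ 4 = 1 / 10000 := by norm_num
  have h1x : 0 < 1 - xX X := by linarith
  rw [e1, e10]
  obtain ⟨n, hn⟩ : ∃ n, n = S.card := ⟨_, rfl⟩
  rw [← hn] at hc6 ⊢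
  interval_cases n
  · have : S = ∅ := card_eq_zero.1 hn.symm
    rw [this, sum_empty]
    push_cast
    linarith
  · have h := D.lin1 S h5 hA hX1 hn.symm
    have h2 := lsR_le (M := 5 / 6) (b := 11) (y1 := 24 / 5) (y2 := 4 / 5) (y3 := 19 / 30)
      (by norm_num) (by norm_num) hx hm A0 hδ0 (by norm_num) (by norm_num) hρ D.t_le_rho le_rfl
    have h3 := lsQ_mono (M := 5 / 6) (b := 11) (y1 := 24 / 5) (y2 := 4 / 5) (y3 := 19 / 30)
      (e1 := 1 / 4000000) (e2 := 2093 / 10) (e3 := 75 / 2)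
      (by norm_num) (by norm_num) hx hm A0 (by norm_num) (by norm_num) (by norm_num)
      (by norm_num) hA3
    have h6 := lsD_1 hm hx r1
    have h7 : 72 / 7 * (1 - xX X) * (2 * ∑ b ∈ S, sgm v X b) ≤ 72 / 7 * (1 - xX X) *
        (53 / 100 * mN G μ + 181 / 75 * xX X + 1 / 10000) := by linarith
    have h8 := le_of_mul_le_mul_left h7 (by positivity)
    push_cast
    linarith
  · have h := D.lin2 S h5 hA hX1 hn.symm
    have h2 := lsR_le (M := 4 / 3) (b := 28 / 3) (y1 := 24 / 5) (y2 := 4 / 5) (y3 := 7 / 15)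
      (by norm_num) (by norm_num) hx hm A0 hδ0 (by norm_num) (by norm_num) hρ D.t_le_rho le_rfl
    have h3 := lsQ_mono (M := 4 / 3) (b := 28 / 3) (y1 := 24 / 5) (y2 := 4 / 5) (y3 := 7 / 15)
      (e1 := 1 / 4000000) (e2 := 2093 / 10) (e3 := 75 / 2)
      (by norm_num) (by norm_num) hx hm A0 (by norm_num) (by norm_num) (by norm_num)
      (by norm_num) hA3
    have h6 := lsD_2 hm hx r1
    have h7 : 72 / 7 * (1 - xX X) * (2 * ∑ b ∈ S, sgm v X b) ≤ 72 / 7 * (1 - xX X) *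
        (53 / 100 * mN G μ + 206 / 75 * xX X + 1 / 10000) := by linarith
    have h8 := le_of_mul_le_mul_left h7 (by positivity)
    push_cast
    linarith
  · push_cast; linarith
  · push_cast; linarith
  · push_cast; linarith
  · push_cast; linarith

/-- all sets of classes of the clones -/
theorem Dec.sizes_cl_all (D : Dec G w μ v X t) {a1 : ℝ}
    (h : ∑ b, |sgm v X b| ≤ a1) (S : Finset (Fin 6)) :
    12 * ∑ a ∈ S, (v a - 1 / 6 + xX X / 6) ≤ 6 * a1 := by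
  have := D.sizes_all S
  linarith

/-- the joint bound and the largest expected number of missing blocks -/
theorem Dec.region_cl (D : Dec G w μ v X t)
    (hmv : ∀ vm : ℝ, 0 < vm → (∀ a, vm ≤ v a) →
      30 * vm * mN G μ ≤ (6 / 125 - 14 * xX X) * (1 + xX X / vm))
    (hx14 : 14 * xX X ≤ 6 / 125)
    (hA : ∑ b, |sgm v X b| ≤ 21 / 40 * mN G μ + 591 / 200 * xX X + 1 / 10 ^ 4)
    (hr : 14 * xX X + 469 / 100 * mN G μ ≤ 6 / 125) :
    14 * xX X + 97 / 20 * mN G μ ≤ 193 / 4000 ∧ mN G μ ≤ 49 / 5000 := by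
  have hx := D.xX_nonneg
  have hm := mN_nonneg (G := G) D.hμ
  obtain ⟨x, hxx⟩ : ∃ x, x = xX X := ⟨_, rfl⟩
  obtain ⟨m, hmm⟩ : ∃ m, m = mN G μ := ⟨_, rfl⟩
  rw [← hxx] at hx hx14 hA hr hmv ⊢
  rw [← hmm] at hm hA hr hmv ⊢
  obtain ⟨l, hl⟩ : ∃ l : ℝ, l = 21 / 40 * m + 591 / 200 * x + 1 / 10 ^ 4 := ⟨_, rfl⟩
  rw [← hl] at hA
  have hv : ∀ a, 1 / 6 - x / 6 - l / 2 ≤ v a := by
    intro a
    have h1 := D.abs_sgm_le a
    have h2 := neg_abs_le (sgm v X a)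
    have h3 : v a = sgm v X a + 1 / 6 - x / 6 := by unfold sgm; rw [← hxx]; ring
    rw [h3]
    linarith
  have hvm : 4 / 25 ≤ 1 / 6 - x / 6 - l / 2 := by
    rw [hl]; linarith
  have hvm0 : 0 < 1 / 6 - x / 6 - l / 2 := by linarith
  have h := hmv _ hvm0 hv
  have hq : 0 ≤ 6 / 125 - 14 * x := by linarith
  have e : x / (1 / 6 - x / 6 - l / 2) ≤ x / (4 / 25) :=
    div_le_div_of_nonneg_left hx (by norm_num) hvm
  have h2 : (6 / 125 - 14 * x) * (1 + x / (1 / 6 - x / 6 - l / 2)) ≤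
      (6 / 125 - 14 * x) * (1 + x / (4 / 25)) := mul_le_mul_of_nonneg_left (by linarith) hq
  have h3 : (5 - 5 * x - 15 * l) * m ≤ (6 / 125 - 14 * x) * (1 + 25 / 4 * x) := by
    have : x / (4 / 25) = 25 / 4 * x := by ring
    rw [this] at h2
    linarith
  rw [hl] at h3
  obtain ⟨q, hqq⟩ : ∃ q, q = 6 / 125 - 14 * x := ⟨_, rfl⟩
  rw [← hqq] at hq h3
  have hmq : 469 / 100 * m ≤ q := by rw [hqq]; linarith
  have hq2 : q ≤ 6 / 125 := by rw [hqq]; linarith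
  have hxq : x = (6 / 125 - q) / 14 := by rw [hqq]; ring
  have p1 : 469 / 100 * (m * m) ≤ m * q := by nlinarith
  have p2 : 469 / 100 * (m * q) ≤ q * q := by nlinarith
  have p3 : 469 / 100 * (m * x) ≤ q * x := by nlinarith
  have h4 : 9997 / 2000 * m ≤ q * (1 + 84 / 5 * x + 9 / 25 * q) := by nlinarith
  rw [hxq] at h4
  constructor
  · rw [hxq]; nlinarith [sq_nonneg (q - 2 / 125)]
  · nlinarith [sq_nonneg (q - 6 / 125), mul_nonneg hq (by linarith : 0 ≤ 6 / 125 - q)]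

end B

end K4m
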