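import Mathlib
import Pool.Agent.Lib.MP_392c14_co.Acc.Dec
import Pool.Agent.Lib.MP_392c14_co.Sizes0

/-!
# A priori sizes of the clone classes, part 1: the averaged degree of a class

Wrong edges between clones are bounded by the failing pairs alone.
-/

set_option autoImplicit false

namespace K4m

open Finset Function

section SizeR1

variable {V : Type} [Fintype V] [DecidableEq V] (G : TG V) (w : V → ℝ)

/-- bad edges with two points in one class, by failing pairs only -/
theorem Bo_fail (hw : ∀ x, 0 ≤ w x) (u : Fin 6 → V) (i j : Fin 6) (hij : i ≠ j) :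
    Bm G w i i j u ≤ 2 * (vs G w u i * Fm G w i j u) := by
  have h : Bm G w i i j u ≤ ∑ x, ∑ y, ∑ z, w x * w y * w z *
      (st G (update u i x) * st G (update u i y) * st G (update u j z) *
      (1 - st G (update (update u i x) j z))) + ∑ x, ∑ y, ∑ z, w x * w y * w z *
      (st G (update u i x) * st G (update u i y) * st G (update u j z) *
      (1 - st G (update (update u i y) j z))) := by
    unfold Bm
    rw [← sum_add_distrib]
    refine sum_le_sum fun x _ => ?_
    rw [← sum_add_distrib]
    refine sum_le_sum fun y _ => ?_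
    rw [← sum_add_distrib]
    refine sum_le_sum fun z _ => ?_
    rw [← mul_add, ← mul_add]
    refine mul_le_mul_of_nonneg_left ?_ (mul_nonneg (mul_nonneg (hw x) (hw y)) (hw z))
    refine mul_le_mul_of_nonneg_left ?_ (mul_nonneg (mul_nonneg (st_nonneg G _)
      (st_nonneg G _)) (st_nonneg G _))
    have a1 := st_le_one G (update (update u i x) j z)
    have a2 := st_le_one G (update (update u i y) j z)
    rcases ind_cases (G.E x y z) with ⟨hE, e⟩ | ⟨_, e⟩
    · rw [e]
      rcases st_cases G (update (update u i x) j z) with ⟨p1, q1⟩ | ⟨_, q1⟩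
      · rcases st_cases G (update (update u i y) j z) with ⟨p2, q2⟩ | ⟨_, q2⟩
        · exact (bad_own G hij hE p1 p2).elim
        · rw [q1, q2]; norm_num
      · rw [q1]; linarith
    · rw [e]; linarith
  rw [← fail_sum13 G w i i j u, ← fail_sum23 G w i i j u] at h
  linarith

/-- bad edges in three different classes, by the failing pairs at the first one -/
theorem Bc_fail (hw : ∀ x, 0 ≤ w x) (u : Fin 6 → V) (i j k : Fin 6) (hij : i ≠ j)
    (hik : i ≠ k) (hjk : j ≠ k) (hb : D6.E i j k = false) :
    Bm G w i j k u ≤ vs G w u k * Fm G w i j u + vs G w u j * Fm G w i k u := by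
  rw [fail_sum, fail_sum13 G w i j k, ← sum_add_distrib]
  unfold Bm
  refine sum_le_sum fun x _ => ?_
  rw [← sum_add_distrib]
  refine sum_le_sum fun y _ => ?_
  rw [← sum_add_distrib]
  refine sum_le_sum fun z _ => ?_
  rw [← mul_add, ← mul_add]
  refine mul_le_mul_of_nonneg_left ?_ (mul_nonneg (mul_nonneg (hw x) (hw y)) (hw z))
  refine mul_le_mul_of_nonneg_left ?_ (mul_nonneg (mul_nonneg (st_nonneg G _)
    (st_nonneg G _)) (st_nonneg G _))
  have a1 := st_le_one G (update (update u i x) j y)
  have a2 := st_le_one G (update (update u i x) k z)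
  rcases ind_cases (G.E x y z) with ⟨hE, e⟩ | ⟨_, e⟩
  · rw [e]
    rcases st_cases G (update (update u i x) j y) with ⟨p1, q1⟩ | ⟨_, q1⟩
    · rcases st_cases G (update (update u i x) k z) with ⟨p3, q3⟩ | ⟨_, q3⟩
      · exfalso
        have hb' : D6.E j k i = false := by rw [E_cyc]; exact hb
        have hE' : G.E y z x = true := by rw [E_cyc]; exact hE
        rw [update_comm hij] at p1
        rw [update_comm hik] at p3
        exact bad_two G hjk (Ne.symm hij) (Ne.symm hik) hb' hE' p1 p3
      · rw [q1, q3]; norm_num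
    · rw [q1]; linarith
  · rw [e]; linarith

/-- the weights of the clones of a point -/
noncomputable def wc (u : Fin 6 → V) (k : Fin 6) (x : V) : ℝ := w x * st G (update u k x)

theorem wc_nonneg (hw : ∀ x, 0 ≤ w x) (u : Fin 6 → V) (k : Fin 6) (x : V) :
    0 ≤ wc G w u k x := mul_nonneg (hw x) (st_nonneg G _)

omit [DecidableEq V] in
theorem sum_wc (u : Fin 6 → V) (k : Fin 6) : ∑ x, wc G w u k x = vs G w u k := rfl

omit [DecidableEq V] in
theorem Bm_tri (u : Fin 6 → V) (i j k : Fin 6) :
    Bm G w i j k u = tri G (wc G w u i) (wc G w u j) (wc G w u k) := by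
  unfold Bm tri wc
  refine sum_congr rfl fun x _ => sum_congr rfl fun y _ => sum_congr rfl fun z _ => ?_
  ring

theorem Bm_le_prod (hw : ∀ x, 0 ≤ w x) (u : Fin 6 → V) (i j k : Fin 6) :
    Bm G w i j k u ≤ vs G w u i * vs G w u j * vs G w u k := by
  rw [Bm_tri]
  exact tri_le_mass G _ _ _ (wc_nonneg G w hw u i) (wc_nonneg G w hw u j) (wc_nonneg G w hw u k)

end SizeR1

section Split

/-- the triples of classes at a class -/
theorem kind_split (T : Fin 6 → Fin 6 → Fin 6 → ℝ) (s12 : ∀ i j k, T j i k = T i j k)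
    (s23 : ∀ i j k, T i k j = T i j k) (a : Fin 6) :
    ∑ j, ∑ k, T a j k = ∑ j, ∑ k, blk a j k * T a j k + ∑ j, ∑ k, nbl a j k * T a j k +
      2 * ∑ j, nee a j * T a a j + ∑ j, nee a j * T j j a + T a a a := by
  have h1 : ∑ j, ∑ k, T a j k = ∑ j, ∑ k, (blk a j k * T a j k +
      nbl a j k * T a j k + p1 a j k * T a j k + p1 a k j * T a j k +
      p1 j k a * T a j k + e3 a j k * T a j k) := by
    refine sum_congr rfl fun j _ => sum_congr rfl fun k _ => ?_
    have h := kinds a j k
    calc T a j k = 1 * T a j k := (one_mul _).symm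
      _ = (blk a j k + nbl a j k + p1 a j k + p1 a k j + p1 j k a + e3 a j k) *
          T a j k := by rw [← h]
      _ = _ := by ring
  have h2 : ∑ j, ∑ k, p1 a j k * T a j k = ∑ j, nee a j * T a a j := by
    rw [sum_eq_single a]
    · refine sum_congr rfl fun k _ => ?_
      unfold p1 nee
      by_cases h : a = k <;> simp [h]
    · intro b _ hb
      refine sum_eq_zero fun k _ => ?_
      unfold p1
      rw [if_neg (fun h => hb h.1.symm), zero_mul]
    · intro h; exact absurd (mem_univ _) h
  have h3 : ∑ j, ∑ k, p1 a k j * T a j k = ∑ j, nee a j * T a a j := by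
    rw [sum_comm, ← h2]
    refine sum_congr rfl fun j _ => sum_congr rfl fun k _ => ?_
    rw [s23]
  have h4 : ∑ j, ∑ k, p1 j k a * T a j k = ∑ j, nee a j * T j j a := by
    refine sum_congr rfl fun j _ => ?_
    rw [sum_eq_single j]
    · unfold p1 nee
      have hr : T a j j = T j j a := by rw [s12, s23]
      rw [hr]
      by_cases h : a = j
      · subst h; simp
      · have : j ≠ a := fun h' => h h'.symm
        simp [h, this]
    · intro k _ hk
      unfold p1
      rw [if_neg (fun h => hk h.1.symm), zero_mul]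
    · intro h; exact absurd (mem_univ _) h
  have h5 : ∑ j, ∑ k, e3 a j k * T a j k = T a a a := by
    rw [sum_eq_single a]
    · rw [sum_eq_single a]
      · unfold e3; simp
      · intro k _ hk
        unfold e3
        rw [if_neg (fun h => hk h.2.symm), zero_mul]
      · intro h; exact absurd (mem_univ _) h
    · intro b _ hb
      refine sum_eq_zero fun k _ => ?_
      unfold e3
      rw [if_neg (fun h => hb h.1.symm), zero_mul]
    · intro h; exact absurd (mem_univ _) h
  rw [h1]
  simp only [sum_add_distrib]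
  rw [h2, h3, h4, h5]
  ring

theorem nbl_mass : ∀ a j : Fin 6, a ≠ j → ∀ v : Fin 6 → ℝ, (∀ k, 0 ≤ v k) →
    v a + v j + ∑ k, nbl a j k * v k ≤ ∑ k, v k := by
  intro a j h v hv
  have e : ∑ k, v k = ∑ k, ((1 - nbl a j k) * v k) + ∑ k, nbl a j k * v k := by
    rw [← sum_add_distrib]
    exact sum_congr rfl fun k _ => by ring
  rw [e]
  have h1 : v a + v j ≤ ∑ k, ((1 - nbl a j k) * v k) := by
    have h2 : ∑ k ∈ ({a, j} : Finset (Fin 6)), (1 - nbl a j k) * v k ≤
        ∑ k, ((1 - nbl a j k) * v k) := by
      refine sum_le_sum_of_subset_of_nonneg (subset_univ _) fun k _ _ =>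
        mul_nonneg ?_ (hv k)
      unfold nbl
      split_ifs <;> norm_num
    rw [sum_pair h] at h2
    have n1 : nbl a j a = 0 := by unfold nbl; rw [if_neg]; exact fun h' => h'.2.1 rfl
    have n2 : nbl a j j = 0 := by unfold nbl; rw [if_neg]; exact fun h' => h'.2.2.1 rfl
    rw [n1, n2] at h2
    linarith
  linarith

end Split

section Cls

variable {V : Type} [Fintype V] [DecidableEq V] (G : TG V) (w : V → ℝ)

/-- failing pairs at a class, averaged -/
noncomputable def PiK (u : Fin 6 → V) (a : Fin 6) : ℝ := ∑ j, nee a j * PK G w a (xi G w a j) u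

theorem PiK_nonneg (hw : ∀ x, 0 ≤ w x) (u : Fin 6 → V) (a : Fin 6) : 0 ≤ PiK G w u a :=
  sum_nonneg fun j _ => mul_nonneg (nee_nonneg a j)
    (PK_nonneg G w hw a _ (xi_nonneg G w hw a j) u)

omit [DecidableEq V] in
theorem sum_PiK (u : Fin 6 → V) : ∑ a, PiK G w u a = Pf G w u := rfl

/-- the edges of clones at a class -/
theorem class_split (hw : ∀ x, 0 < w x) {u : Fin 6 → V} (hu : St G u)
    (hs : ∑ k, vs G w u k ≤ 1) (a : Fin 6) :
    ∑ j, ∑ k, Bm G w a j k u ≤ rho * vs G w u a ^ 3 + vs G w u a * idp (vs G w u) a +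
      vs G w u a * ((2 + 2 * vs G w u a) * PiK G w u a) := by
  have hw0 : ∀ x, 0 ≤ w x := fun x => (hw x).le
  have v0 : ∀ k, 0 ≤ vs G w u k := vs_nonneg G w hw0 u
  rw [kind_split (fun i j k => Bm G w i j k u) (fun i j k => Bm_swap12 G w i j k u)
    (fun i j k => Bm_swap23 G w i j k u) a]
  have F0 : ∀ i j, 0 ≤ Fm G w i j u := fun i j => Fm_nonneg G w hw0 i j u
  -- own
  have h1 : Bm G w a a a u ≤ rho * vs G w u a ^ 3 := by
    rw [Bm_tri]
    exact val_le_rho_hom G _ (wc_nonneg G w hw0 u a)
  -- blocks
  have h2 : ∑ j, ∑ k, blk a j k * Bm G w a j k u ≤ vs G w u a * idp (vs G w u) a := by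
    unfold idp
    rw [mul_sum]
    refine sum_le_sum fun j _ => ?_
    rw [mul_sum]
    refine sum_le_sum fun k _ => ?_
    calc blk a j k * Bm G w a j k u ≤ blk a j k * (vs G w u a * vs G w u j * vs G w u k) :=
          mul_le_mul_of_nonneg_left (Bm_le_prod G w hw0 u a j k) (blk_nonneg _ _ _)
      _ = _ := by ring
  -- two points in the class
  have h3 : ∑ j, nee a j * Bm G w a a j u ≤ ∑ j, nee a j * (Fm G w a j u *
      (2 * vs G w u a)) := by
    refine sum_le_sum fun j _ => ?_
    rcases eq_or_ne a j with h | h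
    · have : nee a j = 0 := by unfold nee; rw [if_pos h]
      rw [this]; simp
    · refine mul_le_mul_of_nonneg_left ?_ (nee_nonneg a j)
      have := Bo_fail G w hw0 u a j h
      linarith
  -- two points in the other class
  have h4 : ∑ j, nee a j * Bm G w j j a u ≤ ∑ j, nee a j * (Fm G w a j u *
      (2 * vs G w u j)) := by
    refine sum_le_sum fun j _ => ?_
    rcases eq_or_ne a j with h | h
    · have : nee a j = 0 := by unfold nee; rw [if_pos h]
      rw [this]; simp
    · refine mul_le_mul_of_nonneg_left ?_ (nee_nonneg a j)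
      have := Bo_fail G w hw0 u j a h.symm
      rw [Fm_symm G w u a j h] at this
      linarith
  -- nonblocks
  have h5 : ∑ j, ∑ k, nbl a j k * Bm G w a j k u ≤ ∑ j, nee a j * (Fm G w a j u *
      (2 * ∑ k, nbl a j k * vs G w u k)) := by
    have c1 : ∑ j, ∑ k, nbl a j k * Bm G w a j k u ≤
        ∑ j, ∑ k, nbl a j k * (vs G w u k * Fm G w a j u) +
        ∑ j, ∑ k, nbl a j k * (vs G w u j * Fm G w a k u) := by
      rw [← sum_add_distrib]
      refine sum_le_sum fun j _ => ?_
      rw [← sum_add_distrib]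
      refine sum_le_sum fun k _ => ?_
      rw [← mul_add]
      by_cases hb : a ≠ j ∧ a ≠ k ∧ j ≠ k ∧ D6.E a j k = false
      · refine mul_le_mul_of_nonneg_left ?_ (nbl_nonneg _ _ _)
        exact Bc_fail G w hw0 u a j k hb.1 hb.2.1 hb.2.2.1 hb.2.2.2
      · have hn : nbl a j k = 0 := by unfold nbl; rw [if_neg hb]
        rw [hn]; simp
    have c2 : ∑ j, ∑ k, nbl a j k * (vs G w u j * Fm G w a k u) =
        ∑ j, ∑ k, nbl a j k * (vs G w u k * Fm G w a j u) := by
      rw [sum_comm]
      refine sum_congr rfl fun j _ => sum_congr rfl fun k _ => ?_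
      rw [nbl_swap23]
    have c3 : ∑ j, ∑ k, nbl a j k * (vs G w u k * Fm G w a j u) =
        ∑ j, nee a j * (Fm G w a j u * ∑ k, nbl a j k * vs G w u k) := by
      refine sum_congr rfl fun j _ => ?_
      rcases eq_or_ne a j with h | h
      · have : nee a j = 0 := by unfold nee; rw [if_pos h]
        rw [this, zero_mul]
        subst h
        refine sum_eq_zero fun k _ => ?_
        rw [nbl_eq_zero, zero_mul]
      · have : nee a j = 1 := by unfold nee; rw [if_neg h]
        rw [this, one_mul, mul_sum]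
        exact sum_congr rfl fun k _ => by ring
    have c4 : ∑ j, nee a j * (Fm G w a j u * (2 * ∑ k, nbl a j k * vs G w u k)) =
        2 * ∑ j, nee a j * (Fm G w a j u * ∑ k, nbl a j k * vs G w u k) := by
      rw [mul_sum]
      exact sum_congr rfl fun j _ => by ring
    rw [c4]
    rw [c2, c3] at c1
    linarith
  -- together
  have h6 : ∑ j, nee a j * (Fm G w a j u * (2 * ∑ k, nbl a j k * vs G w u k)) +
      2 * ∑ j, nee a j * (Fm G w a j u * (2 * vs G w u a)) +
      ∑ j, nee a j * (Fm G w a j u * (2 * vs G w u j)) ≤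
      vs G w u a * ((2 + 2 * vs G w u a) * PiK G w u a) := by
    have c1 : ∑ j, nee a j * (Fm G w a j u * (2 * ∑ k, nbl a j k * vs G w u k)) +
        2 * ∑ j, nee a j * (Fm G w a j u * (2 * vs G w u a)) +
        ∑ j, nee a j * (Fm G w a j u * (2 * vs G w u j)) =
        ∑ j, nee a j * (Fm G w a j u * (2 * (∑ k, nbl a j k * vs G w u k) +
          4 * vs G w u a + 2 * vs G w u j)) := by
      rw [mul_sum, ← sum_add_distrib, ← sum_add_distrib]
      exact sum_congr rfl fun j _ => by ring
    rw [c1]
    unfold PiK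
    rw [mul_sum, mul_sum]
    refine sum_le_sum fun j _ => ?_
    rcases eq_or_ne a j with h | h
    · have : nee a j = 0 := by unfold nee; rw [if_pos h]
      rw [this]; simp
    · have hn : nee a j = 1 := by unfold nee; rw [if_neg h]
      rw [hn, one_mul, one_mul]
      have m1 := nbl_mass a j h (vs G w u) v0
      have m2 : 2 * (∑ k, nbl a j k * vs G w u k) + 4 * vs G w u a + 2 * vs G w u j ≤
          2 + 2 * vs G w u a := by linarith
      have m3 := Fm_le G w hw u hu a j
      calc Fm G w a j u * (2 * (∑ k, nbl a j k * vs G w u k) + 4 * vs G w u a +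
            2 * vs G w u j) ≤ Fm G w a j u * (2 + 2 * vs G w u a) :=
            mul_le_mul_of_nonneg_left m2 (F0 a j)
        _ ≤ (vs G w u a * PK G w a (xi G w a j) u) * (2 + 2 * vs G w u a) :=
            mul_le_mul_of_nonneg_right m3 (by have := v0 a; linarith)
        _ = _ := by ring
  linarith

end Cls

end K4m
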