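import Mathlib
import Pool.Agent.Lib.MP_392c14_co.Acc.SizeR1
import Pool.Agent.Lib.MP_392c14_co.Acc.Clone

/-!
# A priori sizes of the clone classes, part 2: the degree equation with garbage
-/

set_option autoImplicit false

namespace K4m

open Finset Function

section Tri

variable {V : Type} [Fintype V] (G : TG V)

theorem triR_add1 (u u' v p : V → ℝ) :
    tri G (fun x => u x + u' x) v p = tri G u v p + tri G u' v p := by
  unfold tri
  simp only [← sum_add_distrib]
  refine sum_congr rfl fun x _ => sum_congr rfl fun y _ => sum_congr rfl fun z _ => ?_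
  ring

theorem triR_add2 (u v v' p : V → ℝ) :
    tri G u (fun x => v x + v' x) p = tri G u v p + tri G u v' p := by
  rw [tri_swap12, triR_add1, tri_swap12 G v u p, tri_swap12 G v' u p]

theorem triR_add3 (u v p p' : V → ℝ) :
    tri G u v (fun x => p x + p' x) = tri G u v p + tri G u v p' := by
  rw [tri_swap23, triR_add2, tri_swap23 G u p v, tri_swap23 G u p' v]

theorem triR_sum1 {ι : Type} (s : Finset ι) (f : ι → V → ℝ) (v p : V → ℝ) :
    tri G (fun x => ∑ i ∈ s, f i x) v p = ∑ i ∈ s, tri G (f i) v p := by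
  unfold tri
  have h : ∀ x y z, (∑ i ∈ s, f i x) * v y * p z * ind (G.E x y z) =
      ∑ i ∈ s, f i x * v y * p z * ind (G.E x y z) := by
    intro x y z
    rw [sum_mul, sum_mul, sum_mul]
  simp only [h]
  have h2 : ∀ x y, ∑ z, ∑ i ∈ s, f i x * v y * p z * ind (G.E x y z) =
      ∑ i ∈ s, ∑ z, f i x * v y * p z * ind (G.E x y z) := fun x y => sum_comm
  simp only [h2]
  have h3 : ∀ x, ∑ y, ∑ i ∈ s, ∑ z, f i x * v y * p z * ind (G.E x y z) =
      ∑ i ∈ s, ∑ y, ∑ z, f i x * v y * p z * ind (G.E x y z) := fun x => sum_comm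
  simp only [h3]
  exact sum_comm

theorem triR_sum2 {ι : Type} (s : Finset ι) (f : ι → V → ℝ) (u p : V → ℝ) :
    tri G u (fun x => ∑ i ∈ s, f i x) p = ∑ i ∈ s, tri G u (f i) p := by
  rw [tri_swap12, triR_sum1]
  exact sum_congr rfl fun i _ => tri_swap12 G _ _ _

theorem triR_sum3 {ι : Type} (s : Finset ι) (f : ι → V → ℝ) (u v : V → ℝ) :
    tri G u v (fun x => ∑ i ∈ s, f i x) = ∑ i ∈ s, tri G u v (f i) := by
  rw [tri_swap23, triR_sum2]
  exact sum_congr rfl fun i _ => tri_swap23 G _ _ _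

theorem triR_nonneg {u v p : V → ℝ} (hu : ∀ x, 0 ≤ u x) (hv : ∀ x, 0 ≤ v x)
    (hp : ∀ x, 0 ≤ p x) : 0 ≤ tri G u v p :=
  sum_nonneg fun x _ => sum_nonneg fun y _ => sum_nonneg fun z _ =>
    mul_nonneg (mul_nonneg (mul_nonneg (hu x) (hv y)) (hp z)) (ind_nonneg _)

/-- monotone in the first argument -/
theorem triR_mono1 {u u' v p : V → ℝ} (h : ∀ x, u x ≤ u' x) (hv : ∀ x, 0 ≤ v x)
    (hp : ∀ x, 0 ≤ p x) : tri G u v p ≤ tri G u' v p := by
  unfold tri
  refine sum_le_sum fun x _ => sum_le_sum fun y _ => sum_le_sum fun z _ => ?_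
  refine mul_le_mul_of_nonneg_right ?_ (ind_nonneg _)
  refine mul_le_mul_of_nonneg_right ?_ (hp z)
  exact mul_le_mul_of_nonneg_right (h x) (hv y)

/-- the codegrees are at most `2 t` -/
theorem triR_cod {w : V → ℝ} (hw : IsW w) (t : ℝ) (hdeg : ∀ x, deg G w x = t)
    (hcnd : ∀ f : V → ℝ, ∑ x, f x = 0 → tri G f f w ≤ 0) {a b : V → ℝ} (ha : ∀ x, 0 ≤ a x)
    (hb : ∀ x, 0 ≤ b x) : tri G a b w ≤ 2 * t * ((∑ x, a x) * ∑ x, b x) := by
  have e : 2 * t * ((∑ x, a x) * ∑ x, b x) = ∑ x, ∑ y, a x * b y * (2 * t) := by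
    rw [sum_mul, mul_sum]
    refine sum_congr rfl fun x _ => ?_
    rw [mul_sum, mul_sum]
    exact sum_congr rfl fun y _ => by ring
  rw [e]
  unfold tri
  refine sum_le_sum fun x _ => sum_le_sum fun y _ => ?_
  have h1 : ∑ z, a x * b y * w z * ind (G.E x y z) = a x * b y * ∑ z, w z * ind (G.E x y z) := by
    rw [mul_sum]
    exact sum_congr rfl fun z _ => by ring
  rw [h1]
  exact mul_le_mul_of_nonneg_left (cdg_le G w hw.nonneg hcnd hw.sum_eq t hdeg x y)
    (mul_nonneg (ha x) (hb y))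

end Tri

section Deg

variable {V : Type} [Fintype V] [DecidableEq V] (G : TG V) (w : V → ℝ)

theorem XU_le (hw : ∀ x, 0 ≤ w x) (u : Fin 6 → V) (x : V) : XU G w u x ≤ w x := by
  unfold XU
  have h : 0 ≤ ∑ a, st G (update u a x) := sum_nonneg fun a _ => st_nonneg G _
  have := mul_nonneg (hw x) h
  linarith

omit [Fintype V] [DecidableEq V] in
theorem w_dec (u : Fin 6 → V) (x : V) : w x = (∑ k, wc G w u k x) + XU G w u x := by
  unfold wc XU
  rw [← mul_sum]; ring

/-- the garbage term of a class -/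
noncomputable def gamU (u : Fin 6 → V) (k : Fin 6) : ℝ :=
  2 * tri G (wc G w u k) w (XU G w u) - tri G (wc G w u k) (XU G w u) (XU G w u)

omit [DecidableEq V] in
/-- the degree equation of a class -/
theorem class_deg_U (t : ℝ) (hdeg : ∀ x, deg G w x = t) (u : Fin 6 → V) (k : Fin 6) :
    t * vs G w u k = ∑ a, ∑ b, Bm G w k a b u + gamU G w u k := by
  set a := wc G w u k with ha
  set X := XU G w u with hX
  set W : V → ℝ := fun x => ∑ k, wc G w u k x with hW
  have hw : w = fun x => W x + X x := funext fun x => w_dec G w u x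
  have h1 : tri G a w w = t * vs G w u k := by
    rw [tri_eq_sum_deg]
    simp only [hdeg]
    rw [← sum_mul, ha, sum_wc]; ring
  have h2 : tri G a w w = tri G a W W + 2 * tri G a W X + tri G a X X := by
    rw [hw, triR_add2, triR_add3, triR_add3, tri_swap23 G a X W]; ring
  have h3 : tri G a w X = tri G a W X + tri G a X X := by
    nth_rewrite 1 [hw]
    rw [triR_add2]
  have h4 : tri G a W W = ∑ i, ∑ j, Bm G w k i j u := by
    rw [hW, triR_sum2]
    refine sum_congr rfl fun i _ => ?_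
    rw [triR_sum3]
    exact sum_congr rfl fun j _ => (Bm_tri G w u k i j).symm
  unfold gamU
  rw [← h1, h2, h4, ← ha, ← hX, h3]
  ring

theorem gamU_le (hw : IsW w) (t : ℝ) (hdeg : ∀ x, deg G w x = t)
    (hcnd : ∀ f : V → ℝ, ∑ x, f x = 0 → tri G f f w ≤ 0) {u : Fin 6 → V} (hu : St G u)
    (k : Fin 6) : gamU G w u k ≤ 4 * t * Xu G w u * vs G w u k := by
  have hw0 := hw.nonneg
  have h1 := triR_cod G hw t hdeg hcnd (a := wc G w u k) (b := XU G w u)
    (wc_nonneg G w hw0 u k) (XU_nonneg G w hw0 hu)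
  rw [sum_wc, sum_XU] at h1
  have h2 : 0 ≤ tri G (wc G w u k) (XU G w u) (XU G w u) :=
    triR_nonneg G (wc_nonneg G w hw0 u k) (XU_nonneg G w hw0 hu) (XU_nonneg G w hw0 hu)
  unfold gamU
  rw [tri_swap23 G (wc G w u k) w (XU G w u)]
  linarith

theorem sum_gamU_le (hw : IsW w) (t : ℝ) (hdeg : ∀ x, deg G w x = t) {u : Fin 6 → V}
    (hu : St G u) : ∑ k, gamU G w u k ≤ 2 * t * Xu G w u := by
  have hw0 := hw.nonneg
  set X := XU G w u with hX
  set W : V → ℝ := fun x => ∑ k, wc G w u k x with hW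
  have hww : w = fun x => W x + X x := funext fun x => w_dec G w u x
  have hX0 : ∀ x, 0 ≤ X x := XU_nonneg G w hw0 hu
  have e1 : ∑ k, gamU G w u k = 2 * tri G W w X - tri G W X X := by
    unfold gamU
    rw [sum_sub_distrib, ← mul_sum, hW, triR_sum1, triR_sum1]
  have e2 : tri G w w X = tri G W w X + tri G X w X := by
    conv_lhs => rw [show tri G w w X = tri G (fun x => W x + X x) w X by rw [← hww]]
    rw [triR_add1]
  have e3 : tri G w X X = tri G W X X + tri G X X X := by
    conv_lhs => rw [show tri G w X X = tri G (fun x => W x + X x) X X by rw [← hww]]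
    rw [triR_add1]
  have e4 : tri G w w X = t * Xu G w u := by
    rw [tri_swap23, tri_swap12, tri_eq_sum_deg]
    simp only [hdeg]
    rw [← sum_mul, hX, sum_XU]; ring
  have e5 : tri G X w X = tri G w X X := (tri_swap12 G w X X).symm
  have h1 : tri G X X X ≤ tri G w X X := triR_mono1 G (XU_le G w hw0 u) hX0 hX0
  have h2 : 0 ≤ tri G X X X := triR_nonneg G hX0 hX0 hX0
  rw [e1]
  linarith

/-- **The averaged degree of a clone class.** -/
theorem class_ineq (hw : IsW w) (hpos : ∀ x, 0 < w x) (t : ℝ) (hdeg : ∀ x, deg G w x = t)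
    {u : Fin 6 → V} (hu : St G u) (k : Fin 6) :
    t * vs G w u k ≤ rho * vs G w u k ^ 3 + vs G w u k * idp (vs G w u) k +
      vs G w u k * ((2 + 2 * vs G w u k) * PiK G w u k) + gamU G w u k := by
  have hs : ∑ k, vs G w u k ≤ 1 := by
    have h1 := Xu_eq G w u
    have h2 := Xu_nonneg G w hw.nonneg hu
    rw [hw.sum_eq] at h1
    linarith
  rw [class_deg_U G w t hdeg u k]
  have := class_split G w hpos hu hs k
  linarith

end Deg

end K4m
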