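import Mathlib
import Pool.Agent.Lib.MP_392c14_co.Sizes0

/-!
# A priori sizes of the clone classes, part 3: the numerical argument
-/

set_option autoImplicit false

namespace K4m

open Finset

section NumR

theorem pent_quad3 (a b c d e f : ℝ) (h : a + b + c + d + e + f = 0) :
    2 * (b * c + c * d + d * e + e * f + f * b) + 1 / 3 * a ^ 2 ≤
      5 / 8 * (a ^ 2 + b ^ 2 + c ^ 2 + d ^ 2 + e ^ 2 + f ^ 2) := by
  have ha : a = -(b + c + d + e + f) := by linarith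
  have e1 : 5 / 8 * (a ^ 2 + b ^ 2 + c ^ 2 + d ^ 2 + e ^ 2 + f ^ 2) -
      (2 * (b * c + c * d + d * e + e * f + f * b) + 1 / 3 * a ^ 2) =
      (11/12)*(b + (-17/22)*c + (7/22)*d + (7/22)*e + (-17/22)*f)^2 +
      (65/176)*(c + (-17/13)*d + (7/5)*e + (-9/13)*f)^2 +
      (5/26)*(d + (-13/20)*e + (19/20)*f)^2 + (3/160)*(e + (-1/3)*f)^2 + (1/60)*f^2 := by
    rw [ha]; ring
  have e2 : 0 ≤ (11/12)*(b + (-17/22)*c + (7/22)*d + (7/22)*e + (-17/22)*f)^2 +
      (65/176)*(c + (-17/13)*d + (7/5)*e + (-9/13)*f)^2 +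
      (5/26)*(d + (-13/20)*e + (19/20)*f)^2 + (3/160)*(e + (-1/3)*f)^2 + (1/60)*f^2 := by
    positivity
  linarith

theorem idp_quad3 (y : Fin 6 → ℝ) (hy : ∑ i, y i = 0) (k : Fin 6) :
    idp y k + 1 / 3 * y k ^ 2 ≤ 5 / 8 * ∑ i, y i ^ 2 := by
  obtain ⟨h0, h1, h2, h3, h4, h5⟩ := idp_list y
  simp only [Fin.sum_univ_six] at hy ⊢
  fin_cases k
  · have h := pent_quad3 (y 0) (y 2) (y 1) (y 3) (y 5) (y 4) (by linarith)
    simp only [Fin.zero_eta]
    rw [h0]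
    linarith
  · have h := pent_quad3 (y 1) (y 2) (y 0) (y 3) (y 4) (y 5) (by linarith)
    simp only [Fin.mk_one]
    rw [h1]
    linarith
  · have h := pent_quad3 (y 2) (y 1) (y 0) (y 4) (y 3) (y 5) (by linarith)
    simp only [Fin.reduceFinMk]
    rw [h2]
    linarith
  · have h := pent_quad3 (y 3) (y 1) (y 0) (y 5) (y 2) (y 4) (by linarith)
    simp only [Fin.reduceFinMk]
    rw [h3]
    linarith
  · have h := pent_quad3 (y 4) (y 2) (y 0) (y 5) (y 1) (y 3) (by linarith)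
    simp only [Fin.reduceFinMk]
    rw [h4]
    linarith
  · have h := pent_quad3 (y 5) (y 3) (y 0) (y 4) (y 1) (y 2) (by linarith)
    simp only [Fin.reduceFinMk]
    rw [h5]
    linarith

theorem sum_idp_sq (x : Fin 6 → ℝ) : ∑ k, idp x k = 2 * ((∑ i, x i) ^ 2 - ∑ i, x i ^ 2) := by
  obtain ⟨h0, h1, h2, h3, h4, h5⟩ := idp_list x
  simp only [Fin.sum_univ_six]
  rw [h0, h1, h2, h3, h4, h5]
  ring

theorem idp_homog (c : ℝ) (x v : Fin 6 → ℝ) (h : ∀ i, v i = c * x i) (k : Fin 6) :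
    idp v k = c ^ 2 * idp x k := by
  unfold idp
  rw [mul_sum]
  refine sum_congr rfl fun i _ => ?_
  rw [mul_sum]
  refine sum_congr rfl fun j _ => ?_
  rw [h i, h j]; ring

theorem idp_nonneg' (x : Fin 6 → ℝ) (hx : ∀ i, 0 ≤ x i) (k : Fin 6) : 0 ≤ idp x k :=
  sum_nonneg fun i _ => sum_nonneg fun j _ =>
    mul_nonneg (blk_nonneg _ _ _) (mul_nonneg (hx i) (hx j))

/-- a single deviation -/
theorem abs_one_sq56 (y : Fin 6 → ℝ) (hy : ∑ i, y i = 0) (s l : ℝ) (hl : 0 ≤ l)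
    (h : ∑ i, y i ^ 2 ≤ s) (hs : 5 / 6 * s ≤ l ^ 2) (k : Fin 6) : y k ≤ l := by
  have h1 : (∑ i ∈ univ.erase k, y i) ^ 2 ≤ 5 * ∑ i ∈ univ.erase k, y i ^ 2 := by
    have h2 := sq_sum_le_card_mul_sum_sq (s := (univ : Finset (Fin 6)).erase k) (f := y)
    rw [card_erase_of_mem (mem_univ k), card_univ, Fintype.card_fin] at h2
    exact_mod_cast h2
  have h2 : y k + ∑ i ∈ univ.erase k, y i = 0 := by
    rw [add_sum_erase _ _ (mem_univ k)]; exact hy
  have h3 : y k ^ 2 + ∑ i ∈ univ.erase k, y i ^ 2 = ∑ i, y i ^ 2 :=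
    add_sum_erase _ (fun i => y i ^ 2) (mem_univ k)
  have h4 : ∑ i ∈ univ.erase k, y i = - y k := by linarith
  rw [h4] at h1
  have h5 : y k ^ 2 ≤ l ^ 2 := by nlinarith
  exact abs_le_of_sq_le_sq' h5 hl |>.2

/-- data of the numerical argument -/
structure NumR (r t ξ : ℝ) (v p γ : Fin 6 → ℝ) : Prop where
  hv : ∀ k, 0 < v k
  hs : ∑ k, v k = 1 - ξ
  hξ : 0 ≤ ξ
  hp : ∀ k, 0 ≤ p k
  hr : 2 / 7 ≤ r
  hr1 : r ≤ 3 / 10
  ht : r - 1 / 10 ^ 10 ≤ t
  ht1 : t ≤ r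
  hγ : ∀ k, γ k ≤ 4 * t * ξ * v k
  hγs : ∑ k, γ k ≤ 2 * t * ξ
  hE : ∀ k, t * v k ≤ r * v k ^ 3 + v k * idp v k + v k * ((2 + 2 * v k) * p k) + γ k
  hF : 14 * ξ + 10 * ∑ k, p k ≤ 48 / 1000

variable {r t ξ : ℝ} {v p γ : Fin 6 → ℝ}

theorem NumR.P0 (D : NumR r t ξ v p γ) : 0 ≤ ∑ k, p k := sum_nonneg fun k _ => D.hp k

theorem NumR.xi_le (D : NumR r t ξ v p γ) : ξ ≤ 48 / 14000 := by
  have := D.P0; have := D.hF; linarith

theorem NumR.t0 (D : NumR r t ξ v p γ) : 0 ≤ t := by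
  have := D.hr; have := D.ht; linarith

/-- the normalised masses -/
noncomputable def xN (ξ : ℝ) (v : Fin 6 → ℝ) (k : Fin 6) : ℝ := v k / (1 - ξ)

theorem NumR.c0 (D : NumR r t ξ v p γ) : 0 < 1 - ξ := by have := D.xi_le; linarith

theorem NumR.v_eq (D : NumR r t ξ v p γ) (k : Fin 6) : v k = (1 - ξ) * xN ξ v k := by
  unfold xN
  have := D.c0.ne'
  field_simp

theorem NumR.x_pos (D : NumR r t ξ v p γ) (k : Fin 6) : 0 < xN ξ v k :=
  div_pos (D.hv k) D.c0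

theorem NumR.x_sum (D : NumR r t ξ v p γ) : ∑ k, xN ξ v k = 1 := by
  unfold xN
  rw [← sum_div, D.hs]
  exact div_self D.c0.ne'

theorem NumR.x_le_one (D : NumR r t ξ v p γ) (k : Fin 6) : xN ξ v k ≤ 1 := by
  rw [← D.x_sum]
  exact single_le_sum (fun i _ => (D.x_pos i).le) (mem_univ k)

theorem NumR.v_le_x (D : NumR r t ξ v p γ) (k : Fin 6) : v k ≤ xN ξ v k := by
  rw [D.v_eq k]
  have h1 := (D.x_pos k).le
  have h2 := D.hξ
  have := mul_nonneg h2 h1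
  linarith

theorem NumR.y_sum (D : NumR r t ξ v p γ) : ∑ k, (xN ξ v k - 1 / 6) = 0 := by
  rw [sum_sub_distrib, D.x_sum]; norm_num

/-- the inequality of one class -/
theorem NumR.cls (D : NumR r t ξ v p γ) (k : Fin 6) :
    t ≤ r * xN ξ v k ^ 2 + idp (xN ξ v) k + 61 / 100 * ξ +
      (204 / 100 + 2 * xN ξ v k) * p k := by
  set x := xN ξ v with hx
  have hv := D.hv k
  have hvk := D.v_eq k
  have t0 := D.t0
  have ξ0 := D.hξ
  have ξ1 := D.xi_le
  have p0 := D.hp k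
  have x0 := (D.x_pos k).le
  have x1 := D.x_le_one k
  have vx := D.v_le_x k
  rw [← hx] at hvk x0 x1 vx
  have hr0 : 0 ≤ r := by have := D.hr; linarith
  have t3 : t ≤ 3 / 10 := D.ht1.trans D.hr1
  -- division by the mass
  have h1 : t ≤ r * v k ^ 2 + idp v k + (2 + 2 * v k) * p k + 4 * t * ξ := by
    have h2 := D.hE k
    have h3 := D.hγ k
    have h4 : v k * t ≤ v k * (r * v k ^ 2 + idp v k + (2 + 2 * v k) * p k + 4 * t * ξ) := by
      have e : v k * (r * v k ^ 2 + idp v k + (2 + 2 * v k) * p k + 4 * t * ξ) =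
        r * v k ^ 3 + v k * idp v k + v k * ((2 + 2 * v k) * p k) + 4 * t * ξ * v k := by ring
      rw [e]; linarith
    exact le_of_mul_le_mul_left h4 hv
  set g := r * x k ^ 2 + idp x k with hg
  have g0 : 0 ≤ g := add_nonneg (mul_nonneg hr0 (sq_nonneg _))
    (idp_nonneg' x (fun i => (D.x_pos i).le) k)
  have e1 : r * v k ^ 2 + idp v k = (1 - ξ) ^ 2 * g := by
    rw [idp_homog (1 - ξ) x v D.v_eq k, hg, hvk]; ring
  rw [e1] at h1
  set q := (2 + 2 * v k) * p k with hq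
  have q0 : 0 ≤ q := mul_nonneg (by linarith) p0
  have q1 : q ≤ (2 + 2 * x k) * p k := mul_le_mul_of_nonneg_right (by linarith) p0
  have q2 : q ≤ 4 * p k := q1.trans (mul_le_mul_of_nonneg_right (by linarith) p0)
  have h2 : t - q - 4 * t * ξ ≤ g := by
    have : (1 - ξ) ^ 2 * g ≤ 1 * g := mul_le_mul_of_nonneg_right (by nlinarith) g0
    linarith
  have h3 : 0 ≤ (2 * ξ - ξ ^ 2) * (g - (t - q - 4 * t * ξ)) := by
    refine mul_nonneg ?_ (by linarith)
    nlinarith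
  have h4 : t - q - 4 * t * ξ + (2 * ξ - ξ ^ 2) * (t - q - 4 * t * ξ) ≤ g := by
    have e : g = (1 - ξ) ^ 2 * g + (2 * ξ - ξ ^ 2) * g := by ring
    rw [mul_sub] at h3
    linarith
  -- error terms
  have a1 : t * ξ ≤ 3 / 10 * ξ := mul_le_mul_of_nonneg_right t3 ξ0
  have a2 : t * ξ * ξ ≤ 3 / 10 * ξ * (48 / 14000) :=
    mul_le_mul a1 ξ1 ξ0 (mul_nonneg (by norm_num) ξ0)
  have a3 : q * ξ ≤ 4 * p k * (48 / 14000) := mul_le_mul q2 ξ1 ξ0 (by linarith)
  have a4 : 0 ≤ q * ξ ^ 2 := mul_nonneg q0 (sq_nonneg _)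
  have a5 : 0 ≤ t * ξ ^ 3 := mul_nonneg t0 (pow_nonneg ξ0 3)
  have a6 : t - q - 4 * t * ξ + (2 * ξ - ξ ^ 2) * (t - q - 4 * t * ξ) =
      t - 2 * (t * ξ) - 9 * (t * ξ * ξ) - q - 2 * (q * ξ) + q * ξ ^ 2 + 4 * (t * ξ ^ 3) := by
    ring
  rw [a6] at h4
  linarith

/-- the unweighted sum -/
theorem NumR.unw (D : NumR r t ξ v p γ) (M : ℝ) (hM : ∀ k, xN ξ v k ≤ M) :
    17 / 10 * ∑ k, (xN ξ v k - 1 / 6) ^ 2 ≤ 1 / 10 ^ 9 + 366 / 100 * ξ +
      (204 / 100 + 2 * M) * ∑ k, p k := by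
  set x := xN ξ v with hx
  have h1 : ∑ k : Fin 6, t ≤ ∑ k, (r * x k ^ 2 + idp x k + 61 / 100 * ξ +
      (204 / 100 + 2 * M) * p k) := by
    refine sum_le_sum fun k _ => (D.cls k).trans ?_
    have := mul_le_mul_of_nonneg_right (show 204 / 100 + 2 * xN ξ v k ≤ 204 / 100 + 2 * M by
      have := hM k; linarith) (D.hp k)
    rw [← hx] at this ⊢
    linarith
  have hxs := D.x_sum
  rw [← hx] at hxs
  simp only [sum_add_distrib] at h1
  rw [← mul_sum, ← mul_sum, ← mul_sum, sum_idp_sq, hxs, sum_const, sum_const, card_univ,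
    Fintype.card_fin, nsmul_eq_mul, nsmul_eq_mul] at h1
  have h2 : ∑ k, (x k - 1 / 6) ^ 2 = ∑ k, x k ^ 2 - 1 / 6 := by
    have e : ∀ k, (x k - 1 / 6) ^ 2 = x k ^ 2 - 1 / 3 * x k + 1 / 36 := fun k => by ring
    rw [sum_congr rfl fun k _ => e k, sum_add_distrib, sum_sub_distrib, ← mul_sum, hxs,
      sum_const, card_univ, Fintype.card_fin, nsmul_eq_mul]
    norm_num
    ring
  set Q := ∑ k, x k ^ 2 with hQ
  have S0 : 0 ≤ ∑ k, (x k - 1 / 6) ^ 2 := sum_nonneg fun k _ => sq_nonneg _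
  rw [h2] at S0 ⊢
  push_cast at h1
  have h3 := D.hr
  have h4 := D.hr1
  have h5 := D.ht
  have h6 : 0 ≤ (3 / 10 - r) * (Q - 1 / 6) := mul_nonneg (by linarith) S0
  nlinarith

/-- the weighted sum -/
theorem NumR.wgt (D : NumR r t ξ v p γ) (M : ℝ) (hM : ∀ k, xN ξ v k ≤ M) :
    t ≤ Tb (xN ξ v) + r * ∑ k, xN ξ v k ^ 3 + 13 / 1000 * ξ +
      102 / 100 * (M * (2 + 2 * M)) * ∑ k, p k := by
  set x := xN ξ v with hx
  have x0 : ∀ k, 0 ≤ x k := fun k => (D.x_pos k).le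
  have M0 : 0 ≤ M := (x0 0).trans (hM 0)
  have t0 := D.t0
  have ξ0 := D.hξ
  have ξ1 := D.xi_le
  have hr0 : 0 ≤ r := by have := D.hr; linarith
  have t3 : t ≤ 3 / 10 := D.ht1.trans D.hr1
  have P0 := D.P0
  set P := ∑ k, p k with hP
  have h1 : ∑ k, t * v k ≤ ∑ k, (r * v k ^ 3 + v k * idp v k +
      v k * ((2 + 2 * v k) * p k) + γ k) := sum_le_sum fun k _ => D.hE k
  simp only [sum_add_distrib] at h1
  rw [← mul_sum, ← mul_sum, D.hs] at h1
  have h2 : ∑ k, v k * ((2 + 2 * v k) * p k) ≤ M * (2 + 2 * M) * P := by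
    rw [hP, mul_sum]
    refine sum_le_sum fun k _ => ?_
    have a1 : v k ≤ M := (D.v_le_x k).trans (hM k)
    have a2 := (D.hv k).le
    have a3 := D.hp k
    calc v k * ((2 + 2 * v k) * p k) = (v k * (2 + 2 * v k)) * p k := by ring
      _ ≤ (M * (2 + 2 * M)) * p k := mul_le_mul_of_nonneg_right
          (mul_le_mul a1 (by linarith) (by linarith) M0) a3
  have h3 : ∑ k, v k ^ 3 = (1 - ξ) ^ 3 * ∑ k, x k ^ 3 := by
    rw [mul_sum]
    refine sum_congr rfl fun k _ => ?_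
    rw [D.v_eq k, ← hx]; ring
  have h4 : ∑ k, v k * idp v k = (1 - ξ) ^ 3 * Tb x := by
    rw [← sum_mul_idp, mul_sum]
    refine sum_congr rfl fun k _ => ?_
    rw [idp_homog (1 - ξ) x v D.v_eq k]
    nth_rewrite 1 [D.v_eq k]
    rw [← hx]; ring
  set F := Tb x + r * ∑ k, x k ^ 3 with hF
  have F0 : 0 ≤ F := by
    refine add_nonneg ?_ (mul_nonneg hr0 (sum_nonneg fun k _ => pow_nonneg (x0 k) 3))
    rw [← sum_mul_idp]
    exact sum_nonneg fun k _ => mul_nonneg (x0 k) (idp_nonneg' x x0 k)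
  set c := M * (2 + 2 * M) with hc
  have c0 : 0 ≤ c := mul_nonneg M0 (by linarith)
  have cP0 : 0 ≤ c * P := mul_nonneg c0 P0
  have h5 : t * (1 - 3 * ξ) - c * P ≤ (1 - ξ) ^ 3 * F := by
    have e : (1 - ξ) ^ 3 * F = r * ((1 - ξ) ^ 3 * ∑ k, x k ^ 3) + (1 - ξ) ^ 3 * Tb x := by
      rw [hF]; ring
    rw [e, ← h3, ← h4]
    have := D.hγs
    linarith
  have h6 : t * (1 - 3 * ξ) - c * P ≤ F := by
    have : (1 - ξ) ^ 3 * F ≤ 1 * F := by
      refine mul_le_mul_of_nonneg_right ?_ F0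
      exact pow_le_one₀ (by linarith) (by linarith)
    linarith
  set κ := 3 * ξ - 3 * ξ ^ 2 + ξ ^ 3 with hκ
  have κ0 : 0 ≤ κ := by
    have e : κ = ξ * (3 * (1 - ξ) + ξ ^ 2) := by rw [hκ]; ring
    rw [e]
    refine mul_nonneg ξ0 ?_
    have := sq_nonneg ξ
    linarith
  have κ1 : κ ≤ 11 / 1000 := by
    have a1 : ξ ^ 3 ≤ ξ ^ 2 * 1 := by
      have : ξ ^ 3 = ξ ^ 2 * ξ := by ring
      rw [this]
      exact mul_le_mul_of_nonneg_left (by linarith) (sq_nonneg _)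
    have := sq_nonneg ξ
    rw [hκ]; linarith
  have h7 : 0 ≤ κ * (F - (t * (1 - 3 * ξ) - c * P)) := mul_nonneg κ0 (by linarith)
  have h8 : t * (1 - 3 * ξ) - c * P + κ * (t * (1 - 3 * ξ) - c * P) ≤ F := by
    have e : F = (1 - ξ) ^ 3 * F + κ * F := by rw [hκ]; ring
    rw [mul_sub] at h7
    linarith
  have h9 : κ * (c * P) ≤ 11 / 1000 * (c * P) := mul_le_mul_of_nonneg_right κ1 cP0
  have h10 : t * (1 - 3 * ξ) + κ * (t * (1 - 3 * ξ)) = t - 12 * (t * ξ * ξ) +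
      t * (ξ ^ 3 * (10 - 3 * ξ)) := by rw [hκ]; ring
  have h11 : 0 ≤ t * (ξ ^ 3 * (10 - 3 * ξ)) :=
    mul_nonneg t0 (mul_nonneg (pow_nonneg ξ0 3) (by linarith))
  have a1 : t * ξ ≤ 3 / 10 * ξ := mul_le_mul_of_nonneg_right t3 ξ0
  have a2 : t * ξ * ξ ≤ 3 / 10 * ξ * (48 / 14000) :=
    mul_le_mul a1 ξ1 ξ0 (mul_nonneg (by norm_num) ξ0)
  rw [mul_sub] at h8
  have e9 : 102 / 100 * c * P = 102 / 100 * (c * P) := by ring
  rw [e9]
  linarith

/-- one step of the iteration -/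
theorem NumR.step (D : NumR r t ξ v p γ) (s b L s' : ℝ)
    (hS : ∑ k, (xN ξ v k - 1 / 6) ^ 2 ≤ s) (hb : 0 ≤ b) (hL : 0 ≤ L)
    (h1 : 5 / 6 * s ≤ b ^ 2) (h2 : 6 * s ≤ L ^ 2) (h3 : 0 < 5 / 6 - 9 / 8 * L - b / 3)
    (h4 : 1 / 10 ^ 9 + 102 / 100 * ((1 / 6 + b) * (2 + 2 * (1 / 6 + b))) * (48 / 10000) ≤
      (5 / 6 - 9 / 8 * L - b / 3) * s') : ∑ k, (xN ξ v k - 1 / 6) ^ 2 ≤ s' := by
  set x := xN ξ v with hx
  have hy := D.y_sum
  rw [← hx] at hy
  have hbk : ∀ k, x k - 1 / 6 ≤ b := abs_one_sq56 _ hy s b hb hS h1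
  have hLs : ∑ k, |x k - 1 / 6| ≤ L := abs_sum_sq _ s L hL hS h2
  have hr0 : 0 ≤ r := by have := D.hr; linarith
  have hr3 : r ≤ 1 / 3 := by have := D.hr1; linarith
  have k1 := F_slack r hr0 hr3 x D.x_sum L b hb hbk hLs
  have k2 := D.wgt (1 / 6 + b) (fun k => by have := hbk k; linarith)
  rw [← hx] at k2
  set S := ∑ k, (x k - 1 / 6) ^ 2 with hSd
  set κ := 5 / 6 - 9 / 8 * L - b / 3 with hκ
  set c := (1 / 6 + b) * (2 + 2 * (1 / 6 + b)) with hc
  have c1 : 7 / 18 ≤ c := by rw [hc]; nlinarith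
  have P0 := D.P0
  have ξ0 := D.hξ
  have hF := D.hF
  have hr := D.hr
  have ht := D.ht
  set P := ∑ k, p k with hP
  have k3 : κ * S ≤ 1 / 10 ^ 10 + 13 / 1000 * ξ + 102 / 100 * c * P := by
    have : (10 + r) / 36 ≤ r := by linarith
    linarith
  have k4 : 13 / 1000 * ξ + 102 / 100 * c * P ≤ 102 / 100 * c * (48 / 10000) := by
    have a1 : 0 ≤ 102 / 1000 * c * (48 / 1000 - (14 * ξ + 10 * P)) :=
      mul_nonneg (by linarith) (by linarith)
    have a2 : 13 / 1000 * ξ ≤ 102 / 1000 * c * (14 * ξ) := by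
      have : 13 / 1000 ≤ 102 / 1000 * c * 14 := by linarith
      calc 13 / 1000 * ξ ≤ (102 / 1000 * c * 14) * ξ := mul_le_mul_of_nonneg_right this ξ0
        _ = _ := by ring
    have e : 102 / 1000 * c * (48 / 1000 - (14 * ξ + 10 * P)) = 102 / 100 * c * (48 / 10000) -
        102 / 1000 * c * (14 * ξ) - 102 / 100 * c * P := by ring
    rw [e] at a1
    linarith
  have k5 : κ * S ≤ κ * s' := by
    have : (1 : ℝ) / 10 ^ 10 ≤ 1 / 10 ^ 9 := by norm_num
    linarith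
  exact le_of_mul_le_mul_left k5 h3

/-- **The a priori sizes, numerical form.** -/
theorem NumR.sizes (D : NumR r t ξ v p γ) :
    (∀ k, 3 / 25 ≤ v k) ∧ ∑ k, |v k - 1 / 6| ≤ 1 / 10 := by
  set x := xN ξ v with hx
  have hy := D.y_sum
  rw [← hx] at hy
  have ξ0 := D.hξ
  have ξ1 := D.xi_le
  have P0 := D.P0
  have hF := D.hF
  have hr := D.hr
  have hr1 := D.hr1
  have ht := D.ht
  -- first bounds of the sum of the squares
  have s1 : ∑ k, (x k - 1 / 6) ^ 2 ≤ 1141 / 100000 := by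
    have h := D.unw 1 D.x_le_one
    rw [← hx] at h
    linarith
  have s2 : ∑ k, (x k - 1 / 6) ^ 2 ≤ 74 / 10000 := by
    have hb := abs_one_sq56 _ hy _ (98 / 1000) (by norm_num) s1 (by norm_num)
    have h := D.unw (1 / 6 + 98 / 1000) (fun k => by
      have := hb k; rw [← hx]; linarith)
    rw [← hx] at h
    linarith
  have s3 : ∑ k, (x k - 1 / 6) ^ 2 ≤ 53 / 10000 :=
    D.step (74 / 10000) (786 / 10000) (211 / 1000) _ s2 (by norm_num) (by norm_num)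
      (by norm_num) (by norm_num) (by norm_num) (by norm_num)
  have s4 : ∑ k, (x k - 1 / 6) ^ 2 ≤ 465 / 100000 :=
    D.step (53 / 10000) (665 / 10000) (1784 / 10000) _ s3 (by norm_num) (by norm_num)
      (by norm_num) (by norm_num) (by norm_num) (by norm_num)
  have s5 : ∑ k, (x k - 1 / 6) ^ 2 ≤ 445 / 100000 :=
    D.step (465 / 100000) (623 / 10000) (1671 / 10000) _ s4 (by norm_num) (by norm_num)
      (by norm_num) (by norm_num) (by norm_num) (by norm_num)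
  have s6 : ∑ k, (x k - 1 / 6) ^ 2 ≤ 436 / 100000 :=
    D.step (445 / 100000) (609 / 10000) (1635 / 10000) _ s5 (by norm_num) (by norm_num)
      (by norm_num) (by norm_num) (by norm_num) (by norm_num)
  have hb := abs_one_sq56 _ hy _ (603 / 10000) (by norm_num) s6 (by norm_num)
  -- the linear step
  set e : Fin 6 → ℝ := fun k => 61 / 100 * ξ + 2495 / 1000 * p k with he
  have e0 : ∀ k, 0 ≤ e k := fun k => by
    have := D.hp k
    simp only [he]; linarith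
  have hlin : ∀ k, x k - 1 / 6 ≤ 30 / 17 * (e k + 1 / 10 ^ 10 +
      5 / 8 * (436 / 100000)) := by
    intro k
    have h1 := D.cls k
    rw [← hx, idp_expand x D.x_sum k] at h1
    have h2 := idp_quad3 (fun i => x i - 1 / 6) hy k
    beta_reduce at h2
    have h3 : (204 / 100 + 2 * x k) * p k ≤ 2495 / 1000 * p k :=
      mul_le_mul_of_nonneg_right (by have := hb k; linarith) (D.hp k)
    have h4 : r * x k ^ 2 = r / 36 + r / 3 * (x k - 1 / 6) + r * (x k - 1 / 6) ^ 2 := by ring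
    have h5 : r * (x k - 1 / 6) ^ 2 ≤ 1 / 3 * (x k - 1 / 6) ^ 2 :=
      mul_le_mul_of_nonneg_right (by linarith) (sq_nonneg _)
    have h6 : (2 / 3 - r / 3) * (x k - 1 / 6) ≤ e k + 1 / 10 ^ 10 + 5 / 8 * (436 / 100000) := by
      simp only [he]
      linarith
    have e0k := e0 k
    rcases le_total (x k - 1 / 6) 0 with h | h
    · have : 0 ≤ 30 / 17 * (e k + 1 / 10 ^ 10 + 5 / 8 * (436 / 100000)) := by positivity
      linarith
    · have : 17 / 30 * (x k - 1 / 6) ≤ (2 / 3 - r / 3) * (x k - 1 / 6) :=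
        mul_le_mul_of_nonneg_right (by linarith) h
      linarith
  -- a class which is not large
  obtain ⟨k0, hk0⟩ : ∃ k, x k - 1 / 6 ≤ 0 := by
    by_contra hne
    push Not at hne
    have : 0 < ∑ k, (x k - 1 / 6) := sum_pos (fun k _ => hne k) univ_nonempty
    linarith
  -- the positive part
  set X := ∑ k, max (x k - 1 / 6) 0 with hX
  have hXle : X ≤ 4619 / 100000 := by
    have h1 : X = ∑ k ∈ univ.erase k0, max (x k - 1 / 6) 0 := by
      rw [hX, ← add_sum_erase _ _ (mem_univ k0), max_eq_right hk0, zero_add]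
    have h2 : ∑ k ∈ univ.erase k0, max (x k - 1 / 6) 0 ≤
        ∑ k ∈ univ.erase k0, 30 / 17 * (e k + 1 / 10 ^ 10 + 5 / 8 * (436 / 100000)) := by
      refine sum_le_sum fun k _ => max_le (hlin k) ?_
      have := e0 k
      positivity
    have h3 : ∑ k ∈ univ.erase k0, 30 / 17 * (e k + 1 / 10 ^ 10 + 5 / 8 * (436 / 100000)) =
        30 / 17 * (∑ k ∈ univ.erase k0, e k + 5 * (1 / 10 ^ 10 + 5 / 8 * (436 / 100000))) := by
      rw [← mul_sum]
      congr 1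
      simp only [sum_add_distrib, sum_const, card_erase_of_mem (mem_univ k0), card_univ,
        Fintype.card_fin, nsmul_eq_mul]
      norm_num
      ring
    have h4 : ∑ k ∈ univ.erase k0, e k ≤ ∑ k, e k :=
      sum_le_sum_of_subset_of_nonneg (erase_subset _ _) fun k _ _ => e0 k
    have h5 : ∑ k, e k = 366 / 100 * ξ + 2495 / 1000 * ∑ k, p k := by
      simp only [he, sum_add_distrib, sum_const, card_univ, Fintype.card_fin, nsmul_eq_mul]
      rw [← mul_sum]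
      ring
    rw [h1]
    rw [h3] at h2
    linarith
  have habs : ∀ k, |x k - 1 / 6| = 2 * max (x k - 1 / 6) 0 - (x k - 1 / 6) := by
    intro k
    rcases le_total (x k - 1 / 6) 0 with h | h
    · rw [abs_of_nonpos h, max_eq_right h]; ring
    · rw [abs_of_nonneg h, max_eq_left h]; ring
  have hsumabs : ∑ k, |x k - 1 / 6| = 2 * X := by
    rw [sum_congr rfl fun k _ => habs k, sum_sub_distrib, hy, sub_zero, ← mul_sum]
  constructor
  · intro k
    have h1 : -X ≤ x k - 1 / 6 := by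
      have h2 : (x k - 1 / 6) + ∑ j ∈ univ.erase k, (x j - 1 / 6) = 0 := by
        rw [add_sum_erase _ (fun j => x j - 1 / 6) (mem_univ k)]; exact hy
      have h3 : ∑ j ∈ univ.erase k, (x j - 1 / 6) ≤ ∑ j ∈ univ.erase k, max (x j - 1 / 6) 0 :=
        sum_le_sum fun j _ => le_max_left _ _
      have h4 : ∑ j ∈ univ.erase k, max (x j - 1 / 6) 0 ≤ X :=
        sum_le_sum_of_subset_of_nonneg (erase_subset _ _) fun j _ _ => le_max_right _ _
      linarith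
    rw [D.v_eq k, ← hx]
    have h5 : 12047 / 100000 ≤ x k := by linarith
    have h6 : (1 - 48 / 14000) * (12047 / 100000) ≤ (1 - ξ) * x k :=
      mul_le_mul (by linarith) h5 (by norm_num) (by linarith)
    refine le_trans ?_ h6
    norm_num
  · have h1 : ∀ k, |v k - 1 / 6| ≤ |x k - 1 / 6| + ξ * x k := by
      intro k
      have e1 : v k - 1 / 6 = (x k - 1 / 6) + -(ξ * x k) := by
        rw [D.v_eq k, ← hx]; ring
      rw [e1]
      refine (abs_add_le _ _).trans ?_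
      rw [abs_neg, abs_of_nonneg (mul_nonneg ξ0 (D.x_pos k).le)]
    have h2 : ∑ k, |v k - 1 / 6| ≤ ∑ k, (|x k - 1 / 6| + ξ * x k) :=
      sum_le_sum fun k _ => h1 k
    rw [sum_add_distrib, ← mul_sum, hx, D.x_sum, ← hx, hsumabs] at h2
    linarith

end NumR

end K4m
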