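import Mathlib
import Pool.Agent.Lib.MP_392c14_co.Acc.SizeR2
import Pool.Agent.Lib.MP_392c14_co.Acc.SizeR3

/-!
# A priori sizes of the clone classes of a good standard copy
-/

set_option autoImplicit false

namespace K4m

open Finset Function

section SizeR

variable {V : Type} [Fintype V] [DecidableEq V] (G : TG V) (w : V → ℝ)

theorem Pf_nonneg (hw : ∀ x, 0 ≤ w x) (u : Fin 6 → V) : 0 ≤ Pf G w u :=
  sum_nonneg fun i _ => sum_nonneg fun j _ => mul_nonneg (nee_nonneg i j)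
    (PK_nonneg G w hw i _ (xi_nonneg G w hw i j) u)

theorem Qf_nonneg (hw : ∀ x, 0 ≤ w x) (u : Fin 6 → V) : 0 ≤ Qf G w u :=
  sum_nonneg fun i _ => sum_nonneg fun j _ => sum_nonneg fun k _ =>
    mul_nonneg (blk_nonneg i j k) (PK_nonneg G w hw i _ (fun u => PK_nonneg G w hw j _
      (xm_nonneg G w hw i j k) u) u)

/-- the data of the numerical argument -/
theorem numR_of (hw : IsW w) (hpos : ∀ x, 0 < w x) (hdeg : ∀ x, deg G w x = val G w)
    (hcnd : ∀ f : V → ℝ, ∑ x, f x = 0 → tri G f f w ≤ 0) (hnear : rho - 1 / 10 ^ 10 ≤ val G w)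
    (hrho : rho ≤ 3 / 10) {u : Fin 6 → V} (hu : St G u)
    (hF : 14 * Xu G w u + 10 * Pf G w u + 5 * Qf G w u ≤ 48 / 1000) :
    NumR rho (val G w) (Xu G w u) (vs G w u) (PiK G w u) (gamU G w u) where
  hv := vs_pos G w hpos u hu
  hs := by
    have h1 := Xu_eq G w u
    rw [hw.sum_eq] at h1
    linarith
  hξ := Xu_nonneg G w hw.nonneg hu
  hp := PiK_nonneg G w hw.nonneg u
  hr := two_sevenths_le_rho
  hr1 := hrho
  ht := hnear
  ht1 := val_le_rho G w hw
  hγ := gamU_le G w hw (val G w) hdeg hcnd hu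
  hγs := sum_gamU_le G w hw (val G w) hdeg hu
  hE := class_ineq G w hw hpos (val G w) hdeg hu
  hF := by
    rw [sum_PiK]
    have := Qf_nonneg G w hw.nonneg u
    linarith

/-- **A priori sizes.** -/
theorem sizes_apriori (hw : IsW w) (hpos : ∀ x, 0 < w x) (hdeg : ∀ x, deg G w x = val G w)
    (hcnd : ∀ f : V → ℝ, ∑ x, f x = 0 → tri G f f w ≤ 0) (hnear : rho - 1 / 10 ^ 12 ≤ val G w)
    (hrho : rho ≤ 3 / 10) {u : Fin 6 → V} (hu : St G u)
    (hF : 14 * Xu G w u + 10 * Pf G w u + 5 * Qf G w u ≤ 48 / 1000) :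
    (∀ k, 3 / 25 ≤ vs G w u k) ∧ ∑ k, |vs G w u k - 1 / 6| ≤ 1 / 10 :=
  (numR_of G w hw hpos hdeg hcnd (by
    have : (1 : ℝ) / 10 ^ 12 ≤ 1 / 10 ^ 10 := by norm_num
    linarith) hrho hu hF).sizes

end SizeR

end K4m
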