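import Mathlib
import Pool.Agent.Lib.MP_392c14_co.Acc.LinS7
import Pool.Agent.Lib.MP_392c14_co.Acc.Total
import Pool.Agent.Lib.MP_392c14_co.Acc.SizeR

/-!
# Linear sizes, part 8: the clones of a good standard copy, and total partitions
-/

set_option autoImplicit false

namespace K4m

open Finset Function

section Cl

variable {V : Type} [Fintype V] [DecidableEq V] (G : TG V) (w : V → ℝ)

/-- the classes of the clones as parts of a colouring -/
theorem muU_col (hpos : ∀ x, 0 < w x) {u : Fin 6 → V} (hu : St G u) (a : Fin 6) (x : V) :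
    vs G w u a * muU G w u a x = (w x - XU G w u x) * pin (cu G u) a x := by
  rw [vs_mul_muU G w hpos hu, XU_gu G w hu, ← gp_cu G hu]
  unfold gp
  ring

/-- the relation between the certificate and the missing blocks -/
theorem mv_clone (hw : IsW w) (hpos : ∀ x, 0 < w x) {u : Fin 6 → V} (hu : St G u)
    (hF : 14 * Xu G w u + 10 * Pf G w u + 5 * Qf G w u ≤ 48 / 1000) (vm : ℝ) (hvm : 0 < vm)
    (hv : ∀ a, vm ≤ vs G w u a) :
    30 * vm * mN G (muU G w u) ≤ (6 / 125 - 14 * Xu G w u) * (1 + Xu G w u / vm) := by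
  have h := mN_clone G w hpos hu hvm hv
  have hP := Pf_nonneg G w hw.nonneg u
  have hX := Xu_nonneg G w hw.nonneg hu
  have hX2 : 0 ≤ Xu G w u / vm := div_nonneg hX hvm.le
  rw [le_div_iff₀ hvm] at h
  have h1 : 0 ≤ Xu G w u / vm * Pf G w u := mul_nonneg hX2 hP
  have h2 : (10 * Pf G w u + 5 * Qf G w u) * (1 + Xu G w u / vm) ≤
      (6 / 125 - 14 * Xu G w u) * (1 + Xu G w u / vm) :=
    mul_le_mul_of_nonneg_right (by linarith) (by linarith)
  linarith

/-- **Sizes of the clone classes of a good standard copy.** -/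
theorem clone_sizes (hw : IsW w) (hpos : ∀ x, 0 < w x) (hdeg : ∀ x, deg G w x = val G w)
    (hcnd : ∀ f : V → ℝ, ∑ x, f x = 0 → tri G f f w ≤ 0) (hnear : rho - 1 / 10 ^ 12 ≤ val G w)
    (hrho : rho ≤ 28572 / 100000) {u : Fin 6 → V} (hu : St G u)
    (hF : 14 * Xu G w u + 10 * Pf G w u + 5 * Qf G w u ≤ 48 / 1000) :
    ∑ b, |sgm (vs G w u) (XU G w u) b| ≤
      21 / 40 * mN G (muU G w u) + 591 / 200 * Xu G w u + 1 / 10 ^ 4 ∧
    14 * Xu G w u + 469 / 100 * mN G (muU G w u) ≤ 6 / 125 ∧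
    (∀ a, 4 / 25 ≤ vs G w u a) ∧
    ∑ b, |vs G w u b - 1 / 6| ≤
      53 / 100 * mN G (muU G w u) + 77 / 25 * Xu G w u + 1 / 10 ^ 4 ∧
    14 * Xu G w u + 97 / 20 * mN G (muU G w u) ≤ 193 / 4000 ∧
    mN G (muU G w u) ≤ 49 / 5000 := by
  have D := dec_clone G w hw hpos hdeg hcnd hu
  have hap := sizes_apriori G w hw hpos hdeg hcnd hnear (by linarith) hu hF
  have hP := Pf_nonneg G w hw.nonneg u
  have hQ := Qf_nonneg G w hw.nonneg u
  have hx14 : 14 * xX (XU G w u) ≤ 6 / 125 := by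
    have : xX (XU G w u) = Xu G w u := rfl
    rw [this]; linarith
  have hmv := mv_clone G w hw hpos hu hF
  have h := D.sizes_cl (c := cu G u) (muU_col G w hpos hu) hrho (by
    have : (1 : ℝ) / 10 ^ 12 ≤ 1 / 10 ^ 9 := by norm_num
    linarith) hx14 hap.1 hap.2 hmv
  obtain ⟨h1, h2, h3, h4⟩ := h
  have h5 := D.region_cl hmv hx14 h1 h2
  exact ⟨h1, h2, h3, h4, h5.1, h5.2⟩

/-- the same for all sets of classes -/
theorem clone_sizes_all (hw : IsW w) (hpos : ∀ x, 0 < w x) (hdeg : ∀ x, deg G w x = val G w)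
    (hcnd : ∀ f : V → ℝ, ∑ x, f x = 0 → tri G f f w ≤ 0) (hnear : rho - 1 / 10 ^ 12 ≤ val G w)
    (hrho : rho ≤ 28572 / 100000) {u : Fin 6 → V} (hu : St G u)
    (hF : 14 * Xu G w u + 10 * Pf G w u + 5 * Qf G w u ≤ 48 / 1000) (S : Finset (Fin 6)) :
    12 * ∑ a ∈ S, (vs G w u a - 1 / 6 + Xu G w u / 6) ≤
      63 / 20 * mN G (muU G w u) + 1773 / 100 * Xu G w u + 3 / 5000 := by
  have D := dec_clone G w hw hpos hdeg hcnd hu
  have h := clone_sizes G w hw hpos hdeg hcnd hnear hrho hu hF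
  have h2 := D.sizes_cl_all h.1 S
  have e : xX (XU G w u) = Xu G w u := rfl
  rw [e] at h2
  linarith

/-- deficiency of the inner densities of the clone classes, for `Y_set` and `Y_set_k` -/
theorem clone_delta (hw : IsW w) (hpos : ∀ x, 0 < w x) (hdeg : ∀ x, deg G w x = val G w)
    (hcnd : ∀ f : V → ℝ, ∑ x, f x = 0 → tri G f f w ≤ 0) (hnear : rho - 1 / 10 ^ 12 ≤ val G w)
    (hrho : rho ≤ 28572 / 100000) {u : Fin 6 → V} (hu : St G u)
    (hF : 14 * Xu G w u + 10 * Pf G w u + 5 * Qf G w u ≤ 48 / 1000) (J : Finset (Fin 6)) :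
    ∑ a ∈ J, (eN G (muU G w u) a - 3 * BN G (muU G w u) a) ≤
      1 / 4000000 + 2093 / 10 * Xu G w u ^ 2 + 75 / 2 * (53 / 100 * mN G (muU G w u) +
        77 / 25 * Xu G w u + 1 / 10 ^ 4) * mN G (muU G w u) := by
  have D := dec_clone G w hw hpos hdeg hcnd hu
  obtain ⟨h1, h2, h3, h4, -, -⟩ := clone_sizes G w hw hpos hdeg hcnd hnear hrho hu hF
  have hm := mN_nonneg (G := G) D.hμ
  have h := D.delta (cu G u) (muU_col G w hpos hu) (val_le_rho G w hw) (4 / 25) _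
    (by norm_num) h3 h4 J
  refine h.trans ?_
  have e : xX (XU G w u) = Xu G w u := rfl
  rw [e]
  have hr := two_sevenths_le_rho
  have k1 : (rho - val G w + 3 * rho * Xu G w u ^ 2) / (4 / 25) ^ 3 ≤
      1 / 4000000 + 2093 / 10 * Xu G w u ^ 2 := by
    rw [div_le_iff₀ (by norm_num)]
    have a1 : 3 * rho * Xu G w u ^ 2 ≤ 3 * (28572 / 100000) * Xu G w u ^ 2 :=
      mul_le_mul_of_nonneg_right (by linarith) (sq_nonneg _)
    have a2 := sq_nonneg (Xu G w u)
    have a3 : (1 : ℝ) / 10 ^ 12 ≤ 1 / 10 ^ 10 := by norm_num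
    have a4 : rho - val G w ≤ 1 / 10 ^ 10 := by linarith
    have a5 : (1 : ℝ) / 10 ^ 10 ≤ 1 / 4000000 * (4 / 25) ^ 3 := by norm_num
    linarith
  have k2 : 6 * (53 / 100 * mN G (muU G w u) + 77 / 25 * Xu G w u + 1 / 10 ^ 4) *
      mN G (muU G w u) / (4 / 25) = 75 / 2 * (53 / 100 * mN G (muU G w u) +
        77 / 25 * Xu G w u + 1 / 10 ^ 4) * mN G (muU G w u) := by ring
  rw [k2]
  linarith

end Cl

section To

variable {V : Type} [Fintype V] (G : TG V) (w : V → ℝ) (c : V → Fin 6)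

/-- **Sizes of the classes of a total partition.** -/
theorem total_sizes (hw : IsW w) (hcl : ∀ a, 0 < cl w c a) (hdeg : ∀ x, deg G w x = val G w)
    (hcnd : ∀ f : V → ℝ, ∑ x, f x = 0 → tri G f f w ≤ 0) (hnear : rho - 1 / 10 ^ 12 ≤ val G w)
    (hrho : rho ≤ 28572 / 100000) (hm : mN G (muT w c) ≤ 99 / 10000)
    (h0 : ∑ b, |cl w c b - 1 / 6| ≤ 3 / 100) :
    ∑ b, |cl w c b - 1 / 6| ≤ 21 / 40 * mN G (muT w c) + 1 / 10 ^ 4 ∧
    ∀ S : Finset (Fin 6), 12 * ∑ a ∈ S, (cl w c a - 1 / 6) ≤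
      63 / 20 * mN G (muT w c) + 3 / 5000 := by
  have D := dec_total G hw hcl hdeg hcnd
  have hX : xX (fun _ : V => (0 : ℝ)) = 0 := by unfold xX; simp
  have hc : ∀ a x, cl w c a * muT w c a x = (w x - 0) * pin c a x := by
    intro a x
    rw [cl_mul_muT (hcl a), sub_zero]
    rfl
  have ht : rho - val G w ≤ 1 / 10 ^ 9 := by
    have : (1 : ℝ) / 10 ^ 12 ≤ 1 / 10 ^ 9 := by norm_num
    linarith
  refine ⟨D.sizes_tot (c := c) hc hrho ht hX hm h0, fun S => ?_⟩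
  have h := D.sizes_tot_all (c := c) hc hrho ht hX hm h0 S
  rw [hX] at h
  simpa using h

end To

end K4m
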