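import Mathlib
import Pool.Agent.Lib.MP_392c14_co.Acc.Mat
import Pool.Agent.Lib.MP_392c14_co.Acc.Match
import Pool.Agent.Lib.MP_392c14_co.Acc.LinS8

/-!
# From the clones of a good standard copy to a matched decomposition
-/

set_option autoImplicit false

namespace K4m

open Finset Function

section General

variable {V : Type} [Fintype V] {G : TG V} {w : V → ℝ} {μ : Fin 6 → V → ℝ} {v : Fin 6 → ℝ}
  {X : V → ℝ} {t : ℝ} {c : V → Fin 6}

/-- the masses of the classes and of the garbage -/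
theorem Dec.sum_v_sub (D : Dec G w μ v X t) : ∑ a, (v a - 1 / 6) = -xX X := by
  have h := sum_nty (c := fun _ => (0 : Fin 6)) D
  have h2 := sum_xty (X := X) (c := fun _ : V => (0 : Fin 6))
  unfold nty at h
  have e : ∑ a, (xty X (fun _ : V => (0 : Fin 6)) a + v a - 1 / 6) =
      ∑ a, xty X (fun _ : V => (0 : Fin 6)) a + ∑ a, (v a - 1 / 6) := by
    rw [← sum_add_distrib]
    exact sum_congr rfl fun a _ => by ring
  rw [e, h2] at h
  linarith

/-- lower bound for the masses from the sum of the deviations -/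
theorem Dec.v_ge_of (D : Dec G w μ v X t) {A : ℝ} (hA : ∑ a, |v a - 1 / 6| ≤ A) (a : Fin 6) :
    1 / 6 - (A + xX X) / 2 ≤ v a := by
  have h0 := D.sum_v_sub
  have h1 := add_sum_erase univ (fun b => v b - 1 / 6) (mem_univ a)
  have h2 := add_sum_erase univ (fun b => |v b - 1 / 6|) (mem_univ a)
  have h3 : -∑ b ∈ univ.erase a, |v b - 1 / 6| ≤ -∑ b ∈ univ.erase a, (v b - 1 / 6) :=
    neg_le_neg (sum_le_sum fun b _ => le_abs_self _)
  have h4 := neg_abs_le (v a - 1 / 6)
  beta_reduce at h1 h2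
  linarith

/-- upper bound for the masses from the sum of the deviations -/
theorem Dec.v_le_of (D : Dec G w μ v X t) {A : ℝ} (hA : ∑ a, |v a - 1 / 6| ≤ A) (a : Fin 6) :
    v a ≤ 1 / 6 + (A - xX X) / 2 := by
  have h0 := D.sum_v_sub
  have h1 := add_sum_erase univ (fun b => v b - 1 / 6) (mem_univ a)
  have h2 := add_sum_erase univ (fun b => |v b - 1 / 6|) (mem_univ a)
  have h3 : -∑ b ∈ univ.erase a, (v b - 1 / 6) ≤ ∑ b ∈ univ.erase a, |v b - 1 / 6| := by
    rw [← sum_neg_distrib]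
    exact sum_le_sum fun b _ => neg_le_abs _
  have h4 := le_abs_self (v a - 1 / 6)
  beta_reduce at h1 h2
  linarith

/-- the corrected sizes from the sizes -/
theorem Dec.abs_nty_le (D : Dec G w μ v X t) :
    ∑ a, |nty v X c a| ≤ ∑ a, |v a - 1 / 6| + xX X := by
  rw [← sum_xty (X := X) (c := c), ← sum_add_distrib]
  refine sum_le_sum fun a _ => ?_
  have e : nty v X c a = (v a - 1 / 6) + xty X c a := by unfold nty; ring
  rw [e]
  refine (abs_add_le _ _).trans ?_
  rw [abs_of_nonneg (xty_nonneg (c := c) D.hX a)]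

/-- arithmetic: the relation between garbage and missing blocks for the clones -/
theorem J_clone_arith {ξ m vm : ℝ} (hξ : 0 ≤ ξ) (hm : 0 ≤ m) (h0 : 14 * ξ + 469 / 100 * m ≤ 6 / 125)
    (hvm : vm = 1 / 6 - (53 / 100 * m + 77 / 25 * ξ + 1 / 10 ^ 4 + ξ) / 2)
    (h : 30 * vm * m ≤ (6 / 125 - 14 * ξ) * (1 + ξ / vm)) :
    14 * ξ + (491 / 100 - 69 * ξ) * m ≤ 48 / 1000 := by
  have hξ1 : ξ ≤ 6 / 1750 := by linarith
  have hm1 : m ≤ 10235 / 1000000 := by linarith
  have hvm1 : 3183 / 20000 ≤ vm := by rw [hvm]; linarith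
  have hvm0 : 0 < vm := by linarith
  have hA : 0 ≤ 6 / 125 - 14 * ξ := by linarith
  -- the quotient
  have q1 : ξ / vm ≤ 20000 / 3183 * ξ := by
    rw [div_le_iff₀ hvm0]
    have := mul_le_mul_of_nonneg_left hvm1 hξ
    linarith
  have q2 : (6 / 125 - 14 * ξ) * (1 + ξ / vm) ≤ (6 / 125 - 14 * ξ) * (1 + 20000 / 3183 * ξ) :=
    mul_le_mul_of_nonneg_left (by linarith) hA
  have e1 : 30 * vm = 49985 / 10000 - 795 / 100 * m - 612 / 10 * ξ := by rw [hvm]; ring
  rw [e1] at h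
  have h1 : (49985 / 10000 - 795 / 100 * m - 612 / 10 * ξ) * m ≤
      (6 / 125 - 14 * ξ) * (1 + 20000 / 3183 * ξ) := h.trans q2
  by_contra hcon
  push Not at hcon
  -- `(6 / 125 - 14 ξ) < (4.91 - 69 ξ) m`
  have h2 : 6 / 125 - 14 * ξ < (491 / 100 - 69 * ξ) * m := by linarith
  have h3 : (6 / 125 - 14 * ξ) * (1 + 20000 / 3183 * ξ) <
      (491 / 100 - 69 * ξ) * m * (1 + 20000 / 3183 * ξ) :=
    mul_lt_mul_of_pos_right h2 (by linarith)
  have h4 : (49985 / 10000 - 795 / 100 * m - 612 / 10 * ξ) * m <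
      (491 / 100 - 69 * ξ) * m * (1 + 20000 / 3183 * ξ) := lt_of_le_of_lt h1 h3
  have hmpos : 0 < m := by
    by_contra hm'
    have : m = 0 := le_antisymm (not_lt.1 hm') hm
    rw [this] at h4
    simp at h4
  have h5 : 49985 / 10000 - 795 / 100 * m - 612 / 10 * ξ <
      (491 / 100 - 69 * ξ) * (1 + 20000 / 3183 * ξ) := by
    by_contra h6
    push Not at h6
    have h7 := mul_le_mul_of_nonneg_right h6 hmpos.le
    have e2 : (491 / 100 - 69 * ξ) * m * (1 + 20000 / 3183 * ξ) =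
      (491 / 100 - 69 * ξ) * (1 + 20000 / 3183 * ξ) * m := by ring
    rw [e2] at h4
    exact absurd h4 (not_lt.2 h7)
  nlinarith [mul_nonneg hξ hξ]

/-- arithmetic: the potential with the product term does not grow under the restriction -/
theorem J_match_arith {ξ m ξ' m' P : ℝ} (hξ : 0 ≤ ξ) (hξ1 : ξ ≤ 6 / 1750)
    (hm1 : m ≤ 1 / 100) (hm0' : 0 ≤ m') (P0 : 0 ≤ P) (P1 : P ≤ 3 / 200) (hξ0' : 0 ≤ ξ')
    (hξ' : ξ' ≤ ξ + 173 / 1000 * P) (hm' : m' ≤ m - 19 / 10 * P)
    (h : 14 * ξ + (491 / 100 - 69 * ξ) * m ≤ 48 / 1000) :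
    14 * ξ' + (491 / 100 - 69 * ξ') * m' ≤ 48 / 1000 := by
  have a1 : ξ' ≤ 1 / 100 := by linarith
  have a2 : m' ≤ 1 / 100 := by linarith
  -- increase `m'`, then `ξ'`
  have b1 : (491 / 100 - 69 * ξ') * m' ≤ (491 / 100 - 69 * ξ') * (m - 19 / 10 * P) :=
    mul_le_mul_of_nonneg_left hm' (by linarith)
  have b2 : m - 19 / 10 * P ≤ 1 / 100 := by linarith
  have b3 : (14 - 69 * (m - 19 / 10 * P)) * ξ' ≤
      (14 - 69 * (m - 19 / 10 * P)) * (ξ + 173 / 1000 * P) :=
    mul_le_mul_of_nonneg_left hξ' (by linarith)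
  have c1 : P * ξ ≤ P * (6 / 1750) := mul_le_mul_of_nonneg_left hξ1 P0
  have c2 : P * P ≤ P * (3 / 200) := mul_le_mul_of_nonneg_left P1 P0
  have c3 : 0 ≤ P * (m - 19 / 10 * P) := mul_nonneg P0 (by linarith)
  nlinarith

end General

section Main

variable {V : Type} [Fintype V] [DecidableEq V] (G : TG V) (w : V → ℝ)

/-- **From the clones of a good standard copy to a matched decomposition.** -/
theorem mat_clone (hw : IsW w) (hpos : ∀ x, 0 < w x) (hdeg : ∀ x, deg G w x = val G w)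
    (hcnd : ∀ f : V → ℝ, ∑ x, f x = 0 → tri G f f w ≤ 0) (hnear : rho - 1 / 10 ^ 16 ≤ val G w)
    (hrho : rho ≤ 28572 / 100000) {u : Fin 6 → V} (hu : St G u)
    (hF : 14 * Xu G w u + 10 * Pf G w u + 5 * Qf G w u ≤ 48 / 1000) (c : V → Fin 6)
    (hc : ∀ x, 67 / 100 < pProb (muU G w u) (G.E x) (c x)) :
    Mat G w (muM (muU G w u) c) (vM (muU G w u) (vs G w u) c)
      (XM (muU G w u) (vs G w u) (XU G w u) c) (val G w) c ∧
    (∃ S : Fin 6 → V → Bool, ∀ a x,
      vM (muU G w u) (vs G w u) c a * muM (muU G w u) c a x = w x * ind (S a x)) ∧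
    ∀ x, 6553 / 10000 ≤ pProb (muM (muU G w u) c) (G.E x) (c x) := by
  have hn12 : rho - 1 / 10 ^ 12 ≤ val G w := by
    have : (1 : ℝ) / 10 ^ 16 ≤ 1 / 10 ^ 12 := by norm_num
    linarith
  have D := dec_clone G w hw hpos hdeg hcnd hu
  obtain ⟨-, h2, -, h4, -, h6⟩ := clone_sizes G w hw hpos hdeg hcnd hn12 hrho hu hF
  have hμ := D.hμ
  have hf : ∀ x a, a ≠ c x → 4 ≤ hh G (muU G w u) x a := by
    intro x a ha
    have e1 := hh_far (G := G) hμ x (c x) a ha
    have e2 := hc x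
    linarith
  have hm0 : 0 ≤ mN G (muU G w u) := mN_nonneg hμ
  have hx0 : 0 ≤ Xu G w u := Xu_nonneg G w hw.nonneg hu
  have hm1 : mN G (muU G w u) ≤ 1 / 100 := by linarith
  have hX : xX (XU G w u) = Xu G w u := rfl
  have hφ := phi_lt_one hμ hf hm1
  have P0 := phi_sum_nonneg (c := c) hμ
  have P1 := phi_sum_small hμ hf hm1
  have P2 := phi_sum_le_mN hμ hf
  have D' := D.dM hφ
  have hv173 : ∀ a, vs G w u a ≤ 173 / 1000 := by
    intro a
    have := D.v_le_of h4 a
    rw [hX] at this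
    linarith
  have hxM := xX_XM_le (X := XU G w u) (c := c) hμ hv173
  have hmM := mN_muM hμ hf hm1
  have hxM0 := D'.xX_nonneg
  have hmM0 : 0 ≤ mN G (muM (muU G w u) c) := mN_nonneg D'.hμ
  have hsz := sizes_vM (c := c) hμ D.hv hv173
  rw [hX] at hxM
  set ξ := Xu G w u with hξdef
  set m := mN G (muU G w u) with hmdef
  set P := ∑ a, phi (muU G w u) c a with hPdef
  -- the certificate relation for the clones
  have hvm : ∀ a, 1 / 6 - (53 / 100 * m + 77 / 25 * ξ + 1 / 10 ^ 4 + ξ) / 2 ≤ vs G w u a := by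
    intro a
    have := D.v_ge_of h4 a
    rw [hX] at this
    exact this
  have hvm0 : 0 < 1 / 6 - (53 / 100 * m + 77 / 25 * ξ + 1 / 10 ^ 4 + ξ) / 2 := by linarith
  have hmv := mv_clone G w hw hpos hu hF _ hvm0 hvm
  have hJ := J_clone_arith hx0 hm0 h2 rfl hmv
  have hξ1 : ξ ≤ 6 / 1750 := by linarith
  have hD1 : ∑ a, |vM (muU G w u) (vs G w u) c a - 1 / 6| ≤
      53 / 100 * m + 77 / 25 * ξ + 1 / 10 ^ 4 + 173 / 1000 * P := by linarith
  have hPm : P ≤ 3 / 2 * m := by linarith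
  refine ⟨?_, ?_, ?_⟩
  · refine
      { dec := D'
        hc := fun a x h => muM_supp' h
        J := J_match_arith hx0 hξ1 hm1 hmM0 P0 P1 hxM0 hxM hmM hJ
        J0 := by linarith
        D1 := by linarith
        A0 := ?_
        lo := fun a => ?_
        tr := val_le_rho G w hw
        rt := by linarith
        r0 := two_sevenths_le_rho
        r1 := hrho }
    · have := D'.abs_nty_le (c := c)
      linarith
    · have := D'.v_ge_of hD1 a
      linarith
  · refine ⟨fun a x => decide (St G (update u a x)) && decide (c x = a), fun a x => ?_⟩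
    exact muM_ind (S := fun a x => decide (St G (update u a x))) (hφ a)
      (fun y => vs_mul_muU G w hpos hu a y) x
  · intro x
    have e1 := pProb_muM hμ hφ (G.E x) (c x)
    have e2 := hc x
    linarith

end Main

end K4m
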