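import Mathlib

/-!
# Lower bound of the own densities: numerical inequalities
-/

set_option autoImplicit false

namespace K4m

/-- bound of the total deviation of the sizes -/
noncomputable def nlD (m ξ : ℝ) : ℝ := 3 / 5 * m + 33 / 10 * ξ + 1 / 10 ^ 4

/-- bound of the deficiencies -/
noncomputable def nlδ (m ξ : ℝ) : ℝ := 42 / 100 * m + 3 / 4 * ξ + 1 / 10 ^ 6

/-- error of the upper bound of the own density -/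
noncomputable def nlχ (m ξ : ℝ) : ℝ := 127 / 5 * (nlD m ξ * m) + 17 / 4 * ξ + 1 / 10 ^ 4

section Num

variable {m ξ : ℝ}

theorem nlD_nonneg (hm : 0 ≤ m) (hξ : 0 ≤ ξ) : 0 ≤ nlD m ξ := by unfold nlD; positivity

theorem nlδ_nonneg (hm : 0 ≤ m) (hξ : 0 ≤ ξ) : 0 ≤ nlδ m ξ := by unfold nlδ; positivity

theorem nlχ_nonneg (hm : 0 ≤ m) (hξ : 0 ≤ ξ) : 0 ≤ nlχ m ξ := by
  have := nlD_nonneg hm hξ
  unfold nlχ; positivity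

theorem nlD_le (h : m ≤ 102 / 10000 - 271 / 100 * ξ) (hx : ξ ≤ 343 / 100000) :
    nlD m ξ ≤ 12 / 1000 := by
  unfold nlD; linarith

theorem nlδ_le (hξ : 0 ≤ ξ) (h : m ≤ 102 / 10000 - 271 / 100 * ξ) :
    nlδ m ξ ≤ 43 / 10000 := by
  unfold nlδ; linarith

theorem nlDm_eq : nlD m ξ * m = 3 / 5 * m ^ 2 + 33 / 10 * (m * ξ) + 1 / 10 ^ 4 * m := by
  unfold nlD; ring

theorem nlDm_le (hm : 0 ≤ m) (hξ : 0 ≤ ξ) (h : m ≤ 102 / 10000 - 271 / 100 * ξ) :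
    nlD m ξ * m ≤ 65 / 10000 * m + 34 / 1000 * ξ := by
  rw [nlDm_eq]
  have h1 : m ^ 2 ≤ 102 / 10000 * m := by nlinarith
  have h2 : m * ξ ≤ 102 / 10000 * ξ := by nlinarith
  linarith

theorem nlχ_le (hm : 0 ≤ m) (hξ : 0 ≤ ξ) (h : m ≤ 102 / 10000 - 271 / 100 * ξ) :
    5 * m + nlχ m ξ ≤ 53 / 1000 := by
  have h1 := nlDm_le hm hξ h
  unfold nlχ
  linarith

theorem nl_nu1 (hm : 0 ≤ m) (hξ : 0 ≤ ξ) (h : m ≤ 102 / 10000 - 271 / 100 * ξ) (ρ : ℝ)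
    (hρ : ρ ≤ 28572 / 100000) :
    ρ + 4 * m + 127 / 5 * (nlD m ξ * m) + 19 / 3 * ξ + 1 / 10 ^ 4 ≤ 47 / 140 := by
  have h1 := nlDm_le hm hξ h
  linarith

theorem nl_mmlow (hm : 0 ≤ m) (hξ : 0 ≤ ξ) (h : m ≤ 102 / 10000 - 271 / 100 * ξ)
    (hx : ξ ≤ 343 / 100000) (D1 ρ : ℝ)
    (hD0 : 0 ≤ D1) (hD : D1 ≤ nlD m ξ) (hρ : ρ ≤ 28572 / 100000) :
    7 / 72 * (18 * (D1 ^ 2 + ξ ^ 2) + 6 * (D1 - ξ) * (59 / 25) + 72 * ξ) +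
      7 / 12 * (ρ + 5 * m + nlχ m ξ) ≤ 224 / 1000 := by
  have h1 := nlDm_le hm hξ h
  have h2 := nlD_le h hx
  have h3 : D1 ^ 2 ≤ 12 / 1000 * D1 := by nlinarith
  have h4 : ξ ^ 2 ≤ 343 / 100000 * ξ := by nlinarith
  unfold nlχ
  unfold nlD at hD h1 ⊢
  nlinarith

theorem nl_quad (hm : 0 ≤ m) (hξ : 0 ≤ ξ) (h : m ≤ 102 / 10000 - 271 / 100 * ξ)
    (hx : ξ ≤ 343 / 100000) :
    4 / 10000 + 863 / 100 * m + 2165 / 100 * ξ + 108 * m ^ 2 + 720 * (m * ξ) +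
      1300 * ξ ^ 2 ≤ 104 / 1000 := by
  have hs : 0 ≤ 102 / 10000 - 271 / 100 * ξ - m := by linarith
  nlinarith [mul_nonneg hm hs, mul_nonneg hξ hs, mul_nonneg hξ hm,
    mul_nonneg hξ (sub_nonneg.2 hx), mul_nonneg hs (sub_nonneg.2 hx)]

theorem nl_slope (hm : 0 ≤ m) (hξ : 0 ≤ ξ) (h : m ≤ 102 / 10000 - 271 / 100 * ξ)
    (ρ : ℝ) (hρ : ρ ≤ 28572 / 100000) :
    0 ≤ 4 / 5 * (5451 / 21000 - 2 * m - 7 / 6 * (24 / 5 * m + 4 / 5 * nlδ m ξ)) + 18 / 100 +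
      7 / 6 * (4 * m + nlδ m ξ) - (ρ + 2 * m + nlχ m ξ) := by
  have h1 := nlDm_le hm hξ h
  unfold nlχ nlδ
  linarith

theorem nl_total (hm : 0 ≤ m) (hξ : 0 ≤ ξ) (h : m ≤ 102 / 10000 - 271 / 100 * ξ)
    (hx : ξ ≤ 343 / 100000)
    (D1 ρ t rh κ y0 rs : ℝ) (hD0 : 0 ≤ D1) (hD : D1 ≤ nlD m ξ) (hρ0 : 2 / 7 ≤ ρ)
    (hρ : ρ ≤ 28572 / 100000) (ht : t ≤ ρ)
    (hy0 : y0 = 24 / 5 * m + nlδ m ξ + 169 * (ρ - 2 / 7))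
    (hrs : rs = 8 * m + 4 / 3 * nlδ m ξ + 71 * (ρ - 2 / 7))
    (hrh : rh = 39 / 80 * y0 + 57 / 80 * rs)
    (hκ : κ = 3 * ((nlD m ξ + ξ) / 2) + y0 / 36 + 42 * (2 * ((nlD m ξ + ξ) / 2) + y0 / 36) ^ 2) :
    (36 * ξ * (t + 2 / 7) + (12 * D1 * rh + 18 * (1 + 14 / 5) *
      (D1 ^ 2 + 2 * ξ ^ 2) + 36 * ξ * κ)) + 3 * m + 18 / 100 +
      (7 / 6 - 7 / 12 * (18 / 100)) * (4 * m + nlδ m ξ) +
      7 / 12 * (ρ + 5 * m + nlχ m ξ) * (24 / 5 * m + 4 / 5 * nlδ m ξ) +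
      47 * (ρ - 2 / 7) ≤ 284 / 1000 := by
  have h1 := nlD_le h hx
  have h2 := nlδ_le hξ h
  have h3 := nlχ_le hm hξ h
  have h4 := nlδ_nonneg hm hξ
  have h5 := nlD_nonneg hm hξ
  have hσ : ρ - 2 / 7 ≤ 6 / 10 ^ 6 := by linarith
  have hσ0 : 0 ≤ ρ - 2 / 7 := by linarith
  have hy0b : y0 ≤ 522 / 100 * m + 3 / 4 * ξ + 102 / 100000 := by
    rw [hy0]; unfold nlδ; linarith
  have hy00 : 0 ≤ y0 := by rw [hy0]; linarith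
  have hrhb : rh ≤ 865 / 100 * m + 108 / 100 * ξ + 81 / 100000 := by
    rw [hrh, hrs, hy0]; unfold nlδ; linarith
  have hrh0 : 0 ≤ rh := by rw [hrh, hrs, hy0]; linarith
  have k1 : D1 * rh ≤ nlD m ξ * (865 / 100 * m + 108 / 100 * ξ + 81 / 100000) :=
    mul_le_mul hD hrhb hrh0 h5
  have k2 : D1 ^ 2 ≤ nlD m ξ ^ 2 := pow_le_pow_left₀ hD0 hD 2
  -- the garbage term
  have k3 : 2 * ((nlD m ξ + ξ) / 2) + y0 / 36 ≤ 157 / 10000 := by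
    unfold nlD
    linarith
  have k4 : 0 ≤ 2 * ((nlD m ξ + ξ) / 2) + y0 / 36 := by positivity
  have k5 : (2 * ((nlD m ξ + ξ) / 2) + y0 / 36) ^ 2 ≤
      157 / 10000 * (2 * ((nlD m ξ + ξ) / 2) + y0 / 36) := by nlinarith
  have k6 : κ ≤ 154 / 100 * m + 935 / 100 * ξ + 3 / 10000 := by
    rw [hκ]
    unfold nlD at k5 ⊢
    linarith
  have k7 : ξ * κ ≤ ξ * (154 / 100 * m + 935 / 100 * ξ + 3 / 10000) :=
    mul_le_mul_of_nonneg_left k6 hξ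
  have k8 : ξ * (t + 2 / 7) ≤ ξ * (4 / 7 + 6 / 10 ^ 6) :=
    mul_le_mul_of_nonneg_left (by linarith) hξ
  -- the last term
  have e0 : 5 * m + nlχ m ξ ≤ 517 / 100 * m + 512 / 100 * ξ + 1 / 10 ^ 4 := by
    have := nlDm_le hm hξ h
    unfold nlχ
    linarith
  have k9 : 7 / 12 * (ρ + 5 * m + nlχ m ξ) * (24 / 5 * m + 4 / 5 * nlδ m ξ) ≤
      7 / 12 * (28582 / 100000 + 517 / 100 * m + 512 / 100 * ξ) *
        (24 / 5 * m + 4 / 5 * nlδ m ξ) := by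
    refine mul_le_mul_of_nonneg_right ?_ (by linarith)
    linarith
  have h6 := nl_quad hm hξ h hx
  have e2 : nlD m ξ ^ 2 = (3 / 5 * m + 33 / 10 * ξ + 1 / 10 ^ 4) ^ 2 := rfl
  have e1 : nlD m ξ * (865 / 100 * m + 108 / 100 * ξ + 81 / 100000) =
    (3 / 5 * m + 33 / 10 * ξ + 1 / 10 ^ 4) * (865 / 100 * m + 108 / 100 * ξ + 81 / 100000) := rfl
  rw [e1] at k1
  rw [e2] at k2
  have e3 : nlδ m ξ = 42 / 100 * m + 3 / 4 * ξ + 1 / 10 ^ 6 := rfl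
  rw [e3] at k9 ⊢
  have m2 := sq_nonneg m
  have x2 := sq_nonneg ξ
  have mx := mul_nonneg hm hξ
  nlinarith [k1, k2, k7, k8, k9, h6, m2, x2, mx]

end Num

end K4m
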