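import Mathlib
import Pool.Agent.Lib.MP_392c14_co.Acc.RBd

/-!
# The sizes of the classes, second part: the total deviation
-/

set_option autoImplicit false

namespace K4m

open Finset

section Size2

variable {V : Type} [Fintype V] {G : TG V} {w : V → ℝ} {μ : Fin 6 → V → ℝ} {v : Fin 6 → ℝ}
  {X : V → ℝ} {t : ℝ}

/-- coefficients of a set of classes -/
noncomputable def szC (S : Finset (Fin 6)) (a : Fin 6) : ℝ :=
  (if a ∈ S then 1 else 0) - (S.card : ℝ) / 6

theorem sum_szC (S : Finset (Fin 6)) : ∑ a, szC S a = 0 := by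
  unfold szC
  rw [sum_sub_distrib, sum_const, card_univ, Fintype.card_fin]
  have : ∑ a : Fin 6, (if a ∈ S then (1 : ℝ) else 0) = S.card := by
    rw [sum_boole]; congr 2; ext a; simp
  rw [this]
  simp only [nsmul_eq_mul]
  push_cast
  ring

theorem sum_szC_mul (S : Finset (Fin 6)) (f : Fin 6 → ℝ) :
    ∑ a, szC S a * f a = ∑ a ∈ S, f a - (S.card : ℝ) / 6 * ∑ a, f a := by
  classical
  unfold szC
  simp only [sub_mul]
  rw [sum_sub_distrib, ← mul_sum]
  congr 1
  have : ∀ a, (if a ∈ S then (1 : ℝ) else 0) * f a = if a ∈ S then f a else 0 := by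
    intro a; split_ifs <;> ring
  simp only [this]
  rw [← sum_filter]
  congr 1
  ext a; simp

theorem szC_card_le (S : Finset (Fin 6)) : (S.card : ℝ) ≤ 6 := by
  have h := card_le_univ S
  have : S.card ≤ 6 := by simpa using h
  exact_mod_cast this

theorem sum_abs_szC (S : Finset (Fin 6)) :
    ∑ a, |szC S a| = (S.card : ℝ) * (6 - S.card) / 3 := by
  classical
  have h6 := szC_card_le S
  have h0 : (0 : ℝ) ≤ S.card := Nat.cast_nonneg _
  have h1 : ∀ a, |szC S a| = (1 - (S.card : ℝ) / 3) * (if a ∈ S then 1 else 0) +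
      (S.card : ℝ) / 6 := by
    intro a
    unfold szC
    by_cases h : a ∈ S
    · rw [if_pos h, abs_of_nonneg (by linarith)]; ring
    · rw [if_neg h, abs_of_nonpos (by linarith)]; ring
  have h2 : ∑ a : Fin 6, (if a ∈ S then (1 : ℝ) else 0) = S.card := by
    rw [sum_boole]; congr 2; ext a; simp
  rw [sum_congr rfl fun a _ => h1 a, sum_add_distrib, ← mul_sum, h2, sum_const, card_univ,
    Fintype.card_fin]
  simp only [nsmul_eq_mul]
  push_cast
  ring

theorem sum_sq_cS (S : Finset (Fin 6)) :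
    ∑ a, szC S a ^ 2 = (S.card : ℝ) * (6 - S.card) / 6 := by
  classical
  have h1 : ∀ a, szC S a ^ 2 = (1 - (S.card : ℝ) / 3) * (if a ∈ S then 1 else 0) +
      ((S.card : ℝ) / 6) ^ 2 := by
    intro a
    unfold szC
    by_cases h : a ∈ S
    · rw [if_pos h]; ring
    · rw [if_neg h]; ring
  have h2 : ∑ a : Fin 6, (if a ∈ S then (1 : ℝ) else 0) = S.card := by
    rw [sum_boole]; congr 2; ext a; simp
  rw [sum_congr rfl fun a _ => h1 a, sum_add_distrib, ← mul_sum, h2, sum_const, card_univ,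
    Fintype.card_fin]
  simp only [nsmul_eq_mul]
  push_cast
  ring

/-- the total deviation of the sizes -/
theorem Dec.D1_le (D : Dec G w μ v X t) (δ D1 : ℝ)
    (h4 : ∀ J : Finset (Fin 6), ∑ a ∈ J, (eN G μ a - 3 * BN G μ a) ≤ δ) (ht : t ≤ rho)
    (hD : ∑ b, |v b - 1 / 6| = D1) :
    D1 ≤ 8 / 3 * xX X + 7 / 72 * (24 / 5 * mN G μ + δ + 168 * (rho - 2 / 7)) +
      7 / 6 * (D1 * (28 / 5 * mN G μ + δ + 92 * (rho - 2 / 7))) +
      7 / 2 * xX X * (9 * ((D1 + xX X) / 2 + (4 * mN G μ + δ + 71 * (rho - 2 / 7)) / 6) +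
        (rho - 2 / 7)) + 21 / 4 * (D1 ^ 2 + 2 * xX X ^ 2) := by
  classical
  have hμ := D.hμ
  have hξ0 : 0 ≤ xX X := sum_nonneg fun x _ => D.hX x
  have hm0 := mN_nonneg (G := G) hμ
  have hσ := two_sevenths_le_rho
  have hδ : 0 ≤ δ := by
    have := h4 ∅
    rwa [sum_empty] at this
  have hD0 : 0 ≤ D1 := by rw [← hD]; exact sum_nonneg fun b _ => abs_nonneg _
  set S : Finset (Fin 6) := univ.filter (fun a => 0 < v a - 1 / 6) with hS
  set n : ℝ := (S.card : ℝ) with hn
  have n0 : 0 ≤ n := Nat.cast_nonneg _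
  have n6 : n ≤ 6 := szC_card_le S
  have hsum := D.sum_s
  have e0 : D1 = 2 * ∑ a ∈ S, (v a - 1 / 6) + xX X := by
    have e1 := sum_add_sum_compl S (fun a => |v a - 1 / 6|)
    have e2 := sum_add_sum_compl S (fun a => v a - 1 / 6)
    have e3 : ∑ a ∈ S, |v a - 1 / 6| = ∑ a ∈ S, (v a - 1 / 6) :=
      sum_congr rfl fun a ha => abs_of_pos (mem_filter.1 ha).2
    have e4 : ∑ a ∈ Sᶜ, |v a - 1 / 6| = -∑ a ∈ Sᶜ, (v a - 1 / 6) := by
      rw [← sum_neg_distrib]
      refine sum_congr rfl fun a ha => abs_of_nonpos ?_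
      have h := mem_compl.1 ha
      rw [hS, mem_filter] at h
      push Not at h
      exact h (mem_univ a)
    linarith
  have hrest : 0 ≤ 7 / 72 * (24 / 5 * mN G μ + δ + 168 * (rho - 2 / 7)) +
      7 / 6 * (D1 * (28 / 5 * mN G μ + δ + 92 * (rho - 2 / 7))) +
      7 / 2 * xX X * (9 * ((D1 + xX X) / 2 + (4 * mN G μ + δ + 71 * (rho - 2 / 7)) / 6) +
        (rho - 2 / 7)) + 21 / 4 * (D1 ^ 2 + 2 * xX X ^ 2) := by
    have a1 : 0 ≤ D1 * (28 / 5 * mN G μ + δ + 92 * (rho - 2 / 7)) :=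
      mul_nonneg hD0 (by linarith)
    have a2 : 0 ≤ xX X * (9 * ((D1 + xX X) / 2 + (4 * mN G μ + δ + 71 * (rho - 2 / 7)) / 6) +
        (rho - 2 / 7)) := mul_nonneg hξ0 (by linarith)
    have a3 := sq_nonneg D1
    have a4 := sq_nonneg (xX X)
    linarith
  rcases Nat.eq_zero_or_pos S.card with h | hpos
  · have hSe : S = ∅ := card_eq_zero.1 h
    rw [hSe, sum_empty] at e0
    linarith
  rcases Nat.lt_or_ge S.card 6 with hlt | hge
  · have n1 : 1 ≤ n := by rw [hn]; exact_mod_cast hpos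
    have n5 : n ≤ 5 := by rw [hn]; exact_mod_cast (by omega : S.card ≤ 5)
    have habs : ∑ a, |szC S a| ≤ 3 := by
      rw [sum_abs_szC, ← hn]
      nlinarith [sq_nonneg (n - 3)]
    have hrs : ∀ b, |∑ a, szC S a * Rp G μ a b| ≤
        28 / 5 * mN G μ + δ + 92 * (rho - 2 / 7) := by
      intro b
      have h1 := Rsum_le hμ δ h4 b
      have h2 := YN_abs hμ δ h4 b
      have e : ∑ a, Rp G μ b a = ∑ a, Rp G μ a b := sum_congr rfl fun a _ => Rp_swap a b
      rw [e] at h2
      have h3 : ∑ a, szC S a * Rp G μ a b = (1 / 2 - n / 6) * ∑ a, Rp G μ a b +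
          ∑ a, (szC S a - (1 / 2 - n / 6)) * Rp G μ a b := by
        rw [mul_sum, ← sum_add_distrib]
        exact sum_congr rfl fun a _ => by ring
      have h5 : |∑ a, (szC S a - (1 / 2 - n / 6)) * Rp G μ a b| ≤ 1 / 2 * ∑ a, |Rp G μ a b| := by
        rw [mul_sum]
        refine (abs_sum_le_sum_abs _ _).trans (sum_le_sum fun a _ => ?_)
        rw [abs_mul]
        refine mul_le_mul_of_nonneg_right ?_ (abs_nonneg _)
        unfold szC
        rw [← hn, abs_le]
        split_ifs <;> constructor <;> linarith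
      have h6 : |(1 / 2 - n / 6) * ∑ a, Rp G μ a b| ≤ 1 / 3 * |∑ a, Rp G μ a b| := by
        rw [abs_mul]
        refine mul_le_mul_of_nonneg_right ?_ (abs_nonneg _)
        rw [abs_le]
        constructor <;> linarith
      rw [h3]
      have h7 := abs_add_le ((1 / 2 - n / 6) * ∑ a, Rp G μ a b)
        (∑ a, (szC S a - (1 / 2 - n / 6)) * Rp G μ a b)
      linarith
    have hmain := D.size_c (szC S) (sum_szC S) habs D1 _ _ hD (fun a b => Rp_abs hμ δ h4 a b) hrs
    have h1 : ∑ a, szC S a * YN G μ a = ∑ a ∈ S, YN G μ a - n / 6 * ∑ a, YN G μ a :=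
      sum_szC_mul S _
    have h2 : ∑ b, (v b - 1 / 6) * szC S b = ∑ a ∈ S, (v a - 1 / 6) + n / 6 * xX X := by
      have h3 := sum_szC_mul S (fun a => v a - 1 / 6)
      rw [hsum] at h3
      rw [← hn] at h3
      rw [sum_congr rfl fun b _ => mul_comm (v b - 1 / 6) (szC S b), h3]
      ring
    have h3 := Yc_le hμ δ h4 S
    rw [← hn] at h3
    rw [h1, h2, sum_sq_cS, ← hn] at hmain
    have h5 : 7 / 4 * xX X * (2 / 7 * (n * (6 - n) / 6) + 9 * ((D1 + xX X) / 2 +
        (4 * mN G μ + δ + 71 * (rho - 2 / 7)) / 6) + t) ≤ 7 / 4 * xX X *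
        (2 / 7 * (n * (6 - n) / 6) + 9 * ((D1 + xX X) / 2 +
        (4 * mN G μ + δ + 71 * (rho - 2 / 7)) / 6) + rho) :=
      mul_le_mul_of_nonneg_left (by linarith) (by linarith)
    have h6 : 0 ≤ xX X * (n - 2) ^ 2 := mul_nonneg hξ0 (sq_nonneg _)
    rw [e0]
    rw [e0] at hmain h5
    nlinarith [hmain, h3, h5, h6]
  · have hu : S = univ := by
      rw [← card_eq_iff_eq_univ, Fintype.card_fin]
      have := card_le_univ S
      rw [Fintype.card_fin] at this
      omega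
    rw [hu, hsum] at e0
    linarith

end Size2

end K4m
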