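import Mathlib
import Pool.Agent.Lib.MP_392c14_co.Acc.Mat
import Pool.Agent.Lib.MP_392c14_co.Acc.Size2
import Pool.Agent.Lib.MP_392c14_co.Acc.NuE2

/-!
# Fine bound of the sizes of a matched decomposition
-/

set_option autoImplicit false

namespace K4m

open Finset

theorem nlD_num (D1 m ξ σ : ℝ) (hD0 : 0 ≤ D1) (hm : 0 ≤ m) (hξ : 0 ≤ ξ)
    (hσ : σ ≤ 28572 / 100000 - 2 / 7) (h1 : m ≤ 978 / 100000 - 271 / 100 * ξ)
    (h2 : 14 * ξ + 469 / 100 * m ≤ 48 / 1000) (hd : D1 ≤ 11 / 1000)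
    (h : D1 ≤ 8 / 3 * ξ + 7 / 72 * (24 / 5 * m + (75 / 100 * ξ + 42 / 100 * m + 1 / 10 ^ 6) +
        168 * σ) +
      7 / 6 * (D1 * (28 / 5 * m + (75 / 100 * ξ + 42 / 100 * m + 1 / 10 ^ 6) + 92 * σ)) +
      7 / 2 * ξ * (9 * ((D1 + ξ) / 2 + (4 * m + (75 / 100 * ξ + 42 / 100 * m + 1 / 10 ^ 6) +
        71 * σ) / 6) + σ) + 21 / 4 * (D1 ^ 2 + 2 * ξ ^ 2)) :
    D1 ≤ 3 / 5 * m + 33 / 10 * ξ + 1 / 10 ^ 4 := by
  have x1 : ξ ≤ 343 / 100000 := by linarith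
  have a1 : D1 ^ 2 ≤ 11 / 1000 * D1 := by nlinarith
  have a2 : D1 * σ ≤ D1 * (6 / 10 ^ 6) := mul_le_mul_of_nonneg_left (by linarith) hD0
  have a3 : ξ * σ ≤ ξ * (6 / 10 ^ 6) := mul_le_mul_of_nonneg_left (by linarith) hξ
  have hm2 := mul_nonneg hm hm
  -- quasilinear form
  have b1 : D1 * (1 - (7 / 6 * (602 / 100 * m + 75 / 100 * ξ + 554 / 10 ^ 6) + 63 / 4 * ξ +
      231 / 4000)) ≤ 8 / 3 * ξ + 7 / 72 * (522 / 100 * m + 75 / 100 * ξ + 9611 / 10 ^ 7) +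
      7 / 2 * ξ * (9 * (ξ / 2 + (442 / 100 * m + 75 / 100 * ξ + 428 / 10 ^ 6) / 6) +
        6 / 10 ^ 6) + 21 / 2 * ξ ^ 2 := by
    nlinarith [a1, a2, a3]
  have s1 : 0 ≤ 978 / 100000 - 271 / 100 * ξ - m := by linarith
  have s2 : 0 ≤ 48 / 1000 - 14 * ξ - 469 / 100 * m := by linarith
  have b2 : 8 / 3 * ξ + 7 / 72 * (522 / 100 * m + 75 / 100 * ξ + 9611 / 10 ^ 7) +
      7 / 2 * ξ * (9 * (ξ / 2 + (442 / 100 * m + 75 / 100 * ξ + 428 / 10 ^ 6) / 6) +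
        6 / 10 ^ 6) + 21 / 2 * ξ ^ 2 ≤ (3 / 5 * m + 33 / 10 * ξ + 1 / 10 ^ 4) *
      (1 - (7 / 6 * (602 / 100 * m + 75 / 100 * ξ + 554 / 10 ^ 6) + 63 / 4 * ξ +
      231 / 4000)) := by
    nlinarith [mul_nonneg hm hξ, mul_nonneg hξ s1, mul_nonneg hξ s2, mul_nonneg hm s1,
      mul_nonneg hm s2, mul_nonneg hξ (sub_nonneg.2 x1)]
  have b3 : 0 < 1 - (7 / 6 * (602 / 100 * m + 75 / 100 * ξ + 554 / 10 ^ 6) + 63 / 4 * ξ +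
      231 / 4000) := by linarith
  exact le_of_mul_le_mul_right (b1.trans b2) b3

section M

variable {V : Type} [Fintype V] {G : TG V} {w : V → ℝ} {μ : Fin 6 → V → ℝ} {v : Fin 6 → ℝ}
  {X : V → ℝ} {t : ℝ} {c : V → Fin 6}

/-- fine bound of the sizes -/
theorem Mat.D1f (M : Mat G w μ v X t c) : ∑ a, |v a - 1 / 6| ≤ nlD (mN G μ) (xX X) := by
  have hr := M.r0; have hr1 := M.r1
  have h := M.dec.D1_le (75 / 100 * xX X + 42 / 100 * mN G μ + 1 / 10 ^ 6) _ M.delta M.tr rfl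
  exact nlD_num _ (mN G μ) (xX X) (rho - 2 / 7) (sum_nonneg fun b _ => abs_nonneg _) M.m0 M.x0
    (by linarith) M.m_le M.J0 M.D1 h

end M

end K4m
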