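import Mathlib
import Pool.Agent.Lib.MP_392c14_co.Acc.S1A

/-!
# Lower bound of the own densities: arithmetic of the elimination
-/

set_option autoImplicit false

namespace K4m

open Finset

/-- the class of the vertex -/
theorem nl_own (p ν Dd Y M P ν0 W : ℝ) (hp : 65 / 100 ≤ p) (hPp : P ≤ 1 - p)
    (hDl : 2 * (1 - P - p) ≤ Dd) (hDu : Dd ≤ 2 * (1 - p) + M) (hν : ν ≤ ν0)
    (hν1 : ν0 ≤ 1 / 4) (hM : M ≤ 1 / 50) (hW0 : 0 ≤ W) (hW : W ≤ 1 / 5) (hY : -W ≤ Y) :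
    p * ν + 7 / 12 * ((Dd + ν) * Y) ≤ p * ν0 + 7 / 6 * (1 - P) * Y +
      (7 / 6 * p - 7 / 12 * ν0) * W := by
  have hc : 0 ≤ 7 / 6 * p - 7 / 12 * ν0 := by linarith
  rcases le_total 0 Y with h | h
  · have h1 : p * ν ≤ p * ν0 := mul_le_mul_of_nonneg_left hν (by linarith)
    have h2 : (Dd + ν) * Y ≤ (2 * (1 - P)) * Y := mul_le_mul_of_nonneg_right (by linarith) h
    have h3 := mul_nonneg hc hW0
    nlinarith
  · have h2 : (Dd + ν) * Y ≤ (2 * (1 - P - p) + ν) * Y :=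
      mul_le_mul_of_nonpos_right (by linarith) h
    have h6 : ν * (p + 7 / 12 * Y) ≤ ν0 * (p + 7 / 12 * Y) :=
      mul_le_mul_of_nonneg_right hν (by linarith)
    have h7 : (7 / 6 * p - 7 / 12 * ν0) * (-Y) ≤ (7 / 6 * p - 7 / 12 * ν0) * W :=
      mul_le_mul_of_nonneg_left (by linarith) hc
    nlinarith

/-- the arithmetic of the lower bound of the own density -/
theorem nl_arith (p ν Dd Y M B e : Fin 6 → ℝ) (R P q ρ m χ δ y X0 c ν0 W : ℝ) (k : Fin 6)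
    (hp0 : ∀ a, 0 ≤ p a) (hpo : ∀ a, a ≠ k → p a ≤ 9 / 20) (hpk : 65 / 100 ≤ p k)
    (hP : P = 1 - ∑ a, p a) (hPs : 4 / 5 * (1 - p k) ≤ P)
    (hel : c * P + R ≤ 10 + ∑ a, p a * ν a + q * P + 3 * m)
    (hRL : 72 / 7 + ∑ a, (1 / 6 + 7 / 12 * (R / 6 - (Dd a + ν a))) * Y a - X0 ≤ R)
    (hDl : ∀ a, 2 * (1 - P - p a) ≤ Dd a) (hDu : ∀ a, Dd a ≤ 2 * (1 - p a) + M a)
    (hν0 : ∀ a, 0 ≤ ν a) (hνN : ∀ a, ν a ≤ ρ + 2 * B a - e a + χ)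
    (hq : q ≤ ρ + χ + 4 * m) (hq1 : q ≤ 47 / 140) (hc : 0 ≤ c)
    (hν1 : ∀ a, ν a ≤ 47 / 140)
    (hYM : ∀ a, 2 * B a - e a - Y a ≤ 2 * M a) (hM0 : ∀ a, 0 ≤ M a) (hMm : ∀ a, M a ≤ m)
    (hχ : 0 ≤ χ) (hm : m ≤ 1 / 50)
    (hset : ∀ S : Finset (Fin 6), ∑ a ∈ S, Y a ≤ 24 / 5 * m + 4 / 5 * ∑ a, Y a + 4 / 5 * δ)
    (hYs : ∑ a, Y a ≤ 210 * (ρ - 2 / 7))
    (hY : ∀ a, -(1 / 5) ≤ Y a) (hρ : 2 / 7 ≤ ρ)
    (hNl : ∀ a, 1 / 5 ≤ ρ + 2 * B a - e a + χ)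
    (hy : ∀ a, M a + (ρ + 2 * B a - e a + χ) ≤ y) (hy1 : 2 / 7 ≤ y) (hy2 : y ≤ 9 / 25)
    (hRl : 72 / 7 - 1 / 2 ≤ R) (hνk : ν k ≤ ν0) (hν2 : ν0 ≤ 1 / 4)
    (hW0 : 0 ≤ W) (hW : W ≤ 1 / 5) (hYk : -W ≤ Y k)
    (hsl : 0 ≤ 4 / 5 * (c - 2 * m - 7 / 6 * (24 / 5 * m + 4 / 5 * δ)) + ν0 + 7 / 6 * W -
      (ρ + 2 * m + χ)) (hsl2 : 0 ≤ c - 2 * m - 7 / 6 * (24 / 5 * m + 4 / 5 * δ)) :
    2 / 7 ≤ X0 + 3 * m + ν0 + (7 / 6 - 7 / 12 * ν0) * W + 7 / 12 * y * (24 / 5 * m + 4 / 5 * δ) +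
      47 * (ρ - 2 / 7) := by
  classical
  have hp' : ∑ a, p a = 1 - P := by linarith
  have hm0 : 0 ≤ m := (hM0 0).trans (hMm 0)
  have hsplit : ∀ f : Fin 6 → ℝ, ∑ a, f a = f k + ∑ a ∈ univ.erase k, f a := fun f =>
    (add_sum_erase univ f (mem_univ k)).symm
  have hpe : ∑ a ∈ univ.erase k, p a = 1 - P - p k := by
    have := hsplit p; linarith
  have hpe0 : 0 ≤ ∑ a ∈ univ.erase k, p a := sum_nonneg fun a _ => hp0 a
  have hPk : P ≤ 1 - p k := by linarith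
  have hPk1 : p k ≤ 1 := by
    have : 0 ≤ P := by
      by_contra hc0
      push Not at hc0
      have : 4 / 5 * (1 - p k) < 0 := by linarith
      linarith
    linarith
  have hP0 : 0 ≤ P := by linarith
  -- one class
  have hk := nl_own (p k) (ν k) (Dd k) (Y k) (M k) P ν0 W hpk hPk (hDl k) (hDu k) hνk hν2
    ((hMm k).trans hm) hW0 hW hYk
  have h1 := sum_le_sum (s := univ.erase k) fun a ha => s1_one (p a) (ν a) (Dd a) (Y a) (M a)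
    (B a) (e a) P ρ χ y (hp0 a) (hpo a (ne_of_mem_erase ha)) (hDl a) (hDu a) (hν0 a) (hνN a)
    (hYM a) (hM0 a) hχ (hNl a) (hY a) hρ (hy a)
  simp only [sum_add_distrib] at h1
  rw [← mul_sum, ← mul_sum, ← mul_sum] at h1
  have h2 : ∑ a ∈ univ.erase k, p a * (ρ + 2 * M a + χ) ≤
      (1 - P - p k) * (ρ + 2 * m + χ) := by
    rw [← hpe, sum_mul]
    exact sum_le_sum fun a _ => mul_le_mul_of_nonneg_left (by linarith [hMm a]) (hp0 a)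
  set S : Finset (Fin 6) := (univ.erase k).filter (fun a => 0 ≤ Y a) with hS
  have h3 : ∑ a ∈ univ.erase k, max (Y a) 0 = ∑ a ∈ S, Y a := by
    rw [hS, sum_filter]
    refine sum_congr rfl fun a _ => ?_
    by_cases h : 0 ≤ Y a
    · rw [if_pos h, max_eq_left h]
    · rw [if_neg h, max_eq_right (not_le.1 h).le]
  rw [h3] at h1
  set α := 7 / 12 * (2 * P + y) with hα
  have hα0 : 0 ≤ α := by rw [hα]; linarith
  have h4 : α * ∑ a ∈ S, Y a ≤ α * (24 / 5 * m + 4 / 5 * ∑ a, Y a + 4 / 5 * δ) :=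
    mul_le_mul_of_nonneg_left (hset S) hα0
  -- the expression in `R`
  have h5 : ∑ a, (1 / 6 + 7 / 12 * (R / 6 - (Dd a + ν a))) * Y a =
      (1 / 6 + 7 * R / 72) * ∑ a, Y a - 7 / 12 * ∑ a, (Dd a + ν a) * Y a := by
    rw [mul_sum, mul_sum, ← sum_sub_distrib]
    exact sum_congr rfl fun a _ => by ring
  rw [h5] at hRL
  have hRu : R ≤ 10 + 47 / 140 + 3 * m := by
    have k1 : ∑ a, p a * ν a ≤ (1 - P) * (47 / 140) := by
      rw [← hp', sum_mul]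
      exact sum_le_sum fun a _ => mul_le_mul_of_nonneg_left (hν1 a) (hp0 a)
    have k2 : q * P ≤ 47 / 140 * P := mul_le_mul_of_nonneg_right hq1 (by linarith)
    have k3 : 0 ≤ c * P := mul_nonneg hc (by linarith)
    nlinarith
  -- the coefficient of the sum of the deviations
  obtain ⟨κ, hκ⟩ : ∃ κ, κ = 7 / 15 * (2 * P + y) + 1 - 7 / 6 * P - 7 * R / 72 := ⟨_, rfl⟩
  have h6 : κ * ∑ a, Y a ≤ 47 * (ρ - 2 / 7) := by
    have k1 : κ ≤ 47 / 210 := by rw [hκ]; linarith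
    have k2 : 0 ≤ κ := by rw [hκ]; linarith
    have a1 : κ * ∑ a, Y a ≤ κ * (210 * (ρ - 2 / 7)) := mul_le_mul_of_nonneg_left hYs k2
    have a2 : κ * (210 * (ρ - 2 / 7)) ≤ 47 / 210 * (210 * (ρ - 2 / 7)) :=
      mul_le_mul_of_nonneg_right k1 (by linarith)
    linarith
  -- the sums over all the classes
  have e1 := hsplit (fun a => p a * ν a)
  have e2 := hsplit (fun a => (Dd a + ν a) * Y a)
  have e3 := hsplit Y
  have h7 : q * P ≤ (ρ + χ + 4 * m) * P := mul_le_mul_of_nonneg_right hq hP0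
  -- assemble
  have h8 : 2 / 7 ≤ X0 + 3 * m + p k * ν0 + (7 / 6 * p k - 7 / 12 * ν0) * W +
      (1 - P - p k) * (ρ + 2 * m + χ) + 7 / 12 * (2 * P + y) * (24 / 5 * m + 4 / 5 * δ) +
      (ρ + χ + 4 * m - c) * P + 47 * (ρ - 2 / 7) := by
    have e4 : 7 / 6 * (1 - P) * Y k + 7 / 6 * (1 - P) * ∑ a ∈ univ.erase k, Y a =
        7 / 6 * (1 - P) * ∑ a, Y a := by rw [e3]; ring
    have e5 : α * (24 / 5 * m + 4 / 5 * ∑ a, Y a + 4 / 5 * δ) =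
        7 / 12 * (2 * P + y) * (24 / 5 * m + 4 / 5 * δ) + 7 / 15 * (2 * P + y) * ∑ a, Y a := by
      rw [hα]; ring
    rw [hκ] at h6
    nlinarith [h1, hk, h2, h4, e1, e2, e4, e5, h6, h7, hRL, hel]
  obtain ⟨s, hs⟩ : ∃ s, s = 1 - p k := ⟨_, rfl⟩
  have s0 : 0 ≤ s := by linarith
  have hpk' : p k = 1 - s := by linarith
  rw [hpk'] at h8 hPs
  -- slopes
  have h9 : 0 ≤ (P - 4 / 5 * s) * (c - 2 * m - 7 / 6 * (24 / 5 * m + 4 / 5 * δ)) :=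
    mul_nonneg (by linarith) hsl2
  have h10 := mul_nonneg s0 hsl
  nlinarith

end K4m
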