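import Mathlib
import Pool.Agent.Lib.MP_392c14_co.Acc.Deg6
import Pool.Agent.Lib.MP_392c14_co.Acc.Delta2
import Pool.Agent.Lib.MP_392c14_co.Acc.Pass

/-!
# Upper bound for the own densities of every vertex
-/

set_option autoImplicit false

namespace K4m

open Finset Function

section NuB

variable {V : Type} [Fintype V]

theorem kk_eq_qd (G : TG V) (m : V → ℝ) (x : V) : kk G x m m = qd m (G.E x) := by
  unfold kk qd dg
  refine sum_congr rfl fun y _ => ?_
  rw [mul_sum]
  refine sum_congr rfl fun z _ => ?_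
  unfold lk ind
  ring

/-- the link of a vertex is symmetric -/
theorem link_symm (G : TG V) (x y z : V) : G.E x y z = G.E x z y := (G.symm₂ x y z).symm

/-- the link of a vertex has no triangles -/
theorem link_tri (G : TG V) (x y z t : V) :
    ¬ (G.E x y z = true ∧ G.E x y t = true ∧ G.E x z t = true) := G.free x y z t

/-- Mantel -/
theorem qd_le_half {m : V → ℝ} (hm : IsW m) {L : V → V → Bool} (hs : ∀ x y, L x y = L y x)
    (hT : ∀ x y t, ¬ (L x y = true ∧ L x t = true ∧ L y t = true)) : qd m L ≤ 1 / 2 := by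
  have h1 : ∀ x y, lk L x y * (dg m L x + dg m L y) ≤ lk L x y := by
    intro x y
    by_cases h : L x y = true
    · have e : lk L x y = 1 := by unfold lk; rw [if_pos h]
      rw [e, one_mul]
      unfold dg
      rw [← sum_add_distrib]
      calc ∑ z, (m z * lk L x z + m z * lk L y z) ≤ ∑ z, m z := by
            refine sum_le_sum fun z _ => ?_
            have hz := hm.nonneg z
            have hf := hT x y z
            unfold lk
            rcases h2 : L x z <;> rcases h3 : L y z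
            · simp; exact hz
            · simp
            · simp
            · exact absurd ⟨h, h2, h3⟩ hf
        _ = 1 := hm.sum_eq
    · have e : lk L x y = 0 := by unfold lk; rw [if_neg h]
      rw [e, zero_mul]
  have lsym : ∀ x y, lk L x y = lk L y x := by
    intro x y; unfold lk; rw [hs]
  have h2 : ∑ x, ∑ y, m x * m y * (lk L x y * (dg m L x + dg m L y)) ≤
      ∑ x, ∑ y, m x * m y * lk L x y :=
    sum_le_sum fun x _ => sum_le_sum fun y _ =>
      mul_le_mul_of_nonneg_left (h1 x y) (mul_nonneg (hm.nonneg x) (hm.nonneg y))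
  have e1 : ∑ x, ∑ y, m x * m y * lk L x y = qd m L := by
    unfold qd dg
    refine sum_congr rfl fun x _ => ?_
    rw [mul_sum]
    exact sum_congr rfl fun y _ => by ring
  have e2 : ∑ x, ∑ y, m x * m y * (lk L x y * dg m L x) = ∑ x, m x * dg m L x ^ 2 := by
    refine sum_congr rfl fun x _ => ?_
    have : ∑ y, m x * m y * (lk L x y * dg m L x) = (m x * dg m L x) * ∑ y, m y * lk L x y := by
      rw [mul_sum]; exact sum_congr rfl fun y _ => by ring
    rw [this]
    unfold dg; ring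
  have e3 : ∑ x, ∑ y, m x * m y * (lk L x y * dg m L y) = ∑ x, m x * dg m L x ^ 2 := by
    rw [sum_comm, ← e2]
    refine sum_congr rfl fun x _ => sum_congr rfl fun y _ => ?_
    rw [lsym y x]; ring
  have e4 : ∑ x, ∑ y, m x * m y * (lk L x y * (dg m L x + dg m L y)) =
      2 * ∑ x, m x * dg m L x ^ 2 := by
    simp only [mul_add, sum_add_distrib]
    rw [e2, e3]; ring
  rw [e4, e1] at h2
  have h3 : qd m L ^ 2 ≤ ∑ x, m x * dg m L x ^ 2 := by
    have h4 : 0 ≤ ∑ x, m x * (dg m L x - qd m L) ^ 2 :=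
      sum_nonneg fun x _ => mul_nonneg (hm.nonneg x) (sq_nonneg _)
    have h5 : ∑ x, m x * (dg m L x - qd m L) ^ 2 = ∑ x, m x * dg m L x ^ 2 -
        2 * qd m L * ∑ x, m x * dg m L x + qd m L ^ 2 * ∑ x, m x := by
      rw [mul_sum, mul_sum, ← sum_sub_distrib, ← sum_add_distrib]
      exact sum_congr rfl fun x _ => by ring
    have h6 : ∑ x, m x * dg m L x = qd m L := rfl
    rw [h5, h6, hm.sum_eq] at h4
    nlinarith
  by_contra hcon
  push Not at hcon
  nlinarith

theorem kk_le_half (G : TG V) {m : V → ℝ} (hm : IsW m) (x : V) : kk G x m m ≤ 1 / 2 := by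
  rw [kk_eq_qd]
  exact qd_le_half hm (link_symm G x) (link_tri G x)

variable {G : TG V} {w : V → ℝ} {μ : Fin 6 → V → ℝ} {v : Fin 6 → ℝ}
  {X : V → ℝ} {t : ℝ}

/-- upper bound for the own densities of every vertex -/
theorem Dec.nu_bd (D : Dec G w μ v X t) (a : Fin 6) (S : V → Bool)
    (hS : ∀ x, v a * μ a x = w x * ind (S x)) (hval : rho - 1 / 10 ^ 12 ≤ val G w)
    (hvt : val G w = t) (vm D1 N : ℝ) (hvm : 3 / 25 ≤ vm) (hv : ∀ a, vm ≤ v a)
    (hD : ∑ b, |v b - 1 / 6| ≤ D1) (hN : ∀ y, kk G y (μ a) (μ a) ≤ N) (x : V) :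
    kk G x (μ a) (μ a) ≤ rho + 2 * BN G μ a - eN G μ a + 4 * (D1 / vm) * mN G μ +
      2 * xX X * N / vm + 1 / 10 ^ 4 := by
  have hvm0 : 0 < vm := by linarith
  have hva := D.hv a
  have hvma := hv a
  have h1 := D.nu_le a S hS (1 / 10 ^ 6) (by norm_num) (by norm_num)
    (by norm_num at hval ⊢; exact hval) hvt x
  have hξ0 : 0 ≤ xX X := sum_nonneg fun x _ => D.hX x
  have hT : tri G (μ a) (μ a) X ≤ xX X * N := by
    have e : tri G (μ a) (μ a) X = ∑ y, X y * kk G y (μ a) (μ a) := by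
      rw [← tri_eq_kk]
      rw [tri_swap23, tri_swap12]
    rw [e]
    unfold xX
    rw [sum_mul]
    exact sum_le_sum fun y _ => mul_le_mul_of_nonneg_left (hN y) (D.hX y)
  have N0 : 0 ≤ N := (kk_nonneg G x _ _ (D.hμ a).nonneg (D.hμ a).nonneg).trans (hN x)
  have D0 : 0 ≤ D1 := (sum_nonneg fun b _ => abs_nonneg _).trans hD
  -- ratios
  have h2 : ∑ j, nee a j * (v j * tt G μ a a j) ≤ v a * BN G μ a + D1 * BN G μ a := by
    unfold BN
    rw [mul_sum, mul_sum, ← sum_add_distrib]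
    refine sum_le_sum fun j _ => ?_
    have k1 : v j - v a ≤ D1 := by
      have := two_abs_le (fun b => v b - 1 / 6) D1 hD j a
      have := (abs_le.1 this).2
      linarith
    have k2 : 0 ≤ nee a j * tt G μ a a j :=
      mul_nonneg (nee_nonneg _ _) (tt_nonneg D.hμ _ _ _)
    nlinarith
  have hB0 := BN_nonneg (G := G) D.hμ a
  have hB1 := BN_le (G := G) D.hμ a
  have hM1 := MN_le (G := G) D.hμ a
  have hm0 := mN_nonneg (G := G) D.hμ
  -- multiply the claim by `v a ^ 2`
  have hva2 : 0 < v a ^ 2 := pow_pos hva 2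
  have goal2 : v a ^ 2 * kk G x (μ a) (μ a) ≤ v a ^ 2 * (rho + 2 * BN G μ a - eN G μ a +
      4 * (D1 / vm) * mN G μ + 2 * xX X * N / vm + 1 / 10 ^ 4) := by
    have e1 : tt G μ a a a = rho - eN G μ a := by unfold eN; ring
    have k1 : v a * (D1 * (2 * mN G μ)) ≤ v a ^ 2 * (D1 / vm * (2 * mN G μ)) := by
      have : v a * D1 ≤ v a ^ 2 * (D1 / vm) := by
        have h3 : D1 ≤ v a * (D1 / vm) := by
          rw [mul_div_assoc', le_div_iff₀ hvm0]
          nlinarith
        calc v a * D1 ≤ v a * (v a * (D1 / vm)) := mul_le_mul_of_nonneg_left h3 hva.le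
          _ = _ := by ring
      nlinarith
    have k2 : v a * (xX X * N) ≤ v a ^ 2 * (xX X * N / vm) := by
      have h3 : xX X * N ≤ v a * (xX X * N / vm) := by
        rw [mul_div_assoc', le_div_iff₀ hvm0]
        have := mul_nonneg hξ0 N0
        nlinarith
      calc v a * (xX X * N) ≤ v a * (v a * (xX X * N / vm)) :=
            mul_le_mul_of_nonneg_left h3 hva.le
        _ = _ := by ring
    have k3 : 1 / 10 ^ 6 + (1 / 10 ^ 6) ^ 2 ≤ v a ^ 2 * (1 / 10 ^ 4) := by
      have : (3 / 25 : ℝ) ^ 2 ≤ v a ^ 2 := pow_le_pow_left₀ (by norm_num) (by linarith) 2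
      nlinarith
    have k4 : D1 * BN G μ a ≤ D1 * (2 * mN G μ) := mul_le_mul_of_nonneg_left (by linarith) D0
    have k5 := mul_le_mul_of_nonneg_left (h2.trans (add_le_add le_rfl k4)) hva.le
    have k6 := mul_le_mul_of_nonneg_left hT hva.le
    rw [e1] at h1
    have e2 : v a ^ 2 * (rho + 2 * BN G μ a - eN G μ a + 4 * (D1 / vm) * mN G μ +
      2 * xX X * N / vm + 1 / 10 ^ 4) = v a ^ 2 * (rho - eN G μ a) + 2 * (v a ^ 2 * BN G μ a) +
      2 * (v a ^ 2 * (D1 / vm * (2 * mN G μ))) + 2 * (v a ^ 2 * (xX X * N / vm)) +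
      v a ^ 2 * (1 / 10 ^ 4) := by ring
    rw [e2]
    have e3 : v a * (v a * BN G μ a + D1 * (2 * mN G μ)) = v a ^ 2 * BN G μ a +
      v a * (D1 * (2 * mN G μ)) := by ring
    rw [e3] at k5
    linarith
  exact le_of_mul_le_mul_left goal2 hva2

/-- the expected number of pairs of a transversal -/
theorem E6_DD_eq (G : TG V) {μ : Fin 6 → V → ℝ} (hμ : ∀ a, IsW (μ a)) (x : V) :
    2 * E6 μ (DD (G.E x)) = ∑ a, Dn G μ x a := by
  have h1 : ∀ i j : Fin 6, i ≠ j → E6 μ (fun z => lk (G.E x) (z i) (z j)) =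
      kk G x (μ i) (μ j) := by
    intro i j hij
    rw [← E6_ind2 G hμ x i j hij]
    rfl
  have h2 : E6 μ (DD (G.E x)) = kk G x (μ 0) (μ 1) + kk G x (μ 0) (μ 2) + kk G x (μ 0) (μ 3) +
      kk G x (μ 0) (μ 4) + kk G x (μ 0) (μ 5) + kk G x (μ 1) (μ 2) + kk G x (μ 1) (μ 3) +
      kk G x (μ 1) (μ 4) + kk G x (μ 1) (μ 5) + kk G x (μ 2) (μ 3) + kk G x (μ 2) (μ 4) +
      kk G x (μ 2) (μ 5) + kk G x (μ 3) (μ 4) + kk G x (μ 3) (μ 5) + kk G x (μ 4) (μ 5) := by
    unfold DD
    rw [E6_add, E6_add, E6_add, E6_add, E6_add, E6_add, E6_add, E6_add, E6_add, E6_add,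
      E6_add, E6_add, E6_add, E6_add,
      h1 0 1 (by decide), h1 0 2 (by decide), h1 0 3 (by decide), h1 0 4 (by decide),
      h1 0 5 (by decide), h1 1 2 (by decide), h1 1 3 (by decide), h1 1 4 (by decide),
      h1 1 5 (by decide), h1 2 3 (by decide), h1 2 4 (by decide), h1 2 5 (by decide),
      h1 3 4 (by decide), h1 3 5 (by decide), h1 4 5 (by decide)]
  rw [h2]
  unfold Dn nee
  simp only [Fin.sum_univ_six]
  rw [kk_swap G x (μ 0) (μ 1), kk_swap G x (μ 0) (μ 2), kk_swap G x (μ 0) (μ 3),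
    kk_swap G x (μ 0) (μ 4), kk_swap G x (μ 0) (μ 5), kk_swap G x (μ 1) (μ 2),
    kk_swap G x (μ 1) (μ 3), kk_swap G x (μ 1) (μ 4), kk_swap G x (μ 1) (μ 5),
    kk_swap G x (μ 2) (μ 3), kk_swap G x (μ 2) (μ 4), kk_swap G x (μ 2) (μ 5),
    kk_swap G x (μ 3) (μ 4), kk_swap G x (μ 3) (μ 5), kk_swap G x (μ 4) (μ 5)]
  simp
  ring

/-- the uniform degree of a vertex -/
theorem RR_dl (x : V) : RR G μ (dl x) = ∑ a, (Dn G μ x a + kk G x (μ a) (μ a)) := by
  unfold RR Dp
  refine sum_congr rfl fun b _ => ?_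
  simp only [tri_dl]
  unfold Dn
  have h : ∀ c, kk G x (μ b) (μ c) = nee b c * kk G x (μ b) (μ c) +
      (if b = c then kk G x (μ b) (μ c) else 0) := by
    intro c
    unfold nee
    by_cases h : b = c
    · rw [if_pos h, if_pos h]; ring
    · rw [if_neg h, if_neg h]; ring
  rw [sum_congr rfl fun c _ => h c, sum_add_distrib, sum_ite_eq, if_pos (mem_univ _)]

theorem Dp_dl (x : V) (a : Fin 6) : Dp G μ (dl x) a = Dn G μ x a + kk G x (μ a) (μ a) := by
  unfold Dp
  simp only [tri_dl]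
  unfold Dn
  have h : ∀ c, kk G x (μ a) (μ c) = nee a c * kk G x (μ a) (μ c) +
      (if a = c then kk G x (μ a) (μ c) else 0) := by
    intro c
    unfold nee
    by_cases h : a = c
    · rw [if_pos h, if_pos h]; ring
    · rw [if_neg h, if_neg h]; ring
  rw [sum_congr rfl fun c _ => h c, sum_add_distrib, sum_ite_eq, if_pos (mem_univ _)]

end NuB

end K4m
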