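import Mathlib
import Pool.Agent.Lib.MP_392c14_co.Acc.NuB
import Pool.Agent.Lib.MP_392c14_co.Acc.RBd

/-!
# First stage: crude bounds for the coefficients of the test vector
-/

set_option autoImplicit false

namespace K4m

open Finset Function

theorem mh_le (f : Fin 6 → ℝ) (hs : ∑ a, f a = 1) (hl : ∀ a, -(9 / 40) ≤ f a)
    (hu : ∀ a, f a ≤ 6 / 5) : ∑ a, |f a| ≤ 14 / 5 := by
  classical
  set S : Finset (Fin 6) := univ.filter (fun a => f a < 0) with hS
  have h1 : ∑ a, |f a| = 1 - 2 * ∑ a ∈ S, f a := by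
    have e1 := sum_add_sum_compl S (fun a => |f a|)
    have e2 := sum_add_sum_compl S f
    have e3 : ∑ a ∈ S, |f a| = -∑ a ∈ S, f a := by
      rw [← sum_neg_distrib]
      exact sum_congr rfl fun a ha => abs_of_neg (mem_filter.1 ha).2
    have e4 : ∑ a ∈ Sᶜ, |f a| = ∑ a ∈ Sᶜ, f a := by
      refine sum_congr rfl fun a ha => abs_of_nonneg ?_
      have h := mem_compl.1 ha
      rw [hS, mem_filter] at h
      push Not at h
      exact h (mem_univ a)
    linarith
  have hcc : S.card + Sᶜ.card = 6 := by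
    have := card_add_card_compl S
    simpa using this
  rcases Nat.lt_or_ge S.card 5 with h | h
  · have h2 : -(S.card : ℝ) * (9 / 40) ≤ ∑ a ∈ S, f a := by
      have := card_nsmul_le_sum S f (-(9 / 40)) (fun a _ => hl a)
      rw [nsmul_eq_mul] at this
      linarith
    have h3 : (S.card : ℝ) ≤ 4 := by exact_mod_cast (by omega : S.card ≤ 4)
    linarith
  · have h2 : ∑ a ∈ Sᶜ, f a ≤ (Sᶜ.card : ℝ) * (6 / 5) := by
      have := sum_le_card_nsmul Sᶜ f (6 / 5) (fun a _ => hu a)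
      rwa [nsmul_eq_mul] at this
    have h3 : (Sᶜ.card : ℝ) ≤ 1 := by exact_mod_cast (by omega : Sᶜ.card ≤ 1)
    have e2 := sum_add_sum_compl S f
    linarith

/-- row sums against coefficients in an interval -/
theorem rh_le (f r : Fin 6 → ℝ) (y0 rs : ℝ) (hl : ∀ a, -(9 / 40) ≤ f a) (hu : ∀ a, f a ≤ 6 / 5)
    (hy : |∑ a, r a| ≤ y0) (hr : ∑ a, |r a| ≤ rs) :
    |∑ a, f a * r a| ≤ 39 / 80 * y0 + 57 / 80 * rs := by
  have h1 : ∑ a, f a * r a = 39 / 80 * ∑ a, r a + ∑ a, (f a - 39 / 80) * r a := by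
    rw [mul_sum, ← sum_add_distrib]
    exact sum_congr rfl fun a _ => by ring
  have h2 : |∑ a, (f a - 39 / 80) * r a| ≤ 57 / 80 * ∑ a, |r a| := by
    rw [mul_sum]
    refine (abs_sum_le_sum_abs _ _).trans (sum_le_sum fun a _ => ?_)
    rw [abs_mul]
    refine mul_le_mul_of_nonneg_right ?_ (abs_nonneg _)
    rw [abs_le]
    constructor <;> linarith [hl a, hu a]
  rw [h1]
  calc |39 / 80 * ∑ a, r a + ∑ a, (f a - 39 / 80) * r a| ≤
      |39 / 80 * ∑ a, r a| + |∑ a, (f a - 39 / 80) * r a| := abs_add_le _ _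
    _ = 39 / 80 * |∑ a, r a| + |∑ a, (f a - 39 / 80) * r a| := by
        rw [abs_mul, abs_of_pos (by norm_num : (0:ℝ) < 39 / 80)]
    _ ≤ _ := by linarith

section RLow

variable {V : Type} [Fintype V] {G : TG V} {w : V → ℝ} {μ : Fin 6 → V → ℝ} {v : Fin 6 → ℝ}
  {X : V → ℝ} {t : ℝ}

/-- crude lower bound for the uniform degree -/
theorem Dec.R_low (D : Dec G w μ v X t) (p : V → ℝ) (hp : IsW p) (D1 Dm : ℝ)
    (hD : ∑ b, |v b - 1 / 6| = D1) (hDm : ∀ b, Dp G μ p b ≤ Dm) :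
    36 * t - 18 * (D1 ^ 2 + xX X ^ 2) - 6 * (D1 - xX X) * Dm - 72 * xX X ≤ RR G μ p := by
  have h0 : tri G p w w = t := by
    rw [tri_eq_sum_deg]
    have : ∀ x, p x * deg G w x = t * p x := fun x => by rw [D.hdeg]; ring
    rw [sum_congr rfl fun x _ => this x, ← mul_sum, hp.sum_eq, mul_one]
  have hw := D.w_eq
  have h1 : tri G p w w = tri G p (ws μ) (ws μ) + tri G p (es μ v) (es μ v) + tri G p X X +
      2 * tri G p (ws μ) (es μ v) + 2 * tri G p (ws μ) X + 2 * tri G p (es μ v) X := by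
    rw [hw, quad3]
  have h2 : tri G p X w = tri G p X (ws μ) + tri G p X (es μ v) + tri G p X X := by
    rw [hw]
    have e : (fun y => ws μ y + es μ v y + X y) =
      fun y => (fun y => ws μ y + es μ v y) y + X y := rfl
    rw [e, tri_pl3, tri_pl3]
  have h3 : tri G p (ws μ) (es μ v) = 1 / 6 * ∑ b, (v b - 1 / 6) * Dp G μ p b := by
    rw [tri_es, mul_sum]
    refine sum_congr rfl fun b _ => ?_
    rw [tri_swap23, tri_ws_b]; ring
  have h4 := tri_ws_ws (G := G) (μ := μ) p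
  have h5 := tri_swap23 G p X (ws μ)
  have h6 := tri_swap23 G p X (es μ v)
  have hξ0 : 0 ≤ xX X := sum_nonneg fun x _ => D.hX x
  -- the parts
  have k1 : tri G p (es μ v) (es μ v) ≤ (D1 ^ 2 + xX X ^ 2) / 2 := by
    rw [tri_es_es]
    exact (abs_le.1 (quad_s _ (fun b c => tri G p (μ b) (μ c))
      (fun b c => tri_W_nonneg _ _ _ hp.nonneg (D.hμ b).nonneg (D.hμ c).nonneg)
      (fun b c => tri_W_le_one _ D.hμ hp b c) (xX X) D1 D.sum_s hD)).2
  have k2 : 0 ≤ tri G p X X := tri_W_nonneg p X X hp.nonneg D.hX D.hX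
  have k3 : tri G p X w ≤ xX X := by
    have := tri_le_mass G p X w hp.nonneg D.hX D.hw.nonneg
    rw [hp.sum_eq, D.hw.sum_eq, one_mul, mul_one] at this
    exact this
  have hDp0 : ∀ b, 0 ≤ Dp G μ p b := fun b =>
    sum_nonneg fun c _ => tri_W_nonneg _ _ _ hp.nonneg (D.hμ b).nonneg (D.hμ c).nonneg
  have k4 : ∑ b, (v b - 1 / 6) * Dp G μ p b ≤ (D1 - xX X) / 2 * Dm := by
    have a1 : ∀ b, (v b - 1 / 6) * Dp G μ p b ≤ (|v b - 1 / 6| + (v b - 1 / 6)) / 2 * Dm := by
      intro b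
      rcases le_total 0 (v b - 1 / 6) with h | h
      · rw [abs_of_nonneg h]
        calc (v b - 1 / 6) * Dp G μ p b ≤ (v b - 1 / 6) * Dm :=
              mul_le_mul_of_nonneg_left (hDm b) h
          _ = _ := by ring
      · rw [abs_of_nonpos h]
        have := mul_nonpos_of_nonpos_of_nonneg h (hDp0 b)
        linarith
    have a2 := sum_le_sum (s := univ) fun b _ => a1 b
    have a3 : ∑ b, (|v b - 1 / 6| + (v b - 1 / 6)) / 2 * Dm = (D1 - xX X) / 2 * Dm := by
      rw [← sum_mul, ← sum_div, sum_add_distrib, hD, D.sum_s]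
      ring
    rw [a3] at a2
    exact a2
  have h7 : RR G μ p = ∑ b, Dp G μ p b := rfl
  rw [← h7] at h4
  rw [h0] at h1
  linarith

end RLow

end K4m
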