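import Mathlib
import Pool.Agent.Lib.MP_392c14_co.Z8M
import Pool.Agent.Lib.MP_392c14_co.Purity3
import Pool.Agent.Lib.MP_392c14_co.Acc.S1B
import Pool.Agent.Lib.MP_392c14_co.Acc.NuE1
import Pool.Agent.Lib.MP_392c14_co.Acc.NuE2

/-!
# Lower bound of the own density of a vertex from the elimination inequality
-/

set_option autoImplicit false

namespace K4m

open Finset Function

section Pure

variable {V : Type} [Fintype V] {μ : Fin 6 → V → ℝ} {L : V → V → Bool}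

theorem pure_poly {r : ℝ} (h0 : 93 / 100 ≤ r) (h1 : r ≤ 1) :
    1 - (3 * r ^ 5 - 2 * r ^ 6) ≤ 63 / 100 * (1 - r ^ 6) := by
  have e : 63 / 100 * (1 - r ^ 6) - (1 - (3 * r ^ 5 - 2 * r ^ 6)) =
      (1 - r) * (263 / 100 * r ^ 5 - 37 / 100 * (r ^ 4 + r ^ 3 + r ^ 2 + r + 1)) := by ring
  have h2 : 0 ≤ 263 / 100 * r ^ 5 - 37 / 100 * (r ^ 4 + r ^ 3 + r ^ 2 + r + 1) := by
    have r0 : 0 ≤ r := by linarith
    rcases le_total (95 / 100) r with h | h
    · have a5 := pow_le_pow_left₀ (by norm_num : (0 : ℝ) ≤ 95 / 100) h 5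
      have a4 := pow_le_one₀ (n := 4) r0 h1
      have a3 := pow_le_one₀ (n := 3) r0 h1
      have a2 := pow_le_one₀ (n := 2) r0 h1
      norm_num at a5
      linarith
    · have a5 := pow_le_pow_left₀ (by norm_num : (0 : ℝ) ≤ 93 / 100) h0 5
      have a4 := pow_le_pow_left₀ r0 h 4
      have a3 := pow_le_pow_left₀ r0 h 3
      have a2 := pow_le_pow_left₀ r0 h 2
      norm_num at a5 a4 a3 a2
      linarith
  have h3 := mul_nonneg (sub_nonneg.2 h1) h2
  linarith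

/-- a dominating pentagon leaves little room for the other pentagons -/
theorem pure_rest (h0 : ∀ i v, 0 ≤ μ i v) (h1 : ∀ i, ∑ v, μ i v = 1)
    (hs : ∀ x y, L x y = L y x)
    (ht : ∀ x y t, ¬ (L x y = true ∧ L y t = true ∧ L x t = true)) {k : Fin 6}
    (hk : 65 / 100 ≤ pProb μ L k) :
    (∀ a, a ≠ k → pProb μ L a ≤ 9 / 20) ∧
      4 / 5 * (1 - pProb μ L k) ≤ 1 - ∑ a, pProb μ L a := by
  obtain ⟨r, hr, h6⟩ := exists_root μ L h0
  have hF := purity_LW μ L h0 h1 hs ht hr h6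
  have h3 := root_cube μ L h0 h1 hr h6
  have hr1 := root_le_one μ L h0 h1 hr h6
  have hk6 : 65 / 100 ≤ r k ^ 6 := by rw [h6]; exact hk
  have hk3 : 806 / 1000 ≤ r k ^ 3 := by
    by_contra hc
    push Not at hc
    have h := pow_le_pow_left₀ (pow_nonneg (hr k) 3) hc.le 2
    have e : (r k ^ 3) ^ 2 = r k ^ 6 := by ring
    rw [e] at h
    norm_num at h
    linarith
  have hk1 : 93 / 100 ≤ r k := by
    by_contra hc
    push Not at hc
    have h := pow_le_pow_left₀ (hr k) hc.le 3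
    norm_num at h
    linarith
  have hj : ∀ a, a ≠ k → r a ≤ 58 / 100 := by
    intro a ha
    refine rootn_le (hr a) (by norm_num) (n := 3) (by norm_num) ?_
    have := h3 a k ha
    norm_num
    linarith
  constructor
  · intro a ha
    rw [← h6 a]
    have h := pow_le_pow_left₀ (hr a) (hj a ha) 6
    norm_num at h ⊢
    linarith
  · have e1 : ∑ a, pProb μ L a = ∑ a, r a ^ 6 := sum_congr rfl fun a _ => (h6 a).symm
    rw [e1, ← h6 k]
    have e2 := (add_sum_erase univ (fun a => r a ^ 6) (mem_univ k))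
    have e3 := (add_sum_erase univ (fun a => 3 * r a ^ 5 - 2 * r a ^ 6) (mem_univ k))
    have h4 : 317 / 100 * ∑ a ∈ univ.erase k, r a ^ 6 ≤
        ∑ a ∈ univ.erase k, (3 * r a ^ 5 - 2 * r a ^ 6) := by
      rw [mul_sum]
      refine sum_le_sum fun a ha => ?_
      have h5 := hj a (ne_of_mem_erase ha)
      have h7 : 0 ≤ r a ^ 5 * (3 - 517 / 100 * r a) :=
        mul_nonneg (pow_nonneg (hr a) 5) (by linarith)
      nlinarith
    have h5 := pure_poly hk1 (hr1 k)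
    have h8 := pow_le_one₀ (n := 6) (hr k) (hr1 k)
    beta_reduce at e2 e3
    linarith

end Pure

section NuE

variable {V : Type} [Fintype V] {G : TG V} {w : V → ℝ} {μ : Fin 6 → V → ℝ} {v : Fin 6 → ℝ}
  {X : V → ℝ} {t : ℝ}

/-- lower bound of the own density from the elimination inequality -/
theorem Dec.nu_elim (D : Dec G w μ v X t) (S : Fin 6 → V → Bool)
    (hS : ∀ a x, v a * μ a x = w x * ind (S a x))
    (hval : rho - 1 / 10 ^ 12 ≤ val G w) (hvt : val G w = t) (hρ : rho ≤ 28572 / 100000)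
    (hv : ∀ a, 79 / 500 ≤ v a)
    (hD : ∑ b, |v b - 1 / 6| ≤ nlD (mN G μ) (xX X))
    (h4 : ∀ J : Finset (Fin 6), ∑ a ∈ J, (eN G μ a - 3 * BN G μ a) ≤ nlδ (mN G μ) (xX X))
    (hmx : mN G μ ≤ 102 / 10000 - 271 / 100 * xX X) (x1 : xX X ≤ 343 / 100000) (x : V)
    (k : Fin 6) (hpk : 65 / 100 ≤ pProb μ (G.E x) k) : 18 / 100 ≤ kk G x (μ k) (μ k) := by
  classical
  by_contra hcon
  push Not at hcon
  obtain ⟨m, hm⟩ : ∃ m, m = mN G μ := ⟨_, rfl⟩
  obtain ⟨ξ, hξ⟩ : ∃ ξ, ξ = xX X := ⟨_, rfl⟩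
  obtain ⟨D1, hD1⟩ : ∃ D1, D1 = ∑ b, |v b - 1 / 6| := ⟨_, rfl⟩
  have hμ := D.hμ
  have m0 : 0 ≤ m := by rw [hm]; exact mN_nonneg hμ
  have ξ0 : 0 ≤ ξ := by rw [hξ]; exact D.xX_nonneg
  rw [← hm, ← hξ] at hmx
  rw [← hξ] at x1
  rw [← hm, ← hξ] at h4
  rw [← hD1, ← hm, ← hξ] at hD
  have hD' : D1 ≤ nlD m ξ := hD
  have D10 : 0 ≤ D1 := by rw [hD1]; exact sum_nonneg fun b _ => abs_nonneg _
  have hρ0 := two_sevenths_le_rho
  have htρ : t ≤ rho := by rw [← hvt]; exact val_le_rho G w D.hw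
  have htl : rho - 1 / 10 ^ 12 ≤ t := by rw [← hvt]; exact hval
  have n1 := nlD_le hmx x1
  have n2 := nlδ_le ξ0 hmx
  have n3 := nlχ_le m0 ξ0 hmx
  have n4 := nlδ_nonneg m0 ξ0
  have n5 := nlD_nonneg m0 ξ0
  have n6 := nlχ_nonneg m0 ξ0
  have m1 : m ≤ 102 / 10000 := by linarith
  -- own densities
  have hν1 : ∀ a y, kk G y (μ a) (μ a) ≤ 47 / 140 := by
    intro a y
    have h := D.nu_bd a (S a) (hS a) hval hvt (79 / 500) (nlD m ξ) (1 / 2) (by norm_num) hv
      (by rw [← hD1]; exact hD') (fun z => kk_le_half G (hμ a) z) y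
    rw [← hm, ← hξ] at h
    refine h.trans (le_trans ?_ (nl_nu1 m0 ξ0 hmx rho hρ))
    have b1 := BN_le (G := G) hμ a
    have b2 := MN_le (G := G) hμ a
    have b3 := eN_nonneg (G := G) hμ a
    rw [← hm] at b2
    have a1 : 4 * (nlD m ξ / (79 / 500)) * m ≤ 127 / 5 * (nlD m ξ * m) := by
      have := mul_nonneg n5 m0
      have e : 4 * (nlD m ξ / (79 / 500)) * m = 2000 / 79 * (nlD m ξ * m) := by ring
      rw [e]; nlinarith
    have a2 : 2 * ξ * (1 / 2) / (79 / 500) ≤ 19 / 3 * ξ := by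
      have e : 2 * ξ * (1 / 2) / (79 / 500) = 500 / 79 * ξ := by ring
      rw [e]; nlinarith
    linarith
  have hνN : ∀ a, kk G x (μ a) (μ a) ≤ rho + 2 * BN G μ a - eN G μ a + nlχ m ξ := by
    intro a
    have h := D.nu_bd a (S a) (hS a) hval hvt (79 / 500) (nlD m ξ) (47 / 140) (by norm_num) hv
      (by rw [← hD1]; exact hD') (fun z => hν1 a z) x
    rw [← hm, ← hξ] at h
    refine h.trans ?_
    have a1 : 4 * (nlD m ξ / (79 / 500)) * m ≤ 127 / 5 * (nlD m ξ * m) := by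
      have := mul_nonneg n5 m0
      have e : 4 * (nlD m ξ / (79 / 500)) * m = 2000 / 79 * (nlD m ξ * m) := by ring
      rw [e]; nlinarith
    have a2 : 2 * ξ * (47 / 140) / (79 / 500) ≤ 17 / 4 * ξ := by
      have e : 2 * ξ * (47 / 140) / (79 / 500) = (47 * 500) / (70 * 79) * ξ := by ring
      rw [e]; nlinarith
    unfold nlχ
    linarith
  -- local quantities
  have bM0 : ∀ a, 0 ≤ MN G μ a := fun a => MN_nonneg hμ a
  have bMm : ∀ a, MN G μ a ≤ m := fun a => by rw [hm]; exact MN_le hμ a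
  have bB : ∀ a, BN G μ a ≤ 2 * MN G μ a := fun a => BN_le hμ a
  have bB0 : ∀ a, 0 ≤ BN G μ a := fun a => BN_nonneg hμ a
  have be : ∀ a, eN G μ a ≤ 3 * BN G μ a + nlδ m ξ := fun a => by
    have := h4 {a}
    rw [sum_singleton] at this
    linarith
  have be0 : ∀ a, 0 ≤ eN G μ a := fun a => eN_nonneg hμ a
  have hNl : ∀ a, 1 / 5 ≤ rho + 2 * BN G μ a - eN G μ a + nlχ m ξ := fun a => by
    have := be a; have := bB a; have := bMm a; linarith
  have hy : ∀ a, MN G μ a + (rho + 2 * BN G μ a - eN G μ a + nlχ m ξ) ≤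
      rho + 5 * m + nlχ m ξ := fun a => by
    have := bB a; have := bMm a; have := be0 a; linarith
  have hν0 : ∀ a, 0 ≤ kk G x (μ a) (μ a) := fun a =>
    kk_nonneg G x _ _ (hμ a).nonneg (hμ a).nonneg
  obtain ⟨q, hqa, hq1, hq2, hqk⟩ : ∃ q : ℝ, (∀ a, kk G x (μ a) (μ a) ≤ q) ∧ 2 / 7 ≤ q ∧
      q ≤ 47 / 140 ∧ q ≤ rho + nlχ m ξ + 4 * m := by
    obtain ⟨j, -, hj⟩ := exists_max_image univ (fun a => kk G x (μ a) (μ a)) ⟨0, mem_univ 0⟩
    refine ⟨max (2 / 7) (kk G x (μ j) (μ j)), fun a => (hj a (mem_univ a)).trans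
      (le_max_right _ _), le_max_left _ _, max_le (by norm_num) (hν1 j x), max_le ?_ ?_⟩
    · linarith
    · have h1 := hνN j; have h2 := bB j; have h3 := bMm j; have h5 := be0 j
      linarith
  obtain ⟨P, hP⟩ : ∃ P, P = 1 - ∑ j, pProb μ (G.E x) j := ⟨_, rfl⟩
  have hp0 : ∀ a, 0 ≤ pProb μ (G.E x) a := fun a =>
    pProb_nonneg μ (G.E x) (fun i y => (hμ i).nonneg y) a
  obtain ⟨hpo, hPs⟩ := pure_rest (μ := μ) (L := G.E x) (fun i y => (hμ i).nonneg y)
    (fun i => (hμ i).sum_eq) (link_symm G x)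
    (fun a b c h => link_tri G x a b c ⟨h.1, h.2.2, h.2.1⟩) hpk
  rw [← hP] at hPs
  -- degrees
  have hnee : ∀ a, ∑ j, nee a j * pProb μ (G.E x) j =
      ∑ j, pProb μ (G.E x) j - pProb μ (G.E x) a := by
    intro a
    have h : ∀ j, nee a j * pProb μ (G.E x) j = pProb μ (G.E x) j -
        (if a = j then pProb μ (G.E x) j else 0) := by
      intro j
      unfold nee
      by_cases h : a = j
      · rw [if_pos h, if_pos h]; ring
      · rw [if_neg h, if_neg h]; ring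
    rw [sum_congr rfl fun j _ => h j, sum_sub_distrib, sum_ite_eq, if_pos (mem_univ _)]
  have hDl : ∀ a, 2 * (1 - P - pProb μ (G.E x) a) ≤ Dn G μ x a := fun a => by
    have := Dn_ge G hμ x a
    rw [hnee a] at this
    rw [hP]
    linarith
  have hDu : ∀ a, Dn G μ x a ≤ 2 * (1 - pProb μ (G.E x) a) + MN G μ a := fun a => Dn_le G hμ x a
  -- the elimination inequality
  have hel0 := elimination (μ := μ) hμ (L := G.E x) (link_symm G x) (link_tri G x) (q := q)
    (fun a => by rw [← kk_eq_qd]; exact hqa a) hq1 hq2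
  have hR := RR_dl (G := G) (μ := μ) x
  have hBB := E6_BB_le G hμ x
  rw [← hm] at hBB
  have hel : 5451 / 21000 * P + RR G μ (dl x) ≤ 10 +
      ∑ a, pProb μ (G.E x) a * kk G x (μ a) (μ a) + q * P + 3 * m := by
    rw [← hP] at hel0
    have e1 : ∑ k, qd (μ k) (G.E x) * (1 - pProb μ (G.E x) k) =
        ∑ a, kk G x (μ a) (μ a) - ∑ a, pProb μ (G.E x) a * kk G x (μ a) (μ a) := by
      rw [← sum_sub_distrib]
      refine sum_congr rfl fun a _ => ?_
      rw [← kk_eq_qd]; ring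
    have e2 := E6_DD_eq G hμ x
    have e3 : RR G μ (dl x) = ∑ a, Dn G μ x a + ∑ a, kk G x (μ a) (μ a) := by
      rw [hR, sum_add_distrib]
    rw [e1] at hel0
    linarith
  have hPsum : ∑ a, pProb μ (G.E x) a = 1 - P := by linarith
  have hP1 : P ≤ 1 := by
    have : 0 ≤ ∑ a, pProb μ (G.E x) a := sum_nonneg fun a _ => hp0 a
    linarith
  have hP0 : 0 ≤ P := by
    have h1 : pProb μ (G.E x) k ≤ ∑ a, pProb μ (G.E x) a :=
      single_le_sum (f := fun a => pProb μ (G.E x) a) (fun a _ => hp0 a) (mem_univ k)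
    by_contra hc
    push Not at hc
    have : 4 / 5 * (1 - pProb μ (G.E x) k) < 0 := by linarith
    linarith
  -- bounds for the uniform degree
  have hDp : ∀ b, Dp G μ (dl x) b ≤ 59 / 25 := fun b => by
    rw [Dp_dl]
    have := hDu b; have := hνN b; have := hy b; have := hp0 b
    linarith
  have hRlow := D.R_low (dl x) (isW_dl x) D1 (59 / 25) hD1.symm hDp
  rw [← hξ] at hRlow
  have hmml := nl_mmlow m0 ξ0 hmx x1 D1 rho D10 hD' hρ
  have hD2 : D1 ^ 2 ≤ 12 / 1000 * (12 / 1000) := by nlinarith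
  have hξ2 : ξ ^ 2 ≤ 343 / 100000 * (343 / 100000) := by nlinarith
  have hRl : 72 / 7 - 1 / 2 ≤ RR G μ (dl x) := by nlinarith
  have hRu : RR G μ (dl x) ≤ 1041 / 100 := by
    have k1 : ∑ a, pProb μ (G.E x) a * kk G x (μ a) (μ a) ≤ (1 - P) * (47 / 140) := by
      rw [← hPsum, sum_mul]
      exact sum_le_sum fun a _ => mul_le_mul_of_nonneg_left (hν1 a x) (hp0 a)
    have k2 : q * P ≤ 47 / 140 * P := mul_le_mul_of_nonneg_right hq2 hP0
    have k3 : 0 ≤ 5451 / 21000 * P := by linarith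
    linarith
  -- coefficients of the test vector
  have hmm : ∀ a, mm G μ (dl x) a = 1 / 6 + 7 / 12 * (RR G μ (dl x) / 6 -
      (Dn G μ x a + kk G x (μ a) (μ a))) := fun a => by unfold mm; rw [Dp_dl]
  have hml : ∀ a, -(9 / 40) ≤ mm G μ (dl x) a := fun a => by
    rw [hmm]
    have b1 := hDu a; have b2 := hνN a; have b3 := hy a; have b4 := hp0 a
    linarith
  have hmu : ∀ a, mm G μ (dl x) a ≤ 6 / 5 := fun a => by
    rw [hmm]
    have b1 : 0 ≤ Dn G μ x a := by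
      have := Dn_ge G hμ x a
      refine le_trans ?_ this
      exact mul_nonneg (by norm_num) (sum_nonneg fun j _ => mul_nonneg (nee_nonneg _ _) (hp0 j))
    have b2 := hν0 a
    linarith
  have hmh := mh_le (fun a => mm G μ (dl x) a) (sum_mm (dl x)) hml hmu
  set y0 : ℝ := 24 / 5 * m + nlδ m ξ + 169 * (rho - 2 / 7) with hy0
  set rs : ℝ := 8 * m + 4 / 3 * nlδ m ξ + 71 * (rho - 2 / 7) with hrs
  have hyb : ∀ b, |∑ a, Rp G μ a b| ≤ y0 := fun b => by
    have h := YN_abs (G := G) hμ (nlδ m ξ) h4 b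
    rw [← hm] at h
    have e : ∑ a, Rp G μ a b = ∑ a, Rp G μ b a := sum_congr rfl fun a _ => Rp_swap b a
    rw [e]; exact h
  have hrh : ∀ b, |∑ a, mm G μ (dl x) a * Rp G μ a b| ≤ 39 / 80 * y0 + 57 / 80 * rs := fun b => by
    have h := Rsum_le (G := G) hμ (nlδ m ξ) h4 b
    rw [← hm] at h
    exact rh_le (fun a => mm G μ (dl x) a) (fun a => Rp G μ a b) y0 rs hml hmu (hyb b) h
  have hr : ∀ a b, |Rp G μ a b| ≤ 4 * m + nlδ m ξ + 71 * (rho - 2 / 7) := fun a b => by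
    have h := Rp_abs (G := G) hμ (nlδ m ξ) h4 a b
    rw [← hm] at h
    exact h
  have hyc : ∀ a, |∑ b, Rp G μ a b| ≤ y0 := fun a => by
    have h := YN_abs (G := G) hμ (nlδ m ξ) h4 a
    rw [← hm] at h
    exact h
  have hL4 := D.L4 (dl x) (isW_dl x) D1 ((nlD m ξ + ξ) / 2)
    (4 * m + nlδ m ξ + 71 * (rho - 2 / 7)) y0 hD1.symm (by rw [← hξ]; linarith) hr hyc
    (by unfold nlD nlδ; linarith)
  set κ : ℝ := 3 * ((nlD m ξ + ξ) / 2) + y0 / 36 +
    42 * (2 * ((nlD m ξ + ξ) / 2) + y0 / 36) ^ 2 with hκ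
  have hRL := D.RL (dl x) (isW_dl x) D1 (14 / 5) (39 / 80 * y0 + 57 / 80 * rs) κ hD1.symm
    hmh hrh hL4
  rw [← hξ] at hRL
  -- the final inequality
  have hfin := nl_arith (fun a => pProb μ (G.E x) a) (fun a => kk G x (μ a) (μ a))
    (fun a => Dn G μ x a) (fun a => YN G μ a) (fun a => MN G μ a) (fun a => BN G μ a)
    (fun a => eN G μ a) (RR G μ (dl x)) P q rho m (nlχ m ξ) (nlδ m ξ) (rho + 5 * m + nlχ m ξ)
    (36 * ξ * (t + 2 / 7) + (12 * D1 * (39 / 80 * y0 + 57 / 80 * rs) + 18 * (1 + 14 / 5) *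
      (D1 ^ 2 + 2 * ξ ^ 2) + 36 * ξ * κ)) (5451 / 21000) (18 / 100) (4 * m + nlδ m ξ) k
    hp0 hpo hpk hP hPs hel
    (by
      have e : ∀ a, mm G μ (dl x) a * YN G μ a = (1 / 6 + 7 / 12 * (RR G μ (dl x) / 6 -
        (Dn G μ x a + kk G x (μ a) (μ a)))) * YN G μ a := fun a => by rw [hmm]
      rw [sum_congr rfl fun a _ => e a] at hRL
      linarith)
    hDl hDu hν0 hνN hqk hq2 (by norm_num) (fun a => hν1 a x)
    (fun a => by
      have b1 := YN_eq (G := G) (μ := μ) a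
      have b2 := GN_nonneg (G := G) hμ a
      have b3 := BO_nonneg (G := G) hμ a
      linarith)
    bM0 bMm n6 (by linarith)
    (fun S' => by
      have h := Y_set (G := G) hμ S' (nlδ m ξ) (h4 _)
      rw [← hm] at h
      exact h)
    (sum_YN_le hμ)
    (fun a => by
      have h := YN_ge (G := G) hμ (nlδ m ξ) h4 a
      rw [← hm] at h
      linarith)
    hρ0 hNl hy (by linarith) (by linarith) hRl hcon.le (by norm_num) (by linarith) (by linarith)
    (by
      have h := YN_ge (G := G) hμ (nlδ m ξ) h4 k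
      rw [← hm] at h
      exact h)
    (nl_slope m0 ξ0 hmx rho hρ) (by unfold nlδ; linarith)
  have htot := nl_total m0 ξ0 hmx x1 D1 rho t (39 / 80 * y0 + 57 / 80 * rs) κ y0 rs D10 hD' hρ0 hρ
    htρ hy0 hrs rfl hκ
  linarith

end NuE

end K4m
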