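import Mathlib
import Pool.Agent.Lib.MP_392c14_co.Acc.Mat3
import Pool.Agent.Lib.MP_392c14_co.Acc.NuB

/-!
# Lower bound of the own density of a vertex from an inequality of the second stage
-/

set_option autoImplicit false

namespace K4m

open Finset

section T

variable {V : Type} [Fintype V] {G : TG V} {w : V → ℝ} {μ : Fin 6 → V → ℝ} {v : Fin 6 → ℝ}
  {X : V → ℝ} {t : ℝ}

theorem nlt_blk : ∀ k : Fin 6, (univ.filter fun p : Fin 6 × Fin 6 =>
    D6.E k p.1 p.2 = true).card = 10 := by decide +kernel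

theorem nlt_sum (k : Fin 6) : ∑ a, ∑ b, blk k a b = 10 := by
  have h := nlt_blk k
  have e : ∑ a, ∑ b, blk k a b = ∑ p : Fin 6 × Fin 6, blk k p.1 p.2 :=
    (Fintype.sum_prod_type' fun a b => blk k a b).symm
  rw [e]
  unfold blk ind
  rw [sum_boole, h]
  norm_num

/-- the pairs of the pentagon are counted by the degrees of its classes -/
theorem nlt_Dn (hμ : ∀ a, IsW (μ a)) (x : V) (k : Fin 6) :
    10 - hh G μ x k ≤ ∑ a ∈ univ.erase k, Dn G μ x a := by
  classical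
  have h1 : 10 - hh G μ x k = ∑ a, ∑ b, blk k a b * kk G x (μ a) (μ b) := by
    unfold hh
    rw [← nlt_sum k, ← sum_sub_distrib]
    refine sum_congr rfl fun a _ => ?_
    rw [← sum_sub_distrib]
    exact sum_congr rfl fun b _ => by ring
  rw [h1, ← add_sum_erase univ (fun a => ∑ b, blk k a b * kk G x (μ a) (μ b)) (mem_univ k)]
  have h2 : ∑ b, blk k k b * kk G x (μ k) (μ b) = 0 :=
    sum_eq_zero fun b _ => by rw [blk_irr1, zero_mul]
  rw [h2, zero_add]
  refine sum_le_sum fun a _ => ?_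
  unfold Dn
  refine sum_le_sum fun b _ => ?_
  refine mul_le_mul_of_nonneg_right ?_ (kk_nonneg G x _ _ (hμ a).nonneg (hμ b).nonneg)
  rcases nee_cases a b with ⟨h, e⟩ | ⟨h, e⟩
  · subst h
    rw [e, blk_irr3]
  · rw [e]; exact blk_le_one k a b

/-- degree of a vertex in its own class -/
theorem nlt_own (hμ : ∀ a, IsW (μ a)) (x : V) (k : Fin 6) {c0 : ℝ} (hc0 : 0 ≤ c0)
    (hS2 : c0 * hh G μ x k + (Rx G μ x - kk G x (μ k) (μ k)) ≤
      10 + 3 / 2 * MN G μ k + 7 / 2 * (mN G μ - MN G μ k)) :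
    Dn G μ x k ≤ hh G μ x k + 7 / 2 * mN G μ := by
  classical
  have h1 := nlt_Dn (G := G) hμ x k
  have h2 : Rx G μ x = ∑ a, (Dn G μ x a + kk G x (μ a) (μ a)) := by
    rw [← RR_dl]
    unfold Rx RR Dp
    exact sum_congr rfl fun b _ => sum_congr rfl fun c _ => (tri_dl G x _ _).symm
  rw [sum_add_distrib, ← add_sum_erase univ (fun a => Dn G μ x a) (mem_univ k),
    ← add_sum_erase univ (fun a => kk G x (μ a) (μ a)) (mem_univ k)] at h2
  have h3 : 0 ≤ ∑ a ∈ univ.erase k, kk G x (μ a) (μ a) :=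
    sum_nonneg fun a _ => kk_nonneg G x _ _ (hμ a).nonneg (hμ a).nonneg
  have h4 := MN_nonneg (G := G) hμ k
  have h5 : 0 ≤ c0 * hh G μ x k := mul_nonneg hc0 (hh_nonneg (G := G) hμ x k)
  linarith

/-- the quadratic form of the test vector of a vertex -/
theorem Dec.nlt_form (D : Dec G w μ v X t) (x : V) (k : Fin 6) {D1 δ : ℝ}
    (hD : ∑ b, |v b - 1 / 6| ≤ D1)
    (h4 : eN G μ k ≤ 3 * BN G μ k + δ) :
    -tri G (FK μ k x) (FK μ k x) w ≤ (Dn G μ x k + kk G x (μ k) (μ k)) / 3 +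
      3 / 2 * (D1 + xX X) - (rho - 6 * MN G μ k - δ) / 6 := by
  have hμ := D.hμ
  rw [D.form_FK k x]
  have h1 : kk G x (μ k) w = tri G (dl x) (μ k) w := (tri_dl G x _ _).symm
  have h2 := D.tri_w_eq (dl x) k
  have h3 := (abs_le.1 (D.g_abs (dl x) (isW_dl x) _ rfl k)).2
  have h5 := D.tri_w_eq (μ k) k
  have h6 := (abs_le.1 (D.g_abs (μ k) (hμ k) _ rfl k)).1
  rw [Dp_dl] at h2
  have h7 : tt G μ k k k ≤ Dp G μ (μ k) k := by
    unfold Dp
    exact single_le_sum (f := fun c => tri G (μ k) (μ k) (μ c))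
      (fun c _ => tri_W_nonneg _ _ _ (hμ k).nonneg (hμ k).nonneg (hμ c).nonneg) (mem_univ k)
  have h8 : tt G μ k k k = rho - eN G μ k := by unfold eN; ring
  have h9 := BN_le (G := G) hμ k
  linarith

/-- the numerical inequality of the matched decomposition -/
theorem nlt_num {m ξ h : ℝ} (hm : 0 ≤ m) (hξ : 0 ≤ ξ) (hh : 0 ≤ h)
    (h1 : m ≤ 978 / 100000 - 271 / 100 * ξ) (h2 : 14 * ξ + 469 / 100 * m ≤ 48 / 1000) :
    6 * (11 / 1000 + ξ) * (1 / 2 * h + 10572 / 100000 + 4 * m) +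
      36 * ξ * ((1 / 4 * (h + 7 / 2 * m) + 3 / 4 * (69 / 100 + m) + 20355 / 100000) / 3 +
        3 / 2 * (11 / 1000 + ξ) -
        (2 / 7 - 6 * m - (75 / 100 * ξ + 42 / 100 * m + 1 / 10 ^ 6)) / 6 + 28572 / 100000) +
      36 * (11 / 1000) ^ 2 + 36 * ξ ^ 2 <
      (1 - 2 * ξ) * (2 / 7 - 20355 / 100000 + 55 / 1000 * h - 11 / 2 * m -
        (75 / 100 * ξ + 42 / 100 * m + 1 / 10 ^ 6)) := by
  have x1 : ξ ≤ 343 / 100000 := by linarith
  have a1 : 0 ≤ h * (22 / 1000 - 611 / 100 * ξ) := mul_nonneg hh (by linarith)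
  have s1 : 0 ≤ 978 / 100000 - 271 / 100 * ξ - m := by linarith
  have s2 : 0 ≤ 48 / 1000 - 14 * ξ - 469 / 100 * m := by linarith
  nlinarith [a1, mul_nonneg hm hξ, mul_nonneg hξ s1, mul_nonneg hξ s2, mul_nonneg hm s1,
    mul_nonneg hm s2, mul_nonneg hξ (sub_nonneg.2 x1)]

/-- half of the absolute sum of the centred sizes -/
theorem Dec.nlt_KS (D : Dec G w μ v X t) {D1 : ℝ} (hD : ∑ b, |v b - 1 / 6| ≤ D1)
    (S : Finset (Fin 6)) :
    12 * ∑ a ∈ S, (v a - 1 / 6 + xX X / 6) ≤ 6 * (D1 + xX X) := by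
  have hx := D.xX_nonneg
  have h0 : ∑ a, (v a - 1 / 6 + xX X / 6) = 0 := by
    rw [sum_add_distrib, D.sum_s, sum_const, card_univ, Fintype.card_fin]
    simp only [nsmul_eq_mul]; push_cast; ring
  have h1 := part_le (fun a => v a - 1 / 6 + xX X / 6) h0 S
  have h2 : ∑ a, |v a - 1 / 6 + xX X / 6| ≤ ∑ a, |v a - 1 / 6| + xX X := by
    calc ∑ a, |v a - 1 / 6 + xX X / 6| ≤ ∑ a, (|v a - 1 / 6| + xX X / 6) := by
          refine sum_le_sum fun a _ => (abs_add_le _ _).trans ?_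
          rw [abs_of_nonneg (by positivity : 0 ≤ xX X / 6)]
      _ = ∑ a, |v a - 1 / 6| + xX X := by
          rw [sum_add_distrib, sum_const, card_univ, Fintype.card_fin]
          simp only [nsmul_eq_mul]; push_cast; ring
  beta_reduce at h1
  linarith

/-- **Lower bound of the own density, matched decomposition.** -/
theorem Mat.nu_step [Nonempty V] {c : V → Fin 6} (M : Mat G w μ v X t c)
    (S : Fin 6 → V → Bool)
    (hS : ∀ a x, v a * μ a x = w x * ind (S a x)) (hvt : val G w = t) (x : V)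
    (hν0 : 18 / 100 ≤ kk G x (μ (c x)) (μ (c x)))
    (hp : 655 / 1000 ≤ pProb μ (G.E x) (c x)) {c0 : ℝ} (hc0 : 55 / 1000 ≤ c0)
    (hS2 : c0 * hh G μ x (c x) + (Rx G μ x - kk G x (μ (c x)) (μ (c x))) ≤
      10 + 3 / 2 * MN G μ (c x) + 7 / 2 * (mN G μ - MN G μ (c x))) :
    20355 / 100000 ≤ kk G x (μ (c x)) (μ (c x)) := by
  by_contra hcon
  push Not at hcon
  have D := M.dec
  have hμ := D.hμ
  obtain ⟨k, hk⟩ : ∃ k, k = c x := ⟨_, rfl⟩
  rw [← hk] at hν0 hp hS2 hcon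
  have hm := M.m0; have hx := M.x0; have hx1 := M.x_le; have hJ := M.m_le; have hJ0 := M.J0
  have r1 := M.r1; have r0 := M.r0
  have hhn := hh_nonneg (G := G) hμ x k
  have htρ := M.tr
  -- class quantities
  have bM := MN_nonneg (G := G) hμ k
  have bMm := MN_le (G := G) hμ k
  have bB := BN_le (G := G) hμ k
  have be : eN G μ k ≤ 3 * BN G μ k + (75 / 100 * xX X + 42 / 100 * mN G μ + 1 / 10 ^ 6) := by
    have := M.delta {k}
    rw [sum_singleton] at this
    linarith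
  have hY : -(4 * MN G μ k + (75 / 100 * xX X + 42 / 100 * mN G μ + 1 / 10 ^ 6)) ≤ YN G μ k := by
    have b1 := YN_eq (G := G) (μ := μ) k
    have b2 := GN_nonneg (G := G) hμ k
    have b3 := BO_nonneg (G := G) hμ k
    linarith
  -- range
  have hB : ∀ a b, Ux G μ k x a - Ux G μ k x b ≤
      1 / 2 * hh G μ x k + 10572 / 100000 + 4 * mN G μ :=
    range_nu hμ k x (M.nu_up S hS hvt x k) hν0 (by norm_num) (by positivity) (by linarith)
      (by linarith)
  -- quadratic form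
  have hDn : Dn G μ x k ≤ 1 / 4 * (hh G μ x k + 7 / 2 * mN G μ) +
      3 / 4 * (69 / 100 + mN G μ) := by
    have a1 := nlt_own hμ x k (by linarith) hS2
    have a2 := Dn_le G hμ x k
    linarith
  have hq := D.nlt_form x k M.D1 be
  have hdev := D.dev_le k x (D.nlt_KS M.D1) hB hq (D.es_le k x (11 / 1000) M.D1)
  have hU := sum_Ux G μ k x
  have hZ : 2 / 7 - 20355 / 100000 + 55 / 1000 * hh G μ x k - 11 / 2 * mN G μ -
      (75 / 100 * xX X + 42 / 100 * mN G μ + 1 / 10 ^ 6) ≤ -∑ b, Ux G μ k x b := by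
    have a1 : 55 / 1000 * hh G μ x k ≤ c0 * hh G μ x k := mul_le_mul_of_nonneg_right hc0 hhn
    rw [hU]
    linarith
  have hZ' := mul_le_mul_of_nonneg_left hZ (by linarith : 0 ≤ 1 - 2 * xX X)
  have hqq : 36 * xX X * ((Dn G μ x k + kk G x (μ k) (μ k)) / 3 + 3 / 2 * (11 / 1000 + xX X) -
      (rho - 6 * MN G μ k - (75 / 100 * xX X + 42 / 100 * mN G μ + 1 / 10 ^ 6)) / 6 + t) ≤
      36 * xX X * ((1 / 4 * (hh G μ x k + 7 / 2 * mN G μ) + 3 / 4 * (69 / 100 + mN G μ) +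
        20355 / 100000) / 3 + 3 / 2 * (11 / 1000 + xX X) -
        (2 / 7 - 6 * mN G μ - (75 / 100 * xX X + 42 / 100 * mN G μ + 1 / 10 ^ 6)) / 6 +
        28572 / 100000) := by
    refine mul_le_mul_of_nonneg_left ?_ (by linarith)
    linarith
  have hnum := nlt_num hm hx hhn hJ hJ0
  linarith

end T

end K4m
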