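import Mathlib
import Pool.Agent.Lib.MP_392c14_co.Acc.Asm
import Pool.Agent.Lib.MP_392c14_co.Acc.NuD
import Pool.Agent.Lib.MP_392c14_co.Acc.NuE3
import Pool.Agent.Lib.MP_392c14_co.Acc.NuT

/-!
# Lower bounds of the own densities
-/

set_option autoImplicit false

namespace K4m

open Finset

section M

variable {V : Type} [Fintype V] {G : TG V} {w : V → ℝ} {μ : Fin 6 → V → ℝ} {v : Fin 6 → ℝ}
  {X : V → ℝ} {t : ℝ} {c : V → Fin 6}

/-- first lower bound, matched decomposition -/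
theorem Mat.nu_low0 (M : Mat G w μ v X t c) (S : Fin 6 → V → Bool)
    (hS : ∀ a x, v a * μ a x = w x * ind (S a x)) (hvt : val G w = t) (x : V)
    (hp : 655 / 1000 ≤ pProb μ (G.E x) (c x)) :
    18 / 100 ≤ kk G x (μ (c x)) (μ (c x)) := by
  have hx := M.x_le; have hJ := M.m_le; have h0 := M.x0
  have hrt := M.rt
  refine M.dec.nu_elim S hS ?_ hvt M.r1 (fun a => le_trans (by norm_num) (M.lo a)) M.D1f ?_
    (by linarith) (by linarith) x (c x) (by linarith)
  · rw [hvt]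
    norm_num at hrt ⊢
    linarith
  · intro J
    have := M.delta J
    unfold nlδ
    linarith

/-- **Lower bound of the own densities, matched decomposition.** -/
theorem Mat.nu_low [Nonempty V] (M : Mat G w μ v X t c) (S : Fin 6 → V → Bool)
    (hS : ∀ a x, v a * μ a x = w x * ind (S a x)) (hvt : val G w = t)
    (hp : ∀ x, 6553 / 10000 ≤ pProb μ (G.E x) (c x)) {c1 : ℝ}
    (T : Tbl c1 (345 / 1000) (955 / 1000) (9 / 10) (9 / 10)) (hc1 : 55 / 1000 ≤ c1) (x : V) :
    20355 / 100000 ≤ kk G x (μ (c x)) (μ (c x)) := by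
  have hν0 : ∀ x, 18 / 100 ≤ kk G x (μ (c x)) (μ (c x)) := fun y =>
    M.nu_low0 S hS hvt y (le_trans (by norm_num) (hp y))
  have hk1 : hk μ (G.E x) (c x) ≤ 955 / 1000 := by
    have h := hk_le_of_sq M.dec.hμ x (c x) (r := 8095 / 10000)
      (le_trans (by norm_num) (hp x))
    linarith
  exact M.nu_step S hS hvt x (hν0 x) (le_trans (by norm_num) (hp x)) hc1
    (T.use M.dec.hμ M.hc hν0 (by norm_num) (by norm_num) x (hp x) (by norm_num) hk1)

end M

section T

variable {V : Type} [Fintype V] {G : TG V} {w : V → ℝ} {μ : Fin 6 → V → ℝ} {v : Fin 6 → ℝ}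
  {t : ℝ}

/-- lower bound of the own density, total partition -/
theorem Dec.nu_stepP [Nonempty V] (D : Dec G w μ v (fun _ => 0) t) (S : Fin 6 → V → Bool)
    (hSi : ∀ a x, v a * μ a x = w x * ind (S a x)) (hvt : val G w = t)
    (hrt : rho - t ≤ 1 / 10 ^ 16) (r1 : rho ≤ 28572 / 100000)
    (hS : ∀ S : Finset (Fin 6), 12 * ∑ a ∈ S, (v a - 1 / 6) ≤ 3304 / 100000)
    (hD : ∑ b, |v b - 1 / 6| ≤ 551 / 100000) (hm : mN G μ ≤ 102 / 10000)
    (lo : ∀ a, 163 / 1000 ≤ v a)
    (h4 : ∀ J : Finset (Fin 6), ∑ a ∈ J, (eN G μ a - 3 * BN G μ a) ≤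
      21 / 100 * mN G μ + 1 / 10 ^ 9)
    (k : Fin 6) (x : V) (hν0 : 18 / 100 ≤ kk G x (μ k) (μ k)) {c0 : ℝ}
    (hS2 : c0 * hh G μ x k + (Rx G μ x - kk G x (μ k) (μ k)) ≤
      10 + 3 / 2 * MN G μ k + 7 / 2 * (mN G μ - MN G μ k))
    (hc : 2 / 100 ≤ c0) : 22175 / 100000 ≤ kk G x (μ k) (μ k) := by
  by_contra hcon
  push Not at hcon
  have hμ := D.hμ
  have hX : xX (fun _ : V => (0 : ℝ)) = 0 := by unfold xX; simp
  have hm0 := mN_nonneg (G := G) hμ
  have r0 := two_sevenths_le_rho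
  have hhn := hh_nonneg (G := G) hμ x k
  have hν := D.nu_tot k (S k) (hSi k) (1 / 10 ^ 8) (by norm_num) (by norm_num)
    (by rw [hvt]; norm_num at hrt ⊢; linarith) hvt (κ := 34 / 1000) (vm := 163 / 1000)
    (fun j => ratio_le hD lo (by norm_num) (by norm_num) j k) (by norm_num) (lo k) x
  have e1 : ((1 / 10 ^ 8 + (1 / 10 ^ 8) ^ 2) / (163 / 1000) ^ 2 : ℝ) ≤ 1 / 10 ^ 6 := by norm_num
  have hν' : kk G x (μ k) (μ k) ≤ tt G μ k k k + 2 * (1 + 34 / 1000) * BN G μ k + 1 / 10 ^ 6 := by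
    linarith
  -- class quantities
  have bM := MN_nonneg (G := G) hμ k
  have bMm := MN_le (G := G) hμ k
  have bB := BN_le (G := G) hμ k
  have be : eN G μ k ≤ 3 * BN G μ k + (21 / 100 * mN G μ + 1 / 10 ^ 9) := by
    have := h4 {k}
    rw [sum_singleton] at this
    linarith
  have hY : -(4 * MN G μ k + (21 / 100 * mN G μ + 1 / 10 ^ 9)) ≤ YN G μ k := by
    have b1 := YN_eq (G := G) (μ := μ) k
    have b2 := GN_nonneg (G := G) hμ k
    have b3 := BO_nonneg (G := G) hμ k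
    linarith
  have hB : ∀ a b, Ux G μ k x a - Ux G μ k x b ≤
      1 / 2 * hh G μ x k + 13635 / 100000 :=
    range_nu hμ k x hν' hν0 (by norm_num) (by norm_num) (by linarith) (by linarith)
  have hdev := D.dev_le k x (KS := 3304 / 100000) (by rw [hX]; simpa using hS) hB
    (le_refl (-tri G (FK μ k x) (FK μ k x) w)) (D.es_le k x (551 / 100000) hD)
  rw [hX] at hdev
  have hU := sum_Ux G μ k x
  have a1 : 2 / 100 * hh G μ x k ≤ c0 * hh G μ x k := mul_le_mul_of_nonneg_right hc hhn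
  have hZ : 2 / 7 - 22175 / 100000 + 2 / 100 * hh G μ x k - 11 / 2 * mN G μ -
      (21 / 100 * mN G μ + 1 / 10 ^ 9) ≤ -∑ b, Ux G μ k x b := by
    rw [hU]
    linarith
  have hdev' : -∑ b, Ux G μ k x b ≤
      3304 / 100000 * (1 / 2 * hh G μ x k + 13635 / 100000) + 36 * (551 / 100000) ^ 2 := by
    have e2 : (1 - 2 * (0 : ℝ)) * (-∑ b, Ux G μ k x b) = -∑ b, Ux G μ k x b := by ring
    rw [e2] at hdev
    linarith
  linarith

end T

/-- **Lower bound of the own densities, total partition.** -/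
theorem total_nu_low {n : ℕ} {G : TG (Fin n)} {w : Fin n → ℝ} {c : Fin n → Fin 6}
    [Nonempty (Fin n)]
    (hw : IsW w) (hcl : ∀ a, 0 < cl w c a) (hdeg : ∀ x, deg G w x = val G w)
    (hcnd : ∀ f : Fin n → ℝ, ∑ x, f x = 0 → tri G f f w ≤ 0)
    (hrt : rho - val G w ≤ 1 / 10 ^ 16) (r1 : rho ≤ 28572 / 100000)
    (hm : mN G (muT w c) ≤ 102 / 10000)
    (hD : ∑ b, |cl w c b - 1 / 6| ≤ 53 / 100 * mN G (muT w c) + 1 / 10 ^ 4)
    (hK : ∀ S : Finset (Fin 6), 12 * ∑ a ∈ S, (cl w c a - 1 / 6) ≤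
      159 / 50 * mN G (muT w c) + 3 / 5000)
    (hp : ∀ x, 68 / 100 < pProb (muT w c) (G.E x) (c x)) {c1 : ℝ}
    (T : Tbl c1 (345 / 1000) (955 / 1000) (9 / 10) (9 / 10)) (hc1 : 2 / 100 ≤ c1) (x : Fin n) :
    22175 / 100000 ≤ kk G x (muT w c (c x)) (muT w c (c x)) := by
  have D : Dec G w (muT w c) (cl w c) (fun _ => 0) (val G w) :=
    dec_total G hw hcl hdeg hcnd
  have hX : xX (fun _ : Fin n => (0 : ℝ)) = 0 := by unfold xX; simp
  have hμT : ∀ a, IsW (muT w c a) := D.hμ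
  have hm0 := mN_nonneg (G := G) hμT
  have hcT : ∀ a x, muT w c a x ≠ 0 → c x = a := by
    intro a x hx
    by_contra h
    apply hx
    unfold muT
    rw [if_neg h, mul_zero, zero_div]
  have hD' : ∑ b, |cl w c b - 1 / 6| ≤ 551 / 100000 := by linarith
  have hK' : ∀ S : Finset (Fin 6), 12 * ∑ a ∈ S, (cl w c a - 1 / 6) ≤ 3304 / 100000 := by
    intro S
    have := hK S
    linarith
  have hSi : ∀ a x, cl w c a * muT w c a x = w x * ind (decide (c x = a)) :=
    fun a x => muT_ind (hcl a) x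
  have lo : ∀ a, 163 / 1000 ≤ cl w c a := by
    intro a
    have h2 := hK' (univ.erase a)
    have h3 := add_sum_erase univ (fun b => cl w c b - 1 / 6) (mem_univ a)
    have h4 : ∑ b, (cl w c b - 1 / 6) = 0 := by
      have := D.sum_v
      rw [sum_const_zero, add_zero] at this
      rw [sum_sub_distrib, this]; norm_num
    have h5 : cl w c a - 1 / 6 = -∑ b ∈ univ.erase a, (cl w c b - 1 / 6) := by linarith
    linarith
  have htρ : val G w ≤ rho := val_le_rho G w hw
  have hpin : ∀ a x, cl w c a * muT w c a x = (w x - (fun _ => (0 : ℝ)) x) * pin c a x := by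
    intro a x
    rw [cl_mul_muT (hcl a)]
    unfold pin
    ring
  have h4 : ∀ J : Finset (Fin 6), ∑ a ∈ J, (eN G (muT w c) a - 3 * BN G (muT w c) a) ≤
      21 / 100 * mN G (muT w c) + 1 / 10 ^ 9 := by
    intro J
    have h := D.delta c hpin htρ (163 / 1000) (551 / 100000) (by norm_num) lo hD' J
    refine h.trans ?_
    rw [hX]
    have e1 : ((rho - val G w) + 3 * rho * (0 : ℝ) ^ 2) / (163 / 1000) ^ 3 ≤ 1 / 10 ^ 9 := by
      rw [div_le_iff₀ (by norm_num)]
      norm_num at hrt ⊢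
      linarith
    have e2 : 6 * (551 / 100000) * mN G (muT w c) / (163 / 1000) ≤ 21 / 100 * mN G (muT w c) := by
      have : 6 * (551 / 100000) * mN G (muT w c) / (163 / 1000) =
          6 * (551 / 100000) / (163 / 1000) * mN G (muT w c) := by ring
      rw [this]
      exact mul_le_mul_of_nonneg_right (by norm_num) hm0
    linarith
  have hν0 : ∀ y, 18 / 100 ≤ kk G y (muT w c (c y)) (muT w c (c y)) := by
    intro y
    refine D.nu_elim (fun a x => decide (c x = a)) hSi ?_ rfl r1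
      (fun a => le_trans (by norm_num) (lo a)) ?_ ?_ ?_ ?_ y (c y) (by linarith [hp y])
    · norm_num at hrt ⊢
      linarith
    · rw [hX]; unfold nlD; linarith
    · intro J
      have := h4 J
      rw [hX]; unfold nlδ; linarith
    · rw [hX]; linarith
    · rw [hX]; norm_num
  have hk0 : hk (muT w c) (G.E x) (c x) ≤ 955 / 1000 := by
    have h := hk_le_of_sq hμT x (c x) (r := 8245 / 10000) (le_trans (by norm_num) (hp x).le)
    linarith
  exact D.nu_stepP (fun a x => decide (c x = a)) hSi rfl hrt r1 hK' hD' hm lo h4 (c x) x (hν0 x)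
    (T.use hμT hcT hν0 (by norm_num) (by norm_num) x (hp x).le (by norm_num) hk0) hc1

end K4m
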