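import Mathlib
import Pool.Agent.Lib.MP_392c14_co.Acc.LinS8

/-!
# Linear sizes, part 9: total partitions with a larger bound for the missing blocks
-/

set_option autoImplicit false

namespace K4m

open Finset Function

theorem lsY_l1 {m : ℝ} (hm : 0 ≤ m) (hq : m ≤ (21 / 2000)) :
    lsQ (5 / 6) 11 (24 / 5) (4 / 5) (19 / 30) (3 / 10000000) 0 40 0 m (53 / 100 * m + 1 / 10000) ≤
      72 / 7 * (1 - 0) * (53 / 100 * m + 1 / 10000) := by
  have q0 : 0 ≤ (21 / 2000) - m := by linarith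
  have key : 72 / 7 * (1 - 0) * (53 / 100 * m + 1 / 10000) - (lsQ (5 / 6) 11 (24 / 5) (4 / 5) (19 / 30)
      (3 / 10000000) 0 40 0 m (53 / 100 * m + 1 / 10000)) = (375234148 / 1620675) * (((21 /
      2000) - m) ^ 3) + (17517188167 / 2701125) * (m * ((21 / 2000) - m) ^ 2) + (5874083468 /
      900375) * (m ^ 2 * ((21 / 2000) - m)) + (1645060322 / 8103375) * (m ^ 3) := by
    unfold lsQ lsR lsD
    ring
  have pos : 0 ≤ (375234148 / 1620675) * (((21 / 2000) - m) ^ 3) + (17517188167 / 2701125) * (m * ((21 /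
      2000) - m) ^ 2) + (5874083468 / 900375) * (m ^ 2 * ((21 / 2000) - m)) + (1645060322 /
      8103375) * (m ^ 3) := by positivity
  linarith

theorem lsY_a1 {m : ℝ} (hm : 0 ≤ m) (hq : m ≤ (21 / 2000)) :
    lsQ (5 / 6) 11 (24 / 5) (4 / 5) (19 / 30) (3 / 10000000) 0 40 0 m (3 / 100) + (1 / 1000) ≤
      72 / 7 * (1 - 0) * (3 / 100) := by
  have q0 : 0 ≤ (21 / 2000) - m := by linarith
  have key : 72 / 7 * (1 - 0) * (3 / 100) - (lsQ (5 / 6) 11 (24 / 5) (4 / 5) (19 / 30) (3 / 10000000) 0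
      40 0 m (3 / 100) + (1 / 1000)) = (979331771 / 36750000) * (((21 / 2000) - m)) + (686948771
      / 36750000) * (m) := by
    unfold lsQ lsR lsD
    ring
  have pos : 0 ≤ (979331771 / 36750000) * (((21 / 2000) - m)) + (686948771 / 36750000) * (m) := by positivity
  linarith

theorem lsY_l2 {m : ℝ} (hm : 0 ≤ m) (hq : m ≤ (21 / 2000)) :
    lsQ (4 / 3) (28 / 3) (24 / 5) (4 / 5) (7 / 15) (3 / 10000000) 0 40 0 m (53 / 100 * m + 1 / 10000) ≤
      72 / 7 * (1 - 0) * (53 / 100 * m + 1 / 10000) := by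
  have q0 : 0 ≤ (21 / 2000) - m := by linarith
  have key : 72 / 7 * (1 - 0) * (53 / 100 * m + 1 / 10000) - (lsQ (4 / 3) (28 / 3) (24 / 5) (4 / 5) (7
      / 15) (3 / 10000000) 0 40 0 m (53 / 100 * m + 1 / 10000)) = (654982148 / 1620675) * (((21
      / 2000) - m) ^ 3) + (18893682167 / 2701125) * (m * ((21 / 2000) - m) ^ 2) + (6346405318 /
      900375) * (m ^ 2 * ((21 / 2000) - m)) + (3165214972 / 8103375) * (m ^ 3) := by
    unfold lsQ lsR lsD
    ring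
  have pos : 0 ≤ (654982148 / 1620675) * (((21 / 2000) - m) ^ 3) + (18893682167 / 2701125) * (m * ((21 /
      2000) - m) ^ 2) + (6346405318 / 900375) * (m ^ 2 * ((21 / 2000) - m)) + (3165214972 /
      8103375) * (m ^ 3) := by positivity
  linarith

theorem lsY_a2 {m : ℝ} (hm : 0 ≤ m) (hq : m ≤ (21 / 2000)) :
    lsQ (4 / 3) (28 / 3) (24 / 5) (4 / 5) (7 / 15) (3 / 10000000) 0 40 0 m (3 / 100) + (1 / 1000) ≤
      72 / 7 * (1 - 0) * (3 / 100) := by
  have q0 : 0 ≤ (21 / 2000) - m := by linarith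
  have key : 72 / 7 * (1 - 0) * (3 / 100) - (lsQ (4 / 3) (28 / 3) (24 / 5) (4 / 5) (7 / 15) (3 /
      10000000) 0 40 0 m (3 / 100) + (1 / 1000)) = (307777257 / 12250000) * (((21 / 2000) - m))
      + (213991257 / 12250000) * (m) := by
    unfold lsQ lsR lsD
    ring
  have pos : 0 ≤ (307777257 / 12250000) * (((21 / 2000) - m)) + (213991257 / 12250000) * (m) := by positivity
  linarith

theorem lsY_l3 {m : ℝ} (hm : 0 ≤ m) (hq : m ≤ (21 / 2000)) :
    lsQ (3 / 2) (26 / 3) (24 / 5) (4 / 5) (3 / 10) (3 / 10000000) 0 40 0 m (53 / 100 * m + 1 / 10000) ≤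
      72 / 7 * (1 - 0) * (53 / 100 * m + 1 / 10000) := by
  have q0 : 0 ≤ (21 / 2000) - m := by linarith
  have key : 72 / 7 * (1 - 0) * (53 / 100 * m + 1 / 10000) - (lsQ (3 / 2) (26 / 3) (24 / 5) (4 / 5) (3
      / 10) (3 / 10000000) 0 40 0 m (53 / 100 * m + 1 / 10000)) = (103877572 / 180075) * (((21 /
      2000) - m) ^ 3) + (2254164463 / 300125) * (m * ((21 / 2000) - m) ^ 2) + (2282114756 /
      300125) * (m ^ 2 * ((21 / 2000) - m)) + (542539058 / 900375) * (m ^ 3) := by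
    unfold lsQ lsR lsD
    ring
  have pos : 0 ≤ (103877572 / 180075) * (((21 / 2000) - m) ^ 3) + (2254164463 / 300125) * (m * ((21 / 2000)
      - m) ^ 2) + (2282114756 / 300125) * (m ^ 2 * ((21 / 2000) - m)) + (542539058 / 900375) *
      (m ^ 3) := by positivity
  linarith

theorem lsY_a3 {m : ℝ} (hm : 0 ≤ m) (hq : m ≤ (21 / 2000)) :
    lsQ (3 / 2) (26 / 3) (24 / 5) (4 / 5) (3 / 10) (3 / 10000000) 0 40 0 m (3 / 100) + (1 / 1000) ≤
      72 / 7 * (1 - 0) * (3 / 100) := by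
  have q0 : 0 ≤ (21 / 2000) - m := by linarith
  have key : 72 / 7 * (1 - 0) * (3 / 100) - (lsQ (3 / 2) (26 / 3) (24 / 5) (4 / 5) (3 / 10) (3 /
      10000000) 0 40 0 m (3 / 100) + (1 / 1000)) = (905131771 / 36750000) * (((21 / 2000) - m))
      + (628183771 / 36750000) * (m) := by
    unfold lsQ lsR lsD
    ring
  have pos : 0 ≤ (905131771 / 36750000) * (((21 / 2000) - m)) + (628183771 / 36750000) * (m) := by positivity
  linarith

theorem lsY_l4 {m : ℝ} (hm : 0 ≤ m) (hq : m ≤ (21 / 2000)) :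
    lsQ (4 / 3) (28 / 3) (24 / 5) (4 / 5) (2 / 15) (3 / 10000000) 0 40 0 m (53 / 100 * m + 1 / 10000) ≤
      72 / 7 * (1 - 0) * (53 / 100 * m + 1 / 10000) := by
  have q0 : 0 ≤ (21 / 2000) - m := by linarith
  have key : 72 / 7 * (1 - 0) * (53 / 100 * m + 1 / 10000) - (lsQ (4 / 3) (28 / 3) (24 / 5) (4 / 5) (2
      / 15) (3 / 10000000) 0 40 0 m (53 / 100 * m + 1 / 10000)) = (1214982148 / 1620675) * (((21
      / 2000) - m) ^ 3) + (7231227389 / 900375) * (m * ((21 / 2000) - m) ^ 2) + (21839215954 /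
      2701125) * (m ^ 2 * ((21 / 2000) - m)) + (5965214972 / 8103375) * (m ^ 3) := by
    unfold lsQ lsR lsD
    ring
  have pos : 0 ≤ (1214982148 / 1620675) * (((21 / 2000) - m) ^ 3) + (7231227389 / 900375) * (m * ((21 /
      2000) - m) ^ 2) + (21839215954 / 2701125) * (m ^ 2 * ((21 / 2000) - m)) + (5965214972 /
      8103375) * (m ^ 3) := by positivity
  linarith

theorem lsY_a4 {m : ℝ} (hm : 0 ≤ m) (hq : m ≤ (21 / 2000)) :
    lsQ (4 / 3) (28 / 3) (24 / 5) (4 / 5) (2 / 15) (3 / 10000000) 0 40 0 m (3 / 100) + (1 / 1000) ≤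
      72 / 7 * (1 - 0) * (3 / 100) := by
  have q0 : 0 ≤ (21 / 2000) - m := by linarith
  have key : 72 / 7 * (1 - 0) * (3 / 100) - (lsQ (4 / 3) (28 / 3) (24 / 5) (4 / 5) (2 / 15) (3 /
      10000000) 0 40 0 m (3 / 100) + (1 / 1000)) = (924731771 / 36750000) * (((21 / 2000) - m))
      + (643373771 / 36750000) * (m) := by
    unfold lsQ lsR lsD
    ring
  have pos : 0 ≤ (924731771 / 36750000) * (((21 / 2000) - m)) + (643373771 / 36750000) * (m) := by positivity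
  linarith

theorem lsY_l5 {m : ℝ} (hm : 0 ≤ m) (hq : m ≤ (21 / 2000)) :
    lsQ (5 / 6) 11 4 1 (1 / 6) (3 / 10000000) 0 40 0 m (53 / 100 * m + 1 / 10000) ≤
      72 / 7 * (1 - 0) * (53 / 100 * m + 1 / 10000) := by
  have q0 : 0 ≤ (21 / 2000) - m := by linarith
  have key : 72 / 7 * (1 - 0) * (53 / 100 * m + 1 / 10000) - (lsQ (5 / 6) 11 4 1 (1 / 6) (3 / 10000000)
      0 40 0 m (53 / 100 * m + 1 / 10000)) = (1159150148 / 1620675) * (((21 / 2000) - m) ^ 3) +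
      (13672389389 / 900375) * (m * ((21 / 2000) - m) ^ 2) + (59611890404 / 2701125) * (m ^ 2 *
      ((21 / 2000) - m)) + (61033620322 / 8103375) * (m ^ 3) := by
    unfold lsQ lsR lsD
    ring
  have pos : 0 ≤ (1159150148 / 1620675) * (((21 / 2000) - m) ^ 3) + (13672389389 / 900375) * (m * ((21 /
      2000) - m) ^ 2) + (59611890404 / 2701125) * (m ^ 2 * ((21 / 2000) - m)) + (61033620322 /
      8103375) * (m ^ 3) := by positivity
  linarith

theorem lsY_a5 {m : ℝ} (hm : 0 ≤ m) (hq : m ≤ (21 / 2000)) :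
    lsQ (5 / 6) 11 4 1 (1 / 6) (3 / 10000000) 0 40 0 m (3 / 100) + (1 / 1000) ≤
      72 / 7 * (1 - 0) * (3 / 100) := by
  have q0 : 0 ≤ (21 / 2000) - m := by linarith
  have key : 72 / 7 * (1 - 0) * (3 / 100) - (lsQ (5 / 6) 11 4 1 (1 / 6) (3 / 10000000) 0 40 0 m (3 /
      100) + (1 / 1000)) = (327097187 / 12250000) * (((21 / 2000) - m)) + (236496187 / 12250000)
      * (m) := by
    unfold lsQ lsR lsD
    ring
  have pos : 0 ≤ (327097187 / 12250000) * (((21 / 2000) - m)) + (236496187 / 12250000) * (m) := by positivity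
  linarith

theorem lsX_l1 {m : ℝ} (hm : 0 ≤ m) (hq : m ≤ (51 / 5000)) :
    lsQ (5 / 6) 11 (24 / 5) (4 / 5) (19 / 30) (3 / 10000000) 0 (75 / 2) 0 m (21 / 40 * m + 1 / 10000) ≤
      72 / 7 * (1 - 0) * (21 / 40 * m + 1 / 10000) := by
  have q0 : 0 ≤ (51 / 5000) - m := by linarith
  have key : 72 / 7 * (1 - 0) * (21 / 40 * m + 1 / 10000) - (lsQ (5 / 6) 11 (24 / 5) (4 / 5) (19 / 30)
      (3 / 10000000) 0 (75 / 2) 0 m (21 / 40 * m + 1 / 10000)) = (469042685 / 1857114) * (((51 /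
      5000) - m) ^ 3) + (15851787899 / 2476152) * (m * ((51 / 5000) - m) ^ 2) + (15579244103 /
      2476152) * (m ^ 2 * ((51 / 5000) - m)) + (4782872083 / 59427648) * (m ^ 3) := by
    unfold lsQ lsR lsD
    ring
  have pos : 0 ≤ (469042685 / 1857114) * (((51 / 5000) - m) ^ 3) + (15851787899 / 2476152) * (m * ((51 /
      5000) - m) ^ 2) + (15579244103 / 2476152) * (m ^ 2 * ((51 / 5000) - m)) + (4782872083 /
      59427648) * (m ^ 3) := by positivity
  linarith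

theorem lsX_a1 {m : ℝ} (hm : 0 ≤ m) (hq : m ≤ (51 / 5000)) :
    lsQ (5 / 6) 11 (24 / 5) (4 / 5) (19 / 30) (3 / 10000000) 0 (75 / 2) 0 m (3 / 250) + (1 / 1000) ≤
      72 / 7 * (1 - 0) * (3 / 250) := by
  have q0 : 0 ≤ (51 / 5000) - m := by linarith
  have key : 72 / 7 * (1 - 0) * (3 / 250) - (lsQ (5 / 6) 11 (24 / 5) (4 / 5) (19 / 30) (3 / 10000000) 0
      (75 / 2) 0 m (3 / 250) + (1 / 1000)) = (1026790511 / 89250000) * (((51 / 5000) - m)) +
      (492682811 / 89250000) * (m) := by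
    unfold lsQ lsR lsD
    ring
  have pos : 0 ≤ (1026790511 / 89250000) * (((51 / 5000) - m)) + (492682811 / 89250000) * (m) := by positivity
  linarith

theorem lsX_l2 {m : ℝ} (hm : 0 ≤ m) (hq : m ≤ (51 / 5000)) :
    lsQ (4 / 3) (28 / 3) (24 / 5) (4 / 5) (7 / 15) (3 / 10000000) 0 (75 / 2) 0 m (21 / 40 * m + 1 / 10000) ≤
      72 / 7 * (1 - 0) * (21 / 40 * m + 1 / 10000) := by
  have q0 : 0 ≤ (51 / 5000) - m := by linarith
  have key : 72 / 7 * (1 - 0) * (21 / 40 * m + 1 / 10000) - (lsQ (4 / 3) (28 / 3) (24 / 5) (4 / 5) (7 /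
      15) (3 / 10000000) 0 (75 / 2) 0 m (21 / 40 * m + 1 / 10000)) = (818727685 / 1857114) *
      (((51 / 5000) - m) ^ 3) + (17229345899 / 2476152) * (m * ((51 / 5000) - m) ^ 2) +
      (1889524117 / 275128) * (m ^ 2 * ((51 / 5000) - m)) + (17146750883 / 59427648) * (m ^ 3) := by
    unfold lsQ lsR lsD
    ring
  have pos : 0 ≤ (818727685 / 1857114) * (((51 / 5000) - m) ^ 3) + (17229345899 / 2476152) * (m * ((51 /
      5000) - m) ^ 2) + (1889524117 / 275128) * (m ^ 2 * ((51 / 5000) - m)) + (17146750883 /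
      59427648) * (m ^ 3) := by positivity
  linarith

theorem lsX_a2 {m : ℝ} (hm : 0 ≤ m) (hq : m ≤ (51 / 5000)) :
    lsQ (4 / 3) (28 / 3) (24 / 5) (4 / 5) (7 / 15) (3 / 10000000) 0 (75 / 2) 0 m (3 / 250) + (1 / 1000) ≤
      72 / 7 * (1 - 0) * (3 / 250) := by
  have q0 : 0 ≤ (51 / 5000) - m := by linarith
  have key : 72 / 7 * (1 - 0) * (3 / 250) - (lsQ (4 / 3) (28 / 3) (24 / 5) (4 / 5) (7 / 15) (3 /
      10000000) 0 (75 / 2) 0 m (3 / 250) + (1 / 1000)) = (335286837 / 29750000) * (((51 / 5000)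
      - m)) + (160820937 / 29750000) * (m) := by
    unfold lsQ lsR lsD
    ring
  have pos : 0 ≤ (335286837 / 29750000) * (((51 / 5000) - m)) + (160820937 / 29750000) * (m) := by positivity
  linarith

theorem lsX_l3 {m : ℝ} (hm : 0 ≤ m) (hq : m ≤ (51 / 5000)) :
    lsQ (3 / 2) (26 / 3) (24 / 5) (4 / 5) (3 / 10) (3 / 10000000) 0 (75 / 2) 0 m (21 / 40 * m + 1 / 10000) ≤
      72 / 7 * (1 - 0) * (21 / 40 * m + 1 / 10000) := by
  have q0 : 0 ≤ (51 / 5000) - m := by linarith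
  have key : 72 / 7 * (1 - 0) * (21 / 40 * m + 1 / 10000) - (lsQ (3 / 2) (26 / 3) (24 / 5) (4 / 5) (3 /
      10) (3 / 10000000) 0 (75 / 2) 0 m (21 / 40 * m + 1 / 10000)) = (129846965 / 206346) *
      (((51 / 5000) - m) ^ 3) + (18623451899 / 2476152) * (m * ((51 / 5000) - m) ^ 2) +
      (18502680703 / 2476152) * (m ^ 2 * ((51 / 5000) - m)) + (10270658161 / 19809216) * (m ^ 3) := by
    unfold lsQ lsR lsD
    ring
  have pos : 0 ≤ (129846965 / 206346) * (((51 / 5000) - m) ^ 3) + (18623451899 / 2476152) * (m * ((51 /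
      5000) - m) ^ 2) + (18502680703 / 2476152) * (m ^ 2 * ((51 / 5000) - m)) + (10270658161 /
      19809216) * (m ^ 3) := by positivity
  linarith

theorem lsX_a3 {m : ℝ} (hm : 0 ≤ m) (hq : m ≤ (51 / 5000)) :
    lsQ (3 / 2) (26 / 3) (24 / 5) (4 / 5) (3 / 10) (3 / 10000000) 0 (75 / 2) 0 m (3 / 250) + (1 / 1000) ≤
      72 / 7 * (1 - 0) * (3 / 250) := by
  have q0 : 0 ≤ (51 / 5000) - m := by linarith
  have key : 72 / 7 * (1 - 0) * (3 / 250) - (lsQ (3 / 2) (26 / 3) (24 / 5) (4 / 5) (3 / 10) (3 /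
      10000000) 0 (75 / 2) 0 m (3 / 250) + (1 / 1000)) = (1000050511 / 89250000) * (((51 / 5000)
      - m)) + (480936811 / 89250000) * (m) := by
    unfold lsQ lsR lsD
    ring
  have pos : 0 ≤ (1000050511 / 89250000) * (((51 / 5000) - m)) + (480936811 / 89250000) * (m) := by positivity
  linarith

theorem lsX_l4 {m : ℝ} (hm : 0 ≤ m) (hq : m ≤ (51 / 5000)) :
    lsQ (4 / 3) (28 / 3) (24 / 5) (4 / 5) (2 / 15) (3 / 10000000) 0 (75 / 2) 0 m (21 / 40 * m + 1 / 10000) ≤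
      72 / 7 * (1 - 0) * (21 / 40 * m + 1 / 10000) := by
  have q0 : 0 ≤ (51 / 5000) - m := by linarith
  have key : 72 / 7 * (1 - 0) * (21 / 40 * m + 1 / 10000) - (lsQ (4 / 3) (28 / 3) (24 / 5) (4 / 5) (2 /
      15) (3 / 10000000) 0 (75 / 2) 0 m (21 / 40 * m + 1 / 10000)) = (1518727685 / 1857114) *
      (((51 / 5000) - m) ^ 3) + (6676448633 / 825384) * (m * ((51 / 5000) - m) ^ 2) +
      (19805717053 / 2476152) * (m ^ 2 * ((51 / 5000) - m)) + (39546750883 / 59427648) * (m ^ 3) := by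
    unfold lsQ lsR lsD
    ring
  have pos : 0 ≤ (1518727685 / 1857114) * (((51 / 5000) - m) ^ 3) + (6676448633 / 825384) * (m * ((51 /
      5000) - m) ^ 2) + (19805717053 / 2476152) * (m ^ 2 * ((51 / 5000) - m)) + (39546750883 /
      59427648) * (m ^ 3) := by positivity
  linarith

theorem lsX_a4 {m : ℝ} (hm : 0 ≤ m) (hq : m ≤ (51 / 5000)) :
    lsQ (4 / 3) (28 / 3) (24 / 5) (4 / 5) (2 / 15) (3 / 10000000) 0 (75 / 2) 0 m (3 / 250) + (1 / 1000) ≤
      72 / 7 * (1 - 0) * (3 / 250) := by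
  have q0 : 0 ≤ (51 / 5000) - m := by linarith
  have key : 72 / 7 * (1 - 0) * (3 / 250) - (lsQ (4 / 3) (28 / 3) (24 / 5) (4 / 5) (2 / 15) (3 /
      10000000) 0 (75 / 2) 0 m (3 / 250) + (1 / 1000)) = (1009360511 / 89250000) * (((51 / 5000)
      - m)) + (485962811 / 89250000) * (m) := by
    unfold lsQ lsR lsD
    ring
  have pos : 0 ≤ (1009360511 / 89250000) * (((51 / 5000) - m)) + (485962811 / 89250000) * (m) := by positivity
  linarith

theorem lsX_l5 {m : ℝ} (hm : 0 ≤ m) (hq : m ≤ (51 / 5000)) :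
    lsQ (5 / 6) 11 4 1 (1 / 6) (3 / 10000000) 0 (75 / 2) 0 m (21 / 40 * m + 1 / 10000) ≤
      72 / 7 * (1 - 0) * (21 / 40 * m + 1 / 10000) := by
  have q0 : 0 ≤ (51 / 5000) - m := by linarith
  have key : 72 / 7 * (1 - 0) * (21 / 40 * m + 1 / 10000) - (lsQ (5 / 6) 11 4 1 (1 / 6) (3 / 10000000)
      0 (75 / 2) 0 m (21 / 40 * m + 1 / 10000)) = (1448937685 / 1857114) * (((51 / 5000) - m) ^
      3) + (12931172633 / 825384) * (m * ((51 / 5000) - m) ^ 2) + (56587256603 / 2476152) * (m ^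
      2 * ((51 / 5000) - m)) + (469730292083 / 59427648) * (m ^ 3) := by
    unfold lsQ lsR lsD
    ring
  have pos : 0 ≤ (1448937685 / 1857114) * (((51 / 5000) - m) ^ 3) + (12931172633 / 825384) * (m * ((51 /
      5000) - m) ^ 2) + (56587256603 / 2476152) * (m ^ 2 * ((51 / 5000) - m)) + (469730292083 /
      59427648) * (m ^ 3) := by positivity
  linarith

theorem lsX_a5 {m : ℝ} (hm : 0 ≤ m) (hq : m ≤ (51 / 5000)) :
    lsQ (5 / 6) 11 4 1 (1 / 6) (3 / 10000000) 0 (75 / 2) 0 m (3 / 250) + (1 / 1000) ≤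
      72 / 7 * (1 - 0) * (3 / 250) := by
  have q0 : 0 ≤ (51 / 5000) - m := by linarith
  have key : 72 / 7 * (1 - 0) * (3 / 250) - (lsQ (5 / 6) 11 4 1 (1 / 6) (3 / 10000000) 0 (75 / 2) 0 m
      (3 / 250) + (1 / 1000)) = (171948331 / 14875000) * (((51 / 5000) - m)) + (93491631 /
      14875000) * (m) := by
    unfold lsQ lsR lsD
    ring
  have pos : 0 ≤ (171948331 / 14875000) * (((51 / 5000) - m)) + (93491631 / 14875000) * (m) := by positivity
  linarith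

section B

variable {V : Type} [Fintype V] {G : TG V} {w : V → ℝ} {μ : Fin 6 → V → ℝ} {v : Fin 6 → ℝ}
  {X : V → ℝ} {t : ℝ} {c : V → Fin 6}

/-- **Sizes of the classes of a total partition**, larger range. -/
theorem Dec.sizes_tot105 (D : Dec G w μ v X t)
    (hc : ∀ a x, v a * μ a x = (w x - X x) * pin c a x)
    (hρ : rho ≤ 28572 / 100000) (ht : rho - t ≤ 1 / 10 ^ 9) (hX : xX X = 0)
    (hm : mN G μ ≤ 21 / 2000) (h0 : ∑ b, |v b - 1 / 6| ≤ 3 / 100) :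
    ∑ b, |v b - 1 / 6| ≤ 53 / 100 * mN G μ + 1 / 10 ^ 4 := by
  have hm0 := mN_nonneg (G := G) D.hμ
  have e0 : ∀ b, sgm v X b = v b - 1 / 6 := by
    intro b; unfold sgm; rw [hX]; ring
  have e1 : ∑ b, |sgm v X b| = ∑ b, |v b - 1 / 6| := sum_congr rfl fun b _ => by rw [e0]
  obtain ⟨A, hA⟩ : ∃ A, ∑ b, |sgm v X b| = A := ⟨_, rfl⟩
  have hA1 : A ≤ 3 / 100 := by rw [← hA, e1]; exact h0
  have hv : ∀ a, 3 / 20 ≤ v a := by
    intro a
    have h1 := D.abs_sgm_le a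
    rw [hA] at h1
    have h2 := neg_abs_le (sgm v X a)
    rw [e0 a] at h1 h2
    linarith
  have h4 := D.delta_ls (c := c) hc hρ ht (vm := 3 / 20) (e1 := 3 / 10000000) (e2 := 254)
    (e3 := 40) (by norm_num) hv hA (by norm_num) (by norm_num) (by norm_num)
  have h5 : lsD (3 / 10000000) 254 40 (xX X) (mN G μ) A ≤
      lsD (3 / 10000000) 0 40 (xX X) (mN G μ) A := by
    unfold lsD; rw [hX]; norm_num
  have N : LsN (3 / 10000000) 0 40 (xX X) (mN G μ) (53 / 100 * mN G μ + 1 / 10000)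
      (3 / 100) := by
    rw [hX]
    exact ⟨lsY_l1 hm0 hm, lsY_l2 hm0 hm, lsY_l3 hm0 hm, lsY_l4 hm0 hm, lsY_l5 hm0 hm,
      lsY_a1 hm0 hm, lsY_a2 hm0 hm, lsY_a3 hm0 hm, lsY_a4 hm0 hm, lsY_a5 hm0 hm⟩
  have h := D.A_pass h4 hA (by rw [hX]; norm_num) hρ h5 (by norm_num) (by positivity) N hA1
  rw [← e1, hA]
  linarith

/-- all sets of classes of a total partition -/
theorem Dec.sizes_tot105_all (D : Dec G w μ v X t)
    (hc : ∀ a x, v a * μ a x = (w x - X x) * pin c a x)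
    (hρ : rho ≤ 28572 / 100000) (ht : rho - t ≤ 1 / 10 ^ 9) (hX : xX X = 0)
    (hm : mN G μ ≤ 21 / 2000) (h0 : ∑ b, |v b - 1 / 6| ≤ 3 / 100) (S : Finset (Fin 6)) :
    12 * ∑ a ∈ S, (v a - 1 / 6 + xX X / 6) ≤ 159 / 50 * mN G μ + 3 / 5000 := by
  have h := D.sizes_tot105 (c := c) hc hρ ht hX hm h0
  have h1 := D.sizes_all S
  have e1 : ∑ b, |sgm v X b| = ∑ b, |v b - 1 / 6| := sum_congr rfl fun b _ => by
    unfold sgm; rw [hX]; congr 1; ring
  rw [e1] at h1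
  linarith

/-- **Sizes of the classes of a total partition**, `mN ≤ 102 / 10000`. -/
theorem Dec.sizes_tot102 (D : Dec G w μ v X t)
    (hc : ∀ a x, v a * μ a x = (w x - X x) * pin c a x)
    (hρ : rho ≤ 28572 / 100000) (ht : rho - t ≤ 1 / 10 ^ 9) (hX : xX X = 0)
    (hm : mN G μ ≤ 51 / 5000) (h0 : ∑ b, |v b - 1 / 6| ≤ 3 / 100) :
    ∑ b, |v b - 1 / 6| ≤ 21 / 40 * mN G μ + 1 / 10 ^ 4 := by
  have hm0 := mN_nonneg (G := G) D.hμ
  have hp := D.sizes_tot105 (c := c) hc hρ ht hX (by linarith) h0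
  have e0 : ∀ b, sgm v X b = v b - 1 / 6 := by
    intro b; unfold sgm; rw [hX]; ring
  have e1 : ∑ b, |sgm v X b| = ∑ b, |v b - 1 / 6| := sum_congr rfl fun b _ => by rw [e0]
  obtain ⟨A, hA⟩ : ∃ A, ∑ b, |sgm v X b| = A := ⟨_, rfl⟩
  have hA1 : A ≤ 3 / 250 := by rw [← hA, e1]; linarith
  have hv : ∀ a, 4 / 25 ≤ v a := by
    intro a
    have h1 := D.abs_sgm_le a
    rw [hA] at h1
    have h2 := neg_abs_le (sgm v X a)
    rw [e0 a] at h1 h2
    linarith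
  have h4 := D.delta_ls (c := c) hc hρ ht (vm := 4 / 25) (e1 := 3 / 10000000) (e2 := 254)
    (e3 := 75 / 2) (by norm_num) hv hA (by norm_num) (by norm_num) (by norm_num)
  have h5 : lsD (3 / 10000000) 254 (75 / 2) (xX X) (mN G μ) A ≤
      lsD (3 / 10000000) 0 (75 / 2) (xX X) (mN G μ) A := by
    unfold lsD; rw [hX]; norm_num
  have N : LsN (3 / 10000000) 0 (75 / 2) (xX X) (mN G μ) (21 / 40 * mN G μ + 1 / 10000)
      (3 / 250) := by
    rw [hX]
    exact ⟨lsX_l1 hm0 hm, lsX_l2 hm0 hm, lsX_l3 hm0 hm, lsX_l4 hm0 hm, lsX_l5 hm0 hm,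
      lsX_a1 hm0 hm, lsX_a2 hm0 hm, lsX_a3 hm0 hm, lsX_a4 hm0 hm, lsX_a5 hm0 hm⟩
  have h := D.A_pass h4 hA (by rw [hX]; norm_num) hρ h5 (by norm_num) (by positivity) N hA1
  rw [← e1, hA]
  linarith

/-- all sets of classes of a total partition -/
theorem Dec.sizes_tot102_all (D : Dec G w μ v X t)
    (hc : ∀ a x, v a * μ a x = (w x - X x) * pin c a x)
    (hρ : rho ≤ 28572 / 100000) (ht : rho - t ≤ 1 / 10 ^ 9) (hX : xX X = 0)
    (hm : mN G μ ≤ 51 / 5000) (h0 : ∑ b, |v b - 1 / 6| ≤ 3 / 100) (S : Finset (Fin 6)) :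
    12 * ∑ a ∈ S, (v a - 1 / 6 + xX X / 6) ≤ 63 / 20 * mN G μ + 3 / 5000 := by
  have h := D.sizes_tot102 (c := c) hc hρ ht hX hm h0
  have h1 := D.sizes_all S
  have e1 : ∑ b, |sgm v X b| = ∑ b, |v b - 1 / 6| := sum_congr rfl fun b _ => by
    unfold sgm; rw [hX]; congr 1; ring
  rw [e1] at h1
  linarith

end B

section To

variable {V : Type} [Fintype V] (G : TG V) (w : V → ℝ) (c : V → Fin 6)

/-- **Sizes of the classes of a total partition**, larger range. -/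
theorem total_sizes105 (hw : IsW w) (hcl : ∀ a, 0 < cl w c a) (hdeg : ∀ x, deg G w x = val G w)
    (hcnd : ∀ f : V → ℝ, ∑ x, f x = 0 → tri G f f w ≤ 0) (hnear : rho - 1 / 10 ^ 12 ≤ val G w)
    (hrho : rho ≤ 28572 / 100000) (hm : mN G (muT w c) ≤ 21 / 2000)
    (h0 : ∑ b, |cl w c b - 1 / 6| ≤ 3 / 100) :
    ∑ b, |cl w c b - 1 / 6| ≤ 53 / 100 * mN G (muT w c) + 1 / 10 ^ 4 ∧
    ∀ S : Finset (Fin 6), 12 * ∑ a ∈ S, (cl w c a - 1 / 6) ≤
      159 / 50 * mN G (muT w c) + 3 / 5000 := by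
  have D := dec_total G hw hcl hdeg hcnd
  have hX : xX (fun _ : V => (0 : ℝ)) = 0 := by unfold xX; simp
  have hc : ∀ a x, cl w c a * muT w c a x = (w x - 0) * pin c a x := by
    intro a x
    rw [cl_mul_muT (hcl a), sub_zero]
    rfl
  have ht : rho - val G w ≤ 1 / 10 ^ 9 := by
    have : (1 : ℝ) / 10 ^ 12 ≤ 1 / 10 ^ 9 := by norm_num
    linarith
  refine ⟨D.sizes_tot105 (c := c) hc hrho ht hX hm h0, fun S => ?_⟩
  have h := D.sizes_tot105_all (c := c) hc hrho ht hX hm h0 S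
  rw [hX] at h
  simpa using h

/-- **Sizes of the classes of a total partition**, `mN ≤ 102 / 10000`. -/
theorem total_sizes102 (hw : IsW w) (hcl : ∀ a, 0 < cl w c a) (hdeg : ∀ x, deg G w x = val G w)
    (hcnd : ∀ f : V → ℝ, ∑ x, f x = 0 → tri G f f w ≤ 0) (hnear : rho - 1 / 10 ^ 12 ≤ val G w)
    (hrho : rho ≤ 28572 / 100000) (hm : mN G (muT w c) ≤ 51 / 5000)
    (h0 : ∑ b, |cl w c b - 1 / 6| ≤ 3 / 100) :
    ∑ b, |cl w c b - 1 / 6| ≤ 21 / 40 * mN G (muT w c) + 1 / 10 ^ 4 ∧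
    ∀ S : Finset (Fin 6), 12 * ∑ a ∈ S, (cl w c a - 1 / 6) ≤
      63 / 20 * mN G (muT w c) + 3 / 5000 := by
  have D := dec_total G hw hcl hdeg hcnd
  have hX : xX (fun _ : V => (0 : ℝ)) = 0 := by unfold xX; simp
  have hc : ∀ a x, cl w c a * muT w c a x = (w x - 0) * pin c a x := by
    intro a x
    rw [cl_mul_muT (hcl a), sub_zero]
    rfl
  have ht : rho - val G w ≤ 1 / 10 ^ 9 := by
    have : (1 : ℝ) / 10 ^ 12 ≤ 1 / 10 ^ 9 := by norm_num
    linarith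
  refine ⟨D.sizes_tot102 (c := c) hc hrho ht hX hm h0, fun S => ?_⟩
  have h := D.sizes_tot102_all (c := c) hc hrho ht hX hm h0 S
  rw [hX] at h
  simpa using h

end To

end K4m
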