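import Mathlib

/-!
# First stage: the numerical inequality
-/

set_option autoImplicit false

namespace K4m

/-- bound for the sizes -/
noncomputable def s1D (m ξ : ℝ) : ℝ := 14 / 25 * m + 13 / 4 * ξ + 1 / 10 ^ 4

/-- bound for the deficiencies -/
noncomputable def s1δ (m ξ : ℝ) : ℝ := 218 * ξ ^ 2 + 38 * (s1D m ξ * m) + 1 / 10 ^ 6

/-- bound for the exchange terms -/
noncomputable def s1χ (m ξ : ℝ) : ℝ := 127 / 5 * (s1D m ξ * m) + 17 / 4 * ξ + 1 / 10 ^ 4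

section Num

variable {m ξ : ℝ}

theorem s1_m (hm : 0 ≤ m) (hξ : 0 ≤ ξ) (h : 14 * ξ + 469 / 100 * m ≤ 48 / 1000) :
    m ≤ 1024 / 100000 ∧ ξ ≤ 343 / 100000 := by
  constructor <;> linarith

theorem s1D_nonneg (hm : 0 ≤ m) (hξ : 0 ≤ ξ) : 0 ≤ s1D m ξ := by
  unfold s1D; positivity

theorem s1D_le (hm : 0 ≤ m) (h : 14 * ξ + 469 / 100 * m ≤ 48 / 1000) :
    s1D m ξ ≤ 113 / 10000 := by
  unfold s1D
  linarith

theorem s1δ_nonneg (hm : 0 ≤ m) (hξ : 0 ≤ ξ) : 0 ≤ s1δ m ξ := by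
  have := s1D_nonneg hm hξ
  unfold s1δ; positivity

theorem s1χ_nonneg (hm : 0 ≤ m) (hξ : 0 ≤ ξ) : 0 ≤ s1χ m ξ := by
  have := s1D_nonneg hm hξ
  unfold s1χ; positivity

theorem s1Dm_eq : s1D m ξ * m = 14 / 25 * m ^ 2 + 13 / 4 * (m * ξ) + 1 / 10 ^ 4 * m := by
  unfold s1D; ring

theorem s1δ_le (hm : 0 ≤ m) (hξ : 0 ≤ ξ) (h : 14 * ξ + 469 / 100 * m ≤ 48 / 1000) :
    s1δ m ξ ≤ 3 / 1000 := by
  have hs : 0 ≤ 48 / 1000 - 14 * ξ - 469 / 100 * m := by linarith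
  unfold s1δ
  rw [s1Dm_eq]
  nlinarith [mul_nonneg hm hξ, mul_nonneg hm hs, mul_nonneg hξ hs]

theorem s1χ_le (hm : 0 ≤ m) (hξ : 0 ≤ ξ) (h : 14 * ξ + 469 / 100 * m ≤ 48 / 1000) :
    5 * m + s1χ m ξ ≤ 53 / 1000 := by
  have hs : 0 ≤ 48 / 1000 - 14 * ξ - 469 / 100 * m := by linarith
  unfold s1χ
  rw [s1Dm_eq]
  nlinarith [mul_nonneg hm hξ, mul_nonneg hm hs, mul_nonneg hξ hs]

/-- lower bound for the coefficients of the test vector -/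
theorem s1_mmlow (hm : 0 ≤ m) (hξ : 0 ≤ ξ) (h : 14 * ξ + 469 / 100 * m ≤ 48 / 1000) (D1 ρ : ℝ)
    (hD0 : 0 ≤ D1) (hD : D1 ≤ s1D m ξ) (hρ : ρ ≤ 28572 / 100000) :
    7 / 72 * (18 * (D1 ^ 2 + ξ ^ 2) + 6 * (D1 - ξ) * (59 / 25) + 72 * ξ) +
      7 / 12 * (ρ + 5 * m + s1χ m ξ) ≤ 224 / 1000 := by
  have hs : 0 ≤ 48 / 1000 - 14 * ξ - 469 / 100 * m := by linarith
  have h1 := s1D_le hm h
  have h2 : D1 ^ 2 ≤ 113 / 10000 * s1D m ξ := by nlinarith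
  unfold s1χ
  rw [s1Dm_eq]
  unfold s1D at h2 hD
  nlinarith [mul_nonneg hm hξ, mul_nonneg hm hs, mul_nonneg hξ hs]

/-- the first bound for the own densities -/
theorem s1_nu1 (hm : 0 ≤ m) (hξ : 0 ≤ ξ) (h : 14 * ξ + 469 / 100 * m ≤ 48 / 1000) (ρ : ℝ)
    (hρ : ρ ≤ 28572 / 100000) :
    ρ + 4 * m + 127 / 5 * (s1D m ξ * m) + 19 / 3 * ξ + 1 / 10 ^ 4 ≤ 47 / 140 := by
  have hs : 0 ≤ 48 / 1000 - 14 * ξ - 469 / 100 * m := by linarith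
  rw [s1Dm_eq]
  nlinarith [mul_nonneg hm hξ, mul_nonneg hm hs, mul_nonneg hξ hs]

/-- the quadratic bound -/
theorem s1_quad (hm : 0 ≤ m) (hξ : 0 ≤ ξ) (h : 14 * ξ + 469 / 100 * m ≤ 48 / 1000) :
    37 / 100000 + 859 / 100 * m + 2567 / 100 * ξ + 107 * m ^ 2 + 793 * (m * ξ) +
      1190 * ξ ^ 2 ≤ 105 / 1000 := by
  have hs : 0 ≤ 48 / 1000 - 14 * ξ - 469 / 100 * m := by linarith
  nlinarith [mul_nonneg hm hξ, mul_nonneg hm hs, mul_nonneg hξ hs]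

/-- all terms of the first stage -/
theorem s1_total (hm : 0 ≤ m) (hξ : 0 ≤ ξ) (h : 14 * ξ + 469 / 100 * m ≤ 48 / 1000)
    (D1 ρ t rh κ y0 rs : ℝ) (hD0 : 0 ≤ D1) (hD : D1 ≤ s1D m ξ) (hρ0 : 2 / 7 ≤ ρ)
    (hρ : ρ ≤ 28572 / 100000) (ht : t ≤ ρ)
    (hy0 : y0 = 24 / 5 * m + s1δ m ξ + 169 * (ρ - 2 / 7))
    (hrs : rs = 8 * m + 4 / 3 * s1δ m ξ + 71 * (ρ - 2 / 7))
    (hrh : rh = 39 / 80 * y0 + 57 / 80 * rs)
    (hκ : κ = 3 * ((s1D m ξ + ξ) / 2) + y0 / 36 + 42 * (2 * ((s1D m ξ + ξ) / 2) + y0 / 36) ^ 2) :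
    43 * (ρ - 2 / 7) + (36 * ξ * (t + 2 / 7) + (12 * D1 * rh + 18 * (1 + 14 / 5) *
      (D1 ^ 2 + 2 * ξ ^ 2) + 36 * ξ * κ)) + 5 * m + s1χ m ξ + 2 * m * (41 / 100) +
      7 / 12 * (2 * (41 / 100) + (ρ + 5 * m + s1χ m ξ)) * (4 * m + 8 / 7 * s1δ m ξ) ≤
      105 / 1000 := by
  have h1 := s1D_le hm h
  have h2 := s1δ_le hm hξ h
  have h3 := s1χ_le hm hξ h
  have h4 := s1δ_nonneg hm hξ
  have h5 := s1D_nonneg hm hξ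
  obtain ⟨m1, x1⟩ := s1_m hm hξ h
  have hσ : ρ - 2 / 7 ≤ 6 / 10 ^ 6 := by linarith
  have hσ0 : 0 ≤ ρ - 2 / 7 := by linarith
  -- the size term
  have hy0b : y0 ≤ 24 / 5 * m + 402 / 100000 := by rw [hy0]; linarith
  have hy00 : 0 ≤ y0 := by rw [hy0]; linarith
  have hrhb : rh ≤ 804 / 100 * m + 52 / 10000 := by rw [hrh, hrs, hy0]; linarith
  have hrh0 : 0 ≤ rh := by rw [hrh, hrs, hy0]; linarith
  have k1 : D1 * rh ≤ s1D m ξ * (804 / 100 * m + 52 / 10000) :=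
    mul_le_mul hD hrhb hrh0 h5
  have k2 : D1 ^ 2 ≤ s1D m ξ ^ 2 := pow_le_pow_left₀ hD0 hD 2
  -- the garbage term
  have k3 : 2 * ((s1D m ξ + ξ) / 2) + y0 / 36 ≤ 155 / 10000 := by
    unfold s1D
    linarith
  have k4 : 0 ≤ 2 * ((s1D m ξ + ξ) / 2) + y0 / 36 := by positivity
  have k5 : (2 * ((s1D m ξ + ξ) / 2) + y0 / 36) ^ 2 ≤
      155 / 10000 * (2 * ((s1D m ξ + ξ) / 2) + y0 / 36) := by nlinarith
  have k6 : κ ≤ 2151 / 1000 * (s1D m ξ + ξ) + 46 / 1000 * (24 / 5 * m + 402 / 100000) := by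
    rw [hκ]
    linarith
  have k7 : ξ * κ ≤ ξ * (2151 / 1000 * (s1D m ξ + ξ) +
      46 / 1000 * (24 / 5 * m + 402 / 100000)) := mul_le_mul_of_nonneg_left k6 hξ
  have k8 : ξ * (t + 2 / 7) ≤ ξ * (4 / 7 + 6 / 10 ^ 6) :=
    mul_le_mul_of_nonneg_left (by linarith) hξ
  -- the last term
  have k9 : 7 / 12 * (2 * (41 / 100) + (ρ + 5 * m + s1χ m ξ)) * (4 * m + 8 / 7 * s1δ m ξ) ≤
      7 / 12 * (116 / 100) * (4 * m + 8 / 7 * s1δ m ξ) := by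
    refine mul_le_mul_of_nonneg_right ?_ (by linarith)
    linarith
  have k10 : ξ ^ 2 ≤ 343 / 100000 * ξ := by nlinarith
  have h6 := s1_quad hm hξ h
  have hδ : s1δ m ξ = 218 * ξ ^ 2 + 38 * (14 / 25 * m ^ 2 + 13 / 4 * (m * ξ) + 1 / 10 ^ 4 * m) +
      1 / 10 ^ 6 := by unfold s1δ; rw [s1Dm_eq]
  have hχ : s1χ m ξ = 127 / 5 * (14 / 25 * m ^ 2 + 13 / 4 * (m * ξ) + 1 / 10 ^ 4 * m) +
      17 / 4 * ξ + 1 / 10 ^ 4 := by unfold s1χ; rw [s1Dm_eq]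
  have e1 : s1D m ξ * (804 / 100 * m + 52 / 10000) = (14 / 25 * m + 13 / 4 * ξ + 1 / 10 ^ 4) *
      (804 / 100 * m + 52 / 10000) := rfl
  have e2 : s1D m ξ ^ 2 = (14 / 25 * m + 13 / 4 * ξ + 1 / 10 ^ 4) ^ 2 := rfl
  have e3 : ξ * (2151 / 1000 * (s1D m ξ + ξ) + 46 / 1000 * (24 / 5 * m + 402 / 100000)) =
      ξ * (2151 / 1000 * ((14 / 25 * m + 13 / 4 * ξ + 1 / 10 ^ 4) + ξ) +
      46 / 1000 * (24 / 5 * m + 402 / 100000)) := rfl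
  rw [e1] at k1
  rw [e2] at k2
  rw [e3] at k7
  rw [hχ]
  rw [hχ, hδ] at k9
  rw [hδ]
  nlinarith [k1, k2, k7, k8, k9, k10, h6, mul_nonneg hm hξ, sq_nonneg m, sq_nonneg ξ]

end Num

end K4m
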