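import Mathlib
import Pool.Agent.Lib.MP_392c14_co.Acc.S1C

/-!
# Arithmetic of the first stage, strong form
-/

set_option autoImplicit false

namespace K4m

open Finset

/-- one class -/
theorem s1g_one (p ν Dd Y M B e P ρ χ y : ℝ) (hp0 : 0 ≤ p) (hp : p ≤ 7 / 10)
    (hDl : 2 * (1 - P - p) ≤ Dd) (hDu : Dd ≤ 2 * (1 - p) + M) (hν0 : 0 ≤ ν)
    (hνN : ν ≤ ρ + 2 * B - e + χ) (hYM : 2 * B - e - Y ≤ 2 * M) (hM0 : 0 ≤ M) (hχ : 0 ≤ χ)
    (hNl : 1 / 5 ≤ ρ + 2 * B - e + χ) (hY : -(1 / 5) ≤ Y) (hρ : 2 / 7 ≤ ρ)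
    (hy : M + (ρ + 2 * B - e + χ) ≤ y) :
    p * ν + 7 / 12 * ((Dd + ν) * Y) ≤ p * (ρ + 2 * M + χ) + 7 / 6 * (1 - P) * Y +
      7 / 12 * (2 * P + y) * max Y 0 := by
  rcases le_total 0 Y with h | h
  · rw [max_eq_left h]
    have h1 : p * ν ≤ p * (ρ + 2 * B - e + χ) := mul_le_mul_of_nonneg_left hνN hp0
    have h2 : (Dd + ν) * Y ≤ (2 * (1 - p) + y) * Y :=
      mul_le_mul_of_nonneg_right (by linarith) h
    have h3 : p * (2 * B - e - Y) ≤ p * (2 * M) := mul_le_mul_of_nonneg_left hYM hp0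
    have h4 : 0 ≤ p * Y := mul_nonneg hp0 h
    nlinarith [h1, h2, h3, h4]
  · rw [max_eq_right h]
    have h2 : (Dd + ν) * Y ≤ (2 * (1 - P - p) + ν) * Y :=
      mul_le_mul_of_nonpos_right (by linarith) h
    rcases le_total (p + 7 / 12 * Y) 0 with h5 | h5
    · have h6 : ν * (p + 7 / 12 * Y) ≤ 0 := mul_nonpos_of_nonneg_of_nonpos hν0 h5
      have h7 : 0 ≤ p * (ρ + 2 * M + χ + 7 / 6 * Y) := mul_nonneg hp0 (by linarith)
      nlinarith [h2, h6, h7]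
    · have h6 : ν * (p + 7 / 12 * Y) ≤ (ρ + 2 * B - e + χ) * (p + 7 / 12 * Y) :=
        mul_le_mul_of_nonneg_right hνN h5
      have h3 : p * (2 * B - e - Y) ≤ p * (2 * M) := mul_le_mul_of_nonneg_left hYM hp0
      have h7 : 0 ≤ -Y * (7 / 12 * (ρ + 2 * B - e + χ) - 1 / 6 * p) :=
        mul_nonneg (by linarith) (by linarith)
      nlinarith [h2, h6, h3, h7]

/-- the arithmetic of the first stage -/
theorem s1g_arith (p ν Dd Y M B e : Fin 6 → ℝ) (R P q ρ m χ δ y X0 T P0 : ℝ)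
    (hp0 : ∀ a, 0 ≤ p a) (hp : ∀ a, p a ≤ 7 / 10) (hP : P = 1 - ∑ a, p a)
    (hP41 : 23 / 100 ≤ P) (hP0 : P0 ≤ 1 / 2) (hT : 0 ≤ T)
    (hR : R = ∑ a, (Dd a + ν a))
    (hel : T + R ≤ 10 + ∑ a, p a * ν a + q * P + 7 / 2 * m)
    (hRL : 72 / 7 + ∑ a, (1 / 6 + 7 / 12 * (R / 6 - (Dd a + ν a))) * Y a - X0 ≤ R)
    (hDl : ∀ a, 2 * (1 - P - p a) ≤ Dd a) (hDu : ∀ a, Dd a ≤ 2 * (1 - p a) + M a)
    (hν0 : ∀ a, 0 ≤ ν a) (hνN : ∀ a, ν a ≤ ρ + 2 * B a - e a + χ)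
    (k : Fin 6) (hq : q ≤ ρ + χ + max (2 * B k - e k) 0) (hq1 : q ≤ 47 / 140)
    (hν1 : ∀ a, ν a ≤ 47 / 140)
    (hYM : ∀ a, 2 * B a - e a - Y a ≤ 2 * M a) (hM0 : ∀ a, 0 ≤ M a) (hMm : ∀ a, M a ≤ m)
    (hB : ∀ a, B a ≤ 2 * M a) (heB : ∀ a, e a ≤ 3 * B a + δ) (hδ : 0 ≤ δ) (hχ : 0 ≤ χ)
    (hm : m ≤ 3 / 100)
    (hset : ∀ (S : Finset (Fin 6)) (α P' : ℝ), 2 / 7 * α ≤ P' → P' ≤ 6 / 7 * α → 0 ≤ α →
      α * ∑ a ∈ S, Y a + P' * (2 * B k - e k) ≤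
        (4 * α + 4 * P') * m + 6 / 7 * α * ∑ a, Y a + 6 / 7 * α * δ)
    (hYs : ∑ a, Y a ≤ 210 * (ρ - 2 / 7)) (hYs2 : -(12 * m + δ) ≤ ∑ a, Y a)
    (hY : ∀ a, -(1 / 5) ≤ Y a) (hρ : 2 / 7 ≤ ρ)
    (hNl : ∀ a, 1 / 5 ≤ ρ + 2 * B a - e a + χ)
    (hy : ∀ a, M a + (ρ + 2 * B a - e a + χ) ≤ y) (hy1 : 2 / 7 ≤ y) (hy2 : y ≤ 9 / 25)
    (hRl : 72 / 7 - 1 / 2 ≤ R) :
    T ≤ 43 * (ρ - 2 / 7) + X0 + 11 / 2 * m + χ + 2 * m * P +
      7 / 12 * (2 * P + y) * (4 * m + 8 / 7 * δ) + max (P - P0) 0 / 6 * (12 * m + δ) := by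
  obtain ⟨z, hz⟩ : ∃ z, z = max (P - P0) 0 := ⟨_, rfl⟩
  have z0 : 0 ≤ z := by rw [hz]; exact le_max_right _ _
  have z1 : P - P0 ≤ z := by rw [hz]; exact le_max_left _ _
  rw [← hz]
  have hp' : ∑ a, p a = 1 - P := by linarith
  have hPle : P ≤ 1 := by
    have : 0 ≤ ∑ a, p a := sum_nonneg fun a _ => hp0 a
    linarith
  have hm0 : 0 ≤ m := (hM0 0).trans (hMm 0)
  -- one class
  have h1 := sum_le_sum (s := univ) fun a _ => s1g_one (p a) (ν a) (Dd a) (Y a) (M a) (B a) (e a)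
    P ρ χ y (hp0 a) (hp a) (hDl a) (hDu a) (hν0 a) (hνN a) (hYM a) (hM0 a) hχ (hNl a) (hY a) hρ
    (hy a)
  simp only [sum_add_distrib] at h1
  rw [← mul_sum, ← mul_sum, ← mul_sum] at h1
  have h2 : ∑ a, p a * (ρ + 2 * M a + χ) ≤ (1 - P) * (ρ + 2 * m + χ) := by
    rw [← hp', sum_mul]
    exact sum_le_sum fun a _ => mul_le_mul_of_nonneg_left (by linarith [hMm a]) (hp0 a)
  set S : Finset (Fin 6) := univ.filter (fun a => 0 ≤ Y a) with hS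
  have h3 : ∑ a, max (Y a) 0 = ∑ a ∈ S, Y a := by
    rw [hS, sum_filter]
    refine sum_congr rfl fun a _ => ?_
    by_cases h : 0 ≤ Y a
    · rw [if_pos h, max_eq_left h]
    · rw [if_neg h, max_eq_right (not_le.1 h).le]
  rw [h3] at h1
  set α := 7 / 12 * (2 * P + y) with hα
  have hα0 : 0 ≤ α := by rw [hα]; linarith
  -- the joint bound
  have h4 : α * ∑ a ∈ S, Y a + q * P ≤ P * (ρ + χ) + (4 * α + 4 * P) * m +
      6 / 7 * α * ∑ a, Y a + 8 / 7 * α * δ := by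
    have hP0 : 0 ≤ P := by linarith
    have h5 : q * P ≤ (ρ + χ + max (2 * B k - e k) 0) * P := mul_le_mul_of_nonneg_right hq hP0
    have hαδ : 0 ≤ α * δ := mul_nonneg hα0 hδ
    rcases le_total 0 (2 * B k - e k) with h | h
    · rw [max_eq_left h] at h5
      have h6 := hset S α P (by rw [hα]; linarith) (by rw [hα]; linarith) hα0
      nlinarith [h5, h6, hαδ]
    · rw [max_eq_right h] at h5
      have h6 := hset S α (2 / 7 * α) le_rfl (by linarith) hα0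
      have h7 : -(2 * m + δ) ≤ 2 * B k - e k := by
        have := heB k; have := hB k; have := hMm k; linarith
      have h8 : 2 / 7 * α * (-(2 * m + δ)) ≤ 2 / 7 * α * (2 * B k - e k) :=
        mul_le_mul_of_nonneg_left h7 (by linarith)
      have h9 : (12 / 7 * α) * m ≤ (4 * P) * m :=
        mul_le_mul_of_nonneg_right (by rw [hα]; linarith) hm0
      nlinarith [h5, h6, h8, h9]
  -- the expression in `R`
  have h5 : ∑ a, (1 / 6 + 7 / 12 * (R / 6 - (Dd a + ν a))) * Y a =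
      (1 / 6 + 7 * R / 72) * ∑ a, Y a - 7 / 12 * ∑ a, (Dd a + ν a) * Y a := by
    rw [mul_sum, mul_sum, ← sum_sub_distrib]
    exact sum_congr rfl fun a _ => by ring
  rw [h5] at hRL
  have hRu : R ≤ 72 / 7 + 1 / 2 := by
    have k1 : ∑ a, p a * ν a ≤ (1 - P) * (47 / 140) := by
      rw [← hp', sum_mul]
      exact sum_le_sum fun a _ => mul_le_mul_of_nonneg_left (hν1 a) (hp0 a)
    have k2 : q * P ≤ 47 / 140 * P := mul_le_mul_of_nonneg_right hq1 (by linarith)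
    nlinarith
  -- the coefficient of the sum of the deviations
  set κ := y / 2 - P / 6 + 1 - 7 * R / 72 with hκ
  have h6 : κ * ∑ a, Y a ≤ 42 * (ρ - 2 / 7) + z / 6 * (12 * m + δ) := by
    have k1 : κ ≤ 1 / 5 := by rw [hκ]; linarith
    have k2 : -(z / 6) ≤ κ := by rw [hκ]; linarith
    have k3 : 0 ≤ 12 * m + δ := by linarith
    rcases le_total 0 κ with h | h
    · have a1 : κ * ∑ a, Y a ≤ κ * (210 * (ρ - 2 / 7)) := mul_le_mul_of_nonneg_left hYs h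
      have a2 : κ * (210 * (ρ - 2 / 7)) ≤ 1 / 5 * (210 * (ρ - 2 / 7)) :=
        mul_le_mul_of_nonneg_right k1 (by linarith)
      have a3 : 0 ≤ z / 6 * (12 * m + δ) := mul_nonneg (by linarith) k3
      linarith
    · have a1 : (-κ) * (-∑ a, Y a) ≤ (-κ) * (12 * m + δ) :=
        mul_le_mul_of_nonneg_left (by linarith) (by linarith)
      have a2 : (-κ) * (12 * m + δ) ≤ z / 6 * (12 * m + δ) :=
        mul_le_mul_of_nonneg_right (by linarith) k3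
      have a3 : 0 ≤ 42 * (ρ - 2 / 7) := by linarith
      linarith
  have hκ2 : κ = 6 / 7 * α - (1 / 6 + 7 * R / 72) + 7 / 6 * (1 - P) := by
    rw [hκ, hα]; ring
  have h7 : κ * ∑ a, Y a = 6 / 7 * α * ∑ a, Y a - (1 / 6 + 7 * R / 72) * ∑ a, Y a +
      7 / 6 * (1 - P) * ∑ a, Y a := by rw [hκ2]; ring
  rw [h7] at h6
  have h8 : (1 - P) * (ρ + 2 * m + χ) = ρ + χ + 2 * m - 2 * m * P - P * (ρ + χ) := by ring
  have h9 : (4 * α + 4 * P) * m = 4 * α * m + 4 * m * P := by ring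
  have h10 : α * (4 * m + 8 / 7 * δ) = 4 * α * m + 8 / 7 * α * δ := by ring
  rw [h10]
  rw [h8] at h2
  rw [h9] at h4
  linarith


section Num

variable {m ξ : ℝ}

/-- the quadratic bound -/
theorem s1g_quad (hm : 0 ≤ m) (hξ : 0 ≤ ξ) (h : 14 * ξ + 469 / 100 * m ≤ 48 / 1000) :
    37 / 100000 + 859 / 100 * m + 2567 / 100 * ξ + 107 * m ^ 2 + 793 * (m * ξ) +
      1190 * ξ ^ 2 ≤ 103 / 1000 := by
  have hs : 0 ≤ 48 / 1000 - 14 * ξ - 469 / 100 * m := by linarith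
  nlinarith [mul_nonneg hm hξ, mul_nonneg hm hs, mul_nonneg hξ hs]

end Num

end K4m
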