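import Mathlib
import Pool.Agent.Lib.MP_392c14_co.Z9P
import Pool.Agent.Lib.MP_392c14_co.Acc.Stage1
import Pool.Agent.Lib.MP_392c14_co.Acc.S1G

/-!
# First stage, strong form

The accounting of `Stage1` with the second elimination inequality (multiplier `7 / 2` of the
blocks). The hypotheses `n1`, ..., `n6` are the numerical inequalities.
-/

set_option autoImplicit false

namespace K4m

open Finset Function

section Low

variable {V : Type} [Fintype V] {μ : Fin 6 → V → ℝ} {L : V → V → Bool}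

/-- if all the probabilities are at most `69 / 100`, then their sum is at most `77 / 100` -/
theorem purity_69s (h0 : ∀ i v, 0 ≤ μ i v) (h1 : ∀ i, ∑ v, μ i v = 1)
    (hs : ∀ x y, L x y = L y x)
    (ht : ∀ x y t, ¬ (L x y = true ∧ L y t = true ∧ L x t = true))
    (hall : ∀ k, pProb μ L k ≤ 69 / 100) :
    ∑ k, pProb μ L k ≤ 77 / 100 := by
  obtain ⟨r, hr, h6⟩ := exists_root μ L h0
  have hF := purity_LW μ L h0 h1 hs ht hr h6
  have h3 := root_cube μ L h0 h1 hr h6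
  have hr1 := root_le_one μ L h0 h1 hr h6
  rw [show ∑ k, pProb μ L k = ∑ k, r k ^ 6 from sum_congr rfl fun k _ => (h6 k).symm]
  obtain ⟨j, -, hj⟩ := exists_max_image univ r ⟨0, mem_univ 0⟩
  have hj' : ∀ k, r k ≤ r j := fun k => hj k (mem_univ k)
  have hb : r j ≤ 9401 / 10000 := by
    refine rootn_le (hr j) (by norm_num) (n := 6) (by norm_num) ?_
    rw [h6 j]
    exact (hall j).trans (by norm_num)
  obtain ⟨i, hi, hi2⟩ := exists_max_image (univ.erase j) r (erase_nonempty6 j)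
  have hij : i ≠ j := ne_of_mem_erase hi
  have hi' : ∀ k, k ≠ j → r k ≤ r i := fun k hk => hi2 k (mem_erase.2 ⟨hk, mem_univ k⟩)
  have hc := h3 j i hij.symm
  by_cases c0 : (89 / 100 : ℝ) ≤ r j
  · have hbi : r i ≤ 333 / 500 := by
      refine rootn_le (hr i) (by norm_num) (n := 3) (by norm_num) ?_
      have := pow_le_pow_left₀ (by norm_num : (0 : ℝ) ≤ 89 / 100) c0 3
      norm_num at this ⊢
      linarith
    exact pur3_two r hr hF hi' hb hbi (by norm_num) (by norm_num) (by norm_num)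
  replace hb : r j ≤ 89 / 100 := (not_le.1 c0).le
  exact pur3_one r hr hF (fun k => (hj' k).trans hb) (by norm_num) (by norm_num)

end Low

section Stage1

variable {V : Type} [Fintype V] {G : TG V} {w : V → ℝ} {μ : Fin 6 → V → ℝ} {v : Fin 6 → ℝ}
  {X : V → ℝ} {t : ℝ}

/-- FIRST STAGE, strong form: no vertex has all pentagon probabilities at most `p0` -/
theorem Dec.stage1g (D : Dec G w μ v X t) (S : Fin 6 → V → Bool)
    (hS : ∀ a x, v a * μ a x = w x * ind (S a x)) (c : V → Fin 6)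
    (hc : ∀ a x, v a * μ a x = (w x - X x) * pin c a x)
    (hval : rho - 1 / 10 ^ 12 ≤ val G w) (hvt : val G w = t) (hρ : rho ≤ 28572 / 100000)
    (hv : ∀ a, 79 / 500 ≤ v a)
    (hD : ∑ b, |v b - 1 / 6| ≤ 14 / 25 * mN G μ + 13 / 4 * xX X + 1 / 10 ^ 4)
    (m1 : mN G μ ≤ 21 / 2000) (x1 : xX X ≤ 343 / 100000)
    (n1 : s1D (mN G μ) (xX X) ≤ 113 / 10000) (n2 : s1δ (mN G μ) (xX X) ≤ 3 / 1000)
    (n3 : 5 * mN G μ + s1χ (mN G μ) (xX X) ≤ 55 / 1000)
    (nν : ∀ ρ : ℝ, ρ ≤ 28572 / 100000 → ρ + 4 * mN G μ +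
      127 / 5 * (s1D (mN G μ) (xX X) * mN G μ) + 19 / 3 * xX X + 1 / 10 ^ 4 ≤ 47 / 140)
    (nm : ∀ D1 ρ : ℝ, 0 ≤ D1 → D1 ≤ s1D (mN G μ) (xX X) → ρ ≤ 28572 / 100000 →
      7 / 72 * (18 * (D1 ^ 2 + xX X ^ 2) + 6 * (D1 - xX X) * (59 / 25) + 72 * xX X) +
      7 / 12 * (ρ + 5 * mN G μ + s1χ (mN G μ) (xX X)) ≤ 224 / 1000)
    (P0 t0 T : ℝ) (hP0 : P0 ≤ 1 / 2) (ht0 : 0 ≤ t0)
    (nt : ∀ D1 ρ t rh κ y0 rs : ℝ, 0 ≤ D1 → D1 ≤ s1D (mN G μ) (xX X) → 2 / 7 ≤ ρ →
      ρ ≤ 28572 / 100000 → t ≤ ρ →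
      y0 = 24 / 5 * mN G μ + s1δ (mN G μ) (xX X) + 169 * (ρ - 2 / 7) →
      rs = 8 * mN G μ + 4 / 3 * s1δ (mN G μ) (xX X) + 71 * (ρ - 2 / 7) →
      rh = 39 / 80 * y0 + 57 / 80 * rs →
      κ = 3 * ((s1D (mN G μ) (xX X) + xX X) / 2) + y0 / 36 +
        42 * (2 * ((s1D (mN G μ) (xX X) + xX X) / 2) + y0 / 36) ^ 2 →
      43 * (ρ - 2 / 7) + (36 * xX X * (t + 2 / 7) + (12 * D1 * rh + 18 * (1 + 14 / 5) *
        (D1 ^ 2 + 2 * xX X ^ 2) + 36 * xX X * κ)) + 11 / 2 * mN G μ +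
        s1χ (mN G μ) (xX X) + 2 * mN G μ * P0 +
        7 / 12 * (2 * P0 + (ρ + 5 * mN G μ + s1χ (mN G μ) (xX X))) *
          (4 * mN G μ + 8 / 7 * s1δ (mN G μ) (xX X)) < t0)
    (x : V) (hp : ∀ j, pProb μ (G.E x) j ≤ 69 / 100)
    (hT : t0 + 29 / 100 * max (1 - ∑ j, pProb μ (G.E x) j - P0) 0 ≤ T)
    (hel1 : ∀ q : ℝ, (∀ a, qd (μ a) (G.E x) ≤ q) → 2 / 7 ≤ q → q ≤ 47 / 140 →
      ∑ k, qd (μ k) (G.E x) * (1 - pProb μ (G.E x) k) ≤
        10 - 2 * E6 μ (DD (G.E x)) + q * (1 - ∑ k, pProb μ (G.E x) k) +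
        7 / 2 * E6 μ (BB (G.E x)) - T) : False := by
  classical
  obtain ⟨m, hm⟩ : ∃ m, m = mN G μ := ⟨_, rfl⟩
  obtain ⟨ξ, hξ⟩ : ∃ ξ, ξ = xX X := ⟨_, rfl⟩
  obtain ⟨D1, hD1⟩ : ∃ D1, D1 = ∑ b, |v b - 1 / 6| := ⟨_, rfl⟩
  have hμ := D.hμ
  have m0 : 0 ≤ m := by rw [hm]; exact mN_nonneg hμ
  have ξ0 : 0 ≤ ξ := by rw [hξ]; exact D.xX_nonneg
  rw [← hm, ← hξ] at n1 n2 n3 nν nm nt
  rw [← hm] at m1
  rw [← hξ] at x1
  rw [← hD1, ← hm, ← hξ] at hD
  have hD' : D1 ≤ s1D m ξ := hD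
  have D10 : 0 ≤ D1 := by rw [hD1]; exact sum_nonneg fun b _ => abs_nonneg _
  have hρ0 := two_sevenths_le_rho
  have htρ : t ≤ rho := by rw [← hvt]; exact val_le_rho G w D.hw
  have htl : rho - 1 / 10 ^ 12 ≤ t := by rw [← hvt]; exact hval
  have n4 := s1δ_nonneg m0 ξ0
  have n5 := s1D_nonneg m0 ξ0
  have n6 := s1χ_nonneg m0 ξ0
  -- deficiencies
  have h4 : ∀ J : Finset (Fin 6), ∑ a ∈ J, (eN G μ a - 3 * BN G μ a) ≤ s1δ m ξ := by
    intro J
    have h := D.delta c hc htρ (79 / 500) (s1D m ξ) (by norm_num) hv (by rw [← hD1]; exact hD') J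
    rw [← hm, ← hξ] at h
    refine h.trans ?_
    have a1 : ((rho - t) + 3 * rho * ξ ^ 2) / (79 / 500) ^ 3 ≤ 218 * ξ ^ 2 + 1 / 10 ^ 6 := by
      rw [div_le_iff₀ (by norm_num)]
      nlinarith [sq_nonneg ξ]
    have a2 : 6 * s1D m ξ * m / (79 / 500) ≤ 38 * (s1D m ξ * m) := by
      rw [div_le_iff₀ (by norm_num)]
      nlinarith [mul_nonneg n5 m0]
    unfold s1δ
    linarith
  -- own densities
  have hν1 : ∀ a y, kk G y (μ a) (μ a) ≤ 47 / 140 := by
    intro a y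
    have h := D.nu_bd a (S a) (hS a) hval hvt (79 / 500) (s1D m ξ) (1 / 2) (by norm_num) hv
      (by rw [← hD1]; exact hD') (fun z => kk_le_half G (hμ a) z) y
    rw [← hm, ← hξ] at h
    refine h.trans (le_trans ?_ (nν rho hρ))
    have b1 := BN_le (G := G) hμ a
    have b2 := MN_le (G := G) hμ a
    have b3 := eN_nonneg (G := G) hμ a
    rw [← hm] at b2
    have a1 : 4 * (s1D m ξ / (79 / 500)) * m ≤ 127 / 5 * (s1D m ξ * m) := by
      have := mul_nonneg n5 m0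
      have e : 4 * (s1D m ξ / (79 / 500)) * m = 2000 / 79 * (s1D m ξ * m) := by ring
      rw [e]; nlinarith
    have a2 : 2 * ξ * (1 / 2) / (79 / 500) ≤ 19 / 3 * ξ := by
      have e : 2 * ξ * (1 / 2) / (79 / 500) = 500 / 79 * ξ := by ring
      rw [e]; nlinarith
    linarith
  have hνN : ∀ a, kk G x (μ a) (μ a) ≤ rho + 2 * BN G μ a - eN G μ a + s1χ m ξ := by
    intro a
    have h := D.nu_bd a (S a) (hS a) hval hvt (79 / 500) (s1D m ξ) (47 / 140) (by norm_num) hv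
      (by rw [← hD1]; exact hD') (fun z => hν1 a z) x
    rw [← hm, ← hξ] at h
    refine h.trans ?_
    have a1 : 4 * (s1D m ξ / (79 / 500)) * m ≤ 127 / 5 * (s1D m ξ * m) := by
      have := mul_nonneg n5 m0
      have e : 4 * (s1D m ξ / (79 / 500)) * m = 2000 / 79 * (s1D m ξ * m) := by ring
      rw [e]; nlinarith
    have a2 : 2 * ξ * (47 / 140) / (79 / 500) ≤ 17 / 4 * ξ := by
      have e : 2 * ξ * (47 / 140) / (79 / 500) = (47 * 500) / (70 * 79) * ξ := by ring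
      rw [e]; nlinarith
    unfold s1χ
    linarith
  -- local quantities
  have bM0 : ∀ a, 0 ≤ MN G μ a := fun a => MN_nonneg hμ a
  have bMm : ∀ a, MN G μ a ≤ m := fun a => by rw [hm]; exact MN_le hμ a
  have bB : ∀ a, BN G μ a ≤ 2 * MN G μ a := fun a => BN_le hμ a
  have bB0 : ∀ a, 0 ≤ BN G μ a := fun a => BN_nonneg hμ a
  have be : ∀ a, eN G μ a ≤ 3 * BN G μ a + s1δ m ξ := fun a => by
    have := h4 {a}
    rw [sum_singleton] at this
    linarith
  have be0 : ∀ a, 0 ≤ eN G μ a := fun a => eN_nonneg hμ a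
  have hNl : ∀ a, 1 / 5 ≤ rho + 2 * BN G μ a - eN G μ a + s1χ m ξ := fun a => by
    have := be a; have := bB a; have := bMm a; linarith
  have hy : ∀ a, MN G μ a + (rho + 2 * BN G μ a - eN G μ a + s1χ m ξ) ≤
      rho + 5 * m + s1χ m ξ := fun a => by
    have := bB a; have := bMm a; have := be0 a; linarith
  have hν0 : ∀ a, 0 ≤ kk G x (μ a) (μ a) := fun a =>
    kk_nonneg G x _ _ (hμ a).nonneg (hμ a).nonneg
  obtain ⟨k, -, hk⟩ := exists_max_image univ (fun a => kk G x (μ a) (μ a)) ⟨0, mem_univ 0⟩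
  set q : ℝ := max (2 / 7) (kk G x (μ k) (μ k)) with hq
  have hqa : ∀ a, kk G x (μ a) (μ a) ≤ q := fun a => (hk a (mem_univ a)).trans (le_max_right _ _)
  have hq1 : q ≤ 47 / 140 := max_le (by norm_num) (hν1 k x)
  have hqk : q ≤ rho + s1χ m ξ + max (2 * BN G μ k - eN G μ k) 0 := by
    refine max_le ?_ ?_
    · have := le_max_right (2 * BN G μ k - eN G μ k) 0
      linarith
    · have := le_max_left (2 * BN G μ k - eN G μ k) 0
      have := hνN k
      linarith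
  set P : ℝ := 1 - ∑ j, pProb μ (G.E x) j with hP
  have hp0 : ∀ a, 0 ≤ pProb μ (G.E x) a := fun a =>
    pProb_nonneg μ (G.E x) (fun i y => (hμ i).nonneg y) a
  -- degrees
  have hnee : ∀ a, ∑ j, nee a j * pProb μ (G.E x) j =
      ∑ j, pProb μ (G.E x) j - pProb μ (G.E x) a := by
    intro a
    have h : ∀ j, nee a j * pProb μ (G.E x) j = pProb μ (G.E x) j -
        (if a = j then pProb μ (G.E x) j else 0) := by
      intro j
      unfold nee
      by_cases h : a = j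
      · rw [if_pos h, if_pos h]; ring
      · rw [if_neg h, if_neg h]; ring
    rw [sum_congr rfl fun j _ => h j, sum_sub_distrib, sum_ite_eq, if_pos (mem_univ _)]
  have hDl : ∀ a, 2 * (1 - P - pProb μ (G.E x) a) ≤ Dn G μ x a := fun a => by
    have := Dn_ge G hμ x a
    rw [hnee a] at this
    rw [hP]
    linarith
  have hDu : ∀ a, Dn G μ x a ≤ 2 * (1 - pProb μ (G.E x) a) + MN G μ a := fun a => Dn_le G hμ x a
  -- the elimination inequality
  have hel0 := hel1 q (fun a => by rw [← kk_eq_qd]; exact hqa a) (le_max_left _ _) hq1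
  have hR := RR_dl (G := G) (μ := μ) x
  have hBB := E6_BB_le G hμ x
  rw [← hm] at hBB
  have hpur : 23 / 100 ≤ P := by
    have h := purity_69s (L := G.E x) (fun i v => (hμ i).nonneg v) (fun i => (hμ i).sum_eq)
      (link_symm G x) (fun a b c hh => link_tri G x a b c ⟨hh.1, hh.2.2, hh.2.1⟩) hp
    rw [hP]; linarith
  have hT0 : 0 ≤ T := by
    have : 0 ≤ max (1 - ∑ j, pProb μ (G.E x) j - P0) 0 := le_max_right _ _
    linarith
  have hel : T + RR G μ (dl x) ≤ 10 +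
      ∑ a, pProb μ (G.E x) a * kk G x (μ a) (μ a) + q * P + 7 / 2 * m := by
    have e1 : ∑ k, qd (μ k) (G.E x) * (1 - pProb μ (G.E x) k) =
        ∑ a, kk G x (μ a) (μ a) - ∑ a, pProb μ (G.E x) a * kk G x (μ a) (μ a) := by
      rw [← sum_sub_distrib]
      refine sum_congr rfl fun a _ => ?_
      rw [← kk_eq_qd]; ring
    have e2 := E6_DD_eq G hμ x
    have e3 : RR G μ (dl x) = ∑ a, Dn G μ x a + ∑ a, kk G x (μ a) (μ a) := by
      rw [hR, sum_add_distrib]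
    rw [e1] at hel0
    linarith
  -- bounds for the uniform degree
  have hDp : ∀ b, Dp G μ (dl x) b ≤ 59 / 25 := fun b => by
    rw [Dp_dl]
    have := hDu b; have := hνN b; have := hy b; have := hp0 b
    linarith
  have hRlow := D.R_low (dl x) (isW_dl x) D1 (59 / 25) hD1.symm hDp
  rw [← hξ] at hRlow
  have hmml := nm D1 rho D10 hD' hρ
  have hD2 : D1 ^ 2 ≤ 113 / 10000 * (113 / 10000) := by nlinarith
  have hξ2 : ξ ^ 2 ≤ 343 / 100000 * (343 / 100000) := by nlinarith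
  have hRl : 72 / 7 - 1 / 2 ≤ RR G μ (dl x) := by nlinarith
  have hRu : RR G μ (dl x) ≤ 1041 / 100 := by
    have k1 : ∑ a, pProb μ (G.E x) a * kk G x (μ a) (μ a) ≤ (1 - P) * (47 / 140) := by
      have : (1 - P) = ∑ j, pProb μ (G.E x) j := by rw [hP]; ring
      rw [this, sum_mul]
      exact sum_le_sum fun a _ => mul_le_mul_of_nonneg_left (hν1 a x) (hp0 a)
    have k2 : q * P ≤ 47 / 140 * P := mul_le_mul_of_nonneg_right hq1 (by linarith)
    linarith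
  -- coefficients of the test vector
  have hmm : ∀ a, mm G μ (dl x) a = 1 / 6 + 7 / 12 * (RR G μ (dl x) / 6 -
      (Dn G μ x a + kk G x (μ a) (μ a))) := fun a => by unfold mm; rw [Dp_dl]
  have hml : ∀ a, -(9 / 40) ≤ mm G μ (dl x) a := fun a => by
    rw [hmm]
    have b1 := hDu a; have b2 := hνN a; have b3 := hy a; have b4 := hp0 a
    linarith
  have hmu : ∀ a, mm G μ (dl x) a ≤ 6 / 5 := fun a => by
    rw [hmm]
    have b1 : 0 ≤ Dn G μ x a := by
      have := Dn_ge G hμ x a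
      refine le_trans ?_ this
      exact mul_nonneg (by norm_num) (sum_nonneg fun j _ => mul_nonneg (nee_nonneg _ _) (hp0 j))
    have b2 := hν0 a
    linarith
  have hmh := mh_le (fun a => mm G μ (dl x) a) (sum_mm (dl x)) hml hmu
  set y0 : ℝ := 24 / 5 * m + s1δ m ξ + 169 * (rho - 2 / 7) with hy0
  set rs : ℝ := 8 * m + 4 / 3 * s1δ m ξ + 71 * (rho - 2 / 7) with hrs
  have hyb : ∀ b, |∑ a, Rp G μ a b| ≤ y0 := fun b => by
    have h := YN_abs (G := G) hμ (s1δ m ξ) h4 b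
    rw [← hm] at h
    have e : ∑ a, Rp G μ a b = ∑ a, Rp G μ b a := sum_congr rfl fun a _ => Rp_swap b a
    rw [e]; exact h
  have hrh : ∀ b, |∑ a, mm G μ (dl x) a * Rp G μ a b| ≤ 39 / 80 * y0 + 57 / 80 * rs := fun b => by
    have h := Rsum_le (G := G) hμ (s1δ m ξ) h4 b
    rw [← hm] at h
    exact rh_le (fun a => mm G μ (dl x) a) (fun a => Rp G μ a b) y0 rs hml hmu (hyb b) h
  have hr : ∀ a b, |Rp G μ a b| ≤ 4 * m + s1δ m ξ + 71 * (rho - 2 / 7) := fun a b => by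
    have h := Rp_abs (G := G) hμ (s1δ m ξ) h4 a b
    rw [← hm] at h
    exact h
  have hyc : ∀ a, |∑ b, Rp G μ a b| ≤ y0 := fun a => by
    have h := YN_abs (G := G) hμ (s1δ m ξ) h4 a
    rw [← hm] at h
    exact h
  have hL4 := D.L4 (dl x) (isW_dl x) D1 ((s1D m ξ + ξ) / 2)
    (4 * m + s1δ m ξ + 71 * (rho - 2 / 7)) y0 hD1.symm (by rw [← hξ]; linarith) hr hyc
    (by linarith)
  set κ : ℝ := 3 * ((s1D m ξ + ξ) / 2) + y0 / 36 +
    42 * (2 * ((s1D m ξ + ξ) / 2) + y0 / 36) ^ 2 with hκ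
  have hRL := D.RL (dl x) (isW_dl x) D1 (14 / 5) (39 / 80 * y0 + 57 / 80 * rs) κ hD1.symm
    hmh hrh hL4
  rw [← hξ] at hRL
  -- the final inequality
  have hfin := s1g_arith (fun a => pProb μ (G.E x) a) (fun a => kk G x (μ a) (μ a))
    (fun a => Dn G μ x a) (fun a => YN G μ a) (fun a => MN G μ a) (fun a => BN G μ a)
    (fun a => eN G μ a) (RR G μ (dl x)) P q rho m (s1χ m ξ) (s1δ m ξ) (rho + 5 * m + s1χ m ξ)
    (36 * ξ * (t + 2 / 7) + (12 * D1 * (39 / 80 * y0 + 57 / 80 * rs) + 18 * (1 + 14 / 5) *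
      (D1 ^ 2 + 2 * ξ ^ 2) + 36 * ξ * κ)) T P0 hp0 (fun a => (hp a).trans (by norm_num)) hP hpur
    hP0 hT0 hR hel
    (by
      have e : ∀ a, mm G μ (dl x) a * YN G μ a = (1 / 6 + 7 / 12 * (RR G μ (dl x) / 6 -
        (Dn G μ x a + kk G x (μ a) (μ a)))) * YN G μ a := fun a => by rw [hmm]
      rw [sum_congr rfl fun a _ => e a] at hRL
      linarith)
    hDl hDu hν0 hνN k hqk hq1 (fun a => hν1 a x)
    (fun a => by
      have b1 := YN_eq (G := G) (μ := μ) a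
      have b2 := GN_nonneg (G := G) hμ a
      have b3 := BO_nonneg (G := G) hμ a
      linarith)
    bM0 bMm bB be n4 n6 (by linarith)
    (fun S' α P' g1 g2 g3 => by
      have h := Y_set_k (G := G) hμ S' k (s1δ m ξ) α P' h4 g1 g2 g3
      rw [← hm] at h
      exact h)
    (sum_YN_le hμ)
    (by
      have h := sum_YN_ge (G := G) hμ (s1δ m ξ) h4
      rw [← hm] at h
      linarith)
    (fun a => by
      have h := YN_ge (G := G) hμ (s1δ m ξ) h4 a
      rw [← hm] at h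
      linarith)
    hρ0 hNl hy (by linarith) (by linarith) hRl
  have htot := nt D1 rho t (39 / 80 * y0 + 57 / 80 * rs) κ y0 rs D10 hD' hρ0 hρ
    htρ hy0 hrs rfl hκ
  -- slope
  obtain ⟨z, hz⟩ : ∃ z, z = max (P - P0) 0 := ⟨_, rfl⟩
  have z0 : 0 ≤ z := by rw [hz]; exact le_max_right _ _
  have z1 : P - P0 ≤ z := by rw [hz]; exact le_max_left _ _
  rw [← hz] at hT hfin
  have hslope : 2 * m * (P - P0) + 7 / 12 * (2 * (P - P0)) *
      (4 * m + 8 / 7 * s1δ m ξ) + z / 6 * (12 * m + s1δ m ξ) ≤ 1 / 5 * z := by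
    have h2 : 2 * m + 7 / 6 * (4 * m + 8 / 7 * s1δ m ξ) + (12 * m + s1δ m ξ) / 6 ≤ 1 / 5 := by
      linarith
    have h3 := mul_le_mul_of_nonneg_right h2 z0
    have h4 : 2 * m * (P - P0) ≤ 2 * m * z := mul_le_mul_of_nonneg_left z1 (by linarith)
    have h5 : 7 / 6 * (4 * m + 8 / 7 * s1δ m ξ) * (P - P0) ≤
        7 / 6 * (4 * m + 8 / 7 * s1δ m ξ) * z := mul_le_mul_of_nonneg_left z1 (by linarith)
    linarith
  linarith

end Stage1

end K4m
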