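import Mathlib
import Pool.Agent.Lib.MP_392c14_co.Acc.Stage1G
import Pool.Agent.Lib.MP_392c14_co.Acc.S1H
import Pool.Agent.Lib.MP_392c14_co.Acc.LinS9

/-!
# Every vertex is close to a pentagon: clones and total partitions
-/

set_option autoImplicit false

namespace K4m

open Finset Function

section Cl

variable {V : Type} [Fintype V] [DecidableEq V] (G : TG V) (w : V → ℝ)

/-- **First stage for the clones of a good standard copy.** -/
theorem clone_67 (hw : IsW w) (hpos : ∀ x, 0 < w x) (hdeg : ∀ x, deg G w x = val G w)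
    (hcnd : ∀ f : V → ℝ, ∑ x, f x = 0 → tri G f f w ≤ 0) (hnear : rho - 1 / 10 ^ 12 ≤ val G w)
    (hrho : rho ≤ 28572 / 100000) {u : Fin 6 → V} (hu : St G u)
    (hF : 14 * Xu G w u + 10 * Pf G w u + 5 * Qf G w u ≤ 48 / 1000) (x : V) :
    ∃ k, 67 / 100 < pProb (muU G w u) (G.E x) k := by
  by_contra hcon
  push Not at hcon
  have D := dec_clone G w hw hpos hdeg hcnd hu
  obtain ⟨-, h2, h3, h4, -, -⟩ := clone_sizes G w hw hpos hdeg hcnd hnear hrho hu hF
  have eX : xX (XU G w u) = Xu G w u := rfl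
  have hm0 := mN_nonneg (G := G) D.hμ
  have hx0 : 0 ≤ xX (XU G w u) := D.xX_nonneg
  rw [← eX] at h2 h4
  have hr : 14 * xX (XU G w u) + 469 / 100 * mN G (muU G w u) ≤ 48 / 1000 := by linarith
  obtain ⟨m1, x1⟩ := s1_m hm0 hx0 hr
  have hSS : ∀ a x, vs G w u a * muU G w u a x =
      w x * ind ((fun (a : Fin 6) (x : V) => decide (St G (update u a x))) a x) :=
    fun a x => vs_mul_muU G w hpos hu a x
  refine D.stage1g (fun a x => decide (St G (update u a x))) hSS (cu G u)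
    (muU_col G w hpos hu) hnear rfl hrho (fun a => (by norm_num : (79 : ℝ) / 500 ≤ 4 / 25).trans
    (h3 a)) (by linarith) (by linarith) x1 (s1D_le hm0 hr) (s1δ_le hm0 hx0 hr)
    ((s1χ_le hm0 hx0 hr).trans (by norm_num)) (fun ρ hρ => s1_nu1 hm0 hx0 hr ρ hρ)
    (fun D1 ρ a b c => s1_mmlow hm0 hx0 hr D1 ρ a b c) (33 / 100) (105 / 1000)
    (105 / 1000 + 29 / 100 * max (1 - ∑ j, pProb (muU G w u) (G.E x) j - 33 / 100) 0)
    (by norm_num) (by norm_num)
    (fun D1 ρ t rh κ y0 rs a1 a2 a3 a4 a5 a6 a7 a8 a9 =>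
      s1g_totalC hm0 hx0 hr D1 ρ t rh κ y0 rs a1 a2 a3 a4 a5 a6 a7 a8 a9) x
    (fun j => (hcon j).trans (by norm_num)) le_rfl ?_
  intro q hq hq1 hq2
  rcases le_total (1 - ∑ j, pProb (muU G w u) (G.E x) j - 33 / 100) 0 with h | h
  · rw [max_eq_right h]
    have := stage1_67 D.hμ (L := G.E x) (link_symm G x) (link_tri G x) hq hq1 hq2 hcon
    linarith
  · rw [max_eq_left h]
    have := stage1_67s D.hμ (L := G.E x) (link_symm G x) (link_tri G x) hq hq1 hq2 hcon
    linarith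

end Cl

section To

variable {V : Type} [Fintype V] (G : TG V) (w : V → ℝ) (c : V → Fin 6)

/-- **First stage for a total partition.** -/
theorem total_68 (hw : IsW w) (hcl : ∀ a, 0 < cl w c a) (hdeg : ∀ x, deg G w x = val G w)
    (hcnd : ∀ f : V → ℝ, ∑ x, f x = 0 → tri G f f w ≤ 0) (hnear : rho - 1 / 10 ^ 12 ≤ val G w)
    (hrho : rho ≤ 28572 / 100000) (hm : mN G (muT w c) ≤ 21 / 2000)
    (h0 : ∑ b, |cl w c b - 1 / 6| ≤ 3 / 100) (x : V) :
    ∃ k, 68 / 100 < pProb (muT w c) (G.E x) k := by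
  by_contra hcon
  push Not at hcon
  have D := dec_total G hw hcl hdeg hcnd
  have hX : xX (fun _ : V => (0 : ℝ)) = 0 := by unfold xX; simp
  have hm0 := mN_nonneg (G := G) D.hμ
  have hs := (total_sizes105 G w c hw hcl hdeg hcnd hnear hrho hm h0).1
  have hc : ∀ a x, cl w c a * muT w c a x = (w x - 0) * pin c a x := by
    intro a x
    rw [cl_mul_muT (hcl a), sub_zero]
    rfl
  have hSS : ∀ a x, cl w c a * muT w c a x =
      w x * ind ((fun (a : Fin 6) (x : V) => decide (c x = a)) a x) := by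
    intro a x
    rw [cl_mul_muT (hcl a)]
    unfold ind
    simp
  have hv : ∀ a, 79 / 500 ≤ cl w c a := by
    intro a
    have h1 := D.abs_sgm_le a
    have e0 : ∀ b, sgm (cl w c) (fun _ : V => (0 : ℝ)) b = cl w c b - 1 / 6 := by
      intro b; unfold sgm; rw [hX]; ring
    have e1 : ∑ b, |sgm (cl w c) (fun _ : V => (0 : ℝ)) b| = ∑ b, |cl w c b - 1 / 6| :=
      sum_congr rfl fun b _ => by rw [e0]
    rw [e1, e0] at h1
    have h2 := neg_abs_le (cl w c a - 1 / 6)
    linarith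
  have hcon' : ∀ k, pProb (muT w c) (G.E x) k ≤ 17 / 25 := fun k =>
    (hcon k).trans (by norm_num)
  refine D.stage1g (fun a x => decide (c x = a)) hSS c hc hnear rfl hrho hv
    (by rw [hX]; linarith) hm (by rw [hX]; norm_num) (by rw [hX]; exact s1t_D hm0 hm)
    (by rw [hX]; exact s1t_δ hm0 hm) (by rw [hX]; exact s1t_χ hm0 hm)
    (by rw [hX]; exact fun ρ hρ => s1t_ν hm0 hm ρ hρ)
    (by rw [hX]; exact fun D1 ρ a b c => s1t_mm hm0 hm D1 ρ a b c) (32 / 100) (1012 / 10000)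
    (1012 / 10000 + 29 / 100 * max (1 - ∑ j, pProb (muT w c) (G.E x) j - 32 / 100) 0)
    (by norm_num) (by norm_num)
    (by rw [hX]; exact fun D1 ρ t rh κ y0 rs a1 a2 a3 a4 _ a6 a7 a8 _ =>
      s1t_total hm0 hm D1 ρ t rh κ y0 rs a1 a2 a3 a4 a6 a7 a8) x
    (fun j => (hcon j).trans (by norm_num)) le_rfl ?_
  intro q hq hq1 hq2
  rcases le_total (1 - ∑ j, pProb (muT w c) (G.E x) j - 32 / 100) 0 with h | h
  · rw [max_eq_right h]
    have := stage1_68 D.hμ (L := G.E x) (link_symm G x) (link_tri G x) hq hq1 hq2 hcon'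
    linarith
  · rw [max_eq_left h]
    have := stage1_68s D.hμ (L := G.E x) (link_symm G x) (link_tri G x) hq hq1 hq2 hcon'
    linarith

end To

end K4m
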