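import Mathlib
import Pool.Agent.Lib.MP_392c14_co.Acc.Asm
import Pool.Agent.Lib.MP_392c14_co.S2M13
import Pool.Agent.Lib.MP_392c14_co.S2M14
import Pool.Agent.Lib.MP_392c14_co.S2M21
import Pool.Agent.Lib.MP_392c14_co.S2M22
import Pool.Agent.Lib.MP_392c14_co.S2M23

/-!
# The tables of the second stage in the form used by the assembly
-/

set_option autoImplicit false

namespace K4m

theorem tbl_C0 : Tbl (419 / 7500) (345 / 1000) (955 / 1000) (9 / 10) (9 / 10) := by
  intro V _ μ hμ L hs hT k hA hB hl hH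
  exact stage2_T14 hμ hs hT k hA hB (fun a b h => (hl a b h).trans (by norm_num))
    (hH.trans (by norm_num))

theorem tbl_C1 : Tbl (77 / 1200) (345 / 1000) (955 / 1000) (177 / 200) (177 / 200) := by
  intro V _ μ hμ L hs hT k hA hB hl hH
  exact stage2_T13 hμ hs hT k hA hB (fun a b h => (hl a b h).trans (by norm_num))
    (hH.trans (by norm_num))

theorem tbl_T1 : Tbl (2251 / 30000) (325 / 1000) (89 / 100) (873 / 1000) (873 / 1000) := by
  intro V _ μ hμ L hs hT k hA hB hl hH
  exact stage2_T21 hμ hs hT k hA hB (fun a b h => (hl a b h).trans (by norm_num)) hH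

theorem tbl_T2 : Tbl (2717 / 30000) (325 / 1000) (53 / 100) (873 / 1000) (873 / 1000) := by
  intro V _ μ hμ L hs hT k hA hB _ hH
  exact stage2_T22 hμ hs hT k hA hB hH

theorem tbl_T3 : Tbl (637 / 6000) (325 / 1000) (28 / 100) (873 / 1000) (873 / 1000) := by
  intro V _ μ hμ L hs hT k hA hB _ hH
  exact stage2_T23 hμ hs hT k hA hB (hH.trans (by norm_num))

end K4m
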