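import Mathlib
import Pool.Agent.Lib.MP_392c14_co.Acc.Tabs
import Pool.Agent.Lib.MP_392c14_co.Acc.MatOf
import Pool.Agent.Lib.MP_392c14_co.Acc.PurC
import Pool.Agent.Lib.MP_392c14_co.Acc.NuLow
import Pool.Agent.Lib.MP_392c14_co.Cnd
import Pool.Agent.Lib.MP_392c14_co.Reduce3

/-!
# The theorem
-/

set_option autoImplicit false

namespace K4m

open Finset

/-- from a good clone tuple to the good partition -/
theorem good_part_of {n : ℕ} (G : TG (Fin n)) (w : Fin n → ℝ) (h : NearOpt (1 / 10 ^ 16) G w)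
    (r1 : rho ≤ 28572 / 100000) {u : Fin 6 → Fin n} (hu : St G u)
    (hF : 14 * Xu G w u + 10 * Pf G w u + 5 * Qf G w u ≤ 48 / 1000) :
    ∃ c : Fin n → Fin 6, GoodPart G w c := by
  have hw := h.isW
  have hpos := h.pos
  have hdeg := h.reg
  have hcnd : ∀ f : Fin n → ℝ, ∑ x, f x = 0 → tri G f f w ≤ 0 :=
    fun f hf => cnd_of_opt G w hw hpos h.opt f hf
  have hnear := h.near
  have hn16 : rho - 1 / 10 ^ 16 ≤ val G w := hnear.le
  have hn12 : rho - 1 / 10 ^ 12 ≤ val G w := by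
    have : (1 / 10 ^ 16 : ℝ) ≤ 1 / 10 ^ 12 := by norm_num
    linarith
  have : Nonempty (Fin n) := ⟨u 0⟩
  -- the types
  have h67 := clone_67 G w hw hpos hdeg hcnd hn12 r1 hu hF
  choose c hc using h67
  refine ⟨c, ?_⟩
  obtain ⟨M, ⟨S, hS⟩, hp⟩ := mat_clone G w hw hpos hdeg hcnd hn16 r1 hu hF c hc
  have hνa := M.nu_low S hS rfl hp tbl_C0 (by norm_num)
  have hm := M.total S hS rfl hp hνa tbl_C1 (by norm_num)
  have hcl : ∀ a, 0 < cl w c a := M.dec.cl_pos2 M.hc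
  have hsz : ∑ b, |cl w c b - 1 / 6| ≤ 3 / 100 := by
    have h1 := M.A0
    have h2 : ∑ b, |cl w c b - 1 / 6| = ∑ a, |nty (vM (muU G w u) (vs G w u) c)
        (XM (muU G w u) (vs G w u) (XU G w u) c) c a| :=
      sum_congr rfl fun a _ => by rw [M.dec.cl_nty M.hc a]
    rw [h2]
    linarith
  have hm2 : mN G (muT w c) ≤ 21 / 2000 := by linarith
  obtain ⟨hD, hK⟩ := total_sizes105 G w c hw hcl hdeg hcnd hn12 r1 hm2 hsz
  have hpT : ∀ x, 68 / 100 < pProb (muT w c) (G.E x) (c x) :=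
    fun x => M.pT hp (by norm_num)
      (fun x => total_68 G w c hw hcl hdeg hcnd hn12 r1 hm2 hsz x) x
  have hνb := total_nu_low hw hcl hdeg hcnd (by linarith) r1 hm hD hK hpT tbl_C0 (by norm_num)
  exact good_total hw hcl hdeg hcnd (by linarith) r1 hm hD hK hpT hνb tbl_T1 tbl_T2 tbl_T3
    (by norm_num) (by norm_num) (by norm_num)

end K4m
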