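import Mathlib
import Pool.Agent.Lib.MP_392c14_co.Acc.Fin1
import Pool.Agent.Lib.MP_392c14_co.PA.Main
import Pool.Agent.Lib.MP_392c14_co.Ev.PB.Sel

/-!
# The Turan density of `K_4^-` is `2 / 7`
-/

set_option autoImplicit false

namespace K4m

open Finset

/-- every nearly optimal weighted 3-graph has a good partition -/
theorem good_part {n : ℕ} (G : TG (Fin n)) (w : Fin n → ℝ) (h : NearOpt (1 / 10 ^ 16) G w) :
    ∃ c : Fin n → Fin 6, GoodPart G w c := by
  have hw := h.isW
  have r0 : 2 / 7 ≤ rho := h.low.le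
  have r1 : rho ≤ 28572 / 100000 := rho_lt.le
  have hnear := h.near
  have hle : val G w ≤ rho := val_le_rho G w hw
  obtain ⟨u, hu, hF⟩ := Ev.PB.sel r0 r1 G w hw h.pos (val G w) h.reg (by
    rw [abs_le]
    constructor
    · linarith
    · have : (1 / 10 ^ 16 : ℝ) ≤ 1 / 10 ^ 9 := by norm_num
      linarith)
  exact good_part_of G w h r1 hu (by linarith)

/-- the Turan density of `K_4^-` -/
theorem tendsto_two_sevenths : Filter.Tendsto (fun n : ℕ => (exK4m n : ℝ) /
    ((n.choose 3 : ℕ) : ℝ)) Filter.atTop (nhds (2 / 7 : ℝ)) :=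
  tendsto_of3 (1 / 10 ^ 16) (by norm_num) (fun G w h => good_part G w h)

end K4m
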